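import Pool.Agent.P.MP_a62d3c_co.FF.Defs

namespace Pool.Agent.P.MP_a62d3c_co.FF

open Filter Topology Polynomial MeasureTheory Asymptotics
open scoped ComplexConjugate Matrix ComplexOrder

/-! Paper section 3, first paragraph: calculus of `LapGe`. -/

theorem Lap_sec_add {ψ ψ' : ℂ → ℝ} {t τ : ℂ} {a a' : ℝ} (h : Sec ψ t τ a) (h' : Sec ψ' t τ a') :
    Sec (fun x => ψ x + ψ' x) t τ (a + a') := by
  obtain ⟨g, h1, h2⟩ := h
  obtain ⟨g', h3, h4⟩ := h'
  exact ⟨fun s => g s + g' s, (h1.and h3).mono fun s hs => hs.1.add hs.2, h2.add h4⟩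

theorem Lap_sec_smul {ψ : ℂ → ℝ} {t τ : ℂ} {a : ℝ} (h : Sec ψ t τ a) (c : ℝ) :
    Sec (fun x => c * ψ x) t τ (c * a) := by
  obtain ⟨g, h1, h2⟩ := h
  exact ⟨fun s => c * g s, h1.mono fun s hs => hs.const_mul c, h2.const_mul c⟩

theorem Lap_sec_const (c : ℝ) (t τ : ℂ) : Sec (fun _ => c) t τ 0 :=
  ⟨fun _ => 0, Eventually.of_forall fun s => hasDerivAt_const s c, hasDerivAt_const _ _⟩

theorem Lap_line {h : ℂ → ℂ} {t τ : ℂ} {s : ℝ} (ha : DifferentiableAt ℂ h (t + s * τ)) :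
    HasDerivAt (fun w : ℂ => h (t + w * τ)) (deriv h (t + s * τ) * τ) s := by
  have h1 : HasDerivAt (fun w : ℂ => t + w * τ) τ s := by
    simpa using ((hasDerivAt_id (s : ℂ)).mul_const τ).const_add t
  exact HasDerivAt.comp (h₂ := h) (s : ℂ) ha.hasDerivAt h1

theorem Lap_sec_re {h : ℂ → ℂ} {t : ℂ} (ha : AnalyticAt ℂ h t) (τ : ℂ) :
    Sec (fun x => (h x).re) t τ (deriv (deriv h) t * τ * τ).re := by
  refine ⟨fun s => (deriv h (t + s * τ) * τ).re, ?_, ?_⟩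
  · have h1 : Tendsto (fun s : ℝ => t + s * τ) (𝓝 0) (𝓝 t) :=
      Continuous.tendsto' (by fun_prop) _ _ (by simp)
    exact (h1.eventually ha.eventually_analyticAt).mono fun s hs =>
      (Lap_line hs.differentiableAt).real_of_complex
  · have h2 := (Lap_line (h := deriv h) (t := t) (τ := τ) (s := 0)
      (by simpa using ha.deriv.differentiableAt)).mul_const τ
    simpa using h2.real_of_complex

theorem Lap_sec_sq (u t τ : ℂ) : Sec (fun x => ‖x - u‖ ^ 2) t τ (2 * ‖τ‖ ^ 2) := by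
  have e : (fun σ : ℝ => ‖t + σ * τ - u‖ ^ 2) = fun σ : ℝ => ‖t - u‖ ^ 2 +
      2 * ((t - u).re * τ.re + (t - u).im * τ.im) * σ + ‖τ‖ ^ 2 * (σ * σ) := by
    funext σ
    simp only [Complex.sq_norm, Complex.normSq_apply, Complex.sub_re, Complex.sub_im,
      Complex.add_re, Complex.add_im, Complex.re_ofReal_mul, Complex.im_ofReal_mul]
    ring
  refine ⟨fun s => 2 * ((t - u).re * τ.re + (t - u).im * τ.im) + 2 * ‖τ‖ ^ 2 * s,
    Eventually.of_forall fun s => ?_, ?_⟩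
  · rw [e]
    exact ((((hasDerivAt_id' s).const_mul _).const_add _).add
      (((hasDerivAt_id' s).mul (hasDerivAt_id' s)).const_mul _)).congr_deriv (by ring)
  · exact (((hasDerivAt_id' (0 : ℝ)).const_mul _).const_add _).congr_deriv (by ring)

theorem Lap_sec_max {ψ : ℂ → ℝ} {t τ : ℂ} {a : ℝ} (h : Sec ψ t τ a) (hm : IsLocalMax ψ t) :
    a ≤ 0 := by
  obtain ⟨g, h1, h2⟩ := h
  by_contra ha
  have h3 : Tendsto (fun s : ℝ => t + s * τ) (𝓝 0) (𝓝 t) :=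
    Continuous.tendsto' (by fun_prop) _ _ (by simp)
  have h4 : IsLocalMax (fun s : ℝ => ψ (t + s * τ)) 0 := by
    have := h3.eventually hm
    simpa [IsLocalMax, IsMaxFilter] using this
  have h5 : deriv (fun s : ℝ => ψ (t + s * τ)) =ᶠ[𝓝 0] g := h1.mono fun s hs => hs.deriv
  have h6 : deriv (deriv fun s : ℝ => ψ (t + s * τ)) 0 = a := by rw [h5.deriv_eq, h2.deriv]
  have h7 := isLocalMin_of_deriv_deriv_pos (by rw [h6]; exact not_le.1 ha) h4.deriv_eq_zero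
    h1.self_of_nhds.continuousAt
  have h8 : (fun s : ℝ => ψ (t + s * τ)) =ᶠ[𝓝 0] fun _ => ψ (t + (0 : ℝ) * τ) :=
    (Eventually.and h4 h7).mono fun s hs => le_antisymm hs.1 hs.2
  rw [h8.deriv.deriv_eq] at h6
  simp at h6
  exact ha h6.ge

theorem Lap_ball {P : ℂ → Prop} {t₀ : ℂ} (h : ∀ᶠ t in 𝓝 t₀, P t) :
    ∀ᶠ r in 𝓝[>] (0 : ℝ), ∀ t ∈ Metric.closedBall t₀ r, P t :=
  (eventually_closedBall_subset h).filter_mono nhdsWithin_le_nhds

theorem LapGe.add {φ φ' : ℂ → ℝ} {t₀ : ℂ} (h : LapGe φ t₀) (h' : LapGe φ' t₀) :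
    LapGe (fun t => φ t + φ' t) t₀ := by
  intro η hη
  filter_upwards [h (η / 2) (half_pos hη), h' (η / 2) (half_pos hη)] with r h1 h2 θ hθ
  obtain ⟨ψ, a1, a2, a3, a4⟩ := h1 (θ / 2) (half_pos hθ)
  obtain ⟨ψ', b1, b2, b3, b4⟩ := h2 (θ / 2) (half_pos hθ)
  refine ⟨fun x => ψ x + ψ' x, a1.add b1, fun t ht => ?_, by linarith, fun t ht => ?_⟩
  · obtain ⟨a, b, c1, c2, c3⟩ := a2 t ht
    obtain ⟨a', b', d1, d2, d3⟩ := b2 t ht
    exact ⟨_, _, Lap_sec_add c1 d1, Lap_sec_add c2 d2, by linarith⟩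
  · have := a4 t ht
    have := b4 t ht
    linarith

theorem LapGe.smul {φ : ℂ → ℝ} {t₀ : ℂ} (h : LapGe φ t₀) {c : ℝ} (hc : 0 ≤ c) :
    LapGe (fun t => c * φ t) t₀ := by
  intro η hη
  have key : ∀ x : ℝ, 0 < x → c * (x / (c + 1)) ≤ x := fun x hx => by
    rw [← mul_div_assoc, div_le_iff₀ (by linarith)]
    linarith
  filter_upwards [h (η / (c + 1)) (by positivity)] with r h1 θ hθ
  obtain ⟨ψ, a1, a2, a3, a4⟩ := h1 (θ / (c + 1)) (by positivity)
  have k1 := key η hη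
  have k2 := key θ hθ
  refine ⟨fun x => c * ψ x, continuousOn_const.mul a1, fun t ht => ?_, ?_, fun t ht => ?_⟩
  · obtain ⟨a, b, c1, c2, c3⟩ := a2 t ht
    have := mul_le_mul_of_nonneg_left c3 hc
    exact ⟨_, _, Lap_sec_smul c1 c, Lap_sec_smul c2 c, by linarith⟩
  · have := mul_le_mul_of_nonneg_left a3 hc
    linarith
  · have := mul_le_mul_of_nonneg_left (a4 t ht) hc
    have := mul_le_mul_of_nonneg_right k1 (sq_nonneg r)
    linarith

theorem lapGe_const (c : ℝ) (t₀ : ℂ) : LapGe (fun _ => c) t₀ := fun η hη =>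
  Eventually.of_forall fun r θ hθ => ⟨fun _ => c, continuousOn_const,
    fun t _ => ⟨0, 0, Lap_sec_const _ _ _, Lap_sec_const _ _ _, by linarith⟩, by linarith,
    fun t _ => by have := mul_nonneg hη.le (sq_nonneg r); linarith⟩

theorem LapGe.sum {ι : Type*} {A : Finset ι} {φ : ι → ℂ → ℝ} {t₀ : ℂ}
    (h : ∀ i ∈ A, LapGe (φ i) t₀) : LapGe (fun t => ∑ i ∈ A, φ i t) t₀ := by
  classical
  induction A using Finset.induction_on with
  | empty => simpa using lapGe_const 0 t₀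
  | insert a A ha ih =>
    simp only [Finset.sum_insert ha]
    exact (h a (Finset.mem_insert_self _ _)).add (ih fun i hi => h i (Finset.mem_insert_of_mem hi))

/-- a minorant up to `o(|t - t₀|²)` that touches at `t₀` -/
theorem LapGe.of_le {φ φ' : ℂ → ℝ} {t₀ : ℂ} (h : LapGe φ' t₀) (h0 : φ t₀ ≤ φ' t₀)
    (hle : ∀ η > (0 : ℝ), ∀ᶠ t in 𝓝 t₀, φ' t ≤ φ t + η * ‖t - t₀‖ ^ 2) : LapGe φ t₀ := by
  intro η hη
  filter_upwards [h (η / 2) (half_pos hη), Lap_ball (hle (η / 2) (half_pos hη))] with r h1 h2 θ hθ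
  obtain ⟨ψ, a1, a2, a3, a4⟩ := h1 θ hθ
  refine ⟨ψ, a1, fun t ht => ?_, by linarith, fun t ht => ?_⟩
  · obtain ⟨a, b, c1, c2, c3⟩ := a2 t ht
    exact ⟨a, b, c1, c2, by linarith⟩
  · have e1 := a4 t ht
    have e2 := h2 t (Metric.sphere_subset_closedBall ht)
    rw [mem_sphere_iff_norm.1 ht] at e2
    linarith

theorem LapGe.congr {φ φ' : ℂ → ℝ} {t₀ : ℂ} (h : LapGe φ' t₀) (he : ∀ᶠ t in 𝓝 t₀, φ' t = φ t) :
    LapGe φ t₀ :=
  h.of_le he.self_of_nhds.ge fun η hη => he.mono fun t ht => by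
    have := mul_nonneg hη.le (sq_nonneg ‖t - t₀‖)
    linarith

/-- take `ψ = re ∘ h`; the second derivatives are `re h''` and `- re h''` -/
theorem lapGe_re {h : ℂ → ℂ} {t₀ : ℂ} (ha : AnalyticAt ℂ h t₀) :
    LapGe (fun t => (h t).re) t₀ := by
  intro η hη
  filter_upwards [Lap_ball ha.eventually_analyticAt] with r h1 θ hθ
  refine ⟨fun t => (h t).re, fun t ht => ?_, fun t ht => ?_, by linarith, fun t _ => ?_⟩
  · exact (Complex.continuous_re.continuousAt.comp (h1 t ht).continuousAt).continuousWithinAt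
  · have h2 := h1 t (Metric.ball_subset_closedBall ht)
    refine ⟨_, _, Lap_sec_re h2 1, Lap_sec_re h2 Complex.I, ?_⟩
    rw [mul_assoc _ Complex.I, Complex.I_mul_I]
    simpa using hη.le
  · have := mul_nonneg hη.le (sq_nonneg r)
    linarith

/-- `log ‖h t‖ = log ‖h t₀‖ + re (log (h t / h t₀))` near `t₀`; any sign of `c` -/
theorem lapGe_log {h : ℂ → ℂ} {t₀ : ℂ} (ha : AnalyticAt ℂ h t₀) (h0 : h t₀ ≠ 0) (c : ℝ) :
    LapGe (fun t => c * Real.log ‖h t‖) t₀ := by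
  have h1 : AnalyticAt ℂ (fun t => Complex.log (h t / h t₀)) t₀ :=
    (ha.div analyticAt_const h0).clog (by simp [div_self h0])
  have h2 : AnalyticAt ℂ
      (fun t => (c : ℂ) * (Complex.log (h t / h t₀) + (Real.log ‖h t₀‖ : ℂ))) t₀ :=
    analyticAt_const.mul (h1.add analyticAt_const)
  refine (lapGe_re h2).congr ((ha.continuousAt.eventually_ne h0).mono fun t ht => ?_)
  rw [Complex.re_ofReal_mul, Complex.add_re, Complex.log_re, Complex.ofReal_re, norm_div,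
    Real.log_div (norm_ne_zero_iff.2 ht) (norm_ne_zero_iff.2 h0), sub_add_cancel]

/-- maximum principle: `ψ + c|t|² - (c/2)|t - t₀|²` has no interior maximum (second derivative
test along the lines `1` and `I`), so its maximum on the closed disc is on the circle -/
theorem LapGe.not_max {φ : ℂ → ℝ} {t₀ : ℂ} (h : LapGe φ t₀) {c : ℝ} (hc : 0 < c) :
    ¬∀ᶠ t in 𝓝 t₀, φ t + c * ‖t‖ ^ 2 ≤ φ t₀ + c * ‖t₀‖ ^ 2 := by
  intro hm
  obtain ⟨r, h1, h2, hr⟩ := ((h (c / 4) (by positivity)).and ((Lap_ball hm).and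
    self_mem_nhdsWithin)).exists
  have hr' : 0 < r := hr
  obtain ⟨ψ, a1, a2, a3, a4⟩ := h1 (c * r ^ 2 / 16) (by positivity)
  have hcont : ContinuousOn (fun t => ψ t + c * ‖t - 0‖ ^ 2 + -(c / 2) * ‖t - t₀‖ ^ 2)
      (Metric.closedBall t₀ r) :=
    (a1.add (by fun_prop)).add (by fun_prop)
  obtain ⟨t, ht, hmax⟩ := (isCompact_closedBall t₀ r).exists_isMaxOn
    ⟨t₀, Metric.mem_closedBall_self hr'.le⟩ hcont
  rcases (Metric.mem_closedBall.1 ht).lt_or_eq with hlt | heq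
  · obtain ⟨a, b, c1, c2, c3⟩ := a2 t hlt
    have hl := hmax.isLocalMax (Metric.closedBall_mem_nhds_of_mem hlt)
    have d1 := Lap_sec_max (Lap_sec_add (Lap_sec_add c1 (Lap_sec_smul (Lap_sec_sq 0 t 1) c))
      (Lap_sec_smul (Lap_sec_sq t₀ t 1) (-(c / 2)))) hl
    have d2 := Lap_sec_max (Lap_sec_add (Lap_sec_add c2
      (Lap_sec_smul (Lap_sec_sq 0 t Complex.I) c))
      (Lap_sec_smul (Lap_sec_sq t₀ t Complex.I) (-(c / 2)))) hl
    rw [norm_one] at d1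
    rw [Complex.norm_I] at d2
    linarith
  · have e1 := a4 t heq
    have e2 := h2 t ht
    have e3 : ψ t₀ + c * ‖t₀ - 0‖ ^ 2 + -(c / 2) * ‖t₀ - t₀‖ ^ 2 ≤
        ψ t + c * ‖t - 0‖ ^ 2 + -(c / 2) * ‖t - t₀‖ ^ 2 :=
      hmax (Metric.mem_closedBall_self hr'.le)
    rw [← dist_eq_norm t t₀, heq, sub_self, norm_zero, sub_zero, sub_zero] at e3
    have : 0 < c * r ^ 2 := by positivity
    linarith

end Pool.Agent.P.MP_a62d3c_co.FF
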