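import Pool.Agent.P.MP_a62d3c_co.FF.PFa

namespace Pool.Agent.P.MP_a62d3c_co.FF

open Filter Topology Polynomial MeasureTheory Asymptotics
open scoped ComplexConjugate Matrix ComplexOrder

variable {J : Type} [Fintype J] [DecidableEq J]

/-- `hig z τ P` is the coefficient of `X ^ (n - 1)` of the interpolant of `P (z j) τ j`
(`Lagrange.coeff_eq_sum`). If `hig z τ (A * X ^ b) = 0` for all `b < q` then the interpolant `R`
of `A (z j) τ j` has degree `< n - q` (otherwise take `b = n - 1 - deg R`). -/
theorem interp_degree {z τ : J → ℂ} (hz : Function.Injective z) (A : ℂ[X]) (q : ℕ)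
    (h : ∀ b < q, hig z τ (A * X ^ b) = 0) :
    (Lagrange.interpolate Finset.univ z fun j => A.eval (z j) * τ j).degree <
      (Fintype.card J - q : ℕ) := by
  set R := Lagrange.interpolate Finset.univ z fun j => A.eval (z j) * τ j with hR
  have hinj : Set.InjOn z (Finset.univ : Finset J) := hz.injOn
  have hlt : R.degree < (Finset.univ : Finset J).card := Lagrange.degree_interpolate_lt _ hinj
  rw [Finset.card_univ] at hlt
  by_contra hge
  have hR0 : R ≠ 0 := by
    intro h0
    rw [h0, degree_zero] at hge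
    exact hge (WithBot.bot_lt_coe _)
  rw [← natDegree_lt_iff_degree_lt hR0] at hge hlt
  have hb : Fintype.card J - 1 - R.natDegree < q := by omega
  have h1 := h _ hb
  have h2 : (R * X ^ (Fintype.card J - 1 - R.natDegree) : ℂ[X]).degree <
      (((Finset.univ : Finset J).card : ℕ) : WithBot ℕ) := by
    rw [Finset.card_univ, ← natDegree_lt_iff_degree_lt (mul_ne_zero hR0 (pow_ne_zero _ X_ne_zero)),
      natDegree_mul_X_pow _ hR0]
    omega
  have h3 := Lagrange.coeff_eq_sum hinj h2
  have h4 : (Finset.univ : Finset J).card - 1 =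
      R.natDegree + (Fintype.card J - 1 - R.natDegree) := by
    rw [Finset.card_univ]
    omega
  rw [h4, coeff_mul_X_pow] at h3
  refine leadingCoeff_ne_zero.2 hR0 ?_
  rw [leadingCoeff, h3, ← h1, hig]
  refine Finset.sum_congr rfl fun j hj => ?_
  rw [eval_mul, eval_mul, hR, Lagrange.eval_interpolate_at_node _ hinj hj, dpr]
  ring

/-- `hig` of a polynomial of low degree against `τ = 1` vanishes -/
theorem hig_one {z : J → ℂ} (hz : Function.Injective z) {P : ℂ[X]}
    (hP : P.natDegree + 2 ≤ Fintype.card J) : hig z (fun _ => 1) P = 0 := by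
  have h2 : P.degree < (Finset.univ : Finset J).card := by
    rw [Finset.card_univ]
    refine degree_le_natDegree.trans_lt ?_
    exact_mod_cast (by omega : P.natDegree < Fintype.card J)
  have h3 := Lagrange.coeff_eq_sum hz.injOn h2
  rw [coeff_eq_zero_of_natDegree_lt (by rw [Finset.card_univ]; omega)] at h3
  rw [h3, hig]
  refine Finset.sum_congr rfl fun j _ => ?_
  rw [mul_one, dpr]

/-- if the Higgs matrix vanishes and `n = p + q + 1` then `τ` is affine in `z` -/
theorem affine_of_theta {z τ : J → ℂ} (hz : Function.Injective z) {p q : ℕ} (hp : 1 ≤ p)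
    (hq : 1 ≤ q) (hn : Fintype.card J = p + q + 1) (h : theta p q z τ = 0) :
    ∃ α β : ℂ, ∀ j, τ j = α * z j + β := by
  have h1 := interp_degree (τ := τ) hz 1 (p + q - 1) fun c hc => by
    have h2 := congrFun (congrFun h ⟨min c (p - 1), by omega⟩) ⟨c - min c (p - 1), by omega⟩
    simp only [theta, Matrix.of_apply, Matrix.zero_apply] at h2
    rw [one_mul, ← h2]
    congr 2
    omega
  set R := Lagrange.interpolate Finset.univ z fun j => (1 : ℂ[X]).eval (z j) * τ j with hR
  have h3 : Fintype.card J - (p + q - 1) = 2 := by omega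
  rw [h3] at h1
  have h4 : R.degree ≤ 1 := by
    refine degree_le_of_natDegree_le (n := 1) ?_
    by_cases h0 : R = 0
    · simp [h0]
    · have := (natDegree_lt_iff_degree_lt h0).2 h1
      omega
  refine ⟨R.coeff 1, R.coeff 0, fun j => ?_⟩
  have h5 := Lagrange.eval_interpolate_at_node (fun j => (1 : ℂ[X]).eval (z j) * τ j) hz.injOn
    (Finset.mem_univ j)
  rw [← hR, eq_X_add_C_of_degree_le_one h4] at h5
  simpa using h5.symm

/-- Paper section 3. `R t` is the interpolant of `A (z j) τ j` (write it as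
`∑ j, C (A (z j) τ j / dpr z j) * ∏ i ≠ j, (X - C (z i))` to see analyticity),
`E = ∑ j, (R - C (τ j) * A) /ₘ (X - C (z j))`. If `n = p + q + 2`, the coefficient of `X ^ p` in
`E` is `n c`, where `c` is the coefficient of `X ^ (p + 1)` in `R`, and `μ n = p + 1`. -/
theorem gm {U : Set ℂ} (hU : IsOpen U) {z : ℂ → J → ℂ}
    (hz : ∀ j, AnalyticOnNhd ℂ (fun t => z t j) U) (hi : ∀ t ∈ U, Function.Injective (z t))
    {μ : ℝ} {p q : ℕ} (hy : Hyp μ p q (Fintype.card J)) {A : ℂ → ℂ[X]} (hA : PF U p A)
    (hk : InKer U z q A) :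
    ∃ R E : ℂ → ℂ[X], PF U (Fintype.card J - q - 1 + 1) R ∧ PF U (Fintype.card J - q - 1) E ∧
      PF U p (fun t => dT p A t + derivative (R t) - C (μ : ℂ) * E t) ∧
      ∀ t ∈ U, A t * fT (z t) (dz z t) + R t * derivative (fP (z t)) = fP (z t) * E t := by
  obtain ⟨-, -, hp, hq, hcase⟩ := hy
  have hτ : ∀ j, AnalyticOnNhd ℂ (fun t => dz z t j) U := fun j => (hz j).deriv
  let R : ℂ → ℂ[X] := fun t =>
    Lagrange.interpolate Finset.univ (z t) fun j => (A t).eval (z t j) * dz z t j
  have hd : Fintype.card J - q - 1 + 1 = Fintype.card J - q := by omega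
  have hpd : p ≤ Fintype.card J - q - 1 := by omega
  have hR : PF U (Fintype.card J - q - 1 + 1) R := by
    refine ⟨fun t ht => ?_, ?_⟩
    · rw [hd]
      exact interp_degree (hi t ht) (A t) q (hk t ht)
    · have h1 : PF U (Fintype.card J) fun t => ∑ j, C ((A t).eval (z t j) * dz z t j /
          ∏ i ∈ Finset.univ.erase j, (z t j - z t i)) *
            ∏ i ∈ Finset.univ.erase j, (X - C (z t i)) := by
        refine PF.sum fun j hj => PF.C_mul ?_ ((pf_prod hz _).mono ?_)
        · refine ((hA.eval_analytic hU (hz j)).mul (hτ j)).div ?_ fun t ht => ?_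
          · exact Finset.analyticOnNhd_fun_prod _ fun i _ => (hz j).sub (hz i)
          · refine Finset.prod_ne_zero_iff.2 fun i hi' => sub_ne_zero.2 fun e => ?_
            exact (Finset.ne_of_mem_erase hi') (hi t ht e).symm
        · rw [Finset.card_erase_of_mem hj, Finset.card_univ]
          omega
      simp only [R, Lagrange.interpolate_eq_sum]
      exact h1.2
  have hS : ∀ j, PF U (Fintype.card J - q - 1 + 1) fun t => R t - C (dz z t j) * A t := fun j =>
    hR.sub ((hA.C_mul (hτ j)).mono (by omega))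
  have hD : ∀ j, PF U (Fintype.card J - q - 1)
      fun t => (R t - C (dz z t j) * A t) /ₘ (X - C (z t j)) := fun j =>
    PF.div_lin hU (hz j) (hS j)
  let E : ℂ → ℂ[X] := fun t => ∑ j, (R t - C (dz z t j) * A t) /ₘ (X - C (z t j))
  have hE : PF U (Fintype.card J - q - 1) E := PF.sum fun j _ => hD j
  have hB : PF U (Fintype.card J - q - 1)
      fun t => dT p A t + derivative (R t) - C (μ : ℂ) * E t :=
    ((hA.dT.mono hpd).add hR.deriv_x).sub (hE.C_mul analyticOnNhd_const)
  refine ⟨R, E, hR, hE, ?_, fun t ht => ?_⟩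
  · rcases hcase with ⟨hn, -, -⟩ | ⟨hn, hμ⟩
    · exact hB.mono (by omega)
    refine ⟨fun t ht => ?_, hB.2⟩
    have hd1 : Fintype.card J - q - 1 = p + 1 := by omega
    rw [hd1] at hB hD
    rw [degree_lt_iff_coeff_zero]
    intro m hm
    rcases hm.eq_or_lt with rfl | hlt
    swap
    · exact (degree_lt_iff_coeff_zero _ _).1 (hB.1 t ht) m hlt
    have h1 : (dT p A t).coeff p = 0 := (degree_lt_iff_coeff_zero _ _).1 (hA.dT.1 t ht) p le_rfl
    have h2 : ∀ j, ((R t - C (dz z t j) * A t) /ₘ (X - C (z t j))).coeff p = (R t).coeff (p + 1) := by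
      intro j
      rw [coeff_divByMonic_X_sub_C_rec, (degree_lt_iff_coeff_zero _ _).1 ((hD j).1 t ht) _ le_rfl,
        coeff_sub, coeff_C_mul, (degree_lt_iff_coeff_zero _ _).1 (hA.1 t ht) _ (Nat.le_succ p)]
      ring
    have h3 : (μ : ℂ) * Fintype.card J = p + 1 := by exact_mod_cast hμ
    simp only [E, coeff_sub, coeff_add, coeff_C_mul, h1, coeff_derivative, finsetSum_coeff, h2,
      Finset.sum_const, Finset.card_univ, nsmul_eq_mul]
    rw [← mul_assoc, h3]
    ring
  · have h1 : derivative (fP (z t)) = ∑ j, ∏ i ∈ Finset.univ.erase j, (X - C (z t i)) := by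
      rw [fP, derivative_prod_finset]
      refine Finset.sum_congr rfl fun j _ => ?_
      rw [derivative_X_sub_C, mul_one]
    simp only [E]
    rw [h1, fT, mul_neg, Finset.mul_sum, Finset.mul_sum, Finset.mul_sum, neg_add_eq_sub,
      ← Finset.sum_sub_distrib]
    refine Finset.sum_congr rfl fun j hj => ?_
    have h2 : (X - C (z t j)) * ((R t - C (dz z t j) * A t) /ₘ (X - C (z t j))) =
        R t - C (dz z t j) * A t := by
      rw [mul_divByMonic_eq_iff_isRoot, IsRoot.def, eval_sub, eval_mul, eval_C]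
      simp only [R]
      rw [Lagrange.eval_interpolate_at_node _ (hi t ht).injOn hj]
      ring
    rw [fP, ← Finset.mul_prod_erase _ _ hj, mul_right_comm, h2]
    ring

end Pool.Agent.P.MP_a62d3c_co.FF
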