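import Pool.Agent.P.MP_a62d3c_co.FF.Mom

namespace Pool.Agent.P.MP_a62d3c_co.FF

open Filter Topology Polynomial MeasureTheory Asymptotics
open scoped ComplexConjugate Matrix ComplexOrder

variable {J : Type} [Fintype J] [DecidableEq J]

lemma IBP_line {f g : ℝ → ℂ} (h : ∀ x, HasDerivAt f (g x) x) (hg : Integrable g)
    (hf : Integrable fun x => f x ^ 2) : ∫ x, g x = 0 := by
  have t1 := tendsto_limUnder_of_hasDerivAt_of_integrableOn_Ioi (a := 0) (fun x _ => h x)
    hg.integrableOn
  have t2 := tendsto_limUnder_of_hasDerivAt_of_integrableOn_Iic (a := 0) (fun x _ => h x)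
    hg.integrableOn
  have e1 : limUnder atTop f ^ 2 = 0 := by
    refine IntegrableAtFilter.eq_zero_of_tendsto (hf.integrableAtFilter atTop) ?_ (t1.pow 2)
    intro s hs
    rcases mem_atTop_sets.1 hs with ⟨b, hb⟩
    rw [← top_le_iff, ← Real.volume_Ici (a := b)]
    exact measure_mono hb
  have e2 : limUnder atBot f ^ 2 = 0 := by
    refine IntegrableAtFilter.eq_zero_of_tendsto (hf.integrableAtFilter atBot) ?_ (t2.pow 2)
    intro s hs
    rcases mem_atBot_sets.1 hs with ⟨b, hb⟩
    rw [← top_le_iff, ← Real.volume_Iic (a := b)]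
    exact measure_mono hb
  rw [integral_of_hasDerivAt_of_tendsto h hg t2 t1, pow_eq_zero_iff two_ne_zero |>.1 e1,
    pow_eq_zero_iff two_ne_zero |>.1 e2, sub_self]

lemma IBP_mp : MeasurePreserving (Complex.measurableEquivRealProd.symm)
    ((volume : Measure ℝ).prod volume) volume :=
  Complex.volume_preserving_equiv_real_prod.symm _

lemma IBP_re {F G : ℂ → ℂ}
    (h : ∀ (x : ℂ) (s : ℝ), HasDerivAt (fun t : ℝ => F (x + t * 1)) (G (x + s * 1)) s)
    (hG : Integrable G) (hF : Integrable fun x => F x ^ 2) : ∫ x, G x = 0 := by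
  have hG' := IBP_mp.integrable_comp_of_integrable hG
  have hF' := IBP_mp.integrable_comp_of_integrable hF
  rw [← IBP_mp.integral_comp' G]
  refine (integral_prod_symm _ hG').trans (integral_eq_zero_of_ae ?_)
  filter_upwards [hG'.prod_left_ae, hF'.prod_left_ae] with y h1 h2
  have e : ∀ s : ℝ, Complex.measurableEquivRealProd.symm (s, y) = (y * Complex.I + s * 1 : ℂ) :=
    fun s => Complex.ext (by simp) (by simp)
  simp only [Function.comp_def, e] at h1 h2 ⊢
  exact IBP_line (h _) h1 h2

lemma IBP_im {F G : ℂ → ℂ}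
    (h : ∀ (x : ℂ) (s : ℝ), HasDerivAt (fun t : ℝ => F (x + t * Complex.I))
      (G (x + s * Complex.I)) s)
    (hG : Integrable G) (hF : Integrable fun x => F x ^ 2) : ∫ x, G x = 0 := by
  have hG' := IBP_mp.integrable_comp_of_integrable hG
  have hF' := IBP_mp.integrable_comp_of_integrable hF
  rw [← IBP_mp.integral_comp' G]
  refine (integral_prod _ hG').trans (integral_eq_zero_of_ae ?_)
  filter_upwards [hG'.prod_right_ae, hF'.prod_right_ae] with y h1 h2
  have e : ∀ s : ℝ, Complex.measurableEquivRealProd.symm (y, s) = (y + s * Complex.I : ℂ) :=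
    fun s => Complex.ext (by simp) (by simp)
  simp only [Function.comp_def, e] at h1 h2 ⊢
  exact IBP_line (h _) h1 h2

lemma IBP_deg_mul {P Q : ℂ[X]} {n m k : ℕ} (hP : P.degree < n) (hQ : Q.degree < (m + 1 : ℕ))
    (hk : n + m ≤ k) : (P * Q).degree < k := by
  rw [degree_lt_iff_coeff_zero] at hP hQ ⊢
  intro j hj
  rw [coeff_mul]
  refine Finset.sum_eq_zero fun c hc => ?_
  have e : c.1 + c.2 = j := by simpa using hc
  rcases le_or_gt n c.1 with h | h
  · rw [hP _ h, zero_mul]
  · rw [hQ _ (by omega), mul_zero]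

lemma IBP_deg_der {P : ℂ[X]} {m : ℕ} (hP : P.degree < (m + 1 : ℕ)) :
    (derivative P).degree < m := by
  rw [degree_lt_iff_coeff_zero] at hP ⊢
  intro j hj
  rw [coeff_derivative, hP _ (by omega), zero_mul]

lemma IBP_deg_f (z : J → ℂ) : (fP z).degree < (Fintype.card J + 1 : ℕ) := by
  have h : (fP z).natDegree = Fintype.card J := by
    rw [fP, natDegree_prod_of_monic _ _ fun j _ => monic_X_sub_C _]
    simp
  refine degree_le_natDegree.trans_lt ?_
  rw [h]
  exact_mod_cast Nat.lt_succ_self _

lemma IBP_der (z : J → ℂ) (ν : ℝ) {ε : ℝ} (hε : 0 < ε) (R Q : ℂ[X]) (v x : ℂ) (s : ℝ) :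
    HasDerivAt (fun t : ℝ => momI z ν ε R Q (x + t * v))
      (v * (momI z ν ε (derivative R) Q (x + s * v) -
          ν * momI z (ν + 1) ε (R * derivative (fP z)) (Q * fP z) (x + s * v)) +
        conj v * (momI z ν ε R (derivative Q) (x + s * v) -
          ν * momI z (ν + 1) ε (R * fP z) (Q * derivative (fP z)) (x + s * v))) s := by
  have hγ : HasDerivAt (fun t : ℝ => x + t * v) v s := by
    simpa using ((hasDerivAt_id s).ofReal_comp.mul_const v).const_add x
  have hP : ∀ P : ℂ[X], HasDerivAt (fun t : ℝ => P.eval (x + t * v))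
      ((derivative P).eval (x + s * v) * v) s := fun P =>
    HasDerivAt.comp (h₂ := fun u : ℂ => P.eval u) s (P.hasDerivAt (x + s * v)) hγ
  have hpos : 0 < ‖(fP z).eval (x + s * v)‖ ^ 2 + ε := by positivity
  have hw := (((hP (fP z)).norm_sq.add_const ε).rpow_const (p := -ν) (Or.inl hpos.ne')).ofReal_comp
  have h := ((hP R).mul (hP Q).star).mul hw
  refine h.congr_deriv ?_
  simp only [momI, Pi.mul_apply, eval_mul, map_mul, Complex.star_def, Complex.inner]
  rw [show -ν - 1 = -(ν + 1) by ring]
  push_cast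
  rw [Complex.re_eq_add_conj]
  simp only [map_mul, Complex.conj_conj]
  ring

/-- Integration by parts. `F = R conj(Q) (|f|² + ε) ^ (-ν)` is smooth, `O(|x| ^ (-1 - κ))` with
`κ > 0` (NOT integrable in general), and its first derivatives are integrable. Show that the
integrals of the derivatives of `F` in the directions `1` and `I` vanish (either Fubini with
`Complex.volume_preserving_equiv_real_prod` and `integral_of_hasDerivAt_of_tendsto` on lines, or
`integral_bilinear_hasLineDerivAt_right_eq_neg_left_of_integrable` against the cut-off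
`(1 + κ |x|²)⁻¹` and dominated convergence); combine them as `∂₁ - I ∂₂`. -/
theorem ibp (z : J → ℂ) {ν ε : ℝ} (hν : 0 < ν) (hε : 0 < ε) {R Q : ℂ[X]} {a b : ℕ}
    (hR : R.degree < (a + 1 : ℕ)) (hQ : Q.degree < b)
    (hd : (a : ℝ) + b < 2 * ν * Fintype.card J) :
    mom z ν ε (derivative R) Q =
      ν * mom z (ν + 1) ε (R * derivative (fP z)) (Q * fP z) := by
  rcases b with _ | b
  · have hQ0 : Q = 0 := by
      ext j
      exact (degree_lt_iff_coeff_zero Q 0).1 hQ j (Nat.zero_le j)
    simp [hQ0, mom, momI]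
  have hν1 : 0 < ν + 1 := by linarith
  have hf := IBP_deg_f z
  have hf' := IBP_deg_der hf
  push_cast at hd
  have i1 : Integrable (momI z ν ε (derivative R) Q) :=
    mom_int z hν hε (IBP_deg_der hR) hQ (by push_cast; linarith)
  have i2 : Integrable (momI z (ν + 1) ε (R * derivative (fP z)) (Q * fP z)) :=
    mom_int z hν1 hε (a := Fintype.card J + a) (b := b + 1 + Fintype.card J)
      (mul_comm R _ ▸ IBP_deg_mul hf' hR le_rfl) (IBP_deg_mul hQ hf le_rfl)
      (by push_cast; linarith)
  have i3 : Integrable (momI z ν ε R (derivative Q)) :=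
    mom_int z hν hε hR (IBP_deg_der hQ) (by push_cast; linarith)
  have i4 : Integrable (momI z (ν + 1) ε (R * fP z) (Q * derivative (fP z))) :=
    mom_int z hν1 hε (a := a + 1 + Fintype.card J) (b := Fintype.card J + b)
      (IBP_deg_mul hR hf le_rfl) (mul_comm Q _ ▸ IBP_deg_mul hf' hQ le_rfl)
      (by push_cast; linarith)
  have i5 : Integrable fun x => momI z ν ε R Q x ^ 2 := by
    have h := mom_int z (ν := 2 * ν) (by linarith) hε (IBP_deg_mul hR hR le_rfl)
      (IBP_deg_mul hQ hQ le_rfl) (by push_cast; linarith)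
    refine h.congr (Eventually.of_forall fun x => ?_)
    have hpos : 0 < ‖(fP z).eval x‖ ^ 2 + ε := by positivity
    simp only [momI, eval_mul, map_mul]
    rw [show -(2 * ν) = -ν + -ν by ring, Real.rpow_add hpos]
    push_cast
    ring
  have iA := i1.sub (i2.const_mul (ν : ℂ))
  have iB := i3.sub (i4.const_mul (ν : ℂ))
  have e1 := IBP_re (IBP_der z ν hε R Q 1) ((iA.const_mul 1).add (iB.const_mul _)) i5
  have e2 := IBP_im (IBP_der z ν hε R Q Complex.I) ((iA.const_mul _).add (iB.const_mul _)) i5
  have eA := integral_sub i1 (i2.const_mul (ν : ℂ))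
  rw [integral_const_mul] at eA
  have e3 := integral_add (iA.const_mul 1) (iB.const_mul (conj 1))
  have e4 := integral_add (iA.const_mul Complex.I) (iB.const_mul (conj Complex.I))
  simp only [Pi.sub_apply, Pi.add_apply] at e1 e2 e3 e4
  rw [e3, integral_const_mul, integral_const_mul, eA, map_one] at e1
  rw [e4, integral_const_mul, integral_const_mul, eA, Complex.conj_I] at e2
  unfold mom
  refine mul_left_cancel₀ Complex.I_ne_zero ?_
  linear_combination (Complex.I * e1 + e2) / 2

end Pool.Agent.P.MP_a62d3c_co.FF
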