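import Pool.Agent.P.MP_a62d3c_co.FF.Defs

namespace Pool.Agent.P.MP_a62d3c_co.FF

open Filter Topology Polynomial MeasureTheory Asymptotics
open scoped ComplexConjugate Matrix ComplexOrder

variable {J : Type} [Fintype J] [DecidableEq J]

theorem ker_nonneg (δ : ℝ) (u : ℂ) : 0 ≤ ker δ u :=
  mul_nonneg (Real.rpow_nonneg (norm_nonneg _) _)
    (Real.rpow_nonneg (le_min (norm_nonneg _) (inv_nonneg.2 (norm_nonneg _))) _)

theorem Ker_small (δ : ℝ) {u : ℂ} (h0 : 0 < ‖u‖) (h1 : ‖u‖ ≤ 1) :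
    ker δ u = ‖u‖ ^ (δ - 2) := by
  have h : ‖u‖ ≤ ‖u‖⁻¹ := h1.trans ((one_le_inv₀ h0).2 h1)
  unfold ker
  rw [min_eq_left h, ← Real.rpow_add h0]
  congr 1
  ring

theorem Ker_large (δ : ℝ) {u : ℂ} (h1 : 1 ≤ ‖u‖) :
    ker δ u = ‖u‖ ^ (-2 - δ) := by
  have h0 : 0 < ‖u‖ := lt_of_lt_of_le one_pos h1
  have h : ‖u‖⁻¹ ≤ ‖u‖ := (inv_le_one_of_one_le₀ h1).trans h1
  unfold ker
  rw [min_eq_right h, Real.inv_rpow h0.le, ← Real.rpow_neg h0.le, ← Real.rpow_add h0]
  congr 1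

theorem Ker_meas (δ : ℝ) : Measurable (ker δ) := by
  unfold ker
  fun_prop

/-- `|u| ^ (δ - 2)` on the unit disc, `|u| ^ (-2 - δ)` outside
(`integrableOn_ball_of_norm_le_rpow`, `integrable_one_add_norm` or polar coordinates) -/
theorem ker_integrable {δ : ℝ} (hδ : 0 < δ) : Integrable (ker δ) := by
  have hm : AEStronglyMeasurable (ker δ) volume := (Ker_meas δ).aestronglyMeasurable
  have h1 : IntegrableOn (ker δ) (Metric.ball 0 1) := by
    refine integrableOn_ball_of_norm_le_rpow (C := 1) (α := 2 - δ) (by simp) (by simp; linarith)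
      ?_ hm
    refine (ae_restrict_iff' measurableSet_ball).2 (Eventually.of_forall fun x hx => ?_)
    have hx1 : ‖x‖ < 1 := by simpa using hx
    rw [Real.norm_of_nonneg (ker_nonneg δ x)]
    rcases (norm_nonneg x).eq_or_lt with h0 | h0
    · have : ker δ x = 0 := by
        unfold ker
        rw [← h0, Real.zero_rpow (by norm_num), zero_mul]
      rw [this]
      positivity
    · rw [Ker_small δ h0 hx1.le, one_mul, neg_sub]
  have h2 : IntegrableOn (ker δ) (Metric.ball 0 1)ᶜ := by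
    have hi : Integrable (fun x : ℂ => (2 : ℝ) ^ (2 + δ) * (1 + ‖x‖) ^ (-(2 + δ))) :=
      (integrable_one_add_norm (E := ℂ) (μ := volume) (r := 2 + δ) (by simp; linarith)).const_mul _
    refine Integrable.mono' hi.integrableOn hm.restrict ?_
    refine (ae_restrict_iff' measurableSet_ball.compl).2 (Eventually.of_forall fun x hx => ?_)
    have hx1 : 1 ≤ ‖x‖ := by simpa using hx
    have hx0 : 0 < ‖x‖ := lt_of_lt_of_le one_pos hx1
    rw [Real.norm_of_nonneg (ker_nonneg δ x), Ker_large δ hx1]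
    have h3 : (2 * ‖x‖) ^ (-(2 + δ)) ≤ (1 + ‖x‖) ^ (-(2 + δ)) :=
      Real.rpow_le_rpow_of_nonpos (by positivity) (by linarith) (by linarith)
    have h4 : ‖x‖ ^ (-2 - δ) = (2 : ℝ) ^ (2 + δ) * (2 * ‖x‖) ^ (-(2 + δ)) := by
      rw [Real.mul_rpow (by norm_num) hx0.le, ← mul_assoc, ← Real.rpow_add (by norm_num),
        add_neg_cancel, Real.rpow_zero, one_mul]
      congr 1
      ring
    rw [h4]
    exact mul_le_mul_of_nonneg_left h3 (by positivity)
  have := h1.union h2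
  rwa [Set.union_compl_self, integrableOn_univ] at this

/-- domination by the sum of the translates of the kernel -/
theorem dom (z : J → ℂ) {δ K : ℝ} (hδ : 0 < δ) (hK : 0 ≤ K) (F : ℂ → ℝ)
    (hF : AEStronglyMeasurable F volume)
    (h : ∀ x, (∀ j, x ≠ z j) → ∃ j, |F x| ≤ K * ker δ (x - z j)) :
    Integrable F ∧ ∫ x, |F x| ≤ K * (Fintype.card J * ∫ u, ker δ u) := by
  have hi : ∀ j, Integrable (fun x : ℂ => ker δ (x - z j)) := fun j =>
    (ker_integrable hδ).comp_sub_right (z j)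
  have hG : Integrable (fun x : ℂ => K * ∑ j, ker δ (x - z j)) :=
    (integrable_finsetSum _ fun j _ => hi j).const_mul K
  have hae : ∀ᵐ x : ℂ, ∀ j, x ≠ z j := by
    rw [ae_all_iff]
    intro j
    exact compl_mem_ae_iff.2 (measure_singleton (z j))
  have hb : ∀ᵐ x : ℂ, |F x| ≤ K * ∑ j, ker δ (x - z j) := by
    filter_upwards [hae] with x hx
    obtain ⟨j, hj⟩ := h x hx
    refine hj.trans (mul_le_mul_of_nonneg_left ?_ hK)
    exact Finset.single_le_sum (f := fun j => ker δ (x - z j)) (fun i _ => ker_nonneg δ _)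
      (Finset.mem_univ j)
  have hFi : Integrable F := Integrable.mono' hG hF (by simpa [Real.norm_eq_abs] using hb)
  refine ⟨hFi, ?_⟩
  refine (integral_mono_ae hFi.abs hG hb).trans (le_of_eq ?_)
  rw [integral_const_mul, integral_finsetSum _ fun j _ => hi j]
  congr 1
  have : ∀ j, ∫ x : ℂ, ker δ (x - z j) = ∫ u, ker δ u := fun j =>
    integral_sub_right_eq_self (ker δ) (z j)
  simp [this]

/-- if `z j` is a nearest point to `x` then `|x - z i|` is comparable to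
`max |x - z j| |z i - z j|` -/
theorem near (z : J → ℂ) (x : ℂ) (j : J) (hj : ∀ i, ‖x - z j‖ ≤ ‖x - z i‖) (i : J) :
    max ‖x - z j‖ ‖z i - z j‖ ≤ 2 * ‖x - z i‖ ∧
      ‖x - z i‖ ≤ 2 * max ‖x - z j‖ ‖z i - z j‖ := by
  have h1 := hj i
  have h2 : ‖z i - z j‖ ≤ ‖x - z j‖ + ‖x - z i‖ := by
    have : z i - z j = (x - z j) - (x - z i) := by ring
    rw [this]
    exact norm_sub_le _ _
  have h3 : ‖x - z i‖ ≤ ‖x - z j‖ + ‖z i - z j‖ := by
    have : x - z i = (x - z j) - (z i - z j) := by ring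
    rw [this]
    exact norm_sub_le _ _
  have h4 := norm_nonneg (x - z i)
  have h5 := le_max_left ‖x - z j‖ ‖z i - z j‖
  have h6 := le_max_right ‖x - z j‖ ‖z i - z j‖
  refine ⟨max_le (by linarith) (by linarith), by linarith⟩

theorem Ker_low (z : J → ℂ) (x : ℂ) (j : J) (b : ℝ) (hb : 0 ≤ b)
    (h : ∀ i, i ≠ j → b ≤ ‖x - z i‖) :
    ‖x - z j‖ * b ^ (Fintype.card J - 1) ≤ ‖(fP z).eval x‖ := by
  unfold fP
  rw [eval_prod, norm_prod, ← Finset.mul_prod_erase _ _ (Finset.mem_univ j)]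
  simp only [eval_sub, eval_X, eval_C]
  refine mul_le_mul_of_nonneg_left ?_ (norm_nonneg _)
  have hc : Fintype.card J - 1 = (Finset.univ.erase j).card := by
    rw [Finset.card_erase_of_mem (Finset.mem_univ j), Finset.card_univ]
  rw [hc, ← Finset.prod_const]
  exact Finset.prod_le_prod (fun _ _ => hb) fun i hi => h i (Finset.ne_of_mem_erase hi)

theorem Ker_real {w P B a b u ν e s : ℝ} {k : ℕ} (hν : 0 < ν) (hw0 : 0 ≤ w) (hu : 0 < u)
    (hb : 0 < b) (hB : 0 ≤ B) (hw : w ≤ B * u ^ a) (hP : u ^ s * b ≤ P)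
    (he : u ^ (a * k - 2 * ν * s) ≤ u ^ e) :
    w ^ k * (P ^ 2) ^ (-ν) ≤ B ^ k * (b ^ 2) ^ (-ν) * u ^ e := by
  have hus : 0 < u ^ s := Real.rpow_pos_of_pos hu s
  have h1 : w ^ k ≤ B ^ k * u ^ (a * k) := by
    rw [Real.rpow_mul_natCast hu.le, ← mul_pow]
    exact pow_le_pow_left₀ hw0 hw k
  have h2 : (P ^ 2) ^ (-ν) ≤ ((u ^ s * b) ^ 2) ^ (-ν) :=
    Real.rpow_le_rpow_of_nonpos (by positivity) (pow_le_pow_left₀ (by positivity) hP 2)
      (by linarith)
  have h3 : ((u ^ s * b) ^ 2) ^ (-ν) = u ^ (-(2 * ν * s)) * (b ^ 2) ^ (-ν) := by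
    rw [mul_pow, Real.mul_rpow (by positivity) (by positivity), ← Real.rpow_mul_natCast hu.le,
      ← Real.rpow_mul hu.le]
    congr 2
    push_cast
    ring
  have h4 : u ^ (a * k) * u ^ (-(2 * ν * s)) = u ^ (a * k - 2 * ν * s) := by
    rw [← Real.rpow_add hu]
    congr 1
  calc w ^ k * (P ^ 2) ^ (-ν)
      ≤ (B ^ k * u ^ (a * k)) * (u ^ (-(2 * ν * s)) * (b ^ 2) ^ (-ν)) := by
        rw [← h3]
        exact mul_le_mul h1 h2 (by positivity) (by positivity)
    _ = B ^ k * (b ^ 2) ^ (-ν) * (u ^ (a * k) * u ^ (-(2 * ν * s))) := by ring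
    _ ≤ B ^ k * (b ^ 2) ^ (-ν) * u ^ e := by
        rw [h4]
        exact mul_le_mul_of_nonneg_left he (by positivity)

/-- uniform bound for separated bounded points: with `u = x - z j`, `z j` nearest,
`|f x| ≥ |u| (max |u| c / 2) ^ (n - 1)` and `1 + |x| ≤ (1 + |R|) (1 + |u|)`; use `dom` with
`δ = min (2 - 2 ν) (2 ν n - k - 2)` -/
theorem ub (c R ν : ℝ) (k : ℕ) (hc : 0 < c) (hν0 : 0 < ν) (hν : ν < 1)
    (hk : (k : ℝ) + 2 < 2 * ν * Fintype.card J) :
    ∃ K, ∀ z : J → ℂ, (∀ i j, i ≠ j → c ≤ ‖z i - z j‖) → (∀ i, ‖z i‖ ≤ R) →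
      Integrable (fun x : ℂ => (1 + ‖x‖) ^ k * (‖(fP z).eval x‖ ^ 2) ^ (-ν)) ∧
        ∫ x : ℂ, (1 + ‖x‖) ^ k * (‖(fP z).eval x‖ ^ 2) ^ (-ν) ≤ K := by
  have hn : 0 < Fintype.card J := by
    rcases Nat.eq_zero_or_pos (Fintype.card J) with h | h
    · rw [h] at hk
      have : (0 : ℝ) ≤ k := Nat.cast_nonneg k
      simp at hk
      linarith
    · exact h
  obtain ⟨m, hm⟩ : ∃ m, Fintype.card J = m + 1 := ⟨_, (Nat.succ_pred_eq_of_pos hn).symm⟩
  have : Nonempty J := Fintype.card_pos_iff.1 hn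
  set δ : ℝ := min (2 - 2 * ν) (2 * ν * Fintype.card J - k - 2) with hδdef
  have hδ : 0 < δ := lt_min (by linarith) (by linarith)
  have hδ1 : δ ≤ 2 - 2 * ν := min_le_left _ _
  have hδ2 : δ ≤ 2 * ν * Fintype.card J - k - 2 := min_le_right _ _
  set B : ℝ := 2 * (1 + |R|) with hB
  have hB0 : 0 ≤ B := by positivity
  set K₁ : ℝ := B ^ k * (((c / 2) ^ m) ^ 2) ^ (-ν) with hK₁
  set K₂ : ℝ := B ^ k * ((((1 : ℝ) / 2) ^ m) ^ 2) ^ (-ν) with hK₂
  have hK₁0 : 0 ≤ K₁ := by positivity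
  have hK₂0 : 0 ≤ K₂ := by positivity
  refine ⟨(K₁ + K₂) * (Fintype.card J * ∫ u, ker δ u), fun z hsep hR => ?_⟩
  have hmeas : AEStronglyMeasurable
      (fun x : ℂ => (1 + ‖x‖) ^ k * (‖(fP z).eval x‖ ^ 2) ^ (-ν)) volume := by
    have h1 : Measurable fun x : ℂ => (fP z).eval x := (fP z).continuous.measurable
    exact Measurable.aestronglyMeasurable (by fun_prop)
  have hnn : ∀ x : ℂ, 0 ≤ (1 + ‖x‖) ^ k * (‖(fP z).eval x‖ ^ 2) ^ (-ν) := fun x => by
    positivity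
  have key := dom z hδ (add_nonneg hK₁0 hK₂0) _ hmeas (fun x hx => by
    obtain ⟨j, -, hj⟩ := Finset.exists_min_image Finset.univ (fun i => ‖x - z i‖)
      Finset.univ_nonempty
    have hj' : ∀ i, ‖x - z j‖ ≤ ‖x - z i‖ := fun i => hj i (Finset.mem_univ i)
    refine ⟨j, ?_⟩
    have hu : 0 < ‖x - z j‖ := norm_pos_iff.2 (sub_ne_zero.2 (hx j))
    have hx1 : ‖x‖ ≤ ‖x - z j‖ + |R| := by
      have h1 : ‖x‖ ≤ ‖x - z j‖ + ‖z j‖ := by simpa using norm_add_le (x - z j) (z j)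
      linarith [hR j, le_abs_self R]
    have hR0 := abs_nonneg R
    have hm1 : Fintype.card J - 1 = m := by omega
    rw [abs_of_nonneg (hnn x)]
    rcases le_total ‖x - z j‖ 1 with h1 | h1
    · have hP := Ker_low z x j (c / 2) (by positivity) fun i hi => by
        have h2 := (near z x j hj' i).1
        have h3 := le_max_right ‖x - z j‖ ‖z i - z j‖
        linarith [hsep i j hi]
      rw [hm1] at hP
      have h := Ker_real (w := 1 + ‖x‖) (P := ‖(fP z).eval x‖) (B := B) (a := 0)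
        (b := (c / 2) ^ m) (u := ‖x - z j‖) (ν := ν) (e := δ - 2) (s := 1) (k := k) hν0
        (by positivity) hu (by positivity) hB0
        (by rw [Real.rpow_zero, mul_one, hB]; linarith) (by rwa [Real.rpow_one])
        (Real.rpow_le_rpow_of_exponent_ge hu h1 (by linarith))
      rw [Ker_small δ hu h1]
      refine h.trans (mul_le_mul_of_nonneg_right (by linarith) (by positivity))
    · have hP := Ker_low z x j (‖x - z j‖ / 2) (by positivity) fun i _ => by
        linarith [hj' i]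
      rw [hm1] at hP
      have hP' : ‖x - z j‖ ^ ((m + 1 : ℕ) : ℝ) * ((1 : ℝ) / 2) ^ m ≤ ‖(fP z).eval x‖ := by
        refine le_trans (le_of_eq ?_) hP
        rw [Real.rpow_natCast, div_pow, div_pow]
        ring
      have h := Ker_real (w := 1 + ‖x‖) (P := ‖(fP z).eval x‖) (B := B) (a := 1)
        (b := ((1 : ℝ) / 2) ^ m) (u := ‖x - z j‖) (ν := ν) (e := -2 - δ)
        (s := ((m + 1 : ℕ) : ℝ)) (k := k) hν0
        (by positivity) hu (by positivity) hB0
        (by rw [Real.rpow_one, hB]; nlinarith) hP'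
        (Real.rpow_le_rpow_of_exponent_le h1 (by rw [← hm]; linarith))
      rw [Ker_large δ h1]
      refine h.trans (mul_le_mul_of_nonneg_right (by linarith) (by positivity)))
  refine ⟨key.1, le_trans (le_of_eq ?_) key.2⟩
  exact integral_congr_ae (Eventually.of_forall fun x => (abs_of_nonneg (hnn x)).symm)

end Pool.Agent.P.MP_a62d3c_co.FF
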