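import Pool.Agent.P.MP_a62d3c_co.FF.Bd0
import Pool.Agent.P.MP_a62d3c_co.FF.Ker

namespace Pool.Agent.P.MP_a62d3c_co.FF

open Filter Topology Polynomial MeasureTheory Asymptotics
open scoped ComplexConjugate Matrix ComplexOrder

variable {J : Type} [Fintype J] [DecidableEq J]

theorem N3_low {d : J → J → ℤ} {n0 : ℤ} (hb : ∀ i j, i ≠ j → n0 ≤ d i j) (μ : ℝ) (mu : J → ℕ)
    (j : J) {ρ : ℝ} (h : ρ ≤ n0) :
    En d mu μ j ρ = -((μ * Fintype.card J - (((∑ i, mu i : ℕ) : ℝ) + 1)) * ρ) := by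
  have h1 : ∀ i, mn d i j ρ = ρ := by
    intro i
    unfold mn
    split_ifs with hij
    · rfl
    · have : (n0 : ℝ) ≤ d i j := by exact_mod_cast hb i j hij
      exact min_eq_left (h.trans this)
  simp only [En, h1]
  rw [← Finset.sum_mul, Finset.sum_sub_distrib, Finset.sum_const, Finset.card_univ, nsmul_eq_mul]
  push_cast
  ring

theorem N3_high {d : J → J → ℤ} {N : ℝ} (hN : ∀ i j, (d i j : ℝ) ≤ N) (μ : ℝ) (mu : J → ℕ)
    (j : J) {ρ : ℝ} (h : N ≤ ρ) :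
    En d mu μ j ρ = En d mu μ j N + (1 + mu j - μ) * (ρ - N) := by
  have h1 : ∀ i, ((mu i : ℝ) - μ) * mn d i j ρ = ((mu i : ℝ) - μ) * mn d i j N +
      if i = j then ((mu i : ℝ) - μ) * (ρ - N) else 0 := by
    intro i
    unfold mn
    split_ifs with hij
    · ring
    · rw [min_eq_right ((hN i j).trans h), min_eq_right (hN i j), add_zero]
  simp only [En, h1]
  rw [Finset.sum_add_distrib, Finset.sum_ite_eq' Finset.univ j, if_pos (Finset.mem_univ j)]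
  ring

/-- `En` is affine with slope `1 + ∑ mu - μ n < 0` below `n0` and slope `1 + mu j - μ > 0` above
`max n0 (max d)` -/
theorem En_grow {d : J → J → ℤ} {n0 : ℤ} (hb : ∀ i j, i ≠ j → n0 ≤ d i j) {μ : ℝ} (h1 : μ < 1)
    {mu : J → ℕ} (hmu : ((∑ i, mu i : ℕ) : ℝ) + 1 < μ * Fintype.card J) {ν : ℝ}
    (hν : ∀ j (ρ : ℝ), (n0 : ℝ) ≤ ρ → ν ≤ En d mu μ j ρ) {η : ℝ} (hη : 0 < η) :
    ∃ δ > (0 : ℝ), ∀ j (ρ : ℝ), ν - η + δ * |ρ| ≤ En d mu μ j ρ := by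
  obtain ⟨N, hN⟩ := (Set.finite_range fun p : J × J => (d p.1 p.2 : ℝ)).bddAbove
  have hN1 : ∀ i j, (d i j : ℝ) ≤ max N n0 := fun i j =>
    (hN ⟨(i, j), rfl⟩).trans (le_max_left _ _)
  have hN2 : (n0 : ℝ) ≤ max N n0 := le_max_right _ _
  generalize max N n0 = M at hN1 hN2
  have ha : 0 < μ * Fintype.card J - (((∑ i, mu i : ℕ) : ℝ) + 1) := by linarith
  have hB : (0 : ℝ) < |(n0 : ℝ)| + |M| + 1 := by positivity
  obtain ⟨δ, hδ0, hδ1, hδ2, hδ3⟩ : ∃ δ : ℝ, 0 < δ ∧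
      δ ≤ μ * Fintype.card J - (((∑ i, mu i : ℕ) : ℝ) + 1) ∧ δ ≤ 1 - μ ∧
      δ * (|(n0 : ℝ)| + |M| + 1) ≤ η := by
    refine ⟨min (min (μ * Fintype.card J - (((∑ i, mu i : ℕ) : ℝ) + 1)) (1 - μ))
      (η / (|(n0 : ℝ)| + |M| + 1)), lt_min (lt_min ha (by linarith)) (div_pos hη hB),
      (min_le_left _ _).trans (min_le_left _ _), (min_le_left _ _).trans (min_le_right _ _), ?_⟩
    exact (le_div_iff₀ hB).1 (min_le_right _ _)
  refine ⟨δ, hδ0, fun j ρ => ?_⟩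
  have e1 := abs_nonneg (n0 : ℝ)
  have e2 := abs_nonneg M
  have e3 := le_abs_self (n0 : ℝ)
  have e4 := neg_abs_le (n0 : ℝ)
  have e5 := le_abs_self M
  have e6 := neg_abs_le M
  rcases le_total ρ n0 with h | h
  · have h2 := hν j n0 le_rfl
    rw [N3_low hb μ mu j le_rfl] at h2
    rw [N3_low hb μ mu j h]
    have h3 : |ρ| ≤ |(n0 : ℝ)| + |M| + 1 + (n0 - ρ) := abs_le.2 ⟨by linarith, by linarith⟩
    have h4 := mul_le_mul_of_nonneg_left h3 hδ0.le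
    have h5 := mul_le_mul_of_nonneg_right hδ1 (sub_nonneg.2 h)
    nlinarith
  · rcases le_total ρ M with h' | h'
    · have h2 := hν j ρ h
      have h3 : |ρ| ≤ |(n0 : ℝ)| + |M| + 1 := abs_le.2 ⟨by linarith, by linarith⟩
      have h4 := mul_le_mul_of_nonneg_left h3 hδ0.le
      linarith
    · have h2 := hν j M hN2
      rw [N3_high hN1 μ mu j h']
      have h3 : |ρ| ≤ |(n0 : ℝ)| + |M| + 1 + (ρ - M) := abs_le.2 ⟨by linarith, by linarith⟩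
      have h4 := mul_le_mul_of_nonneg_left h3 hδ0.le
      have h6 : δ ≤ 1 + mu j - μ := by
        have : (0 : ℝ) ≤ mu j := Nat.cast_nonneg _
        linarith
      have h5 := mul_le_mul_of_nonneg_right h6 (sub_nonneg.2 h')
      nlinarith

theorem N3_nP (z : J → ℂ) (mu : J → ℕ) (x : ℂ) (hx : ∀ j, x ≠ z j) :
    ‖(nP z mu).eval x‖ = Real.exp (∑ i, (mu i : ℝ) * Real.log ‖x - z i‖) := by
  rw [nP, eval_prod, norm_prod, Real.exp_sum]
  refine Finset.prod_congr rfl fun i _ => ?_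
  rw [eval_pow, eval_sub, eval_X, eval_C, norm_pow, Real.exp_nat_mul,
    Real.exp_log (norm_pos_iff.2 (sub_ne_zero.2 (hx i)))]

theorem N3_fP (z : J → ℂ) (x : ℂ) (hx : ∀ j, x ≠ z j) :
    ‖(fP z).eval x‖ = Real.exp (∑ i, Real.log ‖x - z i‖) := by
  rw [fP, eval_prod, norm_prod, Real.exp_sum]
  refine Finset.prod_congr rfl fun i _ => ?_
  rw [eval_sub, eval_X, eval_C, Real.exp_log (norm_pos_iff.2 (sub_ne_zero.2 (hx i)))]

theorem N3_norm (z : J → ℂ) (μ : ℝ) (mu mu' : J → ℕ) (x : ℂ) (hx : ∀ j, x ≠ z j) :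
    ‖momI z μ 0 (nP z mu) (nP z mu') x‖ =
      Real.exp (∑ i, ((mu i : ℝ) - μ + ((mu' i : ℝ) - μ)) * Real.log ‖x - z i‖) := by
  rw [momI, norm_mul, norm_mul, Complex.norm_conj, Complex.norm_real, N3_nP z mu x hx,
    N3_nP z mu' x hx, N3_fP z x hx, add_zero, ← Real.exp_nat_mul, ← Real.exp_mul,
    Real.norm_of_nonneg (Real.exp_pos _).le, ← Real.exp_add, ← Real.exp_add, Finset.mul_sum,
    Finset.sum_mul, ← Finset.sum_add_distrib, ← Finset.sum_add_distrib]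
  refine congrArg Real.exp (Finset.sum_congr rfl fun i _ => ?_)
  push_cast
  ring

theorem N3_meas (z : J → ℂ) (μ ε : ℝ) (P Q : ℂ[X]) : Measurable (momI z μ ε P Q) := by
  unfold momI
  exact (P.continuous.measurable.mul
    (Complex.continuous_conj.measurable.comp Q.continuous.measurable)).mul
    (Complex.measurable_ofReal.comp
      ((((fP z).continuous.norm.pow 2).add continuous_const).measurable.pow_const _))

theorem N3_cmp {z : J → ℂ} {d : J → J → ℤ} {r C ρ : ℝ} (hr0 : 0 < r) (hr1 : r < 1) (hC : 1 ≤ C)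
    (hs : ∀ i j, i ≠ j → ‖z i - z j‖ ≤ C * r ^ (d i j : ℝ) ∧ r ^ (d i j : ℝ) ≤ C * ‖z i - z j‖)
    {x : ℂ} (hx : ∀ i, x ≠ z i) {j : J} (hj : ∀ i, ‖x - z j‖ ≤ ‖x - z i‖)
    (hρ : r ^ ρ = ‖x - z j‖) (i : J) :
    |Real.log ‖x - z i‖ - mn d i j ρ * Real.log r| ≤ Real.log (2 * C) := by
  have ht : 0 < ‖x - z i‖ := norm_pos_iff.2 (sub_ne_zero.2 (hx i))
  have hu : 0 < ‖x - z j‖ := norm_pos_iff.2 (sub_ne_zero.2 (hx j))
  have hm : 0 < r ^ mn d i j ρ := Real.rpow_pos_of_pos hr0 _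
  have hD : (0 : ℝ) < 2 * C := by linarith
  have key : ‖x - z i‖ ≤ 2 * C * r ^ mn d i j ρ ∧ r ^ mn d i j ρ ≤ 2 * C * ‖x - z i‖ := by
    unfold mn
    split_ifs with hij
    · rw [hρ, hij]
      constructor <;> nlinarith
    · obtain ⟨a1, a2⟩ := hs i j hij
      obtain ⟨b1, b2⟩ := near z x j hj i
      have c1 := le_max_left ‖x - z j‖ ‖z i - z j‖
      have c2 := le_max_right ‖x - z j‖ ‖z i - z j‖
      have m1 : r ^ ρ ≤ r ^ min ρ (d i j : ℝ) :=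
        Real.rpow_le_rpow_of_exponent_ge hr0 hr1.le (min_le_left _ _)
      have m2 : r ^ (d i j : ℝ) ≤ r ^ min ρ (d i j : ℝ) :=
        Real.rpow_le_rpow_of_exponent_ge hr0 hr1.le (min_le_right _ _)
      have m0 : 0 < r ^ min ρ (d i j : ℝ) := Real.rpow_pos_of_pos hr0 _
      constructor
      · have : max ‖x - z j‖ ‖z i - z j‖ ≤ C * r ^ min ρ (d i j : ℝ) := by
          refine max_le ?_ (a1.trans (mul_le_mul_of_nonneg_left m2 (by linarith)))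
          rw [← hρ]
          nlinarith
        linarith
      · rcases min_choice ρ (d i j : ℝ) with h | h <;> rw [h]
        · rw [hρ]
          nlinarith
        · nlinarith
  have b1 := Real.log_le_log ht key.1
  have b2 := Real.log_le_log hm key.2
  rw [Real.log_mul hD.ne' hm.ne', Real.log_rpow hr0] at b1
  rw [Real.log_mul hD.ne' ht.ne', Real.log_rpow hr0] at b2
  rw [abs_le]
  constructor <;> linarith

theorem N3_ker (δ : ℝ) {u : ℂ} (hu : u ≠ 0) :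
    ker δ u = Real.exp (-2 * Real.log ‖u‖ - δ * |Real.log ‖u‖|) := by
  have h0 : 0 < ‖u‖ := norm_pos_iff.2 hu
  have h1 : 0 < min ‖u‖ ‖u‖⁻¹ := lt_min h0 (inv_pos.2 h0)
  have h2 : Real.log (min ‖u‖ ‖u‖⁻¹) = -|Real.log ‖u‖| := by
    rcases le_total ‖u‖ 1 with h | h
    · rw [min_eq_left (h.trans ((one_le_inv₀ h0).2 h)),
        abs_of_nonpos (Real.log_nonpos h0.le h), neg_neg]
    · rw [min_eq_right ((inv_le_one_of_one_le₀ h).trans h), abs_of_nonneg (Real.log_nonneg h),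
        Real.log_inv]
  rw [ker, Real.rpow_def_of_pos h0, Real.rpow_def_of_pos h1, h2, ← Real.exp_add]
  refine congrArg Real.exp ?_
  ring

theorem N3_pt {z : J → ℂ} {d : J → J → ℤ} {r C : ℝ} (hr0 : 0 < r) (hr1 : r < 1) (hC : 1 ≤ C)
    (hs : ∀ i j, i ≠ j → ‖z i - z j‖ ≤ C * r ^ (d i j : ℝ) ∧ r ^ (d i j : ℝ) ≤ C * ‖z i - z j‖)
    {μ a δ : ℝ} {mu mu' : J → ℕ}
    (hE : ∀ j (ρ : ℝ), a + δ * |ρ| ≤ En d mu μ j ρ + En d mu' μ j ρ)
    {x : ℂ} (hx : ∀ i, x ≠ z i) {j : J} (hj : ∀ i, ‖x - z j‖ ≤ ‖x - z i‖) :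
    ‖momI z μ 0 (nP z mu) (nP z mu') x‖ ≤
      Real.exp (∑ i, |(mu i : ℝ) - μ + ((mu' i : ℝ) - μ)| * Real.log (2 * C)) * r ^ a *
        ker δ (x - z j) := by
  have hu : 0 < ‖x - z j‖ := norm_pos_iff.2 (sub_ne_zero.2 (hx j))
  have hl : Real.log r < 0 := Real.log_neg hr0 hr1
  obtain ⟨ρ, hρ⟩ : ∃ ρ : ℝ, Real.log r * ρ = Real.log ‖x - z j‖ :=
    ⟨Real.log ‖x - z j‖ / Real.log r, mul_div_cancel₀ _ hl.ne⟩
  have hρ' : r ^ ρ = ‖x - z j‖ := by rw [Real.rpow_def_of_pos hr0, hρ, Real.exp_log hu]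
  rw [N3_norm z μ mu mu' x hx, N3_ker δ (sub_ne_zero.2 (hx j)), Real.rpow_def_of_pos hr0,
    ← Real.exp_add, ← Real.exp_add, Real.exp_le_exp]
  have h1 : ∑ i, ((mu i : ℝ) - μ + ((mu' i : ℝ) - μ)) * Real.log ‖x - z i‖ ≤
      ∑ i, (|(mu i : ℝ) - μ + ((mu' i : ℝ) - μ)| * Real.log (2 * C) +
        (((mu i : ℝ) - μ) * mn d i j ρ + ((mu' i : ℝ) - μ) * mn d i j ρ) * Real.log r) := by
    refine Finset.sum_le_sum fun i _ => ?_
    have h2 := N3_cmp hr0 hr1 hC hs hx hj hρ' i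
    have h3 := le_abs_self (((mu i : ℝ) - μ + ((mu' i : ℝ) - μ)) *
      (Real.log ‖x - z i‖ - mn d i j ρ * Real.log r))
    rw [abs_mul] at h3
    have h4 := mul_le_mul_of_nonneg_left h2 (abs_nonneg ((mu i : ℝ) - μ + ((mu' i : ℝ) - μ)))
    linarith
  rw [Finset.sum_add_distrib, ← Finset.sum_mul _ _ (Real.log r), Finset.sum_add_distrib] at h1
  have h5 := mul_le_mul_of_nonpos_right (hE j ρ) hl.le
  have h6 : |Real.log ‖x - z j‖| = -(Real.log r * |ρ|) := by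
    rw [← hρ, abs_mul, abs_of_neg hl, neg_mul]
  rw [h6, ← hρ]
  unfold En at h5
  linarith

/-- Paper section 5, N3. For small `s`, `r = |s|`, and `x` with nearest point `z j`,
`u = x - z j`, `ρ = log |u| / log r`: `r ^ mn d i j ρ = max |u| (r ^ d i j)` is comparable to
`|x - z i|` (`near`, `Sep.consts`), so the integrand is at most
`K r ^ (En mu + En mu' - 2 ρ) ≤ K r ^ (ν + ν' - η) * ker δ u` (`r ^ |ρ| = min |u| |u|⁻¹`); `dom`. -/
theorem n3 {z : ℂ → J → ℂ} {d : J → J → ℤ} {n0 : ℤ} (hS : Sep z d)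
    (hb : ∀ i j, i ≠ j → n0 ≤ d i j) {μ : ℝ} (h0 : 0 < μ) (h1 : μ < 1) {mu mu' : J → ℕ}
    (hmu : ((∑ i, mu i : ℕ) : ℝ) + 1 < μ * Fintype.card J)
    (hmu' : ((∑ i, mu' i : ℕ) : ℝ) + 1 < μ * Fintype.card J) {ν ν' : ℝ}
    (hν : ∀ j (ρ : ℝ), (n0 : ℝ) ≤ ρ → ν ≤ En d mu μ j ρ)
    (hν' : ∀ j (ρ : ℝ), (n0 : ℝ) ≤ ρ → ν' ≤ En d mu' μ j ρ) {η : ℝ} (hη : 0 < η) :
    Bd (fun s => mom (z s) μ 0 (nP (z s) mu) (nP (z s) mu')) (ν + ν' - η) := by
  obtain ⟨δ, hδ, hE⟩ := En_grow hb h1 hmu hν (half_pos hη)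
  obtain ⟨δ', hδ', hE'⟩ := En_grow hb h1 hmu' hν' (half_pos hη)
  have hE2 : ∀ j (ρ : ℝ), ν + ν' - η + δ * |ρ| ≤ En d mu μ j ρ + En d mu' μ j ρ := by
    intro j ρ
    have a1 := hE j ρ
    have a2 := hE' j ρ
    have a3 : 0 ≤ δ' * |ρ| := mul_nonneg hδ'.le (abs_nonneg _)
    linarith
  have hne : (Finset.univ : Finset J).Nonempty := by
    rw [← Finset.card_pos, Finset.card_univ]
    refine Nat.pos_of_ne_zero fun h => ?_
    rw [h, Nat.cast_zero, mul_zero] at hmu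
    have : (0 : ℝ) ≤ ((∑ i, mu i : ℕ) : ℝ) := Nat.cast_nonneg _
    linarith
  obtain ⟨C, hC, hs⟩ := hS.consts
  refine Bd.of_bound (Real.exp (∑ i, |(mu i : ℝ) - μ + ((mu' i : ℝ) - μ)| * Real.log (2 * C)) *
    (Fintype.card J * ∫ u, ker δ u)) ?_
  filter_upwards [hs, L0_pos, L0_lt one_pos] with s hs hr0 hr1
  have hd := dom (z s) hδ (K := Real.exp (∑ i, |(mu i : ℝ) - μ + ((mu' i : ℝ) - μ)| *
    Real.log (2 * C)) * ‖s‖ ^ (ν + ν' - η)) (by positivity)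
    (fun x => ‖momI (z s) μ 0 (nP (z s) mu) (nP (z s) mu') x‖)
    (N3_meas _ _ _ _ _).norm.aestronglyMeasurable fun x hx => by
      obtain ⟨j, -, hj⟩ := Finset.exists_min_image Finset.univ (fun i => ‖x - z s i‖) hne
      refine ⟨j, ?_⟩
      rw [abs_norm]
      exact N3_pt hr0 hr1 hC hs hE2 hx fun i => hj i (Finset.mem_univ i)
  have h2 := hd.2
  simp only [abs_norm] at h2
  refine ((norm_integral_le_integral_norm _).trans h2).trans (le_of_eq ?_)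
  ring

end Pool.Agent.P.MP_a62d3c_co.FF
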