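import Pool.Agent.P.MP_a62d3c_co.FF.GD
import Pool.Agent.P.MP_a62d3c_co.FF.IBP

namespace Pool.Agent.P.MP_a62d3c_co.FF

open Filter Topology Polynomial MeasureTheory Asymptotics
open scoped ComplexConjugate Matrix ComplexOrder

variable {J : Type} [Fintype J] [DecidableEq J] {U : Set ℂ} {z : ℂ → J → ℂ}

theorem Alp_mul {P Q : ℂ[X]} {a b : ℕ} (hP : P.degree < a) (hQ : Q.degree < (b + 1 : ℕ)) :
    (P * Q).degree < (a + b : ℕ) :=
  (PF.mul (U := Set.univ) (pf_const hP) (pf_const hQ)).1 0 trivial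

theorem Alp_der {P : ℂ[X]} {a : ℕ} (hP : P.degree < (a + 1 : ℕ)) : (derivative P).degree < a :=
  (PF.deriv_x (U := Set.univ) (pf_const hP)).1 0 trivial

theorem Alp_fP (z : J → ℂ) : (fP z).degree < (Fintype.card J + 1 : ℕ) :=
  (pf_fP (U := Set.univ) (z := fun _ => z) fun _ => analyticOnNhd_const).1 0 trivial

/-- Paper section 3: the `∂`-part of the derivative for a kernel section, at a fixed parameter
(`A' = dT p A t`). Use `A f_t = f E - R f'`, `ibp`, `mom_ff`, linearity (`mom_int`). -/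
theorem alpha_eq (z τ : J → ℂ) {ν ε : ℝ} (hν : 0 < ν) (hε : 0 < ε) {A A' R E Q : ℂ[X]}
    {p a b : ℕ} (hA : A.degree < p) (hA' : A'.degree < p) (hR : R.degree < (a + 1 : ℕ))
    (hE : E.degree < a) (hQ : Q.degree < b) (hpa : p ≤ a)
    (hd : (a : ℝ) + b < 2 * ν * Fintype.card J)
    (hid : A * fT z τ + R * derivative (fP z) = fP z * E) :
    mom z ν ε A' Q - ν * mom z (ν + 1) ε (A * fT z τ) (Q * fP z) =
      mom z ν ε (A' + derivative R - C (ν : ℂ) * E) Q + ν * ε * mom z (ν + 1) ε E Q := by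
  have hd' : ((a + Fintype.card J : ℕ) : ℝ) + (b + Fintype.card J : ℕ) <
      2 * (ν + 1) * Fintype.card J := by
    push_cast
    linarith
  have hν' : 0 < ν + 1 := by linarith
  have q1 := Alp_mul hQ (Alp_fP z)
  have q2 : (R * derivative (fP z)).degree < (a + Fintype.card J : ℕ) := by
    rw [mul_comm, add_comm]
    exact Alp_mul (Alp_der (Alp_fP z)) hR
  have q3 : A'.degree < a := hA'.trans_le (by exact_mod_cast hpa)
  have q4 := Alp_der hR
  have q5 : (A' + derivative R).degree < a := (degree_add_le _ _).trans_lt (max_lt q3 q4)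
  have q6 : (C (ν : ℂ) * E).degree < a := by
    rw [← smul_eq_C_mul]
    exact (degree_smul_le _ _).trans_lt hE
  have e1 : A * fT z τ = E * fP z - R * derivative (fP z) := by linear_combination hid
  rw [e1, mom_sub_left _ _ _ (mom_int z hν' hε (Alp_mul hE (Alp_fP z)) q1 hd')
      (mom_int z hν' hε q2 q1 hd'), mom_ff z hν hε hE hQ hd,
    mom_sub_left _ _ _ (mom_int z hν hε q5 hQ hd) (mom_int z hν hε q6 hQ hd),
    mom_add_left _ _ _ (mom_int z hν hε q3 hQ hd) (mom_int z hν hε q4 hQ hd), mom_C_mul_left,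
    ibp z hν hε hR hQ hd]
  ring

/-- the conjugate statement (`mom_conj`) -/
theorem beta_eq (z τ : J → ℂ) {ν ε : ℝ} (hν : 0 < ν) (hε : 0 < ε) {A A' R E Q : ℂ[X]}
    {p a b : ℕ} (hA : A.degree < p) (hA' : A'.degree < p) (hR : R.degree < (a + 1 : ℕ))
    (hE : E.degree < a) (hQ : Q.degree < b) (hpa : p ≤ a)
    (hd : (a : ℝ) + b < 2 * ν * Fintype.card J)
    (hid : A * fT z τ + R * derivative (fP z) = fP z * E) :
    mom z ν ε Q A' - ν * mom z (ν + 1) ε (Q * fP z) (A * fT z τ) =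
      mom z ν ε Q (A' + derivative R - C (ν : ℂ) * E) + ν * ε * mom z (ν + 1) ε Q E := by
  have h := congrArg conj (alpha_eq z τ hν hε hA hA' hR hE hQ hpa hd hid)
  simp only [map_sub, map_add, map_mul, Complex.conj_ofReal, ← mom_conj] at h
  exact h

theorem Hyp.swap {μ : ℝ} {p q n : ℕ} (h : Hyp μ p q n) : Hyp (1 - μ) q p n := by
  obtain ⟨h0, h1, hp, hq, h⟩ := h
  refine ⟨by linarith, by linarith, hq, hp, ?_⟩
  rcases h with ⟨e, h2, h3⟩ | ⟨e, h2⟩
  · exact Or.inl ⟨by omega, h3, by rwa [sub_sub_cancel]⟩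
  · refine Or.inr ⟨by omega, ?_⟩
    have e' : (n : ℝ) = p + q + 2 := by exact_mod_cast e
    linarith

/-- the degree inequalities used in section 3 (`a = n - q - 1`, `γ = (1 - μ) / 2`) -/
theorem Hyp.degs {μ : ℝ} {p q n : ℕ} (h : Hyp μ p q n) :
    (p : ℝ) < μ * n ∧ p ≤ n - q - 1 ∧ ((n - q - 1 : ℕ) : ℝ) + p < 2 * μ * n ∧
      ((n - q - 1 : ℕ) : ℝ) + ((n - q - 1 : ℕ) : ℝ) < 2 * (μ + (1 - μ) / 2) * n ∧
      p + q + 1 ≤ n := by
  obtain ⟨h0, h1, hp, hq, h⟩ := h
  have hq' : (2 : ℝ) ≤ q := by exact_mod_cast hq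
  have hp' : (2 : ℝ) ≤ p := by exact_mod_cast hp
  rcases h with ⟨e, h2, h3⟩ | ⟨e, h2⟩
  · have e' : (n : ℝ) = p + q + 1 := by exact_mod_cast e
    rw [show n - q - 1 = p by omega]
    exact ⟨h2, le_rfl, by linarith, by linarith, by omega⟩
  · have e' : (n : ℝ) = p + q + 2 := by exact_mod_cast e
    rw [show n - q - 1 = p + 1 by omega]
    push_cast
    exact ⟨by linarith, by omega, by linarith, by linarith, by omega⟩

end Pool.Agent.P.MP_a62d3c_co.FF
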