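import Pool.Agent.P.MP_a62d3c_co.FF.Ker

namespace Pool.Agent.P.MP_a62d3c_co.FF

open Filter Topology Polynomial MeasureTheory Asymptotics
open scoped ComplexConjugate Matrix ComplexOrder

variable {J : Type} [Fintype J] [DecidableEq J]

theorem Mom_bound {P : ℂ[X]} {a : ℕ} (hP : P.degree < (a + 1 : ℕ)) :
    ∃ M, 0 ≤ M ∧ ∀ x : ℂ, ‖P.eval x‖ ≤ M * (1 + ‖x‖) ^ a := by
  have hn : P.natDegree < a + 1 := by
    by_cases h0 : P = 0
    · simp [h0]
    · exact (natDegree_lt_iff_degree_lt h0).2 hP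
  refine ⟨∑ k ∈ Finset.range (a + 1), ‖P.coeff k‖, Finset.sum_nonneg fun _ _ => norm_nonneg _,
    fun x => ?_⟩
  rw [eval_eq_sum_range' hn, Finset.sum_mul]
  refine (norm_sum_le _ _).trans (Finset.sum_le_sum fun k hk => ?_)
  rw [norm_mul, norm_pow]
  refine mul_le_mul_of_nonneg_left ?_ (norm_nonneg _)
  have h1 : (1 : ℝ) ≤ 1 + ‖x‖ := le_add_of_nonneg_right (norm_nonneg _)
  calc ‖x‖ ^ k ≤ (1 + ‖x‖) ^ k := pow_le_pow_left₀ (norm_nonneg _) (by linarith) _
    _ ≤ (1 + ‖x‖) ^ a := pow_le_pow_right₀ h1 (by have := Finset.mem_range.1 hk; omega)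

omit [DecidableEq J] in
theorem Mom_meas (z : J → ℂ) (ν ε : ℝ) (P Q : ℂ[X]) :
    AEStronglyMeasurable (momI z ν ε P Q) volume := by
  refine Measurable.aestronglyMeasurable ?_
  have h1 : Measurable fun x : ℂ => P.eval x := P.continuous.measurable
  have h2 : Measurable fun x : ℂ => conj (Q.eval x) :=
    (Complex.continuous_conj.comp Q.continuous).measurable
  have h3 : Measurable fun x : ℂ => ‖(fP z).eval x‖ ^ 2 + ε :=
    (((fP z).continuous.norm.pow 2).add continuous_const).measurable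
  exact (h1.mul h2).mul (Complex.measurable_ofReal.comp (h3.pow_const _))

omit [DecidableEq J] in
theorem Mom_norm (z : J → ℂ) (ν : ℝ) {ε : ℝ} (hε : 0 ≤ ε) (P Q : ℂ[X]) (x : ℂ) :
    ‖momI z ν ε P Q x‖ = ‖P.eval x‖ * ‖Q.eval x‖ * (‖(fP z).eval x‖ ^ 2 + ε) ^ (-ν) := by
  unfold momI
  rw [norm_mul, norm_mul, Complex.norm_conj, Complex.norm_real,
    Real.norm_of_nonneg (Real.rpow_nonneg (by positivity) _)]

omit [DecidableEq J] in
theorem Mom_zero_left (z : J → ℂ) (ν ε : ℝ) (Q : ℂ[X]) : momI z ν ε 0 Q = fun _ => 0 := by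
  funext x
  simp [momI]

omit [DecidableEq J] in
theorem Mom_zero_right (z : J → ℂ) (ν ε : ℝ) (P : ℂ[X]) : momI z ν ε P 0 = fun _ => 0 := by
  funext x
  simp [momI]

omit [DecidableEq J] in
theorem Mom_lower (z : J → ℂ) {ε : ℝ} (hε : 0 < ε) :
    ∃ c, 0 < c ∧ ∀ x : ℂ, c * (1 + ‖x‖) ^ (2 * Fintype.card J) ≤ ‖(fP z).eval x‖ ^ 2 + ε := by
  set R := ∑ j, ‖z j‖ with hR
  have hR0 : 0 ≤ R := Finset.sum_nonneg fun _ _ => norm_nonneg _
  have hzR : ∀ j, ‖z j‖ ≤ R := fun j =>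
    Finset.single_le_sum (f := fun j => ‖z j‖) (fun _ _ => norm_nonneg _) (Finset.mem_univ j)
  set n := Fintype.card J with hn
  refine ⟨min ((1 / 2) ^ (2 * n)) (ε / (2 * R + 2) ^ (2 * n)), by positivity, fun x => ?_⟩
  have hx := norm_nonneg x
  by_cases h : 2 * R + 1 ≤ ‖x‖
  · have h1 : ((1 + ‖x‖) / 2) ^ n ≤ ‖(fP z).eval x‖ := by
      unfold fP
      rw [eval_prod, norm_prod, hn, ← Finset.card_univ, ← Finset.prod_const]
      refine Finset.prod_le_prod (fun _ _ => by positivity) fun j _ => ?_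
      simp only [eval_sub, eval_X, eval_C]
      have := norm_sub_norm_le x (z j)
      linarith [hzR j]
    have h2 : (((1 + ‖x‖) / 2) ^ n) ^ 2 ≤ ‖(fP z).eval x‖ ^ 2 :=
      pow_le_pow_left₀ (by positivity) h1 2
    calc _ ≤ (1 / 2) ^ (2 * n) * (1 + ‖x‖) ^ (2 * n) :=
          mul_le_mul_of_nonneg_right (min_le_left _ _) (by positivity)
      _ = (((1 + ‖x‖) / 2) ^ n) ^ 2 := by
          rw [← pow_mul, mul_comm n 2, ← mul_pow]
          congr 1
          ring
      _ ≤ _ := by linarith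
  · have h1 : (1 + ‖x‖) ^ (2 * n) ≤ (2 * R + 2) ^ (2 * n) :=
      pow_le_pow_left₀ (by positivity) (by linarith [not_le.1 h]) _
    have h2 : (0 : ℝ) < (2 * R + 2) ^ (2 * n) := by positivity
    calc _ ≤ ε / (2 * R + 2) ^ (2 * n) * (2 * R + 2) ^ (2 * n) :=
          mul_le_mul (min_le_right _ _) h1 (by positivity) (by positivity)
      _ = ε := div_mul_cancel₀ _ h2.ne'
      _ ≤ _ := le_add_of_nonneg_left (by positivity)

theorem Mom_eq_zero {P : ℂ[X]} (hP : P.degree < (0 : ℕ)) : P = 0 := by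
  rw [← degree_eq_bot]
  exact Nat.WithBot.lt_zero_iff.1 hP

omit [DecidableEq J] in
theorem Mom_self (z : J → ℂ) (ν ε : ℝ) (P : ℂ[X]) (x : ℂ) :
    momI z ν ε P P x = ((‖P.eval x‖ ^ 2 * (‖(fP z).eval x‖ ^ 2 + ε) ^ (-ν) : ℝ) : ℂ) := by
  unfold momI
  rw [Complex.mul_conj, Complex.normSq_eq_norm_sq]
  push_cast
  rfl

/-- for `ε > 0`: `|f|² + ε ≥ c (1 + |x|) ^ (2 n)`, `integrable_one_add_norm` -/
theorem mom_int (z : J → ℂ) {ν ε : ℝ} (hν : 0 < ν) (hε : 0 < ε) {P Q : ℂ[X]} {a b : ℕ}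
    (hP : P.degree < a) (hQ : Q.degree < b) (hd : (a : ℝ) + b < 2 * ν * Fintype.card J) :
    Integrable (momI z ν ε P Q) := by
  rcases a with _ | a
  · rw [Mom_eq_zero hP, Mom_zero_left]
    exact integrable_zero _ _ _
  rcases b with _ | b
  · rw [Mom_eq_zero hQ, Mom_zero_right]
    exact integrable_zero _ _ _
  obtain ⟨M, hM0, hM⟩ := Mom_bound hP
  obtain ⟨M', hM0', hM'⟩ := Mom_bound hQ
  obtain ⟨c, hc0, hc⟩ := Mom_lower z hε
  have hint : Integrable (fun x : ℂ => (1 + ‖x‖) ^ (-(2 * ν * Fintype.card J - a - b))) :=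
    integrable_one_add_norm (by
      rw [Complex.finrank_real_complex]
      push_cast at hd ⊢
      linarith)
  refine (hint.const_mul (M * M' * c ^ (-ν))).mono' (Mom_meas z ν ε P Q)
    (Eventually.of_forall fun x => ?_)
  rw [Mom_norm z ν hε.le]
  have hx : 0 < 1 + ‖x‖ := by positivity
  have h1 : (‖(fP z).eval x‖ ^ 2 + ε) ^ (-ν) ≤
      (c * (1 + ‖x‖) ^ (2 * Fintype.card J)) ^ (-ν) :=
    Real.rpow_le_rpow_of_nonpos (by positivity) (hc x) (by linarith)
  calc _ ≤ (M * (1 + ‖x‖) ^ a) * (M' * (1 + ‖x‖) ^ b) *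
        (c * (1 + ‖x‖) ^ (2 * Fintype.card J)) ^ (-ν) :=
        mul_le_mul (mul_le_mul (hM x) (hM' x) (norm_nonneg _) (by positivity)) h1
          (Real.rpow_nonneg (by positivity) _) (by positivity)
    _ = _ := by
        rw [Real.mul_rpow hc0.le (by positivity), ← Real.rpow_natCast, ← Real.rpow_natCast,
          ← Real.rpow_natCast, ← Real.rpow_mul hx.le]
        have h2 : -(2 * ν * Fintype.card J - a - b) =
            (a : ℝ) + b + ((2 * Fintype.card J : ℕ) : ℝ) * -ν := by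
          push_cast
          ring
        rw [h2, Real.rpow_add hx, Real.rpow_add hx]
        ring

/-- for `ε = 0` use `ub` -/
theorem mom_int0 {z : J → ℂ} (hz : Function.Injective z) {ν : ℝ} (hν : 0 < ν) (hν1 : ν < 1)
    {P Q : ℂ[X]} {a b : ℕ} (hP : P.degree < a) (hQ : Q.degree < b)
    (hd : (a : ℝ) + b < 2 * ν * Fintype.card J) : Integrable (momI z ν 0 P Q) := by
  rcases a with _ | a
  · rw [Mom_eq_zero hP, Mom_zero_left]
    exact integrable_zero _ _ _
  rcases b with _ | b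
  · rw [Mom_eq_zero hQ, Mom_zero_right]
    exact integrable_zero _ _ _
  obtain ⟨M, hM0, hM⟩ := Mom_bound hP
  obtain ⟨M', hM0', hM'⟩ := Mom_bound hQ
  obtain ⟨c, hc0, hc⟩ : ∃ c : ℝ, 0 < c ∧ ∀ i j, i ≠ j → c ≤ ‖z i - z j‖ := by
    rcases isEmpty_or_nonempty (J × J) with hJ | hJ
    · exact ⟨1, one_pos, fun i j _ => (hJ.false (i, j)).elim⟩
    · obtain ⟨p₀, hp₀⟩ := Finite.exists_min
        (fun p : J × J => if p.1 = p.2 then (1 : ℝ) else ‖z p.1 - z p.2‖)
      refine ⟨_, ?_, fun i j hij => (hp₀ (i, j)).trans_eq (if_neg hij)⟩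
      split_ifs with h
      · exact one_pos
      · exact norm_pos_iff.2 (sub_ne_zero.2 fun e => h (hz e))
  obtain ⟨K, hK⟩ := ub (J := J) c (∑ j, ‖z j‖) ν (a + b) hc0 hν hν1 (by
    push_cast at hd ⊢
    linarith)
  have hint := (hK z hc fun j => Finset.single_le_sum (f := fun j => ‖z j‖)
    (fun _ _ => norm_nonneg _) (Finset.mem_univ j)).1
  refine (hint.const_mul (M * M')).mono' (Mom_meas z ν 0 P Q) (Eventually.of_forall fun x => ?_)
  rw [Mom_norm z ν le_rfl, add_zero]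
  calc _ ≤ (M * (1 + ‖x‖) ^ a) * (M' * (1 + ‖x‖) ^ b) * (‖(fP z).eval x‖ ^ 2) ^ (-ν) :=
        mul_le_mul_of_nonneg_right (mul_le_mul (hM x) (hM' x) (norm_nonneg _) (by positivity))
          (Real.rpow_nonneg (by positivity) _)
    _ = _ := by ring

theorem mom_conj (z : J → ℂ) (ν ε : ℝ) (P Q : ℂ[X]) :
    mom z ν ε Q P = conj (mom z ν ε P Q) := by
  unfold mom
  rw [← integral_conj]
  refine integral_congr_ae (Eventually.of_forall fun x => ?_)
  simp only [momI, map_mul, Complex.conj_conj, Complex.conj_ofReal]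
  ring

theorem mom_add_left (z : J → ℂ) (ν ε : ℝ) {P P' Q : ℂ[X]} (h : Integrable (momI z ν ε P Q))
    (h' : Integrable (momI z ν ε P' Q)) :
    mom z ν ε (P + P') Q = mom z ν ε P Q + mom z ν ε P' Q := by
  unfold mom
  rw [← integral_add h h']
  refine integral_congr_ae (Eventually.of_forall fun x => ?_)
  simp only [momI, eval_add]
  ring

theorem mom_sub_left (z : J → ℂ) (ν ε : ℝ) {P P' Q : ℂ[X]} (h : Integrable (momI z ν ε P Q))
    (h' : Integrable (momI z ν ε P' Q)) :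
    mom z ν ε (P - P') Q = mom z ν ε P Q - mom z ν ε P' Q := by
  unfold mom
  rw [← integral_sub h h']
  refine integral_congr_ae (Eventually.of_forall fun x => ?_)
  simp only [momI, eval_sub]
  ring

theorem mom_C_mul_left (z : J → ℂ) (ν ε : ℝ) (c : ℂ) (P Q : ℂ[X]) :
    mom z ν ε (C c * P) Q = c * mom z ν ε P Q := by
  unfold mom
  rw [← integral_const_mul]
  refine integral_congr_ae (Eventually.of_forall fun x => ?_)
  simp only [momI, eval_mul, eval_C]
  ring

/-- `|f|² = (|f|² + ε) - ε` -/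
theorem mom_ff (z : J → ℂ) {ν ε : ℝ} (hν : 0 < ν) (hε : 0 < ε) {P Q : ℂ[X]} {a b : ℕ}
    (hP : P.degree < a) (hQ : Q.degree < b) (hd : (a : ℝ) + b < 2 * ν * Fintype.card J) :
    mom z (ν + 1) ε (P * fP z) (Q * fP z) = mom z ν ε P Q - ε * mom z (ν + 1) ε P Q := by
  have h1 := mom_int z hν hε hP hQ hd
  have h2 := mom_int z (ν := ν + 1) (by linarith) hε hP hQ (by
    have : (0 : ℝ) ≤ Fintype.card J := Nat.cast_nonneg _
    nlinarith)
  unfold mom
  rw [← integral_const_mul, ← integral_sub h1 (h2.const_mul _)]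
  refine integral_congr_ae (Eventually.of_forall fun x => ?_)
  have hs : 0 < ‖(fP z).eval x‖ ^ 2 + ε := by positivity
  have h3 : (‖(fP z).eval x‖ ^ 2 + ε) ^ (-ν) =
      (‖(fP z).eval x‖ ^ 2 + ε) * (‖(fP z).eval x‖ ^ 2 + ε) ^ (-(ν + 1)) := by
    rw [← Real.rpow_one_add' hs.le]
    · congr 1
      ring
    · linarith
  have h4 : (fP z).eval x * conj ((fP z).eval x) = ((‖(fP z).eval x‖ ^ 2 : ℝ) : ℂ) := by
    rw [Complex.mul_conj, Complex.normSq_eq_norm_sq]
  simp only [momI, eval_mul, map_mul]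
  rw [h3, Complex.ofReal_mul, Complex.ofReal_add, ← h4]
  ring

theorem mom_self_nonneg (z : J → ℂ) (ν : ℝ) {ε : ℝ} (hε : 0 ≤ ε) (P : ℂ[X]) :
    0 ≤ (mom z ν ε P P).re := by
  unfold mom
  simp only [Mom_self]
  rw [integral_complex_ofReal, Complex.ofReal_re]
  exact integral_nonneg fun x => mul_nonneg (by positivity) (Real.rpow_nonneg (by positivity) _)

/-- bilinearity: entries of `A G A'ᴴ` -/
theorem gram_mul {z : J → ℂ} (hz : Function.Injective z) {μ : ℝ} (h0 : 0 < μ) (h1 : μ < 1) {p : ℕ}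
    (hp : (p : ℝ) < μ * Fintype.card J) (v v' : Fin p → ℂ) :
    v ⬝ᵥ (gram μ p z *ᵥ star v') =
      mom z μ 0 (∑ c, C (v c) * X ^ (c : ℕ)) (∑ c, C (v' c) * X ^ (c : ℕ)) := by
  have hint : ∀ a b : Fin p, Integrable (momI z μ 0 (X ^ (a : ℕ)) (X ^ (b : ℕ))) := fun a b =>
    mom_int0 hz h0 h1 (a := p) (b := p)
      (by rw [degree_X_pow]; exact_mod_cast a.2) (by rw [degree_X_pow]; exact_mod_cast b.2)
      (by linarith)
  have h2 : ∀ x, momI z μ 0 (∑ c, C (v c) * X ^ (c : ℕ)) (∑ c, C (v' c) * X ^ (c : ℕ)) x =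
      ∑ a, ∑ b, v a * conj (v' b) * momI z μ 0 (X ^ (a : ℕ)) (X ^ (b : ℕ)) x := by
    intro x
    simp only [momI, eval_finsetSum, eval_mul, eval_C, map_sum, map_mul]
    rw [Finset.sum_mul_sum, Finset.sum_mul]
    refine Finset.sum_congr rfl fun a _ => ?_
    rw [Finset.sum_mul]
    refine Finset.sum_congr rfl fun b _ => ?_
    ring
  have h3 : mom z μ 0 (∑ c, C (v c) * X ^ (c : ℕ)) (∑ c, C (v' c) * X ^ (c : ℕ)) =
      ∑ a, ∑ b, v a * conj (v' b) * mom z μ 0 (X ^ (a : ℕ)) (X ^ (b : ℕ)) := by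
    unfold mom
    simp only [h2]
    rw [integral_finsetSum _ fun a _ => integrable_finsetSum _ fun b _ => (hint a b).const_mul _]
    refine Finset.sum_congr rfl fun a _ => ?_
    rw [integral_finsetSum _ fun b _ => (hint a b).const_mul _]
    refine Finset.sum_congr rfl fun b _ => ?_
    rw [integral_const_mul]
  rw [h3]
  simp only [dotProduct, Matrix.mulVec, gram, Matrix.of_apply, Pi.star_apply, Finset.mul_sum]
  refine Finset.sum_congr rfl fun a _ => Finset.sum_congr rfl fun b _ => ?_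
  rw [Complex.star_def]
  ring

/-- the integrand of `mom z μ 0 P P` is positive off a finite set if `P ≠ 0` -/
theorem gram_posDef {z : J → ℂ} (hz : Function.Injective z) {μ : ℝ} (h0 : 0 < μ) (h1 : μ < 1)
    {p : ℕ} (hp : (p : ℝ) < μ * Fintype.card J) : (gram μ p z).PosDef := by
  refine Matrix.PosDef.of_dotProduct_mulVec_pos ?_ fun v hv => ?_
  · ext a b
    simp only [gram, Matrix.conjTranspose_apply, Matrix.of_apply]
    rw [mom_conj z μ 0 (X ^ (b : ℕ)) (X ^ (a : ℕ)), Complex.star_def]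
  have h2 := gram_mul hz h0 h1 hp (star v) (star v)
  rw [star_star] at h2
  rw [h2]
  set P : ℂ[X] := ∑ c, C (star v c) * X ^ (c : ℕ) with hP
  have hdeg : P.degree < p := degree_sum_fin_lt _
  have hP0 : P ≠ 0 := by
    intro h
    apply hv
    funext a
    have h3 := congrArg (fun R : ℂ[X] => R.coeff a) (hP.symm.trans h)
    simp only [finsetSum_coeff, coeff_C_mul_X_pow, coeff_zero, Fin.val_inj] at h3
    rw [Finset.sum_ite_eq] at h3
    simpa using h3
  have hf0 : fP z ≠ 0 := (monic_prod_of_monic _ _ fun j _ => monic_X_sub_C (z j)).ne_zero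
  have hint := mom_int0 hz h0 h1 hdeg hdeg (by linarith)
  have hint' : Integrable fun x : ℂ => ‖P.eval x‖ ^ 2 * (‖(fP z).eval x‖ ^ 2 + 0) ^ (-μ) := by
    have h4 := hint.re
    simp only [Mom_self] at h4
    exact h4
  unfold mom
  simp only [Mom_self]
  rw [integral_complex_ofReal]
  refine Complex.zero_lt_real.2 ?_
  rw [integral_pos_iff_support_of_nonneg
    (fun x => mul_nonneg (by positivity) (Real.rpow_nonneg (by positivity) _)) hint', pos_iff_ne_zero]
  intro h5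
  have h6 : volume ((P * fP z).roots.toFinset : Set ℂ) = 0 := (Finset.finite_toSet _).measure_zero _
  have h7 : volume (Set.univ : Set ℂ) = 0 := by
    refine measure_mono_null (fun x _ => ?_) (measure_union_null h5 h6)
    by_contra h8
    simp only [Set.mem_union, not_or, Finset.mem_coe, Multiset.mem_toFinset,
      mem_roots (mul_ne_zero hP0 hf0), IsRoot.def, eval_mul, mul_eq_zero] at h8
    apply h8.1
    have h9 : 0 < ‖P.eval x‖ := norm_pos_iff.2 h8.2.1
    have h10 : 0 < ‖(fP z).eval x‖ := norm_pos_iff.2 h8.2.2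
    exact (mul_pos (by positivity) (Real.rpow_pos_of_pos (by positivity) _)).ne'
  exact NeZero.ne _ (Measure.measure_univ_eq_zero.1 h7)

end Pool.Agent.P.MP_a62d3c_co.FF
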