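import Pool.Agent.P.MP_a62d3c_co.FF.Piv

namespace Pool.Agent.P.MP_a62d3c_co.FF

open Filter Topology Polynomial MeasureTheory Asymptotics
open scoped ComplexConjugate Matrix ComplexOrder

theorem PL_map_conjT {Q Q' : Type} (T' : Matrix Q' Q ℂ) :
    (T'.map (starRingEnd ℂ))ᴴ = T'ᵀ := by
  ext i j
  simp [Matrix.conjTranspose_apply]

theorem PL_conjT_tr {Q Q' : Type} (T' : Matrix Q' Q ℂ) :
    (T'ᴴ)ᵀ = T'.map (starRingEnd ℂ) := by
  ext i j
  simp [Matrix.conjTranspose_apply]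

theorem PL_tr_conjT {Q Q' : Type} (T' : Matrix Q' Q ℂ) :
    (T'ᵀ)ᴴ = T'.map (starRingEnd ℂ) := by
  ext i j
  simp [Matrix.conjTranspose_apply]

/-- base change: multiply by `fromBlocks T 0 0 (T'.map conj)` and its conjugate transpose -/
theorem bigM_conj {P Q P' Q' : Type} [Fintype P] [Fintype Q] [Fintype P'] [Fintype Q']
    (G : Matrix P P ℂ) (G' : Matrix Q Q ℂ) (Θ : Matrix P Q ℂ) (T : Matrix P' P ℂ)
    (T' : Matrix Q' Q ℂ) :
    bigM (T * G * Tᴴ) (T' * G' * T'ᴴ) (T * Θ * T'ᵀ) =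
      Matrix.fromBlocks T 0 0 (T'.map (starRingEnd ℂ)) * bigM G G' Θ *
        (Matrix.fromBlocks T 0 0 (T'.map (starRingEnd ℂ)))ᴴ := by
  unfold bigM
  rw [Matrix.fromBlocks_conjTranspose, Matrix.fromBlocks_multiply, Matrix.fromBlocks_multiply]
  simp only [Matrix.conjTranspose_zero, Matrix.zero_mul, Matrix.mul_zero, add_zero, zero_add,
    PL_map_conjT, Matrix.conjTranspose_mul, Matrix.transpose_mul, PL_conjT_tr, PL_tr_conjT,
    Matrix.mul_neg, Matrix.neg_mul, Matrix.mul_assoc, neg_zero]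

theorem PL_det_map_conj {Q : Type} [Fintype Q] [DecidableEq Q] (T' : Matrix Q Q ℂ) :
    (T'.map (starRingEnd ℂ)).det = star T'.det := by
  rw [← PL_conjT_tr, Matrix.det_transpose, Matrix.det_conjTranspose]

theorem bigM_det_conj {P Q : Type} [Fintype P] [Fintype Q] [DecidableEq P] [DecidableEq Q]
    (G : Matrix P P ℂ) (G' : Matrix Q Q ℂ) (Θ : Matrix P Q ℂ) {T : Matrix P P ℂ}
    {T' : Matrix Q Q ℂ} (hT : T.det = 1) (hT' : T'.det = 1) :
    (bigM (T * G * Tᴴ) (T' * G' * T'ᴴ) (T * Θ * T'ᵀ)).det = (bigM G G' Θ).det := by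
  have h1 : (Matrix.fromBlocks T 0 0 (T'.map (starRingEnd ℂ))).det = 1 := by
    rw [Matrix.det_fromBlocks_zero₂₁, hT, PL_det_map_conj, hT']
    simp
  rw [bigM_conj, Matrix.det_mul, Matrix.det_mul, Matrix.det_conjTranspose, h1]
  simp

theorem PL_one_add {n : Type} [Fintype n] [DecidableEq n] {X : Matrix n n ℂ}
    (hX : X.PosSemidef) : 1 ≤ (1 + X).det.re := by
  have hU : (star (hX.1.eigenvectorUnitary : Matrix n n ℂ)) *
      (hX.1.eigenvectorUnitary : Matrix n n ℂ) = 1 := Unitary.coe_star_mul_self _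
  have hD := hX.1.conjStarAlgAut_star_eigenvectorUnitary
  rw [Unitary.conjStarAlgAut_star_apply] at hD
  set U : Matrix n n ℂ := (hX.1.eigenvectorUnitary : Matrix n n ℂ) with hUdef
  have h2 : star U * (1 + X) * U =
      Matrix.diagonal (fun i => ((1 + hX.1.eigenvalues i : ℝ) : ℂ)) := by
    rw [mul_add, add_mul, mul_one, hU, hD, ← Matrix.diagonal_one, Matrix.diagonal_add]
    congr 1
    funext i
    simp
  have h3 : (1 + X).det = ((∏ i, (1 + hX.1.eigenvalues i) : ℝ) : ℂ) := by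
    have h4 := congrArg Matrix.det h2
    rw [Matrix.det_mul, Matrix.det_mul, Matrix.det_diagonal, mul_right_comm, ← Matrix.det_mul, hU,
      Matrix.det_one, one_mul] at h4
    rw [h4]
    push_cast
    rfl
  rw [h3, Complex.ofReal_re]
  calc (1 : ℝ) = ∏ _i : n, (1 : ℝ) := by simp
    _ ≤ _ := Finset.prod_le_prod (fun _ _ => zero_le_one)
        fun i _ => le_add_of_nonneg_right (hX.eigenvalues_nonneg i)

open scoped MatrixOrder in
theorem PL_exists_sq {n : Type} [Fintype n] [DecidableEq n] {W : Matrix n n ℂ}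
    (hW : W.PosSemidef) : ∃ B : Matrix n n ℂ, W = Bᴴ * B := by
  obtain ⟨B, hB⟩ := CStarAlgebra.nonneg_iff_eq_star_mul_self.mp hW.nonneg
  exact ⟨B, hB⟩

theorem PL_star_mul (z : ℂ) : star z * z = ((‖z‖ ^ 2 : ℝ) : ℂ) := by
  rw [mul_comm]
  have := Complex.mul_conj' z
  simpa using this

/-- `det (S + W) ≥ det W`: conjugate `W` to `1`, the eigenvalues of `1 + X` are at least `1` -/
theorem det_add_ge {n : Type} [Fintype n] [DecidableEq n] {S W : Matrix n n ℂ}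
    (hS : S.PosSemidef) (hW : W.PosDef) : W.det.re ≤ (S + W).det.re := by
  obtain ⟨B, hB⟩ := PL_exists_sq hW.posSemidef
  have hd : W.det = ((‖B.det‖ ^ 2 : ℝ) : ℂ) := by
    rw [hB, Matrix.det_mul, Matrix.det_conjTranspose, PL_star_mul]
  have hB0 : B.det ≠ 0 := by
    intro h0
    have := hW.det_pos
    rw [hd, h0] at this
    simp at this
  have hu : IsUnit B.det := isUnit_iff_ne_zero.mpr hB0
  have hX : ((B⁻¹)ᴴ * S * B⁻¹).PosSemidef := hS.conjTranspose_mul_mul_same _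
  have h1 : S + W = Bᴴ * (1 + (B⁻¹)ᴴ * S * B⁻¹) * B := by
    have h2 : Bᴴ * (B⁻¹)ᴴ = 1 := by
      rw [← Matrix.conjTranspose_mul, Matrix.nonsing_inv_mul _ hu, Matrix.conjTranspose_one]
    rw [Matrix.mul_add, Matrix.add_mul, Matrix.mul_one, ← hB, add_comm]
    congr 1
    simp only [← Matrix.mul_assoc]
    rw [h2, Matrix.one_mul, Matrix.mul_assoc, Matrix.nonsing_inv_mul _ hu, Matrix.mul_one]
  have h3 : (S + W).det = ((‖B.det‖ ^ 2 : ℝ) : ℂ) * (1 + (B⁻¹)ᴴ * S * B⁻¹).det := by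
    rw [h1, Matrix.det_mul, Matrix.det_mul, Matrix.det_conjTranspose, mul_right_comm, PL_star_mul]
  rw [h3, hd, Complex.re_ofReal_mul, Complex.ofReal_re]
  exact le_mul_of_one_le_right (sq_nonneg _) (PL_one_add hX)

theorem PL_det_bigM {P Q : Type} [Fintype P] [Fintype Q] [DecidableEq P] [DecidableEq Q]
    {G : Matrix P P ℂ} (G' : Matrix Q Q ℂ) (Θ : Matrix P Q ℂ) (hG : IsUnit G) :
    (bigM G G' Θ).det = G.det * (G'ᵀ + Θᴴ * G⁻¹ * Θ).det := by
  have := hG.invertible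
  unfold bigM
  rw [Matrix.det_fromBlocks₁₁, Matrix.invOf_eq_nonsing_inv]
  simp only [Matrix.neg_mul, sub_neg_eq_add]

/-- block diagonalisation of a positive definite matrix -/
theorem PL_diag {K R : Type} [Fintype K] [Fintype R] [DecidableEq K] [DecidableEq R]
    {G : Matrix (K ⊕ R) (K ⊕ R) ℂ} (hG : G.PosDef) :
    ∃ (X : Matrix R K ℂ) (S : Matrix R R ℂ), G.toBlocks₁₁.PosDef ∧ S.PosDef ∧
      Matrix.fromBlocks 1 0 X 1 * G * (Matrix.fromBlocks 1 0 X 1)ᴴ =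
        Matrix.fromBlocks G.toBlocks₁₁ 0 0 S := by
  have hA : G.toBlocks₁₁.PosDef := hG.submatrix Sum.inl_injective
  have hu : IsUnit G.toBlocks₁₁.det := (Matrix.isUnit_iff_isUnit_det _).mp hA.isUnit
  have h12 : (G.toBlocks₂₁)ᴴ = G.toBlocks₁₂ := by
    ext i j
    exact hG.1.apply (Sum.inl i) (Sum.inr j)
  have hAi : (G.toBlocks₁₁⁻¹)ᴴ = G.toBlocks₁₁⁻¹ := hA.inv.1
  have key : Matrix.fromBlocks 1 0 (-(G.toBlocks₂₁ * G.toBlocks₁₁⁻¹)) 1 * G *
      (Matrix.fromBlocks 1 0 (-(G.toBlocks₂₁ * G.toBlocks₁₁⁻¹)) 1)ᴴ =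
      Matrix.fromBlocks G.toBlocks₁₁ 0 0
        (G.toBlocks₂₂ - G.toBlocks₂₁ * G.toBlocks₁₁⁻¹ * G.toBlocks₁₂) := by
    generalize hA' : G.toBlocks₁₁ = A at *
    generalize hB' : G.toBlocks₁₂ = B at *
    generalize hC' : G.toBlocks₂₁ = C at *
    generalize hD' : G.toBlocks₂₂ = D at *
    have hGe : G = Matrix.fromBlocks A B C D := by
      rw [← hA', ← hB', ← hC', ← hD', Matrix.fromBlocks_toBlocks]
    rw [hGe, Matrix.fromBlocks_conjTranspose, Matrix.fromBlocks_multiply,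
      Matrix.fromBlocks_multiply]
    have e1 : C * A⁻¹ * A = C := by
      rw [Matrix.mul_assoc, Matrix.nonsing_inv_mul _ hu, Matrix.mul_one]
    have e2 : A * (A⁻¹ * B) = B := by
      rw [← Matrix.mul_assoc, Matrix.mul_nonsing_inv _ hu, Matrix.one_mul]
    simp only [Matrix.conjTranspose_zero, Matrix.conjTranspose_one, Matrix.zero_mul,
      Matrix.mul_zero, Matrix.one_mul, Matrix.mul_one, add_zero, zero_add,
      Matrix.conjTranspose_neg, Matrix.conjTranspose_mul, h12, hAi, Matrix.neg_mul,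
      Matrix.mul_neg, e1, e2, neg_add_cancel, neg_zero]
    rw [neg_add_eq_sub]
  refine ⟨_, _, hA, ?_, key⟩
  have hT : IsUnit (Matrix.fromBlocks 1 0 (-(G.toBlocks₂₁ * G.toBlocks₁₁⁻¹)) 1 :
      Matrix (K ⊕ R) (K ⊕ R) ℂ) := by
    rw [Matrix.isUnit_iff_isUnit_det, Matrix.det_fromBlocks_zero₁₂]
    simp
  have h2 := hG.mul_mul_conjTranspose_same (Matrix.vecMul_injective_of_isUnit hT)
  rw [key] at h2
  exact h2.submatrix Sum.inr_injective

theorem PL_real {n : Type} [Fintype n] [DecidableEq n] {A : Matrix n n ℂ} (hA : A.PosDef) :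
    ∃ a : ℝ, 0 < a ∧ A.det = a := by
  have h := hA.det_pos
  rw [Complex.pos_iff] at h
  refine ⟨A.det.re, h.1, ?_⟩
  apply Complex.ext
  · simp
  · simp [← h.2]

/-- block form: `G = [[G11, G12], [G21, G22]]`, `Θ = diag (0, B)`. `det bigM = det G * det (G'ᵀ +
Θᴴ G⁻¹ Θ)`, the lower right block of `G⁻¹` is the inverse of the Schur complement `S`,
`det G = det G11 det S`, and `det (G'ᵀ + diag (0, W)) = det G'11 * det (S' + W)` -/
theorem block_le {K K' R : Type} [Fintype K] [Fintype K'] [Fintype R] [DecidableEq K]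
    [DecidableEq K'] [DecidableEq R] {G : Matrix (K ⊕ R) (K ⊕ R) ℂ}
    {G' : Matrix (K' ⊕ R) (K' ⊕ R) ℂ} (hG : G.PosDef) (hG' : G'.PosDef) {B : Matrix R R ℂ}
    (hB : B.det ≠ 0) :
    G.toBlocks₁₁.det.re * G'.toBlocks₁₁.det.re * ‖B.det‖ ^ 2 ≤
      ‖(bigM G G' (Matrix.fromBlocks 0 0 0 B)).det‖ := by
  obtain ⟨X, S, hA, hS, hX⟩ := PL_diag hG
  obtain ⟨X', S', hA', hS', hX'⟩ := PL_diag hG'
  have hT : (Matrix.fromBlocks 1 0 X 1 : Matrix (K ⊕ R) (K ⊕ R) ℂ).det = 1 := by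
    rw [Matrix.det_fromBlocks_zero₁₂]; simp
  have hT' : (Matrix.fromBlocks 1 0 X' 1 : Matrix (K' ⊕ R) (K' ⊕ R) ℂ).det = 1 := by
    rw [Matrix.det_fromBlocks_zero₁₂]; simp
  have hΘ : (Matrix.fromBlocks 1 0 X 1 : Matrix (K ⊕ R) (K ⊕ R) ℂ) *
      (Matrix.fromBlocks 0 0 0 B : Matrix (K ⊕ R) (K' ⊕ R) ℂ) *
      (Matrix.fromBlocks 1 0 X' 1 : Matrix (K' ⊕ R) (K' ⊕ R) ℂ)ᵀ = Matrix.fromBlocks 0 0 0 B := by
    rw [Matrix.fromBlocks_transpose, Matrix.fromBlocks_multiply, Matrix.fromBlocks_multiply]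
    simp
  rw [← bigM_det_conj G G' _ hT hT', hX, hX', hΘ]
  generalize G.toBlocks₁₁ = A at *
  generalize G'.toBlocks₁₁ = A' at *
  have huA : IsUnit A.det := (Matrix.isUnit_iff_isUnit_det _).mp hA.isUnit
  have huS : IsUnit S.det := (Matrix.isUnit_iff_isUnit_det _).mp hS.isUnit
  have hu : IsUnit (Matrix.fromBlocks A 0 0 S) := by
    rw [Matrix.isUnit_iff_isUnit_det, Matrix.det_fromBlocks_zero₁₂]
    exact huA.mul huS
  have hinv : (Matrix.fromBlocks A 0 0 S)⁻¹ = Matrix.fromBlocks A⁻¹ 0 0 S⁻¹ := by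
    apply Matrix.inv_eq_right_inv
    rw [Matrix.fromBlocks_multiply]
    simp [Matrix.mul_nonsing_inv _ huA, Matrix.mul_nonsing_inv _ huS]
  have hsum : (Matrix.fromBlocks A' 0 0 S')ᵀ +
      (Matrix.fromBlocks 0 0 0 B : Matrix (K ⊕ R) (K' ⊕ R) ℂ)ᴴ * Matrix.fromBlocks A⁻¹ 0 0 S⁻¹ *
        (Matrix.fromBlocks 0 0 0 B : Matrix (K ⊕ R) (K' ⊕ R) ℂ) =
      Matrix.fromBlocks A'ᵀ 0 0 (S'ᵀ + Bᴴ * S⁻¹ * B) := by
    rw [Matrix.fromBlocks_transpose, Matrix.fromBlocks_conjTranspose, Matrix.fromBlocks_multiply,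
      Matrix.fromBlocks_multiply, Matrix.fromBlocks_add]
    simp
  rw [PL_det_bigM _ _ hu, hinv, hsum, Matrix.det_fromBlocks_zero₁₂, Matrix.det_fromBlocks_zero₁₂,
    Matrix.det_transpose]
  have hBu : IsUnit B := (Matrix.isUnit_iff_isUnit_det _).mpr (isUnit_iff_ne_zero.mpr hB)
  have hW : (Bᴴ * S⁻¹ * B).PosDef :=
    hS.inv.conjTranspose_mul_mul_same (Matrix.mulVec_injective_of_isUnit hBu)
  have hge := det_add_ge hS'.transpose.posSemidef hW
  obtain ⟨a, ha, hae⟩ := PL_real hA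
  obtain ⟨a', ha', hae'⟩ := PL_real hA'
  obtain ⟨s, hs, hse⟩ := PL_real hS
  obtain ⟨w, hw, hwe⟩ := PL_real (hS'.transpose.add hW)
  have hWd : (Bᴴ * S⁻¹ * B).det = ((‖B.det‖ ^ 2 / s : ℝ) : ℂ) := by
    rw [Matrix.det_mul, Matrix.det_mul, Matrix.det_conjTranspose, mul_right_comm, PL_star_mul,
      Matrix.det_nonsing_inv, hse, Ring.inverse_eq_inv']
    push_cast
    rw [div_eq_mul_inv]
  rw [hWd, hwe, Complex.ofReal_re, Complex.ofReal_re, div_le_iff₀ hs] at hge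
  rw [hae, hae', hse, hwe, Complex.ofReal_re, Complex.ofReal_re]
  have : ((a : ℂ) * s * (a' * w)) = ((a * a' * (w * s) : ℝ) : ℂ) := by
    push_cast; ring
  rw [this, Complex.norm_real, Real.norm_eq_abs, abs_of_pos (by positivity)]
  exact mul_le_mul_of_nonneg_left hge (by positivity)

theorem PL_conj_equiv {P Q P' Q' : Type} [Fintype P] [Fintype Q] [Fintype P'] [Fintype Q']
    [DecidableEq P] [DecidableEq Q] [DecidableEq P'] [DecidableEq Q'] (e : P' ≃ P) (e' : Q' ≃ Q)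
    (G : Matrix P P ℂ) (G' : Matrix Q Q ℂ) (Θ : Matrix P Q ℂ) {T : Matrix P' P ℂ}
    {T' : Matrix Q' Q ℂ} (hT : (T.submatrix id e).det = 1) (hT' : (T'.submatrix id e').det = 1) :
    (bigM (T * G * Tᴴ) (T' * G' * T'ᴴ) (T * Θ * T'ᵀ)).det = (bigM G G' Θ).det := by
  have h := bigM_det_conj (G.submatrix e e) (G'.submatrix e' e') (Θ.submatrix e e') hT hT'
  simp only [Matrix.conjTranspose_submatrix, Matrix.transpose_submatrix,
    Matrix.submatrix_mul_equiv, Matrix.submatrix_id_id] at h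
  rw [h]
  have h2 : bigM (G.submatrix e e) (G'.submatrix e' e') (Θ.submatrix e e') =
      (bigM G G' Θ).submatrix (e.sumCongr e') (e.sumCongr e') := by
    ext i j
    rcases i with i | i <;> rcases j with j | j <;> simp [bigM]
  rw [h2, Matrix.det_submatrix_equiv_self]

theorem PL_pos_equiv {P P' : Type} [Fintype P] [Fintype P'] [DecidableEq P] [DecidableEq P']
    (e : P' ≃ P) {G : Matrix P P ℂ} (hG : G.PosDef) {T : Matrix P' P ℂ}
    (hT : (T.submatrix id e).det = 1) : (T * G * Tᴴ).PosDef := by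
  have hu : IsUnit (T.submatrix id e) := by
    rw [Matrix.isUnit_iff_isUnit_det, hT]
    exact isUnit_one
  have h := (hG.submatrix e.injective).mul_mul_conjTranspose_same
    (Matrix.vecMul_injective_of_isUnit hu)
  simpa only [Matrix.conjTranspose_submatrix, Matrix.submatrix_mul_equiv,
    Matrix.submatrix_id_id] using h

/-- the rows outside the pivot followed by the rows of the pivot -/
noncomputable def PL_eq {p q : ℕ} (π : Piv p q) : π.K ⊕ Fin π.r ≃ Fin p :=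
  Equiv.ofBijective (Sum.elim Subtype.val π.ι) (by
    constructor
    · rintro (a | a) (b | b) hab
      · exact congrArg Sum.inl (Subtype.ext hab)
      · exact absurd ⟨b, hab.symm⟩ a.2
      · exact absurd ⟨a, hab⟩ b.2
      · exact congrArg Sum.inr (π.ι.injective hab)
    · intro a
      by_cases h : a ∈ Set.range π.ι
      · obtain ⟨b, hb⟩ := h
        exact ⟨Sum.inr b, hb⟩
      · exact ⟨Sum.inl ⟨a, h⟩, rfl⟩)

/-- the base change matrix -/
noncomputable def PL_T {p q : ℕ} (Θ : Matrix (Fin p) (Fin q) ℂ) (π : Piv p q) :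
    Matrix (π.K ⊕ Fin π.r) (Fin p) ℂ :=
  Matrix.fromRows (kerL Θ π) ((1 : Matrix (Fin p) (Fin p) ℂ).submatrix π.ι id)

theorem PL_T_det {p q : ℕ} (Θ : Matrix (Fin p) (Fin q) ℂ) (π : Piv p q) :
    ((PL_T Θ π).submatrix id (PL_eq π)).det = 1 := by
  have h : (PL_T Θ π).submatrix id (PL_eq π) =
      Matrix.fromBlocks 1 ((kerL Θ π).submatrix id π.ι) 0 1 := by
    ext i j
    rcases i with i | i <;> rcases j with j | j
    · have h1 := congrFun (congrFun (kerL_mul_sel Θ π) i) j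
      rw [Matrix.mul_apply] at h1
      simp only [Matrix.submatrix_apply, id, Matrix.one_apply, mul_ite, mul_one, mul_zero,
        Finset.sum_ite_eq', Finset.mem_univ, if_true] at h1
      simp only [Matrix.fromBlocks_apply₁₁, Matrix.one_apply]
      exact h1
    · rfl
    · have hne : π.ι i ≠ j.1 := fun h => j.2 ⟨i, h⟩
      exact Matrix.one_apply_ne hne
    · change (1 : Matrix (Fin p) (Fin p) ℂ) (π.ι i) (π.ι j) =
        (1 : Matrix (Fin π.r) (Fin π.r) ℂ) i j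
      simp [Matrix.one_apply]
  rw [h, Matrix.det_fromBlocks_zero₂₁]
  simp

theorem PL_T_block {p q : ℕ} (Θ : Matrix (Fin p) (Fin q) ℂ) (π : Piv p q)
    (G : Matrix (Fin p) (Fin p) ℂ) :
    (PL_T Θ π * G * (PL_T Θ π)ᴴ).toBlocks₁₁ = kerL Θ π * G * (kerL Θ π)ᴴ := by
  unfold PL_T
  rw [Matrix.fromRows_mul, Matrix.conjTranspose_fromRows_eq_fromCols_conjTranspose,
    Matrix.fromRows_mul_fromCols, Matrix.toBlocks_fromBlocks₁₁]

theorem PL_T_theta {p q : ℕ} {Θ : Matrix (Fin p) (Fin q) ℂ} {π : Piv p q} (h : Valid Θ π) :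
    PL_T Θ π * Θ * (PL_T Θᵀ π.swap)ᵀ = Matrix.fromBlocks 0 0 0 (blk Θ π) := by
  have h1 := h.kerL_mul
  have h2 : Θ * (kerL Θᵀ π.swap)ᵀ = 0 := by
    have h3 := congrArg Matrix.transpose h.transpose.kerL_mul
    rwa [Matrix.transpose_mul, Matrix.transpose_transpose, Matrix.transpose_zero] at h3
  have h4 : (1 : Matrix (Fin p) (Fin p) ℂ).submatrix π.ι id * Θ *
      ((1 : Matrix (Fin q) (Fin q) ℂ).submatrix π.swap.ι id)ᵀ = blk Θ π := by
    ext i j
    rw [Matrix.mul_apply]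
    simp only [Matrix.mul_apply, Matrix.transpose_apply, Matrix.submatrix_apply, id,
      Matrix.one_apply, ite_mul, one_mul, zero_mul, Finset.sum_ite_eq, Finset.mem_univ, if_true,
      mul_ite, mul_one, mul_zero]
    rfl
  unfold PL_T
  rw [Matrix.fromRows_mul, Matrix.transpose_fromRows, Matrix.fromRows_mul_fromCols, h1, h4,
    Matrix.zero_mul, Matrix.zero_mul, Matrix.mul_assoc, h2, Matrix.mul_zero]
  rfl

/-- PL: base change by `T = fromRows (kerL Θ π) (rows ι of 1)`, whose determinant (after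
reindexing by `π.K ⊕ Fin π.r ≃ Fin p`) has norm one; `T Θ T'ᵀ = diag (0, blk Θ π)` -/
theorem phi_le {p q : ℕ} {G : Matrix (Fin p) (Fin p) ℂ} {G' : Matrix (Fin q) (Fin q) ℂ}
    {Θ : Matrix (Fin p) (Fin q) ℂ} {π : Piv p q} (hG : G.PosDef) (hG' : G'.PosDef)
    (h : Valid Θ π) : phi G G' Θ π ≤ ‖(bigM G G' Θ).det‖ := by
  have hT := PL_T_det Θ π
  have hT' := PL_T_det Θᵀ π.swap
  have h1 := PL_conj_equiv (PL_eq π) (PL_eq π.swap) G G' Θ hT hT'
  have h2 := block_le (K := π.K) (K' := π.swap.K) (R := Fin π.r)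
    (PL_pos_equiv (PL_eq π) hG hT) (PL_pos_equiv (PL_eq π.swap) hG' hT') h.1
  rw [← h1, PL_T_theta h]
  have h3 := PL_T_block Θ π G
  have h4 := PL_T_block Θᵀ π.swap G'
  unfold phi gdet
  rw [← h3, ← h4]
  exact h2

end Pool.Agent.P.MP_a62d3c_co.FF
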