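import Pool.Agent.P.MP_a62d3c_co.FF.Th
import Pool.Agent.P.MP_a62d3c_co.FF.N1
import Pool.Agent.P.MP_a62d3c_co.FF.N3
import Pool.Agent.P.MP_a62d3c_co.FF.PL
import Pool.Agent.P.MP_a62d3c_co.FF.Mom
import Pool.Agent.P.MP_a62d3c_co.FF.Alp

set_option linter.unusedSectionVars false

namespace Pool.Agent.P.MP_a62d3c_co.FF

open Filter Topology Polynomial MeasureTheory Asymptotics
open scoped ComplexConjugate Matrix ComplexOrder

variable {J : Type} [Fintype J] [DecidableEq J]

/-- coefficient matrix of the Newton polynomials: lower triangular with ones on the diagonal -/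
theorem newton_mat {p : ℕ} (z : J → ℂ) {mu : Fin p → J → ℕ} (hmu : ∀ x, ∑ i, mu x i = x) :
    ∃ T : Matrix (Fin p) (Fin p) ℂ, T.det = 1 ∧
      ∀ x, ∑ c, C (T x c) * X ^ (c : ℕ) = nP z (mu x) := by
  have hm : ∀ x, (nP z (mu x)).Monic := fun x =>
    monic_prod_of_monic _ _ fun i _ => (monic_X_sub_C _).pow _
  have hd : ∀ x, (nP z (mu x)).natDegree = x := fun x => by
    rw [nP, natDegree_prod_of_monic _ _ fun i _ => (monic_X_sub_C _).pow _, ← hmu x]
    simp
  refine ⟨(Matrix.of fun i j : Fin p => (nP z (mu j)).coeff i)ᵀ, ?_, fun x => ?_⟩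
  · rw [Matrix.det_transpose]
    exact Matrix.det_matrixOfPolynomials _ hd hm
  · simp only [Matrix.transpose_apply, Matrix.of_apply, C_mul_X_pow_eq_monomial]
    rw [Fin.sum_univ_eq_sum_range fun c => monomial c ((nP z (mu x)).coeff c)]
    exact (as_sum_range' _ _ (by rw [hd]; exact x.2)).symm

theorem HA_gram {p : ℕ} {z : J → ℂ} (hz : Function.Injective z) {μ : ℝ} (h0 : 0 < μ) (h1 : μ < 1)
    (hp : (p : ℝ) < μ * Fintype.card J) {T : Matrix (Fin p) (Fin p) ℂ} {P : Fin p → ℂ[X]}
    (hT : ∀ x, ∑ c, C (T x c) * X ^ (c : ℕ) = P x) :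
    T * gram μ p z * Tᴴ = Matrix.of fun x y => mom z μ 0 (P x) (P y) := by
  ext x y
  rw [Matrix.of_apply, ← hT, ← hT, ← gram_mul hz h0 h1 hp, Matrix.mul_assoc]
  rfl

theorem HA_theta {p q : ℕ} (z τ : J → ℂ) {T : Matrix (Fin p) (Fin p) ℂ}
    {T' : Matrix (Fin q) (Fin q) ℂ} {P : Fin p → ℂ[X]} {P' : Fin q → ℂ[X]}
    (hT : ∀ x, ∑ c, C (T x c) * X ^ (c : ℕ) = P x)
    (hT' : ∀ x, ∑ c, C (T' x c) * X ^ (c : ℕ) = P' x) :
    T * theta p q z τ * T'ᵀ = Matrix.of fun x y => hig z τ (P x * P' y) := by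
  have e : theta p q z τ = (Matrix.of fun (c : Fin p) j => z j ^ (c : ℕ) * (τ j / dpr z j)) *
      (Matrix.of fun (c : Fin q) j => z j ^ (c : ℕ))ᵀ := by
    ext a b
    simp only [theta, hig, Matrix.of_apply, Matrix.mul_apply, Matrix.transpose_apply, eval_pow,
      eval_X]
    exact Finset.sum_congr rfl fun j _ => by ring
  rw [e, ← Matrix.mul_assoc, Matrix.mul_assoc (T * _), ← Matrix.transpose_mul]
  ext x y
  simp only [hig, Matrix.of_apply, Matrix.mul_apply, Matrix.transpose_apply, ← hT, ← hT', eval_mul,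
    eval_finsetSum, eval_C, eval_pow, eval_X, ← mul_assoc, ← Finset.sum_mul]
  exact Finset.sum_congr rfl fun j _ => by ring

theorem HA_nP_add (z : J → ℂ) (mu mu' : J → ℕ) : nP z mu * nP z mu' = nP z (mu + mu') := by
  simp only [nP, Pi.add_apply, pow_add, Finset.prod_mul_distrib]

/-- Paper section 5. `phi_le`, `bigM_det_conj` with the matrices of `newton_mat` (entries by
`gram_mul` and bilinearity of `hig`), then `Bd.det_rank_one` on `Fin p ⊕ Fin q` with
`lam = Sum.elim (ν - η') (ν' - η')`, `V = (U × Fin p) ⊕ (U × Fin p)` (the rank one terms of `th` in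
the upper right block and their conjugates in the lower left block), `n3` for the diagonal blocks,
`n1` for `μ = 1/4` and `3/4`; `2 (p + q) η' ≤ η`. -/
theorem ha {U : Type} [Fintype U] {z τ : ℂ → J → ℂ} {d : J → J → ℤ} {n0 : ℤ} {S : U → Finset J}
    {lo : U → ℤ} {len : U → ℕ} (hS : Sep z d) (hD : Der z τ d) (T : IsTree d n0 S lo len)
    {p q : ℕ} (hy : Hyp (1 / 4) p q (Fintype.card J)) (π : Piv p q)
    (hV : ∀ᶠ s in L0, Valid (theta p q (z s) (τ s)) π) {η : ℝ} (hη : 0 < η) :
    Bd (fun s => (Phi p q (z s) (τ s) π : ℂ))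
      (2 * (n0 * topH p q (Fintype.card J) -
        ∑ u, ((len u : ℝ) * (Pf p (1 / 4 * (S u).card) + Pf q (3 / 4 * (S u).card)) +
          cost p q (1 / 4) (S u).card (len u))) - η) := by
  classical
  obtain ⟨hp, -, -, -, hn⟩ := hy.degs
  have hq := hy.swap.degs.1
  have e34 : (1 : ℝ) - 1 / 4 = 3 / 4 := by norm_num
  rw [e34] at hq
  have : Nonempty J := Fintype.card_pos_iff.1 (by omega)
  obtain ⟨mu, ν, hmu, hν, s1⟩ := n1 T (μ := 1 / 4) (by norm_num) p
  obtain ⟨mu', ν', hmu', hν', s2⟩ := n1 T (μ := 3 / 4) (by norm_num) q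
  obtain ⟨a, b, α, β, t1, t2, t3, t4⟩ := th hS hD T hn hmu hmu' hν (by rw [e34]; exact hν')
  have hpq : (0 : ℝ) < p + q := by
    have := hy.2.2.1
    exact_mod_cast (by omega : 0 < p + q)
  obtain ⟨ε, hε, hε'⟩ : ∃ ε : ℝ, 0 < ε ∧ 2 * ((p + q) * ε) = η :=
    ⟨η / (2 * (p + q)), by positivity, by field_simp⟩
  have d1 : ∀ x, ((∑ i, mu x i : ℕ) : ℝ) + 1 < 1 / 4 * Fintype.card J := fun x => by
    rw [hmu]
    exact lt_of_le_of_lt (by exact_mod_cast x.2) hp
  have d2 : ∀ x, ((∑ i, mu' x i : ℕ) : ℝ) + 1 < 3 / 4 * Fintype.card J := fun x => by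
    rw [hmu']
    exact lt_of_le_of_lt (by exact_mod_cast x.2) hq
  let M : ℂ → Matrix (Fin p ⊕ Fin q) (Fin p ⊕ Fin q) ℂ := fun s =>
    bigM (Matrix.of fun x y => mom (z s) (1 / 4) 0 (nP (z s) (mu x)) (nP (z s) (mu y)))
      (Matrix.of fun x y => mom (z s) (3 / 4) 0 (nP (z s) (mu' x)) (nP (z s) (mu' y)))
      (Matrix.of fun x y => hig (z s) (τ s) (nP (z s) (mu x + mu' y)))
  let A : (U × Fin p) ⊕ (U × Fin p) → ℂ → Fin p ⊕ Fin q → ℂ :=
    Sum.elim (fun v s => Sum.elim (a v s) 0) fun v s => Sum.elim 0 fun y => -conj (b v s y)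
  let B : (U × Fin p) ⊕ (U × Fin p) → ℂ → Fin p ⊕ Fin q → ℂ :=
    Sum.elim (fun v s => Sum.elim 0 (b v s)) fun v s => Sum.elim (fun x => conj (a v s x)) 0
  have key := Bd.det_rank_one (M := M) (M₀ := fun s i j => M s i j - ∑ v, A v s i * B v s j)
    (a := A) (b := B) (lam := Sum.elim (fun x => ν x - ε) fun y => ν' y - ε)
    (α := Sum.elim α β) (β := Sum.elim β α)
    (Eventually.of_forall fun s i j => (sub_add_cancel _ _).symm) (by
      rintro (x | y) (x' | y')
      · refine ((n3 hS T.base (by norm_num) (by norm_num) (d1 x) (d1 x') (hν x) (hν x')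
          (η := 2 * ε) (by linarith)).congr (Eventually.of_forall fun s => ?_)).of_eq ?_
        · simp [M, A, B, bigM]
        · simp only [Sum.elim_inl]; ring
      · refine ((t1 x y').congr (Eventually.of_forall fun s => ?_)).mono ?_
        · simp [M, A, B, bigM]
        · simp only [Sum.elim_inl, Sum.elim_inr]; linarith
      · refine ((t1 x' y).conj.neg.congr (Eventually.of_forall fun s => ?_)).mono ?_
        · simp only [M, A, B, bigM, Fintype.sum_sum_type, Sum.elim_inl, Sum.elim_inr,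
            Matrix.fromBlocks_apply₂₁, Matrix.neg_apply, Matrix.conjTranspose_apply,
            Matrix.of_apply, Pi.zero_apply, zero_mul, Finset.sum_const_zero, zero_add, map_sub,
            map_sum, map_mul, neg_mul, Finset.sum_neg_distrib, mul_comm (conj (b _ s y)),
            RCLike.star_def]
          ring
        · simp only [Sum.elim_inl, Sum.elim_inr]; linarith
      · refine ((n3 hS T.base (by norm_num) (by norm_num) (d2 y') (d2 y) (hν' y') (hν' y)
          (η := 2 * ε) (by linarith)).congr (Eventually.of_forall fun s => ?_)).of_eq ?_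
        · simp [M, A, B, bigM]
        · simp only [Sum.elim_inr]; ring) (by
      rintro (v | v) (x | y)
      · exact (t2 v x).mono (by simp only [Sum.elim_inl]; linarith)
      · exact bd_zero _
      · exact bd_zero _
      · exact (t3 v y).conj.neg.mono (by simp only [Sum.elim_inr]; linarith)) (by
      rintro (v | v) (x | y)
      · exact bd_zero _
      · exact (t3 v y).mono (by simp only [Sum.elim_inl, Sum.elim_inr]; linarith)
      · exact (t2 v x).conj.mono (by simp only [Sum.elim_inl, Sum.elim_inr]; linarith)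
      · exact bd_zero _)
  refine (key.of_le ?_).mono ?_
  · filter_upwards [hV, hS.inj] with s h1 h2
    have g1 := gram_posDef h2 (μ := 1 / 4) (by norm_num) (by norm_num) hp
    have g2 := gram_posDef h2 (μ := 3 / 4) (by norm_num) (by norm_num) hq
    obtain ⟨N, n1, n2⟩ := newton_mat (z s) hmu
    obtain ⟨N', n1', n2'⟩ := newton_mat (z s) hmu'
    rw [Complex.norm_real, Phi, Real.norm_of_nonneg (phi_pos g1 g2 h1).le]
    refine (phi_le g1 g2 h1).trans (le_of_eq ?_)
    rw [← bigM_det_conj _ _ _ n1 n1', HA_gram h2 (by norm_num) (by norm_num) hp n2,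
      HA_gram h2 (by norm_num) (by norm_num) hq n2', HA_theta _ _ n2 n2']
    simp only [HA_nP_add, M]
  · have e : ∀ v, -β v - α v = -α v - β v := fun v => by ring
    simp only [Fintype.sum_sum_type, Sum.elim_inl, Sum.elim_inr, e, Finset.sum_sub_distrib,
      Finset.sum_const, Finset.card_univ, Fintype.card_fin, nsmul_eq_mul, topH, mul_add,
      Finset.sum_add_distrib] at s1 s2 ⊢
    linarith

end Pool.Agent.P.MP_a62d3c_co.FF
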