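import Pool.Agent.P.MP_a62d3c_co.FF.Defs

namespace Pool.Agent.P.MP_a62d3c_co.FF

open Filter Topology Polynomial MeasureTheory Asymptotics
open scoped ComplexConjugate Matrix ComplexOrder

/-! Paper section 7: the function `hA`. -/

theorem Num1_p {ρ : ℕ} (hρ : 1 ≤ ρ) : ((pP ρ : ℕ) : ℝ) = 16 * ρ - 1 := by
  rw [Nat.cast_sub (by omega)]; push_cast; ring

theorem Num1_q {ρ : ℕ} (hρ : 1 ≤ ρ) : ((qP ρ : ℕ) : ℝ) = 48 * ρ - 1 := by
  rw [Nat.cast_sub (by omega)]; push_cast; ring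

theorem Num1_m (ρ : ℕ) : ((mP ρ : ℕ) : ℝ) = 64 * ρ := by push_cast; ring

theorem Num1_m1 {ρ : ℕ} (hρ : 1 ≤ ρ) : ((mP ρ - 1 : ℕ) : ℝ) = 64 * ρ - 1 := by
  rw [Nat.cast_sub (by unfold mP; omega)]; push_cast; ring

theorem Num1_sum (p : ℕ) (c : ℝ) :
    ∑ a ∈ Finset.range p, (1 + (a : ℝ) - c) = p * (p + 1) / 2 - p * c := by
  induction p with
  | zero => simp
  | succ p ih => rw [Finset.sum_range_succ, ih]; push_cast; ring

theorem hyp_m {ρ : ℕ} (hρ : 1 ≤ ρ) : Hyp (1 / 4) (pP ρ) (qP ρ) (mP ρ) := by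
  refine ⟨by norm_num, by norm_num, by unfold pP; omega, by unfold qP; omega,
    Or.inr ⟨by unfold mP pP qP; omega, ?_⟩⟩
  rw [Num1_m, Num1_p hρ]; ring

theorem hyp_m1 {ρ : ℕ} (hρ : 1 ≤ ρ) : Hyp (1 / 4) (pP ρ) (qP ρ) (mP ρ - 1) := by
  refine ⟨by norm_num, by norm_num, by unfold pP; omega, by unfold qP; omega,
    Or.inl ⟨by unfold mP pP qP; omega, ?_, ?_⟩⟩
  · rw [Num1_m1 hρ, Num1_p hρ]; linarith
  · rw [Num1_m1 hρ, Num1_q hρ]; linarith

theorem card_eraseNone {κ : Type} [Fintype κ] [DecidableEq κ] {ρ : ℕ} {I : Finset (Option κ)}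
    (hI : I ∈ II κ ρ) :
    Fintype.card I.eraseNone = mP ρ ∨ Fintype.card I.eraseNone = mP ρ - 1 := by
  have hc : I.card = mP ρ := (Finset.mem_powersetCard.1 hI).2
  rw [Fintype.card_coe]
  by_cases h : none ∈ I
  · right; rw [Finset.card_eraseNone_of_mem h, hc]
  · left; rw [Finset.card_eraseNone_of_not_mem h, hc]

theorem top_zero {ρ n : ℕ} (hρ : 1 ≤ ρ) (hn : n = mP ρ ∨ n = mP ρ - 1) :
    topH (pP ρ) (qP ρ) n + kH ρ * ((n : ℝ) * ((n : ℝ) - 1) / 2) = 0 := by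
  have h1 : (1 : ℝ) ≤ ρ := by exact_mod_cast hρ
  have h2 : (64 * (ρ : ℝ) - 1) ≠ 0 := by linarith
  unfold topH kH
  rw [Num1_sum, Num1_sum, Num1_p hρ, Num1_q hρ]
  rcases hn with rfl | rfl
  · rw [Num1_m]
    linear_combination (32 * (ρ : ℝ) * (40 * ρ - 1)) * mul_inv_cancel₀ h2
  · rw [Num1_m1 hρ]
    linear_combination ((32 * (ρ : ℝ) - 1) * (40 * ρ - 1)) * mul_inv_cancel₀ h2

theorem kD_choose (ρ : ℕ) :
    kD ρ * ((64 * (ρ : ℝ) ^ 2 - 1) * (64 * (ρ : ℝ) ^ 2 - 2) / 2) = sig (eP ρ) := by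
  have h1 : (0 : ℝ) ≤ ρ := Nat.cast_nonneg _
  have h2 : (8 * (ρ : ℝ) + 1) ≠ 0 := by linarith
  unfold kD sig
  push_cast
  field_simp
  ring

theorem Num1_Pf (p j : ℕ) {y φ : ℝ} (hy : y = j + φ) (h0 : 0 ≤ φ) (h1 : φ ≤ 1) :
    Pf p y ≤ (y ^ 2 - y + φ * (1 - φ)) / 2 := by
  have e1 : Pf p y ≤ ∑ k ∈ Finset.range j, max (y - 1 - k) 0 := by
    unfold Pf
    rw [← Finset.sum_filter_ne_zero]
    refine Finset.sum_le_sum_of_subset_of_nonneg (fun k hk => ?_) fun _ _ _ => le_max_right _ _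
    rw [Finset.mem_range]
    by_contra hn
    have h2 : (j : ℝ) ≤ k := by exact_mod_cast not_lt.1 hn
    exact (Finset.mem_filter.1 hk).2 (max_eq_right (by linarith))
  have e2 : ∑ k ∈ Finset.range j, max (y - 1 - k) 0 =
      -∑ k ∈ Finset.range j, (1 + (k : ℝ) - y) := by
    rw [← Finset.sum_neg_distrib]
    refine Finset.sum_congr rfl fun k hk => ?_
    have h2 : (k : ℝ) + 1 ≤ j := by exact_mod_cast Finset.mem_range.1 hk
    rw [max_eq_left (by linarith)]; ring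
  rw [e2, Num1_sum] at e1
  refine e1.trans (le_of_eq ?_)
  rw [hy]; ring

theorem Num1_G {ρ s j r : ℕ} (hρ : 1 ≤ ρ) (hs : s = 4 * j + r) (hr : r < 4) :
    3 / 16 * ((s : ℝ) * (64 * ρ - s) / (64 * ρ - 1)) - r * (4 - r) / 16 ≤
      kH ρ * ((s : ℝ) * ((s : ℝ) - 1) / 2) - Pf (pP ρ) (1 / 4 * s) - Pf (qP ρ) (3 / 4 * s) := by
  have h1 : (1 : ℝ) ≤ ρ := by exact_mod_cast hρ
  have h2 : (64 * (ρ : ℝ) - 1) ≠ 0 := by linarith
  have e0 : kH ρ * ((s : ℝ) * ((s : ℝ) - 1) / 2) =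
      3 / 16 * ((s : ℝ) * (64 * ρ - s) / (64 * ρ - 1)) + 5 / 16 * s ^ 2 - s / 2 := by
    unfold kH
    linear_combination (5 / 16 * (s : ℝ) ^ 2 - s / 2) * mul_inv_cancel₀ h2
  have hs' : (s : ℝ) = 4 * j + r := by exact_mod_cast hs
  have hr' : (r : ℝ) ≤ 4 := by exact_mod_cast hr.le
  have hr0 : (0 : ℝ) ≤ r := Nat.cast_nonneg _
  have a1 := Num1_Pf (pP ρ) j (y := 1 / 4 * s) (φ := r / 4) (by rw [hs']; ring) (by linarith)
    (by linarith)
  have a2 : Pf (qP ρ) (3 / 4 * s) ≤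
      ((3 / 4 * (s : ℝ)) ^ 2 - 3 / 4 * s + r / 4 * (1 - r / 4)) / 2 := by
    rcases r with _ | r
    · exact Num1_Pf (qP ρ) (3 * j) (by rw [hs']; push_cast; ring) (by linarith) (by linarith)
    · refine (Num1_Pf (qP ρ) (3 * j + r) (φ := 1 - ((r + 1 : ℕ) : ℝ) / 4)
        (by rw [hs']; push_cast; ring) (by linarith) (by linarith)).trans (le_of_eq ?_)
      ring
  rw [e0]
  linarith

theorem Num1_cost0 {ρ s : ℕ} (l : ℕ) (h : ¬ (2 ≤ s ∧ s + 2 ≤ mP ρ)) :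
    cost (pP ρ) (qP ρ) (1 / 4) s l = 0 := by
  refine Finset.sum_eq_zero fun k hk => if_neg fun h' => h ?_
  have := Finset.mem_range.1 hk
  unfold mP
  unfold pP at this
  unfold qP at h'
  omega

theorem Num1_cost (p q : ℕ) {s j r l l' : ℕ} (hs : s = 4 * j + r) (hr : r < 4) (hl' : 1 ≤ l')
    (hl : l' ≤ l) :
    cost p q (1 / 4) s l ≤ max (1 - l' * ((r : ℝ) / 4)) 0 + max (1 - l' * (1 - (r : ℝ) / 4)) 0 := by
  have hs' : (s : ℝ) = 4 * j + r := by exact_mod_cast hs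
  have hr' : (r : ℝ) ≤ 4 := by exact_mod_cast hr.le
  have hr0 : (0 : ℝ) ≤ r := Nat.cast_nonneg _
  have hl1 : (1 : ℝ) ≤ l' := by exact_mod_cast hl'
  have hl2 : (l' : ℝ) ≤ l := by exact_mod_cast hl
  set A := max (1 - l' * ((r : ℝ) / 4)) 0 with hA
  set B := max (1 - l' * (1 - (r : ℝ) / 4)) 0 with hB
  have A0 : 0 ≤ A := le_max_right _ _
  have B0 : 0 ≤ B := le_max_right _ _
  have key : ∀ k : ℕ, max (1 - l * |(k : ℝ) + 1 - 1 / 4 * s|) 0 ≤
      (if k = j - 1 then A else 0) + (if k = j then B else 0) := fun k => by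
    have i1 : 0 ≤ (if k = j - 1 then A else 0) := by split_ifs <;> simp [A0]
    have i2 : 0 ≤ (if k = j then B else 0) := by split_ifs <;> simp [B0]
    have m1 : (l' : ℝ) * |(k : ℝ) + 1 - 1 / 4 * s| ≤ l * |(k : ℝ) + 1 - 1 / 4 * s| :=
      mul_le_mul_of_nonneg_right hl2 (abs_nonneg _)
    refine max_le ?_ (add_nonneg i1 i2)
    by_cases c1 : k + 1 = j
    · have c : (k : ℝ) + 1 = j := by exact_mod_cast c1
      have e : |(k : ℝ) + 1 - 1 / 4 * s| = r / 4 := by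
        rw [abs_of_nonpos (by linarith)]; linarith
      rw [if_pos (by omega)]
      rw [e] at m1 ⊢
      linarith [le_max_left (1 - l' * ((r : ℝ) / 4)) 0]
    by_cases c2 : k = j
    · have c : (k : ℝ) = j := by exact_mod_cast c2
      have e : |(k : ℝ) + 1 - 1 / 4 * s| = 1 - r / 4 := by
        rw [abs_of_nonneg (by linarith)]; linarith
      rw [if_pos c2]
      rw [e] at m1 ⊢
      linarith [le_max_left (1 - l' * (1 - (r : ℝ) / 4)) 0]
    have e : 1 ≤ |(k : ℝ) + 1 - 1 / 4 * s| := by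
      rcases lt_or_gt_of_ne c2 with c | c
      · have c' : (k : ℝ) + 2 ≤ j := by exact_mod_cast (by omega : k + 2 ≤ j)
        exact le_abs.2 (Or.inr (by linarith))
      · have c' : (j : ℝ) + 1 ≤ k := by exact_mod_cast c
        exact le_abs.2 (Or.inl (by linarith))
    have m2 : 1 * 1 ≤ (l' : ℝ) * |(k : ℝ) + 1 - 1 / 4 * s| :=
      mul_le_mul hl1 e zero_le_one (by linarith)
    linarith
  calc cost p q (1 / 4) s l
      ≤ ∑ k ∈ Finset.range p, ((if k = j - 1 then A else 0) + (if k = j then B else 0)) := by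
        refine Finset.sum_le_sum fun k _ => le_trans ?_ (key k)
        split_ifs
        · exact le_rfl
        · exact le_max_right _ _
    _ ≤ A + B := by
        rw [Finset.sum_add_distrib, Finset.sum_ite_eq', Finset.sum_ite_eq']
        refine add_le_add ?_ ?_ <;> split_ifs <;> simp [A0, B0]

theorem Num1_b5 {t : ℕ} (h : 5 ≤ t) : (t.choose 2 : ℝ) - t.choose 3 ≤ 0 := by
  have h1 := Nat.choose_succ_right_eq t 2
  have h2 : t.choose 2 * 3 ≤ t.choose 2 * (t - 2) := Nat.mul_le_mul_left _ (by omega)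
  have h3 : t.choose 2 ≤ t.choose 3 := by
    change t.choose 3 * 3 = _ at h1
    omega
  exact sub_nonpos.2 (by exact_mod_cast h3)

theorem Num1_b (t : ℕ) : (t.choose 2 : ℝ) - t.choose 3 ≤ 2 := by
  by_cases h : 5 ≤ t
  · linarith [Num1_b5 h]
  · have : t < 5 := by omega
    interval_cases t <;> norm_num [Nat.choose]

theorem Num1_b1 {t : ℕ} (h : t ≤ 1 ∨ 5 ≤ t) : (t.choose 2 : ℝ) - t.choose 3 ≤ 0 := by
  rcases h with h | h
  · interval_cases t <;> norm_num [Nat.choose]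
  · exact Num1_b5 h

theorem Num1_key {ρ s j r : ℕ} (hρ : 100 ≤ ρ) (hm : s ≤ mP ρ) (hs : s = 4 * j + r) (hr : r < 4) :
    H2 ρ s ≤ 2 * (3 / 16 * ((s : ℝ) * (64 * ρ - s) / (64 * ρ - 1)) - r * (4 - r) / 16) -
      (if 2 ≤ s ∧ s + 2 ≤ mP ρ then
        max (1 - 2 * ((r : ℝ) / 4)) 0 + max (1 - 2 * (1 - (r : ℝ) / 4)) 0 else 0) := by
  have h1 : (100 : ℝ) ≤ ρ := by exact_mod_cast hρ
  have h2 : 0 < 64 * (ρ : ℝ) - 1 := by linarith
  have b1 := Num1_b s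
  have b2 := Num1_b (mP ρ - s)
  unfold H2
  unfold mP at hm
  by_cases c : 2 ≤ s ∧ s + 2 ≤ mP ρ
  · rw [if_pos c]
    unfold mP at c
    have hw : (r = 2 ∧ 19 / 10 ≤ (s : ℝ) * (64 * ρ - s) / (64 * ρ - 1)) ∨
        ((r = 1 ∨ r = 3) ∧ 29 / 10 ≤ (s : ℝ) * (64 * ρ - s) / (64 * ρ - 1)) ∨
        39 / 10 ≤ (s : ℝ) * (64 * ρ - s) / (64 * ρ - 1) := by
      simp only [le_div_iff₀ h2]
      by_cases c4 : 4 ≤ s ∧ s + 4 ≤ 64 * ρ
      · have u1 : (4 : ℝ) ≤ s := by exact_mod_cast c4.1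
        have u2 : (s : ℝ) + 4 ≤ 64 * ρ := by exact_mod_cast c4.2
        refine Or.inr (Or.inr ?_)
        nlinarith [mul_nonneg (sub_nonneg.2 u1) (sub_nonneg.2 u2)]
      by_cases c3 : 3 ≤ s ∧ s + 3 ≤ 64 * ρ
      · have u1 : (3 : ℝ) ≤ s := by exact_mod_cast c3.1
        have u2 : (s : ℝ) + 3 ≤ 64 * ρ := by exact_mod_cast c3.2
        refine Or.inr (Or.inl ⟨by omega, ?_⟩)
        nlinarith [mul_nonneg (sub_nonneg.2 u1) (sub_nonneg.2 u2)]
      · have u1 : (2 : ℝ) ≤ s := by exact_mod_cast c.1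
        have u2 : (s : ℝ) + 2 ≤ 64 * ρ := by exact_mod_cast c.2
        refine Or.inl ⟨by omega, ?_⟩
        nlinarith [mul_nonneg (sub_nonneg.2 u1) (sub_nonneg.2 u2)]
    generalize (s : ℝ) * (64 * ρ - s) / (64 * ρ - 1) = w at hw ⊢
    have hx : 1 / 5 ≤ 2 * (3 / 16 * w - r * (4 - r) / 16) -
          (max (1 - 2 * ((r : ℝ) / 4)) 0 + max (1 - 2 * (1 - (r : ℝ) / 4)) 0) ∧
        (w - 1) / 10 ≤ 2 * (3 / 16 * w - r * (4 - r) / 16) -
          (max (1 - 2 * ((r : ℝ) / 4)) 0 + max (1 - 2 * (1 - (r : ℝ) / 4)) 0) := by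
      rcases hw with ⟨rfl, hw⟩ | ⟨rfl | rfl, hw⟩ | hw
      · norm_num; constructor <;> linarith
      · norm_num; constructor <;> linarith
      · norm_num; constructor <;> linarith
      · interval_cases r <;> norm_num <;> constructor <;> linarith
    exact max_le (max_le (by linarith [hx.1]) hx.2)
      (max_le (by linarith [hx.1]) (by linarith [hx.1]))
  · rw [if_neg c]
    unfold mP at c
    have b3 := Num1_b1 (t := s) (by omega)
    have b4 := Num1_b1 (t := mP ρ - s) (by unfold mP; omega)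
    have hw : (r = 0 ∧ (s : ℝ) * (64 * ρ - s) / (64 * ρ - 1) = 0) ∨
        ((r = 1 ∨ r = 3) ∧ (s : ℝ) * (64 * ρ - s) / (64 * ρ - 1) = 1) := by
      simp only [div_eq_iff h2.ne']
      have : s = 0 ∨ s = 1 ∨ s + 1 = 64 * ρ ∨ s = 64 * ρ := by omega
      rcases this with u | u | u | u
      · refine Or.inl ⟨by omega, ?_⟩
        rw [u]; simp
      · refine Or.inr ⟨by omega, ?_⟩
        rw [u]; simp
      · have u' : (s : ℝ) = 64 * ρ - 1 := by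
          have : (s : ℝ) + 1 = 64 * ρ := by exact_mod_cast u
          linarith
        refine Or.inr ⟨by omega, ?_⟩
        rw [u']; ring
      · have u' : (s : ℝ) = 64 * ρ := by exact_mod_cast u
        refine Or.inl ⟨by omega, ?_⟩
        rw [u']; ring
    generalize (s : ℝ) * (64 * ρ - s) / (64 * ρ - 1) = w at hw ⊢
    have hx : 2 * (3 / 16 * w - r * (4 - r) / 16) - 0 = 0 ∧ w ≤ 1 := by
      rcases hw with ⟨rfl, rfl⟩ | ⟨rfl | rfl, rfl⟩ <;> norm_num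
    rw [hx.1]
    exact max_le (max_le le_rfl (by linarith [hx.2])) (max_le (by linarith) (by linarith))

/-- `Pf p y ≤ (y² - y + φ (1 - φ)) / 2` with `φ` the fractional part of `y ≥ 0` (write `s = 4 k + r`).
So `hA ρ s l ≥ l g - cost`, `g = (3/16) w - φ (1 - φ) ≥ 0`, `w = s (m - s) / (m - 1)`.
`cost s l` decreases in `l ≥ 1`; `cost s 1 ≤ 1` and is `0` unless `2 ≤ s ≤ m - 2`; `cost s 2` is at
most `1, 1/2, 0, 1/2` for `r = 0, 1, 2, 3`, and `0` unless `2 ≤ s ≤ m - 2`. For `4 ≤ s ≤ m - 4`: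
`2 g - cost s 2 ≥ (3/8) w - 1`; treat `s ≤ 3` and `m - s ≤ 3` by hand;
`C(s,2) - C(s,3) ≤ 2` always, `≤ 0` for `s ≥ 5`. -/
theorem hA_ge {ρ s : ℕ} (hρ : 100 ≤ ρ) (hs : s ≤ mP ρ) (l : ℕ) :
    ((l / 2 : ℕ) : ℝ) * H2 ρ s -
      ((l % 2 : ℕ) : ℝ) * (if 2 ≤ s ∧ s + 2 ≤ mP ρ then 5 / 4 else 0) ≤ hA ρ s l := by
  have hs4 : s = 4 * (s / 4) + s % 4 := (Nat.div_add_mod s 4).symm
  have hr : s % 4 < 4 := Nat.mod_lt _ (by norm_num)
  generalize s % 4 = r at hs4 hr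
  have hG := Num1_G (by omega : 1 ≤ ρ) hs4 hr
  have hK := Num1_key hρ hs hs4 hr
  have hH : 0 ≤ H2 ρ s := (le_max_left _ _).trans (le_max_left _ _)
  have hr' : (r : ℝ) ≤ 4 := by exact_mod_cast hr.le
  have hr0 : (0 : ℝ) ≤ r := Nat.cast_nonneg _
  unfold hA
  generalize kH ρ * ((s : ℝ) * ((s : ℝ) - 1) / 2) - Pf (pP ρ) (1 / 4 * s) -
    Pf (qP ρ) (3 / 4 * s) = G at hG ⊢
  generalize 3 / 16 * ((s : ℝ) * (64 * ρ - s) / (64 * ρ - 1)) - r * (4 - r) / 16 = g at hG hK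
  obtain ⟨C, hC0, hC, hC2⟩ : ∃ C : ℝ, 0 ≤ C ∧ H2 ρ s ≤ 2 * G - C ∧
      (2 ≤ l → cost (pP ρ) (qP ρ) (1 / 4) s l ≤ C) := by
    refine ⟨_, ?_, hK.trans (sub_le_sub_right (by linarith) _), fun hl => ?_⟩
    · split_ifs
      · exact add_nonneg (le_max_right _ _) (le_max_right _ _)
      · exact le_rfl
    · split_ifs with c
      · exact_mod_cast Num1_cost (pP ρ) (qP ρ) hs4 hr (by norm_num : 1 ≤ 2) hl
      · exact (Num1_cost0 l c).le
  have hG0 : 0 ≤ G := by linarith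
  rcases l with _ | _ | l
  · simp [cost]
  · have h1 : cost (pP ρ) (qP ρ) (1 / 4) s (0 + 1) ≤
        if 2 ≤ s ∧ s + 2 ≤ mP ρ then 5 / 4 else 0 := by
      split_ifs with c
      · have h2 := Num1_cost (pP ρ) (qP ρ) hs4 hr (le_refl 1) (le_refl (0 + 1))
        rw [max_eq_left (by push_cast; linarith), max_eq_left (by push_cast; linarith)] at h2
        push_cast at h2
        linarith
      · exact (Num1_cost0 _ c).le
    norm_num at h1 ⊢
    linarith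
  · have h1 := hC2 (by omega)
    have h2 : ((l + 1 + 1 : ℕ) : ℝ) =
        2 * (((l + 1 + 1) / 2 : ℕ) : ℝ) + (((l + 1 + 1) % 2 : ℕ) : ℝ) := by
      exact_mod_cast (Nat.div_add_mod (l + 1 + 1) 2).symm
    have h3 : (1 : ℝ) ≤ (((l + 1 + 1) / 2 : ℕ) : ℝ) := by
      exact_mod_cast (by omega : 1 ≤ (l + 1 + 1) / 2)
    have h4 : (0 : ℝ) ≤ (((l + 1 + 1) % 2 : ℕ) : ℝ) := Nat.cast_nonneg _
    have h5 : (0 : ℝ) ≤ if 2 ≤ s ∧ s + 2 ≤ mP ρ then 5 / 4 else 0 := by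
      split_ifs <;> norm_num
    rw [h2]
    generalize (((l + 1 + 1) / 2 : ℕ) : ℝ) = a at h3 ⊢
    generalize (((l + 1 + 1) % 2 : ℕ) : ℝ) = b at h4 ⊢
    have h6 := mul_le_mul_of_nonneg_left hC (zero_le_one.trans h3)
    have h7 := mul_le_mul_of_nonneg_right h3 hC0
    have h8 := mul_nonneg h4 h5
    have h9 := mul_nonneg h4 hG0
    linarith

end Pool.Agent.P.MP_a62d3c_co.FF
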