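import Pool.Agent.P.MP_a62d3c_co.FF.Bd0

namespace Pool.Agent.P.MP_a62d3c_co.FF

open Filter Topology Polynomial MeasureTheory Asymptotics
open scoped ComplexConjugate Matrix ComplexOrder

variable {κ : Type} [Fintype κ] [DecidableEq κ] {e : ℕ}

/-- if each weight is used at most as often as it occurs, there is a set of exponents with the
same weights -/
theorem exists_weights (S : Finset κ) (k : κ → ℕ) (wt : Box e → ℕ)
    (h : ∀ v, (S.filter fun i => k i = v).card ≤ (Finset.univ.filter fun m => wt m = v).card) :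
    gmin wt S.card ≤ ∑ i ∈ S, k i := by
  choose T hT hc using fun v => Finset.exists_subset_card_eq (h v)
  have hw : ∀ v, ∀ m ∈ T v, wt m = v := fun v m hm => (Finset.mem_filter.1 (hT v hm)).2
  have hd : ((S.image k : Finset ℕ) : Set ℕ).PairwiseDisjoint T := fun v _ v' _ hne =>
    Finset.disjoint_left.2 fun m h1 h2 => hne ((hw v m h1).symm.trans (hw v' m h2))
  refine Nat.sInf_le ⟨(S.image k).biUnion T, ?_, ?_⟩
  · rw [Finset.card_biUnion hd, Finset.card_eq_sum_card_image k S]
    exact Finset.sum_congr rfl fun v _ => hc v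
  · rw [Finset.sum_biUnion hd,
      ← Finset.sum_fiberwise_of_maps_to (fun i hi => Finset.mem_image_of_mem k hi)]
    refine Finset.sum_congr rfl fun v _ => ?_
    rw [Finset.sum_congr rfl (hw v), Finset.sum_congr rfl (fun i hi => (Finset.mem_filter.1 hi).2),
      Finset.sum_const, Finset.sum_const, hc v]

theorem DExp_dual {ι : Type} [DecidableEq ι] {β : ι → R2} (hli : LinearIndependent ℂ β) :
    ∃ δ : ι → R2 →ₗ[ℂ] ℂ, ∀ m m', δ m (β m') = if m' = m then 1 else 0 := by
  choose δ hδ using fun m => LinearMap.exists_extend ((Finsupp.lapply m).comp hli.repr)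
  refine ⟨δ, fun m m' => ?_⟩
  have h1 := LinearMap.congr_fun (hδ m) ⟨β m', Submodule.subset_span ⟨m', rfl⟩⟩
  rw [LinearMap.comp_apply, LinearMap.comp_apply, hli.repr_eq_single m' _ rfl] at h1
  simpa [Finsupp.single_apply] using h1

theorem DExp_vanish (M : Matrix κ κ ℂ) {ι : Type} (A : Finset κ) (B : Finset ι) (c : κ → ι → ℂ)
    (u : ι → κ → ℂ) (hM : ∀ i ∈ A, ∀ j, M i j = ∑ m ∈ B, c i m * u m j) (hc : B.card < A.card) :
    M.det = 0 := by
  by_contra hne
  have h1 : LinearIndependent ℂ M.row := Matrix.linearIndependent_rows_of_det_ne_zero hne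
  have h2 := h1.comp (fun i : A => (i : κ)) Subtype.val_injective
  have h3 : (M.row ∘ fun i : A => (i : κ)) =
      (Fintype.linearCombination ℂ fun m : B => u m) ∘ fun (i : A) (m : B) => c i m := by
    funext i j
    simp only [Function.comp_apply, Fintype.linearCombination_apply, Finset.sum_apply, Pi.smul_apply,
      smul_eq_mul, Matrix.row_apply]
    rw [hM i i.2 j, ← Finset.sum_coe_sort B]
  rw [h3] at h2
  have h4 := (LinearIndependent.of_comp _ h2).fintype_card_le_finrank
  simp only [Fintype.card_coe, Module.finrank_fintype_fun_eq_card] at h4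
  omega

theorem DExp_sum (g : κ ≃ Mb e) (Λ : κ → R2 →ₗ[ℂ] ℂ) (A : κ → Finset ℕ) (Λ' : κ → ℕ → R2 →ₗ[ℂ] ℂ)
    (h : ∀ i (m : Box e), Λ i (mono 0 0 m) = ∑ v ∈ A i, Λ' i v (mono 0 0 m)) :
    DetF g Λ = ∑ k ∈ Fintype.piFinset A, DetF g fun i => Λ' i (k i) := by
  have h1 : (Matrix.of fun i j : κ => Λ i (mono 0 0 (g j).1)) =
      fun i => ∑ v ∈ A i, fun j : κ => Λ' i v (mono 0 0 (g j).1) := by
    funext i j
    rw [Matrix.of_apply, h, Finset.sum_apply]
  unfold DetF
  rw [h1]
  exact (Matrix.detRowAlternating (n := κ) (R := ℂ)).toMultilinearMap.map_sum_finset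
    (fun i v => fun j : κ => Λ' i v (mono 0 0 (g j).1)) A

/-- Expansion lemma. Choose dual functionals `β* s m` (extend the coordinates of the span of the
independent family `β s` to `R2`). For `v` in the image of `wt` put `Λ s i v = ∑_{wt m = v} Λ s i (β s m)
• β* s m`; their sum agrees with `Λ s i` on the span. The determinant is multilinear in the rows
(`Matrix.detRowAlternating`, `MultilinearMap.map_sum_finset`; for `i ∉ S` use a one point index set).
A term with more than `#{wt = v}` rows of weight `v` vanishes (the rows are linearly dependent);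
for the other terms use `exists_weights`. -/
theorem expand (g : κ ≃ Mb e) (Λ : ℂ → κ → R2 →ₗ[ℂ] ℂ) (S : Finset κ) (β : ℂ → Box e → R2)
    (hli : ∀ s, LinearIndependent ℂ (β s))
    (hsp : ∀ s (m : Box e), mono 0 0 m ∈ Submodule.span ℂ (Set.range (β s))) (wt : Box e → ℕ)
    {ν : ℝ}
    (h : ∀ (k : κ → ℕ) (Λ' : ℂ → κ → R2 →ₗ[ℂ] ℂ), gmin wt S.card ≤ ∑ i ∈ S, k i →
      (∀ s i, i ∉ S → Λ' s i = Λ s i) →
      (∀ s, ∀ i ∈ S, ∀ m, Λ' s i (β s m) = if wt m = k i then Λ s i (β s m) else 0) →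
      Bd (fun s => DetF g (Λ' s)) ν) :
    Bd (fun s => DetF g (Λ s)) ν := by
  choose δ hδ using fun s => DExp_dual (hli s)
  let Λ' : ℂ → κ → ℕ → R2 →ₗ[ℂ] ℂ := fun s i v => if i ∈ S then
    ∑ m ∈ Finset.univ.filter (fun m => wt m = v), Λ s i (β s m) • δ s m else Λ s i
  let A : κ → Finset ℕ := fun i => if i ∈ S then Finset.univ.image wt else {0}
  have h1 : ∀ s, ∀ i ∈ S, ∀ v m, Λ' s i v (β s m) = if wt m = v then Λ s i (β s m) else 0 := by
    intro s i hi v m
    simp only [Λ', if_pos hi, LinearMap.sum_apply, LinearMap.smul_apply, hδ, smul_eq_mul, mul_ite,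
      mul_one, mul_zero, Finset.sum_ite_eq, Finset.mem_filter, Finset.mem_univ, true_and]
  have h2 : ∀ s i (m : Box e), Λ s i (mono 0 0 m) = ∑ v ∈ A i, Λ' s i v (mono 0 0 m) := by
    intro s i m
    by_cases hi : i ∈ S
    · rw [← LinearMap.sum_apply]
      refine LinearMap.eqOn_span (s := Set.range (β s)) ?_ (hsp s m)
      rintro _ ⟨m', rfl⟩
      rw [LinearMap.sum_apply, Finset.sum_congr rfl fun v _ => h1 s i hi v m', Finset.sum_ite_eq,
        if_pos]
      simp only [A, if_pos hi]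
      exact Finset.mem_image_of_mem _ (Finset.mem_univ _)
    · simp only [A, Λ', if_neg hi, Finset.sum_singleton]
  have h3 : (fun s => DetF g (Λ s)) =
      fun s => ∑ k ∈ Fintype.piFinset A, DetF g fun i => Λ' s i (k i) :=
    funext fun s => DExp_sum g (Λ s) A (Λ' s) (h2 s)
  rw [h3]
  refine Bd.sum fun k _ => ?_
  by_cases hk : ∀ v, (S.filter fun i => k i = v).card ≤ (Finset.univ.filter fun m => wt m = v).card
  · exact h k (fun s i => Λ' s i (k i)) (exists_weights S k wt hk)
      (fun s i hi => by simp only [Λ', if_neg hi]) fun s i hi m => h1 s i hi (k i) m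
  · obtain ⟨v, hv⟩ := not_forall.1 hk
    refine (bd_zero ν).congr (Eventually.of_forall fun s => ?_)
    refine (DExp_vanish _ (S.filter fun i => k i = v) (Finset.univ.filter fun m => wt m = v)
      (fun i m => Λ s i (β s m)) (fun m j => δ s m (mono 0 0 (g j).1)) (fun i hi j => ?_)
      (not_le.1 hv)).symm
    obtain ⟨hi, e⟩ := Finset.mem_filter.1 hi
    simp only [Matrix.of_apply, Λ', if_pos hi, e, LinearMap.sum_apply, LinearMap.smul_apply,
      smul_eq_mul]

/-- rescale the rows: if `s ^ (-(a i)) • Λ s i` has determinant of order `ν` -/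
theorem detF_scale (g : κ ≃ Mb e) (Λ : ℂ → κ → R2 →ₗ[ℂ] ℂ) (a : κ → ℕ) {ν : ℝ}
    (h : Bd (fun s => DetF g fun i => (s⁻¹ ^ a i) • Λ s i) ν) :
    Bd (fun s => DetF g (Λ s)) (ν + ∑ i, (a i : ℝ)) := by
  have h1 : Bd (fun s : ℂ => ∏ i, s ^ a i) (∑ i, (a i : ℝ)) :=
    Bd.prod fun i _ => (bd_id.pow (a i)).of_eq (mul_one _)
  refine (h.mul h1).congr (L0_ne.mono fun s hs => ?_)
  have h2 : (DetF g fun i => (s⁻¹ ^ a i) • Λ s i) = (∏ i, s⁻¹ ^ a i) * DetF g (Λ s) :=
    Matrix.det_mul_column (fun i => s⁻¹ ^ a i) (Matrix.of fun i j : κ => Λ s i (mono 0 0 (g j).1))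
  rw [h2, mul_right_comm, ← Finset.prod_mul_distrib, Finset.prod_eq_one, one_mul]
  intro i _
  rw [← mul_pow, inv_mul_cancel₀ hs, one_pow]

end Pool.Agent.P.MP_a62d3c_co.FF
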