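import Pool.Agent.P.MP_a62d3c_co.FF.DBas
import Pool.Agent.P.MP_a62d3c_co.FF.DExp

namespace Pool.Agent.P.MP_a62d3c_co.FF

open Filter Topology Polynomial MeasureTheory Asymptotics
open scoped ComplexConjugate Matrix ComplexOrder

variable {κ : Type} [Fintype κ] [DecidableEq κ] {e : ℕ} {g : κ ≃ Mb e} {z w : ℂ → κ → ℂ}
  {l l' : κ → ℤ} {ν : ℝ}

/-- the common part of all steps -/
theorem DStep_core (h : Cl g z w l l' ν) (S : Finset κ) (β : ℂ → Box e → R2)
    (hli : ∀ s, LinearIndependent ℂ (β s))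
    (hsp : ∀ s (m : Box e), mono 0 0 m ∈ Submodule.span ℂ (Set.range (β s))) (wt : Box e → ℕ)
    (n : ℕ) (Λ : ℂ → κ → R2 →ₗ[ℂ] ℂ)
    (hout : ∀ i, i ∉ S → IntF e (fun s => Λ s i) (fun s => z s i) (fun s => w s i) (l i) (l' i))
    (hin : ∀ i ∈ S, ∀ (k : ℕ) (Λ' : ℂ → R2 →ₗ[ℂ] ℂ),
      (∀ s m, Λ' s (β s m) = if wt m = k then Λ s i (β s m) else 0) →
      IntF e (fun s => (s⁻¹ ^ (n * k)) • Λ' s) (fun s => z s i) (fun s => w s i) (l i) (l' i)) :
    Bd (fun s => DetF g (Λ s)) (ν + n * gmin wt S.card) := by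
  refine expand g Λ S β hli hsp wt fun k Λ' hk h1 h2 => ?_
  refine (detF_scale g Λ' (fun i => if i ∈ S then n * k i else 0) (h _ fun i => ?_)).mono ?_
  · by_cases hi : i ∈ S
    · simp only [if_pos hi]
      exact hin i hi (k i) (fun s => Λ' s i) fun s m => h2 s i hi m
    · simp only [if_neg hi, pow_zero, one_smul, h1 _ i hi]
      exact hout i hi
  · rw [← Nat.cast_sum, Finset.sum_ite_mem, Finset.univ_inter, ← Finset.mul_sum, ← Nat.cast_mul]
    exact add_le_add le_rfl (Nat.cast_le.2 (Nat.mul_le_mul_left n hk))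

theorem DStep_span (c c' : ℂ) (m : Box e) :
    mono 0 0 m ∈ Submodule.span ℂ (Set.range (mono (e := e) c c')) := by
  rw [mono_shift c c' 0 0]
  exact Submodule.sum_mem _ fun n _ => Submodule.smul_mem _ _ (Submodule.subset_span ⟨n, rfl⟩)

theorem DStep_scale {F : ℂ → ℂ} {μ : ℝ} (h : Bd F μ) (k : ℕ) :
    Bd (fun s => s⁻¹ ^ k * F s) (μ - k) :=
  ((bd_inv.pow k).mul h).of_eq (by ring)

theorem DStep_gmin (wt : Box e → ℕ) : gmin wt 0 = 0 :=
  Nat.le_zero.1 (Nat.sInf_le ⟨∅, rfl, rfl⟩)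

/-- a functional that is cut off by the weight, on a homogeneous combination -/
theorem DStep_cut {β : Box e → R2} {wt : Box e → ℕ} {k v : ℕ} {Λ Λ' : R2 →ₗ[ℂ] ℂ}
    (h : ∀ m, Λ' (β m) = if wt m = k then Λ (β m) else 0) {M : Box e → ℂ}
    (hM : ∀ m, wt m ≠ v → M m = 0) :
    Λ' (∑ m, M m • β m) = if v = k then Λ (∑ m, M m • β m) else 0 := by
  simp only [map_sum, map_smul, smul_eq_mul, h]
  by_cases hv : v = k
  · rw [if_pos hv]
    refine Finset.sum_congr rfl fun m _ => ?_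
    by_cases hm : wt m = v
    · rw [if_pos (hm.trans hv)]
    · rw [hM m hm, zero_mul, zero_mul]
  · rw [if_neg hv]
    refine Finset.sum_eq_zero fun m _ => ?_
    by_cases hm : wt m = v
    · rw [if_neg (hm ▸ hv), mul_zero]
    · rw [hM m hm, zero_mul]

theorem DStep_coef {a b : ℕ} (h : b ≠ a) (c : ℂ) : ((a.choose b : ℕ) : ℂ) * (c - c) ^ (a - b) = 0 := by
  rcases lt_or_gt_of_ne h with h | h
  · rw [sub_self, zero_pow (by omega), mul_zero]
  · rw [Nat.choose_eq_zero_of_lt h, Nat.cast_zero, zero_mul]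

end Pool.Agent.P.MP_a62d3c_co.FF
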