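import Pool.Agent.P.MP_a62d3c_co.FF.DDb
import Pool.Agent.P.MP_a62d3c_co.FF.DExp
import Pool.Agent.P.MP_a62d3c_co.FF.DStepA

namespace Pool.Agent.P.MP_a62d3c_co.FF

open Filter Topology Polynomial MeasureTheory Asymptotics
open scoped ComplexConjugate Matrix ComplexOrder

/-- Diagonal step: `expand` with `β s = dbas σ (z i₀) (w i₀)`, weight `wD`; by `mono_eq_dbas` and
`dbas_bd` the functional `s⁻¹ ^ k i • Λ' i` is integral at `(z i₀, w i₀)` with levels `(n, n)`. -/
theorem Cl.stepD {κ : Type} [Fintype κ] [DecidableEq κ] {e : ℕ} {g : κ ≃ Mb e}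
    {z w : ℂ → κ → ℂ} {l l' : κ → ℤ} {ν : ℝ} (h : Cl g z w l l' ν) (H : Finset κ) (n : ℤ) (σ : ℂ)
    (hl : ∀ i ∈ H, l i ≤ n) (hl' : ∀ i ∈ H, l' i ≤ n)
    (hz : ∀ i ∈ H, ∀ j ∈ H, Bd (fun s => z s i - z s j) n)
    (hw : ∀ i ∈ H, ∀ j ∈ H, Bd (fun s => w s i - w s j) n)
    (hd : ∀ i ∈ H, ∀ j ∈ H,
      Bd (fun s => (w s i - w s j) - σ * (z s i - z s j)) ((n : ℝ) + 1)) :
    Cl g z w (fun i => if i ∈ H then n + 1 else l i) (fun i => if i ∈ H then n + 1 else l' i)
      (ν + gmin (wD (e := e)) H.card) := by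
  rcases H.eq_empty_or_nonempty with rfl | ⟨i₀, h₀⟩
  · simpa [DStep_gmin] using h
  intro Λ hΛ
  obtain ⟨M, hM, hm⟩ := mono_eq_dbas (e := e) σ
  have hsp : ∀ (c c' : ℂ) (m : Box e),
      mono 0 0 m ∈ Submodule.span ℂ (Set.range (dbas (e := e) σ c c')) := fun c c' m => by
    refine Submodule.span_le.2 ?_ (DStep_span c c' m)
    rintro _ ⟨m', rfl⟩
    rw [hm]
    exact Submodule.sum_mem _ fun n _ => Submodule.smul_mem _ _ (Submodule.subset_span ⟨n, rfl⟩)
  refine (DStep_core h H (fun s => dbas σ (z s i₀) (w s i₀)) (fun s => dbas_indep _ _ _)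
    (fun s => hsp _ _) wD 1 Λ (fun i hi => by simpa only [if_neg hi] using hΛ i)
    fun i hi k Λ' hc => ?_).of_eq (by rw [Nat.cast_one, one_mul])
  have h1 : IntF e (fun s => Λ s i) (fun s => z s i) (fun s => w s i) (n + 1) (n + 1) := by
    simpa only [if_pos hi] using hΛ i
  have h2 : IntF e (fun s => (s⁻¹ ^ (1 * k)) • Λ' s) (fun s => z s i₀) (fun s => w s i₀) n n :=
    fun m => by
      simp only [LinearMap.smul_apply, smul_eq_mul, hm, map_sum, map_smul, hc]
      refine Bd.sum fun m' _ => ?_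
      by_cases h0 : M m m' = 0
      · simpa only [h0, zero_mul] using bd_zero _
      by_cases hk : wD m' = k
      · simp only [if_pos hk]
        refine ((DStep_scale (dbas_bd σ h1 (hz i hi i₀ h₀) (hw i hi i₀ h₀) (hd i hi i₀ h₀) m')
          _).const_mul _).of_eq ?_
        rw [hM m m' h0, hk, wJ]
        push_cast
        ring
      · simpa only [if_neg hk, mul_zero] using bd_zero _
  exact (h2.recentre (hz i₀ h₀ i hi) (hw i₀ h₀ i hi)).mono_level (hl i hi) (hl' i hi)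

end Pool.Agent.P.MP_a62d3c_co.FF
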