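import Pool.Agent.P.MP_a62d3c_co.FF.Defs

namespace Pool.Agent.P.MP_a62d3c_co.FF

open Filter Topology Polynomial MeasureTheory Asymptotics
open scoped ComplexConjugate Matrix ComplexOrder

/-! Paper section 4: trees. -/

variable {J : Type} [Fintype J] [DecidableEq J]

private theorem Tree_fin (d : J → J → ℤ) (P : J → J → Prop) (S : Finset J) :
    {x | ∃ i ∈ S, ∃ j, P i j ∧ x = d i j}.Finite :=
  (Set.finite_range fun p : J × J => d p.1 p.2).subset
    (by rintro x ⟨i, _, j, _, rfl⟩; exact ⟨(i, j), rfl⟩)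

private theorem Tree_fin' (d : J → J → ℤ) (S : Finset J) :
    {x | ∃ i ∈ S, ∃ j ∈ S, i ≠ j ∧ x = d i j}.Finite :=
  (Set.finite_range fun p : J × J => d p.1 p.2).subset
    (by rintro x ⟨i, _, j, _, _, rfl⟩; exact ⟨(i, j), rfl⟩)

theorem tin_le (d : J → J → ℤ) {S : Finset J} {i j : J} (hi : i ∈ S) (hj : j ∈ S) (hij : i ≠ j) :
    tin d S ≤ d i j :=   csInf_le (Tree_fin' d S).bddBelow ⟨i, hi, j, hj, hij, rfl⟩

theorem exists_tin (d : J → J → ℤ) {S : Finset J} (h : 2 ≤ S.card) :
    ∃ i ∈ S, ∃ j ∈ S, i ≠ j ∧ tin d S = d i j := by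
  obtain ⟨i, hi, j, hj, hij⟩ := Finset.one_lt_card.1 (show 1 < S.card from h)
  exact Set.Nonempty.csInf_mem (s := {x | ∃ i ∈ S, ∃ j ∈ S, i ≠ j ∧ x = d i j})
    ⟨d i j, i, hi, j, hj, hij, rfl⟩ (Tree_fin' d S)

theorem le_tout (d : J → J → ℤ) {S : Finset J} {i j : J} (hi : i ∈ S) (hj : j ∉ S) :
    d i j ≤ tout d S :=   le_csSup (Tree_fin d (fun _ j => j ∉ S) S).bddAbove ⟨i, hi, j, hj, rfl⟩

theorem exists_tout (d : J → J → ℤ) {S : Finset J} (h : S.Nonempty) (h' : S ≠ Finset.univ) :
    ∃ i ∈ S, ∃ j, j ∉ S ∧ tout d S = d i j := by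
  obtain ⟨i, hi⟩ := h
  obtain ⟨j, hj⟩ : ∃ j, j ∉ S := by
    by_contra c
    exact h' (Finset.eq_univ_iff_forall.2 fun j => by_contra fun hj => c ⟨j, hj⟩)
  exact Set.Nonempty.csSup_mem (s := {x | ∃ i ∈ S, ∃ j, j ∉ S ∧ x = d i j})
    ⟨d i j, i, hi, j, hj, rfl⟩ (Tree_fin d (fun _ j => j ∉ S) S)

theorem tlen_ne_zero {d : J → J → ℤ} {S : Finset J} (h : tlen d S ≠ 0) :
    2 ≤ S.card ∧ S ≠ Finset.univ ∧ tout d S + tlen d S = tin d S := by
  unfold tlen at h ⊢
  by_cases c : 2 ≤ S.card ∧ S ≠ Finset.univ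
  · rw [if_pos c] at h ⊢
    exact ⟨c.1, c.2, by omega⟩
  · rw [if_neg c] at h
    exact absurd rfl h

private theorem Tree_cls {d : J → J → ℤ} {S : Finset J} {j : J} {l : ℤ} (hj : j ∈ S)
    (h1 : tout d S < l) (h2 : l ≤ tout d S + tlen d S) (k : J) : k ∈ S ↔ k = j ∨ l ≤ d j k := by
  have h0 : tlen d S ≠ 0 := by omega
  obtain ⟨-, -, h3⟩ := tlen_ne_zero h0
  constructor
  · intro hk
    by_cases e : k = j
    · exact Or.inl e
    · have := tin_le d hj hk (Ne.symm e)
      exact Or.inr (by omega)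
  · rintro (rfl | hk)
    · exact hj
    · by_contra c
      have := le_tout d hj c
      omega

/-- at a level `l` of its edge, `S` is the class `{k | k = j ∨ l ≤ d j k}` of any `j ∈ S` -/
theorem isTree_tlen {d : J → J → ℤ} (h : Ultra d) (h2 : 2 ≤ Fintype.card J) :
    IsTree d (tin d Finset.univ) id (tout d) (tlen d) := by
  have hb : ∀ i j, i ≠ j → tin d Finset.univ ≤ d i j := fun i j hij =>
    tin_le d (Finset.mem_univ i) (Finset.mem_univ j) hij
  refine ⟨h, hb, ?_, ?_, ?_, ?_, ?_⟩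
  · intro u hu
    obtain ⟨h1, h3, -⟩ := tlen_ne_zero hu
    obtain ⟨i, hi, j, hj, e⟩ := exists_tout d (Finset.card_pos.1 (by omega : 0 < u.card)) h3
    rw [e]
    exact hb i j (fun c => hj (c ▸ hi))
  · intro u hu i hi j hj hij
    obtain ⟨-, -, h3⟩ := tlen_ne_zero hu
    rw [h3]
    exact tin_le d hi hj hij
  · intro u hu i hi j hj
    exact le_tout d hi hj
  · intro u v j l hu hv a1 a2 b1 b2
    ext k
    exact (Tree_cls hu a1 a2 k).trans (Tree_cls hv b1 b2 k).symm
  · intro i j hij l h1 h3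
    obtain ⟨S, hS⟩ : ∃ S : Finset J, ∀ k, k ∈ S ↔ k = i ∨ l ≤ d i k :=
      ⟨Finset.univ.filter fun k => k = i ∨ l ≤ d i k, fun k => by simp⟩
    have hi : i ∈ S := (hS i).2 (Or.inl rfl)
    have hj : j ∈ S := (hS j).2 (Or.inr h3)
    have hin : ∀ a ∈ S, ∀ b ∈ S, a ≠ b → l ≤ d a b := by
      intro a ha b hb' hab
      by_cases e1 : a = i
      · subst e1
        exact ((hS b).1 hb').resolve_left hab.symm
      · have a1 := ((hS a).1 ha).resolve_left e1
        by_cases e2 : b = i
        · subst e2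
          rwa [h.symm]
        · have a2 := ((hS b).1 hb').resolve_left e2
          have a3 := h.ultra a i b e1 (Ne.symm e2) hab
          rw [h.symm a i] at a3
          exact (le_min a1 a2).trans a3
    have hout : ∀ a ∈ S, ∀ b, b ∉ S → d a b < l := by
      intro a ha b hb'
      by_contra c
      have c' : l ≤ d a b := not_lt.1 c
      apply hb'
      rw [hS]
      by_cases e1 : a = i
      · subst e1
        exact Or.inr c'
      · have a1 := ((hS a).1 ha).resolve_left e1
        by_cases e2 : b = i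
        · exact Or.inl e2
        · have a3 := h.ultra i a b (Ne.symm e1) (fun e => hb' (e ▸ ha)) (Ne.symm e2)
          exact Or.inr ((le_min a1 c').trans a3)
    have hc : 2 ≤ S.card := Finset.one_lt_card.2 ⟨i, hi, j, hj, hij⟩
    have ht : l ≤ tin d S := by
      obtain ⟨a, ha, b, hb', hab, e⟩ := exists_tin d hc
      rw [e]; exact hin a ha b hb' hab
    have hu : S ≠ Finset.univ := by
      rintro rfl
      omega
    have ho : tout d S < l := by
      obtain ⟨a, ha, b, hb', e⟩ := exists_tout d ⟨i, hi⟩ hu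
      rw [e]; exact hout a ha b hb'
    refine ⟨S, hi, hj, ho, ?_⟩
    unfold tlen
    rw [if_pos ⟨hc, hu⟩]
    omega

variable {U : Type} [Fintype U] {d : J → J → ℤ} {n0 : ℤ} {S : U → Finset J} {lo : U → ℤ}
  {len : U → ℕ}

theorem IsTree.restrict (T : IsTree d n0 S lo len) (A : Finset J) :
    IsTree (fun i j : A => d i.1 j.1) n0 (fun u => (S u).subtype (· ∈ A)) lo len := by
  refine ⟨⟨fun i j => T.ult.symm _ _, fun i j k a b c => T.ult.ultra _ _ _
    (fun e => a (Subtype.ext e)) (fun e => b (Subtype.ext e)) (fun e => c (Subtype.ext e))⟩,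
    fun i j a => T.base _ _ (fun e => a (Subtype.ext e)), T.lo_ge, ?_, ?_, ?_, ?_⟩
  · intro u hu i hi j hj a
    exact T.inn u hu _ (Finset.mem_subtype.1 hi) _ (Finset.mem_subtype.1 hj)
      (fun e => a (Subtype.ext e))
  · intro u hu i hi j hj
    exact T.out u hu _ (Finset.mem_subtype.1 hi) _ (fun c => hj (Finset.mem_subtype.2 c))
  · intro u v j l hu hv
    exact T.uniq u v j.1 l (Finset.mem_subtype.1 hu) (Finset.mem_subtype.1 hv)
  · intro i j a l h1 h2
    obtain ⟨u, b1, b2, b3⟩ := T.ex i.1 j.1 (fun e => a (Subtype.ext e)) l h1 h2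
    exact ⟨u, Finset.mem_subtype.2 b1, Finset.mem_subtype.2 b2, b3⟩

private theorem Tree_clip (lo : ℤ) (n : ℕ) (ρ : ℝ) :
    clip lo n ρ = ∑ l ∈ Finset.Ioc lo (lo + n), min 1 (max (ρ - l + 1) 0) := by
  induction n with
  | zero => simp [clip]
  | succ n ih =>
    have e : Finset.Ioc lo (lo + (n + 1 : ℕ)) = insert (lo + n + 1) (Finset.Ioc lo (lo + n)) := by
      ext x
      simp only [Finset.mem_Ioc, Finset.mem_insert]
      omega
    rw [e, Finset.sum_insert (by simp), ← ih]
    unfold clip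
    have hn : (0 : ℝ) ≤ n := Nat.cast_nonneg n
    push_cast
    rcases le_total (ρ - lo) 0 with a | a
    · rw [max_eq_right a, max_eq_right (by linarith), min_eq_right (by linarith),
        min_eq_right (by linarith), min_eq_right hn]
      ring
    · rw [max_eq_left a]
      rcases le_total (ρ - lo) n with b | b
      · rw [max_eq_right (by linarith), min_eq_right (by linarith), min_eq_right (by linarith),
          min_eq_right b]
        ring
      · rw [max_eq_left (by linarith), min_eq_left b]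
        rcases le_total (ρ - lo) (n + 1) with c | c
        · rw [min_eq_right c, min_eq_right (by linarith)]
          ring
        · rw [min_eq_left c, min_eq_left (by linarith)]
          ring

private theorem Tree_sum (T : IsTree d n0 S lo len) (P : U → Prop) [DecidablePred P] (j : J)
    (hP : ∀ u, P u → j ∈ S u) (ρ : ℝ) :
    (∑ u, if P u then clip (lo u) (len u) ρ else 0) =
      ∑ l ∈ (Finset.univ.filter P).biUnion fun u => Finset.Ioc (lo u) (lo u + len u),
        min 1 (max (ρ - l + 1) 0) := by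
  rw [Finset.sum_biUnion, ← Finset.sum_filter]
  · exact Finset.sum_congr rfl fun u _ => Tree_clip _ _ _
  · intro u hu v hv huv
    rw [Finset.mem_coe, Finset.mem_filter] at hu hv
    refine Finset.disjoint_left.2 fun l a b => huv ?_
    rw [Finset.mem_Ioc] at a b
    exact T.uniq u v j l (hP u hu.2) (hP v hv.2) a.1 a.2 b.1 b.2

/-- `clip lo len ρ = ∑ l ∈ Ioc lo (lo + len), min 1 (max (ρ - l + 1) 0)`; the level intervals of
the edges containing `i` and `j` partition `Ioc n0 (d i j)` -/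
theorem IsTree.min_eq (T : IsTree d n0 S lo len) {i j : J} (hij : i ≠ j) {ρ : ℝ}
    (hρ : (n0 : ℝ) ≤ ρ) :
    min ρ (d i j : ℝ) = n0 + ∑ u, if i ∈ S u ∧ j ∈ S u then clip (lo u) (len u) ρ else 0 := by
  have hb := T.base i j hij
  obtain ⟨m, hm⟩ : ∃ m : ℕ, d i j = n0 + m := ⟨(d i j - n0).toNat, by omega⟩
  have e : ((Finset.univ.filter fun u => i ∈ S u ∧ j ∈ S u).biUnion
      fun u => Finset.Ioc (lo u) (lo u + len u)) = Finset.Ioc n0 (n0 + m) := by
    ext l
    simp only [Finset.mem_biUnion, Finset.mem_filter, Finset.mem_univ, true_and, Finset.mem_Ioc]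
    constructor
    · rintro ⟨u, ⟨a, b⟩, c1, c2⟩
      have h0 : len u ≠ 0 := by omega
      have h1 := T.lo_ge u h0
      have h2 := T.inn u h0 i a j b hij
      omega
    · rintro ⟨a, b⟩
      obtain ⟨u, c1, c2, c3⟩ := T.ex i j hij l a (by omega)
      exact ⟨u, ⟨c1, c2⟩, c3⟩
  rw [Tree_sum T _ i (fun u hu => hu.1), e, ← Tree_clip, hm]
  unfold clip
  push_cast
  rw [max_eq_left (by linarith)]
  rcases le_total ρ (n0 + m) with a | a
  · rw [min_eq_left a, min_eq_right (by linarith)]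
    ring
  · rw [min_eq_right a, min_eq_left (by linarith)]

/-- the level intervals of the edges containing `j` are disjoint and above `n0` -/
theorem IsTree.chain_le (T : IsTree d n0 S lo len) (j : J) {ρ : ℝ} (hρ : (n0 : ℝ) ≤ ρ) :
    (n0 : ℝ) + (∑ u, if j ∈ S u then clip (lo u) (len u) ρ else 0) ≤ ρ := by
  rw [Tree_sum T _ j (fun u hu => hu)]
  obtain ⟨M, hM⟩ := ((Finset.univ.filter fun u => j ∈ S u).biUnion
    fun u => Finset.Ioc (lo u) (lo u + len u)).bddAbove
  have hs : ((Finset.univ.filter fun u => j ∈ S u).biUnion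
      fun u => Finset.Ioc (lo u) (lo u + len u)) ⊆ Finset.Ioc n0 (n0 + (M - n0).toNat) := by
    intro l hl
    have h1 : l ≤ M := hM hl
    simp only [Finset.mem_biUnion, Finset.mem_filter, Finset.mem_univ, true_and,
      Finset.mem_Ioc] at hl ⊢
    obtain ⟨u, a, c1, c2⟩ := hl
    have h2 := T.lo_ge u (by omega)
    omega
  have h3 := Finset.sum_le_sum_of_subset_of_nonneg
    (f := fun l : ℤ => min (1 : ℝ) (max (ρ - l + 1) 0)) hs
    (fun l _ _ => le_min zero_le_one (le_max_right _ _))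
  rw [← Tree_clip] at h3
  have h4 : clip n0 (M - n0).toNat ρ ≤ ρ - n0 := by
    unfold clip
    rw [max_eq_left (by linarith)]
    exact min_le_right _ _
  linarith

theorem IsTree.d_eq (T : IsTree d n0 S lo len) {i j : J} (hij : i ≠ j) :
    d i j = n0 + ∑ u, if i ∈ S u ∧ j ∈ S u then (len u : ℤ) else 0 := by
  have hb : (n0 : ℝ) ≤ d i j := Int.cast_le.2 (T.base i j hij)
  have h := T.min_eq hij hb
  rw [min_self] at h
  have e : ∀ u, (if i ∈ S u ∧ j ∈ S u then clip (lo u) (len u) (d i j) else 0) =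
      (((if i ∈ S u ∧ j ∈ S u then (len u : ℤ) else 0 : ℤ)) : ℝ) := by
    intro u
    by_cases c : i ∈ S u ∧ j ∈ S u
    · rw [if_pos c, if_pos c, Int.cast_natCast]
      unfold clip
      by_cases h0 : len u = 0
      · rw [h0, Nat.cast_zero]
        exact min_eq_left (le_max_right _ _)
      · have h1 : ((lo u + len u : ℤ) : ℝ) ≤ d i j := Int.cast_le.2 (T.inn u h0 i c.1 j c.2 hij)
        push_cast at h1
        exact min_eq_left (le_max_of_le_left (by linarith))
    · rw [if_neg c, if_neg c, Int.cast_zero]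
  rw [Finset.sum_congr rfl fun u _ => e u, ← Int.cast_sum, ← Int.cast_add] at h
  exact Int.cast_injective h

private theorem Tree_cnt (A : Finset J) (c : ℝ) :
    ∑ i, ∑ j ∈ Finset.univ.erase i, (if i ∈ A ∧ j ∈ A then c else 0) =
      c * ((A.card : ℝ) * ((A.card : ℝ) - 1)) := by
  have e : ∀ i, ∑ j ∈ Finset.univ.erase i, (if i ∈ A ∧ j ∈ A then c else 0) =
      if i ∈ A then c * ((A.card : ℝ) - 1) else 0 := by
    intro i
    by_cases hi : i ∈ A
    · have e1 : (Finset.univ.erase i).filter (fun j => i ∈ A ∧ j ∈ A) = A.erase i := by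
        ext j
        simp [hi]
      rw [if_pos hi, ← Finset.sum_filter, e1, Finset.sum_const, nsmul_eq_mul,
        Finset.cast_card_erase_of_mem hi, mul_comm]
    · rw [if_neg hi]
      exact Finset.sum_eq_zero fun j _ => if_neg fun c => hi c.1
  rw [Finset.sum_congr rfl fun i _ => e i, ← Finset.sum_filter, Finset.filter_mem_eq_inter,
    Finset.univ_inter, Finset.sum_const, nsmul_eq_mul]
  ring

theorem IsTree.sum_d (T : IsTree d n0 S lo len) :
    ∑ i, ∑ j ∈ Finset.univ.erase i, (d i j : ℝ) =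
      n0 * ((Fintype.card J : ℝ) * ((Fintype.card J : ℝ) - 1)) +
        ∑ u, (len u : ℝ) * (((S u).card : ℝ) * (((S u).card : ℝ) - 1)) := by
  have e : ∀ i, ∑ j ∈ Finset.univ.erase i, (d i j : ℝ) =
      ∑ j ∈ Finset.univ.erase i, (if i ∈ (Finset.univ : Finset J) ∧ j ∈ (Finset.univ : Finset J)
        then (n0 : ℝ) else 0) +
      ∑ u, ∑ j ∈ Finset.univ.erase i, (if i ∈ S u ∧ j ∈ S u then (len u : ℝ) else 0) := by
    intro i
    rw [Finset.sum_comm, ← Finset.sum_add_distrib]
    refine Finset.sum_congr rfl fun j hj => ?_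
    rw [T.d_eq (Finset.ne_of_mem_erase hj).symm, if_pos ⟨Finset.mem_univ _, Finset.mem_univ _⟩]
    push_cast
    rfl
  rw [Finset.sum_congr rfl fun i _ => e i, Finset.sum_add_distrib, Tree_cnt, Finset.card_univ,
    Finset.sum_comm]
  exact congrArg _ (Finset.sum_congr rfl fun u _ => Tree_cnt _ _)

end Pool.Agent.P.MP_a62d3c_co.FF
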