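import Pool.Agent.P.MP_a62d3c_co.FF.DStep
import Pool.Agent.P.MP_a62d3c_co.FF.DDiag
import Pool.Agent.P.MP_a62d3c_co.FF.Tree

namespace Pool.Agent.P.MP_a62d3c_co.FF

open Filter Topology Polynomial MeasureTheory Asymptotics
open scoped ComplexConjugate Matrix ComplexOrder

variable {κ : Type} [Fintype κ] [DecidableEq κ] {e : ℕ} {g : κ ≃ Mb e} {z w : ℂ → κ → ℂ}
  {dz dw : κ → κ → ℤ} {nz nw : ℤ} {loz low : Finset κ → ℤ} {lz lw : Finset κ → ℕ}

theorem DSch_nest {d : κ → κ → ℤ} {n : ℤ} {lo : Finset κ → ℤ} {len : Finset κ → ℕ}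
    (T : IsTree d n id lo len) {S S' : Finset κ} {i : κ} (hi : i ∈ S) (hi' : i ∈ S')
    (hne : S' ≠ S) (hc : S.card ≤ S'.card) (h : len S ≠ 0) (h' : len S' ≠ 0) :
    lo S' + len S' ≤ lo S := by
  obtain ⟨k, hk', hk⟩ : ∃ k ∈ S', k ∉ S := by
    by_contra hcon
    refine hne (Finset.eq_of_subset_of_card_le (fun k hk => ?_) hc)
    by_contra hk'
    exact hcon ⟨k, hk, hk'⟩
  exact (T.inn S' h' i hi' k hk' fun e => hk (e ▸ hi)).trans (T.out S h i hi k hk)

theorem DSch_bd {u : ℂ → κ → ℂ} {d : κ → κ → ℤ} (hu : Sep u d) {i j : κ} {n : ℤ}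
    (h : i ≠ j → n ≤ d i j) : Bd (fun s => u s i - u s j) n := by
  by_cases hij : i = j
  · subst hij
    exact (bd_zero _).congr (Eventually.of_forall fun s => (sub_self _).symm)
  · exact (hu.up i j hij).mono (by exact_mod_cast h hij)

/-- the three steps on one set -/
theorem DSch_step {l l' : κ → ℤ} {ν : ℝ} (h : Cl g z w l l' ν) (S : Finset κ) (hi hi' : ℤ)
    (a b γ : ℕ) (hl : a + γ ≠ 0 → ∀ i ∈ S, l i + (a + γ : ℕ) ≤ hi)
    (hl' : b + γ ≠ 0 → ∀ i ∈ S, l' i + (b + γ : ℕ) ≤ hi')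
    (hz : a + γ ≠ 0 → ∀ i ∈ S, ∀ j ∈ S, Bd (fun s => z s i - z s j) hi)
    (hw : b + γ ≠ 0 → ∀ i ∈ S, ∀ j ∈ S, Bd (fun s => w s i - w s j) hi') :
    ∃ k k' : κ → ℤ, (∀ i, k i = l i ∨ (i ∈ S ∧ a + γ ≠ 0 ∧ k i ≤ hi)) ∧
      (∀ i, k' i = l' i ∨ (i ∈ S ∧ b + γ ≠ 0 ∧ k' i ≤ hi')) ∧
      Cl g z w k k' (ν + ((a : ℝ) * gmin (wZ (e := e)) S.card +
        b * gmin (wW (e := e)) S.card + γ * gmin (wJ (e := e)) S.card)) := by
  obtain ⟨k, hk1, hk2, h1⟩ : ∃ k : κ → ℤ, (∀ i, k i = l i ∨ (i ∈ S ∧ a + γ ≠ 0 ∧ k i ≤ hi)) ∧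
      (γ ≠ 0 → ∀ i ∈ S, k i + γ ≤ hi) ∧
      Cl g z w k l' (ν + (a : ℝ) * gmin (wZ (e := e)) S.card) := by
    by_cases ha : a = 0
    · subst ha
      refine ⟨l, fun i => Or.inl rfl, fun hγ i hi => ?_, by simpa using h⟩
      have := hl (by omega) i hi
      omega
    · refine ⟨_, fun i => ?_, fun _ i hiS => ?_, h.stepZ S (hi - γ) a (fun i hiS => ?_)
        fun i hiS j hjS => (hz (by omega) i hiS j hjS).mono (by
          exact_mod_cast sub_le_self hi (Int.natCast_nonneg γ))⟩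
      · by_cases hiS : i ∈ S
        · exact Or.inr ⟨hiS, by omega, by rw [if_pos hiS]; omega⟩
        · exact Or.inl (if_neg hiS)
      · rw [if_pos hiS]; omega
      · have := hl (by omega) i hiS
        omega
  obtain ⟨k', hk1', hk2', h2⟩ : ∃ k' : κ → ℤ,
      (∀ i, k' i = l' i ∨ (i ∈ S ∧ b + γ ≠ 0 ∧ k' i ≤ hi')) ∧ (γ ≠ 0 → ∀ i ∈ S, k' i + γ ≤ hi') ∧
      Cl g z w k k' (ν + (a : ℝ) * gmin (wZ (e := e)) S.card +
        (b : ℝ) * gmin (wW (e := e)) S.card) := by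
    by_cases hb : b = 0
    · subst hb
      refine ⟨l', fun i => Or.inl rfl, fun hγ i hi => ?_, by simpa using h1⟩
      have := hl' (by omega) i hi
      omega
    · refine ⟨_, fun i => ?_, fun _ i hiS => ?_, h1.stepW S (hi' - γ) b (fun i hiS => ?_)
        fun i hiS j hjS => (hw (by omega) i hiS j hjS).mono (by
          exact_mod_cast sub_le_self hi' (Int.natCast_nonneg γ))⟩
      · by_cases hiS : i ∈ S
        · exact Or.inr ⟨hiS, by omega, by rw [if_pos hiS]; omega⟩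
        · exact Or.inl (if_neg hiS)
      · rw [if_pos hiS]; omega
      · have := hl' (by omega) i hiS
        omega
  by_cases hγ : γ = 0
  · subst hγ
    refine ⟨k, k', hk1, hk1', ?_⟩
    rw [Nat.cast_zero, zero_mul, add_zero, ← add_assoc]
    exact h2
  · have h3 := h2.stepJ S hi hi' γ (hk2 hγ) (hk2' hγ) (hz (by omega)) (hw (by omega))
    rw [add_assoc, add_assoc, ← add_assoc ((a : ℝ) * _)] at h3
    refine ⟨_, _, fun i => ?_, fun i => ?_, h3⟩
    · by_cases hiS : i ∈ S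
      · exact Or.inr ⟨hiS, by omega, by rw [if_pos hiS]⟩
      · rw [if_neg hiS]
        exact (hk1 i).imp id fun h => absurd h.1 hiS
    · by_cases hiS : i ∈ S
      · exact Or.inr ⟨hiS, by omega, by rw [if_pos hiS]⟩
      · rw [if_neg hiS]
        exact (hk1' i).imp id fun h => absurd h.1 hiS

/-- the level before a step on a set that is not larger than the processed ones -/
theorem DSch_lev {d : κ → κ → ℤ} {n : ℤ} {lo : Finset κ → ℤ} {len : Finset κ → ℕ}
    (T : IsTree d n id lo len) {F : Finset (Finset κ)} {S : Finset κ} (hS : S ∉ F)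
    (hc : ∀ S' ∈ F, S.card ≤ S'.card) {c : ℕ} (hc0 : c ≠ 0) (hcl : c ≤ len S) {i : κ}
    (hi : i ∈ S) {x y : ℤ} (hy : y + c ≤ lo S + len S)
    (hx : x = y ∨ ∃ S' ∈ F, i ∈ S' ∧ len S' ≠ 0 ∧ x ≤ lo S' + len S') :
    x + c ≤ lo S + len S := by
  rcases hx with rfl | ⟨S', hS', hi', hl', hx⟩
  · exact hy
  · have := DSch_nest T hi hi' (fun e => hS (e ▸ hS')) (hc S' hS') (by omega) hl'
    omega

theorem DSch_top (he : 2 ≤ e) (hz : Sep z dz) (hw : Sep w dw) (Tz : IsTree dz nz id loz lz)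
    (Tw : IsTree dw nw id low lw) :
    Cl g z w (fun _ => nz) (fun _ => nw) (sig e * (nz + nw)) :=
  cl_top he g (fun i j => DSch_bd hz (Tz.base i j)) fun i j => DSch_bd hw (Tw.base i j)

/-- Process the sets of `F` by decreasing size (`Finset.induction_on_min_value` for the
cardinality). For a set `S`: Z-step of length `a S`, W-step of length `b S`, joint step of length
`γ S`, ending at the levels `loz S + lz S`, `low S + lw S` (skip a step of length zero; do not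
raise a level of a variable in which no step is made). Invariant: the level of `i` is `l i` or at
most `loz S' + lz S'` for a processed `S' ∋ i` with `lz S' ≠ 0`; and `loz S' + lz S' ≤ loz S` when
`i ∈ S ∩ S'`, `S ≠ S'`, `|S| ≤ |S'|`, both lengths nonzero (take `k ∈ S' \ S`). -/
theorem Cl.sched (hz : Sep z dz) (hw : Sep w dw) (Tz : IsTree dz nz id loz lz)
    (Tw : IsTree dw nw id low lw) {l l' : κ → ℤ} {ν : ℝ} (h : Cl g z w l l' ν)
    (F : Finset (Finset κ)) (a b γ : Finset κ → ℕ) (ha : ∀ S ∈ F, a S + γ S ≤ lz S)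
    (hb : ∀ S ∈ F, b S + γ S ≤ lw S)
    (hl : ∀ S ∈ F, a S + γ S ≠ 0 → ∀ i ∈ S, l i + (a S + γ S : ℕ) ≤ loz S + lz S)
    (hl' : ∀ S ∈ F, b S + γ S ≠ 0 → ∀ i ∈ S, l' i + (b S + γ S : ℕ) ≤ low S + lw S) :
    ∃ k k' : κ → ℤ,
      (∀ i, k i = l i ∨ ∃ S ∈ F, i ∈ S ∧ lz S ≠ 0 ∧ k i ≤ loz S + lz S) ∧
      (∀ i, k' i = l' i ∨ ∃ S ∈ F, i ∈ S ∧ lw S ≠ 0 ∧ k' i ≤ low S + lw S) ∧
      Cl g z w k k' (ν + ∑ S ∈ F, ((a S : ℝ) * gmin (wZ (e := e)) S.card +
        b S * gmin (wW (e := e)) S.card + γ S * gmin (wJ (e := e)) S.card)) := by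
  induction F using Finset.induction_on_min_value (fun S : Finset κ => S.card) with
  | empty => exact ⟨l, l', fun i => Or.inl rfl, fun i => Or.inl rfl, by simpa using h⟩
  | insert S F hS hc ih =>
    have hm : ∀ {S'}, S' ∈ F → S' ∈ insert S F := Finset.mem_insert_of_mem
    have hs := Finset.mem_insert_self S F
    obtain ⟨k, k', hk, hk', h1⟩ := ih (fun S' h => ha S' (hm h)) (fun S' h => hb S' (hm h))
      (fun S' h => hl S' (hm h)) fun S' h => hl' S' (hm h)
    have ha' := ha S hs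
    have hb' := hb S hs
    obtain ⟨k2, k2', hk2, hk2', h2⟩ := DSch_step h1 S (loz S + lz S) (low S + lw S) (a S) (b S)
      (γ S) (fun h0 i hi => DSch_lev Tz hS hc h0 ha' hi (hl S hs h0 i hi) (hk i))
      (fun h0 i hi => DSch_lev Tw hS hc h0 hb' hi (hl' S hs h0 i hi) (hk' i))
      (fun h0 i hi j hj => DSch_bd hz (Tz.inn S (by omega) i hi j hj))
      (fun h0 i hi j hj => DSch_bd hw (Tw.inn S (by omega) i hi j hj))
    refine ⟨k2, k2', fun i => ?_, fun i => ?_, ?_⟩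
    · rcases hk2 i with e1 | ⟨hi, h0, hle⟩
      · rw [e1]
        exact (hk i).imp id fun ⟨S', hS', hh⟩ => ⟨S', hm hS', hh⟩
      · exact Or.inr ⟨S, hs, hi, by omega, hle⟩
    · rcases hk2' i with e1 | ⟨hi, h0, hle⟩
      · rw [e1]
        exact (hk' i).imp id fun ⟨S', hS', hh⟩ => ⟨S', hm hS', hh⟩
      · exact Or.inr ⟨S, hs, hi, by omega, hle⟩
    · rw [Finset.sum_insert hS, add_comm _ (∑ S ∈ F, _), ← add_assoc]
      exact h2

/-- `cl_top`, `Cl.sched` with `F = univ`, `Cl.delta` -/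
theorem delta_nb (he : 2 ≤ e) (hz : Sep z dz) (hw : Sep w dw) (Tz : IsTree dz nz id loz lz)
    (Tw : IsTree dw nw id low lw) (γ : Finset κ → ℕ) (h1 : ∀ S, γ S ≤ lz S)
    (h2 : ∀ S, γ S ≤ lw S) :
    Bd (fun s => Delta g (z s) (w s)) (sig e * (nz + nw) +
      ∑ S : Finset κ, (((lz S - γ S : ℕ) : ℝ) * gmin (wZ (e := e)) S.card +
        ((lw S - γ S : ℕ) : ℝ) * gmin (wW (e := e)) S.card +
        γ S * gmin (wJ (e := e)) S.card)) := by
  obtain ⟨k, k', -, -, h⟩ := (DSch_top (g := g) he hz hw Tz Tw).sched hz hw Tz Tw Finset.univ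
    (fun S => lz S - γ S) (fun S => lw S - γ S) γ
    (fun S _ => by have := h1 S; omega) (fun S _ => by have := h2 S; omega)
    (fun S _ h0 i _ => by
      have := h1 S
      have := Tz.lo_ge S (by omega)
      omega)
    (fun S _ h0 i _ => by
      have := h2 S
      have := Tw.lo_ge S (by omega)
      omega)
  exact h.delta

/-- Branch place. `H` is an edge with `n = loz H + lz H`, or everything with `n = nz` (then no edge
is `univ`). `Cl.sched` for the sets of size `≥ |H|` (all joint), `Cl.stepD` with `σ = (-1) ^ n`,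
`Cl.sched` for the smaller sets, with one unit less for the children of `H`. A smaller edge is
contained in `H` (then `n ≤ loz S`) or disjoint from it. -/
theorem delta_br (he : 2 ≤ e) (hz : Sep z dz) (hw : Sep w dz) (Tz : IsTree dz nz id loz lz)
    (hd : ∀ i j, i ≠ j → ∀ n : ℤ, n ≤ dz i j →
      Bd (fun s => (w s i - w s j) - (-1) ^ n * (z s i - z s j)) ((n : ℝ) + 1))
    (H : Finset κ) (n : ℤ)
    (hH : (lz H ≠ 0 ∧ n = loz H + lz H) ∨ (H = Finset.univ ∧ lz H = 0 ∧ n = nz)) :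
    Bd (fun s => Delta g (z s) (w s)) (sig e * (nz + nz) +
      ∑ S : Finset κ, ((lz S - (if S ⊂ H ∧ loz S = n then 1 else 0) : ℕ) : ℝ) *
        gmin (wJ (e := e)) S.card + gmin (wD (e := e)) H.card) := by
  obtain ⟨γ, hγ⟩ : ∃ γ : Finset κ → ℕ, ∀ S, γ S = lz S - (if S ⊂ H ∧ loz S = n then 1 else 0) :=
    ⟨_, fun _ => rfl⟩
  simp only [← hγ]
  have hγle : ∀ S, 0 + γ S ≤ lz S := fun S => by rw [hγ]; omega
  have hbase : ∀ S, 0 + γ S ≠ 0 → nz + (0 + γ S : ℕ) ≤ loz S + lz S := fun S h0 => by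
    have := hγle S
    have := Tz.lo_ge S (by omega)
    omega
  obtain ⟨k, k', hk, hk', h1⟩ := (DSch_top (g := g) he hz hw Tz Tz).sched hz hw Tz Tz
    (Finset.univ.filter fun S : Finset κ => H.card ≤ S.card) (fun _ => 0) (fun _ => 0) γ
    (fun S _ => hγle S) (fun S _ => hγle S) (fun S _ h0 _ _ => hbase S h0)
    fun S _ h0 _ _ => hbase S h0
  have hn : ∀ i ∈ H, ∀ j ∈ H, i ≠ j → n ≤ dz i j := by
    intro i hi j hj hij
    rcases hH with ⟨h0, rfl⟩ | ⟨-, -, rfl⟩
    · exact Tz.inn H h0 i hi j hj hij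
    · exact Tz.base i j hij
  have hlev : ∀ i ∈ H, ∀ x : ℤ, (x = nz ∨ ∃ S ∈ Finset.univ.filter
      fun S : Finset κ => H.card ≤ S.card, i ∈ S ∧ lz S ≠ 0 ∧ x ≤ loz S + lz S) → x ≤ n := by
    intro i hi x hx
    rcases hH with ⟨h0, hn'⟩ | ⟨hu, h0, hn'⟩
    · rcases hx with rfl | ⟨S, hS, hiS, hS0, hx⟩
      · have := Tz.lo_ge H h0
        omega
      · by_cases hSH : S = H
        · rw [hSH] at hx
          omega
        · have := DSch_nest Tz hi hiS hSH (Finset.mem_filter.1 hS).2 h0 hS0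
          omega
    · rcases hx with rfl | ⟨S, hS, hiS, hS0, hx⟩
      · omega
      · have hSH : S = H :=
          Finset.eq_of_subset_of_card_le (hu ▸ Finset.subset_univ S) (Finset.mem_filter.1 hS).2
        exact absurd (hSH ▸ h0) hS0
  have h2 := h1.stepD H n ((-1) ^ n) (fun i hi => hlev i hi _ (hk i))
    (fun i hi => hlev i hi _ (hk' i)) (fun i hi j hj => DSch_bd hz (hn i hi j hj))
    (fun i hi j hj => DSch_bd hw (hn i hi j hj)) (fun i hi j hj => by
      by_cases hij : i = j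
      · subst hij
        exact (bd_zero _).congr (Eventually.of_forall fun s => by simp)
      · exact hd i j hij n (hn i hi j hj hij))
  have hlev2 : ∀ S ∈ Finset.univ.filter fun S : Finset κ => ¬H.card ≤ S.card, 0 + γ S ≠ 0 →
      ∀ i ∈ S, ∀ x : ℤ, (x = nz ∨ ∃ S ∈ Finset.univ.filter
        fun S : Finset κ => H.card ≤ S.card, i ∈ S ∧ lz S ≠ 0 ∧ x ≤ loz S + lz S) →
      (if i ∈ H then n + 1 else x) + (0 + γ S : ℕ) ≤ loz S + lz S := by
    intro S hS h0 i hi x hx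
    have hc : S.card < H.card := not_le.1 (Finset.mem_filter.1 hS).2
    have hle := hγle S
    have hS0 : lz S ≠ 0 := by omega
    by_cases hiH : i ∈ H
    · rw [if_pos hiH]
      have hne : H ≠ S := fun e => by rw [e] at hc; omega
      have h3 : n ≤ loz S ∧ S ⊆ H := by
        rcases hH with ⟨hH0, hn'⟩ | ⟨hu, -, hn'⟩
        · have h4 := DSch_nest Tz hi hiH hne hc.le hS0 hH0
          refine ⟨by omega, fun j hj => ?_⟩
          by_contra hjH
          have h5 := Tz.inn S hS0 i hi j hj fun e => hjH (e ▸ hiH)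
          have h6 := Tz.out H hH0 i hiH j hjH
          omega
        · exact ⟨hn' ▸ Tz.lo_ge S hS0, hu ▸ Finset.subset_univ S⟩
      by_cases h7 : loz S = n
      · have h8 := hγ S
        rw [if_pos ⟨Finset.ssubset_iff_subset_ne.2 ⟨h3.2, hne.symm⟩, h7⟩] at h8
        omega
      · omega
    · rw [if_neg hiH]
      exact DSch_lev Tz (fun h => by have := (Finset.mem_filter.1 h).2; omega)
        (fun S' h => by have := (Finset.mem_filter.1 h).2; omega) h0 hle hi (hbase S h0) hx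
  obtain ⟨k2, k2', -, -, h3⟩ := h2.sched hz hw Tz Tz
    (Finset.univ.filter fun S : Finset κ => ¬H.card ≤ S.card) (fun _ => 0) (fun _ => 0) γ
    (fun S _ => hγle S) (fun S _ => hγle S) (fun S hS h0 i hi => hlev2 S hS h0 i hi _ (hk i))
    fun S hS h0 i hi => hlev2 S hS h0 i hi _ (hk' i)
  refine h3.delta.of_eq ?_
  simp only [Nat.cast_zero, zero_mul, zero_add]
  rw [← Finset.sum_filter_add_sum_filter_not Finset.univ (fun S : Finset κ => H.card ≤ S.card)]
  ring

end Pool.Agent.P.MP_a62d3c_co.FF
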