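import Pool.Agent.P.MP_a62d3c_co.FF.Defs

namespace Pool.Agent.P.MP_a62d3c_co.FF

open Filter Topology Polynomial MeasureTheory Asymptotics
open scoped ComplexConjugate Matrix ComplexOrder

variable {α : Type} [Fintype α] [DecidableEq α]

/-- double counting of pairs `(A, I)` with `A ⊆ T ∩ I`, `|A| = k` -/
theorem sum_choose (T : Finset α) {m k : ℕ} (hk : k ≤ m) :
    ∑ I ∈ Finset.powersetCard m (Finset.univ : Finset α), (T ∩ I).card.choose k =
      T.card.choose k * (Fintype.card α - k).choose (m - k) := by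
  have h1 : ∀ I : Finset α, (T ∩ I).card.choose k =
      ∑ A ∈ Finset.powersetCard k T, if A ⊆ I then 1 else 0 := by
    intro I
    rw [← Finset.card_powersetCard, ← Finset.card_filter]
    congr 1
    ext A
    simp only [Finset.mem_powersetCard, Finset.subset_inter_iff, Finset.mem_filter]
    tauto
  simp_rw [h1]
  rw [Finset.sum_comm]
  have h2 : ∀ A ∈ Finset.powersetCard k T,
      (∑ I ∈ Finset.powersetCard m (Finset.univ : Finset α), if A ⊆ I then 1 else 0) =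
        (Fintype.card α - k).choose (m - k) := by
    intro A hA
    have hA' := (Finset.mem_powersetCard.1 hA).2
    rw [← Finset.card_filter,
      Finset.card_filter_powersetCard_subset A Finset.univ m (Finset.subset_univ _) (by omega),
      hA', Finset.card_univ]
  rw [Finset.sum_congr rfl h2, Finset.sum_const, Finset.card_powersetCard, smul_eq_mul]

/-- `C(N - k, m - k) / C(N, m)` is a ratio of descending factorials -/
theorem choose_ratio {N m k : ℕ} (hk : k ≤ m) (hm : m ≤ N) :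
    (N - k).choose (m - k) * N.descFactorial k = N.choose m * m.descFactorial k := by
  have _ := hm
  rw [Nat.descFactorial_eq_factorial_mul_choose, Nat.descFactorial_eq_factorial_mul_choose]
  have h := Nat.choose_mul (n := N) hk
  calc (N - k).choose (m - k) * (k.factorial * N.choose k)
      = k.factorial * (N.choose k * (N - k).choose (m - k)) := by ring
    _ = k.factorial * (N.choose m * m.choose k) := by rw [h]
    _ = N.choose m * (k.factorial * m.choose k) := by ring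

theorem Num2_avg (T : Finset α) {m k : ℕ} (hk : k ≤ m) (hm : m ≤ Fintype.card α) :
    (∑ I ∈ Finset.powersetCard m (Finset.univ : Finset α), ((T ∩ I).card.choose k : ℝ)) *
        ((Fintype.card α).descFactorial k : ℝ) =
      (T.card.choose k : ℝ) * ((Fintype.card α).choose m : ℝ) * (m.descFactorial k : ℝ) := by
  have h1 := sum_choose T hk
  have h2 := choose_ratio hk hm
  have h3 : (∑ I ∈ Finset.powersetCard m (Finset.univ : Finset α), (T ∩ I).card.choose k) *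
      (Fintype.card α).descFactorial k =
      T.card.choose k * (Fintype.card α).choose m * m.descFactorial k := by
    rw [h1, mul_assoc, h2, mul_assoc]
  exact_mod_cast h3

theorem Num2_le {ρ : ℕ} (hρ : 1 ≤ ρ) : mP ρ ≤ NP ρ := by
  show 64 * ρ ≤ 64 * ρ ^ 2
  nlinarith

theorem Num2_pos {ρ : ℕ} (hρ : 1 ≤ ρ) : (0 : ℝ) < ((NP ρ).choose (mP ρ) : ℝ) := by
  exact_mod_cast Nat.choose_pos (Num2_le hρ)

theorem Num2_desc3 (a : ℕ) : (a.descFactorial 3 : ℝ) = a * (a - 1) * (a - 2) := by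
  rcases a with _ | _ | a
  · simp
  · simp
  · have : (a + 1 + 1).descFactorial 3 = a * ((a + 1) * (a + 2)) := by
      simp [Nat.descFactorial]
    rw [this]
    push_cast
    ring

theorem Num2_avg1 {ρ : ℕ} (hρ : 1 ≤ ρ) (hN : Fintype.card α = NP ρ) (T : Finset α) :
    (∑ I ∈ Finset.powersetCard (mP ρ) (Finset.univ : Finset α), ((T ∩ I).card : ℝ)) =
      ((NP ρ).choose (mP ρ) : ℝ) * ((T.card : ℝ) / ρ) := by
  have h := Num2_avg T (m := mP ρ) (k := 1) (by show 1 ≤ 64 * ρ; omega) (hN ▸ Num2_le hρ)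
  simp only [Nat.choose_one_right, Nat.descFactorial_one, hN] at h
  have hr : (1 : ℝ) ≤ ρ := by exact_mod_cast hρ
  have e1 : ((NP ρ : ℕ) : ℝ) = 64 * (ρ : ℝ) ^ 2 := by simp [NP]
  have e2 : ((mP ρ : ℕ) : ℝ) = 64 * (ρ : ℝ) := by simp [mP]
  rw [e1, e2] at h
  have h0 : (64 * (ρ : ℝ) ^ 2) ≠ 0 := by positivity
  apply mul_right_cancel₀ h0
  rw [h]
  field_simp

theorem Num2_avg2 {ρ : ℕ} (hρ : 1 ≤ ρ) (hN : Fintype.card α = NP ρ) (T : Finset α) :
    (∑ I ∈ Finset.powersetCard (mP ρ) (Finset.univ : Finset α), ((T ∩ I).card.choose 2 : ℝ)) =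
      ((NP ρ).choose (mP ρ) : ℝ) * ((T.card.choose 2 : ℝ) *
        ((64 * (ρ : ℝ) - 1) / (ρ * (64 * (ρ : ℝ) ^ 2 - 1)))) := by
  have h := Num2_avg T (m := mP ρ) (k := 2) (by show 2 ≤ 64 * ρ; omega) (hN ▸ Num2_le hρ)
  simp only [Nat.cast_descFactorial_two, hN] at h
  have hr : (1 : ℝ) ≤ ρ := by exact_mod_cast hρ
  have e1 : ((NP ρ : ℕ) : ℝ) = 64 * (ρ : ℝ) ^ 2 := by simp [NP]
  have e2 : ((mP ρ : ℕ) : ℝ) = 64 * (ρ : ℝ) := by simp [mP]
  rw [e1, e2] at h
  have h1 : (0 : ℝ) < 64 * (ρ : ℝ) ^ 2 - 1 := by nlinarith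
  have h0 : (64 * (ρ : ℝ) ^ 2 * (64 * (ρ : ℝ) ^ 2 - 1)) ≠ 0 := by positivity
  apply mul_right_cancel₀ h0
  rw [h]
  field_simp

theorem Num2_avg3 {ρ : ℕ} (hρ : 1 ≤ ρ) (hN : Fintype.card α = NP ρ) (T : Finset α) :
    (∑ I ∈ Finset.powersetCard (mP ρ) (Finset.univ : Finset α), ((T ∩ I).card.choose 3 : ℝ)) =
      ((NP ρ).choose (mP ρ) : ℝ) * ((T.card.choose 3 : ℝ) *
        ((64 * (ρ : ℝ) - 1) / (ρ * (64 * (ρ : ℝ) ^ 2 - 1)) *
          ((64 * (ρ : ℝ) - 2) / (64 * (ρ : ℝ) ^ 2 - 2)))) := by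
  have h := Num2_avg T (m := mP ρ) (k := 3) (by show 3 ≤ 64 * ρ; omega) (hN ▸ Num2_le hρ)
  simp only [Num2_desc3, hN] at h
  have hr : (1 : ℝ) ≤ ρ := by exact_mod_cast hρ
  have e1 : ((NP ρ : ℕ) : ℝ) = 64 * (ρ : ℝ) ^ 2 := by simp [NP]
  have e2 : ((mP ρ : ℕ) : ℝ) = 64 * (ρ : ℝ) := by simp [mP]
  rw [e1, e2] at h
  have h1 : (0 : ℝ) < 64 * (ρ : ℝ) ^ 2 - 1 := by nlinarith
  have h2 : (0 : ℝ) < 64 * (ρ : ℝ) ^ 2 - 2 := by nlinarith
  have h0 : (64 * (ρ : ℝ) ^ 2 * (64 * (ρ : ℝ) ^ 2 - 1) * (64 * (ρ : ℝ) ^ 2 - 2)) ≠ 0 := by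
    positivity
  apply mul_right_cancel₀ h0
  rw [h]
  field_simp

theorem Num2_small {ρ : ℕ} (hN : Fintype.card α = NP ρ) (T : Finset α) :
    ∃ T' : Finset α, T'.card = sb ρ T.card ∧
      ∀ I ∈ Finset.powersetCard (mP ρ) (Finset.univ : Finset α),
        (T' ∩ I).card = (T ∩ I).card ∨ (T' ∩ I).card = mP ρ - (T ∩ I).card := by
  rcases le_total T.card (NP ρ - T.card) with h | h
  · exact ⟨T, by rw [sb, min_eq_left h], fun I _ => Or.inl rfl⟩
  · refine ⟨Tᶜ, by rw [sb, min_eq_right h, Finset.card_compl, hN], fun I hI => Or.inr ?_⟩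
    have hI' := (Finset.mem_powersetCard.1 hI).2
    have e : Tᶜ ∩ I = I \ T := by
      ext x
      simp [and_comm]
    rw [e, Finset.card_sdiff, hI']

/-- `[2 ≤ |T ∩ I| ≤ m - 2] ≤ C(|T' ∩ I|, 2)` for `T' = T` and for `T' = Tᶜ`
(`|Tᶜ ∩ I| = m - |T ∩ I|`); `m (m - 1) / (N (N - 1)) ≤ 1 / ρ²` -/
theorem avg_ind {ρ : ℕ} (hρ : 1 ≤ ρ) (hN : Fintype.card α = NP ρ) (T : Finset α) :
    yC ρ * ∑ I ∈ Finset.powersetCard (mP ρ) (Finset.univ : Finset α),
      (if 2 ≤ (T ∩ I).card ∧ (T ∩ I).card + 2 ≤ mP ρ then (5 / 4 : ℝ) else 0) ≤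
        aL ρ T.card := by
  have hM := Num2_pos hρ
  have hr : (1 : ℝ) ≤ ρ := by exact_mod_cast hρ
  set M : ℝ := ((NP ρ).choose (mP ρ) : ℝ) with hMdef
  set S : ℝ := ∑ I ∈ Finset.powersetCard (mP ρ) (Finset.univ : Finset α),
      (if 2 ≤ (T ∩ I).card ∧ (T ∩ I).card + 2 ≤ mP ρ then (5 / 4 : ℝ) else 0) with hS
  have h1 : S ≤ 5 / 4 * M := by
    have : S ≤ ∑ _I ∈ Finset.powersetCard (mP ρ) (Finset.univ : Finset α), (5 / 4 : ℝ) := by
      refine Finset.sum_le_sum fun I _ => ?_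
      split_ifs <;> norm_num
    rw [Finset.sum_const, Finset.card_powersetCard, Finset.card_univ, hN, nsmul_eq_mul] at this
    linarith
  obtain ⟨T', hc, hT'⟩ := Num2_small hN T
  have h2 : S ≤ 5 / 4 * (M * (((sb ρ T.card).choose 2 : ℝ) / (ρ : ℝ) ^ 2)) := by
    have h3 : S ≤ ∑ I ∈ Finset.powersetCard (mP ρ) (Finset.univ : Finset α),
        5 / 4 * ((T' ∩ I).card.choose 2 : ℝ) := by
      refine Finset.sum_le_sum fun I hI => ?_
      split_ifs with h
      · have h4 : 2 ≤ (T' ∩ I).card := by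
          rcases hT' I hI with e | e <;> omega
        have h5 : (1 : ℝ) ≤ ((T' ∩ I).card.choose 2 : ℝ) := by
          exact_mod_cast Nat.choose_pos h4
        linarith
      · positivity
    rw [← Finset.mul_sum, Num2_avg2 hρ hN T', hc] at h3
    refine h3.trans ?_
    have h6 : (64 * (ρ : ℝ) - 1) / (ρ * (64 * (ρ : ℝ) ^ 2 - 1)) ≤ 1 / (ρ : ℝ) ^ 2 := by
      have h7 : (0 : ℝ) < 64 * (ρ : ℝ) ^ 2 - 1 := by nlinarith
      rw [div_le_div_iff₀ (by positivity) (by positivity)]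
      nlinarith [mul_nonneg (sub_nonneg.2 hr) (by positivity : (0 : ℝ) ≤ ρ)]
    have h8 : (0 : ℝ) ≤ ((sb ρ T.card).choose 2 : ℝ) := by positivity
    have h9 := mul_le_mul_of_nonneg_left h6 h8
    rw [mul_one_div] at h9
    have h10 := mul_le_mul_of_nonneg_left h9 hM.le
    linarith
  have h3 : S ≤ 5 / 4 * (M * min 1 (((sb ρ T.card).choose 2 : ℝ) / (ρ : ℝ) ^ 2)) := by
    rcases le_total 1 (((sb ρ T.card).choose 2 : ℝ) / (ρ : ℝ) ^ 2) with h | h
    · rw [min_eq_left h]; linarith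
    · rw [min_eq_right h]; exact h2
  have h4 : (0 : ℝ) ≤ 21 * (ρ : ℝ) / M := by positivity
  have h5 := mul_le_mul_of_nonneg_left h3 h4
  unfold yC aL
  refine h5.trans (le_of_eq ?_)
  field_simp

/-- `sb ≤ 2 ρ`: use the term `(C(s,2) - C(s,3)) / 10` of the smaller of `T`, `Tᶜ`; the average is
`C(sb,2) π₂ (1 - (sb - 2) (m - 2) / (3 (N - 2))) ≥ C(sb,2) π₂ / 3`, `π₂ = m (m - 1) / (N (N - 1))`.
`sb ≥ 2 ρ`: `s (m - s) = s (m - 1) - 2 C(s,2)`, the average of `w` is `W = |T| (N - |T|) / (ρ (N - 1))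
≥ 1.99`, and `2.1 ρ (W - 1) ≥ ρ W ≥ 2 bL`. -/
theorem avg_H2 {ρ : ℕ} (hρ : 1000 ≤ ρ) (hN : Fintype.card α = NP ρ) (T : Finset α) :
    2 * bL ρ T.card ≤
      yC ρ * ∑ I ∈ Finset.powersetCard (mP ρ) (Finset.univ : Finset α), H2 ρ (T ∩ I).card := by
  have hρ1 : 1 ≤ ρ := by omega
  have hM := Num2_pos hρ1
  have hr : (1 : ℝ) ≤ ρ := by exact_mod_cast hρ1
  have h71 : (0 : ℝ) < 64 * (ρ : ℝ) ^ 2 - 1 := by nlinarith
  have h72 : (0 : ℝ) < 64 * (ρ : ℝ) ^ 2 - 2 := by nlinarith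
  have h73 : (0 : ℝ) < 64 * (ρ : ℝ) - 1 := by linarith
  set S : ℝ := ∑ I ∈ Finset.powersetCard (mP ρ) (Finset.univ : Finset α), H2 ρ (T ∩ I).card
    with hS
  have hy : (0 : ℝ) ≤ yC ρ := by unfold yC; positivity
  rcases le_total (sb ρ T.card) (2 * ρ) with hc | hc
  · obtain ⟨T', hcard, hT'⟩ := Num2_small hN T
    have h1 : ∑ I ∈ Finset.powersetCard (mP ρ) (Finset.univ : Finset α),
        ((((T' ∩ I).card.choose 2 : ℝ) - ((T' ∩ I).card.choose 3 : ℝ)) / 10) ≤ S := by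
      refine Finset.sum_le_sum fun I hI => ?_
      unfold H2
      rcases hT' I hI with e | e
      · rw [e]; exact le_max_of_le_right (le_max_left _ _)
      · rw [e]; exact le_max_of_le_right (le_max_right _ _)
    rw [← Finset.sum_div, Finset.sum_sub_distrib, Num2_avg2 hρ1 hN T', Num2_avg3 hρ1 hN T',
      hcard] at h1
    set b := sb ρ T.card with hb
    set M : ℝ := ((NP ρ).choose (mP ρ) : ℝ) with hMdef
    set p : ℝ := (64 * (ρ : ℝ) - 1) / (ρ * (64 * (ρ : ℝ) ^ 2 - 1)) with hp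
    have hp0 : 0 ≤ p := by positivity
    have h2 : (b.choose 3 : ℝ) * 3 ≤ (b.choose 2 : ℝ) * (2 * ρ) := by
      have e := Nat.choose_succ_right_eq b 2
      have : b.choose 3 * 3 ≤ b.choose 2 * (2 * ρ) := by
        rw [show b.choose 3 * 3 = b.choose 2 * (b - 2) from e]
        exact Nat.mul_le_mul_left _ (by omega)
      exact_mod_cast this
    have h3 : (64 * (ρ : ℝ) - 2) / (64 * (ρ : ℝ) ^ 2 - 2) ≤ 1 / ρ := by
      rw [div_le_div_iff₀ h72 (by positivity)]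
      nlinarith
    have h30 : (0 : ℝ) ≤ (64 * (ρ : ℝ) - 2) / (64 * (ρ : ℝ) ^ 2 - 2) :=
      div_nonneg (by linarith) h72.le
    have h4 : (b.choose 3 : ℝ) * (p * ((64 * (ρ : ℝ) - 2) / (64 * (ρ : ℝ) ^ 2 - 2))) ≤
        2 / 3 * ((b.choose 2 : ℝ) * p) := by
      have h5 : (b.choose 3 : ℝ) ≤ (b.choose 2 : ℝ) * (2 * ρ) / 3 := by linarith
      calc (b.choose 3 : ℝ) * (p * ((64 * (ρ : ℝ) - 2) / (64 * (ρ : ℝ) ^ 2 - 2)))
          ≤ ((b.choose 2 : ℝ) * (2 * ρ) / 3) * (p * (1 / ρ)) := by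
            apply mul_le_mul h5 (mul_le_mul_of_nonneg_left h3 hp0) (mul_nonneg hp0 h30)
            positivity
        _ = 2 / 3 * ((b.choose 2 : ℝ) * p) := by field_simp
    have h6 : M * ((b.choose 2 : ℝ) * p) / 30 ≤ S := by
      have := mul_le_mul_of_nonneg_left h4 hM.le
      linarith
    have h7 := mul_le_mul_of_nonneg_left h6 hy
    refine le_trans ?_ h7
    have h8 : bL ρ T.card ≤ kD ρ * (b.choose 2 : ℝ) := min_le_left _ _
    have h9 : yC ρ * (M * ((b.choose 2 : ℝ) * p) / 30) =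
        (b.choose 2 : ℝ) * (7 / 10 * (64 * (ρ : ℝ) - 1) / (64 * (ρ : ℝ) ^ 2 - 1)) := by
      unfold yC
      rw [← hMdef, hp]
      field_simp
      ring
    have h10 : 2 * kD ρ ≤ 7 / 10 * (64 * (ρ : ℝ) - 1) / (64 * (ρ : ℝ) ^ 2 - 1) := by
      unfold kD
      rw [mul_one_div, div_le_div_iff₀ (by positivity) h71]
      nlinarith
    have h11 := mul_le_mul_of_nonneg_left h10 (by positivity : (0 : ℝ) ≤ (b.choose 2 : ℝ))
    rw [h9]
    linarith
  · have h1 : ∑ I ∈ Finset.powersetCard (mP ρ) (Finset.univ : Finset α),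
        ((((T ∩ I).card : ℝ) - 2 / (64 * (ρ : ℝ) - 1) * ((T ∩ I).card.choose 2 : ℝ) - 1) / 10)
          ≤ S := by
      refine Finset.sum_le_sum fun I _ => ?_
      unfold H2
      refine le_max_of_le_left (le_max_of_le_right (le_of_eq ?_))
      rw [Nat.cast_choose_two]
      field_simp
      ring
    rw [← Finset.sum_div, Finset.sum_sub_distrib, Finset.sum_sub_distrib, ← Finset.mul_sum,
      Num2_avg1 hρ1 hN T, Num2_avg2 hρ1 hN T, Finset.sum_const, Finset.card_powersetCard,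
      Finset.card_univ, hN, nsmul_eq_mul, mul_one, Nat.cast_choose_two] at h1
    set M : ℝ := ((NP ρ).choose (mP ρ) : ℝ) with hMdef
    set t : ℝ := (T.card : ℝ) with ht
    have ht1 : 2 * (ρ : ℝ) ≤ t := by
      have : 2 * ρ ≤ T.card := hc.trans (min_le_left _ _)
      rw [ht]
      exact_mod_cast this
    have ht2 : t + 2 * (ρ : ℝ) ≤ 64 * (ρ : ℝ) ^ 2 := by
      have h : 2 * ρ ≤ NP ρ - T.card := hc.trans (min_le_right _ _)
      have : T.card + 2 * ρ ≤ 64 * ρ ^ 2 := by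
        have e : NP ρ = 64 * ρ ^ 2 := rfl
        omega
      rw [ht]
      exact_mod_cast this
    set X : ℝ := t * (64 * (ρ : ℝ) ^ 2 - t) with hX
    have hX1 : 2 * (ρ : ℝ) * (64 * (ρ : ℝ) ^ 2 - 2 * ρ) ≤ X := by
      nlinarith [mul_nonneg (sub_nonneg.2 ht1) (sub_nonneg.2 ht2)]
    have hX0 : 0 ≤ X := le_trans (by nlinarith) hX1
    have h7 := mul_le_mul_of_nonneg_left h1 hy
    refine le_trans ?_ h7
    have h8 : bL ρ T.card ≤ kD ρ * (X / (16 * ρ)) := min_le_right _ _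
    have h9 : yC ρ * ((M * (t / ρ) - 2 / (64 * (ρ : ℝ) - 1) * (M * (t * (t - 1) / 2 *
        ((64 * (ρ : ℝ) - 1) / (ρ * (64 * (ρ : ℝ) ^ 2 - 1))))) - M) / 10) =
        21 / 10 * (X / (64 * (ρ : ℝ) ^ 2 - 1)) - 21 / 10 * ρ := by
      unfold yC
      rw [← hMdef, hX]
      have e : ∀ a b r : ℝ, a ≠ 0 → b ≠ 0 → r ≠ 0 →
          21 * r / M * ((M * (t / r) - 2 / a * (M * (t * (t - 1) / 2 * (a / (r * b)))) - M) / 10) =
            21 / 10 * (t * (b + 1 - t) / b) - 21 / 10 * r := by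
        intro a b r ha hb hr0
        field_simp
        ring
      rw [e _ _ _ h73.ne' h71.ne' (by positivity), sub_add_cancel]
    have h10 : 2 * (kD ρ * (X / (16 * ρ))) ≤ X / (64 * (ρ : ℝ) ^ 2 - 1) := by
      have e : 2 * (kD ρ * (X / (16 * ρ))) = X / (64 * (ρ : ℝ) ^ 2 + 8 * ρ) := by
        unfold kD
        field_simp
        ring
      rw [e]
      exact div_le_div_of_nonneg_left hX0 h71 (by linarith)
    have h11 : 21 / 11 * (ρ : ℝ) ≤ X / (64 * (ρ : ℝ) ^ 2 - 1) := by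
      rw [le_div_iff₀ h71]
      have h12 : (0 : ℝ) ≤ (ρ : ℝ) * ((ρ : ℝ) * ((ρ : ℝ) - 1)) :=
        mul_nonneg (by linarith) (mul_nonneg (by linarith) (by linarith))
      nlinarith
    rw [h9]
    linarith

end Pool.Agent.P.MP_a62d3c_co.FF
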