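import Pool.Agent.P.MP_a62d3c_co.FF.Num3

namespace Pool.Agent.P.MP_a62d3c_co.FF

open Filter Topology Polynomial MeasureTheory Asymptotics
open scoped ComplexConjugate Matrix ComplexOrder

theorem Num4_choose (n : ℕ) : ((n.choose 2 : ℕ) : ℝ) = (n : ℝ) * ((n : ℝ) - 1) / 2 :=
  Nat.cast_choose_two ℝ n

theorem Num4_kD_nonneg (ρ : ℕ) : 0 ≤ kD ρ := by
  unfold kD
  positivity

theorem Num4_kD_le {ρ : ℕ} (hρ : 1 ≤ ρ) : kD ρ ≤ 1 / (8 * (ρ : ℝ)) := by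
  unfold kD
  have h : (1 : ℝ) ≤ ρ := by exact_mod_cast hρ
  apply one_div_le_one_div_of_le
  · linarith
  · linarith

/-- `min a b ≤ sqrt (a b)`: `52.5 * 26.25 ≤ 38²` -/
theorem aL_le {ρ : ℕ} (hρ : 1 ≤ ρ) (s : ℕ) : 2 * aL ρ s ≤ 38 * (sb ρ s : ℝ) := by
  unfold aL
  rw [Num4_choose]
  have hr : (1 : ℝ) ≤ ρ := by exact_mod_cast hρ
  have hr0 : (0 : ℝ) < ρ := by linarith
  set x : ℝ := (sb ρ s : ℝ) with hx
  have hx0 : 0 ≤ x := Nat.cast_nonneg _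
  set m : ℝ := min 1 (x * (x - 1) / 2 / (ρ : ℝ) ^ 2) with hm
  have h1 : m ≤ 1 := min_le_left _ _
  have h2 : m ≤ x * (x - 1) / 2 / (ρ : ℝ) ^ 2 := min_le_right _ _
  have h3 : m * (ρ : ℝ) ^ 2 ≤ x * (x - 1) / 2 := (le_div_iff₀ (by positivity)).1 h2
  by_cases hm0 : m ≤ 0
  · have : (ρ : ℝ) * m ≤ 0 := mul_nonpos_of_nonneg_of_nonpos hr0.le hm0
    nlinarith
  · push Not at hm0
    have h4 : ((ρ : ℝ) * m) ^ 2 ≤ x ^ 2 / 2 := by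
      have h5 : ((ρ : ℝ) * m) ^ 2 = m * (m * (ρ : ℝ) ^ 2) := by ring
      have h6 : m * (m * (ρ : ℝ) ^ 2) ≤ 1 * (m * (ρ : ℝ) ^ 2) :=
        mul_le_mul_of_nonneg_right h1 (by positivity)
      nlinarith
    have h7 : (105 / 2 * ((ρ : ℝ) * m)) ^ 2 ≤ (38 * x) ^ 2 := by nlinarith [sq_nonneg x]
    have h8 : 105 / 2 * ((ρ : ℝ) * m) ≤ 38 * x :=
      (pow_le_pow_iff_left₀ (by positivity) (by positivity) two_ne_zero).1 h7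
    nlinarith

theorem aL_nonneg (ρ s : ℕ) : 0 ≤ aL ρ s := by
  unfold aL
  have : (0 : ℝ) ≤ min 1 ((((sb ρ s).choose 2 : ℕ) : ℝ) / (ρ : ℝ) ^ 2) :=
    le_min zero_le_one (by positivity)
  positivity

theorem bL_nonneg {ρ s : ℕ} (hs : s ≤ NP ρ) : 0 ≤ bL ρ s := by
  unfold bL
  have hk := Num4_kD_nonneg ρ
  have h : (s : ℝ) ≤ 64 * (ρ : ℝ) ^ 2 := by exact_mod_cast hs
  have h' : (0 : ℝ) ≤ 64 * (ρ : ℝ) ^ 2 - s := by linarith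
  exact le_min (by positivity) (by positivity)

theorem Num4_br {ρ n k : ℕ} (hρ : 1 ≤ ρ) (hn : 2 * n ≤ 64 * ρ ^ 2) (hk : k = Nat.sqrt (2 * n))
    (hk2 : 2 ≤ k) :
    (n : ℝ) * ((k : ℝ) / 6 - 2) ≤
      (k : ℝ) * n - k * (k + 1) * (k + 2) / 6 - kD ρ * ((n : ℝ) * ((n : ℝ) - 1)) := by
  have h1 : k * k ≤ 2 * n := hk ▸ Nat.sqrt_le (2 * n)
  have h2 : 2 * n < (k + 1) * (k + 1) := hk ▸ Nat.lt_succ_sqrt (2 * n)
  have h1' : (k : ℝ) * k ≤ 2 * n := by exact_mod_cast h1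
  have h2' : 2 * (n : ℝ) ≤ ((k : ℝ) + 1) * (k + 1) := by exact_mod_cast h2.le
  have hn' : 2 * (n : ℝ) ≤ 64 * (ρ : ℝ) ^ 2 := by exact_mod_cast hn
  have hk' : (2 : ℝ) ≤ k := by exact_mod_cast hk2
  have hr : (1 : ℝ) ≤ ρ := by exact_mod_cast hρ
  have hn0 : (0 : ℝ) ≤ n := Nat.cast_nonneg _
  have h3 : (2 * (n : ℝ)) ^ 2 ≤ (8 * (ρ : ℝ) * ((k : ℝ) + 1)) ^ 2 := by
    calc (2 * (n : ℝ)) ^ 2 = (2 * n) * (2 * n) := by ring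
      _ ≤ (64 * (ρ : ℝ) ^ 2) * (((k : ℝ) + 1) * (k + 1)) :=
        mul_le_mul hn' h2' (by positivity) (by positivity)
      _ = (8 * (ρ : ℝ) * ((k : ℝ) + 1)) ^ 2 := by ring
  have h4 : 2 * (n : ℝ) ≤ 8 * (ρ : ℝ) * ((k : ℝ) + 1) :=
    (pow_le_pow_iff_left₀ (by positivity) (by positivity) two_ne_zero).1 h3
  have h5 : kD ρ * (n : ℝ) ≤ ((k : ℝ) + 1) / 2 := by
    calc kD ρ * (n : ℝ) ≤ 1 / (8 * (ρ : ℝ)) * n := mul_le_mul_of_nonneg_right (Num4_kD_le hρ) hn0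
      _ ≤ ((k : ℝ) + 1) / 2 := by
        rw [one_div, inv_mul_le_iff₀ (by positivity)]
        linarith
  have h6 : kD ρ * ((n : ℝ) * ((n : ℝ) - 1)) ≤ ((k : ℝ) + 1) / 2 * n := by
    have hk0 := Num4_kD_nonneg ρ
    have h7 : kD ρ * ((n : ℝ) * ((n : ℝ) - 1)) ≤ kD ρ * ((n : ℝ) * n) :=
      mul_le_mul_of_nonneg_left (by nlinarith) hk0
    have h8 : kD ρ * (n : ℝ) * n ≤ ((k : ℝ) + 1) / 2 * n := mul_le_mul_of_nonneg_right h5 hn0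
    nlinarith
  have h9 : (k : ℝ) * (k * k) ≤ k * (2 * n) := mul_le_mul_of_nonneg_left h1' (by linarith)
  have h10 : 2 * (k : ℝ) ≤ k * k := by nlinarith
  nlinarith

theorem Num4_sb (ρ s : ℕ) : 2 * sb ρ s ≤ 64 * ρ ^ 2 := by
  unfold sb NP
  omega

/-- `gJ_ge` with `k = 0` if `sb = 0`, `k = 1` if `1 ≤ sb < 40000`; otherwise `k = Nat.sqrt (2 sb) ≥ 282`:
`k² ≤ 2 sb`, `kD (sb - 1) ≤ sb / e ≤ (k + 1) / 2` because `2 sb ≤ e²`, so the bracket is at least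
`sb (k / 6 - 2) ≥ 38 sb` -/
theorem gJ_A {ρ s : ℕ} (hρ : 2 ^ 22 ≤ ρ) (hs : s ≤ NP ρ) :
    kD ρ * ((s : ℝ) * ((s : ℝ) - 1)) + 2 * aL ρ s ≤ gmin (wJ (e := eP ρ)) s := by
  have hρ1 : 1 ≤ ρ := le_trans (by norm_num) hρ
  have hr : (4194304 : ℝ) ≤ ρ := by exact_mod_cast hρ
  have ha := aL_le hρ1 s
  by_cases h0 : sb ρ s = 0
  · have h := gJ_ge hρ1 hs 0
    rw [h0] at h ha
    simp only [Nat.cast_zero, mul_zero, zero_mul, zero_div, sub_zero, add_zero] at h ha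
    linarith
  by_cases h1 : sb ρ s < 40000
  · have h := gJ_ge hρ1 hs 1
    refine le_trans ?_ h
    have hx1 : (1 : ℝ) ≤ (sb ρ s : ℝ) := by exact_mod_cast Nat.one_le_iff_ne_zero.2 h0
    have hx2 : (sb ρ s : ℝ) ≤ 40000 := by exact_mod_cast h1.le
    have hal : 2 * aL ρ s ≤ 105 / 4 * ((sb ρ s : ℝ) * ((sb ρ s : ℝ) - 1)) / ρ := by
      unfold aL
      rw [Num4_choose]
      have h2 : min 1 ((sb ρ s : ℝ) * ((sb ρ s : ℝ) - 1) / 2 / (ρ : ℝ) ^ 2) ≤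
          (sb ρ s : ℝ) * ((sb ρ s : ℝ) - 1) / 2 / (ρ : ℝ) ^ 2 := min_le_right _ _
      calc 2 * (5 / 4 * (21 * (ρ : ℝ)) *
            min 1 ((sb ρ s : ℝ) * ((sb ρ s : ℝ) - 1) / 2 / (ρ : ℝ) ^ 2))
          ≤ 2 * (5 / 4 * (21 * (ρ : ℝ)) *
            ((sb ρ s : ℝ) * ((sb ρ s : ℝ) - 1) / 2 / (ρ : ℝ) ^ 2)) := by
            gcongr
        _ = 105 / 4 * ((sb ρ s : ℝ) * ((sb ρ s : ℝ) - 1)) / ρ := by
            field_simp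
            ring
    have hkd : kD ρ * ((sb ρ s : ℝ) * ((sb ρ s : ℝ) - 1)) ≤
        1 / 8 * ((sb ρ s : ℝ) * ((sb ρ s : ℝ) - 1)) / ρ := by
      calc kD ρ * ((sb ρ s : ℝ) * ((sb ρ s : ℝ) - 1))
          ≤ 1 / (8 * (ρ : ℝ)) * ((sb ρ s : ℝ) * ((sb ρ s : ℝ) - 1)) :=
            mul_le_mul_of_nonneg_right (Num4_kD_le hρ1) (by nlinarith)
        _ = 1 / 8 * ((sb ρ s : ℝ) * ((sb ρ s : ℝ) - 1)) / ρ := by
            field_simp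
    have hfin : 211 / 8 * ((sb ρ s : ℝ) * ((sb ρ s : ℝ) - 1)) / ρ ≤ (sb ρ s : ℝ) - 1 := by
      rw [div_le_iff₀ (by linarith)]
      have h3 : 211 / 8 * (sb ρ s : ℝ) ≤ ρ := by linarith
      nlinarith
    have hsum : 105 / 4 * ((sb ρ s : ℝ) * ((sb ρ s : ℝ) - 1)) / ρ +
        1 / 8 * ((sb ρ s : ℝ) * ((sb ρ s : ℝ) - 1)) / ρ =
        211 / 8 * ((sb ρ s : ℝ) * ((sb ρ s : ℝ) - 1)) / ρ := by ring
    push_cast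
    linarith
  · push Not at h1
    have hk : 282 ≤ Nat.sqrt (2 * sb ρ s) := Nat.le_sqrt.2 (by omega)
    have h := gJ_ge hρ1 hs (Nat.sqrt (2 * sb ρ s))
    refine le_trans ?_ h
    have hb := Num4_br hρ1 (Num4_sb ρ s) rfl (le_trans (by norm_num) hk)
    have hk' : (282 : ℝ) ≤ (Nat.sqrt (2 * sb ρ s) : ℕ) := by exact_mod_cast hk
    have hx0 : (0 : ℝ) ≤ (sb ρ s : ℝ) := Nat.cast_nonneg _
    have h2 : (sb ρ s : ℝ) * 38 ≤ (sb ρ s : ℝ) * (((Nat.sqrt (2 * sb ρ s) : ℕ) : ℝ) / 6 - 2) :=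
      mul_le_mul_of_nonneg_left (by linarith) hx0
    linarith

/-- the same with `sb = s ≥ ρ²`, `k ≥ ρ` -/
theorem gJ_B {ρ s : ℕ} (hρ : 2 ^ 22 ≤ ρ) (h1 : ρ ^ 2 ≤ s) (h2 : s ≤ 32 * ρ ^ 2) :
    kD ρ * ((s : ℝ) * ((s : ℝ) - 1)) + 2 * aL ρ s + 672 * (ρ : ℝ) ^ 2 ≤
      gmin (wJ (e := eP ρ)) s := by
  have hρ1 : 1 ≤ ρ := le_trans (by norm_num) hρ
  have hr : (4194304 : ℝ) ≤ ρ := by exact_mod_cast hρ
  have hs : s ≤ NP ρ := by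
    unfold NP
    omega
  have hsb : sb ρ s = s := by
    unfold sb NP
    omega
  have ha := aL_le hρ1 s
  have hk : ρ ≤ Nat.sqrt (2 * sb ρ s) := Nat.le_sqrt'.2 (by omega)
  have h := gJ_ge hρ1 hs (Nat.sqrt (2 * sb ρ s))
  refine le_trans ?_ h
  have hb := Num4_br hρ1 (Num4_sb ρ s) rfl (le_trans (le_trans (by norm_num) hρ) hk)
  have hk' : (ρ : ℝ) ≤ (Nat.sqrt (2 * sb ρ s) : ℕ) := by exact_mod_cast hk
  have hx0 : (0 : ℝ) ≤ (sb ρ s : ℝ) := Nat.cast_nonneg _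
  have h3 : (sb ρ s : ℝ) * 710 ≤ (sb ρ s : ℝ) * (((Nat.sqrt (2 * sb ρ s) : ℕ) : ℝ) / 6 - 2) :=
    mul_le_mul_of_nonneg_left (by linarith) hx0
  have h4 : (ρ : ℝ) ^ 2 ≤ (sb ρ s : ℝ) := by
    rw [hsb]
    exact_mod_cast h1
  linarith

end Pool.Agent.P.MP_a62d3c_co.FF
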