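import Pool.Agent.P.MP_a62d3c_co.FF.Tree

namespace Pool.Agent.P.MP_a62d3c_co.FF

open Filter Topology Polynomial MeasureTheory Asymptotics
open scoped ComplexConjugate Matrix ComplexOrder

theorem Par_split {J : Type} [Fintype J] [DecidableEq J] {d : J → J → ℤ} (hd : Ultra d)
    {S : Finset J} (h2 : 2 ≤ S.card) (T : J → Prop) {a b : J} (ha : a ∈ S) (ha' : T a) (hb : b ∈ S)
    (hb' : ¬T b) : ∃ i ∈ S, ∃ j ∈ S, T i ∧ ¬T j ∧ d i j = tin d S := by
  obtain ⟨p, hp, q, hq, hpq, e⟩ := exists_tin d h2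
  by_cases h1 : T p <;> by_cases h3 : T q
  · have hpb : p ≠ b := fun h => hb' (h ▸ h1)
    have hqb : q ≠ b := fun h => hb' (h ▸ h3)
    have u := hd.ultra p b q hpb hqb.symm hpq
    have l1 := tin_le d hp hb hpb
    have l2 := tin_le d hq hb hqb
    have s1 := hd.symm b q
    rcases min_le_iff.1 u with u | u
    · exact ⟨p, hp, b, hb, h1, hb', by omega⟩
    · exact ⟨q, hq, b, hb, h3, hb', by omega⟩
  · exact ⟨p, hp, q, hq, h1, h3, e.symm⟩
  · exact ⟨q, hq, p, hp, h3, h1, by rw [hd.symm, e]⟩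
  · have hap : a ≠ p := fun h => h1 (h ▸ ha')
    have haq : a ≠ q := fun h => h3 (h ▸ ha')
    have u := hd.ultra p a q hap.symm haq hpq
    have l1 := tin_le d ha hp hap
    have l2 := tin_le d ha hq haq
    have s1 := hd.symm p a
    rcases min_le_iff.1 u with u | u
    · exact ⟨a, ha, p, hp, ha', h1, by omega⟩
    · exact ⟨a, ha, q, hq, ha', h3, by omega⟩

theorem Par_iso {J : Type} {d : J → J → ℤ} (hd : Ultra d) {i j k : J} (hij : i ≠ j) (hik : i ≠ k)
    (h : d i j < d i k) : j ≠ k ∧ d k j = d i j := by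
  have hjk : j ≠ k := fun e => by rw [e] at h; exact lt_irrefl _ h
  have u1 := hd.ultra k i j hik.symm hij hjk.symm
  have u2 := hd.ultra i k j hik hjk.symm hij
  have s1 := hd.symm k i
  refine ⟨hjk, ?_⟩
  rcases min_le_iff.1 u1 with u1 | u1 <;> rcases min_le_iff.1 u2 with u2 | u2 <;> omega

theorem Par_key {J : Type} [Fintype J] [DecidableEq J] {d e : J → J → ℤ} (hd : Ultra d)
    (he : Ultra e) (h : ∀ i j, i ≠ j → Even (d i j + e i j)) (S : Finset J)
    (hS : tlen d S % 2 = 1) : tlen e S % 2 = 1 := by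
  obtain ⟨h2, hu, hl⟩ := tlen_ne_zero (d := d) (S := S) (by omega)
  have hne : S.Nonempty := Finset.card_pos.1 (by omega)
  have hpar : ∀ i j, i ≠ j → (d i j + e i j) % 2 = 0 := fun i j hij => Int.even_iff.1 (h i j hij)
  have hio : ∀ {i k : J}, i ∈ S → k ∉ S → i ≠ k := fun hi hk h' => hk (h' ▸ hi)
  obtain ⟨i0, hi0, j0, hj0, eA⟩ := exists_tout d hne hu
  have f1 : ∀ i ∈ S, d i j0 = tout d S := by
    intro i hi
    by_cases hii : i = i0
    · rw [hii, eA]
    · have u := hd.ultra i i0 j0 hii (hio hi0 hj0) (hio hi hj0)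
      have l1 := tin_le d hi hi0 hii
      have l2 := le_tout d hi hj0
      rcases min_le_iff.1 u with u | u <;> omega
  have f3 : ∀ k, k ∉ S → k ≠ j0 → (d k j0 + tout d S) % 2 = 0 →
      ∀ i ∈ S, (d i k + tout d S) % 2 = 0 := by
    intro k hk hkj hc i hi
    have l1 := le_tout d hi hk
    have l2 := f1 i hi
    by_cases hlt : d i k < d i j0
    · have := (Par_iso hd (hio hi hk) (hio hi hj0) hlt).2
      have s1 := hd.symm j0 k
      omega
    · omega
  have f4 : (tin e S + tin d S) % 2 = 0 := by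
    obtain ⟨p, hp, q, hq, hpq, eB⟩ := exists_tin e h2
    obtain ⟨i, hi, j, hj, hT, hT', e1⟩ := Par_split hd h2 (fun k => k = p ∨ tin e S < e p k) hp
      (Or.inl rfl) hq (by
        rintro (h' | h')
        · exact hpq h'.symm
        · omega)
    have hij : i ≠ j := fun h' => hT' (h' ▸ hT)
    have hpj : p ≠ j := fun h' => hT' (Or.inl h'.symm)
    have l1 : e p j ≤ tin e S := not_lt.1 fun h' => hT' (Or.inr h')
    have l2 := tin_le e hi hj hij
    have l3 := hpar i j hij
    by_cases hip : i = p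
    · subst hip; omega
    · have l4 := hT.resolve_left hip
      have u := he.ultra p i j (Ne.symm hip) hij hpj
      rcases min_le_iff.1 u with u | u <;> omega
  have f5 : ∀ k, k ∉ S → ∀ i ∈ S, tin e S ≤ e i k → ∃ i' ∈ S, e i' k = tin e S := by
    intro k hk i hi hle
    rcases hle.eq_or_lt with h' | h'
    · exact ⟨i, hi, h'.symm⟩
    · obtain ⟨b, hb, hbi⟩ := Finset.exists_mem_ne (by omega : 1 < S.card) i
      obtain ⟨i1, -, j, hj, rfl, hT', e1⟩ := Par_split he h2 (fun k => k = i) hi rfl hb hbi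
      have := (Par_iso he (Ne.symm hT') (hio hi hk) (by omega)).2
      exact ⟨j, hj, by rw [he.symm, this, e1]⟩
  have f6 : ∀ i ∈ S, e i j0 < tin e S := by
    intro i hi
    by_contra hc
    obtain ⟨i', hi', e1⟩ := f5 j0 hj0 i hi (not_lt.1 hc)
    have := hpar i' j0 (hio hi' hj0)
    have := f1 i' hi'
    omega
  have f7 : ∀ k, k ∉ S → ∀ i ∈ S, e i j0 < e i k → (e i k + tout d S) % 2 = 0 := by
    intro k hk i hi hlt
    obtain ⟨hjk, e1⟩ := Par_iso he (hio hi hj0) (hio hi hk) hlt
    have p1 := hpar i j0 (hio hi hj0)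
    have p2 := hpar k j0 hjk.symm
    have p3 := hpar i k (hio hi hk)
    have p4 := f1 i hi
    have p5 := f3 k hk hjk.symm (by omega) i hi
    omega
  obtain ⟨i, hi, k, hk, eA'⟩ := exists_tout e hne hu
  have f8 : e i k < tin e S := by
    by_contra hc
    obtain ⟨i', hi', e1⟩ := f5 k hk i hi (not_lt.1 hc)
    have := f6 i' hi'
    have := f7 k hk i' hi' (by omega)
    omega
  have f9 : (e i k + tout d S) % 2 = 0 := by
    have l1 := le_tout e hi hj0
    by_cases hlt : e i j0 < e i k
    · exact f7 k hk i hi hlt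
    · have p1 := hpar i j0 (hio hi hj0)
      have p4 := f1 i hi
      omega
  rw [tlen, if_pos ⟨h2, hu⟩]
  omega

/-- Paper section 4, PARITY. Colour `c i j = dz i j % 2 = dw i j % 2`. Let `j₀ ∉ S` realise
`tout dz S` (then `dz i j₀ = tout dz S` for all `i ∈ S`), `a` its parity, `b = 1 - a` the parity of
`tin dz S`. Facts from `dz`: (1) `c i j₀ = a` on `S`; (2) every splitting `S = S₁ ∪ S₂` into nonempty
parts has a pair `i ∈ S₁`, `j ∈ S₂` of colour `b` (a pair with `dz i j = tin dz S` across the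
splitting exists by the ultrametric inequality); (3) if `k ∉ S` and `c k j₀ = a` (or `k = j₀`) then
`c i k = a` for all `i ∈ S`. For `dw`: by (2) applied to the class of a point at level
`tin dw S + 1`, `tin dw S` has parity `b`; any `k ∉ S` with `dw i k ≥ tin dw S` for some `i ∈ S` has
`dw i' k = tin dw S` for some `i' ∈ S`; this excludes `j₀`, then every `k` (as `dw k j₀ = dw i j₀`); so
`tout dw S < tin dw S`; if `tout dw S = dw i k` had parity `b` then `dw k j₀ = dw i j₀`, against (3). -/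
theorem parity {J : Type} [Fintype J] [DecidableEq J] {dz dw : J → J → ℤ} (hz : Ultra dz)
    (hw : Ultra dw) (h : ∀ i j, i ≠ j → Even (dz i j + dw i j)) (S : Finset J) :
    tlen dz S % 2 = tlen dw S % 2 := by
  have h1 := Par_key hz hw h S
  have h2 := Par_key hw hz (fun i j hij => by rw [add_comm]; exact h i j hij) S
  omega

end Pool.Agent.P.MP_a62d3c_co.FF
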