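import Pool.Agent.P.MP_a62d3c_co.FF.LocC
import Pool.Agent.P.MP_a62d3c_co.FF.DSch
import Pool.Agent.P.MP_a62d3c_co.FF.Par
import Pool.Agent.P.MP_a62d3c_co.FF.Num2
import Pool.Agent.P.MP_a62d3c_co.FF.Num4

namespace Pool.Agent.P.MP_a62d3c_co.FF

open Filter Topology Polynomial MeasureTheory Asymptotics
open scoped ComplexConjugate Matrix ComplexOrder

theorem Loc_yC_nonneg (ρ : ℕ) : 0 ≤ yC ρ := by
  unfold yC
  positivity

theorem Loc_kD_nonneg (ρ : ℕ) : 0 ≤ kD ρ := by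
  unfold kD
  positivity

/-- `hA_ge`, `avg_ind`, `avg_H2` -/
theorem avgH_ge {α : Type} [Fintype α] [DecidableEq α] {ρ : ℕ} (hρ : 1000 ≤ ρ)
    (hN : Fintype.card α = NP ρ) (T : Finset α) (l : ℕ) :
    ((l / 2 : ℕ) : ℝ) * (2 * bL ρ T.card) - ((l % 2 : ℕ) : ℝ) * aL ρ T.card ≤ avgH ρ T l := by
  have h1 := avg_ind (ρ := ρ) (by omega) hN T
  have h2 := avg_H2 hρ hN T
  have h3 : ∑ I ∈ Finset.powersetCard (mP ρ) (Finset.univ : Finset α),
      (((l / 2 : ℕ) : ℝ) * H2 ρ (T ∩ I).card - ((l % 2 : ℕ) : ℝ) *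
        (if 2 ≤ (T ∩ I).card ∧ (T ∩ I).card + 2 ≤ mP ρ then (5 / 4 : ℝ) else 0)) ≤
      ∑ I ∈ Finset.powersetCard (mP ρ) (Finset.univ : Finset α), hA ρ (T ∩ I).card l := by
    refine Finset.sum_le_sum fun I hI => hA_ge (by omega) ?_ l
    rw [← (Finset.mem_powersetCard.1 hI).2]
    exact Finset.card_le_card Finset.inter_subset_right
  rw [Finset.sum_sub_distrib, ← Finset.mul_sum, ← Finset.mul_sum] at h3
  have h4 := mul_le_mul_of_nonneg_left h3 (Loc_yC_nonneg ρ)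
  have ha : (0 : ℝ) ≤ ((l / 2 : ℕ) : ℝ) := Nat.cast_nonneg _
  have hb : (0 : ℝ) ≤ ((l % 2 : ℕ) : ℝ) := Nat.cast_nonneg _
  have h5 := mul_le_mul_of_nonneg_left h1 hb
  have h6 := mul_le_mul_of_nonneg_left h2 ha
  unfold avgH
  nlinarith [h4, h5, h6]

variable {κ : Type} [Fintype κ] [DecidableEq κ] {ρ : ℕ}

/-- a larger exponent gives a smaller bound near `0` -/
theorem Loc_mono {F : ℂ → ℝ} {a b : ℝ} (hab : b ≤ a)
    (h : ∃ C, ∀ᶠ s in L0, F s ≤ C + a * Real.log ‖s‖) :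
    ∃ C, ∀ᶠ s in L0, F s ≤ C + b * Real.log ‖s‖ := by
  obtain ⟨C, hC⟩ := h
  refine ⟨C, ?_⟩
  filter_upwards [hC, L0_lt one_pos] with s h1 h2
  have h3 : Real.log ‖s‖ ≤ 0 := Real.log_nonpos (norm_nonneg _) h2.le
  nlinarith [mul_nonneg (sub_nonneg.2 hab) (neg_nonneg.2 h3)]

theorem Loc_card_opt (hρ : 1 ≤ ρ) (g : κ ≃ Mb (eP ρ)) : Fintype.card (Option κ) = NP ρ := by
  rw [Fintype.card_option]
  exact card_kappa hρ g

theorem Loc_card_le (hρ : 1 ≤ ρ) (g : κ ≃ Mb (eP ρ)) (S : Finset κ) : S.card ≤ NP ρ := by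
  have h1 := card_kappa hρ g
  have h2 := S.card_le_univ
  omega

theorem Loc_card_two (hρ : 1 ≤ ρ) (g : κ ≃ Mb (eP ρ)) : 32 * ρ ^ 2 + 2 ≤ Fintype.card κ := by
  have h1 : Fintype.card κ + 1 = 64 * ρ ^ 2 := card_kappa hρ g
  have h2 : 1 ≤ ρ ^ 2 := Nat.one_le_pow _ _ hρ
  omega

theorem Loc_avg (hρ : 2 ^ 22 ≤ ρ) (g : κ ≃ Mb (eP ρ)) (S : Finset κ) (l : ℕ) :
    ((l / 2 : ℕ) : ℝ) * (2 * bL ρ S.card) - ((l % 2 : ℕ) : ℝ) * aL ρ S.card ≤
      avgH ρ (S.map Function.Embedding.some) l := by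
  have h := avgH_ge (ρ := ρ) (by omega) (Loc_card_opt (by omega) g)
    (S.map Function.Embedding.some) l
  rwa [Finset.card_map] at h

/-- every edge pays for itself at a place that is no branch place -/
theorem Loc_edge_nb (hρ : 2 ^ 22 ≤ ρ) (g : κ ≃ Mb (eP ρ)) (S : Finset κ) (lz lw : ℕ)
    (hp : lz % 2 = lw % 2) :
    0 ≤ (((lz - lz % 2 : ℕ) : ℝ) * gmin (wZ (e := eP ρ)) S.card +
        ((lw - lz % 2 : ℕ) : ℝ) * gmin (wW (e := eP ρ)) S.card +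
        ((lz % 2 : ℕ) : ℝ) * gmin (wJ (e := eP ρ)) S.card) +
      (avgH ρ (S.map Function.Embedding.some) lz + avgH ρ (S.map Function.Embedding.some) lw -
        kD ρ * (((lz : ℝ) + lw) * ((S.card : ℝ) * ((S.card : ℝ) - 1) / 2))) := by
  have hs := Loc_card_le (by omega) g S
  have hZ := gZ_ge (ρ := ρ) (by omega) hs
  have hW := gW_ge (ρ := ρ) (by omega) hs
  have hJ := gJ_A hρ hs
  have h1 := Loc_avg hρ g S lz
  have h2 := Loc_avg hρ g S lw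
  rw [← hp] at h2
  have e1 : lz - lz % 2 = 2 * (lz / 2) := by omega
  have e2 : lw - lz % 2 = 2 * (lw / 2) := by omega
  have e3 : (lz : ℝ) = 2 * ((lz / 2 : ℕ) : ℝ) + ((lz % 2 : ℕ) : ℝ) := by
    exact_mod_cast (Nat.div_add_mod lz 2).symm
  have e4 : (lw : ℝ) = 2 * ((lw / 2 : ℕ) : ℝ) + ((lz % 2 : ℕ) : ℝ) := by
    rw [hp]
    exact_mod_cast (Nat.div_add_mod lw 2).symm
  rw [e1, e2, Nat.cast_mul, Nat.cast_mul, Nat.cast_ofNat]
  have ha : (0 : ℝ) ≤ ((lz / 2 : ℕ) : ℝ) := Nat.cast_nonneg _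
  have hb : (0 : ℝ) ≤ ((lw / 2 : ℕ) : ℝ) := Nat.cast_nonneg _
  have hc : (0 : ℝ) ≤ ((lz % 2 : ℕ) : ℝ) := Nat.cast_nonneg _
  generalize ((lz / 2 : ℕ) : ℝ) = a at *
  generalize ((lw / 2 : ℕ) : ℝ) = b at *
  generalize ((lz % 2 : ℕ) : ℝ) = c at *
  rw [e3, e4]
  have k1 := mul_le_mul_of_nonneg_left hZ ha
  have k2 := mul_le_mul_of_nonneg_left hW hb
  have k3 := mul_le_mul_of_nonneg_left hJ hc
  nlinarith [k1, k2, k3, h1, h2]

/-- an edge all of whose steps but `r` are joint, with gain `G` on each step -/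
theorem Loc_edge_br (hρ : 2 ^ 22 ≤ ρ) (g : κ ≃ Mb (eP ρ)) (S : Finset κ) (l r : ℕ) (hr : r ≤ l)
    {G : ℝ} (hJ : kD ρ * ((S.card : ℝ) * ((S.card : ℝ) - 1)) + 2 * aL ρ S.card + G ≤
      gmin (wJ (e := eP ρ)) S.card) :
    ((l - r : ℕ) : ℝ) * G -
        r * (kD ρ * ((S.card : ℝ) * ((S.card : ℝ) - 1)) + 2 * aL ρ S.card) ≤
      ((l - r : ℕ) : ℝ) * gmin (wJ (e := eP ρ)) S.card +
      (avgH ρ (S.map Function.Embedding.some) l + avgH ρ (S.map Function.Embedding.some) l -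
        kD ρ * (((l : ℝ) + l) * ((S.card : ℝ) * ((S.card : ℝ) - 1) / 2))) := by
  have hs := Loc_card_le (by omega) g S
  have h1 := Loc_avg hρ g S l
  have hb := bL_nonneg hs
  have ha := aL_nonneg ρ S.card
  have e1 : (l : ℝ) = ((l - r : ℕ) : ℝ) + r := by
    rw [Nat.cast_sub hr]
    ring
  have hc : ((l % 2 : ℕ) : ℝ) ≤ l := by exact_mod_cast Nat.mod_le l 2
  have h0 : (0 : ℝ) ≤ ((l / 2 : ℕ) : ℝ) := Nat.cast_nonneg _
  have h2 : (0 : ℝ) ≤ ((l - r : ℕ) : ℝ) := Nat.cast_nonneg _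
  have k1 := mul_le_mul_of_nonneg_left hJ h2
  have k2 := mul_le_mul_of_nonneg_right hc ha
  have k3 := mul_nonneg h0 hb
  generalize ((l - r : ℕ) : ℝ) = t at *
  rw [e1] at k2 ⊢
  nlinarith [k1, k2, k3, h1]

theorem Loc_rk_le (hρ : 1 ≤ ρ) (g : κ ≃ Mb (eP ρ)) (πz πw : Pivs κ ρ) :
    rk ρ πz πw ≤ 672 * (ρ : ℝ) ^ 2 := by
  have h1 : ∑ I ∈ II κ ρ, (((πz I).r : ℝ) + (πw I).r) ≤ ∑ _I ∈ II κ ρ, (32 * ρ : ℝ) := by
    refine Finset.sum_le_sum fun I _ => ?_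
    have a1 : (πz I).r ≤ 16 * ρ - 1 := (πz I).r_le
    have a2 : (πw I).r ≤ 16 * ρ - 1 := (πw I).r_le
    have a3 : (πz I).r + (πw I).r ≤ 32 * ρ := by omega
    exact_mod_cast a3
  have h2 : (II κ ρ).card = (NP ρ).choose (mP ρ) := by
    unfold II
    rw [Finset.card_powersetCard, Finset.card_univ, Loc_card_opt hρ g]
  rw [Finset.sum_const, h2, nsmul_eq_mul] at h1
  have h3 : mP ρ ≤ NP ρ := by
    have : ρ ≤ ρ ^ 2 := Nat.le_self_pow two_ne_zero ρ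
    show 64 * ρ ≤ 64 * ρ ^ 2
    omega
  have h4 : (0 : ℝ) < ((NP ρ).choose (mP ρ) : ℝ) := by exact_mod_cast Nat.choose_pos h3
  have h5 := mul_le_mul_of_nonneg_left h1 (Loc_yC_nonneg ρ)
  refine h5.trans (le_of_eq ?_)
  unfold yC
  field_simp
  ring

/-- the edges that start at level `n` are pairwise disjoint -/
theorem Loc_children {d : κ → κ → ℤ} {n0 : ℤ} {lo : Finset κ → ℤ} {len : Finset κ → ℕ}
    (T : IsTree d n0 id lo len) (n : ℤ) (F : Finset (Finset κ))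
    (hF : ∀ S ∈ F, len S ≠ 0 ∧ lo S = n) : ∑ S ∈ F, S.card ≤ Fintype.card κ := by
  have h1 : (F.biUnion id).card = ∑ S ∈ F, (id S).card := by
    refine Finset.card_biUnion fun S hS S' hS' hne => ?_
    refine Finset.disjoint_left.2 fun j hj hj' => hne ?_
    obtain ⟨a1, a2⟩ := hF S hS
    obtain ⟨b1, b2⟩ := hF S' hS'
    exact T.uniq S S' j (n + 1) hj hj' (by omega) (by omega) (by omega) (by omega)
  have h2 := (F.biUnion id).card_le_univ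
  rw [h1] at h2
  exact h2

/-- the loss of a small child -/
theorem Loc_child_loss (hρ : 1 ≤ ρ) {s : ℕ} (hs : s < ρ ^ 2) :
    kD ρ * ((s : ℝ) * ((s : ℝ) - 1)) + 2 * aL ρ s ≤ ((ρ : ℝ) / 8 + 38) * s := by
  have h1 := aL_le hρ s
  have h2 : (sb ρ s : ℝ) ≤ s := by exact_mod_cast (min_le_left _ _ : sb ρ s ≤ s)
  have h3 : (s : ℝ) ≤ (ρ : ℝ) ^ 2 := by exact_mod_cast hs.le
  have h4 : (0 : ℝ) ≤ s := Nat.cast_nonneg _
  have h5 : (0 : ℝ) ≤ ρ := Nat.cast_nonneg _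
  have h6 : kD ρ * ((s : ℝ) - 1) ≤ (ρ : ℝ) / 8 := by
    unfold kD
    rw [one_div, inv_mul_le_iff₀ (by positivity)]
    nlinarith
  nlinarith [mul_le_mul_of_nonneg_right h6 h4]

/-- Paper section 8: `isTree_tlen`, `delta_nb` with `γ S = tlen dz S % 2` (`parity`), `loc_core`;
every edge contributes at least `0` (`gZ_ge`, `gW_ge`, `gJ_A`, `avgH_ge`); `log |s| ≤ 0` -/
theorem loc_nb (hρ : 2 ^ 22 ≤ ρ) (g : κ ≃ Mb (eP ρ)) (πz πw : Pivs κ ρ) {z τ w τ' : ℂ → κ → ℂ}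
    {dz dw : κ → κ → ℤ} (hz : Sep z dz) (hw : Sep w dw) (hDz : Der z τ dz) (hDw : Der w τ' dw)
    (uz : Ultra dz) (uw : Ultra dw) (hpar : ∀ i j, i ≠ j → Even (dz i j + dw i j)) {θ : ℂ → ℂ}
    {ϑ : ℝ} (hθ : Bd θ ϑ) (hθ0 : ∀ᶠ s in L0, θ s ≠ 0)
    (hG : ∀ᶠ s in L0, Good ρ g πz πw (z s) (θ s • τ s) (w s) (θ s • τ' s)) {η : ℝ} (hη : 0 < η) :
    ∃ C, ∀ᶠ s in L0, Uf ρ g πz πw (z s) (θ s • τ s) (w s) (θ s • τ' s) ≤
      C + (2 * (ϑ * rk ρ πz πw) - η) * Real.log ‖s‖ := by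
  have hρ1 : 1 ≤ ρ := by omega
  have h2 : 2 ≤ Fintype.card κ := by
    have := Loc_card_two hρ1 g
    omega
  have he : 2 ≤ eP ρ := by
    show 2 ≤ 8 * ρ
    omega
  have Tz := isTree_tlen uz h2
  have Tw := isTree_tlen uw h2
  have hp := parity uz uw hpar
  have hΔ := delta_nb (g := g) he hz hw Tz Tw (fun S => tlen dz S % 2)
    (fun S => Nat.mod_le _ _) (fun S => by rw [hp S]; exact Nat.mod_le _ _)
  refine Loc_mono ?_ (loc_core hρ1 g πz πw hz hw hDz hDw Tz Tw hθ hθ0 hG hΔ hη)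
  have h3 := Finset.sum_nonneg (s := Finset.univ) fun (S : Finset κ) _ =>
    Loc_edge_nb hρ g S (tlen dz S) (tlen dw S) (hp S)
  rw [Finset.sum_add_distrib] at h3
  linarith

/-- Paper section 8, branch place. `rk ≤ 2 p y ≤ 672 ρ²` (`Piv.r_le`, the number of `I` is
`C(N, m)`). If an edge has `ρ² ≤ |S| ≤ 32 ρ²`: `delta_nb` with `γ = tlen d`, `gJ_A`, `gJ_B`. Otherwise
let `H` be of least size among `univ` and the edges with `|S| > 32 ρ²`; `delta_br`; the children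
(edges `S ⊂ H` with `tout d S = n`) have size `< ρ²` and are pairwise disjoint (`IsTree.uniq` at level
`n + 1`), each loses at most `kD |S|² + 38 |S|` (`aL_le`); `gD_ge`:
`16 ρ³ ≥ 8 ρ³ + (38 * 64 + 672) ρ²`. -/
theorem loc_br (hρ : 2 ^ 22 ≤ ρ) (g : κ ≃ Mb (eP ρ)) (πz πw : Pivs κ ρ) {z τ w τ' : ℂ → κ → ℂ}
    {d : κ → κ → ℤ} (hz : Sep z d) (hw : Sep w d) (hDz : Der z τ d) (hDw : Der w τ' d)
    (u : Ultra d)
    (hd : ∀ i j, i ≠ j → ∀ n : ℤ, n ≤ d i j →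
      Bd (fun s => (w s i - w s j) - (-1) ^ n * (z s i - z s j)) ((n : ℝ) + 1))
    {θ : ℂ → ℂ} (hθ : Bd θ (-1)) (hθ0 : ∀ᶠ s in L0, θ s ≠ 0)
    (hG : ∀ᶠ s in L0, Good ρ g πz πw (z s) (θ s • τ s) (w s) (θ s • τ' s)) {η : ℝ} (hη : 0 < η) :
    ∃ C, ∀ᶠ s in L0, Uf ρ g πz πw (z s) (θ s • τ s) (w s) (θ s • τ' s) ≤
      C - η * Real.log ‖s‖ := by
  have hρ1 : 1 ≤ ρ := by omega
  have hc := Loc_card_two hρ1 g
  have h2 : 2 ≤ Fintype.card κ := by omega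
  have he : 2 ≤ eP ρ := by
    show 2 ≤ 8 * ρ
    omega
  have T := isTree_tlen u h2
  have hrk := Loc_rk_le hρ1 g πz πw
  have key : ∀ ν : ℝ, Bd (fun s => Delta g (z s) (w s)) ν →
      672 * (ρ : ℝ) ^ 2 ≤ ν - sig (eP ρ) * ((tin d Finset.univ : ℝ) + (tin d Finset.univ : ℝ)) +
        ∑ S : Finset κ, (avgH ρ (S.map Function.Embedding.some) (tlen d S) +
          avgH ρ (S.map Function.Embedding.some) (tlen d S) -
          kD ρ * (((tlen d S : ℝ) + tlen d S) * ((S.card : ℝ) * ((S.card : ℝ) - 1) / 2))) →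
      ∃ C, ∀ᶠ s in L0, Uf ρ g πz πw (z s) (θ s • τ s) (w s) (θ s • τ' s) ≤
        C - η * Real.log ‖s‖ := by
    intro ν hΔ hν
    obtain ⟨C, hC⟩ := Loc_mono (b := -η) (by linarith)
      (loc_core hρ1 g πz πw hz hw hDz hDw T T hθ hθ0 hG hΔ hη)
    refine ⟨C, hC.mono fun s hs => ?_⟩
    linarith
  have hA : ∀ S : Finset κ, kD ρ * ((S.card : ℝ) * ((S.card : ℝ) - 1)) + 2 * aL ρ S.card + 0 ≤
      gmin (wJ (e := eP ρ)) S.card := fun S => by
    rw [add_zero]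
    exact gJ_A hρ (Loc_card_le hρ1 g S)
  by_cases hmid : ∃ S : Finset κ, tlen d S ≠ 0 ∧ ρ ^ 2 ≤ S.card ∧ S.card ≤ 32 * ρ ^ 2
  · obtain ⟨S₀, a1, a2, a3⟩ := hmid
    refine key _ (delta_nb (g := g) he hz hw T T (tlen d) (fun _ => le_rfl) (fun _ => le_rfl)) ?_
    have h3 : ∀ S : Finset κ, (0 : ℝ) ≤ (tlen d S : ℝ) * gmin (wJ (e := eP ρ)) S.card +
        (avgH ρ (S.map Function.Embedding.some) (tlen d S) +
          avgH ρ (S.map Function.Embedding.some) (tlen d S) -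
          kD ρ * (((tlen d S : ℝ) + tlen d S) * ((S.card : ℝ) * ((S.card : ℝ) - 1) / 2))) := by
      intro S
      have := Loc_edge_br hρ g S (tlen d S) 0 (Nat.zero_le _) (hA S)
      simpa using this
    have h4 := Finset.single_le_sum (s := Finset.univ) (fun S _ => h3 S) (Finset.mem_univ S₀)
    have h5 := Loc_edge_br hρ g S₀ (tlen d S₀) 0 (Nat.zero_le _) (gJ_B hρ a2 a3)
    rw [Nat.sub_zero, Nat.cast_zero, zero_mul, sub_zero] at h5
    have h6 : (1 : ℝ) ≤ tlen d S₀ := by exact_mod_cast Nat.one_le_iff_ne_zero.2 a1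
    have h7 : 672 * (ρ : ℝ) ^ 2 ≤ tlen d S₀ * (672 * (ρ : ℝ) ^ 2) :=
      le_mul_of_one_le_left (by positivity) h6
    rw [Finset.sum_add_distrib] at h4
    simp only [Nat.sub_self, Nat.cast_zero, zero_mul, zero_add]
    linarith
  · have hsm : ∀ S : Finset κ, tlen d S ≠ 0 → S.card ≤ 32 * ρ ^ 2 → S.card < ρ ^ 2 := by
      intro S a1 a3
      by_contra a2
      exact hmid ⟨S, a1, not_lt.1 a2, a3⟩
    obtain ⟨H, hH, hmin⟩ := Finset.exists_min_image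
      (Finset.univ.filter fun S : Finset κ =>
        S = Finset.univ ∨ (tlen d S ≠ 0 ∧ 32 * ρ ^ 2 < S.card)) Finset.card
      ⟨Finset.univ, Finset.mem_filter.2 ⟨Finset.mem_univ _, Or.inl rfl⟩⟩
    have hH' := (Finset.mem_filter.1 hH).2
    have hHc : 32 * ρ ^ 2 ≤ H.card := by
      rcases hH' with h | h
      · rw [h, Finset.card_univ]
        omega
      · exact h.2.le
    obtain ⟨n, hn⟩ : ∃ n : ℤ, (tlen d H ≠ 0 ∧ n = tout d H + tlen d H) ∨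
        (H = Finset.univ ∧ tlen d H = 0 ∧ n = tin d Finset.univ) := by
      rcases hH' with h | h
      · refine ⟨_, Or.inr ⟨h, ?_, rfl⟩⟩
        rw [h]
        unfold tlen
        rw [if_neg fun h' => h'.2 rfl]
      · exact ⟨_, Or.inl ⟨h.1, rfl⟩⟩
    refine key _ (delta_br (g := g) he hz hw T hd H n hn) ?_
    have hD := gD_ge hρ1 (Loc_card_le hρ1 g H) hHc
    have h3 : ∀ S : Finset κ,
        -(if tlen d S ≠ 0 ∧ S ⊂ H ∧ tout d S = n then ((ρ : ℝ) / 8 + 38) * S.card else 0) ≤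
        ((tlen d S - (if S ⊂ H ∧ tout d S = n then 1 else 0) : ℕ) : ℝ) *
          gmin (wJ (e := eP ρ)) S.card +
        (avgH ρ (S.map Function.Embedding.some) (tlen d S) +
          avgH ρ (S.map Function.Embedding.some) (tlen d S) -
          kD ρ * (((tlen d S : ℝ) + tlen d S) * ((S.card : ℝ) * ((S.card : ℝ) - 1) / 2))) := by
      intro S
      by_cases hS : tlen d S ≠ 0 ∧ S ⊂ H ∧ tout d S = n
      · rw [if_pos hS, if_pos hS.2]
        have b1 := Loc_edge_br hρ g S (tlen d S) 1 (Nat.one_le_iff_ne_zero.2 hS.1) (hA S)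
        have b2 : S.card < H.card := Finset.card_lt_card hS.2.1
        have b3 : S.card ≤ 32 * ρ ^ 2 := by
          by_contra b4
          have := hmin S (Finset.mem_filter.2 ⟨Finset.mem_univ _, Or.inr ⟨hS.1, not_le.1 b4⟩⟩)
          omega
        have b5 := Loc_child_loss hρ1 (hsm S hS.1 b3)
        rw [Nat.cast_one] at b1
        linarith
      · rw [if_neg hS]
        have b1 := Loc_edge_br hρ g S (tlen d S) 0 (Nat.zero_le _) (hA S)
        have b2 : tlen d S - (if S ⊂ H ∧ tout d S = n then 1 else 0) = tlen d S - 0 := by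
          by_cases b3 : S ⊂ H ∧ tout d S = n
          · have b4 : tlen d S = 0 := by
              by_contra b5
              exact hS ⟨b5, b3⟩
            rw [b4, Nat.zero_sub]
          · rw [if_neg b3]
        rw [b2]
        rw [Nat.cast_zero] at b1
        linarith
    have h4 := Finset.sum_le_sum (s := Finset.univ) fun S _ => h3 S
    rw [Finset.sum_add_distrib, Finset.sum_neg_distrib, ← Finset.sum_filter,
      ← Finset.mul_sum] at h4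
    have h5 := Loc_children T n (Finset.univ.filter fun S : Finset κ =>
      tlen d S ≠ 0 ∧ S ⊂ H ∧ tout d S = n) fun S hS =>
        ⟨(Finset.mem_filter.1 hS).2.1, (Finset.mem_filter.1 hS).2.2.2⟩
    have h6 : Fintype.card κ + 1 = 64 * ρ ^ 2 := card_kappa hρ1 g
    have h7 : ∑ S ∈ Finset.univ.filter (fun S : Finset κ =>
        tlen d S ≠ 0 ∧ S ⊂ H ∧ tout d S = n), (S.card : ℝ) ≤ 64 * (ρ : ℝ) ^ 2 := by
      exact_mod_cast h5.trans (by omega : Fintype.card κ ≤ 64 * ρ ^ 2)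
    have h8 : (1000 : ℝ) ≤ ρ := by exact_mod_cast (by omega : 1000 ≤ ρ)
    have h9 := mul_le_mul_of_nonneg_left h7 (by positivity : (0 : ℝ) ≤ (ρ : ℝ) / 8 + 38)
    have h10 : 1000 * (ρ : ℝ) ^ 2 ≤ (ρ : ℝ) ^ 3 := by nlinarith [sq_nonneg (ρ : ℝ)]
    nlinarith [h4, h9, h10, hD, sq_nonneg (ρ : ℝ)]

end Pool.Agent.P.MP_a62d3c_co.FF
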