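import Pool.Agent.P.MP_a62d3c_co.FF.HA
import Pool.Agent.P.MP_a62d3c_co.FF.Num1

namespace Pool.Agent.P.MP_a62d3c_co.FF

open Filter Topology Polynomial MeasureTheory Asymptotics
open scoped ComplexConjugate Matrix ComplexOrder

theorem LocC_hyp_lt {p q n : ℕ} (hy : Hyp (1 / 4) p q n) :
    (p : ℝ) < 1 / 4 * n ∧ (q : ℝ) < 3 / 4 * n := by
  obtain ⟨-, -, -, -, ⟨-, h1, h2⟩ | ⟨h1, h2⟩⟩ := hy
  · exact ⟨h1, by linarith⟩
  · have h3 : (n : ℝ) = p + q + 2 := by rw [h1]; push_cast; ring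
    constructor <;> linarith

theorem LocC_mul_le {k x y C : ℝ} (h : |x - y| ≤ C) : k * x ≤ k * y + |k| * C := by
  have h1 : k * (x - y) ≤ |k| * C := by
    refine (le_abs_self _).trans ?_
    rw [abs_mul]
    exact mul_le_mul_of_nonneg_left h (abs_nonneg k)
  linarith

theorem LocC_card {κ : Type} [DecidableEq κ] (S : Finset κ) (I : Finset (Option κ)) :
    (S.subtype (· ∈ I.eraseNone)).card = (S.map Function.Embedding.some ∩ I).card := by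
  rw [Finset.card_subtype, ← Finset.card_map Function.Embedding.some]
  congr 1
  ext x
  simp only [Finset.mem_map, Finset.mem_filter, Finset.mem_eraseNone, Finset.mem_inter,
    Function.Embedding.some_apply]
  constructor
  · rintro ⟨a, ⟨h1, h2⟩, rfl⟩
    exact ⟨⟨a, h1, rfl⟩, h2⟩
  · rintro ⟨⟨a, h1, rfl⟩, h2⟩
    exact ⟨a, ⟨h1, h2⟩, rfl⟩

/-- `ha` and `phi_smul`, `valid_smul`, `theta_smul` give `Phi (θ • τ) = |θ| ^ (2 r) Phi τ`;
`Phi > 0` by `phi_pos`, `gram_posDef`; `Bd.log_le`, `Sep.lsum`, `IsTree.sum_d`, `top_zero` -/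
theorem loc_HT {J U : Type} [Fintype J] [DecidableEq J] [Fintype U] {ρ : ℕ} (hρ : 1 ≤ ρ)
    (hn : Fintype.card J = mP ρ ∨ Fintype.card J = mP ρ - 1) {z τ : ℂ → J → ℂ} {d : J → J → ℤ}
    {n0 : ℤ} {S : U → Finset J} {lo : U → ℤ} {len : U → ℕ} (hS : Sep z d) (hD : Der z τ d)
    (T : IsTree d n0 S lo len) (π : Piv (pP ρ) (qP ρ)) {θ : ℂ → ℂ} {ϑ : ℝ} (hθ : Bd θ ϑ)
    (hθ0 : ∀ᶠ s in L0, θ s ≠ 0)
    (hV : ∀ᶠ s in L0, Valid (theta (pP ρ) (qP ρ) (z s) (θ s • τ s)) π) {η : ℝ} (hη : 0 < η) :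
    ∃ C, ∀ᶠ s in L0, HT ρ (z s) (θ s • τ s) π ≤
      C + (2 * (∑ u, hA ρ (S u).card (len u) + ϑ * π.r) - η) * Real.log ‖s‖ := by
  have hy : Hyp (1 / 4) (pP ρ) (qP ρ) (Fintype.card J) := by
    rcases hn with h | h
    · rw [h]; exact hyp_m hρ
    · rw [h]; exact hyp_m1 hρ
  obtain ⟨hp, hq⟩ := LocC_hyp_lt hy
  have hV' : ∀ᶠ s in L0, Valid (theta (pP ρ) (qP ρ) (z s) (τ s)) π := by
    filter_upwards [hV, hθ0] with s h1 h2
    rwa [theta_smul, valid_smul h2] at h1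
  obtain ⟨C1, h1⟩ := (ha hS hD T hy π hV' hη).log_le
  obtain ⟨C2, h2⟩ := hθ.log_le
  obtain ⟨C3, h3⟩ := hS.lsum
  refine ⟨C1 + 2 * π.r * C2 + |kH ρ| * C3, ?_⟩
  filter_upwards [h1, h2, h3, hθ0, hV', hS.inj] with s h1 h2 h3 h4 h5 h6
  have hpos : 0 < Phi (pP ρ) (qP ρ) (z s) (τ s) π :=
    phi_pos (gram_posDef h6 (by norm_num) (by norm_num) hp)
      (gram_posDef h6 (by norm_num) (by norm_num) hq) h5
  have e1 : Phi (pP ρ) (qP ρ) (z s) (θ s • τ s) π =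
      ‖θ s‖ ^ (2 * π.r) * Phi (pP ρ) (qP ρ) (z s) (τ s) π := by
    unfold Phi
    rw [theta_smul, phi_smul h4]
  have a1 := h1 (Complex.ofReal_ne_zero.2 hpos.ne')
  rw [Complex.norm_real, Real.norm_of_nonneg hpos.le] at a1
  have a2 := mul_le_mul_of_nonneg_left (h2 h4) (by positivity : (0 : ℝ) ≤ 2 * π.r)
  have a3 := LocC_mul_le (k := kH ρ) h3
  rw [T.sum_d] at a3
  have a4 := top_zero hρ hn
  have a5 : ∑ u, hA ρ (S u).card (len u) =
      kH ρ * (∑ u, (len u : ℝ) * (((S u).card : ℝ) * (((S u).card : ℝ) - 1))) / 2 -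
      ∑ u, ((len u : ℝ) * (Pf (pP ρ) (1 / 4 * (S u).card) + Pf (qP ρ) (3 / 4 * (S u).card)) +
          cost (pP ρ) (qP ρ) (1 / 4) (S u).card (len u)) := by
    rw [Finset.mul_sum, Finset.sum_div, ← Finset.sum_sub_distrib]
    refine Finset.sum_congr rfl fun u _ => ?_
    unfold hA
    ring
  have a6 : topH (pP ρ) (qP ρ) (Fintype.card J) =
      -(kH ρ * ((Fintype.card J : ℝ) * ((Fintype.card J : ℝ) - 1) / 2)) := by linarith
  rw [a6] at a1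
  unfold HT
  rw [e1, Real.log_mul (pow_ne_zero _ (norm_ne_zero_iff.2 h4)) hpos.ne', Real.log_pow, a5]
  push_cast
  linarith

/-- `loc_HT` for the finite points of `I` -/
theorem LocC_HT {κ : Type} [Fintype κ] [DecidableEq κ] {ρ : ℕ} (hρ : 1 ≤ ρ)
    (π : Pivs κ ρ) {z τ : ℂ → κ → ℂ} {d : κ → κ → ℤ} {n : ℤ} {lo : Finset κ → ℤ}
    {l : Finset κ → ℕ} (hz : Sep z d) (hD : Der z τ d) (T : IsTree d n id lo l) {θ : ℂ → ℂ}
    {ϑ : ℝ} (hθ : Bd θ ϑ) (hθ0 : ∀ᶠ s in L0, θ s ≠ 0)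
    (hV : ∀ᶠ s in L0, ∀ I ∈ II κ ρ,
      Valid (theta (pP ρ) (qP ρ) (rs I (z s)) (rs I (θ s • τ s))) (π I)) {η : ℝ} (hη : 0 < η) :
    ∃ C, ∀ᶠ s in L0, ∑ I ∈ II κ ρ, HT ρ (rs I (z s)) (rs I (θ s • τ s)) (π I) ≤
      C + (2 * (∑ S : Finset κ, ∑ I ∈ II κ ρ,
        hA ρ (S.map Function.Embedding.some ∩ I).card (l S) + ϑ * ∑ I ∈ II κ ρ, ((π I).r : ℝ)) -
          (II κ ρ).card * η) * Real.log ‖s‖ := by
  have key : ∀ I : Finset (Option κ), ∃ C, I ∈ II κ ρ → ∀ᶠ s in L0,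
      HT ρ (rs I (z s)) (rs I (θ s • τ s)) (π I) ≤
        C + (2 * (∑ S : Finset κ, hA ρ (S.map Function.Embedding.some ∩ I).card (l S) +
          ϑ * (π I).r) - η) * Real.log ‖s‖ := by
    intro I
    by_cases hI : I ∈ II κ ρ
    · obtain ⟨C, hC⟩ := loc_HT hρ (card_eraseNone hI) (hz.comp Subtype.val_injective)
        (hD.comp Subtype.val_injective) (T.restrict I.eraseNone) (π I) hθ hθ0
        (hV.mono fun s hs => hs I hI) hη
      refine ⟨C, fun _ => hC.mono fun s hs => ?_⟩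
      simp only [id, LocC_card] at hs
      exact hs
    · exact ⟨0, fun h => absurd h hI⟩
  choose C hC using key
  refine ⟨∑ I ∈ II κ ρ, C I, ?_⟩
  filter_upwards [(eventually_all_finset _).2 hC] with s hs
  refine (Finset.sum_le_sum hs).trans (le_of_eq ?_)
  rw [Finset.sum_add_distrib, ← Finset.sum_mul, Finset.sum_sub_distrib, ← Finset.mul_sum,
    Finset.sum_add_distrib, ← Finset.mul_sum, Finset.sum_const, nsmul_eq_mul, Finset.sum_comm]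

theorem LocC_card_kappa {κ : Type} [Fintype κ] {ρ : ℕ} (hρ : 1 ≤ ρ) (g : κ ≃ Mb (eP ρ)) :
    Fintype.card κ + 1 = NP ρ := by
  have h8 : 8 * ρ - 1 < eP ρ := by unfold eP; omega
  have h1 : Fintype.card {m : Box (eP ρ) // (m.1 : ℕ) + 1 = eP ρ ∧ (m.2 : ℕ) + 1 = eP ρ} = 1 := by
    rw [Fintype.card_eq_one_iff]
    refine ⟨⟨(⟨8 * ρ - 1, h8⟩, ⟨8 * ρ - 1, h8⟩), ?_⟩, ?_⟩
    · have : 8 * ρ - 1 + 1 = eP ρ := by unfold eP; omega
      exact ⟨this, this⟩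
    · rintro ⟨⟨a, b⟩, ha, hb⟩
      have ha' : (a : ℕ) + 1 = 8 * ρ := ha
      have hb' : (b : ℕ) + 1 = 8 * ρ := hb
      refine Subtype.ext (Prod.ext (Fin.ext ?_) (Fin.ext ?_))
      · change (a : ℕ) = 8 * ρ - 1
        omega
      · change (b : ℕ) = 8 * ρ - 1
        omega
  rw [Fintype.card_congr g, Fintype.card_subtype_compl, h1, Fintype.card_prod, Fintype.card_fin]
  have h2 : eP ρ * eP ρ = NP ρ := by unfold eP NP; ring
  have h3 : 1 ≤ NP ρ := by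
    rw [← h2]
    exact Nat.mul_pos (by omega) (by omega)
  omega

/-- sum `loc_HT` over `I` (`Sep.comp`, `Der.comp`, `IsTree.restrict`, `card_eraseNone`; the
cardinality of `S.subtype (· ∈ I.eraseNone)` is that of `S.map some ∩ I`), exchange the sums, and
treat `Delta` by `Bd.log_le` and the `kD` term by `Sep.lsum`, `IsTree.sum_d`, `kD_choose` -/
theorem loc_core {κ : Type} [Fintype κ] [DecidableEq κ] {ρ : ℕ} (hρ : 1 ≤ ρ)
    (g : κ ≃ Mb (eP ρ)) (πz πw : Pivs κ ρ) {z τ w τ' : ℂ → κ → ℂ} {dz dw : κ → κ → ℤ}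
    {nz nw : ℤ} {loz low : Finset κ → ℤ} {lz lw : Finset κ → ℕ} (hz : Sep z dz) (hw : Sep w dw)
    (hDz : Der z τ dz) (hDw : Der w τ' dw) (Tz : IsTree dz nz id loz lz)
    (Tw : IsTree dw nw id low lw) {θ : ℂ → ℂ} {ϑ : ℝ} (hθ : Bd θ ϑ) (hθ0 : ∀ᶠ s in L0, θ s ≠ 0)
    (hG : ∀ᶠ s in L0, Good ρ g πz πw (z s) (θ s • τ s) (w s) (θ s • τ' s)) {ν : ℝ}
    (hΔ : Bd (fun s => Delta g (z s) (w s)) ν) {η : ℝ} (hη : 0 < η) :
    ∃ C, ∀ᶠ s in L0, Uf ρ g πz πw (z s) (θ s • τ s) (w s) (θ s • τ' s) ≤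
      C + (2 * (ν - sig (eP ρ) * (nz + nw) +
        ∑ S : Finset κ, (avgH ρ (S.map Function.Embedding.some) (lz S) +
          avgH ρ (S.map Function.Embedding.some) (lw S) -
          kD ρ * (((lz S : ℝ) + lw S) * ((S.card : ℝ) * ((S.card : ℝ) - 1) / 2))) +
        ϑ * rk ρ πz πw) - η) * Real.log ‖s‖ := by
  have hy : 0 ≤ yC ρ := by unfold yC; positivity
  have hM : (0 : ℝ) ≤ yC ρ * (II κ ρ).card := by positivity
  set η' : ℝ := η / (2 * (yC ρ * (II κ ρ).card) + 1) with hη'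
  have hη0 : 0 < η' := by positivity
  have hη1 : 2 * (yC ρ * (II κ ρ).card) * η' ≤ η := by
    have : (2 * (yC ρ * (II κ ρ).card) + 1) * η' = η := by
      rw [hη']; field_simp
    nlinarith
  obtain ⟨C1, h1⟩ := LocC_HT hρ πz hz hDz Tz hθ hθ0
    (hG.mono fun s hs I hI => (hs.2.2.2 I hI).1) hη0
  obtain ⟨C2, h2⟩ := LocC_HT hρ πw hw hDw Tw hθ hθ0
    (hG.mono fun s hs I hI => (hs.2.2.2 I hI).2) hη0
  obtain ⟨C3, h3⟩ := hΔ.log_le
  obtain ⟨C4, h4⟩ := hz.lsum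
  obtain ⟨C5, h5⟩ := hw.lsum
  refine ⟨2 * C3 + |-kD ρ| * C4 + |-kD ρ| * C5 + yC ρ * (C1 + C2), ?_⟩
  filter_upwards [h1, h2, h3, h4, h5, hG, L0_lt one_pos] with s h1 h2 h3 h4 h5 h6 h7
  have hlog : Real.log ‖s‖ ≤ 0 := Real.log_nonpos (norm_nonneg s) h7.le
  have a3 := h3 h6.2.2.1
  have a4 := LocC_mul_le (k := -kD ρ) h4
  have a5 := LocC_mul_le (k := -kD ρ) h5
  rw [Tz.sum_d] at a4
  rw [Tw.sum_d] at a5
  have a1 := mul_le_mul_of_nonneg_left (add_le_add h1 h2) hy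
  have hc : (Fintype.card κ : ℝ) = 64 * (ρ : ℝ) ^ 2 - 1 := by
    have := congrArg (Nat.cast : ℕ → ℝ) (LocC_card_kappa hρ g)
    unfold NP at this
    push_cast at this
    linarith
  rw [hc] at a4 a5
  have a6 : ∑ S : Finset κ, (avgH ρ (S.map Function.Embedding.some) (lz S) +
          avgH ρ (S.map Function.Embedding.some) (lw S) -
          kD ρ * (((lz S : ℝ) + lw S) * ((S.card : ℝ) * ((S.card : ℝ) - 1) / 2))) =
      yC ρ * (∑ S : Finset κ, ∑ I ∈ II κ ρ,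
        hA ρ (S.map Function.Embedding.some ∩ I).card (lz S)) +
      yC ρ * (∑ S : Finset κ, ∑ I ∈ II κ ρ,
        hA ρ (S.map Function.Embedding.some ∩ I).card (lw S)) -
      kD ρ * (∑ S : Finset κ, (lz S : ℝ) * ((S.card : ℝ) * ((S.card : ℝ) - 1))) / 2 -
      kD ρ * (∑ S : Finset κ, (lw S : ℝ) * ((S.card : ℝ) * ((S.card : ℝ) - 1))) / 2 := by
    rw [Finset.mul_sum, Finset.mul_sum, Finset.mul_sum, Finset.mul_sum, Finset.sum_div,
      Finset.sum_div, ← Finset.sum_add_distrib, ← Finset.sum_sub_distrib,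
      ← Finset.sum_sub_distrib]
    refine Finset.sum_congr rfl fun S _ => ?_
    unfold avgH II
    ring
  have a7 : rk ρ πz πw =
      yC ρ * (∑ I ∈ II κ ρ, ((πz I).r : ℝ) + ∑ I ∈ II κ ρ, ((πw I).r : ℝ)) := by
    unfold rk
    rw [Finset.sum_add_distrib]
  have a8 := mul_le_mul_of_nonpos_right hη1 hlog
  unfold Uf
  rw [a6, a7, ← kD_choose ρ, Finset.sum_add_distrib]
  simp only [id] at a4 a5
  linarith

theorem card_kappa {κ : Type} [Fintype κ] {ρ : ℕ} (hρ : 1 ≤ ρ) (g : κ ≃ Mb (eP ρ)) :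
    Fintype.card κ + 1 = NP ρ := LocC_card_kappa hρ g

end Pool.Agent.P.MP_a62d3c_co.FF
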