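import Pool.Agent.P.MP_a62d3c_co.FF.Lap

namespace Pool.Agent.P.MP_a62d3c_co.FF

open Filter Topology Polynomial MeasureTheory Asymptotics
open scoped ComplexConjugate Matrix ComplexOrder

theorem Glob_max (φ : ℂ → ℝ) (Z : Finset ℂ) (hc : ∀ t, t ∉ Z → ContinuousAt φ t)
    (hl : ∀ t, t ∉ Z → LapGe φ t) (hZ : ∀ v ∈ Z, ∀ b, ∀ᶠ t in 𝓝[≠] v, φ t < b)
    (hinf : ∀ b, ∃ R : ℝ, ∀ t : ℂ, R ≤ ‖t‖ → φ t < b) : False := by
  obtain ⟨t0, ht0⟩ := Infinite.exists_notMem_finset Z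
  obtain ⟨R0, hR0⟩ := hinf (φ t0 - 1)
  set R := max R0 0 with hR
  have hRp : 0 < R + 1 := by have := le_max_right R0 0; linarith
  have h1 : ∀ v ∈ Z, ∃ r > 0, ∀ t, dist t v < r → t ≠ v → φ t < φ t0 - 1 := fun v hv => by
    obtain ⟨r, hr, h⟩ := Metric.eventually_nhds_iff.1 (eventually_nhdsWithin_iff.1 (hZ v hv _))
    exact ⟨r, hr, fun t h1 h2 => h h1 h2⟩
  choose! r hr0 hr using h1
  let K : Set ℂ := Metric.closedBall 0 R \ ⋃ v ∈ Z, Metric.ball v (r v)
  have hK : IsCompact K := (isCompact_closedBall 0 R).diff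
    (isOpen_biUnion fun v _ => Metric.isOpen_ball)
  have hKZ : ∀ t ∈ K, t ∉ Z := fun t ht hz =>
    ht.2 (Set.mem_biUnion hz (Metric.mem_ball_self (hr0 t hz)))
  have hout : ∀ t, t ∉ Z → t ∉ K → φ t < φ t0 - 1 := fun t hz ht => by
    by_cases hb : t ∈ Metric.closedBall (0 : ℂ) R
    · have h2 : t ∈ ⋃ v ∈ Z, Metric.ball v (r v) := by
        by_contra h3
        exact ht ⟨hb, h3⟩
      obtain ⟨v, hv, h3⟩ := Set.mem_iUnion₂.1 h2
      exact hr v hv t h3 fun e => hz (e ▸ hv)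
    · rw [mem_closedBall_zero_iff, not_le] at hb
      exact hR0 t ((le_max_left R0 0).trans hb.le)
  have h0K : t0 ∈ K := by
    by_contra h2
    have := hout t0 ht0 h2
    linarith
  set ε : ℝ := 1 / (R + 1) ^ 2 with hε
  have hε0 : 0 < ε := by positivity
  obtain ⟨t1, h1K, hmax⟩ := hK.exists_isMaxOn ⟨t0, h0K⟩ (f := fun t => φ t + ε * ‖t‖ ^ 2)
    fun t ht => ((hc t (hKZ t ht)).add (by fun_prop)).continuousWithinAt
  refine (hl t1 (hKZ t1 h1K)).not_max hε0 ?_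
  have e1 : ∀ᶠ t in 𝓝 t1, t ∉ Z :=
    Z.finite_toSet.isClosed.isOpen_compl.mem_nhds (hKZ t1 h1K)
  have e2 : ∀ᶠ t in 𝓝 t1, ‖t‖ < R + 1 :=
    continuous_norm.continuousAt.eventually_lt continuousAt_const
      (by have := mem_closedBall_zero_iff.1 h1K.1; linarith)
  filter_upwards [e1, e2] with t h2 h3
  by_cases ht : t ∈ K
  · exact hmax ht
  · have h4 := hout t h2 ht
    have h5 : φ t0 + ε * ‖t0‖ ^ 2 ≤ φ t1 + ε * ‖t1‖ ^ 2 := hmax h0K
    have h6 : ε * ‖t‖ ^ 2 ≤ 1 := by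
      rw [hε, one_div, inv_mul_le_one₀ (by positivity)]
      exact pow_le_pow_left₀ (norm_nonneg _) h3.le 2
    have h7 : 0 ≤ ε * ‖t0‖ ^ 2 := by positivity
    linarith

theorem Glob_cont {v t : ℂ} (h : t ≠ v) (a : ℝ) :
    ContinuousAt (fun t : ℂ => a * Real.log ‖t - v‖) t :=
  continuousAt_const.mul (ContinuousAt.log (by fun_prop) (norm_ne_zero_iff.2 (sub_ne_zero.2 h)))

theorem Glob_log (v : ℂ) : Tendsto (fun t : ℂ => Real.log ‖t - v‖) (𝓝[≠] v) atBot :=
  Real.tendsto_log_nhdsGT_zero.comp (tendsto_norm_sub_self_nhdsNE v)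

/-- Paper section 2, (GL). With `2 η |Z| < c`, the function `u + 2 η ∑_{v ∈ Z} log |t - v|` tends
to `-∞` at `Z` and at infinity. Fix a base point outside `Z`, remove small discs around `Z` and the
outside of a large disc (where the function is below its base value minus one), add `ε |t|²` with
`ε R² < 1/2` and take the maximum on the compact rest: contradiction with `LapGe.not_max`. -/
theorem global (u : ℂ → ℝ) (Z : Finset ℂ) (hc : ∀ t, t ∉ Z → ContinuousAt u t)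
    (hl : ∀ t, t ∉ Z → LapGe u t)
    (hZ : ∀ v ∈ Z, ∀ η > (0 : ℝ), ∃ C, ∀ᶠ t in 𝓝[≠] v, u t ≤ C - η * Real.log ‖t - v‖)
    (hinf : ∃ c > (0 : ℝ), ∃ C R : ℝ, ∀ t : ℂ, R ≤ ‖t‖ → u t ≤ C - c * Real.log ‖t‖) :
    False := by
  classical
  obtain ⟨c, hc0, C, R, hR⟩ := hinf
  set η : ℝ := c / (4 * (Z.card + 1)) with hη
  have hη0 : 0 < η := by positivity
  have hηc : (Z.card : ℝ) * (2 * η) ≤ c / 2 := by
    have : η * (4 * (Z.card + 1)) = c := by rw [hη]; field_simp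
    nlinarith
  refine Glob_max (fun t => u t + ∑ v ∈ Z, 2 * η * Real.log ‖t - v‖) Z (fun t ht => ?_)
    (fun t ht => ?_) (fun v hv b => ?_) fun b => ?_
  · exact (hc t ht).add (tendsto_finsetSum Z fun v hv => Glob_cont (ne_of_mem_of_not_mem hv ht).symm _)
  · refine (hl t ht).add (LapGe.sum fun v hv => ?_)
    exact lapGe_log (h := fun t => t - v) (by fun_prop) 
      (sub_ne_zero.2 (ne_of_mem_of_not_mem hv ht).symm) _
  · obtain ⟨C', hC'⟩ := hZ v hv η hη0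
    have h1 : ContinuousAt (fun t : ℂ => ∑ w ∈ Z.erase v, 2 * η * Real.log ‖t - w‖) v :=
      tendsto_finsetSum _ fun w hw => Glob_cont (Finset.ne_of_mem_erase hw).symm _
    set B := ∑ w ∈ Z.erase v, 2 * η * Real.log ‖v - w‖ with hB
    have h2 : ∀ᶠ t in 𝓝 v, ∑ w ∈ Z.erase v, 2 * η * Real.log ‖t - w‖ < B + 1 :=
      h1.eventually_lt continuousAt_const (lt_add_one B)
    have h3 := ((Glob_log v).const_mul_atBot hη0).eventually_lt_atBot (b - C' - B - 1)
    filter_upwards [hC', h2.filter_mono nhdsWithin_le_nhds, h3] with t a1 a2 a3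
    rw [← Finset.add_sum_erase Z _ hv]
    linarith
  · have h1 : Tendsto (fun x : ℝ => c / 2 * Real.log x) atTop atTop :=
      Real.tendsto_log_atTop.const_mul_atTop (by positivity)
    obtain ⟨R1, hR1⟩ := eventually_atTop.1
      (h1.eventually_gt_atTop (C + Z.card * (2 * η * Real.log 2) - b))
    refine ⟨max (max R R1) (1 + ∑ v ∈ Z, ‖v‖), fun t ht => ?_⟩
    have a0 : 0 ≤ ∑ v ∈ Z, ‖v‖ := Finset.sum_nonneg fun v _ => norm_nonneg v
    have a1 := hR t (((le_max_left _ _).trans (le_max_left _ _)).trans ht)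
    have a2 := hR1 _ (((le_max_right _ _).trans (le_max_left _ _)).trans ht)
    have a3 : 1 + ∑ v ∈ Z, ‖v‖ ≤ ‖t‖ := (le_max_right _ _).trans ht
    have a4 : 0 ≤ Real.log ‖t‖ := Real.log_nonneg (by linarith)
    have a5 : ∑ v ∈ Z, 2 * η * Real.log ‖t - v‖ ≤
        Z.card • (2 * η * (Real.log 2 + Real.log ‖t‖)) := by
      refine Finset.sum_le_card_nsmul _ _ _ fun v hv => mul_le_mul_of_nonneg_left ?_ (by positivity)
      have b1 : ‖v‖ ≤ ∑ v ∈ Z, ‖v‖ := Finset.single_le_sum (fun v _ => norm_nonneg v) hv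
      have b2 := norm_sub_le t v
      have b3 := norm_sub_norm_le t v
      rw [← Real.log_mul two_ne_zero (by linarith)]
      exact Real.log_le_log (by linarith) (by linarith)
    rw [nsmul_eq_mul] at a5
    have a6 := mul_le_mul_of_nonneg_right hηc a4
    nlinarith

end Pool.Agent.P.MP_a62d3c_co.FF
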