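import Pool.Agent.P.MP_a62d3c_co.FF.Bd0

namespace Pool.Agent.P.MP_a62d3c_co.FF

open Filter Topology Polynomial MeasureTheory Asymptotics
open scoped ComplexConjugate Matrix ComplexOrder

variable {κ : Type} [Finite κ]

/-- normal form `f = s ^ n g` gives the three estimates -/
theorem bd_of_order {f : ℂ → ℂ} (hf : MeromorphicAt f 0) {n : ℤ}
    (hn : meromorphicOrderAt f 0 = n) :
    Bd f n ∧ Bd (fun s => (f s)⁻¹) (-(n : ℝ)) ∧
      Bd (fun s => s * deriv f s - (n : ℂ) * f s) ((n : ℝ) + 1) := by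
  obtain ⟨g, hg, hg0, h⟩ := (meromorphicOrderAt_eq_int_iff hf).1 hn
  simp only [sub_zero, smul_eq_mul] at h
  refine ⟨?_, ?_, ?_⟩
  · exact (((bd_zpow n).mul (Bd.of_analyticAt hg.continuousAt)).of_eq (add_zero _)).congr
      (h.mono fun s hs => hs.symm)
  · refine (((bd_zpow (-n)).mul (Bd.of_analyticAt (hg.continuousAt.inv₀ hg0))).of_eq
      (by simp)).congr (h.mono fun s hs => ?_)
    rw [hs, mul_inv, zpow_neg, Pi.inv_apply]
  · refine (((bd_zpow (n + 1)).mul (Bd.of_analyticAt hg.deriv.continuousAt)).of_eq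
      (by simp)).congr ?_
    have h' : deriv f =ᶠ[L0] deriv fun s => s ^ n * g s := Filter.EventuallyEq.nhdsNE_deriv h
    filter_upwards [h, h', L0_ne, hg.eventually_analyticAt.filter_mono nhdsWithin_le_nhds]
      with s h1 h2 h3 h4
    have h5 := ((hasDerivAt_zpow n s (Or.inl h3)).fun_mul h4.differentiableAt.hasDerivAt).deriv
    rw [h2, h5, h1, zpow_add_one₀ h3, zpow_sub_one₀ h3]
    field_simp
    ring

/-- `d i j` is the order of `z i - z j` (`meromorphicOrderAt_eq_int_iff`,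
`meromorphicOrderAt_eq_top_iff`, `meromorphicOrderAt_add`, `MeromorphicAt.eventually_analyticAt`) -/
theorem mero {z : ℂ → κ → ℂ} (hm : ∀ i, MeromorphicAt (fun s => z s i) 0)
    (hi : ∀ᶠ s in L0, Function.Injective (z s)) :
    ∃ d : κ → κ → ℤ, Sep z d ∧ Der z (dz z) d ∧ Ultra d ∧
      ∀ i j, i ≠ j → meromorphicOrderAt (fun s => z s i - z s j) 0 = d i j := by
  have hm' : ∀ i j, MeromorphicAt (fun s => z s i - z s j) 0 := fun i j => (hm i).sub (hm j)
  have ho : ∀ i j, i ≠ j → meromorphicOrderAt (fun s => z s i - z s j) 0 =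
      (meromorphicOrderAt (fun s => z s i - z s j) 0).untop₀ := fun i j h =>
    (WithTop.coe_untop₀_of_ne_top ((meromorphicOrderAt_ne_top_iff_eventually_ne_zero (hm' i j)).2
      (hi.mono fun s hs => sub_ne_zero.2 (hs.ne h)))).symm
  refine ⟨fun i j => (meromorphicOrderAt (fun s => z s i - z s j) 0).untop₀,
    ⟨hi, fun i j h => (bd_of_order (hm' i j) (ho i j h)).1,
      fun i j h => (bd_of_order (hm' i j) (ho i j h)).2.1⟩, fun i j h => ?_,
    ⟨fun i j => ?_, fun i j k hij hjk hik => ?_⟩, ho⟩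
  · refine (bd_of_order (hm' i j) (ho i j h)).2.2.congr ?_
    filter_upwards [(hm i).eventually_analyticAt, (hm j).eventually_analyticAt] with s h1 h2
    rw [deriv_fun_sub h1.differentiableAt h2.differentiableAt, dz, dz]
  · rw [meromorphicOrderAt_fun_neg]
    simp only [neg_sub]
  · have h1 := meromorphicOrderAt_add (hm' i j) (hm' j k)
    have e : ((fun s => z s i - z s j) + fun s => z s j - z s k) = fun s => z s i - z s k := by
      funext s
      simp
    rw [e, ho i j hij, ho j k hjk, ho i k hik, ← WithTop.coe_min] at h1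
    exact WithTop.coe_le_coe.1 h1

theorem mero_nb {z w : ℂ → κ → ℂ} (hz : ∀ i, MeromorphicAt (fun s => z s i) 0)
    (hw : ∀ i, MeromorphicAt (fun s => w s i) 0)
    (hi : ∀ᶠ s in L0, Function.Injective (z s) ∧ Function.Injective (w s))
    (hsq : ∀ i j, ∃ h : ℂ → ℂ, MeromorphicAt h 0 ∧
      ∀ᶠ s in L0, (z s i - z s j) * (w s i - w s j) = h s ^ 2) :
    ∃ d d' : κ → κ → ℤ, Sep z d ∧ Sep w d' ∧ Der z (dz z) d ∧ Der w (dz w) d' ∧ Ultra d ∧
      Ultra d' ∧ ∀ i j, i ≠ j → Even (d i j + d' i j) := by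
  obtain ⟨d, h1, h2, h3, h4⟩ := mero hz (hi.mono fun _ h => h.1)
  obtain ⟨d', h1', h2', h3', h4'⟩ := mero hw (hi.mono fun _ h => h.2)
  refine ⟨d, d', h1, h1', h2, h2', h3, h3', fun i j hij => ?_⟩
  obtain ⟨h, hh, e⟩ := hsq i j
  have e1 := meromorphicOrderAt_mul ((hz i).fun_sub (hz j)) ((hw i).fun_sub (hw j))
  have e2 : meromorphicOrderAt ((fun s => z s i - z s j) * fun s => w s i - w s j) 0 =
      meromorphicOrderAt (h * h) 0 :=
    meromorphicOrderAt_congr (e.mono fun s hs => by rw [Pi.mul_apply, Pi.mul_apply, hs, sq])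
  rw [e2, h4 i j hij, h4' i j hij, meromorphicOrderAt_mul hh hh] at e1
  induction hm : meromorphicOrderAt h 0 using WithTop.recTopCoe with
  | top =>
    rw [hm, top_add, ← WithTop.coe_add] at e1
    exact absurd e1 WithTop.top_ne_coe
  | coe m =>
    rw [hm, ← WithTop.coe_add, ← WithTop.coe_add] at e1
    exact ⟨m, (WithTop.coe_injective e1).symm⟩

theorem Mero_neg : Tendsto (fun s : ℂ => -s) L0 L0 := by
  refine tendsto_nhdsWithin_iff.2 ⟨?_, L0_ne.mono fun s hs => neg_ne_zero.2 hs⟩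
  simpa using (continuous_neg.tendsto (0 : ℂ)).mono_left nhdsWithin_le_nhds

theorem Mero_one {k : ℂ → ℂ} (hk : DifferentiableAt ℂ k 0) (h0 : k 0 = 0) : Bd k 1 := by
  have := hk.isBigO_sub.mono (nhdsWithin_le_nhds (s := {0}ᶜ))
  simp only [h0, sub_zero] at this
  exact this.trans bd_id

theorem Mero_flip {f F : ℂ → ℂ} (hf : MeromorphicAt f 0) (hF : MeromorphicAt F 0) {n : ℤ}
    (hn : meromorphicOrderAt f 0 = n) (h : ∀ᶠ s in L0, F s = f (-s)) :
    meromorphicOrderAt F 0 = n ∧ Bd (fun s => F s - (-1) ^ n * f s) ((n : ℝ) + 1) := by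
  obtain ⟨g, hg, hg0, e⟩ := (meromorphicOrderAt_eq_int_iff hf).1 hn
  simp only [sub_zero, smul_eq_mul] at e
  have hg' : AnalyticAt ℂ (fun s => g (-s)) 0 :=
    AnalyticAt.fun_comp_of_eq hg analyticAt_id.neg neg_zero
  have e' : ∀ᶠ s in L0, F s = s ^ n * ((-1) ^ n * g (-s)) := by
    filter_upwards [h, Mero_neg.eventually e] with s h1 h2
    rw [h1, h2, neg_eq_neg_one_mul s, mul_zpow]
    ring
  refine ⟨(meromorphicOrderAt_eq_int_iff hF).2 ⟨fun s => (-1) ^ n * g (-s),
    analyticAt_const.mul hg', ?_, by simpa using e'⟩, ?_⟩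
  · simpa using ⟨zpow_ne_zero n (by norm_num), hg0⟩
  · refine ((bd_zpow n).mul ((Mero_one (k := fun s => g (-s) - g s)
      (hg'.differentiableAt.sub hg.differentiableAt) (by simp)).const_mul ((-1) ^ n))).congr ?_
    filter_upwards [e, e'] with s h1 h2
    rw [h1, h2]
    ring

/-- `f (-s) - (-1) ^ n f s = O(s ^ (n + 1))` when the order of `f` is at least `n` -/
theorem mero_br {z w : ℂ → κ → ℂ} (hz : ∀ i, MeromorphicAt (fun s => z s i) 0)
    (hi : ∀ᶠ s in L0, Function.Injective (z s)) (hw : ∀ᶠ s in L0, w s = z (-s)) :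
    ∃ d : κ → κ → ℤ, Sep z d ∧ Sep w d ∧ Der z (dz z) d ∧ Der w (dz w) d ∧ Ultra d ∧
      ∀ i j, i ≠ j → ∀ n : ℤ, n ≤ d i j →
        Bd (fun s => (w s i - w s j) - (-1) ^ n * (z s i - z s j)) ((n : ℝ) + 1) := by
  have hw' : ∀ i, MeromorphicAt (fun s => w s i) 0 := fun i => by
    have h1 : MeromorphicAt (fun s => z s i) (-0) := by rw [neg_zero]; exact hz i
    refine (h1.comp_analyticAt (g := fun s : ℂ => -s) analyticAt_id.neg).congr ?_
    exact hw.mono fun s hs => (congrFun hs i).symm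
  have hi' : ∀ᶠ s in L0, Function.Injective (w s) := by
    filter_upwards [hw, Mero_neg.eventually hi] with s h1 h2
    rwa [h1]
  obtain ⟨d, h1, h2, h3, h4⟩ := mero hz hi
  obtain ⟨d', h1', h2', -, h4'⟩ := mero hw' hi'
  have key := fun i j (hij : i ≠ j) => Mero_flip ((hz i).fun_sub (hz j))
    ((hw' i).fun_sub (hw' j)) (h4 i j hij) (hw.mono fun s hs => by rw [hs])
  have e : ∀ i j, i ≠ j → d' i j = d i j := fun i j hij =>
    WithTop.coe_injective ((h4' i j hij).symm.trans (key i j hij).1)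
  refine ⟨d, h1, ⟨hi', fun i j hij => e i j hij ▸ h1'.up i j hij,
    fun i j hij => e i j hij ▸ h1'.low i j hij⟩, h2, fun i j hij => e i j hij ▸ h2' i j hij, h3,
    fun i j hij n hn => ?_⟩
  rcases hn.eq_or_lt with rfl | hn
  · exact (key i j hij).2
  · have : (n : ℝ) + 1 ≤ d i j := by exact_mod_cast hn
    exact ((e i j hij ▸ h1'.up i j hij).sub ((h1.up i j hij).const_mul _)).mono this

end Pool.Agent.P.MP_a62d3c_co.FF
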