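import Pool.Agent.P.MP_a62d3c_co.FF.SHp
import Pool.Agent.P.MP_a62d3c_co.FF.Num1

namespace Pool.Agent.P.MP_a62d3c_co.FF

open Filter Topology Polynomial MeasureTheory Asymptotics
open scoped ComplexConjugate Matrix ComplexOrder

theorem SHu_HT {κ : Type} [Fintype κ] [DecidableEq κ] {ρ : ℕ} (hρ : 1 ≤ ρ)
    {I : Finset (Option κ)} (hI : I ∈ II κ ρ) (π : Piv (pP ρ) (qP ρ)) {z : ℂ → κ → ℂ} {t₀ : ℂ}
    (hz : ∀ j, AnalyticAt ℂ (fun t => z t j) t₀)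
    (hG : ∀ᶠ t in 𝓝 t₀, Function.Injective (z t) ∧
      Valid (theta (pP ρ) (qP ρ) (rs I (z t)) (rs I (dz z t))) π) :
    LapGe (fun t => HT ρ (rs I (z t)) (rs I (dz z t)) π) t₀ ∧
      ContinuousAt (fun t => HT ρ (rs I (z t)) (rs I (dz z t)) π) t₀ := by
  have hy : Hyp (1 / 4) (pP ρ) (qP ρ) (Fintype.card I.eraseNone) := by
    rcases card_eraseNone hI with h | h <;> rw [h]
    · exact hyp_m hρ
    · exact hyp_m1 hρ
  have hz' : ∀ j : I.eraseNone, AnalyticAt ℂ (fun t => rs I (z t) j) t₀ := fun j => hz j.1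
  have hk : ∀ᶠ t in 𝓝 t₀, Function.Injective (rs I (z t)) ∧
      Valid (theta (pP ρ) (qP ρ) (rs I (z t)) (dz (fun t => rs I (z t)) t)) π :=
    hG.mono fun t ht => ⟨fun a b e => Subtype.ext (ht.1 e), ht.2⟩
  obtain ⟨h1, h2⟩ := sh_Phi (z := fun t => rs I (z t)) hz' hy π hk
  obtain ⟨h3, h4⟩ := sh_Lsum (z := fun t => rs I (z t)) hz' hk.self_of_nhds.1 (kH ρ)
  exact ⟨h1.add h3, h2.add (continuousAt_const.mul h4)⟩

theorem SHu_Delta {κ : Type} [Fintype κ] [DecidableEq κ] {e : ℕ} (g : κ ≃ Mb e)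
    {z w : ℂ → κ → ℂ} {t₀ : ℂ}
    (hz : ∀ j, AnalyticAt ℂ (fun t => z t j) t₀) (hw : ∀ j, AnalyticAt ℂ (fun t => w t j) t₀) :
    AnalyticAt ℂ (fun t => Delta g (z t) (w t)) t₀ := by
  simp only [Delta, Matrix.det_apply', Matrix.of_apply]
  refine Finset.analyticAt_fun_sum _ fun σ _ => analyticAt_const.mul ?_
  exact Finset.analyticAt_fun_prod _ fun i _ => ((hz _).pow _).mul ((hw _).pow _)

/-- assemble `sh_Phi`, `sh_Lsum`, `lapGe_log` (for `Delta`), `card_eraseNone`, `hyp_m`, `hyp_m1` -/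
theorem sh_U {κ : Type} [Fintype κ] [DecidableEq κ] {ρ : ℕ} (hρ : 1 ≤ ρ) (g : κ ≃ Mb (eP ρ))
    (πz πw : Pivs κ ρ) {z w : ℂ → κ → ℂ} {t₀ : ℂ}
    (hz : ∀ j, AnalyticAt ℂ (fun t => z t j) t₀) (hw : ∀ j, AnalyticAt ℂ (fun t => w t j) t₀)
    (hG : ∀ᶠ t in 𝓝 t₀, Good ρ g πz πw (z t) (dz z t) (w t) (dz w t)) :
    LapGe (fun t => Uf ρ g πz πw (z t) (dz z t) (w t) (dz w t)) t₀ ∧
      ContinuousAt (fun t => Uf ρ g πz πw (z t) (dz z t) (w t) (dz w t)) t₀ := by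
  have h0 := hG.self_of_nhds
  have hD := SHu_Delta g hz hw
  obtain ⟨a1, a2⟩ := sh_Lsum hz h0.1 (-kD ρ)
  obtain ⟨b1, b2⟩ := sh_Lsum hw h0.2.1 (-kD ρ)
  have hZ := fun I (hI : I ∈ II κ ρ) =>
    SHu_HT hρ hI (πz I) hz (hG.mono fun t ht => ⟨ht.1, (ht.2.2.2 I hI).1⟩)
  have hW := fun I (hI : I ∈ II κ ρ) =>
    SHu_HT hρ hI (πw I) hw (hG.mono fun t ht => ⟨ht.2.1, (ht.2.2.2 I hI).2⟩)
  have hy : 0 ≤ yC ρ := by unfold yC; positivity
  constructor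
  · refine (((lapGe_log hD h0.2.2.1 2).add (a1.add b1)).add
      ((LapGe.sum fun I hI => (hZ I hI).1.add (hW I hI).1).smul hy)).congr
      (Eventually.of_forall fun t => ?_)
    simp only [Uf]
    ring
  · simp only [Uf]
    refine ((continuousAt_const.mul (hD.continuousAt.norm.log (norm_ne_zero_iff.2 h0.2.2.1))).sub
      (continuousAt_const.mul (a2.add b2))).add (continuousAt_const.mul ?_)
    exact tendsto_finsetSum _ fun I hI => (hZ I hI).2.add (hW I hI).2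

end Pool.Agent.P.MP_a62d3c_co.FF
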