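import Pool.Agent.P.MP_a62d3c_co.FF.Gen
import Pool.Agent.P.MP_a62d3c_co.FF.Mero
import Pool.Agent.P.MP_a62d3c_co.FF.Loc
import Pool.Agent.P.MP_a62d3c_co.FF.SHu
import Pool.Agent.P.MP_a62d3c_co.FF.Glob

namespace Pool.Agent.P.MP_a62d3c_co.FF

open Filter Topology Polynomial MeasureTheory Asymptotics
open scoped ComplexConjugate Matrix ComplexOrder

variable {κ : Type} [Fintype κ] [DecidableEq κ] {ρ : ℕ}

theorem Core_ev {P : ℂ → Prop} (h : ∀ᶠ s in L0, P s) : ∀ᶠ s in L0, ∀ᶠ u in 𝓝 s, P u := by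
  filter_upwards [eventually_eventually_nhdsWithin.2 h, L0_ne] with s hs h0
  rwa [(isOpen_compl_singleton (x := (0 : ℂ))).nhdsWithin_eq h0] at hs

/-- the value of `U` at a point of the curve -/
noncomputable def Core_V (ρ : ℕ) (g : κ ≃ Mb (eP ρ)) (πz πw : Pivs κ ρ) (F : Fam κ) (t δ : ℂ) : ℝ :=
  Uf ρ g πz πw (F.z t δ) (F.τ t δ) (F.z t (-δ)) (F.τ t (-δ))

/-- the genericity statement -/
def Core_G (ρ : ℕ) (g : κ ≃ Mb (eP ρ)) (πz πw : Pivs κ ρ) (F : Fam κ) (Z : Finset ℂ) : Prop :=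
  ∀ t, t ∉ Z → ∀ δ, Rt F.D t δ →
    δ ≠ 0 ∧ Good ρ g πz πw (F.z t δ) (F.τ t δ) (F.z t (-δ)) (F.τ t (-δ))

variable {g : κ ≃ Mb (eP ρ)} {πz πw : Pivs κ ρ} {F : Fam κ} {Z : Finset ℂ}

theorem Core_reg (hρ : 1 ≤ ρ) (hG : Core_G ρ g πz πw F Z) {t₀ : ℂ} (ht : t₀ ∉ Z) {δ : ℂ → ℂ}
    (hδ : AnalyticAt ℂ δ t₀) (hR : ∀ᶠ t in 𝓝 t₀, Rt F.D t (δ t)) :
    LapGe (fun t => Core_V ρ g πz πw F t (δ t)) t₀ ∧
      ContinuousAt (fun t => Core_V ρ g πz πw F t (δ t)) t₀ := by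
  have hZ : ∀ᶠ t in 𝓝 t₀, t ∉ Z := Z.finite_toSet.isClosed.isOpen_compl.mem_nhds ht
  have h1 : ∀ᶠ t in 𝓝 t₀, dz (fun u => F.z u (δ u)) t = F.τ t (δ t) ∧
      dz (fun u => F.z u (-δ u)) t = F.τ t (-δ t) := by
    filter_upwards [hZ, hR, hR.eventually_nhds, hδ.eventually_analyticAt] with t a1 a2 a3 a4
    have h0 := (hG t a1 _ a2).1
    constructor
    · have := F.dz_eq (t := fun u => u) (δ := δ) (s := t) differentiableAt_id a4.differentiableAt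
        (a3.mono fun u hu => hu.1) h0
      simpa using this
    · have := F.dz_eq (t := fun u => u) (δ := fun u => -δ u) (s := t) differentiableAt_id
        a4.differentiableAt.neg (a3.mono fun u hu => by simpa using hu.1) (neg_ne_zero.2 h0)
      simpa using this
  have h2 := sh_U hρ g πz πw (z := fun u => F.z u (δ u)) (w := fun u => F.z u (-δ u)) (t₀ := t₀)
    (F.analytic hδ) (F.analytic (δ := fun u => -δ u) hδ.neg) (by
      filter_upwards [hZ, hR, h1] with t a1 a2 a3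
      rw [a3.1, a3.2]
      exact (hG t a1 _ a2).2)
  have h3 : ∀ᶠ t in 𝓝 t₀, Uf ρ g πz πw (F.z t (δ t)) (dz (fun u => F.z u (δ u)) t)
      (F.z t (-δ t)) (dz (fun u => F.z u (-δ u)) t) = Core_V ρ g πz πw F t (δ t) := by
    filter_upwards [h1] with t a3
    rw [a3.1, a3.2]
    rfl
  exact ⟨h2.1.congr h3, h2.2.congr h3⟩

theorem Core_tau (hG : Core_G ρ g πz πw F Z) {t δ θ : ℂ → ℂ} (ht : MeromorphicAt t 0)
    (hδ : MeromorphicAt δ 0) (hR : ∀ᶠ s in L0, t s ∉ Z ∧ Rt F.D (t s) (δ s))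
    (hθ : ∀ᶠ s in L0, θ s * deriv t s = 1) :
    ∀ᶠ s in L0, θ s • dz (fun u => F.z (t u) (δ u)) s = F.τ (t s) (δ s) ∧
      θ s • dz (fun u => F.z (t u) (-δ u)) s = F.τ (t s) (-δ s) := by
  filter_upwards [hR, Core_ev hR, hθ, ht.eventually_analyticAt, hδ.eventually_analyticAt]
    with s a1 a2 a3 a4 a5
  have h0 := (hG _ a1.1 _ a1.2).1
  constructor
  · rw [F.dz_eq a4.differentiableAt a5.differentiableAt (a2.mono fun u hu => hu.2.1) h0,
      smul_smul, a3, one_smul]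
  · rw [F.dz_eq (δ := fun u => -δ u) a4.differentiableAt a5.differentiableAt.neg
      (a2.mono fun u hu => by simpa using hu.2.1) (neg_ne_zero.2 h0), smul_smul, a3, one_smul]

theorem Core_nb (hρ : 2 ^ 22 ≤ ρ) (hG : Core_G ρ g πz πw F Z) {t δ θ : ℂ → ℂ}
    (ht : MeromorphicAt t 0) (hδ : MeromorphicAt δ 0)
    (hR : ∀ᶠ s in L0, t s ∉ Z ∧ Rt F.D (t s) (δ s)) (hθ : ∀ᶠ s in L0, θ s * deriv t s = 1)
    {ϑ : ℝ} (hϑ : Bd θ ϑ) {η : ℝ} (hη : 0 < η) :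
    ∃ C, ∀ᶠ s in L0, Core_V ρ g πz πw F (t s) (δ s) ≤
      C + (2 * (ϑ * rk ρ πz πw) - η) * Real.log ‖s‖ := by
  have h1 := Core_tau hG ht hδ hR hθ
  obtain ⟨d, d', a1, a2, a3, a4, a5, a6, a7⟩ := mero_nb (z := fun u => F.z (t u) (δ u))
    (w := fun u => F.z (t u) (-δ u)) (F.mero ht hδ) (F.mero (δ := fun u => -δ u) ht hδ.neg)
    (hR.mono fun s hs => ⟨(hG _ hs.1 _ hs.2).2.1, (hG _ hs.1 _ hs.2).2.2.1⟩)
    (fun i j => ⟨fun s => (F.dd i j).eval (t s), mero_eval _ ht,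
      hR.mono fun s hs => F.prod_eq hs.2.1 i j⟩)
  obtain ⟨C, hC⟩ := loc_nb hρ g πz πw a1 a2 a3 a4 a5 a6 a7 hϑ
    (hθ.mono fun s hs => left_ne_zero_of_mul_eq_one hs) (by
      filter_upwards [hR, h1] with s b1 b2
      rw [b2.1, b2.2]
      exact (hG _ b1.1 _ b1.2).2) hη
  refine ⟨C, ?_⟩
  filter_upwards [hC, h1] with s b1 b2
  rw [b2.1, b2.2] at b1
  exact b1

theorem Core_tend (v : ℂ) (k : ℕ) (hk : k ≠ 0) :
    Tendsto (fun s : ℂ => v + s ^ k) L0 (𝓝[≠] v) := by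
  refine tendsto_nhdsWithin_iff.2 ⟨?_, L0_ne.mono fun s hs => ?_⟩
  · have : ContinuousAt (fun s : ℂ => v + s ^ k) 0 := by fun_prop
    have h := this.tendsto
    simp only [zero_pow hk, add_zero] at h
    exact h.mono_left nhdsWithin_le_nhds
  · simpa using fun h => (hs h).elim

theorem Core_notZ (Z : Finset ℂ) (v : ℂ) : ∀ᶠ t in 𝓝[≠] v, t ∉ Z := by
  classical
  have h : ∀ᶠ t in 𝓝 v, t ∉ Z.erase v :=
    (Z.erase v).finite_toSet.isClosed.isOpen_compl.mem_nhds (by simp)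
  filter_upwards [h.filter_mono nhdsWithin_le_nhds, self_mem_nhdsWithin] with t a1 a2 a3
  exact a1 (Finset.mem_erase.2 ⟨a2, a3⟩)

theorem Core_br (hρ : 2 ^ 22 ≤ ρ) (hG : Core_G ρ g πz πw F Z) (v : ℂ) {δ : ℂ → ℂ}
    (hδ : MeromorphicAt δ 0) (hR : ∀ᶠ s in L0, Rt F.D (v + s ^ 2) (δ s) ∧ δ (-s) = -δ s)
    {η : ℝ} (hη : 0 < η) :
    ∃ C, ∀ᶠ s in L0, Core_V ρ g πz πw F (v + s ^ 2) (δ s) ≤ C - η * Real.log ‖s‖ := by
  have ht : MeromorphicAt (fun s : ℂ => v + s ^ 2) 0 := by fun_prop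
  have hR' : ∀ᶠ s in L0, v + s ^ 2 ∉ Z ∧ Rt F.D (v + s ^ 2) (δ s) := by
    filter_upwards [hR, (Core_tend v 2 two_ne_zero).eventually (Core_notZ Z v)] with s a1 a2
    exact ⟨a2, a1.1⟩
  have hθ : ∀ᶠ s in L0, (2⁻¹ * s⁻¹) * deriv (fun s : ℂ => v + s ^ 2) s = 1 := by
    filter_upwards [L0_ne] with s hs
    have : deriv (fun s : ℂ => v + s ^ 2) s = 2 * s := by
      simp
    rw [this]
    field_simp
  have h1 := Core_tau (θ := fun s => 2⁻¹ * s⁻¹) hG ht hδ hR' hθ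
  obtain ⟨d, a1, a2, a3, a4, a5, a6⟩ := mero_br (z := fun u => F.z (v + u ^ 2) (δ u))
    (w := fun u => F.z (v + u ^ 2) (-δ u)) (F.mero ht hδ)
    (hR'.mono fun s hs => (hG _ hs.1 _ hs.2).2.1)
    (hR.mono fun s hs => by simp only [hs.2, neg_sq])
  obtain ⟨C, hC⟩ := loc_br hρ g πz πw a1 a2 a3 a4 a5 a6 (bd_inv.const_mul 2⁻¹)
    (hθ.mono fun s hs => left_ne_zero_of_mul_eq_one hs) (by
      filter_upwards [hR', h1] with s b1 b2
      rw [b2.1, b2.2]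
      exact (hG _ b1.1 _ b1.2).2) hη
  refine ⟨C, ?_⟩
  filter_upwards [hC, h1] with s b1 b2
  rw [b2.1, b2.2] at b1
  exact b1

/-- the second root is `Core_sg D * δ` -/
noncomputable def Core_sg (D : ℂ[X]) : ℂ := by
  classical exact if D = 1 then 1 else -1

theorem Core_sg_rt {D : ℂ[X]} {t δ : ℂ} (h : Rt D t δ) : Rt D t (Core_sg D * δ) := by
  unfold Core_sg
  split_ifs with hD
  · simpa using h
  · exact ⟨by simpa using h.1, fun e => absurd e hD⟩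

theorem Core_sg_sq (D : ℂ[X]) : Core_sg D * Core_sg D = 1 := by
  unfold Core_sg
  split_ifs <;> simp

theorem Core_sg_or {D : ℂ[X]} {t δ δ' : ℂ} (h : Rt D t δ) (h' : Rt D t δ') :
    δ' = δ ∨ δ' = Core_sg D * δ := by
  unfold Core_sg
  split_ifs with hD
  · left; rw [h.2 hD, h'.2 hD]
  · have := sq_eq_sq_iff_eq_or_eq_neg.1 (h'.1.trans h.1.symm)
    simpa using this

theorem Core_ex (D : ℂ[X]) (t : ℂ) : ∃ δ, Rt D t δ := by
  by_cases hD : D = 1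
  · exact ⟨1, by simp [hD], fun _ => rfl⟩
  · obtain ⟨δ, hδ⟩ := IsAlgClosed.exists_pow_nat_eq (D.eval t) two_pos
    exact ⟨δ, hδ, fun e => absurd e hD⟩

theorem Core_sqrt : ∃ q : ℂ → ℂ, (∀ a, q a ^ 2 = a) ∧ Tendsto q L0 L0 := by
  choose q hq using fun a : ℂ => IsAlgClosed.exists_pow_nat_eq a two_pos
  refine ⟨q, hq, tendsto_nhdsWithin_iff.2 ⟨?_, L0_ne.mono fun s hs h => hs ?_⟩⟩
  · rw [tendsto_zero_iff_norm_tendsto_zero]
    have h1 : Tendsto (fun a : ℂ => Real.sqrt ‖a‖) L0 (𝓝 0) := by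
      have : ContinuousAt (fun a : ℂ => Real.sqrt ‖a‖) 0 := by fun_prop
      have h := this.tendsto
      simp only [norm_zero, Real.sqrt_zero] at h
      exact h.mono_left nhdsWithin_le_nhds
    refine h1.congr fun a => ?_
    conv_lhs => rw [← hq a, norm_pow, Real.sqrt_sq (norm_nonneg _)]
  · rw [← hq s, Set.mem_singleton_iff.1 h]; simp

theorem Core_false (hρ : 2 ^ 22 ≤ ρ) (hG : Core_G ρ g πz πw F Z) (hD : F.D ≠ 0)
    (hr : 0 < rk ρ πz πw) : False := by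
  have hρ1 : 1 ≤ ρ := le_trans (by norm_num) hρ
  choose r hrt using Core_ex F.D
  set σ := Core_sg F.D with hσ
  set V := Core_V ρ g πz πw F with hV
  have hu : ∀ t δ, Rt F.D t δ → max (V t (r t)) (V t (σ * r t)) = max (V t δ) (V t (σ * δ)) := by
    intro t δ h
    rcases Core_sg_or h (hrt t) with e | e
    · rw [e]
    · rw [e, ← mul_assoc, Core_sg_sq, one_mul, max_comm]
  obtain ⟨q, hq, hqt⟩ := Core_sqrt
  have hlog : ∀ a : ℂ, Real.log ‖a‖ = 2 * Real.log ‖q a‖ := fun a => by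
    conv_lhs => rw [← hq a, norm_pow, Real.log_pow]
    norm_num
  have hloc : ∀ t₀, t₀ ∉ Z → ∃ δ : ℂ → ℂ, (∀ᶠ t in 𝓝 t₀, Rt F.D t (δ t)) ∧
      (LapGe (fun t => V t (δ t)) t₀ ∧ ContinuousAt (fun t => V t (δ t)) t₀) ∧
      LapGe (fun t => V t (σ * δ t)) t₀ ∧ ContinuousAt (fun t => V t (σ * δ t)) t₀ := by
    intro t₀ ht
    obtain ⟨δ, a1, -, a3⟩ := root_loc (hrt t₀) (hG t₀ ht _ (hrt t₀)).1
    exact ⟨δ, a3, Core_reg hρ1 hG ht a1 a3,
      Core_reg (δ := fun t => σ * δ t) hρ1 hG ht (analyticAt_const.mul a1)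
        (a3.mono fun t h => Core_sg_rt h)⟩
  refine global (fun t => max (V t (r t)) (V t (σ * r t))) Z ?_ ?_ ?_ ?_
  · intro t₀ ht
    obtain ⟨δ, a1, a2, a3⟩ := hloc t₀ ht
    exact ContinuousAt.congr (f := fun t => max (V t (δ t)) (V t (σ * δ t))) (a2.2.max a3.2)
      (a1.mono fun t h => (hu t _ h).symm)
  · intro t₀ ht
    obtain ⟨δ, a1, a2, a3⟩ := hloc t₀ ht
    have e0 := hu t₀ _ a1.self_of_nhds
    rcases le_total (V t₀ (δ t₀)) (V t₀ (σ * δ t₀)) with h | h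
    · refine a3.1.of_le (by simp only [e0, max_eq_right h, le_refl]) fun η hη => ?_
      filter_upwards [a1] with t b
      rw [hu t _ b]
      have := le_max_right (V t (δ t)) (V t (σ * δ t))
      nlinarith [sq_nonneg ‖t - t₀‖]
    · refine a2.1.of_le (by simp only [e0, max_eq_left h, le_refl]) fun η hη => ?_
      filter_upwards [a1] with t b
      rw [hu t _ b]
      have := le_max_left (V t (δ t)) (V t (σ * δ t))
      nlinarith [sq_nonneg ‖t - t₀‖]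
  · intro v _ η hη
    have hsub : Tendsto (fun t => t - v) (𝓝[≠] v) L0 := by
      refine tendsto_nhdsWithin_iff.2 ⟨?_, ?_⟩
      · have : ContinuousAt (fun t : ℂ => t - v) v := by fun_prop
        have h := this.tendsto
        simp only [sub_self] at h
        exact h.mono_left nhdsWithin_le_nhds
      · filter_upwards [self_mem_nhdsWithin] with t ht
        exact sub_ne_zero.2 ht
    rcases root_fin hD v with ⟨δ, a1, a2⟩ | ⟨δ, a1, a2⟩
    · have ht : MeromorphicAt (fun s : ℂ => v + s) 0 := by fun_prop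
      have hZ : ∀ᶠ s in L0, v + s ∉ Z := by
        simpa using (Core_tend v 1 one_ne_zero).eventually (Core_notZ Z v)
      have hθ : ∀ᶠ s in L0, (fun _ : ℂ => (1 : ℂ)) s * deriv (fun s : ℂ => v + s) s = 1 :=
        Eventually.of_forall fun s => by simp
      obtain ⟨C, hC⟩ := Core_nb hρ hG ht a1 (hZ.and a2) hθ (bd_const 1) hη
      obtain ⟨C', hC'⟩ := Core_nb (δ := fun s => σ * δ s) hρ hG ht
        ((MeromorphicAt.const σ 0).mul a1) (hZ.and (a2.mono fun s h => Core_sg_rt h)) hθ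
        (bd_const 1) hη
      refine ⟨max C C', ?_⟩
      filter_upwards [hsub.eventually hC, hsub.eventually hC', hsub.eventually a2] with t b1 b2 b3
      simp only [add_sub_cancel] at b1 b2 b3
      rw [hu t _ b3]
      refine max_le ?_ ?_
      · have := le_max_left C C'
        linarith
      · have := le_max_right C C'
        linarith
    · obtain ⟨C, hC⟩ := Core_br hρ hG v a1 (a2.mono fun s h => ⟨h.1, h.2.2⟩)
        (η := 2 * η) (by linarith)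
      obtain ⟨C', hC'⟩ := Core_br (δ := fun s => -δ s) hρ hG v a1.neg
        (a2.mono fun s h => ⟨h.2.1, by simp only [h.2.2]⟩) (η := 2 * η) (by linarith)
      refine ⟨max C C', ?_⟩
      have hs := hqt.comp hsub
      filter_upwards [hs.eventually hC, hs.eventually hC', hs.eventually a2] with t b1 b2 b3
      simp only [Function.comp, hq, add_sub_cancel] at b1 b2 b3
      have c1 := le_max_left C C'
      have c2 := le_max_right C C'
      have c3 := hlog (t - v)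
      rw [hu t _ b3.1]
      refine max_le (by rw [c3]; linarith) ?_
      rcases Core_sg_or b3.1 (Core_sg_rt b3.1) with e | -
      · rw [e, c3]; linarith
      · rcases sq_eq_sq_iff_eq_or_eq_neg.1 ((Core_sg_rt b3.1).1.trans b3.1.1.symm) with e | e
        · rw [e, c3]; linarith
        · rw [e, c3]; linarith
  · obtain ⟨δ, a1, a2⟩ := root_inf hD
    have ht : MeromorphicAt (fun s : ℂ => (s ^ 2)⁻¹) 0 := by fun_prop
    have hZ : ∀ᶠ s in L0, (s ^ 2)⁻¹ ∉ Z := by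
      have h1 : ∀ᶠ s in L0, 0 + s ^ 2 ∉ Z.image fun a => a⁻¹ :=
        (Core_tend 0 2 two_ne_zero).eventually (Core_notZ _ 0)
      filter_upwards [h1] with s hs h
      exact hs (Finset.mem_image.2 ⟨_, h, by simp⟩)
    have hθ : ∀ᶠ s in L0, (fun s : ℂ => -2⁻¹ * s ^ (3 : ℤ)) s *
        deriv (fun s : ℂ => (s ^ 2)⁻¹) s = 1 := by
      filter_upwards [L0_ne] with s hs
      have := ((hasDerivAt_pow 2 s).fun_inv (pow_ne_zero 2 hs)).deriv
      have e : deriv (fun s : ℂ => (s ^ 2)⁻¹) s = -(2 * s) / (s ^ 2) ^ 2 := by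
        simpa using this
      rw [e]
      simp only [zpow_ofNat]
      field_simp
    have hb : Bd (fun s : ℂ => -2⁻¹ * s ^ (3 : ℤ)) 3 := by
      simpa using (bd_zpow 3).const_mul (-2⁻¹)
    obtain ⟨C, hC⟩ := Core_nb hρ hG ht a1 (hZ.and a2) hθ hb (η := 4 * rk ρ πz πw) (by linarith)
    obtain ⟨C', hC'⟩ := Core_nb (δ := fun s => σ * δ s) hρ hG ht
      ((MeromorphicAt.const σ 0).mul a1) (hZ.and (a2.mono fun s h => Core_sg_rt h)) hθ hb
      (η := 4 * rk ρ πz πw) (by linarith)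
    have hall := hqt.eventually (hC.and (hC'.and a2))
    obtain ⟨ε, hε, hball⟩ := Metric.eventually_nhds_iff.1 (eventually_nhdsWithin_iff.1 hall)
    refine ⟨rk ρ πz πw, hr, max C C', 2 / ε, fun t hR => ?_⟩
    have ht0 : 0 < ‖t‖ := lt_of_lt_of_le (by positivity) hR
    have h1 : dist t⁻¹ 0 < ε := by
      rw [dist_zero_right, norm_inv, inv_lt_comm₀ ht0 hε]
      refine lt_of_lt_of_le ?_ hR
      rw [inv_eq_one_div]
      exact div_lt_div_of_pos_right (by norm_num) hε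
    obtain ⟨b1, b2, b3⟩ := hball h1 (inv_ne_zero (norm_pos_iff.1 ht0))
    simp only [hq, inv_inv] at b1 b2 b3
    have c1 := le_max_left C C'
    have c2 := le_max_right C C'
    have c3 := hlog t⁻¹
    rw [norm_inv, Real.log_inv] at c3
    have c4 : Real.log ‖t‖ = -(2 * Real.log ‖q t⁻¹‖) := by linarith
    rw [hu t _ b3, c4]
    exact max_le (by linarith) (by linarith)

theorem Core_ns (hρ : 2 ^ 22 ≤ ρ) (g : κ ≃ Mb (eP ρ)) (F : Fam κ) (hD : F.D = 1 ∨ ¬IsSquare F.D)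
    {t₀ δ₀ : ℂ} (h0 : Rt F.D t₀ δ₀) (hδ : δ₀ ≠ 0) (hdd : ∀ i j, i ≠ j → (F.dd i j).eval t₀ ≠ 0)
    (hΔ : Delta g (F.z t₀ δ₀) (F.z t₀ (-δ₀)) ≠ 0) (i j k l : κ) :
    derivative (F.dd i j ^ 2) * F.dd k l ^ 2 = F.dd i j ^ 2 * derivative (F.dd k l ^ 2) := by
  have hρ1 : 1 ≤ ρ := le_trans (by norm_num) hρ
  obtain ⟨Z, πz, πw, hG⟩ := gen g F hD h0 hδ hdd hΔ
  have hD0 : F.D ≠ 0 := fun e => hδ (by simpa [e] using h0.1)
  have hr : rk ρ πz πw ≤ 0 := not_lt.1 fun hr => Core_false hρ hG hD0 hr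
  rw [← sub_eq_zero]
  refine Polynomial.eq_zero_of_infinite_isRoot _ (Z.finite_toSet.infinite_compl.mono fun t ht => ?_)
  obtain ⟨δ, h⟩ := Core_ex F.D t
  exact rk_zero hρ1 (card_kappa hρ1 g) g F hr h.1 (hG t ht δ h).1 (hG t ht δ h).2 i j k l

theorem core (hρ : 2 ^ 22 ≤ ρ) (g : κ ≃ Mb (eP ρ)) (F : Fam κ) {t₀ δ₀ : ℂ}
    (h0 : δ₀ ^ 2 = F.D.eval t₀) (hδ : δ₀ ≠ 0) (hdd : ∀ i j, i ≠ j → (F.dd i j).eval t₀ ≠ 0)
    (hΔ : Delta g (F.z t₀ δ₀) (F.z t₀ (-δ₀)) ≠ 0) (i j k l : κ) (hkl : k ≠ l) :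
    F.dd i j ^ 2 * C ((F.dd k l ^ 2).eval t₀) = F.dd k l ^ 2 * C ((F.dd i j ^ 2).eval t₀) := by
  refine prop_of_wronskian ?_ (by simpa using hdd k l hkl)
  by_cases hs : IsSquare F.D
  · obtain ⟨G, hG, hG0⟩ : ∃ G : ℂ[X], F.D = G ^ 2 ∧ G.eval t₀ = δ₀ := by
      obtain ⟨G, hG⟩ := hs
      have : G.eval t₀ ^ 2 = δ₀ ^ 2 := by rw [h0, hG]; simp [sq]
      rcases sq_eq_sq_iff_eq_or_eq_neg.1 this with e | e
      · exact ⟨G, by rw [hG, sq], e⟩
      · exact ⟨-G, by rw [hG]; ring, by simp [e]⟩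
    let F' : Fam κ := ⟨F.x, fun i => F.η i * G, 1, F.dd, fun i j => by
      rw [← F.ident i j, hG]; ring⟩
    have e1 : F'.z t₀ 1 = F.z t₀ δ₀ := by
      funext i; simp [Fam.z, F', hG0]
    have e2 : F'.z t₀ (-1) = F.z t₀ (-δ₀) := by
      funext i; simp [Fam.z, F', hG0]
    exact Core_ns hρ g F' (Or.inl rfl) (t₀ := t₀) (δ₀ := 1) ⟨by simp [F'], fun _ => rfl⟩
      one_ne_zero hdd (by rw [e1, e2]; exact hΔ) i j k l
  · exact Core_ns hρ g F (Or.inr hs) ⟨h0, fun e => absurd (e ▸ IsSquare.one) hs⟩ hδ hdd hΔ i j k l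

end Pool.Agent.P.MP_a62d3c_co.FF
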