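import Pool.Agent.P.MP_a62d3c_co.FF.Bd0

namespace Pool.Agent.P.MP_a62d3c_co.FF

open Filter Topology Polynomial MeasureTheory Asymptotics
open scoped ComplexConjugate Matrix ComplexOrder

theorem Root_an (P : ℂ[X]) {t : ℂ → ℂ} {a : ℂ} (ht : AnalyticAt ℂ t a) :
    AnalyticAt ℂ (fun s => P.eval (t s)) a := by
  induction P using Polynomial.induction_on' with
  | add p q hp hq =>
    simp only [eval_add]
    exact hp.add hq
  | monomial n c =>
    simp only [eval_monomial]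
    exact analyticAt_const.mul (ht.pow n)

theorem Root_sq : Tendsto (fun s : ℂ => s ^ 2) L0 (𝓝 0) := by
  have h : Tendsto (fun s : ℂ => s ^ 2) (𝓝 0) (𝓝 (0 ^ 2)) := (continuous_pow 2).tendsto 0
  rw [zero_pow two_ne_zero] at h
  exact h.mono_left nhdsWithin_le_nhds

theorem Root_an_sq {g : ℂ → ℂ} (hg : AnalyticAt ℂ g 0) :
    AnalyticAt ℂ (fun s : ℂ => g (s ^ 2)) 0 := by
  have h1 : AnalyticAt ℂ (fun s : ℂ => s ^ 2) 0 := analyticAt_id.pow 2
  have h2 : AnalyticAt ℂ g ((fun s : ℂ => s ^ 2) 0) := by simpa using hg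
  exact AnalyticAt.comp (f := fun s : ℂ => s ^ 2) h2 h1

/-- `δ t = δ₀ * exp (log (h t / h t₀) / 2)` -/
theorem sqrt_loc {h : ℂ → ℂ} {t₀ δ₀ : ℂ} (ha : AnalyticAt ℂ h t₀) (h0 : δ₀ ^ 2 = h t₀)
    (hδ : δ₀ ≠ 0) :
    ∃ δ : ℂ → ℂ, AnalyticAt ℂ δ t₀ ∧ δ t₀ = δ₀ ∧ ∀ᶠ t in 𝓝 t₀, δ t ^ 2 = h t := by
  have hh : h t₀ ≠ 0 := by
    rw [← h0]
    exact pow_ne_zero 2 hδ
  have h1 : AnalyticAt ℂ (fun t => h t / h t₀) t₀ := ha.div_const
  have h2 : AnalyticAt ℂ (fun t => Complex.log (h t / h t₀)) t₀ := by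
    refine h1.clog ?_
    rw [div_self hh]
    exact Complex.one_mem_slitPlane
  refine ⟨fun t => δ₀ * Complex.exp (Complex.log (h t / h t₀) / 2), ?_, ?_, ?_⟩
  · exact analyticAt_const.mul h2.div_const.cexp
  · simp [div_self hh]
  · filter_upwards [ha.continuousAt.eventually_ne hh] with t ht
    rw [mul_pow, ← Complex.exp_nat_mul, h0]
    have : ((2 : ℕ) : ℂ) * (Complex.log (h t / h t₀) / 2) = Complex.log (h t / h t₀) := by
      push_cast
      ring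
    rw [this, Complex.exp_log (div_ne_zero ht hh)]
    field_simp

theorem Root_sqrt (P : ℂ[X]) (v : ℂ) (hv : P.eval v ≠ 0) :
    ∃ g : ℂ → ℂ, AnalyticAt ℂ g 0 ∧ ∀ᶠ s in 𝓝 (0 : ℂ), g s ^ 2 = P.eval (v + s) := by
  obtain ⟨δ₀, h0⟩ := IsAlgClosed.exists_pow_nat_eq (P.eval v) (two_pos (α := ℕ))
  have hδ : δ₀ ≠ 0 := by
    rintro rfl
    exact hv (by rw [← h0]; simp)
  have ha : AnalyticAt ℂ (fun s : ℂ => P.eval (v + s)) 0 :=
    Root_an P (analyticAt_const.add analyticAt_id)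
  obtain ⟨g, hg, -, h⟩ := sqrt_loc ha (by simpa using h0) hδ
  exact ⟨g, hg, h⟩

theorem root_loc {D : ℂ[X]} {t₀ δ₀ : ℂ} (h : Rt D t₀ δ₀) (hδ : δ₀ ≠ 0) :
    ∃ δ : ℂ → ℂ, AnalyticAt ℂ δ t₀ ∧ δ t₀ = δ₀ ∧ ∀ᶠ t in 𝓝 t₀, Rt D t (δ t) := by
  by_cases h1 : D = 1
  · refine ⟨fun _ => 1, analyticAt_const, (h.2 h1).symm, Eventually.of_forall fun t => ?_⟩
    exact ⟨by simp [h1], fun _ => rfl⟩
  · obtain ⟨δ, ha, h0, he⟩ := sqrt_loc (Root_an D (analyticAt_id (z := t₀))) h.1 hδ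
    exact ⟨δ, ha, h0, he.mono fun t ht => ⟨ht, fun e => absurd e h1⟩⟩

/-- `D = (X - v) ^ k D₁` with `D₁ v ≠ 0` (`exists_eq_pow_rootMultiplicity_mul_and_not_dvd`);
`k` even: `δ = s ^ (k / 2) √D₁(v + s)`; `k` odd: `δ = s ^ k √D₁(v + s²)`. For `D = 1` take `δ = 1`. -/
theorem root_fin {D : ℂ[X]} (hD : D ≠ 0) (v : ℂ) :
    (∃ δ : ℂ → ℂ, MeromorphicAt δ 0 ∧ ∀ᶠ s in L0, Rt D (v + s) (δ s)) ∨
      ∃ δ : ℂ → ℂ, MeromorphicAt δ 0 ∧
        ∀ᶠ s in L0, Rt D (v + s ^ 2) (δ s) ∧ Rt D (v + s ^ 2) (-δ s) ∧ δ (-s) = -δ s := by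
  by_cases h1 : D = 1
  · refine Or.inl ⟨fun _ => 1, analyticAt_const.meromorphicAt, Eventually.of_forall fun t => ?_⟩
    exact ⟨by simp [h1], fun _ => rfl⟩
  obtain ⟨q, hq, hnd⟩ := exists_eq_pow_rootMultiplicity_mul_and_not_dvd D hD v
  have hv : q.eval v ≠ 0 := fun e => hnd (dvd_iff_isRoot.2 e)
  obtain ⟨g, hg, he⟩ := Root_sqrt q v hv
  have hev : ∀ u : ℂ, D.eval (v + u) = u ^ rootMultiplicity v D * q.eval (v + u) := by
    intro u
    conv_lhs => rw [hq]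
    simp
  rcases Nat.even_or_odd (rootMultiplicity v D) with ⟨m, hm⟩ | hodd
  · refine Or.inl ⟨fun s => s ^ m * g s, ((analyticAt_id.pow m).mul hg).meromorphicAt, ?_⟩
    filter_upwards [he.filter_mono nhdsWithin_le_nhds] with s hs
    refine ⟨?_, fun e => absurd e h1⟩
    rw [hev, hm, mul_pow, hs]
    ring
  · refine Or.inr ⟨fun s => s ^ rootMultiplicity v D * g (s ^ 2),
      ((analyticAt_id.pow _).mul (Root_an_sq hg)).meromorphicAt, ?_⟩
    filter_upwards [Root_sq.eventually he] with s hs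
    have h2 : (s ^ rootMultiplicity v D * g (s ^ 2)) ^ 2 = D.eval (v + s ^ 2) := by
      rw [hev, mul_pow, hs]
      ring
    refine ⟨⟨h2, fun e => absurd e h1⟩, ⟨by rw [neg_sq]; exact h2, fun e => absurd e h1⟩, ?_⟩
    rw [hodd.neg_pow, neg_sq]
    ring

/-- `D (s⁻²) = s ^ (-2 n) (reverse D) (s²)`, `n = natDegree D` (`Polynomial.eval₂_reverse_mul_pow`) -/
theorem root_inf {D : ℂ[X]} (hD : D ≠ 0) :
    ∃ δ : ℂ → ℂ, MeromorphicAt δ 0 ∧ ∀ᶠ s in L0, Rt D (s ^ 2)⁻¹ (δ s) := by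
  by_cases h1 : D = 1
  · refine ⟨fun _ => 1, analyticAt_const.meromorphicAt, Eventually.of_forall fun t => ?_⟩
    exact ⟨by simp [h1], fun _ => rfl⟩
  have hv : D.reverse.eval 0 ≠ 0 := by
    rw [← coeff_zero_eq_eval_zero, coeff_zero_reverse]
    exact leadingCoeff_ne_zero.2 hD
  obtain ⟨g, hg, he⟩ := Root_sqrt D.reverse 0 hv
  refine ⟨fun s => s⁻¹ ^ D.natDegree * g (s ^ 2), ?_, ?_⟩
  · exact ((MeromorphicAt.id 0).inv.pow _).mul (Root_an_sq hg).meromorphicAt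
  filter_upwards [Root_sq.eventually he, L0_ne] with s hs h0
  refine ⟨?_, fun e => absurd e h1⟩
  have hx : (s ^ 2)⁻¹ ≠ 0 := inv_ne_zero (pow_ne_zero 2 h0)
  let _ : Invertible (s ^ 2)⁻¹ := invertibleOfNonzero hx
  have h2 := eval₂_reverse_mul_pow (RingHom.id ℂ) (s ^ 2)⁻¹ D
  rw [invOf_eq_inv, inv_inv, eval₂_id, eval₂_id] at h2
  rw [← h2, mul_pow, hs, zero_add]
  ring

theorem mero_eval (P : ℂ[X]) {t : ℂ → ℂ} (ht : MeromorphicAt t 0) :
    MeromorphicAt (fun s => P.eval (t s)) 0 := by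
  induction P using Polynomial.induction_on' with
  | add p q hp hq =>
    simp only [eval_add]
    exact hp.add hq
  | monomial n c =>
    simp only [eval_monomial]
    exact (MeromorphicAt.const c 0).mul (ht.pow n)

variable {κ : Type}

theorem Fam.mero (F : Fam κ) {t δ : ℂ → ℂ} (ht : MeromorphicAt t 0) (hδ : MeromorphicAt δ 0)
    (i : κ) : MeromorphicAt (fun s => F.z (t s) (δ s) i) 0 :=
  (mero_eval (F.x i) ht).add ((mero_eval (F.η i) ht).mul hδ)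

theorem Fam.analytic (F : Fam κ) {δ : ℂ → ℂ} {t₀ : ℂ} (hδ : AnalyticAt ℂ δ t₀) (i : κ) :
    AnalyticAt ℂ (fun t => F.z t (δ t) i) t₀ :=
  (Root_an (F.x i) analyticAt_id).add ((Root_an (F.η i) analyticAt_id).mul hδ)

theorem Fam.prod_eq (F : Fam κ) {t δ : ℂ} (h : δ ^ 2 = F.D.eval t) (i j : κ) :
    (F.z t δ i - F.z t δ j) * (F.z t (-δ) i - F.z t (-δ) j) = (F.dd i j).eval t ^ 2 := by
  have h1 := congrArg (eval t) (F.ident i j)
  simp only [eval_sub, eval_mul, eval_pow] at h1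
  unfold Fam.z
  linear_combination h1 - ((F.η i).eval t - (F.η j).eval t) ^ 2 * h

/-- differentiate `δ² = D (t)` -/
theorem Fam.dz_eq (F : Fam κ) {t δ : ℂ → ℂ} {s : ℂ} (ht : DifferentiableAt ℂ t s)
    (hδ : DifferentiableAt ℂ δ s) (h : ∀ᶠ u in 𝓝 s, δ u ^ 2 = F.D.eval (t u)) (h0 : δ s ≠ 0) :
    dz (fun u => F.z (t u) (δ u)) s = deriv t s • F.τ (t s) (δ s) := by
  have hP : ∀ P : ℂ[X], HasDerivAt (fun u => P.eval (t u))
      ((derivative P).eval (t s) * deriv t s) s := fun P =>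
    (P.hasDerivAt (t s)).comp s ht.hasDerivAt
  have h1 : HasDerivAt (fun u => δ u ^ 2) (2 * δ s * deriv δ s) s := by
    have := hδ.hasDerivAt.fun_pow 2
    simpa using this
  have h2 : 2 * δ s * deriv δ s = (derivative F.D).eval (t s) * deriv t s :=
    h1.unique ((hP F.D).congr_of_eventuallyEq h)
  have h3 : deriv δ s = (derivative F.D).eval (t s) * deriv t s / (2 * δ s) := by
    rw [← h2]
    field_simp
  funext j
  have h4 := ((hP (F.x j)).add ((hP (F.η j)).mul hδ.hasDerivAt)).deriv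
  have h5 : dz (fun u => F.z (t u) (δ u)) s j = _ := h4
  rw [h5, h3]
  simp only [Pi.smul_apply, smul_eq_mul, Fam.τ]
  ring

/-- derivative of `Fam.ident`, evaluated on the curve -/
theorem Fam.deriv_eq (F : Fam κ) {t δ : ℂ} (h : δ ^ 2 = F.D.eval t) (h0 : δ ≠ 0) (i j : κ) :
    (F.τ t δ i - F.τ t δ j) * (F.z t (-δ) i - F.z t (-δ) j) +
      (F.z t δ i - F.z t δ j) * (F.τ t (-δ) i - F.τ t (-δ) j) =
        (derivative (F.dd i j ^ 2)).eval t := by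
  rw [← F.ident i j]
  simp only [derivative_sub, derivative_mul, derivative_sq, eval_sub, eval_mul, eval_add, eval_pow,
    eval_C]
  unfold Fam.z Fam.τ
  rw [← h]
  field_simp
  ring

end Pool.Agent.P.MP_a62d3c_co.FF
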