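import Pool.Agent.P.MP_a62d3c_co.FF.Defs

namespace Pool.Agent.P.MP_a62d3c_co.FF

open Filter Topology Polynomial MeasureTheory Asymptotics
open scoped ComplexConjugate Matrix ComplexOrder

/-! Linear algebra of pivots (paper sections 2 and 5, PL). -/

variable {p q : ℕ} {Θ : Matrix (Fin p) (Fin q) ℂ} {π : Piv p q}

theorem blk_transpose : blk Θᵀ π.swap = (blk Θ π)ᵀ := rfl

theorem Valid.transpose (h : Valid Θ π) : Valid Θᵀ π.swap := by
  refine ⟨?_, ?_⟩
  · have : (blk Θᵀ π.swap).det = (blk Θ π).det := Matrix.det_transpose (blk Θ π)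
    rw [this]; exact h.1
  · have h2 := congrArg Matrix.transpose h.2
    rw [Matrix.transpose_mul, Matrix.transpose_mul, Matrix.transpose_nonsing_inv,
      ← Matrix.mul_assoc] at h2
    exact h2

theorem Piv_sel_mul {K : Type} (f : K → Fin p) (Θ : Matrix (Fin p) (Fin q) ℂ) :
    (1 : Matrix (Fin p) (Fin p) ℂ).submatrix f id * Θ = Θ.submatrix f id := by
  ext a b
  simp [Matrix.mul_apply, Matrix.one_apply]

theorem Valid.kerL_mul (h : Valid Θ π) : kerL Θ π * Θ = 0 := by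
  unfold kerL
  rw [Matrix.sub_mul, Matrix.mul_assoc _ _ Θ, Piv_sel_mul, Piv_sel_mul, sub_eq_zero]
  ext a b
  have h2 := congrFun (congrFun h.2 a.1) b
  simpa [Matrix.mul_apply] using h2

/-- the columns of `kerL` outside the pivot form the identity -/
theorem kerL_mul_sel (Θ : Matrix (Fin p) (Fin q) ℂ) (π : Piv p q) :
    kerL Θ π * (1 : Matrix (Fin p) (Fin p) ℂ).submatrix id (Subtype.val : π.K → Fin p) = 1 := by
  unfold kerL
  have h1 : (1 : Matrix (Fin p) (Fin p) ℂ).submatrix (Subtype.val : π.K → Fin p) id *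
      (1 : Matrix (Fin p) (Fin p) ℂ).submatrix id (Subtype.val : π.K → Fin p) = 1 := by
    ext a b
    simp [Matrix.mul_apply, Matrix.one_apply, Subtype.ext_iff]
  have h2 : (1 : Matrix (Fin p) (Fin p) ℂ).submatrix π.ι id *
      (1 : Matrix (Fin p) (Fin p) ℂ).submatrix id (Subtype.val : π.K → Fin p) = 0 := by
    ext a b
    have : π.ι a ≠ b.1 := fun e => b.2 ⟨a, e⟩
    simp [Matrix.mul_apply, Matrix.one_apply, this]
  rw [Matrix.sub_mul, Matrix.mul_assoc _ _ (Matrix.submatrix 1 id _), h1, h2, Matrix.mul_zero,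
    sub_zero]

theorem posDef_of_right_inv {K : Type} [Fintype K] [DecidableEq K] {A : Matrix K (Fin p) ℂ}
    {R : Matrix (Fin p) K ℂ} (hR : A * R = 1) {G : Matrix (Fin p) (Fin p) ℂ} (hG : G.PosDef) :
    (A * G * Aᴴ).PosDef := by
  refine hG.mul_mul_conjTranspose_same ?_
  intro x y hxy
  have h1 : Matrix.vecMul (Matrix.vecMul x A) R = Matrix.vecMul (Matrix.vecMul y A) R :=
    congrArg (fun v => Matrix.vecMul v R) hxy
  rwa [Matrix.vecMul_vecMul, Matrix.vecMul_vecMul, hR, Matrix.vecMul_one,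
    Matrix.vecMul_one] at h1

theorem gdet_kerL_pos {G : Matrix (Fin p) (Fin p) ℂ} (hG : G.PosDef) :
    0 < gdet (kerL Θ π) G := by
  have h := (posDef_of_right_inv (kerL_mul_sel Θ π) hG).det_pos
  exact (Complex.lt_def.1 h).1

theorem phi_pos {G : Matrix (Fin p) (Fin p) ℂ} {G' : Matrix (Fin q) (Fin q) ℂ} (hG : G.PosDef)
    (hG' : G'.PosDef) (h : Valid Θ π) : 0 < phi G G' Θ π := by
  unfold phi
  exact mul_pos (mul_pos (gdet_kerL_pos hG) (gdet_kerL_pos hG'))
    (pow_pos (norm_pos_iff.2 h.1) 2)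

theorem Piv_blk_smul (c : ℂ) : blk (c • Θ) π = c • blk Θ π := rfl

theorem Piv_inv_smul {n : ℕ} {c : ℂ} (hc : c ≠ 0) (B : Matrix (Fin n) (Fin n) ℂ) :
    (c • B)⁻¹ = c⁻¹ • B⁻¹ := by
  by_cases hB : B.det = 0
  · have h1 : ¬IsUnit B.det := by simp [hB]
    have h2 : ¬IsUnit (c • B).det := by simp [Matrix.det_smul, hB]
    rw [Matrix.nonsing_inv_apply_not_isUnit _ h1, Matrix.nonsing_inv_apply_not_isUnit _ h2,
      smul_zero]
  · apply Matrix.inv_eq_left_inv
    rw [Matrix.smul_mul, Matrix.mul_smul, smul_smul, inv_mul_cancel₀ hc, one_smul,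
      Matrix.nonsing_inv_mul _ (Ne.isUnit hB)]

theorem Piv_sub_smul {K L : Type} (c : ℂ) (f : K → Fin p) (g : L → Fin q) :
    (c • Θ).submatrix f g = c • Θ.submatrix f g := rfl

theorem valid_smul {c : ℂ} (hc : c ≠ 0) : Valid (c • Θ) π ↔ Valid Θ π := by
  unfold Valid
  have h0 : c • Θ.submatrix id π.ι' * c⁻¹ • (blk Θ π)⁻¹ = Θ.submatrix id π.ι' * (blk Θ π)⁻¹ := by
    rw [Matrix.smul_mul, Matrix.mul_smul, smul_smul, mul_inv_cancel₀ hc, one_smul]
  rw [Piv_blk_smul, Piv_inv_smul hc, Piv_sub_smul, Piv_sub_smul, Matrix.det_smul, h0,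
    Matrix.mul_smul]
  rw [(smul_right_injective (Matrix (Fin p) (Fin q) ℂ) hc).eq_iff]
  simp [hc]

theorem Piv_kerL_smul {c : ℂ} (hc : c ≠ 0) : kerL (c • Θ) π = kerL Θ π := by
  unfold kerL
  rw [Piv_blk_smul, Piv_inv_smul hc, Piv_sub_smul, Matrix.smul_mul, Matrix.mul_smul, smul_smul,
    mul_inv_cancel₀ hc, one_smul]

theorem phi_smul {c : ℂ} (hc : c ≠ 0) (G : Matrix (Fin p) (Fin p) ℂ)
    (G' : Matrix (Fin q) (Fin q) ℂ) : phi G G' (c • Θ) π = ‖c‖ ^ (2 * π.r) * phi G G' Θ π := by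
  unfold phi
  rw [Matrix.transpose_smul, Piv_kerL_smul hc, Piv_kerL_smul hc, Piv_blk_smul, Matrix.det_smul,
    norm_mul, norm_pow, Fintype.card_fin]
  ring

theorem Valid.eq_zero (h : Valid Θ π) (hr : π.r = 0) : Θ = 0 := by
  haveI : IsEmpty (Fin π.r) := by rw [hr]; infer_instance
  rw [h.2]
  ext a b
  simp [Matrix.mul_apply]

theorem Piv.r_le (π : Piv p q) : π.r ≤ p := by
  simpa using Fintype.card_le_of_embedding π.ι

/-- add one element to an embedding -/
def Piv_ext {r n : ℕ} (f : Fin r ↪ Fin n) (a : Fin n) (ha : a ∉ Set.range f) :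
    Fin (r + 1) ↪ Fin n :=
  (finSumFinEquiv (m := r) (n := 1)).symm.toEmbedding.trans
    ⟨Sum.elim f fun _ => a, by
      rintro (i | i) (j | j) h
      · exact congrArg Sum.inl (f.injective h)
      · exact absurd ⟨i, h⟩ ha
      · exact absurd ⟨j, h.symm⟩ ha
      · exact congrArg Sum.inr (Subsingleton.elim i j)⟩

theorem Piv_border (Θ : Matrix (Fin p) (Fin q) ℂ) (π : Piv p q) (hB : (blk Θ π).det ≠ 0)
    (a : Fin p) (ha : a ∉ Set.range π.ι) (b : Fin q) (hb : b ∉ Set.range π.ι') :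
    (blk Θ ⟨π.r + 1, Piv_ext π.ι a ha, Piv_ext π.ι' b hb⟩).det =
      (blk Θ π).det *
        (Θ a b - (Θ.submatrix id π.ι' * (blk Θ π)⁻¹ * Θ.submatrix π.ι id) a b) := by
  have h1 : blk Θ ⟨π.r + 1, Piv_ext π.ι a ha, Piv_ext π.ι' b hb⟩ =
      (Matrix.fromBlocks (blk Θ π) (Θ.submatrix π.ι fun _ : Fin 1 => b)
        (Θ.submatrix (fun _ : Fin 1 => a) π.ι')
        (Θ.submatrix (fun _ : Fin 1 => a) fun _ : Fin 1 => b)).submatrix
        (finSumFinEquiv (m := π.r) (n := 1)).symm (finSumFinEquiv (m := π.r) (n := 1)).symm := by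
    ext i j
    simp only [blk, Piv_ext, Matrix.submatrix_apply, Function.Embedding.trans_apply,
      Equiv.coe_toEmbedding, Function.Embedding.coeFn_mk]
    rcases (finSumFinEquiv (m := π.r) (n := 1)).symm i with i' | i' <;>
      rcases (finSumFinEquiv (m := π.r) (n := 1)).symm j with j' | j' <;> rfl
  have h2 := Matrix.det_submatrix_equiv_self (finSumFinEquiv (m := π.r) (n := 1)).symm
    (Matrix.fromBlocks (blk Θ π) (Θ.submatrix π.ι fun _ : Fin 1 => b)
        (Θ.submatrix (fun _ : Fin 1 => a) π.ι')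
        (Θ.submatrix (fun _ : Fin 1 => a) fun _ : Fin 1 => b))
  letI : Invertible (blk Θ π) := Matrix.invertibleOfIsUnitDet _ (Ne.isUnit hB)
  rw [Matrix.det_fromBlocks₁₁, Matrix.invOf_eq_nonsing_inv, Matrix.det_fin_one] at h2
  refine (congrArg Matrix.det h1).trans (h2.trans ?_)
  simp [Matrix.mul_apply]

theorem Piv_valid_of_border (Θ : Matrix (Fin p) (Fin q) ℂ) (π : Piv p q)
    (hB : (blk Θ π).det ≠ 0)
    (hz : ∀ π' : Piv p q, π'.r = π.r + 1 → (blk Θ π').det = 0) : Valid Θ π := by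
  refine ⟨hB, ?_⟩
  ext a b
  by_cases ha : a ∈ Set.range π.ι
  · obtain ⟨i, rfl⟩ := ha
    have h1 : (blk Θ π * (blk Θ π)⁻¹ * Θ.submatrix π.ι id) i b = Θ (π.ι i) b := by
      rw [Matrix.mul_nonsing_inv _ (Ne.isUnit hB), Matrix.one_mul]; rfl
    rw [← h1]
    simp [Matrix.mul_apply, blk]
  by_cases hb : b ∈ Set.range π.ι'
  · obtain ⟨j, rfl⟩ := hb
    have h1 : (Θ.submatrix id π.ι' * ((blk Θ π)⁻¹ * blk Θ π)) a j = Θ a (π.ι' j) := by
      rw [Matrix.nonsing_inv_mul _ (Ne.isUnit hB), Matrix.mul_one]; rfl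
    rw [← h1, ← Matrix.mul_assoc]
    simp [Matrix.mul_apply, blk]
  have h1 := Piv_border Θ π hB a ha b hb
  rw [hz _ rfl] at h1
  exact sub_eq_zero.1 ((mul_eq_zero.1 h1.symm).resolve_left hB)

/-- choose a nonvanishing minor of maximal size over the family; all bordered minors vanish
(`Matrix.det_fromBlocks₁₁` or the Schur complement of a bordered minor; if the new row or column is
already chosen the identity is direct) -/
theorem exists_piv {Y : Type} [Nonempty Y] (T : Y → Matrix (Fin p) (Fin q) ℂ) :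
    ∃ π : Piv p q, (∃ y, (blk (T y) π).det ≠ 0) ∧ ∀ y, (blk (T y) π).det ≠ 0 → Valid (T y) π := by
  classical
  let P : ℕ → Prop := fun r => ∃ π : Piv p q, π.r = r ∧ ∃ y, (blk (T y) π).det ≠ 0
  have h0 : P 0 := by
    refine ⟨⟨0, Function.Embedding.ofIsEmpty, Function.Embedding.ofIsEmpty⟩, rfl,
      Classical.arbitrary Y, ?_⟩
    have : (blk (T (Classical.arbitrary Y))
        ⟨0, Function.Embedding.ofIsEmpty, Function.Embedding.ofIsEmpty⟩).det = 1 :=
      Matrix.det_fin_zero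
    rw [this]; exact one_ne_zero
  obtain ⟨π, hπ, hy⟩ : P (Nat.findGreatest P p) := Nat.findGreatest_spec (Nat.zero_le p) h0
  refine ⟨π, hy, fun y hB => Piv_valid_of_border _ π hB fun π' h' => ?_⟩
  by_contra hne
  have hle : π'.r ≤ Nat.findGreatest P p := Nat.le_findGreatest π'.r_le ⟨π', rfl, y, hne⟩
  omega

theorem theta_transpose {J : Type} [Fintype J] [DecidableEq J] (z τ : J → ℂ) :
    (theta p q z τ)ᵀ = theta q p z τ := by
  ext a b
  simp [theta, add_comm]

theorem theta_smul {J : Type} [Fintype J] [DecidableEq J] (z τ : J → ℂ) (c : ℂ) :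
    theta p q z (c • τ) = c • theta p q z τ := by
  ext a b
  simp only [theta, hig, Matrix.of_apply, Matrix.smul_apply, Pi.smul_apply, smul_eq_mul,
    Finset.mul_sum]
  exact Finset.sum_congr rfl fun j _ => by ring

end Pool.Agent.P.MP_a62d3c_co.FF
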