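import Pool.Agent.P.MP_a62d3c_co.FF.Reg
import Pool.Agent.P.MP_a62d3c_co.FF.Root
import Pool.Agent.P.MP_a62d3c_co.FF.Piv
import Pool.Agent.P.MP_a62d3c_co.FF.Gm
import Pool.Agent.P.MP_a62d3c_co.FF.Num1

namespace Pool.Agent.P.MP_a62d3c_co.FF

open Filter Topology Polynomial MeasureTheory Asymptotics
open scoped ComplexConjugate Matrix ComplexOrder

variable {κ : Type} [Fintype κ] [DecidableEq κ] {ρ : ℕ}

/-- the polynomial whose roots are the bad parameters -/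
noncomputable def Gen_M (F : Fam κ) : ℂ[X] :=
  F.D * ∏ p ∈ (Finset.univ : Finset κ).offDiag, F.dd p.1 p.2

theorem Gen_D_dvd (F : Fam κ) : F.D ∣ Gen_M F := dvd_mul_right _ _

theorem Gen_dd_dvd (F : Fam κ) {i j : κ} (hij : i ≠ j) : F.dd i j ∣ Gen_M F :=
  dvd_mul_of_dvd_right (Finset.dvd_prod_of_mem (fun p : κ × κ => F.dd p.1 p.2) (a := (i, j))
    (Finset.mem_offDiag.2 ⟨Finset.mem_univ _, Finset.mem_univ _, hij⟩)) _

theorem Gen_ne {P M : ℂ[X]} (h : P ∣ M) {t : ℂ} (hM : M.eval t ≠ 0) : P.eval t ≠ 0 := by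
  obtain ⟨Q, rfl⟩ := h
  rw [eval_mul] at hM
  exact left_ne_zero_of_mul hM

theorem Gen_delta_ne (F : Fam κ) {t δ : ℂ} (h : δ ^ 2 = F.D.eval t) (hM : (Gen_M F).eval t ≠ 0) :
    δ ≠ 0 := by
  rintro rfl
  exact Gen_ne (Gen_D_dvd F) hM (by simpa using h.symm)

theorem Gen_sub_ne (F : Fam κ) {t δ : ℂ} (h : δ ^ 2 = F.D.eval t) (hM : (Gen_M F).eval t ≠ 0)
    {i j : κ} (hij : i ≠ j) : F.z t δ i - F.z t δ j ≠ 0 := by
  have h1 := F.prod_eq h i j
  have h2 := pow_ne_zero 2 (Gen_ne (Gen_dd_dvd F hij) hM)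
  rw [← h1] at h2
  exact left_ne_zero_of_mul h2

theorem Gen_inj (F : Fam κ) {t δ : ℂ} (h : δ ^ 2 = F.D.eval t) (hM : (Gen_M F).eval t ≠ 0) :
    Function.Injective (F.z t δ) := fun _ _ e =>
  by_contra fun hij => Gen_sub_ne F h hM hij (sub_eq_zero.2 e)

theorem Gen_reg_z (F : Fam κ) (M : ℂ[X]) (i : κ) : Reg F.D M fun t δ => F.z t δ i :=
  (reg_poly (F.x i)).add ((reg_poly (F.η i)).mul reg_delta)

theorem Gen_reg_τ (F : Fam κ) (i : κ) : Reg F.D (Gen_M F) fun t δ => F.τ t δ i := by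
  have h1 : Reg F.D (Gen_M F) fun t δ => (derivative (F.x i)).eval t +
      (derivative (F.η i)).eval t * δ + (F.η i).eval t * (derivative F.D).eval t *
        ((1 / 2 : ℂ) * (δ * (F.D.eval t)⁻¹)) :=
    ((reg_poly _).add ((reg_poly _).mul reg_delta)).add
      (((reg_poly _).mul (reg_poly _)).mul ((reg_const _).mul
        (reg_delta.mul (reg_inv (Gen_D_dvd F)))))
  refine h1.congr fun t δ h hM => ?_
  have h0 := Gen_delta_ne F h hM
  unfold Fam.τ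
  rw [← h]
  field_simp

theorem Gen_reg_inv (F : Fam κ) {i j : κ} (hij : i ≠ j) :
    Reg F.D (Gen_M F) fun t δ => (F.z t δ i - F.z t δ j)⁻¹ := by
  have h1 : Reg F.D (Gen_M F) fun t δ => (F.z t (-δ) i + -F.z t (-δ) j) *
      (((F.dd i j).eval t)⁻¹ * ((F.dd i j).eval t)⁻¹) :=
    ((Gen_reg_z F _ i).flip.add (Gen_reg_z F _ j).flip.neg).mul
      ((reg_inv (Gen_dd_dvd F hij)).mul (reg_inv (Gen_dd_dvd F hij)))
  refine h1.congr fun t δ h hM => ?_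
  have h2 := F.prod_eq h i j
  have h3 := Gen_ne (Gen_dd_dvd F hij) hM
  refine eq_inv_of_mul_eq_one_right ?_
  rw [← sub_eq_add_neg, ← mul_assoc, h2]
  field_simp

theorem Gen_reg_theta (F : Fam κ) (I : Finset (Option κ)) (p q : ℕ) (a : Fin p) (b : Fin q) :
    Reg F.D (Gen_M F) fun t δ => theta p q (rs I (F.z t δ)) (rs I (F.τ t δ)) a b := by
  have h1 : Reg F.D (Gen_M F) fun t δ => ∑ j : I.eraseNone,
      F.z t δ j.1 ^ ((a : ℕ) + (b : ℕ)) * F.τ t δ j.1 *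
        ∏ i ∈ Finset.univ.erase j, (F.z t δ j.1 - F.z t δ i.1)⁻¹ := by
    refine Reg.sum fun j _ => (((Gen_reg_z F _ j.1).pow _).mul (Gen_reg_τ F j.1)).mul ?_
    exact Reg.prod fun i hi =>
      Gen_reg_inv F fun e => (Finset.ne_of_mem_erase hi) (Subtype.ext e).symm
  refine h1.congr fun t δ _ _ => ?_
  simp only [theta, Matrix.of_apply, hig, dpr, rs, eval_pow, eval_X, Finset.prod_inv_distrib,
    div_eq_mul_inv]

theorem Gen_piv {D M : ℂ[X]} (hD : D = 1 ∨ ¬IsSquare D) {t₀ δ₀ : ℂ} (h0 : Rt D t₀ δ₀)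
    (hM : M.eval t₀ ≠ 0) {p q : ℕ} {T : ℂ → ℂ → Matrix (Fin p) (Fin q) ℂ}
    (hT : ∀ a b, Reg D M fun t δ => T t δ a b) :
    ∃ π : Piv p q, {t | M.eval t ≠ 0 ∧ ∃ δ, Rt D t δ ∧ ¬Valid (T t δ) π}.Finite := by
  have : Nonempty {y : ℂ × ℂ // Rt D y.1 y.2 ∧ M.eval y.1 ≠ 0} := ⟨⟨(t₀, δ₀), h0, hM⟩⟩
  obtain ⟨π, ⟨y, hy⟩, hπ⟩ :=
    exists_piv fun y : {y : ℂ × ℂ // Rt D y.1 y.2 ∧ M.eval y.1 ≠ 0} => T y.1.1 y.1.2
  have h1 : Reg D M fun t δ => (blk (T t δ) π).det := Reg.det fun i j => hT _ _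
  refine ⟨π, (h1.finite hD y.2.1 y.2.2 hy).subset ?_⟩
  rintro t ⟨ht, δ, hδ, hv⟩
  exact ⟨ht, δ, hδ, by_contra fun hne => hv (hπ ⟨(t, δ), hδ, ht⟩ hne)⟩

/-- Paper section 2. `M = D * ∏_{i ≠ j} dd i j`. Where `M t ≠ 0` and `δ² = D t`: `δ ≠ 0`, `z`, `w` are
injective (`Fam.prod_eq`), `(z i - z j)⁻¹ = (w i - w j) (dd i j)⁻¹ (dd i j)⁻¹`, `δ⁻¹ = δ D⁻¹`; so `z`,
`τ`, the entries of `theta`, the minors and `Delta` are `Reg`. Take the pivots from `exists_piv` for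
`Y = {(t, δ) | Rt D t δ ∧ M t ≠ 0}`; `Z` = roots of `M` and the finite sets of `Reg.finite`. -/
theorem gen (g : κ ≃ Mb (eP ρ)) (F : Fam κ) (hD : F.D = 1 ∨ ¬IsSquare F.D) {t₀ δ₀ : ℂ}
    (h0 : Rt F.D t₀ δ₀) (hδ : δ₀ ≠ 0) (hdd : ∀ i j, i ≠ j → (F.dd i j).eval t₀ ≠ 0)
    (hΔ : Delta g (F.z t₀ δ₀) (F.z t₀ (-δ₀)) ≠ 0) :
    ∃ (Z : Finset ℂ) (πz πw : Pivs κ ρ), ∀ t, t ∉ Z → ∀ δ, Rt F.D t δ →
      δ ≠ 0 ∧ Good ρ g πz πw (F.z t δ) (F.τ t δ) (F.z t (-δ)) (F.τ t (-δ)) := by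
  have hM : (Gen_M F).eval t₀ ≠ 0 := by
    unfold Gen_M
    rw [eval_mul, eval_prod, ← h0.1]
    exact mul_ne_zero (pow_ne_zero 2 hδ)
      (Finset.prod_ne_zero_iff.2 fun p hp => hdd _ _ (Finset.mem_offDiag.1 hp).2.2)
  have hM0 : Gen_M F ≠ 0 := fun e => hM (by rw [e, eval_zero])
  choose πz hz using fun I : Finset (Option κ) =>
    Gen_piv hD h0 hM (Gen_reg_theta F I (pP ρ) (qP ρ))
  choose πw hw using fun I : Finset (Option κ) =>
    Gen_piv hD h0 hM (T := fun t δ => theta (pP ρ) (qP ρ) (rs I (F.z t (-δ))) (rs I (F.τ t (-δ))))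
      fun a b => (Gen_reg_theta F I (pP ρ) (qP ρ) a b).flip
  have h1 : Reg F.D (Gen_M F) fun t δ => Delta g (F.z t δ) (F.z t (-δ)) :=
    Reg.det fun i j => ((Gen_reg_z F _ i).pow _).mul ((Gen_reg_z F _ i).flip.pow _)
  have h2 := h1.finite hD h0 hM hΔ
  have h3 := (((finite_setOfPred_isRoot hM0).union h2).union (Set.finite_iUnion hz)).union
    (Set.finite_iUnion hw)
  refine ⟨h3.toFinset, πz, πw, fun t ht δ hR => ?_⟩
  rw [Set.Finite.mem_toFinset] at ht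
  simp only [Set.mem_union, not_or, Set.mem_iUnion, not_exists] at ht
  obtain ⟨⟨⟨a1, a2⟩, a3⟩, a4⟩ := ht
  have hMt : (Gen_M F).eval t ≠ 0 := a1
  have hR' : (-δ) ^ 2 = F.D.eval t := by rw [neg_sq, hR.1]
  refine ⟨Gen_delta_ne F hR.1 hMt, Gen_inj F hR.1 hMt, Gen_inj F hR' hMt,
    fun e => a2 ⟨hMt, δ, hR, e⟩, fun I _ => ⟨?_, ?_⟩⟩
  · exact by_contra fun hv => a3 I ⟨hMt, δ, hR, hv⟩
  · exact by_contra fun hv => a4 I ⟨hMt, δ, hR, hv⟩

/-- If `rk = 0` all ranks vanish (`yC > 0`). Choose `I ∈ II κ ρ` containing `none` and the four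
indices (`Finset.exists_subsuperset_card_eq`); `Valid.eq_zero`, `affine_of_theta`, `Fam.deriv_eq`,
`Fam.prod_eq`. -/
theorem rk_zero (hρ : 1 ≤ ρ) (hκ : Fintype.card κ + 1 = NP ρ) (g : κ ≃ Mb (eP ρ)) (F : Fam κ)
    {πz πw : Pivs κ ρ} (hr : rk ρ πz πw ≤ 0) {t δ : ℂ} (h : δ ^ 2 = F.D.eval t) (hδ : δ ≠ 0)
    (hG : Good ρ g πz πw (F.z t δ) (F.τ t δ) (F.z t (-δ)) (F.τ t (-δ))) (i j k l : κ) :
    (derivative (F.dd i j ^ 2) * F.dd k l ^ 2 - F.dd i j ^ 2 * derivative (F.dd k l ^ 2)).eval t =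
      0 := by
  have hmN : mP ρ ≤ NP ρ := by
    have : ρ ≤ ρ ^ 2 := Nat.le_self_pow two_ne_zero ρ
    simp only [mP, NP]
    omega
  have hy : 0 < yC ρ := by
    unfold yC
    have h1 : (0 : ℝ) < ρ := by exact_mod_cast hρ
    have h2 : (0 : ℝ) < ((NP ρ).choose (mP ρ) : ℝ) := by exact_mod_cast Nat.choose_pos hmN
    positivity
  obtain ⟨I, hI1, -, hI⟩ := Finset.exists_subsuperset_card_eq
    (s := ({none, some i, some j, some k, some l} : Finset (Option κ))) (t := Finset.univ)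
    (n := mP ρ) (Finset.subset_univ _)
    ((Finset.card_le_five).trans (by simp only [mP]; omega))
    (by rw [Finset.card_univ, Fintype.card_option, hκ]; exact hmN)
  have hII : I ∈ II κ ρ := Finset.mem_powersetCard.2 ⟨Finset.subset_univ _, hI⟩
  have hsum : ∑ I ∈ II κ ρ, (((πz I).r : ℝ) + (πw I).r) ≤ 0 := by
    unfold rk at hr
    exact nonpos_of_mul_nonpos_right hr hy |>.trans le_rfl
  have hle := Finset.single_le_sum (f := fun I => ((πz I).r : ℝ) + (πw I).r)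
    (fun I _ => by positivity) hII
  have hz0 : (πz I).r = 0 := by
    have h1 : ((πz I).r : ℝ) ≤ 0 := by
      have : (0 : ℝ) ≤ (πw I).r := Nat.cast_nonneg _
      linarith
    exact Nat.le_zero.1 (by exact_mod_cast h1)
  have hw0 : (πw I).r = 0 := by
    have h1 : ((πw I).r : ℝ) ≤ 0 := by
      have : (0 : ℝ) ≤ (πz I).r := Nat.cast_nonneg _
      linarith
    exact Nat.le_zero.1 (by exact_mod_cast h1)
  obtain ⟨g1, g2, -, g3⟩ := hG
  obtain ⟨v1, v2⟩ := g3 I hII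
  have hc : Fintype.card I.eraseNone = pP ρ + qP ρ + 1 := by
    rw [Fintype.card_coe, Finset.card_eraseNone_of_mem (hI1 (by simp)), hI]
    simp only [mP, pP, qP]
    omega
  have hp : 1 ≤ pP ρ := by simp only [pP]; omega
  have hq : 1 ≤ qP ρ := by simp only [qP]; omega
  obtain ⟨α, β, hα⟩ := affine_of_theta (z := rs I (F.z t δ))
    (fun a b e => Subtype.ext (g1 e)) hp hq hc (v1.eq_zero hz0)
  obtain ⟨α', β', hα'⟩ := affine_of_theta (z := rs I (F.z t (-δ)))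
    (fun a b e => Subtype.ext (g2 e)) hp hq hc (v2.eq_zero hw0)
  have key : ∀ a b, some a ∈ I → some b ∈ I →
      (derivative (F.dd a b ^ 2)).eval t = (α + α') * (F.dd a b).eval t ^ 2 := by
    intro a b ha hb
    have e1 : F.τ t δ a = α * F.z t δ a + β := hα ⟨a, Finset.mem_eraseNone.2 ha⟩
    have e2 : F.τ t δ b = α * F.z t δ b + β := hα ⟨b, Finset.mem_eraseNone.2 hb⟩
    have e3 : F.τ t (-δ) a = α' * F.z t (-δ) a + β' := hα' ⟨a, Finset.mem_eraseNone.2 ha⟩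
    have e4 : F.τ t (-δ) b = α' * F.z t (-δ) b + β' := hα' ⟨b, Finset.mem_eraseNone.2 hb⟩
    rw [← F.deriv_eq h hδ a b, ← F.prod_eq h a b, e1, e2, e3, e4]
    ring
  rw [eval_sub, eval_mul, eval_mul, key i j (hI1 (by simp)) (hI1 (by simp)),
    key k l (hI1 (by simp)) (hI1 (by simp)), eval_pow, eval_pow]
  ring

/-- `R = P - c Q` with `R t₀ = 0` satisfies `R' Q = R Q'`; compare the multiplicities of the root
`t₀` (`Polynomial.derivative_rootMultiplicity_of_root`) -/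
theorem prop_of_wronskian {P Q : ℂ[X]} (h : derivative P * Q = P * derivative Q) {t₀ : ℂ}
    (hQ : Q.eval t₀ ≠ 0) : P * C (Q.eval t₀) = Q * C (P.eval t₀) := by
  by_contra hne
  have hR : P * C (Q.eval t₀) - Q * C (P.eval t₀) ≠ 0 := sub_ne_zero.2 hne
  have hw : derivative (P * C (Q.eval t₀) - Q * C (P.eval t₀)) * Q =
      (P * C (Q.eval t₀) - Q * C (P.eval t₀)) * derivative Q := by
    simp only [derivative_sub, derivative_mul, derivative_C, mul_zero, add_zero]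
    linear_combination C (Q.eval t₀) * h
  have hroot : (P * C (Q.eval t₀) - Q * C (P.eval t₀)).IsRoot t₀ := by
    simp only [IsRoot, eval_sub, eval_mul, eval_C]
    ring
  generalize P * C (Q.eval t₀) - Q * C (P.eval t₀) = R at hR hw hroot
  obtain ⟨S, hS, hS'⟩ := exists_eq_pow_rootMultiplicity_mul_and_not_dvd R hR t₀
  obtain ⟨n, hn⟩ := Nat.exists_eq_succ_of_ne_zero ((rootMultiplicity_pos hR).2 hroot).ne'
  rw [hn] at hS
  have hX : (X - C t₀ : ℂ[X]) ^ n ≠ 0 := pow_ne_zero _ (X_sub_C_ne_zero t₀)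
  have h1 : (((n + 1 : ℕ) : ℂ[X]) * S + (X - C t₀) * derivative S) * Q =
      (X - C t₀) * S * derivative Q := by
    refine mul_left_cancel₀ hX ?_
    rw [hS, derivative_mul, derivative_X_sub_C_pow] at hw
    simp only [Nat.succ_eq_add_one, Nat.add_sub_cancel, map_natCast] at hw
    linear_combination hw
  have h2 := congrArg (eval t₀) h1
  simp only [eval_mul, eval_add, eval_sub, eval_X, eval_C, sub_self, zero_mul, add_zero,
    eval_natCast] at h2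
  have h3 : S.eval t₀ ≠ 0 := fun e => hS' (dvd_iff_isRoot.2 e)
  exact mul_ne_zero (mul_ne_zero (Nat.cast_ne_zero.2 (Nat.succ_ne_zero n)) h3) hQ h2

end Pool.Agent.P.MP_a62d3c_co.FF
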