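import Pool.Agent.P.MP_a62d3c_co.FF.GeoD

namespace Pool.Agent.P.MP_a62d3c_co.FF

open Filter Topology Polynomial MeasureTheory Asymptotics
open scoped ComplexConjugate Matrix ComplexOrder

theorem GeoS_extreme {n : ℕ} {q : Fin n → Pt} {i : Fin n} (h : ∀ j, j ≠ i → q j 1 < q i 1) :
    q i ∈ Set.extremePoints ℝ (convexHull ℝ (Set.range q)) := by
  have hc : Convex ℝ {p : Pt | p 1 < q i 1 ∨ p = q i} := by
    intro p hp p' hp' a b ha hb hab
    rcases ha.eq_or_lt with rfl | ha'
    · rw [zero_add] at hab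
      simpa [hab] using hp'
    rcases hb.eq_or_lt with rfl | hb'
    · rw [add_zero] at hab
      simpa [hab] using hp
    have e : (a • p + b • p') 1 = a * p 1 + b * p' 1 := by simp
    have e' : q i 1 = a * q i 1 + b * q i 1 := by rw [← add_mul, hab, one_mul]
    rcases hp with hp | hp <;> rcases hp' with hp' | hp'
    · exact Or.inl (by rw [e]; nlinarith)
    · exact Or.inl (by rw [e, hp']; nlinarith)
    · exact Or.inl (by rw [e, hp]; nlinarith)
    · exact Or.inr (by rw [hp, hp', ← add_smul, hab, one_smul])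
  have hsub : convexHull ℝ (Set.range q) ⊆ {p : Pt | p 1 < q i 1 ∨ p = q i} := by
    refine convexHull_min ?_ hc
    rintro _ ⟨j, rfl⟩
    by_cases hj : j = i
    · exact Or.inr (by rw [hj])
    · exact Or.inl (h j hj)
  refine mem_extremePoints_iff_left.2 ⟨subset_convexHull _ _ ⟨i, rfl⟩, ?_⟩
  rintro p hp p' hp' ⟨a, b, ha, hb, hab, e⟩
  refine (hsub hp).resolve_left fun h1 => ?_
  have e1 : a * p 1 + b * p' 1 = q i 1 := by rw [← e]; simp
  have e' : q i 1 = a * q i 1 + b * q i 1 := by rw [← add_mul, hab, one_mul]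
  have h2 : p' 1 ≤ q i 1 := by
    rcases hsub hp' with h3 | h3
    · exact h3.le
    · rw [h3]
  nlinarith

theorem GeoS_pow {n : ℕ} {B : ℝ} (hB : 1 ≤ B) {i j : Fin n} (h : i < j) :
    B * B ^ (n - j) ≤ B ^ (n - i) := by
  rw [← pow_succ']
  have h1 : (i : ℕ) < j := h
  have h2 := j.2
  exact pow_le_pow_right₀ hB (by omega)

theorem GeoS_swap (a b c : Pt) : det3 b a c = -det3 a b c := by
  unfold det3
  ring

theorem GeoS_rot (a b c : Pt) : det3 b c a = det3 a b c := by
  unfold det3
  ring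

/-- `q i = (X i, B ^ (n - i))` with `B = max X + 2`; `q 0` is the unique maximiser of the second
coordinate, hence an extreme point of the hull -/
theorem exists_str (n : ℕ) (X : Fin n → ℕ) (hX : Function.Injective X) :
    ∃ q : Fin n → Pt, Function.Injective q ∧
      (∀ i j k, i < j → i < k → X k < X j → 0 < det3 (q k) (q j) (q i)) ∧
      ∀ i : Fin n, (i : ℕ) = 0 → q i ∈ Set.extremePoints ℝ (convexHull ℝ (Set.range q)) := by
  obtain ⟨M, hM⟩ : ∃ M : ℝ, 0 ≤ M ∧ ∀ i, (X i : ℝ) ≤ M :=
    ⟨(Finset.univ.sup X : ℕ), Nat.cast_nonneg _, fun i => by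
      exact_mod_cast Finset.le_sup (f := X) (Finset.mem_univ i)⟩
  have hB : 1 ≤ M + 2 := by linarith [hM.1]
  refine ⟨fun i => !₂[(X i : ℝ), (M + 2) ^ (n - i)], fun i j hij => hX ?_,
    fun i j k hij hik hx => ?_, fun i hi => GeoS_extreme fun j hj => ?_⟩
  · have := congrArg (fun p : Pt => p 0) hij
    simpa using this
  · have e1 := GeoS_pow hB hij
    have e2 := GeoS_pow hB hik
    have e3 : (X k : ℝ) + 1 ≤ X j := by exact_mod_cast hx
    have e4 := hM.2 i
    have e5 := hM.2 k
    have e6 : (0 : ℝ) ≤ X i := Nat.cast_nonneg _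
    have e7 : (0 : ℝ) ≤ X k := Nat.cast_nonneg _
    have e8 : 0 < (M + 2) ^ (n - j) := by positivity
    have e9 : 0 < (M + 2) ^ (n - k) := by positivity
    simp only [det3, Matrix.cons_val_zero, Matrix.cons_val_one]
    generalize (M + 2) ^ (n - i) = yi at *
    generalize (M + 2) ^ (n - j) = yj at *
    generalize (M + 2) ^ (n - k) = yk at *
    have f1 : 0 ≤ yi - yk := by nlinarith [hM.1]
    have f2 : yi - yk ≤ ((X j : ℝ) - X k) * (yi - yk) := by nlinarith
    rcases le_total yj yk with f | f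
    · nlinarith [mul_nonneg (sub_nonneg.2 f) e6, mul_nonneg (sub_nonneg.2 f) (sub_nonneg.2 e5),
        mul_nonneg hM.1 e8.le]
    · nlinarith [mul_nonneg (sub_nonneg.2 f) e7, mul_nonneg (sub_nonneg.2 f) (sub_nonneg.2 e4),
        mul_nonneg hM.1 e9.le]
  · have hij : i < j := by
      have : (j : ℕ) ≠ i := fun h => hj (Fin.ext h)
      rw [Fin.lt_def]
      omega
    have e1 := GeoS_pow hB hij
    have e8 : 0 < (M + 2) ^ (n - j) := by positivity
    simp only [Matrix.cons_val_zero, Matrix.cons_val_one]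
    nlinarith [hM.1]

open Classical in
theorem stretched_of {n : ℕ} {X : Fin n → ℕ} (hX : Function.Injective X) {q : Fin n → Pt}
    (hq : Function.Injective q)
    (h : ∀ i j k, i < j → i < k → X k < X j → 0 < det3 (q k) (q j) (q i))
    (he : ∀ i : Fin n, (i : ℕ) = 0 → q i ∈ Set.extremePoints ℝ (convexHull ℝ (Set.range q))) :
    Stretched (Finset.univ.image q) := by
  have key : ∀ i j k, i < j → i < k → j ≠ k → det3 (q k) (q j) (q i) ≠ 0 := by
    intro i j k hij hik hjk
    rcases lt_or_gt_of_ne (hX.ne hjk) with h1 | h1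
    · rw [GeoS_swap]
      exact neg_ne_zero.2 (h i k j hik hij h1).ne'
    · exact (h i j k hij hik h1).ne'
  have hr : Set.range q = ((Finset.univ.image q : Finset Pt) : Set Pt) := by simp
  refine ⟨fun a ha b hb c hc hab hac hbc => ?_, n, q, hq, hr, hr ▸ he,
    fun i i' j k hi hj hk => ?_⟩
  · obtain ⟨i, -, rfl⟩ := Finset.mem_image.1 ha
    obtain ⟨j, -, rfl⟩ := Finset.mem_image.1 hb
    obtain ⟨k, -, rfl⟩ := Finset.mem_image.1 hc
    have h1 : i ≠ j := fun e => hab (by rw [e])
    have h2 : i ≠ k := fun e => hac (by rw [e])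
    have h3 : j ≠ k := fun e => hbc (by rw [e])
    rw [orient_eq, sign_ne_zero]
    by_cases c1 : i < j ∧ i < k
    · rw [← GeoS_rot]
      exact key i k j c1.2 c1.1 h3.symm
    by_cases c2 : j < i ∧ j < k
    · rw [← GeoS_rot, ← GeoS_rot]
      exact key j i k c2.1 c2.2 h2
    · exact key k j i (by omega) (by omega) h1.symm
  · have hii : i < i' := by
      rw [Fin.lt_def]
      omega
    rw [orient_eq, orient_eq]
    rcases lt_trichotomy (X j) (X k) with h1 | h1 | h1
    · rw [sign_pos (h i k j (hii.trans hk) (hii.trans hj) h1), sign_pos (h i' k j hk hj h1)]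
      decide
    · have e : det3 (q j) (q k) (q i) = 0 := by
        rw [hX h1]
        unfold det3
        ring
      rw [e, sign_zero, zero_mul]
      decide
    · rw [GeoS_swap (q k), GeoS_swap (q k),
        sign_neg (neg_lt_zero.2 (h i j k (hii.trans hj) (hii.trans hk) h1)),
        sign_neg (neg_lt_zero.2 (h i' j k hj hk h1))]
      decide

end Pool.Agent.P.MP_a62d3c_co.FF
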