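import Pool.Agent.P.MP_a62d3c_co.FF.GeoC
import Pool.Agent.P.MP_a62d3c_co.FF.GeoS

namespace Pool.Agent.P.MP_a62d3c_co.FF

open Filter Topology Polynomial MeasureTheory Asymptotics
open scoped ComplexConjugate Matrix ComplexOrder

theorem Geo_cyc (a b c : Pt) : det3 a b c = det3 b c a := by
  unfold det3
  ring

theorem Geo_swap (a b c : Pt) : det3 a b c = -det3 a c b := by
  unfold det3
  ring

theorem Geo_lt {G a b a' b' : ℕ} (hb : b < G) (h : a < a') : a * G + b < a' * G + b' := by
  have h1 : (a + 1) * G ≤ a' * G := Nat.mul_le_mul_right G h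
  have h2 : (a + 1) * G = a * G + G := by ring
  omega

theorem Geo_bd {G a b : ℕ} (ha : a < G) (hb : b < G) : a * G + b < G * G := by
  have := Geo_lt (b' := 0) hb ha
  omega

theorem Geo_inj {G a b a' b' : ℕ} (hb : b < G) (hb' : b' < G) (h : a * G + b = a' * G + b') :
    a = a' ∧ b = b' := by
  rcases lt_trichotomy a a' with h1 | h1 | h1
  · have := Geo_lt (b' := b') hb h1
    omega
  · subst h1
    omega
  · have := Geo_lt (b' := b) hb' h1
    omega

/-- the abscissa of the point with index `i` -/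
def Geo_X (G : ℕ) (i : Fin (G * G + 2)) : ℕ :=
  if (i : ℕ) = 0 then G * G + 1 else if (i : ℕ) = G * G + 1 then 0 else
    ((G * G - i) % G) * G + (G * G - i) / G + 1

/-- the index of a grid point -/
def Geo_ix (G : ℕ) (α β : Fin G) : Fin (G * G + 2) :=
  ⟨G * G - ((β : ℕ) * G + α), by omega⟩

/-- the index of the top point -/
def Geo_t (G : ℕ) : Fin (G * G + 2) := ⟨0, by omega⟩

/-- the index of the bottom point -/
def Geo_o (G : ℕ) : Fin (G * G + 2) := ⟨G * G + 1, by omega⟩

theorem Geo_X_o (G : ℕ) : Geo_X G (Geo_o G) = 0 := by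
  unfold Geo_X Geo_o
  simp

theorem Geo_X_ix (G : ℕ) (α β : Fin G) : Geo_X G (Geo_ix G α β) = (α : ℕ) * G + β + 1 := by
  have h := Geo_bd β.2 α.2
  have hG : 0 < G := lt_of_le_of_lt (Nat.zero_le _) α.2
  unfold Geo_X Geo_ix
  dsimp only
  rw [if_neg (by omega), if_neg (by omega)]
  have e : G * G - (G * G - ((β : ℕ) * G + α)) = (α : ℕ) + G * β := by
    rw [Nat.mul_comm G β]
    omega
  rw [e, Nat.add_mul_mod_self_left, Nat.mod_eq_of_lt α.2, Nat.add_mul_div_left _ _ hG,
    Nat.div_eq_of_lt α.2, Nat.zero_add]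

theorem Geo_X_inj {G : ℕ} (hG : 1 ≤ G) : Function.Injective (Geo_X G) := by
  have key : ∀ r : ℕ, r < G * G → r % G < G ∧ r / G < G := fun r hr =>
    ⟨Nat.mod_lt _ hG, Nat.div_lt_of_lt_mul hr⟩
  intro i j h
  have hi := i.2
  have hj := j.2
  apply Fin.ext
  unfold Geo_X at h
  by_cases i0 : (i : ℕ) = 0
  · by_cases j0 : (j : ℕ) = 0
    · omega
    · rw [if_pos i0, if_neg j0] at h
      by_cases j1 : (j : ℕ) = G * G + 1
      · rw [if_pos j1] at h
        omega
      · rw [if_neg j1] at h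
        obtain ⟨k1, k2⟩ := key (G * G - j) (by omega)
        have := Geo_bd k1 k2
        omega
  · rw [if_neg i0] at h
    by_cases j0 : (j : ℕ) = 0
    · rw [if_pos j0] at h
      by_cases i1 : (i : ℕ) = G * G + 1
      · rw [if_pos i1] at h
        omega
      · rw [if_neg i1] at h
        obtain ⟨k1, k2⟩ := key (G * G - i) (by omega)
        have := Geo_bd k1 k2
        omega
    · rw [if_neg j0] at h
      by_cases i1 : (i : ℕ) = G * G + 1
      · by_cases j1 : (j : ℕ) = G * G + 1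
        · omega
        · rw [if_pos i1, if_neg j1] at h
          exact absurd h.symm (Nat.succ_ne_zero _)
      · by_cases j1 : (j : ℕ) = G * G + 1
        · rw [if_neg i1, if_pos j1] at h
          exact absurd h (Nat.succ_ne_zero _)
        · rw [if_neg i1, if_neg j1] at h
          obtain ⟨k1, k2⟩ := key (G * G - i) (by omega)
          obtain ⟨l1, l2⟩ := key (G * G - j) (by omega)
          obtain ⟨e1, e2⟩ := Geo_inj k2 l2 (Nat.add_right_cancel h)
          have m1 := Nat.mod_add_div (G * G - i) G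
          have m2 := Nat.mod_add_div (G * G - j) G
          rw [e1, e2, m2] at m1
          omega

theorem Geo_t_lt (G : ℕ) (α β : Fin G) : Geo_t G < Geo_ix G α β := by
  have h := Geo_bd β.2 α.2
  rw [Fin.lt_def]
  unfold Geo_t Geo_ix
  dsimp only
  omega

theorem Geo_lt_o (G : ℕ) (α β : Fin G) : Geo_ix G α β < Geo_o G := by
  rw [Fin.lt_def]
  unfold Geo_o Geo_ix
  dsimp only
  omega

theorem Geo_t_lt_o (G : ℕ) : Geo_t G < Geo_o G := by
  rw [Fin.lt_def]
  unfold Geo_o Geo_t
  dsimp only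
  omega

theorem Geo_ix_lt {G : ℕ} {α β α' β' : Fin G} (h : (β : ℕ) * G + α < (β' : ℕ) * G + α') :
    Geo_ix G α' β' < Geo_ix G α β := by
  have h1 := Geo_bd β'.2 α'.2
  rw [Fin.lt_def]
  unfold Geo_ix
  dsimp only
  omega

/-- `n = G² + 2`; index `0` is `t`, index `n - 1` is `o`, the grid point `(α, β)` has index
`G² - (β G + α)` (higher rows come first) and abscissa `X = α G + β + 1`; `X o = 0`, `X t = G² + 1`.
All hypotheses of `cells` are signs of orientations, which `f` preserves (`orient_eq`, `det3` is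
invariant under cyclic permutations and changes sign under transpositions). -/
theorem geo (D : ℕ) : ∃ S : Finset Pt, Stretched S ∧ 3 ≤ S.card ∧ ∀ f : Pt → Pt,
    (∀ a ∈ S, ∀ b ∈ S, ∀ c ∈ S, orient (f a) (f b) (f c) = orient a b c) →
    ∀ F : MvPolynomial (Fin 2) ℝ, F.totalDegree ≤ D → (∀ a ∈ S, evp F (f a) = 0) → F = 0 := by
  classical
  obtain ⟨G, hG, hc⟩ := cells D
  obtain ⟨q, hq, hdet, he⟩ := exists_str (G * G + 2) (Geo_X G) (Geo_X_inj hG)
  refine ⟨Finset.univ.image q, stretched_of (Geo_X_inj hG) hq hdet he, ?_, ?_⟩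
  · rw [Finset.card_image_of_injective _ hq, Finset.card_univ, Fintype.card_fin]
    have : 1 * 1 ≤ G * G := Nat.mul_le_mul hG hG
    omega
  · intro f hf F hF hz
    have hm : ∀ i, q i ∈ Finset.univ.image q := fun i =>
      Finset.mem_image_of_mem q (Finset.mem_univ i)
    have hpos : ∀ i j k, i < j → i < k → Geo_X G k < Geo_X G j →
        0 < det3 (f (q k)) (f (q j)) (f (q i)) := by
      intro i j k hij hik hX
      have h1 := hf _ (hm k) _ (hm j) _ (hm i)
      rw [orient_eq, orient_eq, sign_pos (hdet i j k hij hik hX)] at h1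
      exact sign_eq_one_iff.1 h1
    have hT : ∀ α β α' β' : Fin G, (α : ℕ) * G + β < (α' : ℕ) * G + β' →
        0 < det3 (f (q (Geo_t G))) (f (q (Geo_ix G α β))) (f (q (Geo_ix G α' β'))) := by
      intro α β α' β' h
      rw [Geo_cyc]
      refine hpos _ _ _ (Geo_t_lt G _ _) (Geo_t_lt G _ _) ?_
      rw [Geo_X_ix, Geo_X_ix]
      omega
    have hO : ∀ α β α' β' : Fin G, (β : ℕ) * G + α < (β' : ℕ) * G + α' →
        0 < det3 (f (q (Geo_o G))) (f (q (Geo_ix G α β))) (f (q (Geo_ix G α' β'))) := by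
      intro α β α' β' h
      refine hpos _ _ _ (Geo_ix_lt h) (Geo_lt_o G _ _) ?_
      rw [Geo_X_ix, Geo_X_o]
      omega
    refine hc (f (q (Geo_t G))) (f (q (Geo_o G))) (fun α β => f (q (Geo_ix G α β)))
      (fun α β α' β' h => hT _ _ _ _ (Geo_lt β.2 h))
      (fun α β α' β' h => hO _ _ _ _ (Geo_lt α.2 h)) ?_ ?_ ?_ F hF fun α β => hz _ (hm _)
    · intro α β β' h
      rcases lt_or_gt_of_ne h with h1 | h1
      · exact (hT α β α β' (Nat.add_lt_add_left h1 _)).ne'
      · rw [Geo_swap]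
        exact neg_ne_zero.2 (hT α β' α β (Nat.add_lt_add_left h1 _)).ne'
    · intro α α' β h
      rcases lt_or_gt_of_ne h with h1 | h1
      · exact (hO α β α' β (Nat.add_lt_add_left h1 _)).ne'
      · rw [Geo_swap]
        exact neg_ne_zero.2 (hO α' β α β (Nat.add_lt_add_left h1 _)).ne'
    · intro α β
      refine hpos _ _ _ (Geo_t_lt G _ _) (Geo_t_lt_o G) ?_
      rw [Geo_X_ix, Geo_X_o]
      omega

end Pool.Agent.P.MP_a62d3c_co.FF
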