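import Pool.Agent.P.MP_a62d3c_co.FF.Stmt

namespace Pool.Agent.P.MP_a62d3c_co.FF

/-- twice the signed area -/
def det3 (a b c : Pt) : ℝ := (b 0 - a 0) * (c 1 - a 1) - (b 1 - a 1) * (c 0 - a 0)

theorem orient_eq (a b c : Pt) : orient a b c = SignType.sign (det3 a b c) := rfl

/-- value of a real polynomial at a point -/
noncomputable def evp (F : MvPolynomial (Fin 2) ℝ) (a : Pt) : ℝ := MvPolynomial.eval (fun i => a i) F

end Pool.Agent.P.MP_a62d3c_co.FF
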