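import Pool.Agent.P.MP_a62d3c_co.FF.Defs
import Pool.Agent.P.MP_a62d3c_co.FF.GeoD

namespace Pool.Agent.P.MP_a62d3c_co.FF

open Filter Topology Polynomial MeasureTheory Asymptotics
open scoped ComplexConjugate Matrix ComplexOrder

theorem LA_split (H : MvPolynomial (Fin 2) ℂ) :
    ∃ R J : MvPolynomial (Fin 2) ℝ, R.totalDegree ≤ H.totalDegree ∧
      J.totalDegree ≤ H.totalDegree ∧
      H = MvPolynomial.map (algebraMap ℝ ℂ) R +
        MvPolynomial.C Complex.I * MvPolynomial.map (algebraMap ℝ ℂ) J := by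
  classical
  have hd : ∀ φ : ℂ → ℝ,
      (∑ d ∈ H.support, MvPolynomial.monomial d (φ (H.coeff d))).totalDegree ≤ H.totalDegree := by
    intro φ
    refine MvPolynomial.totalDegree_finsetSum_le fun d hd => ?_
    exact (MvPolynomial.totalDegree_monomial_le d _).trans (MvPolynomial.le_totalDegree hd)
  have hc : ∀ φ : ℂ → ℝ, φ 0 = 0 → ∀ d,
      (∑ d ∈ H.support, MvPolynomial.monomial d (φ (H.coeff d))).coeff d = φ (H.coeff d) := by
    intro φ h0 d
    rw [MvPolynomial.coeff_sum]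
    simp only [MvPolynomial.coeff_monomial]
    rw [Finset.sum_ite_eq']
    split_ifs with h
    · rfl
    · rw [MvPolynomial.notMem_support_iff.1 h, h0]
  refine ⟨_, _, hd Complex.re, hd Complex.im, ?_⟩
  ext d
  rw [MvPolynomial.coeff_add, MvPolynomial.coeff_C_mul, MvPolynomial.coeff_map,
    MvPolynomial.coeff_map, hc _ rfl, hc _ rfl]
  have := Complex.re_add_im (H.coeff d)
  simp only [Complex.coe_algebraMap]
  rw [mul_comm]
  exact this.symm

theorem LA_zero {n : ℕ} {ι : Type} (p : ι → Pt)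
    (h : ∀ F : MvPolynomial (Fin 2) ℝ, F.totalDegree ≤ n → (∀ i, evp F (p i) = 0) → F = 0)
    (H : MvPolynomial (Fin 2) ℂ) (hH : H.totalDegree ≤ n)
    (h0 : ∀ i, MvPolynomial.eval (fun k => ((p i k : ℝ) : ℂ)) H = 0) : H = 0 := by
  obtain ⟨R, J, hR, hJ, hE⟩ := LA_split H
  have hm : ∀ (F : MvPolynomial (Fin 2) ℝ) (i : ι),
      MvPolynomial.eval (fun k => ((p i k : ℝ) : ℂ)) (MvPolynomial.map (algebraMap ℝ ℂ) F) =
        ((evp F (p i) : ℝ) : ℂ) := by
    intro F i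
    have := MvPolynomial.map_eval (algebraMap ℝ ℂ) (fun k => p i k) F
    exact this.symm
  have h1 : ∀ i, evp R (p i) = 0 ∧ evp J (p i) = 0 := by
    intro i
    have h2 := h0 i
    rw [hE, map_add, map_mul, MvPolynomial.eval_C, hm, hm] at h2
    have h3 := congrArg Complex.re h2
    have h4 := congrArg Complex.im h2
    simp at h3 h4
    exact ⟨h3, h4⟩
  rw [hE, h R (hR.trans hH) fun i => (h1 i).1, h J (hJ.trans hH) fun i => (h1 i).2]
  simp

theorem LA_mon {e : ℕ} (c : Mb e → ℂ)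
    (hc : ∀ u v : ℂ, ∑ m, c m * (u ^ (m.1.1 : ℕ) * v ^ (m.1.2 : ℕ)) = 0) : c = 0 := by
  classical
  let E : Mb e → (Fin 2 →₀ ℕ) := fun m =>
    Finsupp.single 0 (m.1.1 : ℕ) + Finsupp.single 1 (m.1.2 : ℕ)
  have hE : Function.Injective E := by
    intro m m' hm
    have h0 := congrArg (fun f => f 0) hm
    have h1 := congrArg (fun f => f 1) hm
    simp [E] at h0 h1
    exact Subtype.ext (Prod.ext (Fin.ext h0) (Fin.ext h1))
  have hG : (∑ m, MvPolynomial.monomial (E m) (c m) : MvPolynomial (Fin 2) ℂ) = 0 := by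
    apply MvPolynomial.funext
    intro x
    rw [map_sum, map_zero, ← hc (x 0) (x 1)]
    refine Finset.sum_congr rfl fun m _ => ?_
    rw [MvPolynomial.eval_monomial, Finsupp.prod_fintype _ _ (by simp)]
    simp [E]
  funext m
  have h1 := congrArg (MvPolynomial.coeff (E m)) hG
  rw [MvPolynomial.coeff_sum] at h1
  simp only [MvPolynomial.coeff_monomial, hE.eq_iff] at h1
  rw [Finset.sum_ite_eq'] at h1
  simpa using h1

theorem LA_deg (a b c : ℂ) :
    (MvPolynomial.C a + MvPolynomial.C b * MvPolynomial.X 0 +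
      MvPolynomial.C c * MvPolynomial.X 1 : MvPolynomial (Fin 2) ℂ).totalDegree ≤ 1 := by
  have h : ∀ (t : ℂ) (k : Fin 2),
      (MvPolynomial.C t * MvPolynomial.X k : MvPolynomial (Fin 2) ℂ).totalDegree ≤ 1 := by
    intro t k
    refine (MvPolynomial.totalDegree_mul _ _).trans ?_
    rw [MvPolynomial.totalDegree_C, MvPolynomial.totalDegree_X]
  refine (MvPolynomial.totalDegree_add _ _).trans (max_le ?_ (h _ _))
  refine (MvPolynomial.totalDegree_add _ _).trans (max_le ?_ (h _ _))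
  rw [MvPolynomial.totalDegree_C]
  exact Nat.zero_le _

theorem LA_span {e : ℕ} {ι : Type} (r : ι → Mb e → ℂ)
    (h : ∀ c : Mb e → ℂ, (∀ i, ∑ m, c m * r i m = 0) → c = 0) :
    Submodule.span ℂ (Set.range r) = ⊤ := by
  classical
  by_contra hne
  obtain ⟨f, hf0, hf⟩ := Submodule.exists_le_ker_of_lt_top _ (lt_top_iff_ne_top.2 hne)
  have hc : (fun m => f (fun j => if m = j then 1 else 0)) = 0 := by
    apply h
    intro i
    have h1 : f (r i) = 0 := hf (Submodule.subset_span ⟨i, rfl⟩)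
    rw [LinearMap.pi_apply_eq_sum_univ] at h1
    refine Eq.trans ?_ h1
    exact Finset.sum_congr rfl fun m _ => by rw [smul_eq_mul, mul_comm]
  apply hf0
  refine LinearMap.ext fun v => ?_
  rw [LinearMap.pi_apply_eq_sum_univ]
  refine Finset.sum_eq_zero fun m _ => ?_
  have := congrFun hc m
  simp only [Pi.zero_apply] at this
  rw [this, smul_zero]

theorem LA_vdm {ι : Type} [DecidableEq ι] (z : ι → ℂ) (hz : Function.Injective z) (A : Finset ι)
    (hA : A.card ≤ 4) (g : ι → ℂ) (hg : ∀ a < 4, ∑ i ∈ A, g i * z i ^ a = 0) :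
    ∀ i ∈ A, g i = 0 := by
  intro i hi
  set P : ℂ[X] := ∏ j ∈ A.erase i, (X - C (z j)) with hP
  have hd : P.natDegree < 4 := by
    have h1 : P.natDegree = (A.erase i).card := by
      rw [hP]
      exact Polynomial.natDegree_finsetProd_X_sub_C_eq_card _ _
    rw [h1, Finset.card_erase_of_mem hi]
    have := Finset.card_pos.2 ⟨i, hi⟩
    omega
  have h1 : ∑ k ∈ A, g k * P.eval (z k) = 0 := by
    have h2 : ∀ k, P.eval (z k) = ∑ a ∈ Finset.range 4, P.coeff a * z k ^ a := fun k =>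
      Polynomial.eval_eq_sum_range' hd _
    simp only [h2, Finset.mul_sum]
    rw [Finset.sum_comm]
    refine Finset.sum_eq_zero fun a ha => ?_
    have h3 := hg a (Finset.mem_range.1 ha)
    calc ∑ k ∈ A, g k * (P.coeff a * z k ^ a) = P.coeff a * ∑ k ∈ A, g k * z k ^ a := by
          rw [Finset.mul_sum]
          exact Finset.sum_congr rfl fun k _ => by ring
      _ = 0 := by rw [h3, mul_zero]
  rw [Finset.sum_eq_single_of_mem i hi] at h1
  · refine (mul_eq_zero.1 h1).resolve_right ?_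
    rw [hP, Polynomial.eval_prod]
    refine Finset.prod_ne_zero_iff.2 fun j hj => ?_
    simp only [eval_sub, eval_X, eval_C]
    exact sub_ne_zero.2 fun hh => (Finset.ne_of_mem_erase hj) (hz hh).symm
  · intro k hk hki
    rw [hP, Polynomial.eval_prod, Finset.prod_eq_zero (Finset.mem_erase.2 ⟨hki, hk⟩) (by simp),
      mul_zero]

/-- `H = ∑ c m * (A₀ + A₁ X + A₂ Y) ^ a * (conj A₀ + conj A₁ X + conj A₂ Y) ^ b` has total degree
`≤ 2 e`; its real and imaginary parts (coefficientwise) vanish on the points, so `H = 0`; the affine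
map `(x, y) ↦ (A₀ + A₁ x + A₂ y, conj A₀ + conj A₁ x + conj A₂ y)` of `ℂ²` is onto, so
`∑ c m X ^ a Y ^ b` vanishes on `ℂ²` (`MvPolynomial.funext`) -/
theorem la_real {e : ℕ} {ι : Type} (p : ι → Pt) (A₀ A₁ A₂ : ℂ) (hA : (conj A₁ * A₂).im ≠ 0)
    (h : ∀ F : MvPolynomial (Fin 2) ℝ, F.totalDegree ≤ 2 * e → (∀ i, evp F (p i) = 0) → F = 0)
    (c : Mb e → ℂ)
    (hc : ∀ i, ∑ m, c m * ((A₀ + A₁ * (p i 0 : ℝ) + A₂ * (p i 1 : ℝ)) ^ (m.1.1 : ℕ) *
      (conj (A₀ + A₁ * (p i 0 : ℝ) + A₂ * (p i 1 : ℝ))) ^ (m.1.2 : ℕ)) = 0) : c = 0 := by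
  set L₁ : MvPolynomial (Fin 2) ℂ := MvPolynomial.C A₀ + MvPolynomial.C A₁ * MvPolynomial.X 0 +
    MvPolynomial.C A₂ * MvPolynomial.X 1 with hL₁
  set L₂ : MvPolynomial (Fin 2) ℂ := MvPolynomial.C (conj A₀) +
    MvPolynomial.C (conj A₁) * MvPolynomial.X 0 +
    MvPolynomial.C (conj A₂) * MvPolynomial.X 1 with hL₂
  set H : MvPolynomial (Fin 2) ℂ :=
    ∑ m : Mb e, MvPolynomial.C (c m) * (L₁ ^ (m.1.1 : ℕ) * L₂ ^ (m.1.2 : ℕ)) with hH
  have hev : ∀ x : Fin 2 → ℂ, MvPolynomial.eval x H =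
      ∑ m : Mb e, c m * ((A₀ + A₁ * x 0 + A₂ * x 1) ^ (m.1.1 : ℕ) *
        (conj A₀ + conj A₁ * x 0 + conj A₂ * x 1) ^ (m.1.2 : ℕ)) := by
    intro x
    simp [hH, hL₁, hL₂]
  have hdeg : H.totalDegree ≤ 2 * e := by
    refine MvPolynomial.totalDegree_finsetSum_le fun m _ => ?_
    refine (MvPolynomial.totalDegree_mul _ _).trans ?_
    rw [MvPolynomial.totalDegree_C, zero_add]
    refine (MvPolynomial.totalDegree_mul _ _).trans ?_
    have h1 := (MvPolynomial.totalDegree_pow L₁ (m.1.1 : ℕ)).trans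
      (Nat.mul_le_mul_left _ (LA_deg A₀ A₁ A₂))
    have h2 := (MvPolynomial.totalDegree_pow L₂ (m.1.2 : ℕ)).trans
      (Nat.mul_le_mul_left _ (LA_deg (conj A₀) (conj A₁) (conj A₂)))
    have h3 := m.1.1.2
    have h4 := m.1.2.2
    omega
  have hH0 : H = 0 := by
    refine LA_zero p h H hdeg fun i => ?_
    rw [hev, ← hc i]
    simp
  have hD : A₁ * conj A₂ - A₂ * conj A₁ ≠ 0 := by
    intro h0
    apply hA
    have h1 := congrArg Complex.im h0
    simp at h1 ⊢
    linarith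
  refine LA_mon c fun u v => ?_
  have h1 := hev ![((u - A₀) * conj A₂ - A₂ * (v - conj A₀)) / (A₁ * conj A₂ - A₂ * conj A₁),
    (A₁ * (v - conj A₀) - (u - A₀) * conj A₁) / (A₁ * conj A₂ - A₂ * conj A₁)]
  rw [hH0, map_zero] at h1
  have hD' : conj A₂ * A₁ - A₂ * conj A₁ ≠ 0 := by rwa [mul_comm (conj A₂)]
  have hD'' : conj A₂ * A₁ - conj A₁ * A₂ ≠ 0 := by rwa [mul_comm (conj A₂), mul_comm (conj A₁)]
  have h2 : A₀ + A₁ * (((u - A₀) * conj A₂ - A₂ * (v - conj A₀)) / (A₁ * conj A₂ - A₂ * conj A₁)) +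
      A₂ * ((A₁ * (v - conj A₀) - (u - A₀) * conj A₁) / (A₁ * conj A₂ - A₂ * conj A₁)) = u := by
    field_simp
    ring
  have h3 : conj A₀ +
      conj A₁ * (((u - A₀) * conj A₂ - A₂ * (v - conj A₀)) / (A₁ * conj A₂ - A₂ * conj A₁)) +
      conj A₂ * ((A₁ * (v - conj A₀) - (u - A₀) * conj A₁) / (A₁ * conj A₂ - A₂ * conj A₁)) = v := by
    field_simp
    ring
  simp only [Matrix.cons_val_zero, Matrix.cons_val_one, h2, h3] at h1
  exact h1.symm

/-- The rows `r i = (z i ^ a w i ^ b)` span `Mb e → ℂ` (by `h`); the rows of `A` are independent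
(Vandermonde in the columns `(a, 0)`, `a < 4`); extend them to a basis made of rows
(`exists_linearIndepOn_id_extension` or `LinearIndepOn.extend`). -/
theorem la_ext {e : ℕ} (he : 5 ≤ e) {ι : Type} [Fintype ι] [DecidableEq ι] (z w : ι → ℂ)
    (hz : Function.Injective z)
    (h : ∀ c : Mb e → ℂ, (∀ i, ∑ m, c m * (z i ^ (m.1.1 : ℕ) * w i ^ (m.1.2 : ℕ)) = 0) → c = 0)
    (A : Finset ι) (hA : A.card ≤ 4) :
    ∃ K : Finset ι, A ⊆ K ∧ ∃ g : K ≃ Mb e, Delta g (fun i => z i.1) (fun i => w i.1) ≠ 0 := by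
  classical
  let r : ι → Mb e → ℂ := fun i m => z i ^ (m.1.1 : ℕ) * w i ^ (m.1.2 : ℕ)
  have hsp : Submodule.span ℂ (Set.range r) = ⊤ := LA_span r h
  have hind : LinearIndepOn ℂ r (A : Set ι) := by
    rw [linearIndepOn_finset_iff]
    intro g hg
    refine LA_vdm z hz A hA g fun a ha => ?_
    have h1 := congrFun hg ⟨(⟨a, by omega⟩, ⟨0, by omega⟩), by simp; omega⟩
    simpa [r, Finset.sum_apply] using h1
  obtain ⟨b, -, hAb, hb, hbi⟩ := exists_linearIndepOn_extension hind (Set.subset_univ _)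
  have hbs : Submodule.span ℂ (r '' b) = ⊤ := by
    rw [eq_top_iff, ← hsp, Submodule.span_le, ← Set.image_univ]
    exact hb
  refine ⟨b.toFinset, fun i hi => Set.mem_toFinset.2 (hAb hi), ?_⟩
  have hli : LinearIndependent ℂ (fun i : b.toFinset => r i.1) := by
    have h1 : LinearIndepOn ℂ r (b.toFinset : Set ι) := by rwa [Set.coe_toFinset]
    exact h1
  have hsp' : ⊤ ≤ Submodule.span ℂ (Set.range fun i : b.toFinset => r i.1) := by
    rw [← hbs]
    refine Submodule.span_mono ?_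
    rintro _ ⟨i, hi, rfl⟩
    exact ⟨⟨i, Set.mem_toFinset.2 hi⟩, rfl⟩
  have hcard : Fintype.card b.toFinset = Fintype.card (Mb e) := by
    rw [← Module.finrank_eq_card_basis (Module.Basis.mk hli hsp'), Module.finrank_fintype_fun_eq_card]
  let g : b.toFinset ≃ Mb e := Fintype.equivOfCardEq hcard
  refine ⟨g, ?_⟩
  have h2 : LinearIndependent ℂ (fun i : b.toFinset => fun j : b.toFinset => r i.1 (g j)) :=
    hli.map' (LinearEquiv.funCongrLeft ℂ ℂ g).toLinearMap (LinearEquiv.ker _)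
  have h3 : IsUnit (Matrix.of fun i j : b.toFinset => r i.1 (g j)) :=
    Matrix.linearIndependent_rows_iff_isUnit.1 h2
  exact ((Matrix.isUnit_iff_isUnit_det _).1 h3).ne_zero

end Pool.Agent.P.MP_a62d3c_co.FF
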