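import Pool.Agent.P.MP_a62d3c_co.FF.Bd0

namespace Pool.Agent.P.MP_a62d3c_co.FF

open Filter Topology Polynomial MeasureTheory Asymptotics
open scoped ComplexConjugate Matrix ComplexOrder

variable {κ : Type} [Fintype κ] [DecidableEq κ] {e : ℕ}

theorem DBas_pow (P : R2) (c c₁ : ℂ) (a : Fin e) :
    (P - MvPolynomial.C c₁) ^ (a : ℕ) = ∑ n : Fin e,
      ((((a : ℕ).choose n : ℕ) : ℂ) * (c - c₁) ^ ((a : ℕ) - n)) • (P - MvPolynomial.C c) ^ (n : ℕ) := by
  have h : P - MvPolynomial.C c₁ = (P - MvPolynomial.C c) + MvPolynomial.C (c - c₁) := by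
    rw [map_sub]; ring
  rw [Fin.sum_univ_eq_sum_range (fun n => ((((a : ℕ).choose n : ℕ) : ℂ) * (c - c₁) ^ ((a : ℕ) - n)) •
    (P - MvPolynomial.C c) ^ n) e, h, add_pow,
    ← Finset.sum_subset (Finset.range_subset_range.2 (Nat.succ_le_of_lt a.2)) fun n _ hn => by
      rw [Nat.choose_eq_zero_of_lt (by simpa using hn), Nat.cast_zero, zero_mul, zero_smul]]
  refine Finset.sum_congr rfl fun n _ => ?_
  rw [MvPolynomial.smul_eq_C_mul, map_mul, map_pow, map_natCast]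
  ring

/-- binomial expansion of `X - c₁ = (X - c) + (c - c₁)` in both variables -/
theorem mono_shift (c c' c₁ c₁' : ℂ) (m : Box e) :
    mono c₁ c₁' m = ∑ n : Box e, ((((m.1 : ℕ).choose n.1 : ℕ) : ℂ) * (c - c₁) ^ ((m.1 : ℕ) - n.1) *
      ((((m.2 : ℕ).choose n.2 : ℕ) : ℂ) * (c' - c₁') ^ ((m.2 : ℕ) - n.2))) • mono c c' n := by
  unfold mono
  rw [DBas_pow _ c c₁ m.1, DBas_pow _ c' c₁' m.2, Finset.sum_mul_sum, Fintype.sum_prod_type]
  exact Finset.sum_congr rfl fun a _ => Finset.sum_congr rfl fun b _ => smul_mul_smul_comm _ _ _ _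

/-- image of the monomials under the shift automorphism -/
theorem mono_indep (c c' : ℂ) : LinearIndependent ℂ (mono (e := e) c c') := by
  refine LinearIndependent.of_comp (MvPolynomial.aeval (R := ℂ) (S₁ := R2)
    ![MvPolynomial.X 0 + MvPolynomial.C c, MvPolynomial.X 1 + MvPolynomial.C c']).toLinearMap ?_
  have h := (MvPolynomial.basisMonomials (Fin 2) ℂ).linearIndependent.comp
    (fun m : Box e => Finsupp.single (0 : Fin 2) (m.1 : ℕ) + Finsupp.single 1 (m.2 : ℕ))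
    fun m n h => Prod.ext (Fin.ext (by simpa using DFunLike.congr_fun h 0))
      (Fin.ext (by simpa using DFunLike.congr_fun h 1))
  refine (congrArg (fun v : Box e → R2 => LinearIndependent ℂ v) (funext fun m => ?_)).mp h
  simp [mono, MvPolynomial.X_pow_eq_monomial]

theorem IntF.recentre {Λ : ℂ → R2 →ₗ[ℂ] ℂ} {c c' c₁ c₁' : ℂ → ℂ} {l l' : ℤ}
    (h : IntF e Λ c c' l l') (hc : Bd (fun s => c s - c₁ s) l)
    (hc' : Bd (fun s => c' s - c₁' s) l') : IntF e Λ c₁ c₁' l l' := by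
  intro m
  simp only [fun s => mono_shift (c s) (c' s) (c₁ s) (c₁' s) m, map_sum, map_smul, smul_eq_mul]
  refine Bd.sum fun n _ => ?_
  by_cases h1 : (n.1 : ℕ) ≤ m.1
  · by_cases h2 : (n.2 : ℕ) ≤ m.2
    · refine ((((hc.pow _).const_mul _).mul ((hc'.pow _).const_mul _)).mul (h n)).of_eq ?_
      rw [Nat.cast_sub h1, Nat.cast_sub h2]
      ring
    · simpa [Nat.choose_eq_zero_of_lt (not_le.1 h2)] using bd_zero _
  · simpa [Nat.choose_eq_zero_of_lt (not_le.1 h1)] using bd_zero _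

theorem IntF.mono_level {Λ : ℂ → R2 →ₗ[ℂ] ℂ} {c c' : ℂ → ℂ} {l l' k k' : ℤ}
    (h : IntF e Λ c c' l l') (hk : k ≤ l) (hk' : k' ≤ l') : IntF e Λ c c' k k' := fun m =>
  (h m).mono (add_le_add
    (mul_le_mul_of_nonneg_left (Int.cast_le.2 hk) (Nat.cast_nonneg _))
    (mul_le_mul_of_nonneg_left (Int.cast_le.2 hk') (Nat.cast_nonneg _)))

theorem Cl.mono_level {g : κ ≃ Mb e} {z w : ℂ → κ → ℂ} {l l' k k' : κ → ℤ} {ν : ℝ}
    (h : Cl g z w l l' ν) (hk : ∀ i, l i ≤ k i) (hk' : ∀ i, l' i ≤ k' i) : Cl g z w k k' ν :=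
  fun Λ hΛ => h Λ fun i => (hΛ i).mono_level (hk i) (hk' i)

/-- evaluation at `(z i, w i)` is integral at every level -/
theorem Cl.delta {g : κ ≃ Mb e} {z w : ℂ → κ → ℂ} {l l' : κ → ℤ} {ν : ℝ}
    (h : Cl g z w l l' ν) : Bd (fun s => Delta g (z s) (w s)) ν := by
  refine (h (fun s i => (MvPolynomial.aeval (R := ℂ) ![z s i, w s i]).toLinearMap)
    fun i m => ?_).congr (Eventually.of_forall fun s => ?_)
  · by_cases h1 : (m.1 : ℕ) = 0
    · by_cases h2 : (m.2 : ℕ) = 0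
      · simpa [mono, h1, h2] using bd_const 1
      · simpa [mono, h2] using bd_zero _
    · simpa [mono, h1] using bd_zero _
  · simp [DetF, Delta, mono]

/-- the transition matrix of `mono_shift` restricted to `Mb e` (a lower set) is block triangular for
the degree with identity blocks -/
theorem detF_shift (g : κ ≃ Mb e) (Λ : κ → R2 →ₗ[ℂ] ℂ) (c c' : ℂ) :
    DetF g Λ = (Matrix.of fun i j : κ => Λ i (mono c c' (g j).1)).det := by
  let T : Box e → Box e → ℂ := fun n m =>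
    (((m.1 : ℕ).choose n.1 : ℕ) : ℂ) * (c - 0) ^ ((m.1 : ℕ) - n.1) *
      ((((m.2 : ℕ).choose n.2 : ℕ) : ℂ) * (c' - 0) ^ ((m.2 : ℕ) - n.2))
  have hT : ∀ n m, T n m ≠ 0 → (n.1 : ℕ) ≤ m.1 ∧ (n.2 : ℕ) ≤ m.2 := fun n m h =>
    ⟨not_lt.1 fun h1 => h (by simp [T, Nat.choose_eq_zero_of_lt h1]),
      not_lt.1 fun h1 => h (by simp [T, Nat.choose_eq_zero_of_lt h1])⟩
  have h1 : (Matrix.of fun i j : κ => Λ i (mono 0 0 (g j).1)) =
      (Matrix.of fun i j : κ => Λ i (mono c c' (g j).1)) *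
        Matrix.of fun k j : κ => T (g k).1 (g j).1 := by
    ext i j
    rw [Matrix.of_apply, mono_shift c c' 0 0, map_sum, Matrix.mul_apply]
    simp only [Matrix.of_apply, map_smul, smul_eq_mul]
    rw [g.sum_comp fun n => Λ i (mono c c' n.1) * T n.1 (g j).1,
      ← Finset.sum_subtype (Finset.univ.filter fun m : Box e =>
        ¬((m.1 : ℕ) + 1 = e ∧ (m.2 : ℕ) + 1 = e)) (by simp)
        fun n => Λ i (mono c c' n) * T n (g j).1, Finset.sum_filter_of_ne]
    · exact Finset.sum_congr rfl fun n _ => mul_comm _ _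
    · intro n _ hn h
      have h2 := hT _ _ (right_ne_zero_of_mul hn)
      have h3 := (g j).1.1.2
      have h4 := (g j).1.2.2
      exact (g j).2 (by omega)
  let _ : LinearOrder κ := LinearOrder.lift' (fun k => toLex (g k).1)
    fun a b h => g.injective (Subtype.ext (toLex.injective h))
  have h2 : (Matrix.of fun k j : κ => T (g k).1 (g j).1).det = 1 := by
    rw [Matrix.det_of_isUpperTriangular]
    · exact Finset.prod_eq_one fun k _ => by simp [T]
    · intro a b hab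
      by_contra h
      have h3 := hT _ _ h
      have h4 : toLex (g b).1 < toLex (g a).1 := hab
      rw [Prod.Lex.toLex_lt_toLex, Fin.lt_def, Fin.ext_iff, Fin.lt_def] at h4
      omega
  rw [DetF, h1, Matrix.det_mul, h2, mul_one]

theorem DBas_sum (k : ℕ) (f : Box (k + 1) → ℝ) :
    ∑ m : Mb (k + 1), f m.1 = ∑ m, f m - f (Fin.last k, Fin.last k) := by
  rw [← Finset.sum_erase_eq_sub (Finset.mem_univ _)]
  refine (Finset.sum_subtype _ (fun m => ?_) f).symm
  simp [Prod.ext_iff, Fin.ext_iff]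

theorem DBas_gauss (e : ℕ) : ∑ a : Fin e, ((a : ℕ) : ℝ) = e * (e - 1) / 2 := by
  induction e with
  | zero => simp
  | succ e ih =>
    rw [Fin.sum_univ_castSucc]
    simp only [Fin.val_castSucc, Fin.val_last, ih]
    push_cast
    ring

theorem sum_fst (he : 1 ≤ e) : ∑ m : Mb e, (((m.1.1 : ℕ) : ℝ)) = sig e := by
  obtain ⟨k, rfl⟩ := Nat.exists_eq_add_of_le' he
  rw [DBas_sum k fun m => ((m.1 : ℕ) : ℝ), Fintype.sum_prod_type_right]
  simp only [DBas_gauss, Finset.sum_const, Finset.card_univ, Fintype.card_fin, nsmul_eq_mul,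
    Fin.val_last, sig]
  push_cast
  ring

theorem sum_snd (he : 1 ≤ e) : ∑ m : Mb e, (((m.1.2 : ℕ) : ℝ)) = sig e := by
  obtain ⟨k, rfl⟩ := Nat.exists_eq_add_of_le' he
  rw [DBas_sum k fun m => ((m.2 : ℕ) : ℝ), Fintype.sum_prod_type]
  simp only [DBas_gauss, Finset.sum_const, Finset.card_univ, Fintype.card_fin, nsmul_eq_mul,
    Fin.val_last, sig]
  push_cast
  ring

/-- recentre all rows at one point, `detF_shift`, `Bd.det` -/
theorem cl_top (he : 2 ≤ e) (g : κ ≃ Mb e) {z w : ℂ → κ → ℂ} {n n' : ℤ}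
    (hz : ∀ i j, Bd (fun s => z s i - z s j) n) (hw : ∀ i j, Bd (fun s => w s i - w s j) n') :
    Cl g z w (fun _ => n) (fun _ => n') (sig e * (n + n')) := by
  intro Λ hΛ
  let i₀ : κ := g.symm ⟨(⟨0, by omega⟩, ⟨0, by omega⟩), fun h => by
    have := h.1
    simp only at this
    omega⟩
  simp only [fun s => detF_shift g (Λ s) (z s i₀) (w s i₀)]
  refine (Bd.det (α := fun _ => 0)
    (β := fun j => ((g j).1.1 : ℕ) * (n : ℝ) + ((g j).1.2 : ℕ) * (n' : ℝ)) fun i j =>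
      ((hΛ i).recentre (hz i i₀) (hw i i₀) (g j).1).of_eq (zero_add _).symm).of_eq ?_
  rw [Finset.sum_const_zero, zero_add, Finset.sum_add_distrib, ← Finset.sum_mul, ← Finset.sum_mul,
    g.sum_comp fun m => ((m.1.1 : ℕ) : ℝ), g.sum_comp fun m => ((m.1.2 : ℕ) : ℝ),
    sum_fst (by omega), sum_snd (by omega), mul_add]

end Pool.Agent.P.MP_a62d3c_co.FF
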