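import Pool.Agent.P.MP_a62d3c_co.FF.Defs

/-! Calculus of orders `Bd`. -/

namespace Pool.Agent.P.MP_a62d3c_co.FF

open Filter Topology Asymptotics
open scoped ComplexConjugate Matrix

theorem L0_ne : ∀ᶠ s in L0, s ≠ 0 := self_mem_nhdsWithin

theorem L0_pos : ∀ᶠ s in L0, 0 < ‖s‖ := L0_ne.mono fun _ h => norm_pos_iff.2 h

theorem L0_lt {r : ℝ} (hr : 0 < r) : ∀ᶠ s in L0, ‖s‖ < r := by
  have : ∀ᶠ s in 𝓝 (0 : ℂ), ‖s‖ < r := by
    filter_upwards [Metric.ball_mem_nhds (0 : ℂ) hr] with s hs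
    simpa using hs
  exact this.filter_mono nhdsWithin_le_nhds

theorem bd_iff {F : ℂ → ℂ} {ν : ℝ} :
    Bd F ν ↔ ∃ C, 0 < C ∧ ∀ᶠ s in L0, ‖F s‖ ≤ C * ‖s‖ ^ ν := by
  unfold Bd
  constructor
  · intro h
    obtain ⟨C, hC, h⟩ := h.exists_pos
    refine ⟨C, hC, h.bound.mono fun s hs => ?_⟩
    rwa [Real.norm_of_nonneg (Real.rpow_nonneg (norm_nonneg _) _)] at hs
  · rintro ⟨C, -, h⟩
    refine IsBigO.of_bound C (h.mono fun s hs => ?_)
    rwa [Real.norm_of_nonneg (Real.rpow_nonneg (norm_nonneg _) _)]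

theorem Bd.of_bound {F : ℂ → ℂ} {ν : ℝ} (C : ℝ) (h : ∀ᶠ s in L0, ‖F s‖ ≤ C * ‖s‖ ^ ν) :
    Bd F ν := by
  refine IsBigO.of_bound C (h.mono fun s hs => ?_)
  rwa [Real.norm_of_nonneg (Real.rpow_nonneg (norm_nonneg _) _)]

theorem Bd.of_le {F G : ℂ → ℂ} {ν : ℝ} (hG : Bd G ν) (h : ∀ᶠ s in L0, ‖F s‖ ≤ ‖G s‖) :
    Bd F ν := by
  obtain ⟨C, -, hC⟩ := bd_iff.1 hG
  refine Bd.of_bound C ?_
  filter_upwards [h, hC] with s h1 h2 using h1.trans h2

theorem Bd.congr {F G : ℂ → ℂ} {ν : ℝ} (hF : Bd F ν) (h : ∀ᶠ s in L0, F s = G s) : Bd G ν :=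
  hF.of_le (h.mono fun _ hs => by rw [hs])

theorem Bd.mono {F : ℂ → ℂ} {ν ν' : ℝ} (hF : Bd F ν) (h : ν' ≤ ν) : Bd F ν' := by
  obtain ⟨C, hC0, hC⟩ := bd_iff.1 hF
  refine Bd.of_bound C ?_
  filter_upwards [hC, L0_pos, L0_lt one_pos] with s h1 h2 h3
  exact h1.trans (mul_le_mul_of_nonneg_left
    (Real.rpow_le_rpow_of_exponent_ge h2 h3.le h) hC0.le)

theorem Bd.of_eq {F : ℂ → ℂ} {ν ν' : ℝ} (hF : Bd F ν) (h : ν = ν') : Bd F ν' := h ▸ hF

theorem bd_zero (ν : ℝ) : Bd (fun _ => 0) ν := isBigO_zero _ _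

theorem bd_const (c : ℂ) : Bd (fun _ => c) 0 :=
  Bd.of_bound ‖c‖ (Eventually.of_forall fun s => by simp)

theorem bd_id : Bd (fun s => s) 1 :=
  Bd.of_bound 1 (Eventually.of_forall fun s => by simp)

theorem bd_zpow (n : ℤ) : Bd (fun s => s ^ n) n :=
  Bd.of_bound 1 (Eventually.of_forall fun s => by simp [norm_zpow])

theorem bd_inv : Bd (fun s => s⁻¹) (-1) := by
  simpa using bd_zpow (-1)

theorem Bd.add {F G : ℂ → ℂ} {ν : ℝ} (hF : Bd F ν) (hG : Bd G ν) :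
    Bd (fun s => F s + G s) ν := IsBigO.add hF hG

theorem Bd.sub {F G : ℂ → ℂ} {ν : ℝ} (hF : Bd F ν) (hG : Bd G ν) :
    Bd (fun s => F s - G s) ν := IsBigO.sub hF hG

theorem Bd.neg {F : ℂ → ℂ} {ν : ℝ} (hF : Bd F ν) : Bd (fun s => -F s) ν := IsBigO.neg_left hF

theorem Bd.conj {F : ℂ → ℂ} {ν : ℝ} (hF : Bd F ν) : Bd (fun s => conj (F s)) ν :=
  hF.of_le (Eventually.of_forall fun s => by simp)

theorem Bd.mul {F G : ℂ → ℂ} {ν ν' : ℝ} (hF : Bd F ν) (hG : Bd G ν') :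
    Bd (fun s => F s * G s) (ν + ν') := by
  obtain ⟨C, hC0, hC⟩ := bd_iff.1 hF
  obtain ⟨C', hC0', hC'⟩ := bd_iff.1 hG
  refine Bd.of_bound (C * C') ?_
  filter_upwards [hC, hC', L0_pos] with s h1 h2 h3
  rw [norm_mul, Real.rpow_add h3]
  calc ‖F s‖ * ‖G s‖ ≤ (C * ‖s‖ ^ ν) * (C' * ‖s‖ ^ ν') :=
        mul_le_mul h1 h2 (norm_nonneg _) ((norm_nonneg _).trans h1)
    _ = _ := by ring

theorem Bd.const_mul {F : ℂ → ℂ} {ν : ℝ} (hF : Bd F ν) (c : ℂ) : Bd (fun s => c * F s) ν := by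
  simpa using (bd_const c).mul hF

theorem Bd.sum {ι : Type*} {A : Finset ι} {F : ι → ℂ → ℂ} {ν : ℝ}
    (h : ∀ i ∈ A, Bd (F i) ν) : Bd (fun s => ∑ i ∈ A, F i s) ν := by
  have := IsBigO.sum h
  rw [Finset.sum_fn] at this
  exact this

theorem Bd.prod {ι : Type*} {A : Finset ι} {F : ι → ℂ → ℂ} {ν : ι → ℝ}
    (h : ∀ i ∈ A, Bd (F i) (ν i)) : Bd (fun s => ∏ i ∈ A, F i s) (∑ i ∈ A, ν i) := by
  classical
  induction A using Finset.induction_on with
  | empty => simpa using bd_const 1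
  | insert a A ha ih =>
    simp only [Finset.prod_insert ha, Finset.sum_insert ha]
    exact (h a (Finset.mem_insert_self _ _)).mul
      (ih fun i hi => h i (Finset.mem_insert_of_mem hi))

theorem Bd.pow {F : ℂ → ℂ} {ν : ℝ} (hF : Bd F ν) (n : ℕ) : Bd (fun s => F s ^ n) (n * ν) := by
  have := Bd.prod (A := Finset.range n) (F := fun _ => F) (ν := fun _ => ν) fun _ _ => hF
  simpa using this

/-- Leibniz bound with row and column weights -/
theorem Bd.det {n : Type*} [Fintype n] [DecidableEq n] {M : ℂ → Matrix n n ℂ} {α β : n → ℝ}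
    (h : ∀ i j, Bd (fun s => M s i j) (α i + β j)) :
    Bd (fun s => (M s).det) (∑ i, α i + ∑ i, β i) := by
  simp only [Matrix.det_apply']
  refine Bd.sum fun σ _ => Bd.const_mul ?_ _
  refine (Bd.prod (ν := fun i => α (σ i) + β i) fun i _ => h (σ i) i).of_eq ?_
  rw [Finset.sum_add_distrib, Equiv.sum_comp σ α]

/-- determinant of a matrix plus rank one terms -/
theorem Bd.det_rank_one {n V : Type*} [Fintype n] [DecidableEq n] [Fintype V] [DecidableEq V]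
    {M M₀ : ℂ → Matrix n n ℂ} {a b : V → ℂ → n → ℂ} {lam : n → ℝ} {α β : V → ℝ}
    (hM : ∀ᶠ s in L0, ∀ i j, M s i j = M₀ s i j + ∑ v, a v s i * b v s j)
    (h0 : ∀ i j, Bd (fun s => M₀ s i j) (lam i + lam j))
    (ha : ∀ v i, Bd (fun s => a v s i) (lam i + α v))
    (hb : ∀ v j, Bd (fun s => b v s j) (lam j + β v)) :
    Bd (fun s => (M s).det) (2 * ∑ i, lam i - ∑ v, max 0 (-α v - β v)) := by
  let N : ℂ → Matrix (n ⊕ V) (n ⊕ V) ℂ := fun s =>
    Matrix.fromBlocks (M₀ s) (Matrix.of fun i v => a v s i) (Matrix.of fun v j => -b v s j) 1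
  have hN : ∀ᶠ s in L0, (N s).det = (M s).det := by
    filter_upwards [hM] with s hs
    simp only [N]
    rw [Matrix.det_fromBlocks_one₂₂]
    congr 1
    ext i j
    simp [hs i j, Matrix.mul_apply]
  have key : Bd (fun s => (N s).det)
      (∑ i, Sum.elim lam β i + ∑ i, Sum.elim lam (fun v => min (α v) (-β v)) i) := by
    refine Bd.det fun i j => ?_
    rcases i with i | v <;> rcases j with j | w
    · simpa [N] using h0 i j
    · simp only [N, Matrix.fromBlocks_apply₁₂, Matrix.of_apply, Sum.elim_inl, Sum.elim_inr]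
      exact (ha w i).mono (by linarith [min_le_left (α w) (-β w)])
    · simp only [N, Matrix.fromBlocks_apply₂₁, Matrix.of_apply, Sum.elim_inl, Sum.elim_inr]
      exact ((hb v j).neg).of_eq (by ring)
    · simp only [N, Matrix.fromBlocks_apply₂₂, Sum.elim_inr]
      by_cases hvw : v = w
      · subst hvw
        exact (bd_const _).mono (by linarith [min_le_right (α v) (-β v)])
      · simp only [Matrix.one_apply_ne hvw]
        exact bd_zero _
  refine (key.congr hN).of_eq ?_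
  simp only [Fintype.sum_sum_type, Sum.elim_inl, Sum.elim_inr]
  have : ∑ v, max 0 (-α v - β v) = -(∑ v, β v + ∑ v, min (α v) (-β v)) := by
    rw [← Finset.sum_add_distrib, ← Finset.sum_neg_distrib]
    refine Finset.sum_congr rfl fun v _ => ?_
    rcases le_total (α v) (-β v) with h | h
    · rw [min_eq_left h, max_eq_right (by linarith)]; ring
    · rw [min_eq_right h, max_eq_left (by linarith)]; ring
  rw [this]; ring

theorem Bd.log_le {F : ℂ → ℂ} {ν : ℝ} (hF : Bd F ν) :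
    ∃ C, ∀ᶠ s in L0, F s ≠ 0 → Real.log ‖F s‖ ≤ C + ν * Real.log ‖s‖ := by
  obtain ⟨C, hC0, hC⟩ := bd_iff.1 hF
  refine ⟨Real.log C, ?_⟩
  filter_upwards [hC, L0_pos] with s h1 h2 h3
  have := Real.log_le_log (norm_pos_iff.2 h3) h1
  rwa [Real.log_mul hC0.ne' (Real.rpow_pos_of_pos h2 _).ne', Real.log_rpow h2] at this

theorem Bd.of_analyticAt {F : ℂ → ℂ} (hF : ContinuousAt F 0) : Bd F 0 := by
  have h := (hF.tendsto.mono_left (nhdsWithin_le_nhds (s := {0}ᶜ))).isBigO_one ℝ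
  obtain ⟨C, hC⟩ := h.bound
  refine Bd.of_bound C (hC.mono fun s hs => ?_)
  simpa using hs

/-- explicit two-sided constants for a separated family -/
theorem Sep.consts {J : Type} [Finite J] {z : ℂ → J → ℂ} {d : J → J → ℤ} (h : Sep z d) :
    ∃ C, 1 ≤ C ∧ ∀ᶠ s in L0, ∀ i j, i ≠ j →
      ‖z s i - z s j‖ ≤ C * ‖s‖ ^ (d i j : ℝ) ∧ ‖s‖ ^ (d i j : ℝ) ≤ C * ‖z s i - z s j‖ := by
  have h1 : ∀ p : J × J, ∃ C, 1 ≤ C ∧ ∀ᶠ s in L0, p.1 ≠ p.2 →
      ‖z s p.1 - z s p.2‖ ≤ C * ‖s‖ ^ (d p.1 p.2 : ℝ) ∧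
        ‖s‖ ^ (d p.1 p.2 : ℝ) ≤ C * ‖z s p.1 - z s p.2‖ := by
    rintro ⟨i, j⟩
    by_cases hij : i = j
    · exact ⟨1, le_rfl, Eventually.of_forall fun _ h => absurd hij h⟩
    obtain ⟨C, hC0, hC⟩ := bd_iff.1 (h.up i j hij)
    obtain ⟨C', hC0', hC'⟩ := bd_iff.1 (h.low i j hij)
    refine ⟨1 + C + C', by linarith, ?_⟩
    filter_upwards [hC, hC', L0_pos, h.inj] with s h1 h2 h3 h4 _
    have hp : 0 < ‖s‖ ^ (d i j : ℝ) := Real.rpow_pos_of_pos h3 _
    have hz : 0 < ‖z s i - z s j‖ := norm_pos_iff.2 (sub_ne_zero.2 fun e => hij (h4 e))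
    refine ⟨h1.trans (by nlinarith), ?_⟩
    rw [norm_inv, Real.rpow_neg h3.le, ← div_eq_mul_inv, inv_eq_one_div,
      div_le_div_iff₀ hz hp] at h2
    nlinarith
  choose C hC1 hC using h1
  have := Fintype.ofFinite J
  have hb : ∀ p, C p ≤ 1 + ∑ p, C p := fun p => by
    have := Finset.single_le_sum (f := C) (fun p _ => (by linarith [hC1 p] : 0 ≤ C p))
      (Finset.mem_univ p)
    linarith
  refine ⟨1 + ∑ p, C p, ?_, ?_⟩
  · have : 0 ≤ ∑ p, C p := Finset.sum_nonneg fun p _ => by linarith [hC1 p]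
    linarith
  · filter_upwards [eventually_all.2 hC] with s hs i j hij
    obtain ⟨a1, a2⟩ := hs (i, j) hij
    exact ⟨a1.trans (mul_le_mul_of_nonneg_right (hb _) (Real.rpow_nonneg (norm_nonneg _) _)),
      a2.trans (mul_le_mul_of_nonneg_right (hb _) (norm_nonneg _))⟩

/-- `Lsum` is `(∑ d) log |s|` up to a bounded term -/
theorem Sep.lsum {J : Type} [Fintype J] [DecidableEq J] {z : ℂ → J → ℂ} {d : J → J → ℤ}
    (h : Sep z d) : ∃ C, ∀ᶠ s in L0,
      |Lsum (z s) - (∑ i, ∑ j ∈ Finset.univ.erase i, (d i j : ℝ)) * Real.log ‖s‖| ≤ C := by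
  obtain ⟨C, hC1, hC⟩ := h.consts
  refine ⟨∑ i : J, ∑ _j ∈ Finset.univ.erase i, Real.log C, ?_⟩
  filter_upwards [hC, L0_pos] with s hs h3
  unfold Lsum
  rw [Finset.sum_mul, ← Finset.sum_sub_distrib]
  refine (Finset.abs_sum_le_sum_abs _ _).trans (Finset.sum_le_sum fun i _ => ?_)
  rw [Finset.sum_mul, ← Finset.sum_sub_distrib]
  refine (Finset.abs_sum_le_sum_abs _ _).trans (Finset.sum_le_sum fun j hj => ?_)
  have hij : i ≠ j := (Finset.ne_of_mem_erase hj).symm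
  obtain ⟨a1, a2⟩ := hs i j hij
  have hp : 0 < ‖s‖ ^ (d i j : ℝ) := Real.rpow_pos_of_pos h3 _
  have hC0 : 0 < C := by linarith
  have hz : 0 < ‖z s i - z s j‖ := by
    by_contra hn
    have : ‖z s i - z s j‖ = 0 := le_antisymm (not_lt.1 hn) (norm_nonneg _)
    rw [this] at a2
    linarith
  have b1 := Real.log_le_log hz a1
  have b2 := Real.log_le_log hp a2
  rw [Real.log_mul hC0.ne' hp.ne', Real.log_rpow h3] at b1
  rw [Real.log_mul hC0.ne' hz.ne', Real.log_rpow h3] at b2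
  rw [abs_le]
  constructor <;> linarith

theorem Sep.comp {J J' : Type} {z : ℂ → J → ℂ} {d : J → J → ℤ} (h : Sep z d) {f : J' → J}
    (hf : Function.Injective f) : Sep (fun s i => z s (f i)) (fun i j => d (f i) (f j)) :=
  ⟨h.inj.mono fun _ hs => hs.comp hf, fun _ _ hij => h.up _ _ fun e => hij (hf e),
    fun _ _ hij => h.low _ _ fun e => hij (hf e)⟩

theorem Der.comp {J J' : Type} {z τ : ℂ → J → ℂ} {d : J → J → ℤ} (h : Der z τ d) {f : J' → J}
    (hf : Function.Injective f) :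
    Der (fun s i => z s (f i)) (fun s i => τ s (f i)) (fun i j => d (f i) (f j)) :=
  fun _ _ hij => h _ _ fun e => hij (hf e)

end Pool.Agent.P.MP_a62d3c_co.FF
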