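import Pool.Agent.P.MP_a62d3c_co.FF.DBas

namespace Pool.Agent.P.MP_a62d3c_co.FF

open Filter Topology Polynomial MeasureTheory Asymptotics
open scoped ComplexConjugate Matrix ComplexOrder

/-- the basis of the diagonal step: `ξ ^ a ω ^ (b - k) (ω - σ ξ) ^ k`, `k = wD (a, b)` -/
noncomputable def dbas {e : ℕ} (σ c c' : ℂ) (m : Box e) : R2 :=
  (MvPolynomial.X 0 - MvPolynomial.C c) ^ (m.1 : ℕ) *
    (MvPolynomial.X 1 - MvPolynomial.C c') ^ ((m.2 : ℕ) - wD m) *
    ((MvPolynomial.X 1 - MvPolynomial.C c') -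
      MvPolynomial.C σ * (MvPolynomial.X 0 - MvPolynomial.C c)) ^ wD m

/-- combinations of the `dbas n` of degree `d` with coefficients independent of the centre -/
def DDb_sp (e : ℕ) (σ : ℂ) (d : ℕ) : Submodule ℂ (ℂ → ℂ → R2) where
  carrier := {F | ∃ v : Box e → ℂ, (∀ n, v n ≠ 0 → wJ n = d) ∧
    ∀ c c', F c c' = ∑ n, v n • dbas σ c c' n}
  add_mem' := by
    rintro F G ⟨v, hv, hF⟩ ⟨w, hw, hG⟩
    refine ⟨v + w, fun n hn => ?_, fun c c' => ?_⟩
    · by_cases h : v n = 0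
      · exact hw n fun h' => hn (by rw [Pi.add_apply, h, h', add_zero])
      · exact hv n h
    · simp only [Pi.add_apply, hF, hG, add_smul, Finset.sum_add_distrib]
  zero_mem' := ⟨0, fun n hn => absurd rfl hn, fun c c' => by simp⟩
  smul_mem' := by
    rintro a F ⟨v, hv, hF⟩
    refine ⟨a • v, fun n hn => hv n fun h => hn (by rw [Pi.smul_apply, h, smul_zero]),
      fun c c' => ?_⟩
    simp only [Pi.smul_apply, hF, Finset.smul_sum, smul_eq_mul, mul_smul]

theorem DDb_self {e : ℕ} (σ : ℂ) (m : Box e) :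
    (fun c c' => dbas σ c c' m) ∈ DDb_sp e σ (wJ m) := by
  refine ⟨Pi.single m 1, fun n hn => ?_, fun c c' => ?_⟩
  · by_cases h : n = m
    · rw [h]
    · exact absurd (Pi.single_eq_of_ne h _) hn
  · rw [Finset.sum_eq_single m (fun n _ h => by rw [Pi.single_eq_of_ne h, zero_smul]) (by simp)]
    simp

theorem DDb_expand (σ : ℂ) (ξ ω : R2) (a b k : ℕ) (hk : k ≤ b) :
    ξ ^ a * ω ^ b = ξ ^ a * ω ^ (b - k) * (ω - MvPolynomial.C σ * ξ) ^ k -
      ∑ j ∈ Finset.range k, ((-σ) ^ (j + 1) * (k.choose (j + 1) : ℂ)) •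
        (ξ ^ (a + (j + 1)) * ω ^ (b - (j + 1))) := by
  rw [eq_sub_iff_add_eq', sub_eq_neg_add ω, add_pow, Finset.sum_range_succ', mul_add,
    Finset.mul_sum]
  refine congrArg₂ (· + ·) (Finset.sum_congr rfl fun j hj => ?_) ?_
  · have e1 : b - (j + 1) = (b - k) + (k - (j + 1)) := by
      have := Finset.mem_range.1 hj
      omega
    rw [e1, MvPolynomial.smul_eq_C_mul, map_mul, map_pow, map_neg, map_natCast, ← neg_mul, mul_pow]
    ring
  · have e1 : b = (b - k) + k := by omega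
    rw [pow_zero, Nat.sub_zero, Nat.choose_zero_right, Nat.cast_one, one_mul, mul_one, mul_assoc,
      ← pow_add, ← e1]

theorem DDb_mem {e : ℕ} (σ : ℂ) (b : ℕ) : ∀ a, a < e → b < e →
    (fun c c' => (MvPolynomial.X 0 - MvPolynomial.C c) ^ a *
      (MvPolynomial.X 1 - MvPolynomial.C c') ^ b) ∈ DDb_sp e σ (a + b) := by
  induction b using Nat.strong_induction_on with
  | _ b ih =>
    intro a ha hb
    have hk : wD ((⟨a, ha⟩, ⟨b, hb⟩) : Box e) ≤ b := min_le_left _ _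
    have hk' : wD ((⟨a, ha⟩, ⟨b, hb⟩) : Box e) ≤ e - 1 - a := min_le_right _ _
    have h1 := DDb_self σ ((⟨a, ha⟩, ⟨b, hb⟩) : Box e)
    have h2 : (∑ j ∈ Finset.range (wD ((⟨a, ha⟩, ⟨b, hb⟩) : Box e)),
        ((-σ) ^ (j + 1) * ((wD ((⟨a, ha⟩, ⟨b, hb⟩) : Box e)).choose (j + 1) : ℂ)) •
        fun c c' : ℂ => ((MvPolynomial.X 0 - MvPolynomial.C c) ^ (a + (j + 1)) *
          (MvPolynomial.X 1 - MvPolynomial.C c') ^ (b - (j + 1)) : R2)) ∈ DDb_sp e σ (a + b) := by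
      refine Submodule.sum_mem _ fun j hj => Submodule.smul_mem _ _ ?_
      have := Finset.mem_range.1 hj
      have h3 := ih (b - (j + 1)) (by omega) (a + (j + 1)) (by omega) (by omega)
      rwa [show a + (j + 1) + (b - (j + 1)) = a + b by omega] at h3
    have h3 := sub_mem h1 h2
    refine Eq.subst (motive := (· ∈ DDb_sp e σ (a + b))) ?_ h3
    funext c c'
    simp only [Pi.sub_apply, Finset.sum_apply, Pi.smul_apply]
    exact (DDb_expand σ _ _ a b _ hk).symm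

/-- `dbas m = mono m + ∑_{1 ≤ j ≤ k} C(k,j) (-σ) ^ j mono (a + j, b - j)` (all in the box since
`a + k ≤ e - 1`, `k ≤ b`); invert by induction on `b`. The coefficients do not depend on the
centre and preserve the total degree. -/
theorem mono_eq_dbas {e : ℕ} (σ : ℂ) :
    ∃ M : Box e → Box e → ℂ, (∀ m n, M m n ≠ 0 → wJ n = wJ m) ∧
      ∀ (c c' : ℂ) (m : Box e), mono c c' m = ∑ n, M m n • dbas σ c c' n := by
  have h := fun m : Box e => DDb_mem (e := e) σ m.2 m.1 m.1.2 m.2.2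
  choose M h1 h2 using h
  exact ⟨M, h1, fun c c' m => h2 m c c'⟩

/-- a spanning family of the span of the `mono c c' m` with the same finite index set -/
theorem dbas_indep {e : ℕ} (σ c c' : ℂ) : LinearIndependent ℂ (dbas (e := e) σ c c') := by
  obtain ⟨M, -, hM⟩ := mono_eq_dbas (e := e) σ
  rw [linearIndependent_iff_card_le_finrank_span, ← finrank_span_eq_card (mono_indep c c')]
  have := FiniteDimensional.span_of_finite ℂ (Set.finite_range (dbas (e := e) σ c c'))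
  refine Submodule.finrank_mono (Submodule.span_le.2 ?_)
  rintro _ ⟨m, rfl⟩
  rw [hM]
  exact Submodule.sum_mem _ fun n _ => Submodule.smul_mem _ _ (Submodule.subset_span ⟨n, rfl⟩)

/-- the order of `Λ (P ξ ^ i ω ^ j)` as long as the exponents stay in the box -/
def DDb_T (e : ℕ) (Λ : ℂ → R2 →ₗ[ℂ] ℂ) (ξ ω : ℂ → R2) (L : ℝ) (P : ℂ → R2) (ν : ℝ) (A B : ℕ) :
    Prop :=
  ∀ i j : ℕ, i + A < e → j + B < e →
    Bd (fun s => Λ s (P s * (ξ s ^ i * ω s ^ j))) (ν + (i + j) * L)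

section
variable {e : ℕ} {Λ : ℂ → R2 →ₗ[ℂ] ℂ} {ξ ω P Q : ℂ → R2} {L ν ν' : ℝ} {A B A' B' : ℕ}

theorem DDb_mono (h : DDb_T e Λ ξ ω L P ν A B) (hν : ν' ≤ ν) (hA : A ≤ A') (hB : B ≤ B') :
    DDb_T e Λ ξ ω L P ν' A' B' :=
  fun i j hi hj => (h i j (by omega) (by omega)).mono (by linarith)

theorem DDb_add (h : DDb_T e Λ ξ ω L P ν A B) (h' : DDb_T e Λ ξ ω L Q ν A B) :
    DDb_T e Λ ξ ω L (fun s => P s + Q s) ν A B := fun i j hi hj => by
  simpa only [add_mul, map_add] using (h i j hi hj).add (h' i j hi hj)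

theorem DDb_C (h : DDb_T e Λ ξ ω L P ν A B) {δ : ℂ → ℂ} (hδ : Bd δ ν') :
    DDb_T e Λ ξ ω L (fun s => P s * MvPolynomial.C (δ s)) (ν + ν') A B := fun i j hi hj => by
  refine ((hδ.mul (h i j hi hj)).of_eq (by ring)).congr (Eventually.of_forall fun s => ?_)
  rw [← smul_eq_mul, ← map_smul, ← MvPolynomial.C_mul']
  exact congrArg (Λ s) (by ring)

theorem DDb_xi (h : DDb_T e Λ ξ ω L P ν A B) :
    DDb_T e Λ ξ ω L (fun s => P s * ξ s) (ν + L) (A + 1) B := fun i j hi hj => by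
  refine ((h (i + 1) j (by omega) hj).of_eq (by push_cast; ring)).congr
    (Eventually.of_forall fun s => congrArg (Λ s) (by ring))

theorem DDb_om (h : DDb_T e Λ ξ ω L P ν A B) :
    DDb_T e Λ ξ ω L (fun s => P s * ω s) (ν + L) A (B + 1) := fun i j hi hj => by
  refine ((h i (j + 1) hi (by omega)).of_eq (by push_cast; ring)).congr
    (Eventually.of_forall fun s => congrArg (Λ s) (by ring))

theorem DDb_congr (h : DDb_T e Λ ξ ω L P ν A B) (hQ : ∀ s, P s = Q s) :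
    DDb_T e Λ ξ ω L Q ν A B := funext hQ ▸ h

theorem DDb_pow {μ : ℝ} {α β : ℕ}
    (H : ∀ P ν A B, DDb_T e Λ ξ ω L P ν A B →
      DDb_T e Λ ξ ω L (fun s => P s * Q s) (ν + μ) (A + α) (B + β))
    (h : DDb_T e Λ ξ ω L P ν A B) (n : ℕ) :
    DDb_T e Λ ξ ω L (fun s => P s * Q s ^ n) (ν + n * μ) (A + n * α) (B + n * β) := by
  induction n with
  | zero => simpa using h
  | succ n ih =>
    refine DDb_mono (DDb_congr (H _ _ _ _ ih) fun s => by ring) (le_of_eq ?_) (le_of_eq ?_)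
      (le_of_eq ?_)
    · push_cast; ring
    · ring
    · ring

end

/-- expand the three factors around `(u, u')`: `ξ = ξ₁ + (u - c)`, `ω = ω₁ + (u' - c')`,
`ω - σ ξ = ω₁ - σ ξ₁ + ((u' - c') - σ (u - c))`. Suggested: the predicate (P, ν, A, B) := P s is a
finite sum of terms `a s • ξ₁ ^ i ω₁ ^ j` with `i ≤ A`, `j ≤ B`, `Bd a (ν - (i + j) (l + 1))` is
closed under products. -/
theorem dbas_bd {e : ℕ} {Λ : ℂ → R2 →ₗ[ℂ] ℂ} {u u' c c' : ℂ → ℂ} {l : ℤ} (σ : ℂ)
    (h : IntF e Λ u u' (l + 1) (l + 1)) (hu : Bd (fun s => u s - c s) l)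
    (hu' : Bd (fun s => u' s - c' s) l)
    (hd : Bd (fun s => (u' s - c' s) - σ * (u s - c s)) ((l : ℝ) + 1)) (m : Box e) :
    Bd (fun s => Λ s (dbas σ (c s) (c' s) m)) ((wJ m : ℝ) * l + wD m) := by
  have h0 : DDb_T e Λ (fun s => MvPolynomial.X 0 - MvPolynomial.C (u s))
      (fun s => MvPolynomial.X 1 - MvPolynomial.C (u' s)) (l + 1) (fun _ => 1) 0 0 0 := by
    intro i j hi hj
    refine ((h (⟨i, hi⟩, ⟨j, hj⟩)).of_eq (by push_cast; ring)).congr
      (Eventually.of_forall fun s => ?_)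
    rw [one_mul, mono]
  have h1 := DDb_pow (Q := fun s => MvPolynomial.X 0 - MvPolynomial.C (c s)) (μ := l) (α := 1)
    (β := 0) (fun P ν A B hP => DDb_congr (DDb_add
      (DDb_mono (DDb_xi hP) (by linarith) le_rfl le_rfl)
      (DDb_mono (DDb_C hP hu) le_rfl (Nat.le_succ A) le_rfl))
      fun s => by rw [map_sub]; ring) h0 m.1
  have h2 := DDb_pow (Q := fun s => MvPolynomial.X 1 - MvPolynomial.C (c' s)) (μ := l) (α := 0)
    (β := 1) (fun P ν A B hP => DDb_congr (DDb_add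
      (DDb_mono (DDb_om hP) (by linarith) le_rfl le_rfl)
      (DDb_mono (DDb_C hP hu') le_rfl le_rfl (Nat.le_succ B)))
      fun s => by rw [map_sub]; ring) h1 ((m.2 : ℕ) - wD m)
  have h3 := DDb_pow (Q := fun s => (MvPolynomial.X 1 - MvPolynomial.C (c' s)) -
      MvPolynomial.C σ * (MvPolynomial.X 0 - MvPolynomial.C (c s))) (μ := l + 1) (α := 1)
    (β := 1) (fun P ν A B hP => DDb_congr (DDb_add (DDb_add
      (DDb_mono (DDb_om hP) le_rfl (Nat.le_succ A) le_rfl)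
      (DDb_mono (DDb_C (DDb_xi hP) (bd_const (-σ))) (by linarith) le_rfl (Nat.le_succ B)))
      (DDb_mono (DDb_C hP hd) le_rfl (Nat.le_succ A) (Nat.le_succ B)))
      fun s => by simp only [map_sub, map_mul, map_neg]; ring) h2 (wD m)
  have hk : wD m ≤ m.2 := min_le_left _ _
  have hk' : wD m ≤ e - 1 - m.1 := min_le_right _ _
  have ha := m.1.2
  have hb := m.2.2
  refine ((h3 0 0 (by omega) (by omega)).of_eq ?_).congr (Eventually.of_forall fun s => ?_)
  · rw [wJ, Nat.cast_sub hk]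
    push_cast
    ring
  · simp only [dbas, pow_zero, one_mul, mul_one]

end Pool.Agent.P.MP_a62d3c_co.FF
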