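import Pool.Agent.P.MP_a62d3c_co.FF.DBas
import Pool.Agent.P.MP_a62d3c_co.FF.DExp
import Pool.Agent.P.MP_a62d3c_co.FF.DStepA

namespace Pool.Agent.P.MP_a62d3c_co.FF

open Filter Topology Polynomial MeasureTheory Asymptotics
open scoped ComplexConjugate Matrix ComplexOrder

variable {κ : Type} [Fintype κ] [DecidableEq κ] {e : ℕ} {g : κ ≃ Mb e} {z w : ℂ → κ → ℂ}
  {l l' : κ → ℤ} {ν : ℝ}

/-- Z-step of length `n` on `S`. For `S` nonempty fix `i₀ ∈ S`, `c = z i₀`, `β s = mono (c s) 0`,
weight `wZ`. By `mono_shift`, `Λ' i (mono c (w i) m) = if m.1 = k i then Λ i (mono c (w i) m) else 0`;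
so `s⁻¹ ^ (n k i) • Λ' i` is integral at `(c, w i)` with levels `(hi - n, l' i)`; recentre to `z i`,
lower the level to `l i`; `detF_scale`. -/
theorem Cl.stepZ (h : Cl g z w l l' ν) (S : Finset κ) (hi : ℤ) (n : ℕ)
    (hl : ∀ i ∈ S, l i + n ≤ hi) (hz : ∀ i ∈ S, ∀ j ∈ S, Bd (fun s => z s i - z s j) hi) :
    Cl g z w (fun i => if i ∈ S then hi else l i) l' (ν + n * gmin (wZ (e := e)) S.card) := by
  rcases S.eq_empty_or_nonempty with rfl | ⟨i₀, h₀⟩
  · simpa [DStep_gmin] using h
  intro Λ hΛ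
  refine DStep_core h S (fun s => mono (z s i₀) 0) (fun s => mono_indep _ _)
    (fun s => DStep_span _ _) wZ n Λ (fun i hS => by simpa only [if_neg hS] using hΛ i)
    fun i hS k Λ' hc => ?_
  have h1 : IntF e (fun s => Λ s i) (fun s => z s i₀) (fun s => w s i) hi (l' i) :=
    IntF.recentre (by simpa only [if_pos hS] using hΛ i) (hz i hS i₀ h₀)
      (by simpa using bd_zero _)
  have h2 : IntF e (fun s => (s⁻¹ ^ (n * k)) • Λ' s) (fun s => z s i₀) (fun s => w s i)
      (hi - n) (l' i) := fun m => by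
    have h3 : ∀ s, Λ' s (mono (z s i₀) (w s i) m) =
        if (m.1 : ℕ) = k then Λ s i (mono (z s i₀) (w s i) m) else 0 := fun s => by
      rw [mono_shift (z s i₀) 0 (z s i₀) (w s i)]
      exact DStep_cut (hc s) fun m' hm' => mul_eq_zero_of_left (DStep_coef hm' _) _
    simp only [LinearMap.smul_apply, smul_eq_mul, h3]
    by_cases hk : (m.1 : ℕ) = k
    · simp only [if_pos hk]
      refine (DStep_scale (h1 m) _).of_eq ?_
      rw [← hk]
      push_cast
      ring
    · simpa only [if_neg hk, mul_zero] using bd_zero _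
  exact (h2.recentre ((hz i₀ h₀ i hS).mono (by push_cast; linarith [n.cast_nonneg (α := ℝ)]))
    (by simpa using bd_zero _)).mono_level (by linarith [hl i hS]) le_rfl

/-- the same in the second variable, `β s = mono 0 (c' s)` -/
theorem Cl.stepW (h : Cl g z w l l' ν) (S : Finset κ) (hi : ℤ) (n : ℕ)
    (hl : ∀ i ∈ S, l' i + n ≤ hi) (hw : ∀ i ∈ S, ∀ j ∈ S, Bd (fun s => w s i - w s j) hi) :
    Cl g z w l (fun i => if i ∈ S then hi else l' i) (ν + n * gmin (wW (e := e)) S.card) := by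
  rcases S.eq_empty_or_nonempty with rfl | ⟨i₀, h₀⟩
  · simpa [DStep_gmin] using h
  intro Λ hΛ
  refine DStep_core h S (fun s => mono 0 (w s i₀)) (fun s => mono_indep _ _)
    (fun s => DStep_span _ _) wW n Λ (fun i hS => by simpa only [if_neg hS] using hΛ i)
    fun i hS k Λ' hc => ?_
  have h1 : IntF e (fun s => Λ s i) (fun s => z s i) (fun s => w s i₀) (l i) hi :=
    IntF.recentre (by simpa only [if_pos hS] using hΛ i) (by simpa using bd_zero _)
      (hw i hS i₀ h₀)
  have h2 : IntF e (fun s => (s⁻¹ ^ (n * k)) • Λ' s) (fun s => z s i) (fun s => w s i₀)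
      (l i) (hi - n) := fun m => by
    have h3 : ∀ s, Λ' s (mono (z s i) (w s i₀) m) =
        if (m.2 : ℕ) = k then Λ s i (mono (z s i) (w s i₀) m) else 0 := fun s => by
      rw [mono_shift 0 (w s i₀) (z s i) (w s i₀)]
      exact DStep_cut (hc s) fun m' hm' => mul_eq_zero_of_right _ (DStep_coef hm' _)
    simp only [LinearMap.smul_apply, smul_eq_mul, h3]
    by_cases hk : (m.2 : ℕ) = k
    · simp only [if_pos hk]
      refine (DStep_scale (h1 m) _).of_eq ?_
      rw [← hk]
      push_cast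
      ring
    · simpa only [if_neg hk, mul_zero] using bd_zero _
  exact (h2.recentre (by simpa using bd_zero _) ((hw i₀ h₀ i hS).mono
    (by push_cast; linarith [n.cast_nonneg (α := ℝ)]))).mono_level le_rfl (by linarith [hl i hS])

/-- joint step, `β s = mono (c s) (c' s)`, weight `wJ` -/
theorem Cl.stepJ (h : Cl g z w l l' ν) (S : Finset κ) (hi hi' : ℤ) (n : ℕ)
    (hl : ∀ i ∈ S, l i + n ≤ hi) (hl' : ∀ i ∈ S, l' i + n ≤ hi')
    (hz : ∀ i ∈ S, ∀ j ∈ S, Bd (fun s => z s i - z s j) hi)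
    (hw : ∀ i ∈ S, ∀ j ∈ S, Bd (fun s => w s i - w s j) hi') :
    Cl g z w (fun i => if i ∈ S then hi else l i) (fun i => if i ∈ S then hi' else l' i)
      (ν + n * gmin (wJ (e := e)) S.card) := by
  rcases S.eq_empty_or_nonempty with rfl | ⟨i₀, h₀⟩
  · simpa [DStep_gmin] using h
  intro Λ hΛ
  refine DStep_core h S (fun s => mono (z s i₀) (w s i₀)) (fun s => mono_indep _ _)
    (fun s => DStep_span _ _) wJ n Λ (fun i hS => by simpa only [if_neg hS] using hΛ i)
    fun i hS k Λ' hc => ?_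
  have h1 : IntF e (fun s => Λ s i) (fun s => z s i₀) (fun s => w s i₀) hi hi' :=
    IntF.recentre (by simpa only [if_pos hS] using hΛ i) (hz i hS i₀ h₀) (hw i hS i₀ h₀)
  have h2 : IntF e (fun s => (s⁻¹ ^ (n * k)) • Λ' s) (fun s => z s i₀) (fun s => w s i₀)
      (hi - n) (hi' - n) := fun m => by
    simp only [LinearMap.smul_apply, smul_eq_mul, hc]
    by_cases hk : wJ m = k
    · simp only [if_pos hk]
      refine (DStep_scale (h1 m) _).of_eq ?_
      rw [← hk, wJ]
      push_cast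
      ring
    · simpa only [if_neg hk, mul_zero] using bd_zero _
  exact (h2.recentre ((hz i₀ h₀ i hS).mono (by push_cast; linarith [n.cast_nonneg (α := ℝ)]))
    ((hw i₀ h₀ i hS).mono (by push_cast; linarith [n.cast_nonneg (α := ℝ)]))).mono_level
      (by linarith [hl i hS]) (by linarith [hl' i hS])

end Pool.Agent.P.MP_a62d3c_co.FF
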