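import Mathlib

/-! Definitions for the function-field theorem (paper: FF_paper.md). -/

namespace Pool.Agent.P.MP_a62d3c_co.FF

open Filter Topology Polynomial MeasureTheory Asymptotics
open scoped ComplexConjugate Matrix

noncomputable section

/-! ### A. weak subharmonicity -/

/-- `a` is the second derivative at `0` of `σ ↦ ψ (t + σ τ)` -/
def Sec (ψ : ℂ → ℝ) (t τ : ℂ) (a : ℝ) : Prop :=
  ∃ g : ℝ → ℝ, (∀ᶠ s in 𝓝 (0 : ℝ), HasDerivAt (fun σ : ℝ => ψ (t + σ * τ)) (g s) s) ∧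
    HasDerivAt g a 0

/-- `φ` is subharmonic at `t₀` in the sense of approximation by functions with almost
nonnegative Laplacian -/
def LapGe (φ : ℂ → ℝ) (t₀ : ℂ) : Prop :=
  ∀ η > (0 : ℝ), ∀ᶠ r in 𝓝[>] (0 : ℝ), ∀ θ > (0 : ℝ), ∃ ψ : ℂ → ℝ,
    ContinuousOn ψ (Metric.closedBall t₀ r) ∧
    (∀ t ∈ Metric.ball t₀ r, ∃ a b, Sec ψ t 1 a ∧ Sec ψ t Complex.I b ∧ -η ≤ a + b) ∧
    φ t₀ - θ ≤ ψ t₀ ∧ ∀ t ∈ Metric.sphere t₀ r, ψ t ≤ φ t + η * r ^ 2 + θ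

/-! ### B. orders at a place, trees -/

/-- the punctured neighbourhoods of `0` -/
abbrev L0 : Filter ℂ := 𝓝[≠] (0 : ℂ)

/-- `F s = O(|s| ^ ν)` as `s → 0` -/
def Bd (F : ℂ → ℂ) (ν : ℝ) : Prop := F =O[L0] fun s => ‖s‖ ^ ν

/-- `|z i - z j|` is comparable to `|s| ^ d i j` -/
structure Sep {J : Type} (z : ℂ → J → ℂ) (d : J → J → ℤ) : Prop where
  inj : ∀ᶠ s in L0, Function.Injective (z s)
  up : ∀ i j, i ≠ j → Bd (fun s => z s i - z s j) (d i j)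
  low : ∀ i j, i ≠ j → Bd (fun s => (z s i - z s j)⁻¹) (-(d i j : ℝ))

/-- `τ` behaves like the derivative of `z` in `s` -/
def Der {J : Type} (z τ : ℂ → J → ℂ) (d : J → J → ℤ) : Prop :=
  ∀ i j, i ≠ j →
    Bd (fun s => s * (τ s i - τ s j) - (d i j : ℂ) * (z s i - z s j)) ((d i j : ℝ) + 1)

/-- symmetric and ultrametric -/
structure Ultra {J : Type} (d : J → J → ℤ) : Prop where
  symm : ∀ i j, d i j = d j i
  ultra : ∀ i j k, i ≠ j → j ≠ k → i ≠ k → min (d i j) (d j k) ≤ d i k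

/-- the edges `u` (cluster `S u`, levels `lo u < l ≤ lo u + len u`) describe `d` above `n0` -/
structure IsTree {J U : Type} (d : J → J → ℤ) (n0 : ℤ) (S : U → Finset J) (lo : U → ℤ)
    (len : U → ℕ) : Prop where
  ult : Ultra d
  base : ∀ i j, i ≠ j → n0 ≤ d i j
  lo_ge : ∀ u, len u ≠ 0 → n0 ≤ lo u
  inn : ∀ u, len u ≠ 0 → ∀ i ∈ S u, ∀ j ∈ S u, i ≠ j → lo u + len u ≤ d i j
  out : ∀ u, len u ≠ 0 → ∀ i ∈ S u, ∀ j, j ∉ S u → d i j ≤ lo u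
  uniq : ∀ u v j (l : ℤ), j ∈ S u → j ∈ S v → lo u < l → l ≤ lo u + len u → lo v < l →
    l ≤ lo v + len v → u = v
  ex : ∀ i j, i ≠ j → ∀ l : ℤ, n0 < l → l ≤ d i j →
    ∃ u, i ∈ S u ∧ j ∈ S u ∧ lo u < l ∧ l ≤ lo u + len u

/-- smallest value of `d` inside `S` -/
def tin {J : Type} (d : J → J → ℤ) (S : Finset J) : ℤ :=
  sInf {x | ∃ i ∈ S, ∃ j ∈ S, i ≠ j ∧ x = d i j}

/-- largest value of `d` from `S` to the outside -/
def tout {J : Type} (d : J → J → ℤ) (S : Finset J) : ℤ :=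
  sSup {x | ∃ i ∈ S, ∃ j, j ∉ S ∧ x = d i j}

/-- length of the edge above the cluster `S` (zero if `S` is no cluster) -/
def tlen {J : Type} [Fintype J] [DecidableEq J] (d : J → J → ℤ) (S : Finset J) : ℕ :=
  if 2 ≤ S.card ∧ S ≠ Finset.univ then (tin d S - tout d S).toNat else 0

/-- the part of the edge below level `ρ` -/
def clip (lo : ℤ) (len : ℕ) (ρ : ℝ) : ℝ := min (len : ℝ) (max (ρ - lo) 0)

/-- order of `x - z i` when `x` is at distance `|s| ^ ρ` from its nearest point `z j` -/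
def mn {J : Type} [DecidableEq J] (d : J → J → ℤ) (i j : J) (ρ : ℝ) : ℝ :=
  if i = j then ρ else min ρ (d i j)

/-- the exponent `E` of the paper -/
def En {J : Type} [Fintype J] [DecidableEq J] (d : J → J → ℤ) (mu : J → ℕ) (μ : ℝ) (j : J)
    (ρ : ℝ) : ℝ :=
  ρ + ∑ i, ((mu i : ℝ) - μ) * mn d i j ρ

/-! ### C. Hodge data of a finite set of points -/

section
variable {J : Type} [Fintype J] [DecidableEq J]

/-- `f = ∏ (X - z j)` -/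
def fP (z : J → ℂ) : ℂ[X] := ∏ j, (X - C (z j))

/-- derivative of `f` in the parameter, if `τ` is the derivative of `z` -/
def fT (z τ : J → ℂ) : ℂ[X] := -∑ j, C (τ j) * ∏ i ∈ Finset.univ.erase j, (X - C (z i))

/-- `f' (z j)` -/
def dpr (z : J → ℂ) (j : J) : ℂ := ∏ i ∈ Finset.univ.erase j, (z j - z i)

/-- Newton polynomial with multiplicities `mu` -/
def nP (z : J → ℂ) (mu : J → ℕ) : ℂ[X] := ∏ i, (X - C (z i)) ^ mu i

/-- integrand of `mom` -/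
def momI (z : J → ℂ) (ν ε : ℝ) (P Q : ℂ[X]) (x : ℂ) : ℂ :=
  P.eval x * conj (Q.eval x) * (((‖(fP z).eval x‖ ^ 2 + ε) ^ (-ν) : ℝ) : ℂ)

/-- `∫ P conj(Q) (|f|² + ε) ^ (-ν)` over the plane -/
def mom (z : J → ℂ) (ν ε : ℝ) (P Q : ℂ[X]) : ℂ := ∫ x, momI z ν ε P Q x

/-- Gram matrix of the monomials -/
def gram (μ : ℝ) (p : ℕ) (z : J → ℂ) : Matrix (Fin p) (Fin p) ℂ :=
  Matrix.of fun a b => mom z μ 0 (X ^ (a : ℕ)) (X ^ (b : ℕ))

/-- `∑ P (z j) τ j / f' (z j)` -/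
def hig (z τ : J → ℂ) (P : ℂ[X]) : ℂ := ∑ j, P.eval (z j) * τ j / dpr z j

/-- the Higgs matrix -/
def theta (p q : ℕ) (z τ : J → ℂ) : Matrix (Fin p) (Fin q) ℂ :=
  Matrix.of fun a b => hig z τ (X ^ ((a : ℕ) + (b : ℕ)))

/-- `∑ log |z i - z j|` over ordered pairs -/
def Lsum (z : J → ℂ) : ℝ := ∑ i, ∑ j ∈ Finset.univ.erase i, Real.log ‖z i - z j‖

end

/-- numerical hypothesis on the weight `μ`, the ranks `p, q` and the number `n` of points -/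
def Hyp (μ : ℝ) (p q n : ℕ) : Prop :=
  0 < μ ∧ μ < 1 ∧ 2 ≤ p ∧ 2 ≤ q ∧
    ((n = p + q + 1 ∧ (p : ℝ) < μ * n ∧ (q : ℝ) < (1 - μ) * n) ∨
      (n = p + q + 2 ∧ μ * n = p + 1))

/-- choice of an `r × r` minor -/
structure Piv (p q : ℕ) where
  r : ℕ
  ι : Fin r ↪ Fin p
  ι' : Fin r ↪ Fin q

/-- the same minor of the transpose -/
def Piv.swap {p q : ℕ} (π : Piv p q) : Piv q p := ⟨π.r, π.ι', π.ι⟩

/-- the rows that are not chosen -/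
abbrev Piv.K {p q : ℕ} (π : Piv p q) : Type := {a : Fin p // a ∉ Set.range π.ι}

/-- the chosen minor -/
def blk {p q : ℕ} (Θ : Matrix (Fin p) (Fin q) ℂ) (π : Piv p q) :
    Matrix (Fin π.r) (Fin π.r) ℂ := Θ.submatrix π.ι π.ι'

/-- basis of the left kernel -/
def kerL {p q : ℕ} (Θ : Matrix (Fin p) (Fin q) ℂ) (π : Piv p q) : Matrix π.K (Fin p) ℂ :=
  (1 : Matrix (Fin p) (Fin p) ℂ).submatrix Subtype.val id -
    Θ.submatrix (Subtype.val : π.K → Fin p) π.ι' * (blk Θ π)⁻¹ *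
      (1 : Matrix (Fin p) (Fin p) ℂ).submatrix π.ι id

/-- the minor is invertible and the rank is `r` -/
def Valid {p q : ℕ} (Θ : Matrix (Fin p) (Fin q) ℂ) (π : Piv p q) : Prop :=
  (blk Θ π).det ≠ 0 ∧ Θ = Θ.submatrix id π.ι' * (blk Θ π)⁻¹ * Θ.submatrix π.ι id

/-- Gram determinant of the rows of `A` -/
def gdet {K : Type} [Fintype K] [DecidableEq K] {p : ℕ} (A : Matrix K (Fin p) ℂ)
    (G : Matrix (Fin p) (Fin p) ℂ) : ℝ := (A * G * Aᴴ).det.re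

/-- the quantity `Φ` for given matrices -/
def phi {p q : ℕ} (G : Matrix (Fin p) (Fin p) ℂ) (G' : Matrix (Fin q) (Fin q) ℂ)
    (Θ : Matrix (Fin p) (Fin q) ℂ) (π : Piv p q) : ℝ :=
  gdet (kerL Θ π) G * gdet (kerL Θᵀ π.swap) G' * ‖(blk Θ π).det‖ ^ 2

/-- the block matrix that bounds `Φ` -/
def bigM {P Q : Type} (G : Matrix P P ℂ) (G' : Matrix Q Q ℂ) (Θ : Matrix P Q ℂ) :
    Matrix (P ⊕ Q) (P ⊕ Q) ℂ := Matrix.fromBlocks G Θ (-Θᴴ) G'ᵀ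

/-- `Φ` of a point set -/
def Phi {J : Type} [Fintype J] [DecidableEq J] (p q : ℕ) (z τ : J → ℂ) (π : Piv p q) : ℝ :=
  phi (gram (1 / 4) p z) (gram (3 / 4) q z) (theta p q z τ) π

/-- polynomials of degree `< n` with coefficients analytic on `U` -/
def PF (U : Set ℂ) (n : ℕ) (P : ℂ → ℂ[X]) : Prop :=
  (∀ t ∈ U, (P t).degree < n) ∧ ∀ k, AnalyticOnNhd ℂ (fun t => (P t).coeff k) U

/-- coefficientwise derivative in the parameter -/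
def dT (n : ℕ) (P : ℂ → ℂ[X]) (t : ℂ) : ℂ[X] :=
  ∑ k ∈ Finset.range n, monomial k (deriv (fun u => (P u).coeff k) t)

/-- derivative of a family of points -/
def dz {J : Type} (z : ℂ → J → ℂ) (t : ℂ) (j : J) : ℂ := deriv (fun u => z u j) t

/-- `A` lies in the kernel of the Higgs field on `U` -/
def InKer {J : Type} [Fintype J] [DecidableEq J] (U : Set ℂ) (z : ℂ → J → ℂ) (q : ℕ)
    (A : ℂ → ℂ[X]) : Prop :=
  ∀ t ∈ U, ∀ b < q, hig (z t) (dz z t) (A t * X ^ b) = 0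

/-- the majorant of all integrands -/
def ker (δ : ℝ) (u : ℂ) : ℝ := ‖u‖ ^ (-2 : ℝ) * (min ‖u‖ ‖u‖⁻¹) ^ δ

/-- `∑_{k < p} (y - 1 - k)₊` -/
def Pf (p : ℕ) (y : ℝ) : ℝ := ∑ k ∈ Finset.range p, max (y - 1 - k) 0

/-- the cost of the rank one terms of an edge -/
def cost (p q : ℕ) (μ : ℝ) (s l : ℕ) : ℝ :=
  ∑ k ∈ Finset.range p,
    if l ≠ 0 ∧ k + 2 ≤ s ∧ s < k + 2 + q then max (1 - l * |(k : ℝ) + 1 - μ * s|) 0 else 0

/-- the coefficient of the root level -/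
def topH (p q n : ℕ) : ℝ :=
  ∑ a ∈ Finset.range p, (1 + (a : ℝ) - 1 / 4 * n) + ∑ b ∈ Finset.range q, (1 + (b : ℝ) - 3 / 4 * n)

/-! ### D. the determinant `Δ` -/

/-- exponents -/
abbrev Box (e : ℕ) : Type := Fin e × Fin e

/-- exponents without the top one -/
abbrev Mb (e : ℕ) : Type := {m : Box e // ¬((m.1 : ℕ) + 1 = e ∧ (m.2 : ℕ) + 1 = e)}

/-- polynomials in two variables -/
abbrev R2 : Type := MvPolynomial (Fin 2) ℂ

/-- `(X - c) ^ a (Y - c') ^ b` -/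
def mono {e : ℕ} (c c' : ℂ) (m : Box e) : R2 :=
  (MvPolynomial.X 0 - MvPolynomial.C c) ^ (m.1 : ℕ) *
    (MvPolynomial.X 1 - MvPolynomial.C c') ^ (m.2 : ℕ)

/-- the functional is integral at centre `(c, c')` and levels `(l, l')` -/
def IntF (e : ℕ) (Λ : ℂ → R2 →ₗ[ℂ] ℂ) (c c' : ℂ → ℂ) (l l' : ℤ) : Prop :=
  ∀ m : Box e, Bd (fun s => Λ s (mono (c s) (c' s) m)) ((m.1 : ℕ) * (l : ℝ) + (m.2 : ℕ) * (l' : ℝ))

section
variable {κ : Type} [Fintype κ] [DecidableEq κ] {e : ℕ}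

/-- determinant of a family of functionals on the monomials -/
def DetF (g : κ ≃ Mb e) (Λ : κ → R2 →ₗ[ℂ] ℂ) : ℂ :=
  (Matrix.of fun i j : κ => Λ i (mono 0 0 (g j).1)).det

/-- `Δ = det (z i ^ a * w i ^ b)` -/
def Delta (g : κ ≃ Mb e) (z w : κ → ℂ) : ℂ :=
  (Matrix.of fun i j : κ => z i ^ ((g j).1.1 : ℕ) * w i ^ ((g j).1.2 : ℕ)).det

/-- every family of functionals with levels `l, l'` has determinant of order `ν` -/
def Cl (g : κ ≃ Mb e) (z w : ℂ → κ → ℂ) (l l' : κ → ℤ) (ν : ℝ) : Prop :=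
  ∀ Λ : ℂ → κ → R2 →ₗ[ℂ] ℂ,
    (∀ i, IntF e (fun s => Λ s i) (fun s => z s i) (fun s => w s i) (l i) (l' i)) →
      Bd (fun s => DetF g (Λ s)) ν

end

/-- least total weight of `s` exponents -/
def gmin {e : ℕ} (wt : Box e → ℕ) (s : ℕ) : ℕ :=
  sInf {x | ∃ T : Finset (Box e), T.card = s ∧ x = ∑ m ∈ T, wt m}

/-- weight of a z-step -/
def wZ {e : ℕ} (m : Box e) : ℕ := m.1
/-- weight of a w-step -/
def wW {e : ℕ} (m : Box e) : ℕ := m.2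
/-- weight of a joint step -/
def wJ {e : ℕ} (m : Box e) : ℕ := m.1 + m.2
/-- weight of the diagonal step -/
def wD {e : ℕ} (m : Box e) : ℕ := min (m.2 : ℕ) (e - 1 - m.1)

/-- degree of `Δ` in `z` -/
def sig (e : ℕ) : ℝ := ((e : ℝ) - 1) * ((e : ℝ) ^ 2 - 2) / 2

/-! ### E. constants and the function `U` -/

/-- `e` -/
abbrev eP (ρ : ℕ) : ℕ := 8 * ρ
/-- `m` -/
abbrev mP (ρ : ℕ) : ℕ := 64 * ρ
/-- `N = e ^ 2` -/
abbrev NP (ρ : ℕ) : ℕ := 64 * ρ ^ 2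
/-- `p` -/
abbrev pP (ρ : ℕ) : ℕ := 16 * ρ - 1
/-- `q` -/
abbrev qP (ρ : ℕ) : ℕ := 48 * ρ - 1
/-- `1 / (e + 1)` -/
def kD (ρ : ℕ) : ℝ := 1 / (8 * (ρ : ℝ) + 1)
/-- `(5 m / 8 - 1) / (m - 1)` -/
def kH (ρ : ℕ) : ℝ := (40 * (ρ : ℝ) - 1) / (64 * (ρ : ℝ) - 1)
/-- `y / C(N, m)` -/
def yC (ρ : ℕ) : ℝ := 21 * (ρ : ℝ) / ((NP ρ).choose (mP ρ) : ℝ)

/-- contribution of an edge to the order of one Hodge term -/
def hA (ρ s l : ℕ) : ℝ :=
  l * (kH ρ * ((s : ℝ) * ((s : ℝ) - 1) / 2) - Pf (pP ρ) (1 / 4 * s) - Pf (qP ρ) (3 / 4 * s)) -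
    cost (pP ρ) (qP ρ) (1 / 4) s l

/-- lower bound for `hA ρ s 2` -/
def H2 (ρ s : ℕ) : ℝ :=
  max (max 0 (((s : ℝ) * (64 * ρ - s) / (64 * ρ - 1) - 1) / 10))
    (max (((s.choose 2 : ℝ) - s.choose 3) / 10)
      ((((mP ρ - s).choose 2 : ℝ) - (mP ρ - s).choose 3) / 10))

/-- `min s (N - s)` -/
def sb (ρ s : ℕ) : ℕ := min s (NP ρ - s)

/-- loss of a single step -/
def bL (ρ s : ℕ) : ℝ :=
  min (kD ρ * ((sb ρ s).choose 2 : ℝ)) (kD ρ * ((s : ℝ) * (64 * (ρ : ℝ) ^ 2 - s) / (16 * ρ)))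

/-- loss of an odd edge -/
def aL (ρ s : ℕ) : ℝ := 5 / 4 * (21 * ρ) * min 1 (((sb ρ s).choose 2 : ℝ) / (ρ : ℝ) ^ 2)

/-- average contribution of an edge to the Hodge terms -/
def avgH {α : Type} [Fintype α] [DecidableEq α] (ρ : ℕ) (T : Finset α) (l : ℕ) : ℝ :=
  yC ρ * ∑ I ∈ Finset.powersetCard (mP ρ) (Finset.univ : Finset α), hA ρ (T ∩ I).card l

/-- one Hodge term -/
def HT {J : Type} [Fintype J] [DecidableEq J] (ρ : ℕ) (z τ : J → ℂ) (π : Piv (pP ρ) (qP ρ)) : ℝ :=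
  Real.log (Phi (pP ρ) (qP ρ) z τ π) + kH ρ * Lsum z

section
variable {κ : Type} [Fintype κ] [DecidableEq κ]

/-- restriction to the finite points of `I` -/
def rs (I : Finset (Option κ)) (z : κ → ℂ) : I.eraseNone → ℂ := fun i => z i.1

/-- the `m`-subsets of the points and infinity -/
def II (κ : Type) [Fintype κ] (ρ : ℕ) : Finset (Finset (Option κ)) :=
  Finset.powersetCard (mP ρ) Finset.univ

/-- a pivot for each subset -/
abbrev Pivs (κ : Type) (ρ : ℕ) : Type := Finset (Option κ) → Piv (pP ρ) (qP ρ)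

/-- the function `U` -/
def Uf (ρ : ℕ) (g : κ ≃ Mb (eP ρ)) (πz πw : Pivs κ ρ) (z τ w τ' : κ → ℂ) : ℝ :=
  2 * Real.log ‖Delta g z w‖ - kD ρ * (Lsum z + Lsum w) +
    yC ρ * ∑ I ∈ II κ ρ, (HT ρ (rs I z) (rs I τ) (πz I) + HT ρ (rs I w) (rs I τ') (πw I))

/-- nothing degenerates -/
def Good (ρ : ℕ) (g : κ ≃ Mb (eP ρ)) (πz πw : Pivs κ ρ) (z τ w τ' : κ → ℂ) : Prop :=
  Function.Injective z ∧ Function.Injective w ∧ Delta g z w ≠ 0 ∧
    ∀ I ∈ II κ ρ, Valid (theta (pP ρ) (qP ρ) (rs I z) (rs I τ)) (πz I) ∧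
      Valid (theta (pP ρ) (qP ρ) (rs I w) (rs I τ')) (πw I)

/-- weighted sum of the ranks -/
def rk (ρ : ℕ) (πz πw : Pivs κ ρ) : ℝ := yC ρ * ∑ I ∈ II κ ρ, (((πz I).r : ℝ) + (πw I).r)

end

/-! ### F. the family over the line -/

/-- polynomial data with square distances -/
structure Fam (κ : Type) where
  x : κ → ℂ[X]
  η : κ → ℂ[X]
  D : ℂ[X]
  dd : κ → κ → ℂ[X]
  ident : ∀ i j, (x i - x j) ^ 2 - (η i - η j) ^ 2 * D = dd i j ^ 2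

/-- `z = x + η δ` -/
def Fam.z {κ : Type} (F : Fam κ) (t δ : ℂ) (i : κ) : ℂ := (F.x i).eval t + (F.η i).eval t * δ

/-- `dz / dt` on the curve `δ ^ 2 = D t` -/
def Fam.τ {κ : Type} (F : Fam κ) (t δ : ℂ) (i : κ) : ℂ :=
  (derivative (F.x i)).eval t + (derivative (F.η i)).eval t * δ +
    (F.η i).eval t * (derivative F.D).eval t / (2 * δ)

/-- the curve -/
def Rt (D : ℂ[X]) (t δ : ℂ) : Prop := δ ^ 2 = D.eval t ∧ (D = 1 → δ = 1)

/-- the function has the form `(P + Q δ) / M ^ k` on the curve -/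
def Reg (D M : ℂ[X]) (h : ℂ → ℂ → ℂ) : Prop :=
  ∃ (P Q : ℂ[X]) (k : ℕ), ∀ t δ, δ ^ 2 = D.eval t → M.eval t ≠ 0 →
    h t δ * M.eval t ^ k = P.eval t + Q.eval t * δ

end

end Pool.Agent.P.MP_a62d3c_co.FF
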