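import Pool.Agent.P.MP_a62d3c_co.FF.Rs1

namespace Pool.Agent.P.MP_a62d3c_co.FF

open Filter Topology Polynomial MeasureTheory Asymptotics
open scoped ComplexConjugate Matrix ComplexOrder

variable {J : Type} [Fintype J] [DecidableEq J]

theorem Edge_mn {d : J → J → ℤ} {c : J} {S : Finset J} (hc : c ∈ S) {lo hi : ℤ}
    (hin : ∀ i ∈ S, i ≠ c → hi ≤ d i c) (hout : ∀ i, i ∉ S → d i c ≤ lo) {l : ℝ}
    (h1 : (lo : ℝ) ≤ l) (h2 : l ≤ hi) (w : J → ℝ) :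
    ∑ i, w i * mn d i c l = l * ∑ i ∈ S, w i + ∑ i ∈ Sᶜ, w i * d i c := by
  rw [← Finset.sum_add_sum_compl S, Finset.mul_sum]
  congr 1
  · refine Finset.sum_congr rfl fun i hm => ?_
    unfold mn
    by_cases h : i = c
    · rw [if_pos h, mul_comm]
    · have : (hi : ℝ) ≤ d i c := by exact_mod_cast hin i hm h
      rw [if_neg h, min_eq_left (h2.trans this), mul_comm]
  · refine Finset.sum_congr rfl fun i hi => ?_
    have hi' : i ∉ S := Finset.mem_compl.1 hi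
    have h : i ≠ c := fun e => hi' (e ▸ hc)
    have : (d i c : ℝ) ≤ lo := by exact_mod_cast hout i hi'
    unfold mn
    rw [if_neg h, min_eq_right (this.trans h1)]

theorem Edge_En {d : J → J → ℤ} {c : J} {S : Finset J} (hc : c ∈ S) {lo hi : ℤ}
    (hin : ∀ i ∈ S, i ≠ c → hi ≤ d i c) (hout : ∀ i, i ∉ S → d i c ≤ lo) {l : ℝ}
    (h1 : (lo : ℝ) ≤ l) (h2 : l ≤ hi) (mu : J → ℕ) (μ : ℝ) :
    En d mu μ c l = l * (((∑ i ∈ S, mu i : ℕ) : ℝ) + 1 - μ * S.card) +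
      ∑ i ∈ Sᶜ, (mu i : ℝ) * d i c - μ * ∑ i ∈ Sᶜ, (d i c : ℝ) := by
  unfold En
  rw [Edge_mn hc hin hout h1 h2]
  simp only [sub_mul, Finset.sum_sub_distrib, Finset.sum_const, nsmul_eq_mul, Nat.cast_sum,
    ← Finset.mul_sum]
  ring

theorem Edge_nP (z : J → ℂ) (m : J → ℕ) (c : J) (x : ℂ) :
    (nP z (m + Pi.single c 1)).eval x = (x - z c) * (nP z m).eval x := by
  unfold nP
  simp only [Pi.add_apply, pow_add, Finset.prod_mul_distrib, eval_mul]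
  rw [mul_comm]
  congr 1
  rw [Finset.prod_eq_single c]
  · simp
  · intro b _ hb
    rw [Pi.single_eq_of_ne hb, pow_zero]
  · intro h
    exact absurd (Finset.mem_univ c) h

omit [Fintype J] in
theorem Edge_sumS {c : J} {S : Finset J} (hc : c ∈ S) (mu mu' : J → ℕ) :
    ∑ i ∈ S, (mu + mu' + Pi.single c 1 : J → ℕ) i = ∑ i ∈ S, mu i + ∑ i ∈ S, mu' i + 1 := by
  simp only [Pi.add_apply, Finset.sum_add_distrib]
  rw [Finset.sum_pi_single', if_pos hc]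

theorem Edge_out {c : J} {S : Finset J} (hc : c ∈ S) (mu mu' : J → ℕ) {i : J} (hi : i ∈ Sᶜ) :
    (mu + mu' + Pi.single c 1 : J → ℕ) i = mu i + mu' i := by
  have h : i ≠ c := fun e => Finset.mem_compl.1 hi (e ▸ hc)
  simp only [Pi.add_apply]
  rw [Pi.single_eq_of_ne h, add_zero]

theorem Edge_sumC {d : J → J → ℤ} {c : J} {S : Finset J} (hc : c ∈ S) (mu mu' : J → ℕ) :
    ∑ i ∈ Sᶜ, ((((mu + mu' + Pi.single c 1 : J → ℕ) i : ℕ) : ℝ) - 1) * d i c =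
      ∑ i ∈ Sᶜ, (mu i : ℝ) * d i c + ∑ i ∈ Sᶜ, (mu' i : ℝ) * d i c - ∑ i ∈ Sᶜ, (d i c : ℝ) := by
  rw [← Finset.sum_add_distrib, ← Finset.sum_sub_distrib]
  refine Finset.sum_congr rfl fun i hi => ?_
  rw [Edge_out hc mu mu' hi]
  push_cast
  ring

theorem Edge_exp {d : J → J → ℤ} {c : J} {S : Finset J} (hc : c ∈ S) {lo hi : ℤ}
    (hin : ∀ i ∈ S, i ≠ c → hi ≤ d i c) (hout : ∀ i, i ∉ S → d i c ≤ lo) {l : ℝ}
    (h1 : (lo : ℝ) ≤ l) (h2 : l ≤ hi) (mu mu' : J → ℕ) :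
    l + ∑ i, ((((mu + mu' + Pi.single c 1 : J → ℕ) i : ℕ) : ℝ) - 1) * mn d i c l =
      l * (((∑ i ∈ S, mu i : ℕ) : ℝ) + ((∑ i ∈ S, mu' i : ℕ) : ℝ) + 2 - S.card) +
      (∑ i ∈ Sᶜ, (mu i : ℝ) * d i c + ∑ i ∈ Sᶜ, (mu' i : ℝ) * d i c -
        ∑ i ∈ Sᶜ, (d i c : ℝ)) := by
  rw [Edge_mn hc hin hout h1 h2, Edge_sumC hc, Finset.sum_sub_distrib, ← Nat.cast_sum,
    Edge_sumS hc]
  simp only [Finset.sum_const, nsmul_eq_mul, Nat.cast_add, Nat.cast_one]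
  ring

theorem Edge_up {z : ℂ → J → ℂ} {d : J → J → ℤ} (hS : Sep z d) {c : J} {S : Finset J}
    (hc : c ∈ S) (mu : J → ℕ) :
    Bd (fun s => ∏ i ∈ Sᶜ, (z s c - z s i) ^ mu i) (∑ i ∈ Sᶜ, (mu i : ℝ) * d i c) := by
  refine Bd.prod fun i hi => Bd.pow ?_ _
  have h : i ≠ c := fun e => Finset.mem_compl.1 hi (e ▸ hc)
  exact (hS.up i c h).neg.congr (Eventually.of_forall fun s => by ring)

theorem Edge_low {z : ℂ → J → ℂ} {d : J → J → ℤ} (hS : Sep z d) {c : J} {S : Finset J}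
    (hc : c ∈ S) :
    Bd (fun s => (∏ i ∈ Sᶜ, (z s c - z s i))⁻¹) (-∑ i ∈ Sᶜ, (d i c : ℝ)) := by
  simp only [← Finset.prod_inv_distrib, ← Finset.sum_neg_distrib]
  refine Bd.prod fun i hi => ?_
  have h : i ≠ c := fun e => Finset.mem_compl.1 hi (e ▸ hc)
  exact (hS.low i c h).neg.congr (Eventually.of_forall fun s => by
    rw [← neg_sub (z s i), inv_neg])

/-- Paper section 5, one edge (cluster `S ∋ c`, levels `lo`, `hi = lo + len`). The edge term is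
`s⁻¹ ∑_{i ∈ S} nP (mu + mu' + single c 1) (z i) / dpr i`. `En mu μ c l + En mu' (1 - μ) c l =
2 l + ∑ (mu + mu' - 1) mn` is the exponent given by `rs_le` at `l = lo` (first case) and `l = hi`
(second case); the two values differ by `len (2 + k + k' - |S|)`. -/
theorem edge_reg {z : ℂ → J → ℂ} {d : J → J → ℤ} (hS : Sep z d) {c : J} {S : Finset J}
    (hc : c ∈ S) {lo : ℤ} {len : ℕ} (hl : len ≠ 0) (hin : ∀ i ∈ S, i ≠ c → lo + len ≤ d i c)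
    (hout : ∀ i, i ∉ S → d i c ≤ lo) {μ ν ν' : ℝ} {mu mu' : J → ℕ}
    (hν : ν ≤ En d mu μ c lo ∧ ν ≤ En d mu μ c (lo + len))
    (hν' : ν' ≤ En d mu' (1 - μ) c lo ∧ ν' ≤ En d mu' (1 - μ) c (lo + len))
    (hk : ∑ i ∈ S, mu i + ∑ i ∈ S, mu' i + 2 ≠ S.card) :
    Bd (fun s => s⁻¹ * ∑ i ∈ S,
      (z s i - z s c) * (nP (z s) (mu + mu')).eval (z s i) / dpr (z s) i) (ν + ν') := by
  have hlen : (1 : ℝ) ≤ len := by exact_mod_cast Nat.one_le_iff_ne_zero.2 hl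
  have hlen' : (1 : ℤ) ≤ len := by exact_mod_cast Nat.one_le_iff_ne_zero.2 hl
  have c1 : (lo : ℝ) ≤ ((lo + len : ℤ) : ℝ) := by push_cast; linarith
  have c2 : (lo : ℝ) + len = ((lo + len : ℤ) : ℝ) := by push_cast; ring
  rw [c2, Edge_En hc hin hout le_rfl c1, Edge_En hc hin hout c1 le_rfl, ← c2] at hν hν'
  have key : Bd (fun s => ∑ i ∈ S,
      (nP (z s) (mu + mu' + Pi.single c 1)).eval (z s i) / dpr (z s) i) (ν + ν' + 1) := by
    rcases lt_or_gt_of_ne hk with h | h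
    · have h' : ((∑ i ∈ S, mu i : ℕ) : ℝ) + ((∑ i ∈ S, mu' i : ℕ) : ℝ) + 2 + 1 ≤ S.card := by
        exact_mod_cast h
      refine (rs_le hS hc (l := lo) (Or.inl ⟨fun i hi hic => ?_, hout⟩) _).mono ?_
      · have := hin i hi hic
        omega
      · rw [Edge_exp hc hin hout le_rfl c1]
        nlinarith [hν.2, hν'.2]
    · have h' : (S.card : ℝ) + 1 ≤
          ((∑ i ∈ S, mu i : ℕ) : ℝ) + ((∑ i ∈ S, mu' i : ℕ) : ℝ) + 2 := by
        exact_mod_cast h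
      refine (rs_le hS hc (l := lo + len) (Or.inr ⟨hin, fun i hi => ?_⟩) _).mono ?_
      · have := hout i hi
        omega
      · rw [Edge_exp hc hin hout c1 le_rfl, ← c2]
        nlinarith [hν.1, hν'.1]
  simp only [Edge_nP] at key
  exact (bd_inv.mul key).of_eq (by ring)

/-- the case `j = 0`: `rs_one`; `En mu μ c l = l θ + ∑_{i ∉ S} (mu i - μ) d i c` with
`θ = 1 + k - μ |S|`, and `-θ` for `mu'` -/
theorem edge_rem {z : ℂ → J → ℂ} {d : J → J → ℤ} (hS : Sep z d) {c : J} {S : Finset J}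
    (hc : c ∈ S) {lo : ℤ} {len : ℕ} (hl : len ≠ 0) (hin : ∀ i ∈ S, i ≠ c → lo + len ≤ d i c)
    (hout : ∀ i, i ∉ S → d i c ≤ lo) {μ ν ν' : ℝ} {mu mu' : J → ℕ}
    (hν : ν ≤ En d mu μ c lo ∧ ν ≤ En d mu μ c (lo + len))
    (hν' : ν' ≤ En d mu' (1 - μ) c lo ∧ ν' ≤ En d mu' (1 - μ) c (lo + len))
    (hk : ∑ i ∈ S, mu i + ∑ i ∈ S, mu' i + 2 = S.card) :
    Bd (fun s => s⁻¹ * ∑ i ∈ S,
        (z s i - z s c) * (nP (z s) (mu + mu')).eval (z s i) / dpr (z s) i -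
      (∏ i ∈ Sᶜ, (z s c - z s i) ^ mu i) *
        (s⁻¹ * (∏ i ∈ Sᶜ, (z s c - z s i) ^ mu' i) / ∏ i ∈ Sᶜ, (z s c - z s i))) (ν + ν') := by
  have hlen' : (1 : ℤ) ≤ len := by exact_mod_cast Nat.one_le_iff_ne_zero.2 hl
  have c1 : (lo : ℝ) ≤ ((lo + len : ℤ) : ℝ) := by
    have : (0 : ℝ) ≤ len := Nat.cast_nonneg _
    push_cast; linarith
  have h1 := hν.1
  have h2 := hν'.1
  rw [Edge_En hc hin hout le_rfl c1] at h1 h2
  have hk' : ((∑ i ∈ S, mu i : ℕ) : ℝ) + ((∑ i ∈ S, mu' i : ℕ) : ℝ) + 2 = S.card := by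
    exact_mod_cast hk
  have key := rs_one hS hc (l := lo + len) hin (fun i hi => by
    have := hout i hi
    omega) (mu + mu' + Pi.single c 1) (by rw [Edge_sumS hc]; omega)
  rw [Edge_sumC hc] at key
  simp only [Edge_nP] at key
  refine ((bd_inv.mul key).mono ?_).congr (Eventually.of_forall fun s => ?_)
  · have h3 : (lo : ℝ) * (((∑ i ∈ S, mu i : ℕ) : ℝ) + 1 - μ * S.card) +
        (lo : ℝ) * (((∑ i ∈ S, mu' i : ℕ) : ℝ) + 1 - (1 - μ) * S.card) = 0 := by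
      rw [← mul_add]
      refine mul_eq_zero_of_right _ ?_
      linarith
    linarith
  · have h4 : ∏ i ∈ Sᶜ, (z s c - z s i) ^ (mu + mu' + Pi.single c 1 : J → ℕ) i =
        (∏ i ∈ Sᶜ, (z s c - z s i) ^ mu i) * ∏ i ∈ Sᶜ, (z s c - z s i) ^ mu' i := by
      rw [← Finset.prod_mul_distrib]
      exact Finset.prod_congr rfl fun i hi => by rw [Edge_out hc mu mu' hi, pow_add]
    rw [h4]
    ring

/-- orders of the two factors of the rank one term, `θ = k + 1 - μ |S|`: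
`α = μ ∑_{i ∉ S} d i c - min (lo θ) (hi θ)`, `β = max (lo θ) (hi θ) - μ ∑_{i ∉ S} d i c - 1` -/
theorem edge_fac {z : ℂ → J → ℂ} {d : J → J → ℤ} (hS : Sep z d) {c : J} {S : Finset J}
    (hc : c ∈ S) {lo : ℤ} {len : ℕ} (hin : ∀ i ∈ S, i ≠ c → lo + len ≤ d i c)
    (hout : ∀ i, i ∉ S → d i c ≤ lo) (μ : ℝ) (k : ℕ) :
    ∃ α β : ℝ, α + β = len * |(k : ℝ) + 1 - μ * S.card| - 1 ∧
      (∀ (mu : J → ℕ) (ν : ℝ), ∑ i ∈ S, mu i = k →
        ν ≤ En d mu μ c lo ∧ ν ≤ En d mu μ c (lo + len) →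
          Bd (fun s => ∏ i ∈ Sᶜ, (z s c - z s i) ^ mu i) (ν + α)) ∧
      ∀ (mu' : J → ℕ) (ν' : ℝ), k + ∑ i ∈ S, mu' i + 2 = S.card →
        ν' ≤ En d mu' (1 - μ) c lo ∧ ν' ≤ En d mu' (1 - μ) c (lo + len) →
          Bd (fun s => s⁻¹ * (∏ i ∈ Sᶜ, (z s c - z s i) ^ mu' i) / ∏ i ∈ Sᶜ, (z s c - z s i))
            (ν' + β) := by
  have hlen : (0 : ℝ) ≤ len := Nat.cast_nonneg _
  have c1 : (lo : ℝ) ≤ ((lo + len : ℤ) : ℝ) := by push_cast; linarith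
  have c2 : (lo : ℝ) + len = ((lo + len : ℤ) : ℝ) := by push_cast; ring
  set θ : ℝ := (k : ℝ) + 1 - μ * S.card with hθ
  refine ⟨μ * ∑ i ∈ Sᶜ, (d i c : ℝ) - min (lo * θ) ((lo + len) * θ),
    max (lo * θ) ((lo + len) * θ) - μ * ∑ i ∈ Sᶜ, (d i c : ℝ) - 1, ?_, ?_, ?_⟩
  · have h1 := max_sub_min_eq_abs ((lo : ℝ) * θ) ((lo + len) * θ)
    have h2 : |((lo : ℝ) + len) * θ - lo * θ| = len * |θ| := by
      rw [show ((lo : ℝ) + len) * θ - lo * θ = len * θ by ring, abs_mul, abs_of_nonneg hlen]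
    linarith
  · intro mu ν hk hν
    rw [c2, Edge_En hc hin hout le_rfl c1, Edge_En hc hin hout c1 le_rfl, ← c2, hk, ← hθ] at hν
    refine (Edge_up hS hc mu).mono ?_
    rcases min_choice ((lo : ℝ) * θ) ((lo + len) * θ) with h | h <;> rw [h] <;>
      linarith [hν.1, hν.2]
  · intro mu' ν' hk hν
    have hk' : (k : ℝ) + ((∑ i ∈ S, mu' i : ℕ) : ℝ) + 2 = S.card := by exact_mod_cast hk
    have h3 : ((∑ i ∈ S, mu' i : ℕ) : ℝ) + 1 - (1 - μ) * S.card = -θ := by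
      rw [hθ]; linarith
    rw [c2, Edge_En hc hin hout le_rfl c1, Edge_En hc hin hout c1 le_rfl, ← c2, h3] at hν
    refine (((bd_inv.mul (Edge_up hS hc mu')).mul (Edge_low hS hc)).mono ?_).congr
      (Eventually.of_forall fun s => (div_eq_mul_inv _ _).symm)
    rcases max_choice ((lo : ℝ) * θ) ((lo + len) * θ) with h | h <;> rw [h] <;>
      linarith [hν.1, hν.2]

end Pool.Agent.P.MP_a62d3c_co.FF
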