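import Pool.Agent.P.MP_a62d3c_co.FF.GD

namespace Pool.Agent.P.MP_a62d3c_co.FF

open Filter Topology Polynomial MeasureTheory Asymptotics
open scoped ComplexConjugate Matrix ComplexOrder

variable {J : Type} [Fintype J] [DecidableEq J] {U : Set ℂ} {z : ℂ → J → ℂ} {P Q : ℂ → ℂ[X]}
  {a b : ℕ} {μ γ : ℝ}

theorem Err_sep (hz : ∀ j, AnalyticOnNhd ℂ (fun t => z t j) U)
    (hi : ∀ t ∈ U, Function.Injective (z t)) {K : Set ℂ} (hK : IsCompact K) (hKU : K ⊆ U) :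
    ∃ c : ℝ, 0 < c ∧ ∀ t ∈ K, ∀ i j, i ≠ j → c ≤ ‖z t i - z t j‖ := by
  have h1 : ∀ p : J × J, ∀ᶠ c in 𝓝[>] (0 : ℝ), ∀ t ∈ K, p.1 ≠ p.2 → c ≤ ‖z t p.1 - z t p.2‖ := by
    rintro ⟨i, j⟩
    by_cases hij : i = j
    · exact Eventually.of_forall fun _ _ _ h => absurd hij h
    have hc : ContinuousOn (fun t => ‖z t i - z t j‖) K :=
      (((hz i).continuousOn.mono hKU).sub ((hz j).continuousOn.mono hKU)).norm
    obtain ⟨c, hc0, hc⟩ := hK.exists_forall_le' hc (a := 0) fun t ht =>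
      norm_pos_iff.2 (sub_ne_zero.2 fun e => hij (hi t (hKU ht) e))
    have : ∀ᶠ x in 𝓝[>] (0 : ℝ), x < c := (gt_mem_nhds hc0).filter_mono nhdsWithin_le_nhds
    filter_upwards [this] with x hx t ht _ using hx.le.trans (hc t ht)
  obtain ⟨c, h2, h3⟩ := ((eventually_all.2 h1).and self_mem_nhdsWithin).exists
  exact ⟨c, h3, fun t ht i j hij => h2 (i, j) t ht hij⟩

theorem Err_bdd (hz : ∀ j, AnalyticOnNhd ℂ (fun t => z t j) U) {K : Set ℂ} (hK : IsCompact K)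
    (hKU : K ⊆ U) : ∃ R : ℝ, ∀ t ∈ K, ∀ i, ‖z t i‖ ≤ R := by
  have hc : ContinuousOn z K := continuousOn_pi.2 fun j => (hz j).continuousOn.mono hKU
  obtain ⟨R, hR⟩ := hK.exists_bound_of_continuousOn hc
  exact ⟨R, fun t ht i => (norm_le_pi_norm (z t) i).trans (hR t ht)⟩

theorem Err_ae (w : J → ℂ) : ∀ᵐ x : ℂ, (fP w).eval x ≠ 0 := by
  have h : ∀ᵐ x : ℂ, x ∉ Set.range w :=
    measure_eq_zero_iff_ae_notMem.1 ((Set.finite_range w).measure_zero volume)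
  filter_upwards [h] with x hx
  rw [fP, eval_prod]
  refine Finset.prod_ne_zero_iff.2 fun j _ => ?_
  rw [eval_sub, eval_X, eval_C]
  exact sub_ne_zero.2 fun e => hx ⟨j, e.symm⟩

theorem Err_core {ν : ℝ} (hz : ∀ j, AnalyticOnNhd ℂ (fun t => z t j) U)
    (hi : ∀ t ∈ U, Function.Injective (z t)) (hP : PF U a P) (hQ : PF U b Q) (hν : 0 < ν)
    (h1 : ν < 1) (hd : (a : ℝ) + b < 2 * ν * Fintype.card J)
    {K : Set ℂ} (hK : IsCompact K) (hKU : K ⊆ U) :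
    ∃ M, ∀ t ∈ K, ∀ (F : ℂ → ℂ) (c : ℝ), 0 ≤ c →
      (∀ x, (fP (z t)).eval x ≠ 0 → ‖F x‖ ≤
        ‖(P t).eval x‖ * ‖(Q t).eval x‖ * (c * (‖(fP (z t)).eval x‖ ^ 2) ^ (-ν))) →
      ‖∫ x, F x‖ ≤ M * c := by
  by_cases hab : a = 0 ∨ b = 0
  · refine ⟨0, fun t ht F c hc h => ?_⟩
    have h0 : ∀ x, ‖(P t).eval x‖ * ‖(Q t).eval x‖ = 0 := by
      intro x
      rcases hab with rfl | rfl
      · have : P t = 0 := by
          have := hP.1 t (hKU ht)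
          rwa [Nat.cast_zero, Nat.WithBot.lt_zero_iff, degree_eq_bot] at this
        rw [this, eval_zero, norm_zero, zero_mul]
      · have : Q t = 0 := by
          have := hQ.1 t (hKU ht)
          rwa [Nat.cast_zero, Nat.WithBot.lt_zero_iff, degree_eq_bot] at this
        rw [this, eval_zero, norm_zero, mul_zero]
    have : ‖∫ x, F x‖ ≤ ∫ _x : ℂ, (0 : ℝ) := by
      refine norm_integral_le_of_norm_le (integrable_zero _ _ _) ?_
      filter_upwards [Err_ae (z t)] with x hx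
      have := h x hx
      rwa [h0, zero_mul] at this
    rwa [integral_zero, ← zero_mul c] at this
  · have ha : a ≠ 0 := fun e => hab (Or.inl e)
    have hb : b ≠ 0 := fun e => hab (Or.inr e)
    obtain ⟨c0, hc0, hsep⟩ := Err_sep hz hi hK hKU
    obtain ⟨R, hR⟩ := Err_bdd hz hK hKU
    obtain ⟨M1, hM1, hP1⟩ := hP.bound hK hKU
    obtain ⟨M2, hM2, hQ1⟩ := hQ.bound hK hKU
    have hk : (((a - 1) + (b - 1) : ℕ) : ℝ) + 2 < 2 * ν * Fintype.card J := by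
      have : (a - 1) + (b - 1) + 2 = a + b := by omega
      have h2 : (((a - 1) + (b - 1) : ℕ) : ℝ) + 2 = a + b := by exact_mod_cast this
      rwa [h2]
    obtain ⟨B, hB⟩ := ub (J := J) c0 R ν ((a - 1) + (b - 1)) hc0 hν h1 hk
    refine ⟨M1 * M2 * B, fun t ht F c hc h => ?_⟩
    obtain ⟨hint, hle⟩ := hB (z t) (hsep t ht) (hR t ht)
    have h3 : ‖∫ x, F x‖ ≤ ∫ x : ℂ, (M1 * M2 * c) *
        ((1 + ‖x‖) ^ ((a - 1) + (b - 1)) * (‖(fP (z t)).eval x‖ ^ 2) ^ (-ν)) := by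
      refine norm_integral_le_of_norm_le (hint.const_mul _) ?_
      filter_upwards [Err_ae (z t)] with x hx
      refine (h x hx).trans ?_
      have e1 : ‖(P t).eval x‖ * ‖(Q t).eval x‖ ≤
          (M1 * (1 + ‖x‖) ^ (a - 1)) * (M2 * (1 + ‖x‖) ^ (b - 1)) :=
        mul_le_mul (hP1 t ht x) (hQ1 t ht x) (norm_nonneg _) (by positivity)
      have e2 : 0 ≤ c * (‖(fP (z t)).eval x‖ ^ 2) ^ (-ν) := by positivity
      refine (mul_le_mul_of_nonneg_right e1 e2).trans_eq ?_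
      rw [pow_add]
      ring
    rw [integral_const_mul] at h3
    refine h3.trans ((mul_le_mul_of_nonneg_left hle (by positivity)).trans_eq ?_)
    ring

theorem Err_ineq1 {s ε μ γ : ℝ} {k : ℕ} (hs : 0 < s) (hε : 0 < ε) (hμ : 0 < μ) (hγ : 0 < γ)
    (h1 : μ + γ < 1) (hk : 1 ≤ k) :
    ε ^ k * (s + ε) ^ (-(μ + k)) ≤ ε ^ γ * s ^ (-(μ + γ)) := by
  have hk' : (1 : ℝ) ≤ k := by exact_mod_cast hk
  have hse : 0 < s + ε := by linarith
  have e1 : ε ^ k = ε ^ γ * ε ^ ((k : ℝ) - γ) := by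
    rw [← Real.rpow_add hε, ← Real.rpow_natCast]
    congr 1
    ring
  have e2 : ε ^ ((k : ℝ) - γ) ≤ (s + ε) ^ ((k : ℝ) - γ) :=
    Real.rpow_le_rpow hε.le (by linarith) (by linarith)
  have e3 : (s + ε) ^ ((k : ℝ) - γ) * (s + ε) ^ (-(μ + k)) = (s + ε) ^ (-(μ + γ)) := by
    rw [← Real.rpow_add hse]
    congr 1
    ring
  have e4 : (s + ε) ^ (-(μ + γ)) ≤ s ^ (-(μ + γ)) :=
    Real.rpow_le_rpow_of_nonpos hs (by linarith) (by linarith)
  rw [e1, mul_assoc]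
  refine mul_le_mul_of_nonneg_left ?_ (Real.rpow_nonneg hε.le _)
  exact (mul_le_mul_of_nonneg_right e2 (Real.rpow_nonneg hse.le _)).trans (e3.le.trans e4)

theorem Err_ineq0 {x μ γ : ℝ} (hx : 0 < x) (hμ : 0 < μ) (hγ : 0 < γ) (h1 : μ + γ < 1) :
    1 - (1 + x) ^ (-μ) ≤ x ^ γ := by
  rcases le_total 1 x with h | h
  · have e1 : 0 ≤ (1 + x) ^ (-μ) := Real.rpow_nonneg (by linarith) _
    have e2 : 1 ≤ x ^ γ := Real.one_le_rpow h hγ.le
    linarith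
  · have e1 : (1 + x) ^ (-1 : ℝ) ≤ (1 + x) ^ (-μ) :=
      Real.rpow_le_rpow_of_exponent_le (by linarith) (by linarith)
    have e2 : 1 - x ≤ (1 + x) ^ (-1 : ℝ) := by
      rw [Real.rpow_neg_one, inv_eq_one_div, le_div_iff₀ (by linarith)]
      nlinarith
    have e3 : x ^ (1 : ℝ) ≤ x ^ γ := Real.rpow_le_rpow_of_exponent_ge hx h (by linarith)
    rw [Real.rpow_one] at e3
    linarith

theorem Err_ineq2 {s ε μ γ : ℝ} (hs : 0 < s) (hε : 0 < ε) (hμ : 0 < μ) (hγ : 0 < γ)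
    (h1 : μ + γ < 1) : |(s + ε) ^ (-μ) - s ^ (-μ)| ≤ ε ^ γ * s ^ (-(μ + γ)) := by
  have e0 : (s + ε) ^ (-μ) ≤ s ^ (-μ) :=
    Real.rpow_le_rpow_of_nonpos hs (by linarith) (by linarith)
  have hx : 0 < ε / s := div_pos hε hs
  have e1 : (s + ε) ^ (-μ) = (1 + ε / s) ^ (-μ) * s ^ (-μ) := by
    rw [← Real.mul_rpow (by linarith) hs.le]
    congr 1
    field_simp
  have e2 : ε ^ γ * s ^ (-(μ + γ)) = (ε / s) ^ γ * s ^ (-μ) := by
    rw [Real.div_rpow hε.le hs.le, neg_add, Real.rpow_add hs, Real.rpow_neg hs.le γ]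
    ring
  rw [abs_sub_comm, abs_of_nonneg (by linarith), e1, e2]
  have e3 := mul_le_mul_of_nonneg_right (Err_ineq0 hx hμ hγ h1) (Real.rpow_nonneg hs.le (-μ))
  linarith

/-- `ε ^ k (s + ε) ^ (-μ - k) ≤ ε ^ γ s ^ (-μ - γ)` for `s > 0`, `k ≥ 1`; then `PF.bound`, `ub`
(the points are uniformly separated and bounded on `K`) -/
theorem err_pow (hz : ∀ j, AnalyticOnNhd ℂ (fun t => z t j) U)
    (hi : ∀ t ∈ U, Function.Injective (z t)) (hP : PF U a P) (hQ : PF U b Q) (hμ : 0 < μ)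
    (hγ : 0 < γ) (h1 : μ + γ < 1) (hd : (a : ℝ) + b < 2 * (μ + γ) * Fintype.card J)
    {K : Set ℂ} (hK : IsCompact K) (hKU : K ⊆ U) {k : ℕ} (hk : 1 ≤ k) :
    ∃ M, ∀ t ∈ K, ∀ ε : ℝ, 0 < ε →
      ‖(ε : ℂ) ^ k * mom (z t) (μ + k) ε (P t) (Q t)‖ ≤ M * ε ^ γ := by
  obtain ⟨M, hM⟩ := Err_core hz hi hP hQ (by linarith : 0 < μ + γ) h1 hd hK hKU
  refine ⟨M, fun t ht ε hε => ?_⟩
  rw [mom, ← integral_const_mul]
  refine hM t ht _ _ (Real.rpow_nonneg hε.le _) fun x hx => ?_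
  have hs : 0 < ‖(fP (z t)).eval x‖ ^ 2 := pow_pos (norm_pos_iff.2 hx) 2
  have e := Err_ineq1 hs hε hμ hγ h1 hk
  rw [momI, norm_mul, norm_mul, norm_mul, norm_pow, Complex.norm_real, Complex.norm_real,
    Complex.norm_conj, Real.norm_of_nonneg hε.le,
    Real.norm_of_nonneg (Real.rpow_nonneg (by linarith) _), mul_left_comm]
  exact mul_le_mul_of_nonneg_left e (by positivity)

/-- `s ^ (-μ) - (s + ε) ^ (-μ) ≤ ε ^ γ s ^ (-μ - γ)` -/
theorem err_zero (hz : ∀ j, AnalyticOnNhd ℂ (fun t => z t j) U)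
    (hi : ∀ t ∈ U, Function.Injective (z t)) (hP : PF U a P) (hQ : PF U b Q) (hμ : 0 < μ)
    (hγ : 0 < γ) (h1 : μ + γ < 1) (hd : (a : ℝ) + b < 2 * μ * Fintype.card J)
    {K : Set ℂ} (hK : IsCompact K) (hKU : K ⊆ U) :
    ∃ M, ∀ t ∈ K, ∀ ε : ℝ, 0 < ε →
      ‖mom (z t) μ ε (P t) (Q t) - mom (z t) μ 0 (P t) (Q t)‖ ≤ M * ε ^ γ := by
  have hd' : (a : ℝ) + b < 2 * (μ + γ) * Fintype.card J := by
    have : (0 : ℝ) ≤ Fintype.card J := Nat.cast_nonneg _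
    nlinarith
  obtain ⟨M, hM⟩ := Err_core hz hi hP hQ (by linarith : 0 < μ + γ) h1 hd' hK hKU
  refine ⟨M, fun t ht ε hε => ?_⟩
  have i1 := mom_int (z t) hμ hε (hP.1 t (hKU ht)) (hQ.1 t (hKU ht)) hd
  have i2 := mom_int0 (hi t (hKU ht)) hμ (by linarith) (hP.1 t (hKU ht)) (hQ.1 t (hKU ht)) hd
  rw [mom, mom, ← integral_sub i1 i2]
  refine hM t ht _ _ (Real.rpow_nonneg hε.le _) fun x hx => ?_
  have hs : 0 < ‖(fP (z t)).eval x‖ ^ 2 := pow_pos (norm_pos_iff.2 hx) 2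
  have e := Err_ineq2 hs hε hμ hγ h1
  rw [momI, momI, ← mul_sub, ← Complex.ofReal_sub, norm_mul, norm_mul, Complex.norm_real,
    Complex.norm_conj, Real.norm_eq_abs, add_zero]
  exact mul_le_mul_of_nonneg_left e (by positivity)

/-- locally uniform limit of the continuous functions of `gd_cont` -/
theorem cont_zero (hU : IsOpen U) (hz : ∀ j, AnalyticOnNhd ℂ (fun t => z t j) U)
    (hi : ∀ t ∈ U, Function.Injective (z t)) (hP : PF U a P) (hQ : PF U b Q) (hμ : 0 < μ)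
    (h1 : μ < 1) (hd : (a : ℝ) + b < 2 * μ * Fintype.card J) :
    ContinuousOn (fun t => mom (z t) μ 0 (P t) (Q t)) U := by
  intro t0 ht0
  obtain ⟨K, hK, hK0, hKU⟩ := exists_compact_subset hU ht0
  have hγ : 0 < (1 - μ) / 2 := by linarith
  obtain ⟨M, hM⟩ := err_zero hz hi hP hQ hμ hγ (by linarith) hd hK hKU
  have hlim : TendstoUniformlyOn (fun (ε : ℝ) t => mom (z t) μ ε (P t) (Q t))
      (fun t => mom (z t) μ 0 (P t) (Q t)) (𝓝[>] 0) K := by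
    rw [Metric.tendstoUniformlyOn_iff]
    intro η hη
    have h2 : Tendsto (fun ε : ℝ => M * ε ^ ((1 - μ) / 2)) (𝓝[>] 0) (𝓝 0) := by
      have h3 : ContinuousAt (fun ε : ℝ => M * ε ^ ((1 - μ) / 2)) 0 :=
        continuousAt_const.mul (Real.continuousAt_rpow_const 0 _ (Or.inr hγ.le))
      have h4 := h3.tendsto.mono_left (nhdsWithin_le_nhds (s := Set.Ioi 0))
      rwa [Real.zero_rpow hγ.ne', mul_zero] at h4
    filter_upwards [h2.eventually (gt_mem_nhds hη), self_mem_nhdsWithin] with ε h5 h6 t ht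
    rw [dist_comm, dist_eq_norm]
    exact (hM t ht ε h6).trans_lt h5
  have hc : ContinuousOn (fun t => mom (z t) μ 0 (P t) (Q t)) K := by
    refine hlim.continuousOn (Eventually.frequently ?_)
    filter_upwards [self_mem_nhdsWithin] with ε hε
    exact (gd_cont hU hz hP hQ hμ hε hd).mono hKU
  exact (hc.continuousAt (mem_interior_iff_mem_nhds.1 hK0)).continuousWithinAt

end Pool.Agent.P.MP_a62d3c_co.FF
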