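import Pool.Agent.P.MP_a62d3c_co.FF.Defs

namespace Pool.Agent.P.MP_a62d3c_co.FF

open Filter Topology Polynomial MeasureTheory Asymptotics
open scoped ComplexConjugate Matrix ComplexOrder

/-! API for analytic families of polynomials. -/

variable {U : Set ℂ} {P Q : ℂ → ℂ[X]} {a b : ℕ}

theorem PFa_eval {R : ℂ[X]} (h : R.degree < a) (x : ℂ) :
    R.eval x = ∑ k ∈ Finset.range a, R.coeff k * x ^ k := by
  by_cases hR : R = 0
  · simp [hR]
  · exact eval_eq_sum_range' ((natDegree_lt_iff_degree_lt hR).2 h) x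

theorem PFa_coeff_dT (n : ℕ) (P : ℂ → ℂ[X]) (t : ℂ) (k : ℕ) :
    (dT n P t).coeff k = if k < n then deriv (fun u => (P u).coeff k) t else 0 := by
  unfold dT
  rw [finsetSum_coeff]
  simp only [coeff_monomial]
  rw [Finset.sum_ite_eq' (Finset.range n) k fun j => deriv (fun u => (P u).coeff j) t]
  simp

theorem PF.mono (h : PF U a P) (hab : a ≤ b) : PF U b P :=
  ⟨fun t ht => (h.1 t ht).trans_le (by exact_mod_cast hab), h.2⟩

theorem PF.subset {V : Set ℂ} (h : PF U a P) (hV : V ⊆ U) : PF V a P :=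
  ⟨fun t ht => h.1 t (hV ht), fun k => (h.2 k).mono hV⟩

theorem PF.congr (hU : IsOpen U) (h : PF U a P) (he : ∀ t ∈ U, P t = Q t) : PF U a Q :=
  ⟨fun t ht => he t ht ▸ h.1 t ht,
    fun k => (h.2 k).congr hU fun t ht => by simp only [he t ht]⟩

theorem PF.add (h : PF U a P) (h' : PF U a Q) : PF U a fun t => P t + Q t := by
  refine ⟨fun t ht => (degree_add_le _ _).trans_lt (max_lt (h.1 t ht) (h'.1 t ht)), fun k => ?_⟩
  simp only [coeff_add]
  exact (h.2 k).add (h'.2 k)

theorem PF.sub (h : PF U a P) (h' : PF U a Q) : PF U a fun t => P t - Q t := by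
  refine ⟨fun t ht => (degree_sub_le _ _).trans_lt (max_lt (h.1 t ht) (h'.1 t ht)), fun k => ?_⟩
  simp only [coeff_sub]
  exact (h.2 k).sub (h'.2 k)

theorem pf_const {R : ℂ[X]} (h : R.degree < a) : PF U a fun _ => R :=
  ⟨fun _ _ => h, fun _ => analyticOnNhd_const⟩

theorem PF.C_mul {c : ℂ → ℂ} (hc : AnalyticOnNhd ℂ c U) (h : PF U a P) :
    PF U a fun t => C (c t) * P t := by
  refine ⟨fun t ht => ?_, fun k => ?_⟩
  · rw [degree_lt_iff_coeff_zero]
    intro m hm
    rw [coeff_C_mul, (degree_lt_iff_coeff_zero _ _).1 (h.1 t ht) m hm, mul_zero]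
  · simp only [coeff_C_mul]
    exact hc.mul (h.2 k)

theorem PF.sum {ι : Type*} {A : Finset ι} {R : ι → ℂ → ℂ[X]} (h : ∀ i ∈ A, PF U a (R i)) :
    PF U a fun t => ∑ i ∈ A, R i t := by
  classical
  induction A using Finset.induction_on with
  | empty =>
    simp only [Finset.sum_empty]
    exact pf_const (by rw [degree_zero]; exact WithBot.bot_lt_coe _)
  | insert i A hi ih =>
    simp only [Finset.sum_insert hi]
    exact (h i (Finset.mem_insert_self _ _)).add
      (ih fun j hj => h j (Finset.mem_insert_of_mem hj))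

theorem PF.mul (h : PF U a P) (h' : PF U (b + 1) Q) : PF U (a + b) fun t => P t * Q t := by
  refine ⟨fun t ht => ?_, fun k => ?_⟩
  · rw [degree_lt_iff_coeff_zero]
    intro m hm
    rw [coeff_mul]
    refine Finset.sum_eq_zero fun x hx => ?_
    have hx' : x.1 + x.2 = m := by simpa using hx
    by_cases h1 : a ≤ x.1
    · rw [(degree_lt_iff_coeff_zero _ _).1 (h.1 t ht) _ h1, zero_mul]
    · rw [(degree_lt_iff_coeff_zero _ _).1 (h'.1 t ht) x.2 (by omega), mul_zero]
  · simp only [coeff_mul]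
    exact Finset.analyticOnNhd_fun_sum _ fun x _ => (h.2 x.1).mul (h'.2 x.2)

theorem PF.deriv_x (h : PF U (a + 1) P) : PF U a fun t => derivative (P t) := by
  refine ⟨fun t ht => ?_, fun k => ?_⟩
  · rw [degree_lt_iff_coeff_zero]
    intro m hm
    rw [coeff_derivative, (degree_lt_iff_coeff_zero _ _).1 (h.1 t ht) (m + 1) (by omega), zero_mul]
  · simp only [coeff_derivative]
    exact (h.2 (k + 1)).mul analyticOnNhd_const

theorem PF.dT (h : PF U a P) : PF U a (dT a P) := by
  refine ⟨fun t _ => ?_, fun k => ?_⟩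
  · rw [degree_lt_iff_coeff_zero]
    intro m hm
    rw [PFa_coeff_dT, if_neg (by omega)]
  · simp only [PFa_coeff_dT]
    by_cases hk : k < a
    · simp only [if_pos hk]
      exact (h.2 k).deriv
    · simp only [if_neg hk]
      exact analyticOnNhd_const

theorem PFa_coeff_div {R : ℂ[X]} (h : R.degree < (a + 1 : ℕ)) (c : ℂ) (n : ℕ) :
    (R /ₘ (X - C c)).coeff n = ∑ i ∈ Finset.Icc (n + 1) a, c ^ (i - (n + 1)) * R.coeff i := by
  rw [coeff_divByMonic_X_sub_C]
  have hd : R.natDegree ≤ a := by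
    by_cases hR : R = 0
    · simp [hR]
    · exact Nat.lt_succ_iff.1 ((natDegree_lt_iff_degree_lt hR).2 h)
  refine Finset.sum_subset (Finset.Icc_subset_Icc_right hd) fun i hi hi' => ?_
  have h1 := (Finset.mem_Icc.1 hi).1
  have h2 : R.natDegree < i := by
    by_contra hn
    exact hi' (Finset.mem_Icc.2 ⟨h1, not_lt.1 hn⟩)
  rw [coeff_eq_zero_of_natDegree_lt h2, mul_zero]

/-- `Polynomial.coeff_divByMonic_X_sub_C` -/
theorem PF.div_lin {c : ℂ → ℂ} (hU : IsOpen U) (hc : AnalyticOnNhd ℂ c U) (h : PF U (a + 1) P) :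
    PF U a fun t => P t /ₘ (X - C (c t)) := by
  refine ⟨fun t ht => ?_, fun k => ?_⟩
  · rw [degree_lt_iff_coeff_zero]
    intro m hm
    rw [PFa_coeff_div (h.1 t ht), Finset.Icc_eq_empty (by omega), Finset.sum_empty]
  · have : AnalyticOnNhd ℂ
        (fun t => ∑ i ∈ Finset.Icc (k + 1) a, c t ^ (i - (k + 1)) * (P t).coeff i) U :=
      Finset.analyticOnNhd_fun_sum _ fun i _ => (hc.pow _).mul (h.2 i)
    exact this.congr hU fun t ht => (PFa_coeff_div (h.1 t ht) (c t) k).symm

theorem PF.eval_analytic (hU : IsOpen U) (h : PF U a P) {c : ℂ → ℂ} (hc : AnalyticOnNhd ℂ c U) :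
    AnalyticOnNhd ℂ (fun t => (P t).eval (c t)) U := by
  have : AnalyticOnNhd ℂ (fun t => ∑ k ∈ Finset.range a, (P t).coeff k * c t ^ k) U :=
    Finset.analyticOnNhd_fun_sum _ fun k _ => (h.2 k).mul (hc.pow _)
  exact this.congr hU fun t ht => (PFa_eval (h.1 t ht) (c t)).symm

theorem PF.hasDerivAt (hU : IsOpen U) (h : PF U a P) {t : ℂ} (ht : t ∈ U) (x : ℂ) :
    HasDerivAt (fun u => (P u).eval x) ((FF.dT a P t).eval x) t := by
  have h1 : HasDerivAt (fun u => ∑ k ∈ Finset.range a, (P u).coeff k * x ^ k)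
      (∑ k ∈ Finset.range a, deriv (fun u => (P u).coeff k) t * x ^ k) t :=
    HasDerivAt.fun_sum fun k _ => (h.2 k t ht).differentiableAt.hasDerivAt.mul_const _
  have h2 : (FF.dT a P t).eval x =
      ∑ k ∈ Finset.range a, deriv (fun u => (P u).coeff k) t * x ^ k := by
    unfold FF.dT
    rw [eval_finsetSum]
    simp only [eval_monomial]
  rw [h2]
  refine h1.congr_of_eventuallyEq ?_
  filter_upwards [hU.mem_nhds ht] with u hu
  exact PFa_eval (h.1 u hu) x

/-- uniform growth bound on compact sets (`a - 1` is truncated; for `a = 0` the family is `0`) -/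
theorem PF.bound (h : PF U a P) {K : Set ℂ} (hK : IsCompact K) (hKU : K ⊆ U) :
    ∃ M, 0 ≤ M ∧ ∀ t ∈ K, ∀ x : ℂ, ‖(P t).eval x‖ ≤ M * (1 + ‖x‖) ^ (a - 1) := by
  have h1 : ∀ k, ∃ M, 0 ≤ M ∧ ∀ t ∈ K, ‖(P t).coeff k‖ ≤ M := fun k => by
    obtain ⟨M, hM⟩ := hK.exists_bound_of_continuousOn ((h.2 k).continuousOn.mono hKU)
    exact ⟨max M 0, le_max_right _ _, fun t ht => (hM t ht).trans (le_max_left _ _)⟩
  choose M hM0 hM using h1
  refine ⟨∑ k ∈ Finset.range a, M k, Finset.sum_nonneg fun k _ => hM0 k, fun t ht x => ?_⟩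
  rw [PFa_eval (h.1 t (hKU ht)), Finset.sum_mul]
  refine (norm_sum_le _ _).trans (Finset.sum_le_sum fun k hk => ?_)
  have hk' : k ≤ a - 1 := by have := Finset.mem_range.1 hk; omega
  rw [norm_mul, norm_pow]
  refine mul_le_mul (hM k t ht) ?_ (by positivity) (hM0 k)
  calc ‖x‖ ^ k ≤ (1 + ‖x‖) ^ k := pow_le_pow_left₀ (norm_nonneg _) (by linarith) k
    _ ≤ (1 + ‖x‖) ^ (a - 1) := pow_le_pow_right₀ (by linarith [norm_nonneg x]) hk'

variable {J : Type} [Fintype J] [DecidableEq J] {z : ℂ → J → ℂ}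

theorem PFa_lin {c : ℂ → ℂ} (hc : AnalyticOnNhd ℂ c U) : PF U (1 + 1) fun t => X - C (c t) := by
  have h1 : PF U (1 + 1) fun _ => (X : ℂ[X]) := pf_const (by rw [degree_X]; norm_num)
  have h2 : PF U (1 + 1) fun _ => (1 : ℂ[X]) := pf_const (by rw [degree_one]; norm_num)
  simpa using h1.sub (h2.C_mul hc)

theorem pf_prod (hz : ∀ j, AnalyticOnNhd ℂ (fun t => z t j) U) (A : Finset J) :
    PF U (A.card + 1) fun t => ∏ j ∈ A, (X - C (z t j)) := by
  induction A using Finset.induction_on with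
  | empty =>
    simp only [Finset.prod_empty]
    exact pf_const (by rw [degree_one]; norm_num)
  | insert i A hi ih =>
    simp only [Finset.prod_insert hi, Finset.card_insert_of_notMem hi]
    simpa only [mul_comm] using ih.mul (PFa_lin (hz i))

theorem pf_fP (hz : ∀ j, AnalyticOnNhd ℂ (fun t => z t j) U) :
    PF U (Fintype.card J + 1) fun t => fP (z t) := pf_prod hz Finset.univ

theorem pf_fT (hz : ∀ j, AnalyticOnNhd ℂ (fun t => z t j) U) :
    PF U (Fintype.card J) fun t => fT (z t) (dz z t) := by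
  have h1 : PF U (Fintype.card J) fun t =>
      ∑ j, C (dz z t j) * ∏ i ∈ Finset.univ.erase j, (X - C (z t i)) := by
    refine PF.sum (R := fun j t => C (dz z t j) * ∏ i ∈ Finset.univ.erase j, (X - C (z t i)))
      fun j _ => PF.C_mul (c := fun t => dz z t j) (hz j).deriv ?_
    have h2 := pf_prod hz (Finset.univ.erase j)
    rw [Finset.card_erase_add_one (Finset.mem_univ j)] at h2
    exact h2
  have h0 : PF U (Fintype.card J) fun _ => (0 : ℂ[X]) :=
    pf_const (by rw [degree_zero]; exact WithBot.bot_lt_coe _)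
  simpa only [zero_sub, fT] using h0.sub h1

theorem fP_hasDerivAt (hz : ∀ j, AnalyticOnNhd ℂ (fun t => z t j) U) {t : ℂ} (ht : t ∈ U)
    (x : ℂ) : HasDerivAt (fun u => (fP (z u)).eval x) ((fT (z t) (dz z t)).eval x) t := by
  have h1 : HasDerivAt (fun u => ∏ j, (x - z u j))
      (∑ j, (∏ i ∈ Finset.univ.erase j, (x - z t i)) • (-dz z t j)) t :=
    HasDerivAt.fun_finsetProd fun j _ =>
      ((hz j t ht).differentiableAt.hasDerivAt).const_sub x
  have h2 : (fun u => (fP (z u)).eval x) = fun u => ∏ j, (x - z u j) := by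
    funext u
    simp [fP, eval_prod]
  have h3 : (fT (z t) (dz z t)).eval x =
      ∑ j, (∏ i ∈ Finset.univ.erase j, (x - z t i)) • (-dz z t j) := by
    simp only [fT, eval_neg, eval_finsetSum, eval_mul, eval_C, eval_prod, eval_sub, eval_X,
      smul_eq_mul, ← Finset.sum_neg_distrib]
    exact Finset.sum_congr rfl fun j _ => by ring
  rw [h2, h3]
  exact h1

end Pool.Agent.P.MP_a62d3c_co.FF
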