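import Pool.Agent.P.MP_a62d3c_co.FF.Mom
import Pool.Agent.P.MP_a62d3c_co.FF.PFa

namespace Pool.Agent.P.MP_a62d3c_co.FF

open Filter Topology Polynomial MeasureTheory Asymptotics
open scoped ComplexConjugate Matrix ComplexOrder

variable {J : Type} [Fintype J] [DecidableEq J] {U : Set ℂ} {z : ℂ → J → ℂ} {P Q : ℂ → ℂ[X]}
  {a b : ℕ} {ν ε : ℝ}

theorem GD_bound (hP : PF U a P) {K : Set ℂ} (hK : IsCompact K) (hKU : K ⊆ U) :
    ∃ M, 0 ≤ M ∧ ∀ t ∈ K, ∀ x : ℂ, ‖(P t).eval x‖ ≤ M * (1 + ‖x‖) ^ ((a : ℝ) - 1) := by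
  rcases Nat.eq_zero_or_pos a with rfl | ha
  · refine ⟨0, le_rfl, fun t ht x => ?_⟩
    have h1 := hP.1 t (hKU ht)
    rw [Nat.cast_zero, Nat.WithBot.lt_zero_iff, degree_eq_bot] at h1
    simp [h1]
  · obtain ⟨M, h0, hM⟩ := hP.bound hK hKU
    refine ⟨M, h0, fun t ht x => ?_⟩
    have := hM t ht x
    rwa [← Real.rpow_natCast, Nat.cast_sub ha, Nat.cast_one] at this

omit [DecidableEq J] in
theorem GD_low_pt {R : ℝ} (hR : 0 ≤ R) (hε : 0 < ε) : ∃ c : ℝ, 0 < c ∧ ∀ w : J → ℂ,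
    (∀ j, ‖w j‖ ≤ R) → ∀ x : ℂ,
      c * (1 + ‖x‖) ^ (2 * Fintype.card J) ≤ ‖(fP w).eval x‖ ^ 2 + ε := by
  refine ⟨min ((1 / 2) ^ (2 * Fintype.card J)) (ε / (2 * R + 2) ^ (2 * Fintype.card J)),
    by positivity, fun w hw x => ?_⟩
  have hx := norm_nonneg x
  rcases le_total (2 * R + 1) ‖x‖ with h | h
  · have h1 : ((1 + ‖x‖) / 2) ^ Fintype.card J ≤ ‖(fP w).eval x‖ := by
      rw [fP, eval_prod, norm_prod, ← Finset.card_univ, ← Finset.prod_const]
      refine Finset.prod_le_prod (fun j _ => by positivity) fun j _ => ?_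
      have := norm_sub_norm_le x (w j)
      simp only [eval_sub, eval_X, eval_C]
      linarith [hw j]
    calc _ ≤ (1 / 2) ^ (2 * Fintype.card J) * (1 + ‖x‖) ^ (2 * Fintype.card J) :=
          mul_le_mul_of_nonneg_right (min_le_left _ _) (by positivity)
      _ = (((1 + ‖x‖) / 2) ^ Fintype.card J) ^ 2 := by
          rw [← mul_pow, ← pow_mul, mul_comm (Fintype.card J) 2]
          congr 1
          ring
      _ ≤ ‖(fP w).eval x‖ ^ 2 := pow_le_pow_left₀ (by positivity) h1 2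
      _ ≤ _ := by linarith
  · calc _ ≤ ε / (2 * R + 2) ^ (2 * Fintype.card J) * (2 * R + 2) ^ (2 * Fintype.card J) :=
          mul_le_mul (min_le_right _ _) (pow_le_pow_left₀ (by positivity) (by linarith) _)
            (by positivity) (by positivity)
      _ = ε := div_mul_cancel₀ _ (by positivity)
      _ ≤ _ := by linarith [sq_nonneg ‖(fP w).eval x‖]

omit [DecidableEq J] in
theorem GD_low (hz : ∀ j, AnalyticOnNhd ℂ (fun t => z t j) U) (hε : 0 < ε) {K : Set ℂ}
    (hK : IsCompact K) (hKU : K ⊆ U) : ∃ c : ℝ, 0 < c ∧ ∀ t ∈ K, ∀ x : ℂ,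
      c * (1 + ‖x‖) ^ (2 * Fintype.card J) ≤ ‖(fP (z t)).eval x‖ ^ 2 + ε := by
  have hc : ContinuousOn z K :=
    continuousOn_pi.2 fun j => ((hz j).continuousOn).mono hKU
  obtain ⟨R, hR⟩ := hK.exists_bound_of_continuousOn hc
  obtain ⟨c, h0, h1⟩ := GD_low_pt (J := J) (le_max_right R 0) hε
  exact ⟨c, h0, fun t ht => h1 _ fun j =>
    (norm_le_pi_norm (z t) j).trans ((hR t ht).trans (le_max_left _ _))⟩

/-- a uniform integrable majorant on compact sets of parameters -/
theorem GD_dom (hz : ∀ j, AnalyticOnNhd ℂ (fun t => z t j) U) (hP : PF U a P)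
    (hQ : PF U b Q) (hν : 0 < ν) (hε : 0 < ε) (hd : (a : ℝ) + b < 2 * ν * Fintype.card J)
    {K : Set ℂ} (hK : IsCompact K) (hKU : K ⊆ U) : ∃ g : ℂ → ℝ, Integrable g ∧
      ∀ t ∈ K, ∀ x : ℂ, ‖momI (z t) ν ε (P t) (Q t) x‖ ≤ g x := by
  obtain ⟨M, hM0, hM⟩ := GD_bound hP hK hKU
  obtain ⟨N, hN0, hN⟩ := GD_bound hQ hK hKU
  obtain ⟨c, hc0, hc⟩ := GD_low hz hε hK hKU
  refine ⟨fun x => M * N * c ^ (-ν) * (1 + ‖x‖) ^ (-(2 * ν * Fintype.card J - a - b + 2)),
    (integrable_one_add_norm ?_).const_mul _, fun t ht x => ?_⟩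
  · rw [Complex.finrank_real_complex]
    push_cast
    linarith
  · have hx : 0 < 1 + ‖x‖ := by positivity
    have h1 : (‖(fP (z t)).eval x‖ ^ 2 + ε) ^ (-ν) ≤
        c ^ (-ν) * (1 + ‖x‖) ^ (-(2 * ν * Fintype.card J)) := by
      refine (Real.rpow_le_rpow_of_nonpos (by positivity) (hc t ht x) (by linarith)).trans_eq ?_
      rw [Real.mul_rpow hc0.le (by positivity), ← Real.rpow_natCast, ← Real.rpow_mul hx.le]
      congr 2
      push_cast
      ring
    rw [momI, norm_mul, norm_mul, Complex.norm_conj, Complex.norm_real, Real.norm_eq_abs,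
      abs_of_nonneg (by positivity)]
    calc _ ≤ M * (1 + ‖x‖) ^ ((a : ℝ) - 1) * (N * (1 + ‖x‖) ^ ((b : ℝ) - 1)) *
          (c ^ (-ν) * (1 + ‖x‖) ^ (-(2 * ν * Fintype.card J))) :=
          mul_le_mul (mul_le_mul (hM t ht x) (hN t ht x) (norm_nonneg _) (by positivity)) h1
            (by positivity) (by positivity)
      _ = _ := by
          beta_reduce
          rw [show -(2 * ν * Fintype.card J - a - b + 2) =
            ((a : ℝ) - 1) + ((b : ℝ) - 1) + -(2 * ν * Fintype.card J) by ring,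
            Real.rpow_add hx, Real.rpow_add hx]
          ring

omit [DecidableEq J] in
theorem GD_meas (w : J → ℂ) (ν : ℝ) (hε : 0 < ε) (A B : ℂ[X]) :
    AEStronglyMeasurable (momI w ν ε A B) := by
  refine Continuous.aestronglyMeasurable ?_
  unfold momI
  refine (A.continuous.mul (Complex.continuous_conj.comp B.continuous)).mul
    (Complex.continuous_ofReal.comp (Continuous.rpow_const ?_ fun x => Or.inl ?_))
  · exact ((fP w).continuous.norm.pow 2).add continuous_const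
  · positivity

theorem GD_line {h : ℂ → ℂ} {h' t τ : ℂ} {σ : ℝ} (H : HasDerivAt h h' (t + σ * τ)) :
    HasDerivAt (fun s : ℝ => h (t + s * τ)) (h' * τ) σ := by
  have h1 : HasDerivAt (fun s : ℂ => t + s * τ) τ σ := by
    simpa using ((hasDerivAt_id (σ : ℂ)).mul_const τ).const_add t
  exact (H.comp (σ : ℂ) h1).comp_ofReal

/-- the derivative of the integrand -/
theorem GD_pt (hU : IsOpen U) (hz : ∀ j, AnalyticOnNhd ℂ (fun t => z t j) U) (hP : PF U a P)
    (hQ : PF U b Q) (hε : 0 < ε) {t τ : ℂ} {σ : ℝ} {u : ℂ} (hu : u = t + σ * τ) (ht : u ∈ U)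
    (x : ℂ) :
    HasDerivAt (fun s : ℝ => momI (z (t + s * τ)) ν ε (P (t + s * τ)) (Q (t + s * τ)) x)
      (τ * (momI (z u) ν ε (dT a P u) (Q u) x -
          ν * momI (z u) (ν + 1) ε (P u * fT (z u) (dz z u)) (Q u * fP (z u)) x) +
        conj τ * (momI (z u) ν ε (P u) (dT b Q u) x -
          ν * momI (z u) (ν + 1) ε (P u * fP (z u)) (Q u * fT (z u) (dz z u)) x)) σ := by
  subst hu
  have h1 := GD_line (hP.hasDerivAt hU ht x)
  have h2 := (GD_line (hQ.hasDerivAt hU ht x)).star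
  have h3 := GD_line (fP_hasDerivAt hz ht x)
  have h4 := ((h3.norm_sq.add_const ε).rpow_const (p := -ν) (Or.inl (by positivity))).ofReal_comp
  refine ((h1.mul h2).mul h4).congr_deriv ?_
  rw [Complex.inner, show -ν - 1 = -(ν + 1) by ring]
  simp only [momI, eval_mul, map_mul, Pi.mul_apply, Complex.star_def]
  have h5 := Complex.add_conj ((fT (z (t + σ * τ)) (dz z (t + σ * τ))).eval x * τ *
    conj ((fP (z (t + σ * τ))).eval x))
  rw [Complex.ofReal_mul, Complex.ofReal_mul, ← h5]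
  simp only [map_mul, Complex.conj_conj, Complex.ofReal_neg]
  ring

/-- dominated convergence on a compact neighbourhood: `PF.bound` and
`|f|² + ε ≥ c (1 + |x|) ^ (2 n)` uniformly for bounded points -/
theorem gd_cont (hU : IsOpen U) (hz : ∀ j, AnalyticOnNhd ℂ (fun t => z t j) U) (hP : PF U a P)
    (hQ : PF U b Q) (hν : 0 < ν) (hε : 0 < ε) (hd : (a : ℝ) + b < 2 * ν * Fintype.card J) :
    ContinuousOn (fun t => mom (z t) ν ε (P t) (Q t)) U := by
  intro t ht
  obtain ⟨r, hr, hball⟩ := Metric.nhds_basis_closedBall.mem_iff.1 (hU.mem_nhds ht)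
  obtain ⟨g, hg, hb⟩ := GD_dom hz hP hQ hν hε hd (isCompact_closedBall t r) hball
  refine ContinuousAt.continuousWithinAt ?_
  unfold mom
  refine continuousAt_of_dominated (bound := g) (Eventually.of_forall fun u => GD_meas _ _ hε _ _)
    ?_ hg (Eventually.of_forall fun x => ?_)
  · filter_upwards [Metric.closedBall_mem_nhds t hr] with u hu
    exact Eventually.of_forall (hb u hu)
  · unfold momI
    refine ((hP.hasDerivAt hU ht x).continuousAt.mul (Complex.continuous_conj.continuousAt.comp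
      (hQ.hasDerivAt hU ht x).continuousAt)).mul (Complex.continuous_ofReal.continuousAt.comp
      (ContinuousAt.rpow_const ?_ (Or.inl ?_)))
    · exact ((fP_hasDerivAt hz ht x).continuousAt.norm.pow 2).add continuousAt_const
    · positivity

/-- differentiation under the integral along a line
(`hasDerivAt_integral_of_dominated_loc_of_deriv_le`) -/
theorem gd (hU : IsOpen U) (hz : ∀ j, AnalyticOnNhd ℂ (fun t => z t j) U) (hP : PF U a P)
    (hQ : PF U b Q) (hν : 0 < ν) (hε : 0 < ε) (hd : (a : ℝ) + b < 2 * ν * Fintype.card J)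
    {t : ℂ} (ht : t ∈ U) (τ : ℂ) :
    HasDerivAt (fun σ : ℝ => mom (z (t + σ * τ)) ν ε (P (t + σ * τ)) (Q (t + σ * τ)))
      (τ * (mom (z t) ν ε (dT a P t) (Q t) -
          ν * mom (z t) (ν + 1) ε (P t * fT (z t) (dz z t)) (Q t * fP (z t))) +
        conj τ * (mom (z t) ν ε (P t) (dT b Q t) -
          ν * mom (z t) (ν + 1) ε (P t * fP (z t)) (Q t * fT (z t) (dz z t)))) 0 := by
  obtain ⟨r, hr, hball⟩ := Metric.nhds_basis_closedBall.mem_iff.1 (hU.mem_nhds ht)
  have hK := isCompact_closedBall t r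
  have hT := (pf_fT hz).mono (Nat.le_succ _)
  have hd1 : ((a + Fintype.card J : ℕ) : ℝ) + ((b + Fintype.card J : ℕ) : ℝ) <
      2 * (ν + 1) * Fintype.card J := by
    push_cast
    linarith
  have hν1 : 0 < ν + 1 := by linarith
  obtain ⟨g1, i1, b1⟩ := GD_dom hz hP.dT hQ hν hε hd hK hball
  obtain ⟨g2, i2, b2⟩ := GD_dom hz (hP.mul hT) (hQ.mul (pf_fP hz)) hν1 hε hd1 hK hball
  obtain ⟨g3, i3, b3⟩ := GD_dom hz hP hQ.dT hν hε hd hK hball
  obtain ⟨g4, i4, b4⟩ := GD_dom hz (hP.mul (pf_fP hz)) (hQ.mul hT) hν1 hε hd1 hK hball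
  obtain ⟨g0, i0, b0⟩ := GD_dom hz hP hQ hν hε hd hK hball
  have htK : t ∈ Metric.closedBall t r := Metric.mem_closedBall_self hr.le
  have hs : {σ : ℝ | t + σ * τ ∈ Metric.closedBall t r} ∈ 𝓝 (0 : ℝ) := by
    have hc : Continuous fun σ : ℝ => t + σ * τ := by fun_prop
    refine hc.continuousAt.preimage_mem_nhds ?_
    simpa using Metric.closedBall_mem_nhds t hr
  have j0 := Integrable.mono' i0 (GD_meas _ _ hε _ _) (Eventually.of_forall (b0 t htK))
  have j1 := Integrable.mono' i1 (GD_meas _ _ hε _ _) (Eventually.of_forall (b1 t htK))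
  have j2 := Integrable.mono' i2 (GD_meas _ _ hε _ _) (Eventually.of_forall (b2 t htK))
  have j3 := Integrable.mono' i3 (GD_meas _ _ hε _ _) (Eventually.of_forall (b3 t htK))
  have j4 := Integrable.mono' i4 (GD_meas _ _ hε _ _) (Eventually.of_forall (b4 t htK))
  let G : ℂ → ℂ → ℂ := fun u x => τ * (momI (z u) ν ε (dT a P u) (Q u) x -
      ν * momI (z u) (ν + 1) ε (P u * fT (z u) (dz z u)) (Q u * fP (z u)) x) +
    conj τ * (momI (z u) ν ε (P u) (dT b Q u) x -
      ν * momI (z u) (ν + 1) ε (P u * fP (z u)) (Q u * fT (z u) (dz z u)) x)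
  have k1 := (j1.sub (j2.const_mul (ν : ℂ))).const_mul τ
  have k2 := (j3.sub (j4.const_mul (ν : ℂ))).const_mul (conj τ)
  have hG : Integrable (G t) := k1.add k2
  simp only [Pi.sub_apply] at k1 k2
  have key := (hasDerivAt_integral_of_dominated_loc_of_deriv_le (μ := volume)
    (F := fun (σ : ℝ) x => momI (z (t + σ * τ)) ν ε (P (t + σ * τ)) (Q (t + σ * τ)) x)
    (F' := fun (σ : ℝ) x => G (t + σ * τ) x)
    (bound := fun x => ‖τ‖ * (g1 x + ν * g2 x) + ‖τ‖ * (g3 x + ν * g4 x)) hs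
    (Eventually.of_forall fun σ => GD_meas _ _ hε _ _) (by simpa using j0)
    (by simpa using hG.aestronglyMeasurable) (Eventually.of_forall fun x σ hσ => ?_)
    (((i1.add (i2.const_mul ν)).const_mul _).add ((i3.add (i4.const_mul ν)).const_mul _))
    (Eventually.of_forall fun x σ hσ => GD_pt hU hz hP hQ hε rfl (hball hσ) x)).2
  · refine key.congr_deriv ?_
    simp only [Complex.ofReal_zero, zero_mul, add_zero, G, mom]
    rw [integral_add k1 k2, integral_const_mul, integral_const_mul,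
      integral_sub j1 (j2.const_mul _), integral_sub j3 (j4.const_mul _), integral_const_mul,
      integral_const_mul]
  · have hn : ‖(ν : ℂ)‖ = ν := by rw [Complex.norm_real, Real.norm_eq_abs, abs_of_pos hν]
    refine (norm_add_le _ _).trans (add_le_add ?_ ?_)
    · rw [norm_mul]
      refine mul_le_mul_of_nonneg_left ((norm_sub_le _ _).trans (add_le_add (b1 _ hσ x) ?_))
        (norm_nonneg _)
      rw [norm_mul, hn]
      exact mul_le_mul_of_nonneg_left (b2 _ hσ x) hν.le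
    · rw [norm_mul, Complex.norm_conj]
      refine mul_le_mul_of_nonneg_left ((norm_sub_le _ _).trans (add_le_add (b3 _ hσ x) ?_))
        (norm_nonneg _)
      rw [norm_mul, hn]
      exact mul_le_mul_of_nonneg_left (b4 _ hσ x) hν.le

end Pool.Agent.P.MP_a62d3c_co.FF
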