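import Pool.Agent.P.MP_a62d3c_co.FF.GeoD

namespace Pool.Agent.P.MP_a62d3c_co.FF

open Filter Topology Polynomial MeasureTheory Asymptotics
open scoped ComplexConjugate Matrix ComplexOrder

/-- the restriction of `F` to a line is a polynomial of degree `≤ D` in the parameter -/
theorem line_poly (F : MvPolynomial (Fin 2) ℝ) (a v : Pt) :
    ∃ P : ℝ[X], P.natDegree ≤ F.totalDegree ∧ ∀ σ : ℝ, P.eval σ = evp F (a + σ • v) := by
  refine ⟨MvPolynomial.aeval (fun i => C (v i) * X + C (a i)) F, ?_, fun σ => ?_⟩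
  · have := MvPolynomial.aeval_natDegree_le (n := 1) F le_rfl (fun i => C (v i) * X + C (a i))
      (fun i => natDegree_linear_le)
    simpa using this
  · unfold evp
    induction F using MvPolynomial.induction_on with
    | C c => simp
    | add p q hp hq => simp only [map_add, eval_add, hp, hq]
    | mul_X p i hp =>
      simp only [map_mul, eval_mul, hp, MvPolynomial.aeval_X, MvPolynomial.eval_X, eval_add,
        eval_C, eval_X, PiLp.add_apply, PiLp.smul_apply, smul_eq_mul]
      ring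

theorem GeoL_ext {a b : Pt} (h0 : a 0 = b 0) (h1 : a 1 = b 1) : a = b := by
  ext i
  fin_cases i
  · exact h0
  · exact h1

theorem GeoL_ne {a b : Pt} (hab : a ≠ b) : b 0 - a 0 ≠ 0 ∨ b 1 - a 1 ≠ 0 := by
  by_contra hc
  rw [not_or, not_not, not_not] at hc
  exact hab (GeoL_ext (by linarith [hc.1]) (by linarith [hc.2]))

theorem GeoL_param {a b y : Pt} (hab : a ≠ b) (h : det3 a b y = 0) :
    ∃ σ : ℝ, y = a + σ • (b - a) := by
  unfold det3 at h
  rcases GeoL_ne hab with h0 | h1
  · refine ⟨(y 0 - a 0) / (b 0 - a 0), GeoL_ext ?_ ?_⟩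
    · simp only [PiLp.add_apply, PiLp.smul_apply, PiLp.sub_apply, smul_eq_mul]
      field_simp
      ring
    · simp only [PiLp.add_apply, PiLp.smul_apply, PiLp.sub_apply, smul_eq_mul]
      field_simp
      linarith
  · refine ⟨(y 1 - a 1) / (b 1 - a 1), GeoL_ext ?_ ?_⟩
    · simp only [PiLp.add_apply, PiLp.smul_apply, PiLp.sub_apply, smul_eq_mul]
      field_simp
      linarith
    · simp only [PiLp.add_apply, PiLp.smul_apply, PiLp.sub_apply, smul_eq_mul]
      field_simp
      ring

theorem GeoL_dir {ι : Type} [Fintype ι] (p q : ι → ℝ) (h : ∀ i, p i ≠ 0 ∨ q i ≠ 0) :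
    ∃ s : ℝ, ∀ i, p i * s - q i ≠ 0 := by
  classical
  obtain ⟨s, hs⟩ := Infinite.exists_notMem_finset (Finset.univ.image fun i => q i / p i)
  refine ⟨s, fun i e => ?_⟩
  by_cases hp : p i = 0
  · rcases h i with h1 | h1
    · exact h1 hp
    · rw [hp] at e
      exact h1 (by linarith)
  · refine hs (Finset.mem_image.2 ⟨i, Finset.mem_univ _, ?_⟩)
    field_simp
    linarith

theorem line_zeros {D : ℕ} {F : MvPolynomial (Fin 2) ℝ} (hF : F.totalDegree ≤ D) {a b : Pt}
    (hab : a ≠ b) (h : ∃ y, det3 a b y = 0 ∧ evp F y ≠ 0) :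
    ∃ W : Finset Pt, W.card ≤ D ∧ ∀ y, det3 a b y = 0 → evp F y = 0 → y ∈ W := by
  classical
  obtain ⟨P, hP, hev⟩ := line_poly F a (b - a)
  obtain ⟨y, hy, hy0⟩ := h
  obtain ⟨σ, rfl⟩ := GeoL_param hab hy
  have hP0 : P ≠ 0 := fun e => hy0 (by rw [← hev, e, eval_zero])
  refine ⟨P.roots.toFinset.image fun σ : ℝ => a + σ • (b - a), ?_, fun y hy hy0 => ?_⟩
  · exact Finset.card_image_le.trans ((Multiset.toFinset_card_le _).trans
      ((card_roots' P).trans (hP.trans hF)))
  · obtain ⟨τ, rfl⟩ := GeoL_param hab hy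
    refine Finset.mem_image.2 ⟨τ, ?_, rfl⟩
    rw [Multiset.mem_toFinset, mem_roots hP0, IsRoot.def, hev]
    exact hy0

/-- Suppose `F` vanishes on all the lines `t v i`. Take `y` with `F y ≠ 0` and a direction `u` parallel
to none of the lines and not to `y - t`: the line `y + σ u` meets the `D + 1` lines in distinct
points, against `line_poly`. -/
theorem pencil {D : ℕ} {F : MvPolynomial (Fin 2) ℝ} (hF : F.totalDegree ≤ D) (hF0 : F ≠ 0)
    (t : Pt) {ι : Type} [Fintype ι] (hι : D < Fintype.card ι) (v : ι → Pt) (hv : ∀ i, v i ≠ t)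
    (h : ∀ i j, i ≠ j → det3 t (v i) (v j) ≠ 0) :
    ∃ i y, det3 t (v i) y = 0 ∧ evp F y ≠ 0 := by
  by_contra hc
  have hz : ∀ i y, det3 t (v i) y = 0 → evp F y = 0 := fun i y h1 => by
    by_contra h2
    exact hc ⟨i, y, h1, h2⟩
  obtain ⟨y, hy⟩ : ∃ y : Pt, evp F y ≠ 0 := by
    by_contra hn
    refine hF0 (MvPolynomial.funext fun x => ?_)
    by_contra h2
    exact hn ⟨WithLp.toLp 2 x, by simpa [evp] using h2⟩
  have hne : Nonempty ι := Fintype.card_pos_iff.1 (by omega)
  have hyt : t ≠ y := by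
    rintro rfl
    obtain ⟨i⟩ := hne
    exact hy (hz i t (by simp [det3]))
  obtain ⟨s, hs⟩ := GeoL_dir (ι := Option ι)
    (fun o => o.elim (y 0 - t 0) fun i => v i 0 - t 0)
    (fun o => o.elim (y 1 - t 1) fun i => v i 1 - t 1) (fun o => by
      cases o with
      | none => exact GeoL_ne hyt
      | some i => exact GeoL_ne (hv i).symm)
  have hs0 : (y 0 - t 0) * s - (y 1 - t 1) ≠ 0 := hs none
  have hs1 : ∀ i, (v i 0 - t 0) * s - (v i 1 - t 1) ≠ 0 := fun i => hs (some i)
  let u : Pt := WithLp.toLp 2 ![1, s]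
  obtain ⟨P, hP, hev⟩ := line_poly F y u
  let σ : ι → ℝ := fun i => -det3 t (v i) y / ((v i 0 - t 0) * s - (v i 1 - t 1))
  have hσ : ∀ i, (v i 0 - t 0) * (y 1 + σ i * s - t 1) - (v i 1 - t 1) * (y 0 + σ i - t 0) = 0 :=
    fun i => by
      have h1 : σ i * ((v i 0 - t 0) * s - (v i 1 - t 1)) = -det3 t (v i) y :=
        div_mul_cancel₀ _ (hs1 i)
      unfold det3 at h1
      linarith
  have hinj : Function.Injective σ := fun i j e => by
    by_contra hij
    have h1 := hσ i
    have h2 := hσ j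
    rw [← e] at h2
    have h3 := h i j hij
    unfold det3 at h3
    have h4 : y 0 + σ i - t 0 = 0 := by
      apply mul_left_cancel₀ h3
      linear_combination (v j 0 - t 0) * h1 - (v i 0 - t 0) * h2
    have h5 : y 1 + σ i * s - t 1 = 0 := by
      apply mul_left_cancel₀ h3
      linear_combination (v j 1 - t 1) * h1 - (v i 1 - t 1) * h2
    exact hs0 (by linear_combination s * h4 - h5)
  have hP0 : P = 0 := eq_zero_of_natDegree_lt_card_of_eval_eq_zero P hinj (fun i => by
    rw [hev]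
    refine hz i _ ?_
    have := hσ i
    simp only [det3, u, PiLp.add_apply, PiLp.smul_apply, smul_eq_mul, Matrix.cons_val_zero,
      Matrix.cons_val_one, mul_one]
    exact this) (by omega)
  have := hev 0
  rw [hP0, eval_zero, zero_smul, add_zero] at this
  exact hy this.symm

end Pool.Agent.P.MP_a62d3c_co.FF
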