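import Pool.Agent.P.MP_a62d3c_co.FF.GeoU
import Pool.Agent.P.MP_a62d3c_co.FF.GeoL

namespace Pool.Agent.P.MP_a62d3c_co.FF

open Filter Topology Polynomial MeasureTheory Asymptotics
open scoped ComplexConjugate Matrix ComplexOrder

theorem GeoC_two {t u w y : Pt} (h : det3 t u w ≠ 0) (h1 : det3 t u y = 0)
    (h2 : det3 t w y = 0) : y = t := by
  have e0 : (y 0 - t 0) * det3 t u w = 0 := by
    unfold det3 at *
    linear_combination (w 0 - t 0) * h1 - (u 0 - t 0) * h2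
  have e1 : (y 1 - t 1) * det3 t u w = 0 := by
    unfold det3 at *
    linear_combination (w 1 - t 1) * h1 - (u 1 - t 1) * h2
  have f0 : y 0 = t 0 := sub_eq_zero.1 ((mul_eq_zero.1 e0).resolve_right h)
  have f1 : y 1 = t 1 := sub_eq_zero.1 ((mul_eq_zero.1 e1).resolve_right h)
  ext i
  fin_cases i
  · exact f0
  · exact f1

theorem GeoC_swap (t u w : Pt) : det3 t u w = -det3 t w u := by
  unfold det3
  ring

theorem GeoC_rev (t u o : Pt) : det3 t u o = -det3 o u t := by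
  unfold det3
  ring

theorem GeoC_cont (t u : Pt) : Continuous (det3 t u) := by
  unfold det3
  fun_prop

/-- the sign pattern of a strip -/
noncomputable def GeoC_s (a k : ℕ) : ℝ := if k ≤ 2 * a then 1 else -1

theorem GeoC_s_pos {a k : ℕ} (h : k ≤ 2 * a) : GeoC_s a k = 1 := if_pos h

theorem GeoC_s_neg {a k : ℕ} (h : 2 * a < k) : GeoC_s a k = -1 := if_neg (by omega)

theorem GeoC_lt {m : ℕ} {t y : Pt} {v : Fin (2 * m + 1) → Pt}
    (hv : ∀ k k', k < k' → 0 < det3 t (v k) (v k')) {a a' : Fin m} (h : a < a')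
    (ha : ∀ k : Fin (2 * m + 1), 0 ≤ GeoC_s a k * det3 t (v k) y)
    (ha' : ∀ k : Fin (2 * m + 1), 0 ≤ GeoC_s a' k * det3 t (v k) y) : y = t := by
  have hlt : (a : ℕ) < a' := h
  have hm := a'.2
  have key : ∀ k : Fin (2 * m + 1), 2 * (a : ℕ) < k → (k : ℕ) ≤ 2 * a' →
      det3 t (v k) y = 0 := by
    intro k h1 h2
    have e1 := ha k
    have e2 := ha' k
    rw [GeoC_s_neg h1] at e1
    rw [GeoC_s_pos h2] at e2
    linarith
  refine GeoC_two (u := v ⟨2 * a + 1, by omega⟩) (w := v ⟨2 * a + 2, by omega⟩)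
    (hv _ _ ?_).ne' (key _ ?_ ?_) (key _ ?_ ?_)
  · exact Fin.mk_lt_mk.2 (by omega)
  · show 2 * (a : ℕ) < 2 * a + 1
    omega
  · show 2 * (a : ℕ) + 1 ≤ 2 * a'
    omega
  · show 2 * (a : ℕ) < 2 * a + 2
    omega
  · show 2 * (a : ℕ) + 2 ≤ 2 * a'
    omega

theorem GeoC_uniq {m : ℕ} {t y : Pt} {v : Fin (2 * m + 1) → Pt}
    (hv : ∀ k k', k < k' → 0 < det3 t (v k) (v k')) (hy : y ≠ t) {a a' : Fin m}
    (ha : ∀ k : Fin (2 * m + 1), 0 ≤ GeoC_s a k * det3 t (v k) y)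
    (ha' : ∀ k : Fin (2 * m + 1), 0 ≤ GeoC_s a' k * det3 t (v k) y) : a = a' := by
  rcases lt_trichotomy a a' with h | h | h
  · exact absurd (GeoC_lt hv h ha ha') hy
  · exact h
  · exact absurd (GeoC_lt hv h ha' ha) hy

theorem GeoC_sep {m : ℕ} {a a' : Fin m} (h : a ≠ a') :
    ∃ k : Fin (2 * m + 1), GeoC_s a k * GeoC_s a' k < 0 := by
  have h1 := a.2
  have h2 := a'.2
  rcases lt_or_gt_of_ne h with h | h
  · have hlt : (a : ℕ) < a' := h
    refine ⟨⟨2 * a + 1, by omega⟩, ?_⟩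
    rw [GeoC_s_neg (show 2 * (a : ℕ) < 2 * a + 1 by omega),
      GeoC_s_pos (show 2 * (a : ℕ) + 1 ≤ 2 * a' by omega)]
    norm_num
  · have hlt : (a' : ℕ) < a := h
    refine ⟨⟨2 * a' + 1, by omega⟩, ?_⟩
    rw [GeoC_s_neg (show 2 * (a' : ℕ) < 2 * a' + 1 by omega),
      GeoC_s_pos (show 2 * (a' : ℕ) + 1 ≤ 2 * a by omega)]
    norm_num

/-- even positions -/
def GeoC_ev {m : ℕ} (k : Fin (2 * m + 1)) : Fin (4 * m + 1) := ⟨2 * k, by have := k.2; omega⟩

/-- positions of the cell points -/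
def GeoC_od {m : ℕ} (a : Fin m) : Fin (4 * m + 1) := ⟨4 * a + 1, by have := a.2; omega⟩

theorem GeoC_in {m : ℕ} {t y : Pt} {v : Fin (2 * m + 1) → Pt} {a : Fin m}
    (h1 : ∀ k, GeoC_ev k < GeoC_od a → 0 < det3 t (v k) y)
    (h2 : ∀ k, GeoC_od a < GeoC_ev k → 0 < det3 t y (v k)) (k : Fin (2 * m + 1)) :
    0 < GeoC_s a k * det3 t (v k) y := by
  by_cases h : (k : ℕ) ≤ 2 * a
  · rw [GeoC_s_pos h, one_mul]
    refine h1 k ?_
    show 2 * (k : ℕ) < 4 * a + 1
    omega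
  · rw [GeoC_s_neg (by omega), GeoC_swap]
    have := h2 k (by
      show 4 * (a : ℕ) + 1 < 2 * k
      omega)
    linarith

theorem GeoC_count {D c : ℕ} (hc : ∀ F : MvPolynomial (Fin 2) ℝ, F.totalDegree ≤ D →
    ∀ (ι γ : Type) [Fintype ι] [Fintype γ] (ℓ : ι → Pt → ℝ) (sg : γ → ι → ℝ) (p : γ → Pt),
      (∀ k, Continuous (ℓ k)) → (∀ a, evp F (p a) = 0) → (∀ a k, 0 < sg a k * ℓ k (p a)) →
      (∀ a y, (∀ k, 0 ≤ sg a k * ℓ k y) → evp F y = 0 → ∀ k, ℓ k y ≠ 0) →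
      (∀ a b, a ≠ b → ∃ k, sg a k * sg b k < 0) → Fintype.card γ ≤ c)
    {F : MvPolynomial (Fin 2) ℝ} (hF : F.totalDegree ≤ D) {ι γ : Type} [Fintype ι] [Fintype γ]
    (ℓ : ι → Pt → ℝ) (sg : γ → ι → ℝ) (p : γ → Pt) (h1 : ∀ k, Continuous (ℓ k))
    (h2 : ∀ a, evp F (p a) = 0) (h3 : ∀ a k, 0 < sg a k * ℓ k (p a))
    (h4 : ∀ a b, a ≠ b → ∃ k, sg a k * sg b k < 0)
    (h5 : ∀ k, ∃ W : Finset Pt, W.card ≤ D ∧ ∀ y, ℓ k y = 0 → evp F y = 0 → y ∈ W)
    (h6 : ∀ y a b, (∀ k, 0 ≤ sg a k * ℓ k y) → (∀ k, 0 ≤ sg b k * ℓ k y) → a = b) :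
    Fintype.card γ ≤ Fintype.card ι * D + c := by
  classical
  choose W hW hW' using h5
  let Z : Finset Pt := Finset.univ.biUnion W
  have hZ : Z.card ≤ Fintype.card ι * D := by
    have := Finset.card_biUnion_le_card_mul Finset.univ W D fun k _ => hW k
    simpa using this
  let P : γ → Prop := fun a => ∃ y, y ∈ Z ∧ ∀ k, 0 ≤ sg a k * ℓ k y
  have hT : (Finset.univ.filter P).card ≤ Z.card := by
    refine Finset.card_le_card_of_forall_subsingleton
      (fun a y => ∀ k, 0 ≤ sg a k * ℓ k y) (fun a ha => (Finset.mem_filter.1 ha).2) ?_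
    intro y _ a ha b hb
    exact h6 y a b ha.2 hb.2
  have hU : Fintype.card {a // ¬ P a} ≤ c := by
    refine hc F hF ι {a // ¬ P a} ℓ (fun a => sg a.1) (fun a => p a.1) h1 (fun a => h2 a.1)
      (fun a => h3 a.1) ?_ fun a b hab => h4 a.1 b.1 fun e => hab (Subtype.ext e)
    intro a y hy hz k hk
    exact a.2 ⟨y, Finset.mem_biUnion.2 ⟨k, Finset.mem_univ _, hW' k y hk hz⟩, hy⟩
  rw [Fintype.card_subtype] at hU
  have := Finset.card_filter_add_card_filter_not (s := (Finset.univ : Finset γ)) P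
  rw [Finset.card_univ] at this
  omega

/-- Paper section 9. `p α β` is the point in column `α` and row `β`. With `g > D` large choose by
`pencil` a marker `v k` in each even column `2 k` and `h l` in each even row `2 l` (`k, l ≤ g`) whose
lines through `t`, resp. `o`, are not in the zero set. Lines `ι = Fin (g+1) ⊕ Fin (g+1)`,
`ℓ (inl k) = det3 t (v k)`, `ℓ (inr l) = det3 o (h l)`; cell `(a, b)` (`a, b < g`) has sign `1` for
`k ≤ a`, `l ≤ b` and `-1` otherwise, and contains `p (2 a + 1) (2 b + 1)`. `t` and `o` lie in no cell. A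
point `y` lies in at most `4` cells (if it is in columns `a` and `a' ≥ a + 2` it is on two lines through
`t`, so `y = t`). `line_zeros`: at most `2 (g + 1) D` zeros on the lines; apply `untouched` to the
cells containing none of them: `g² ≤ 8 (g + 1) D + c`. -/
theorem cells (D : ℕ) : ∃ G : ℕ, 1 ≤ G ∧ ∀ (t o : Pt) (p : Fin G → Fin G → Pt),
    (∀ α β α' β', α < α' → 0 < det3 t (p α β) (p α' β')) →
    (∀ α β α' β', β < β' → 0 < det3 o (p α β) (p α' β')) →
    (∀ α β β', β ≠ β' → det3 t (p α β) (p α β') ≠ 0) →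
    (∀ α α' β, α ≠ α' → det3 o (p α β) (p α' β) ≠ 0) →
    (∀ α β, 0 < det3 o (p α β) t) →
    ∀ F : MvPolynomial (Fin 2) ℝ, F.totalDegree ≤ D → (∀ α β, evp F (p α β) = 0) → F = 0 := by
  obtain ⟨c, hc⟩ := untouched D
  obtain ⟨m, hm⟩ : ∃ m, m = 6 * D + c + 1 := ⟨_, rfl⟩
  refine ⟨4 * m + 1, by omega, fun t o p hcol hrow hcol' hrow' hot F hF hz => ?_⟩
  by_contra hF0
  have hcard : D < Fintype.card (Fin (4 * m + 1)) := by
    rw [Fintype.card_fin]
    omega
  have hpt : ∀ α β, p α β ≠ t := by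
    intro α β e
    have := hot α β
    rw [e] at this
    unfold det3 at this
    linarith
  have hpo : ∀ α β, p α β ≠ o := by
    intro α β e
    have := hot α β
    rw [e] at this
    unfold det3 at this
    simp at this
  have hv : ∀ k : Fin (2 * m + 1), ∃ β y, det3 t (p (GeoC_ev k) β) y = 0 ∧ evp F y ≠ 0 :=
    fun k => pencil hF hF0 t hcard (p (GeoC_ev k)) (fun β => hpt _ β) (hcol' _)
  have hh : ∀ l : Fin (2 * m + 1), ∃ α y, det3 o (p α (GeoC_ev l)) y = 0 ∧ evp F y ≠ 0 :=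
    fun l => pencil hF hF0 o hcard (fun α => p α (GeoC_ev l)) (fun α => hpo α _)
      fun α α' h => hrow' α α' _ h
  choose β hβ using hv
  choose α hα using hh
  have hev : ∀ k k' : Fin (2 * m + 1), k < k' → GeoC_ev k < GeoC_ev k' := by
    intro k k' h
    have : (k : ℕ) < k' := h
    show 2 * (k : ℕ) < 2 * k'
    omega
  have key := GeoC_count hc hF (ι := Fin (2 * m + 1) ⊕ Fin (2 * m + 1)) (γ := Fin m × Fin m)
    (Sum.elim (fun k => det3 t (p (GeoC_ev k) (β k))) fun l => det3 o (p (α l) (GeoC_ev l)))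
    (fun a => Sum.elim (fun k => GeoC_s a.1 k) fun l => GeoC_s a.2 l)
    (fun a => p (GeoC_od a.1) (GeoC_od a.2)) ?_ (fun a => hz _ _) ?_ ?_ ?_ ?_
  · simp only [Fintype.card_prod, Fintype.card_fin, Fintype.card_sum] at key
    have h1 : m * m = m * (6 * D + c + 1) := by rw [← hm]
    have h2 : 1 ≤ m := by omega
    nlinarith [Nat.mul_le_mul_right D h2, Nat.mul_le_mul_right c h2]
  · rintro (k | l)
    · exact GeoC_cont _ _
    · exact GeoC_cont _ _
  · rintro a (k | l)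
    · exact GeoC_in (v := fun k => p (GeoC_ev k) (β k)) (fun k h => hcol _ _ _ _ h)
        (fun k h => hcol _ _ _ _ h) k
    · exact GeoC_in (v := fun l => p (α l) (GeoC_ev l)) (fun k h => hrow _ _ _ _ h)
        (fun k h => hrow _ _ _ _ h) l
  · intro a b hab
    by_cases h : a.1 = b.1
    · obtain ⟨k, hk⟩ := GeoC_sep (a := a.2) (a' := b.2) fun e => hab (Prod.ext h e)
      exact ⟨Sum.inr k, hk⟩
    · obtain ⟨k, hk⟩ := GeoC_sep h
      exact ⟨Sum.inl k, hk⟩
  · rintro (k | l)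
    · exact line_zeros hF (hpt _ _).symm (hβ k)
    · exact line_zeros hF (hpo _ _).symm (hα l)
  · intro y a b ha hb
    have hyt : y ≠ t := by
      rintro rfl
      have h2 := a.2.2
      have h3 := ha (Sum.inr ⟨2 * a.2 + 1, by omega⟩)
      simp only [Sum.elim_inr] at h3
      rw [GeoC_s_neg (show 2 * (a.2 : ℕ) < 2 * a.2 + 1 by omega)] at h3
      have := hot (α ⟨2 * a.2 + 1, by omega⟩) (GeoC_ev ⟨2 * a.2 + 1, by omega⟩)
      linarith
    have hyo : y ≠ o := by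
      rintro rfl
      have h3 := ha (Sum.inl 0)
      simp only [Sum.elim_inl] at h3
      rw [GeoC_s_pos (by simp), GeoC_rev] at h3
      have := hot (GeoC_ev 0) (β 0)
      linarith
    refine Prod.ext ?_ ?_
    · exact GeoC_uniq (v := fun k => p (GeoC_ev k) (β k))
        (fun k k' h => hcol _ _ _ _ (hev k k' h)) hyt (fun k => ha (Sum.inl k))
        fun k => hb (Sum.inl k)
    · exact GeoC_uniq (v := fun l => p (α l) (GeoC_ev l))
        (fun k k' h => hrow _ _ _ _ (hev k k' h)) hyo (fun k => ha (Sum.inr k))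
        fun k => hb (Sum.inr k)

end Pool.Agent.P.MP_a62d3c_co.FF
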