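import Pool.Agent.P.MP_a62d3c_co.FF.GeoD

namespace Pool.Agent.P.MP_a62d3c_co.FF

open Filter Topology Polynomial MeasureTheory Asymptotics
open scoped ComplexConjugate Matrix ComplexOrder

/-- the exponent vector with entries `i` and `j` -/
noncomputable def GeoF_ex (i j : ℕ) : Fin 2 →₀ ℕ := Finsupp.single 0 i + Finsupp.single 1 j

theorem GeoF_ex_zero (i j : ℕ) : GeoF_ex i j 0 = i := by simp [GeoF_ex]

theorem GeoF_ex_one (i j : ℕ) : GeoF_ex i j 1 = j := by simp [GeoF_ex]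

theorem GeoF_ex_self (s : Fin 2 →₀ ℕ) : GeoF_ex (s 0) (s 1) = s := by
  ext i
  fin_cases i
  · exact GeoF_ex_zero _ _
  · exact GeoF_ex_one _ _

theorem GeoF_eval (u v t : ℝ) (i j : ℕ) :
    MvPolynomial.eval ![u, v] (MvPolynomial.monomial (GeoF_ex i j) t) = t * (u ^ i * v ^ j) := by
  rw [MvPolynomial.eval_monomial, Finsupp.prod_fintype _ _ (by simp), Fin.prod_univ_two,
    GeoF_ex_zero, GeoF_ex_one]
  simp

theorem GeoF_card {ι : Type} [Fintype ι] (N : ℕ) (f : ι → MvPolynomial (Fin 2) ℝ)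
    (hf : ∀ x, (f x).totalDegree ≤ N) (h : LinearIndependent ℝ f) :
    Fintype.card ι ≤ (N + 1) ^ 2 := by
  let m : Fin (N + 1) × Fin (N + 1) → MvPolynomial (Fin 2) ℝ := fun p =>
    MvPolynomial.monomial (GeoF_ex p.1 p.2) 1
  have hW : ∀ x, f x ∈ Submodule.span ℝ (Set.range m) := by
    intro x
    rw [(f x).as_sum]
    refine Submodule.sum_mem _ fun s hs => ?_
    have hs' : ∀ i, s i < N + 1 := fun i => Nat.lt_succ_of_le
      ((MvPolynomial.monomial_le_degreeOf i hs).trans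
        ((MvPolynomial.degreeOf_le_totalDegree _ i).trans (hf x)))
    have e : MvPolynomial.monomial s (MvPolynomial.coeff s (f x)) =
        MvPolynomial.coeff s (f x) • m (⟨s 0, hs' 0⟩, ⟨s 1, hs' 1⟩) := by
      simp only [m, GeoF_ex_self, MvPolynomial.smul_monomial, smul_eq_mul, mul_one]
    rw [e]
    exact Submodule.smul_mem _ _ (Submodule.subset_span (Set.mem_range_self _))
  have : Module.Finite ℝ (Submodule.span ℝ (Set.range m)) :=
    Module.Finite.span_of_finite ℝ (Set.finite_range m)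
  have h1 : LinearIndependent ℝ fun x => (⟨f x, hW x⟩ : Submodule.span ℝ (Set.range m)) :=
    LinearIndependent.of_comp (Submodule.span ℝ (Set.range m)).subtype h
  refine h1.fintype_card_le_finrank.trans ((finrank_range_le_card m).trans ?_)
  simp [sq]

/-- dimension count: the `(I + 1)³` polynomials `X i₀ ^ a G₁ ^ b G₂ ^ c` (`a, b, c ≤ I`,
`I = (2 d + 1)²`) have degree `≤ (2 d + 1) I` in each variable (`MvPolynomial.restrictDegree`,
or the span of the monomials), so they are linearly dependent -/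
theorem relation (d : ℕ) (G₁ G₂ : MvPolynomial (Fin 2) ℝ) (h₁ : G₁.totalDegree ≤ d)
    (h₂ : G₂.totalDegree ≤ d) (i₀ : Fin 2) :
    ∃ R : Fin ((2 * d + 1) ^ 2 + 1) → MvPolynomial (Fin 2) ℝ, R ≠ 0 ∧ ∀ y : Pt,
      ∑ a, MvPolynomial.eval ![evp G₁ y, evp G₂ y] (R a) * y i₀ ^ (a : ℕ) = 0 := by
  set I := (2 * d + 1) ^ 2 with hI
  let f : Fin (I + 1) × Fin (I + 1) × Fin (I + 1) → MvPolynomial (Fin 2) ℝ := fun x =>
    MvPolynomial.X i₀ ^ (x.1 : ℕ) * (G₁ ^ (x.2.1 : ℕ) * G₂ ^ (x.2.2 : ℕ))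
  have hf : ∀ x, (f x).totalDegree ≤ (2 * d + 1) * I := by
    intro x
    have a1 := MvPolynomial.totalDegree_mul (MvPolynomial.X i₀ ^ (x.1 : ℕ))
      (G₁ ^ (x.2.1 : ℕ) * G₂ ^ (x.2.2 : ℕ))
    have a2 := MvPolynomial.totalDegree_mul (G₁ ^ (x.2.1 : ℕ)) (G₂ ^ (x.2.2 : ℕ))
    have a3 : (MvPolynomial.X i₀ ^ (x.1 : ℕ) : MvPolynomial (Fin 2) ℝ).totalDegree ≤ I := by
      rw [MvPolynomial.totalDegree_X_pow]
      exact Nat.le_of_lt_succ x.1.2
    have a4 : (G₁ ^ (x.2.1 : ℕ)).totalDegree ≤ I * d :=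
      (MvPolynomial.totalDegree_pow _ _).trans (Nat.mul_le_mul (Nat.le_of_lt_succ x.2.1.2) h₁)
    have a5 : (G₂ ^ (x.2.2 : ℕ)).totalDegree ≤ I * d :=
      (MvPolynomial.totalDegree_pow _ _).trans (Nat.mul_le_mul (Nat.le_of_lt_succ x.2.2.2) h₂)
    have a6 : (2 * d + 1) * I = I + (I * d + I * d) := by ring
    change (MvPolynomial.X i₀ ^ (x.1 : ℕ) *
      (G₁ ^ (x.2.1 : ℕ) * G₂ ^ (x.2.2 : ℕ))).totalDegree ≤ _
    omega
  have hdep : ¬ LinearIndependent ℝ f := by
    intro h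
    have h1 := GeoF_card _ f hf h
    simp only [Fintype.card_prod, Fintype.card_fin, hI] at h1
    have h2 : 1 ≤ 2 * d + 1 := by omega
    generalize 2 * d + 1 = D at h1 h2
    have h3 : D ^ 3 ≤ D ^ 4 := Nat.pow_le_pow_right h2 (by norm_num)
    have h4 : 1 ≤ D ^ 2 := Nat.one_le_pow _ _ h2
    have h5 : (D ^ 2 + 1) * ((D ^ 2 + 1) * (D ^ 2 + 1)) = D ^ 6 + 3 * D ^ 4 + 3 * D ^ 2 + 1 := by
      ring
    have h6 : (D * D ^ 2 + 1) ^ 2 = D ^ 6 + 2 * D ^ 3 + 1 := by ring
    omega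
  obtain ⟨g, hg, x₀, hx₀⟩ := Fintype.not_linearIndependent_iff.1 hdep
  refine ⟨fun a => ∑ p : Fin (I + 1) × Fin (I + 1),
    MvPolynomial.monomial (GeoF_ex p.1 p.2) (g (a, p)), fun h0 => hx₀ ?_, fun y => ?_⟩
  · have h1 := congrArg (MvPolynomial.coeff (GeoF_ex x₀.2.1 x₀.2.2)) (congrFun h0 x₀.1)
    simp only [MvPolynomial.coeff_sum, MvPolynomial.coeff_monomial, Pi.zero_apply,
      MvPolynomial.coeff_zero] at h1
    rw [Finset.sum_eq_single x₀.2, if_pos rfl] at h1
    · exact h1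
    · intro p _ hp
      refine if_neg fun e => hp (Prod.ext (Fin.ext ?_) (Fin.ext ?_))
      · simpa only [GeoF_ex_zero] using DFunLike.congr_fun e 0
      · simpa only [GeoF_ex_one] using DFunLike.congr_fun e 1
    · intro h
      exact absurd (Finset.mem_univ _) h
  · have h1 := congrArg (MvPolynomial.eval fun i => y i) hg
    simp only [map_sum, MvPolynomial.smul_eval, map_mul, map_pow, MvPolynomial.eval_X, map_zero,
      f] at h1
    rw [Fintype.sum_prod_type] at h1
    rw [← h1]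
    refine Finset.sum_congr rfl fun a _ => ?_
    rw [map_sum, Finset.sum_mul]
    refine Finset.sum_congr rfl fun p _ => ?_
    rw [GeoF_eval]
    simp only [evp]
    ring

/-- choose `lam` in the box `(-ε, ε)²` where a nonzero `R a` and a nonzero `R' a'` do not vanish
(`MvPolynomial.funext_set`); each coordinate of `y` is a root of a nonzero polynomial of degree
`≤ (2 d + 1)²` -/
theorem fibre (d : ℕ) : ∃ c : ℕ, ∀ G₁ G₂ : MvPolynomial (Fin 2) ℝ, G₁.totalDegree ≤ d →
    G₂.totalDegree ≤ d → ∀ ε > (0 : ℝ), ∃ lam : Fin 2 → ℝ, (∀ i, |lam i| < ε) ∧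
      ∀ Y : Finset Pt, (∀ y ∈ Y, evp G₁ y = lam 0 ∧ evp G₂ y = lam 1) → Y.card ≤ c := by
  classical
  refine ⟨(2 * d + 1) ^ 2 * (2 * d + 1) ^ 2, fun G₁ G₂ h₁ h₂ ε hε => ?_⟩
  choose R hR0 hR using fun i => relation d G₁ G₂ h₁ h₂ i
  choose a ha using fun i => Function.ne_iff.1 (hR0 i)
  have hne : R 0 (a 0) * R 1 (a 1) ≠ 0 := mul_ne_zero (ha 0) (ha 1)
  obtain ⟨lam, hl, hl0⟩ : ∃ lam ∈ Set.pi Set.univ fun _ : Fin 2 => Set.Ioo (-ε) ε,
      MvPolynomial.eval lam (R 0 (a 0) * R 1 (a 1)) ≠ 0 := by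
    by_contra hn
    push Not at hn
    exact hne (MvPolynomial.funext_set (fun _ : Fin 2 => Set.Ioo (-ε) ε)
      (fun _ => Set.Ioo_infinite (by linarith)) fun x hx => by rw [hn x hx, map_zero])
  rw [map_mul] at hl0
  have hl1 : ∀ i, MvPolynomial.eval lam (R i (a i)) ≠ 0 := by
    intro i
    fin_cases i
    · exact left_ne_zero_of_mul hl0
    · exact right_ne_zero_of_mul hl0
  refine ⟨lam, fun i => abs_lt.2 (hl i (Set.mem_univ i)), fun Y hY => ?_⟩
  let P : Fin 2 → ℝ[X] := fun i =>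
    ∑ b : Fin ((2 * d + 1) ^ 2 + 1), Polynomial.monomial (b : ℕ) (MvPolynomial.eval lam (R i b))
  have hP0 : ∀ i, P i ≠ 0 := by
    intro i h0
    have h1 := congrArg (fun q => Polynomial.coeff q (a i)) h0
    simp only [P, Polynomial.finsetSum_coeff, Polynomial.coeff_monomial,
      Polynomial.coeff_zero] at h1
    rw [Finset.sum_eq_single (a i), if_pos rfl] at h1
    · exact hl1 i h1
    · intro b _ hb
      exact if_neg fun e => hb (Fin.ext e)
    · intro h
      exact absurd (Finset.mem_univ _) h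
  have hPd : ∀ i, (P i).roots.toFinset.card ≤ (2 * d + 1) ^ 2 := fun i =>
    (Multiset.toFinset_card_le _).trans ((Polynomial.card_roots' _).trans
      (Polynomial.natDegree_sum_le_of_forall_le _ _ fun b _ =>
        (Polynomial.natDegree_monomial_le _).trans (Nat.le_of_lt_succ b.2)))
  have hroot : ∀ y ∈ Y, ∀ i, y i ∈ (P i).roots.toFinset := by
    intro y hy i
    rw [Multiset.mem_toFinset, Polynomial.mem_roots (hP0 i), Polynomial.IsRoot.def]
    have e : ![evp G₁ y, evp G₂ y] = lam := by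
      funext j
      fin_cases j
      · exact (hY y hy).1
      · exact (hY y hy).2
    have h1 := hR i y
    rw [e] at h1
    simpa only [P, Polynomial.eval_finsetSum, Polynomial.eval_monomial] using h1
  refine le_trans (Finset.card_le_card_of_injOn (t := (P 0).roots.toFinset ×ˢ (P 1).roots.toFinset)
    (fun y : Pt => (y 0, y 1)) (fun y hy => ?_) fun y _ z _ e => ?_) ?_
  · exact Finset.mem_coe.2 (Finset.mem_product.2 ⟨hroot y hy 0, hroot y hy 1⟩)
  · ext j
    fin_cases j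
    · exact congrArg Prod.fst e
    · exact congrArg Prod.snd e
  · rw [Finset.card_product]
    exact Nat.mul_le_mul (hPd 0) (hPd 1)

theorem evp_continuous (F : MvPolynomial (Fin 2) ℝ) : Continuous (evp F) :=
  (MvPolynomial.continuous_eval F).comp (by fun_prop)

/-- induction on `F` -/
theorem evp_hasDerivAt (F : MvPolynomial (Fin 2) ℝ) (y : Pt) (i : Fin 2) :
    HasDerivAt (fun σ : ℝ => evp F (y + σ • EuclideanSpace.single i (1 : ℝ)))
      (evp (MvPolynomial.pderiv i F) y) 0 := by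
  classical
  have h0 : ∀ G : MvPolynomial (Fin 2) ℝ,
      evp G (y + (0 : ℝ) • EuclideanSpace.single i (1 : ℝ)) = evp G y := by
    intro G
    rw [zero_smul, add_zero]
  induction F using MvPolynomial.induction_on with
  | C a => simpa [evp] using hasDerivAt_const (0 : ℝ) a
  | add p q hp hq =>
    simp only [evp, map_add] at hp hq ⊢
    exact hp.add hq
  | mul_X p j hp =>
    have h1 : HasDerivAt (fun σ : ℝ => y j + σ * (Pi.single i (1 : ℝ) : Fin 2 → ℝ) j)
        ((Pi.single i (1 : ℝ) : Fin 2 → ℝ) j) 0 := by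
      simpa using ((hasDerivAt_id (0 : ℝ)).mul_const
        ((Pi.single i (1 : ℝ) : Fin 2 → ℝ) j)).const_add (y j)
    have h2 := hp.mul h1
    have e1 : (fun σ : ℝ => evp (p * MvPolynomial.X j) (y + σ • EuclideanSpace.single i (1 : ℝ))) =
        (fun σ : ℝ => evp p (y + σ • EuclideanSpace.single i (1 : ℝ))) *
          fun σ : ℝ => y j + σ * (Pi.single i (1 : ℝ) : Fin 2 → ℝ) j := by
      funext σ
      simp [evp, Pi.single_apply]
    have e2 : evp (MvPolynomial.pderiv i (p * MvPolynomial.X j)) y =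
        evp (MvPolynomial.pderiv i p) y * (y j + 0 * (Pi.single i (1 : ℝ) : Fin 2 → ℝ) j) +
          evp p (y + (0 : ℝ) • EuclideanSpace.single i (1 : ℝ)) *
            (Pi.single i (1 : ℝ) : Fin 2 → ℝ) j := by
      rw [h0]
      by_cases h : j = i
      · subst h
        simp [evp]
        ring
      · simp [evp, MvPolynomial.pderiv_X_of_ne h, Pi.single_eq_of_ne h]
        ring
    rw [e1, e2]
    exact h2

theorem totalDegree_pderiv_le (F : MvPolynomial (Fin 2) ℝ) (i : Fin 2) :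
    (MvPolynomial.pderiv i F).totalDegree ≤ F.totalDegree := by
  classical
  conv_lhs => rw [F.as_sum, map_sum]
  refine MvPolynomial.totalDegree_finsetSum_le fun s hs => ?_
  rw [MvPolynomial.pderiv_monomial]
  refine (MvPolynomial.totalDegree_monomial_le _ _).trans
    (le_trans ?_ (MvPolynomial.le_totalDegree hs))
  rw [Finsupp.sum_fintype _ _ (by simp), Finsupp.sum_fintype _ _ (by simp)]
  exact Finset.sum_le_sum fun j _ => Nat.sub_le _ _

end Pool.Agent.P.MP_a62d3c_co.FF
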