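import Pool.Agent.P.MP_a62d3c_co.FF.GeoF

namespace Pool.Agent.P.MP_a62d3c_co.FF

open Filter Topology Polynomial MeasureTheory Asymptotics
open scoped ComplexConjugate Matrix ComplexOrder

theorem GeoU_crit (Φ : MvPolynomial (Fin 2) ℝ) (y : Pt) (h : IsLocalMin (evp Φ) y) (i : Fin 2) :
    evp (MvPolynomial.pderiv i Φ) y = 0 := by
  have hc : Continuous fun σ : ℝ => y + σ • EuclideanSpace.single i (1 : ℝ) := by fun_prop
  have h1 : IsLocalMin (fun σ : ℝ => evp Φ (y + σ • EuclideanSpace.single i (1 : ℝ))) 0 := by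
    have h2 : IsLocalMin (evp Φ) ((fun σ : ℝ => y + σ • EuclideanSpace.single i (1 : ℝ)) 0) := by
      simpa using h
    exact IsLocalMin.comp_continuous (g := fun σ : ℝ => y + σ • EuclideanSpace.single i (1 : ℝ))
      h2 hc.continuousAt
  exact h1.hasDerivAt_eq_zero (evp_hasDerivAt Φ y i)

theorem GeoU_norm (y : Pt) : ‖y‖ ^ 2 = y 0 ^ 2 + y 1 ^ 2 := by
  rw [EuclideanSpace.real_norm_sq_eq, Fin.sum_univ_two]

theorem GeoU_lin (lam : Fin 2 → ℝ) (δ R : ℝ) (hl : ∀ i, |lam i| < δ) (y : Pt) (hy : ‖y‖ ≤ R) :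
    |lam 0 * y 0 + lam 1 * y 1| ≤ 2 * δ * R := by
  have h : ∀ i, |lam i * y i| ≤ δ * R := fun i => by
    rw [abs_mul]
    have h1 : |y i| ≤ ‖y‖ := by simpa using PiLp.norm_apply_le y i
    exact mul_le_mul (hl i).le (h1.trans hy) (abs_nonneg _) ((abs_nonneg _).trans (hl i).le)
  have := abs_add_le (lam 0 * y 0) (lam 1 * y 1)
  have h0 := h 0
  have h1 := h 1
  linarith

theorem GeoU_deg (D : ℕ) (F : MvPolynomial (Fin 2) ℝ) (hF : F.totalDegree ≤ D) (ε : ℝ) :
    (F ^ 2 + MvPolynomial.C ε * (MvPolynomial.X 0 ^ 2 + MvPolynomial.X 1 ^ 2) :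
      MvPolynomial (Fin 2) ℝ).totalDegree ≤ 2 * D + 2 := by
  refine (MvPolynomial.totalDegree_add _ _).trans (max_le ?_ ?_)
  · exact (MvPolynomial.totalDegree_pow _ _).trans (by omega)
  · refine (MvPolynomial.totalDegree_mul _ _).trans ?_
    rw [MvPolynomial.totalDegree_C, zero_add]
    refine (MvPolynomial.totalDegree_add _ _).trans (max_le ?_ ?_) <;>
      rw [MvPolynomial.totalDegree_X_pow] <;> omega

/-- Untouched cells. `ℓ k` are continuous functions (equations of lines), the cell `c` is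
`{y | ∀ k, 0 ≤ sg c k * ℓ k y}`, it contains a zero `p c` of `F` with all inequalities strict, `F` has
no zero on the cell where some `ℓ k` vanishes, and different cells have different sign vectors.
With `R = max |p c| + 2`, `m > 0` a lower bound of `F²` on the points of the cells in the ball of
radius `R` where some `ℓ k` vanishes, `ε R² < m / 2`, and `lam` small from `fibre` for
`G i = -(2 F ∂ᵢF + 2 ε X i)`, the function `F² + ε |y|² + lam · y` has its minimum on the compact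
set (cell ∩ ball) at an interior point, where `G i = lam i`. -/
theorem untouched (D : ℕ) : ∃ c : ℕ, ∀ F : MvPolynomial (Fin 2) ℝ, F.totalDegree ≤ D →
    ∀ (ι γ : Type) [Fintype ι] [Fintype γ] (ℓ : ι → Pt → ℝ) (sg : γ → ι → ℝ) (p : γ → Pt),
      (∀ k, Continuous (ℓ k)) → (∀ a, evp F (p a) = 0) → (∀ a k, 0 < sg a k * ℓ k (p a)) →
      (∀ a y, (∀ k, 0 ≤ sg a k * ℓ k y) → evp F y = 0 → ∀ k, ℓ k y ≠ 0) →
      (∀ a b, a ≠ b → ∃ k, sg a k * sg b k < 0) → Fintype.card γ ≤ c := by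
  classical
  obtain ⟨c, hc⟩ := fibre (2 * D + 2)
  refine ⟨c, fun F hF ι γ _ _ ℓ sg p hℓ hp hpos hno hsg => ?_⟩
  obtain ⟨R0, hR0⟩ := (Set.finite_range fun a => ‖p a‖).bddAbove
  set R : ℝ := |R0| + 2 with hRdef
  have hR2 : 2 ≤ R := by have := abs_nonneg R0; linarith
  have hpR : ∀ a, ‖p a‖ ≤ R - 2 := fun a => by
    have h1 : ‖p a‖ ≤ R0 := hR0 ⟨a, rfl⟩
    have := le_abs_self R0
    linarith
  let K : γ → Set Pt := fun a => Metric.closedBall 0 R ∩ ⋂ k, {y | 0 ≤ sg a k * ℓ k y}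
  have hK : ∀ a, IsCompact (K a) := fun a =>
    (isCompact_closedBall 0 R).inter_right (isClosed_iInter fun k =>
      isClosed_le continuous_const (continuous_const.mul (hℓ k)))
  have hKm : ∀ a y, y ∈ K a ↔ ‖y‖ ≤ R ∧ ∀ k, 0 ≤ sg a k * ℓ k y := fun a y => by
    simp [K]
  let B : Set Pt := ⋃ a, ⋃ k, K a ∩ {y | ℓ k y = 0}
  have hB : IsCompact B := isCompact_iUnion fun a => isCompact_iUnion fun k =>
    (hK a).inter_right (isClosed_eq (hℓ k) continuous_const)
  obtain ⟨m, hm0, hm⟩ := hB.exists_forall_le' (f := fun y => evp F y ^ 2)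
    ((evp_continuous F).pow 2).continuousOn (a := 0) (fun y hy => by
      simp only [B, Set.mem_iUnion] at hy
      obtain ⟨a, k, h1, h2⟩ := hy
      have : evp F y ≠ 0 := fun e => hno a y ((hKm a y).1 h1).2 e k h2
      positivity)
  set ε : ℝ := m / R ^ 2 with hεdef
  have hε : 0 < ε := by positivity
  have hεR : ε * R ^ 2 = m := by rw [hεdef]; field_simp
  let Ψ : MvPolynomial (Fin 2) ℝ :=
    F ^ 2 + MvPolynomial.C ε * (MvPolynomial.X 0 ^ 2 + MvPolynomial.X 1 ^ 2)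
  have hG : ∀ i, (-MvPolynomial.pderiv i Ψ).totalDegree ≤ 2 * D + 2 := fun i => by
    rw [MvPolynomial.totalDegree_neg]
    exact (totalDegree_pderiv_le Ψ i).trans (GeoU_deg D F hF ε)
  obtain ⟨lam, hl, hY⟩ := hc _ _ (hG 0) (hG 1) (ε / 4) (by positivity)
  let Φ : MvPolynomial (Fin 2) ℝ :=
    Ψ + (MvPolynomial.C (lam 0) * MvPolynomial.X 0 + MvPolynomial.C (lam 1) * MvPolynomial.X 1)
  have hΦ : ∀ y, evp Φ y = evp F y ^ 2 + ε * ‖y‖ ^ 2 + (lam 0 * y 0 + lam 1 * y 1) := fun y => by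
    rw [GeoU_norm]
    simp [Φ, Ψ, evp]
  have hex : ∀ a, ∃ y, (∀ k, 0 < sg a k * ℓ k y) ∧ IsLocalMin (evp Φ) y := fun a => by
    have hpa : p a ∈ K a := (hKm a _).2 ⟨by linarith [hpR a], fun k => (hpos a k).le⟩
    obtain ⟨y, hy, hmin⟩ := (hK a).exists_isMinOn ⟨_, hpa⟩ (evp_continuous Φ).continuousOn
    obtain ⟨hyR, hyk⟩ := (hKm a y).1 hy
    have h1 : evp Φ y ≤ evp Φ (p a) := hmin hpa
    rw [hΦ, hΦ, hp] at h1
    have h2 := abs_le.1 (GeoU_lin lam _ R hl y hyR)
    have h3 := abs_le.1 (GeoU_lin lam _ R hl (p a) (by linarith [hpR a]))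
    have h4 : ‖p a‖ ^ 2 ≤ (R - 2) ^ 2 := pow_le_pow_left₀ (norm_nonneg _) (hpR a) 2
    have h5 : ε * ‖p a‖ ^ 2 ≤ ε * (R - 2) ^ 2 := mul_le_mul_of_nonneg_left h4 hε.le
    have h6 : 0 < ε * (3 * R - 4) := mul_pos hε (by linarith)
    have h7 : evp F y ^ 2 + ε * ‖y‖ ^ 2 < ε * R ^ 2 := by nlinarith
    have h8 : 0 ≤ ε * ‖y‖ ^ 2 := by positivity
    have h9 : ‖y‖ < R := by
      refine lt_of_le_of_ne hyR fun e => ?_
      rw [e] at h7
      nlinarith [sq_nonneg (evp F y)]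
    have h10 : ∀ k, 0 < sg a k * ℓ k y := fun k => by
      refine lt_of_le_of_ne (hyk k) fun e => ?_
      have hs : sg a k ≠ 0 := fun e' => by
        have := hpos a k
        rw [e', zero_mul] at this
        exact lt_irrefl _ this
      have h0 : ℓ k y = 0 := (mul_eq_zero.1 e.symm).resolve_left hs
      have := hm y (Set.mem_iUnion.2 ⟨a, Set.mem_iUnion.2 ⟨k, hy, h0⟩⟩)
      linarith
    refine ⟨y, h10, hmin.isLocalMin ?_⟩
    refine Filter.inter_mem (Metric.closedBall_mem_nhds_of_mem (by simpa using h9)) ?_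
    refine Filter.iInter_mem.2 fun k => ?_
    have ho : IsOpen {y | 0 < sg a k * ℓ k y} :=
      isOpen_lt continuous_const (continuous_const.mul (hℓ k))
    exact Filter.mem_of_superset (ho.mem_nhds (h10 k)) fun z hz => by
      have h11 : 0 < sg a k * ℓ k z := hz
      exact h11.le
  choose y hy hmin using hex
  have hinj : Function.Injective y := fun a b e => by
    by_contra hab
    obtain ⟨k, hk⟩ := hsg a b hab
    have h1 := hy a k
    have h2 := hy b k
    rw [← e] at h2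
    have h3 := mul_pos h1 h2
    nlinarith [sq_nonneg (ℓ k (y a))]
  have := hY (Finset.univ.image y) fun z hz => by
    obtain ⟨a, -, rfl⟩ := Finset.mem_image.1 hz
    have h0 := GeoU_crit Φ _ (hmin a) 0
    have h1 := GeoU_crit Φ _ (hmin a) 1
    simp only [Φ, evp, map_add, map_neg] at h0 h1 ⊢
    simp at h0 h1
    constructor <;> linarith
  rwa [Finset.card_image_of_injective _ hinj, Finset.card_univ] at this

end Pool.Agent.P.MP_a62d3c_co.FF
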