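import Pool.Agent.P.MP_a62d3c_co.FF.Res
import Pool.Agent.P.MP_a62d3c_co.FF.Gm

namespace Pool.Agent.P.MP_a62d3c_co.FF

open Filter Topology Polynomial MeasureTheory Asymptotics
open scoped ComplexConjugate Matrix ComplexOrder

variable {J : Type} [Fintype J] [DecidableEq J]

/-- the class of `c` at level `l` -/
def Lip_cl (d : J → J → ℤ) (l : ℤ) (c : J) : Finset J :=
  Finset.univ.filter fun k => k = c ∨ l ≤ d k c

theorem Lip_mem {d : J → J → ℤ} {l : ℤ} {c k : J} : k ∈ Lip_cl d l c ↔ k = c ∨ l ≤ d k c := by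
  simp [Lip_cl]

theorem Lip_self (d : J → J → ℤ) (l : ℤ) (c : J) : c ∈ Lip_cl d l c := Lip_mem.2 (Or.inl rfl)

theorem Lip_symm {d : J → J → ℤ} (hu : Ultra d) {l : ℤ} {c k : J} (h : k ∈ Lip_cl d l c) :
    c ∈ Lip_cl d l k := by
  rcases Lip_mem.1 h with h | h
  · exact Lip_mem.2 (Or.inl h.symm)
  · exact Lip_mem.2 (Or.inr (hu.symm k c ▸ h))

theorem Lip_trans {d : J → J → ℤ} (hu : Ultra d) {l : ℤ} {a b c : J} (h : a ∈ Lip_cl d l b)
    (h' : b ∈ Lip_cl d l c) : a ∈ Lip_cl d l c := by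
  by_cases hab : a = b
  · exact hab ▸ h'
  by_cases hbc : b = c
  · exact hbc ▸ h
  by_cases hac : a = c
  · exact Lip_mem.2 (Or.inl hac)
  have h1 := (Lip_mem.1 h).resolve_left hab
  have h2 := (Lip_mem.1 h').resolve_left hbc
  exact Lip_mem.2 (Or.inr ((le_min h1 h2).trans (hu.ultra a b c hab hbc hac)))

theorem Lip_mono {d : J → J → ℤ} {l : ℤ} {a c : J} (h : a ∈ Lip_cl d (l + 1) c) :
    a ∈ Lip_cl d l c := by
  rcases Lip_mem.1 h with h | h
  · exact Lip_mem.2 (Or.inl h)
  · exact Lip_mem.2 (Or.inr (by omega))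

theorem Lip_fiber {d : J → J → ℤ} (hu : Ultra d) {l : ℤ} {b c : J} (hb : b ∈ Lip_cl d l c) :
    ((Lip_cl d l c).filter fun i => Lip_cl d (l + 1) i = Lip_cl d (l + 1) b) =
      Lip_cl d (l + 1) b := by
  ext i
  rw [Finset.mem_filter]
  constructor
  · rintro ⟨-, h⟩
    exact h ▸ Lip_self d (l + 1) i
  · intro h
    refine ⟨Lip_trans hu (Lip_mono h) hb, ?_⟩
    ext a
    exact ⟨fun ha => Lip_trans hu ha h, fun ha => Lip_trans hu ha (Lip_symm hu h)⟩

theorem Lip_step {z L : ℂ → J → ℂ} {d : J → J → ℤ} (hS : Sep z d) (hu : Ultra d)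
    (hL : ∀ i j, i ≠ j → Bd (fun s => L s i - L s j) (d i j)) (mu : J → ℕ) {ν : ℝ} {l : ℤ}
    (hν : ∀ j, ν ≤ 2 * l + ∑ i, ((mu i : ℝ) - 1) * mn d i j l)
    (ih : ∀ c, Bd (fun s => ∑ i ∈ Lip_cl d (l + 1) c,
      (nP (z s) mu).eval (z s i) / dpr (z s) i * (L s i - L s c)) ν) (c : J) :
    Bd (fun s => ∑ i ∈ Lip_cl d l c,
      (nP (z s) mu).eval (z s i) / dpr (z s) i * (L s i - L s c)) ν := by
  have key : Bd (fun s => ∑ T ∈ (Lip_cl d l c).image (Lip_cl d (l + 1)),
      ∑ i ∈ (Lip_cl d l c).filter fun i => Lip_cl d (l + 1) i = T,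
        (nP (z s) mu).eval (z s i) / dpr (z s) i * (L s i - L s c)) ν := by
    refine Bd.sum fun T hT => ?_
    obtain ⟨b, hb, rfl⟩ := Finset.mem_image.1 hT
    rw [Lip_fiber hu hb]
    have h1 : Bd (fun s => L s b - L s c) l := by
      by_cases hbc : b = c
      · subst hbc
        simpa using bd_zero (l : ℝ)
      · exact (hL b c hbc).mono (by exact_mod_cast (Lip_mem.1 hb).resolve_left hbc)
    have h2 := rs_le hS (Lip_self d (l + 1) b) (l := l) (Or.inl
      ⟨fun i hi hib => (Lip_mem.1 hi).resolve_left hib, fun i hi => by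
        have : ¬ l + 1 ≤ d i b := fun h => hi (Lip_mem.2 (Or.inr h))
        omega⟩) mu
    have h3 := (h1.mul h2).mono (ν' := ν) (by linarith [hν b])
    refine ((ih b).add h3).congr (Eventually.of_forall fun s => ?_)
    simp only [Finset.mul_sum, ← Finset.sum_add_distrib]
    exact Finset.sum_congr rfl fun i _ => by ring
  exact key.congr (Eventually.of_forall fun s =>
    Finset.sum_fiberwise_of_maps_to (fun i hi => Finset.mem_image_of_mem _ hi) _)

/-- Paper section 5, the `L` term. For a level `l` let `rep l i` be a chosen point of the class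
`{k | k = i ∨ l ≤ d k i}` (depending on the class only). All points have the same `rep n0`, and
`rep l i = i` for `l > max d`. Telescope `L i = L (rep n0 i) + ∑ l, (L (rep (l+1) i) - L (rep l i))`.
The first term gives `0` (`hig_one`). For fixed `l` group the points by `c = rep (l+1) i`: the
increment is constant on the class, of order `l`, and the class sum is bounded by `rs_le` (first
case). -/
theorem lip {z L : ℂ → J → ℂ} {d : J → J → ℤ} {n0 : ℤ} (hS : Sep z d) (hu : Ultra d)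
    (hb : ∀ i j, i ≠ j → n0 ≤ d i j) (hL : ∀ i j, i ≠ j → Bd (fun s => L s i - L s j) (d i j))
    (mu : J → ℕ) (hmu : ∑ i, mu i + 2 ≤ Fintype.card J) {ν : ℝ}
    (hν : ∀ j (l : ℤ), n0 ≤ l → ν ≤ 2 * l + ∑ i, ((mu i : ℝ) - 1) * mn d i j l) :
    Bd (fun s => hig (z s) (L s) (nP (z s) mu)) ν := by
  obtain ⟨M, hM⟩ : ∃ M : ℤ, ∀ p : J × J, d p.1 p.2 ≤ M := by
    obtain ⟨M, hM⟩ := (Set.finite_range fun p : J × J => d p.1 p.2).bddAbove
    exact ⟨M, fun p => hM ⟨p, rfl⟩⟩
  have main : ∀ (n : ℕ) (l : ℤ), n0 ≤ l → M < l + n → ∀ c, Bd (fun s => ∑ i ∈ Lip_cl d l c,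
      (nP (z s) mu).eval (z s i) / dpr (z s) i * (L s i - L s c)) ν := by
    intro n
    induction n with
    | zero =>
      intro l _ hl c
      refine (bd_zero ν).congr (Eventually.of_forall fun s => ?_)
      refine (Finset.sum_eq_zero fun i hi => ?_).symm
      rcases Lip_mem.1 hi with h | h
      · rw [h, sub_self, mul_zero]
      · have := hM (i, c)
        simp only at this
        omega
    | succ n ih =>
      intro l hl hl' c
      exact Lip_step hS hu hL mu (fun j => hν j l hl) (ih (l + 1) (by omega) (by omega)) c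
  obtain ⟨c⟩ : Nonempty J := Fintype.card_pos_iff.1 (by omega)
  have h1 := main (M + 1 - n0).toNat n0 le_rfl (by omega) c
  have h2 : Lip_cl d n0 c = Finset.univ := by
    refine Finset.eq_univ_of_forall fun i => Lip_mem.2 ?_
    by_cases h : i = c
    · exact Or.inl h
    · exact Or.inr (hb i c h)
  rw [h2] at h1
  refine h1.congr ?_
  filter_upwards [hS.inj] with s hs
  have hd : (nP (z s) mu).natDegree + 2 ≤ Fintype.card J := by
    refine le_trans (Nat.add_le_add_right ?_ 2) hmu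
    refine (natDegree_prod_le _ _).trans (Finset.sum_le_sum fun i _ => ?_)
    refine natDegree_pow_le.trans ?_
    rw [natDegree_X_sub_C, mul_one]
  have h0 := hig_one hs hd
  unfold hig at h0 ⊢
  have h3 : ∑ i, (nP (z s) mu).eval (z s i) * L s i / dpr (z s) i =
      ∑ i, (nP (z s) mu).eval (z s i) / dpr (z s) i * (L s i - L s c) +
        L s c * ∑ i, (nP (z s) mu).eval (z s i) * 1 / dpr (z s) i := by
    rw [Finset.mul_sum, ← Finset.sum_add_distrib]
    exact Finset.sum_congr rfl fun i _ => by ring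
  rw [h3, h0, mul_zero, add_zero]

end Pool.Agent.P.MP_a62d3c_co.FF
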