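import Pool.Agent.P.MP_a62d3c_co.FF.Defs

namespace Pool.Agent.P.MP_a62d3c_co.FF

open Filter Topology Polynomial MeasureTheory Asymptotics
open scoped ComplexConjugate Matrix ComplexOrder

/-- the defining set of `gmin` is nonempty for `s ≤ e²` (`Nat.sInf_mem`) -/
theorem le_gmin {e s : ℕ} (wt : Box e → ℕ) (hs : s ≤ e ^ 2) {x : ℝ}
    (h : ∀ T : Finset (Box e), T.card = s → x ≤ ∑ m ∈ T, (wt m : ℝ)) : x ≤ gmin wt s := by
  have hne : {x | ∃ T : Finset (Box e), T.card = s ∧ x = ∑ m ∈ T, wt m}.Nonempty := by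
    obtain ⟨T, -, hT⟩ := Finset.exists_subset_card_eq (s := (Finset.univ : Finset (Box e)))
      (n := s) (by simpa [sq] using hs)
    exact ⟨_, T, hT, rfl⟩
  obtain ⟨T, hT, e1⟩ := Nat.sInf_mem hne
  rw [gmin, e1]
  push_cast
  exact h T hT

/-- `∑_T wt ≥ k |T| - ∑_{all m} (k - wt m)₊` -/
theorem sum_wt_ge {e : ℕ} (wt : Box e → ℕ) (T : Finset (Box e)) (k : ℕ) :
    (k : ℝ) * T.card - ∑ m : Box e, ((k - wt m : ℕ) : ℝ) ≤ ∑ m ∈ T, (wt m : ℝ) := by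
  have h1 : ∑ m ∈ T, ((k - wt m : ℕ) : ℝ) ≤ ∑ m : Box e, ((k - wt m : ℕ) : ℝ) :=
    Finset.sum_le_sum_of_subset_of_nonneg (Finset.subset_univ T) fun _ _ _ => Nat.cast_nonneg _
  have h2 : ∑ _m ∈ T, (k : ℝ) ≤ ∑ m ∈ T, ((wt m : ℝ) + ((k - wt m : ℕ) : ℝ)) :=
    Finset.sum_le_sum fun m _ => by exact_mod_cast (show k ≤ wt m + (k - wt m) by omega)
  rw [Finset.sum_add_distrib, Finset.sum_const, nsmul_eq_mul] at h2
  linarith

theorem Num3_tri (k e : ℕ) : ∑ a : Fin e, ((k - a : ℕ) : ℝ) ≤ (k : ℝ) * (k + 1) / 2 := by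
  induction k generalizing e with
  | zero => simp
  | succ k ih =>
    rcases e with _ | e
    · simp only [Finset.univ_eq_empty, Finset.sum_empty]; positivity
    · have := ih e
      rw [Fin.sum_univ_succ]
      simp only [Fin.val_zero, Nat.sub_zero, Fin.val_succ, Nat.add_sub_add_right]
      push_cast
      linarith

theorem Num3_tet (k e : ℕ) : ∑ a : Fin e, ((k - a : ℕ) : ℝ) * (((k - a : ℕ) : ℝ) + 1) / 2 ≤
    (k : ℝ) * (k + 1) * (k + 2) / 6 := by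
  induction k generalizing e with
  | zero => simp
  | succ k ih =>
    rcases e with _ | e
    · simp only [Finset.univ_eq_empty, Finset.sum_empty]; positivity
    · have := ih e
      rw [Fin.sum_univ_succ]
      simp only [Fin.val_zero, Nat.sub_zero, Fin.val_succ, Nat.add_sub_add_right]
      push_cast
      linarith

theorem Num3_fst (k e : ℕ) :
    ∑ m : Box e, ((k - m.1 : ℕ) : ℝ) ≤ e * ((k : ℝ) * (k + 1) / 2) := by
  rw [Fintype.sum_prod_type_right]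
  refine (Finset.sum_le_sum fun b _ => Num3_tri k e).trans (le_of_eq ?_)
  simp

theorem Num3_snd (k e : ℕ) :
    ∑ m : Box e, ((k - m.2 : ℕ) : ℝ) ≤ e * ((k : ℝ) * (k + 1) / 2) := by
  rw [Fintype.sum_prod_type]
  refine (Finset.sum_le_sum fun b _ => Num3_tri k e).trans (le_of_eq ?_)
  simp

theorem Num3_J (k e : ℕ) :
    ∑ m : Box e, ((k - wJ m : ℕ) : ℝ) ≤ (k : ℝ) * (k + 1) * (k + 2) / 6 := by
  rw [Fintype.sum_prod_type]
  refine le_trans (Finset.sum_le_sum fun a _ => ?_) (Num3_tet k e)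
  refine le_trans (le_of_eq ?_) (Num3_tri (k - a) e)
  exact Finset.sum_congr rfl fun b _ => by rw [wJ, Nat.sub_sub]

theorem Num3_diff {ρ s : ℕ} (hs : s ≤ NP ρ) :
    kD ρ * ((s : ℝ) * ((s : ℝ) - 1)) -
        kD ρ * (((NP ρ - s : ℕ) : ℝ) * (((NP ρ - s : ℕ) : ℝ) - 1)) =
      (8 * (ρ : ℝ) - 1) * (2 * s - 64 * (ρ : ℝ) ^ 2) := by
  rw [Nat.cast_sub hs, kD]
  push_cast
  field_simp
  ring

theorem Num3_one {ρ s : ℕ} (hρ : 1 ≤ ρ) (hs : s ≤ NP ρ) (wt : Box (eP ρ) → ℕ)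
    (hw : ∀ k : ℕ, ∑ m : Box (eP ρ), ((k - wt m : ℕ) : ℝ) ≤ (eP ρ : ℕ) * ((k : ℝ) * (k + 1) / 2)) :
    kD ρ * ((s : ℝ) * ((s : ℝ) - 1) / 2) - bL ρ s ≤ gmin wt s := by
  refine le_gmin wt (hs.trans (le_of_eq (by ring))) fun T hT => ?_
  have h0 : ∀ k : ℕ, (k : ℝ) * s - 8 * ρ * ((k : ℝ) * (k + 1) / 2) ≤ ∑ m ∈ T, (wt m : ℝ) := by
    intro k
    have h1 := sum_wt_ge wt T k
    have h2 := hw k
    rw [hT] at h1
    push_cast at h2
    linarith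
  have hρ' : (1 : ℝ) ≤ ρ := by exact_mod_cast hρ
  rw [bL, sub_le_comm, le_min_iff, sub_le_comm, sub_le_comm (b := ∑ m ∈ T, (wt m : ℝ))]
  constructor
  · rw [Nat.cast_choose_two, sb]
    rcases le_total s (NP ρ - s) with h | h
    · rw [min_eq_left h, sub_self]
      positivity
    · have h1 := Num3_diff hs
      have h2 := h0 (8 * ρ - 1)
      rw [Nat.cast_sub (by omega)] at h2
      push_cast at h2
      rw [min_eq_right h]
      linarith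
  · have h2 := h0 (s / (8 * ρ))
    have h3 : (s : ℝ) = 8 * ρ * ((s / (8 * ρ) : ℕ) : ℝ) + ((s % (8 * ρ) : ℕ) : ℝ) := by
      exact_mod_cast (Nat.div_add_mod s (8 * ρ)).symm
    have h4 : ((s % (8 * ρ) : ℕ) : ℝ) ≤ 8 * ρ := by
      exact_mod_cast (Nat.mod_lt s (show 0 < 8 * ρ by omega)).le
    have h5 : (0 : ℝ) ≤ ((s % (8 * ρ) : ℕ) : ℝ) := Nat.cast_nonneg _
    generalize ((s / (8 * ρ) : ℕ) : ℝ) = k at h2 h3
    generalize ((s % (8 * ρ) : ℕ) : ℝ) = r at h3 h4 h5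
    have h6 : kD ρ * ((s : ℝ) * ((s : ℝ) - 1) / 2) -
        kD ρ * ((s : ℝ) * (64 * (ρ : ℝ) ^ 2 - s) / (16 * ρ)) =
        k * s - 8 * ρ * (k * (k + 1) / 2) - r * (8 * ρ - r) / (16 * ρ) := by
      rw [kD, h3]
      field_simp
      ring
    have h7 : 0 ≤ r * (8 * ρ - r) / (16 * ρ) :=
      div_nonneg (mul_nonneg h5 (sub_nonneg.2 h4)) (by positivity)
    linarith

/-- three bounds: `0`; `(e - 1) (2 s - N) / 2` (total minus the complement);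
`k s - e k (k + 1) / 2 ≥ s² / (2 e) - s / 2` for `k = s / e` -/
theorem gZ_ge {ρ s : ℕ} (hρ : 1 ≤ ρ) (hs : s ≤ NP ρ) :
    kD ρ * ((s : ℝ) * ((s : ℝ) - 1) / 2) - bL ρ s ≤ gmin (wZ (e := eP ρ)) s :=
  Num3_one hρ hs _ fun k => Num3_fst k _

theorem gW_ge {ρ s : ℕ} (hρ : 1 ≤ ρ) (hs : s ≤ NP ρ) :
    kD ρ * ((s : ℝ) * ((s : ℝ) - 1) / 2) - bL ρ s ≤ gmin (wW (e := eP ρ)) s :=
  Num3_one hρ hs _ fun k => Num3_snd k _

/-- at most `j + 1` exponents have degree `j`; for `s > N / 2` apply this to the image of the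
complement under the reflection `(a, b) ↦ (e - 1 - a, e - 1 - b)` (`Fin.rev`) -/
theorem gJ_ge {ρ s : ℕ} (hρ : 1 ≤ ρ) (hs : s ≤ NP ρ) (k : ℕ) :
    kD ρ * ((s : ℝ) * ((s : ℝ) - 1)) + ((k : ℝ) * sb ρ s - k * (k + 1) * (k + 2) / 6 -
      kD ρ * ((sb ρ s : ℝ) * ((sb ρ s : ℝ) - 1))) ≤ gmin (wJ (e := eP ρ)) s := by
  refine le_gmin _ (hs.trans (le_of_eq (by ring))) fun T hT => ?_
  have h0 := Num3_J k (eP ρ)
  rw [sb]
  rcases le_total s (NP ρ - s) with h | h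
  · have h1 := sum_wt_ge wJ T k
    rw [hT] at h1
    rw [min_eq_left h]
    linarith
  · let τ : Box (eP ρ) ≃ Box (eP ρ) := Equiv.prodCongr Fin.revPerm Fin.revPerm
    have h1 := sum_wt_ge (fun m => wJ (τ m)) Tᶜ k
    have h2 : Tᶜ.card = NP ρ - s := by
      rw [Finset.card_compl, hT, Fintype.card_prod, Fintype.card_fin]
      congr 1
      ring
    have h3 : ∀ m : Box (eP ρ), (wJ (τ m) : ℝ) = 2 * (8 * (ρ : ℝ) - 1) - wJ m := by
      rintro ⟨a, b⟩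
      have e1 : wJ (τ (a, b)) + wJ (a, b) + 2 = 16 * ρ := by
        have ha : a.val < 8 * ρ := a.2
        have hb : b.val < 8 * ρ := b.2
        simp only [τ, wJ, Equiv.prodCongr_apply, Prod.map, Fin.revPerm_apply, Fin.val_rev, eP]
        omega
      have e2 : (wJ (τ (a, b)) : ℝ) + wJ (a, b) + 2 = 16 * ρ := by exact_mod_cast e1
      linarith
    have h4 := τ.sum_comp fun m => (wJ m : ℝ)
    have h5 := τ.sum_comp fun m => ((k - wJ m : ℕ) : ℝ)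
    have h6 := Finset.sum_add_sum_compl T fun m => (wJ m : ℝ)
    simp only [h3, Finset.sum_sub_distrib, Finset.sum_const, nsmul_eq_mul, Finset.card_univ,
      Fintype.card_prod, Fintype.card_fin, h2, h5] at h1 h4
    have h7 := Num3_diff hs
    have h8 : ((NP ρ - s : ℕ) : ℝ) = 64 * (ρ : ℝ) ^ 2 - s := by
      rw [Nat.cast_sub hs]; push_cast; ring
    push_cast at h4
    rw [min_eq_right h]
    rw [h8] at h1 h7 ⊢
    linarith

/-- at most `2 e k` exponents have `wD < k`; take `k = ρ` -/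
theorem gD_ge {ρ s : ℕ} (hρ : 1 ≤ ρ) (hs : s ≤ NP ρ) (h : 32 * ρ ^ 2 ≤ s) :
    16 * (ρ : ℝ) ^ 3 ≤ gmin (wD (e := eP ρ)) s := by
  refine le_gmin _ (hs.trans (le_of_eq (by ring))) fun T hT => ?_
  have h1 := sum_wt_ge wD T ρ
  let τ : Box (eP ρ) ≃ Box (eP ρ) := Equiv.prodCongr Fin.revPerm (Equiv.refl _)
  have h2 : ∑ m : Box (eP ρ), ((ρ - wD m : ℕ) : ℝ) ≤
      ∑ m : Box (eP ρ), (((ρ - m.2 : ℕ) : ℝ) + ((ρ - (τ m).1 : ℕ) : ℝ)) := by
    refine Finset.sum_le_sum fun m _ => ?_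
    have e1 : ρ - wD m ≤ (ρ - m.2) + (ρ - (τ m).1) := by
      simp only [τ, wD, Equiv.prodCongr_apply, Prod.map, Fin.revPerm_apply, Fin.val_rev]
      omega
    exact_mod_cast e1
  rw [Finset.sum_add_distrib, τ.sum_comp fun m => ((ρ - m.1 : ℕ) : ℝ)] at h2
  have h3 := Num3_fst ρ (eP ρ)
  have h4 := Num3_snd ρ (eP ρ)
  have hρ' : (1 : ℝ) ≤ ρ := by exact_mod_cast hρ
  have h5 : 32 * (ρ : ℝ) ^ 2 ≤ s := by exact_mod_cast h
  have h6 := mul_le_mul_of_nonneg_left h5 (zero_le_one.trans hρ')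
  have h7 := mul_le_mul_of_nonneg_left hρ' (sq_nonneg (ρ : ℝ))
  rw [hT] at h1
  push_cast at h3 h4
  linarith

end Pool.Agent.P.MP_a62d3c_co.FF
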