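import Pool.Agent.P.MP_a62d3c_co.FF.Core
import Pool.Agent.P.MP_a62d3c_co.FF.Geo
import Pool.Agent.P.MP_a62d3c_co.FF.LA

namespace Pool.Agent.P.MP_a62d3c_co.FF

open Filter Topology Polynomial MeasureTheory Asymptotics
open scoped ComplexConjugate Matrix ComplexOrder

/-- restriction of a family to a subset -/
def Fam.res {ι : Type} (F : Fam ι) (K : Finset ι) : Fam K :=
  ⟨fun i => F.x i.1, fun i => F.η i.1, F.D, fun i j => F.dd i.1 j.1, fun i j => F.ident i.1 j.1⟩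

theorem Red_core {ι : Type} [Fintype ι] [DecidableEq ι] {ρ : ℕ} (hρ : 2 ^ 22 ≤ ρ) (F : Fam ι)
    {t₀ δ₀ : ℂ} (h0 : δ₀ ^ 2 = F.D.eval t₀) (hδ : δ₀ ≠ 0)
    (hdd : ∀ i j, i ≠ j → (F.dd i j).eval t₀ ≠ 0)
    (h : ∀ c : Mb (eP ρ) → ℂ, (∀ i, ∑ m, c m * (F.z t₀ δ₀ i ^ (m.1.1 : ℕ) *
      F.z t₀ (-δ₀) i ^ (m.1.2 : ℕ)) = 0) → c = 0) (i j k l : ι) (hkl : k ≠ l) :
    F.dd i j ^ 2 * C ((F.dd k l ^ 2).eval t₀) = F.dd k l ^ 2 * C ((F.dd i j ^ 2).eval t₀) := by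
  have hz : Function.Injective (F.z t₀ δ₀) := by
    intro a b e
    by_contra hab
    have := F.prod_eq h0 a b
    rw [e, sub_self, zero_mul] at this
    exact hdd a b hab (pow_eq_zero_iff two_ne_zero |>.1 this.symm)
  have he : 5 ≤ eP ρ := by
    have : 1 ≤ ρ := le_trans (by norm_num) hρ
    simp only [eP]; omega
  obtain ⟨K, hK, g, hg⟩ := la_ext he (F.z t₀ δ₀) (F.z t₀ (-δ₀)) hz h {i, j, k, l}
    Finset.card_le_four
  exact core hρ g (F.res K) (t₀ := t₀) (δ₀ := δ₀) h0 hδ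
    (fun a b hab => hdd a.1 b.1 fun e => hab (Subtype.ext e)) hg
    ⟨i, hK (by simp)⟩ ⟨j, hK (by simp)⟩ ⟨k, hK (by simp)⟩ ⟨l, hK (by simp)⟩
    fun e => hkl (congrArg Subtype.val e)

section
variable {ι : Type} (d : ι → ι → ℝ[X]) (A B c : ι)

/-- scalar product with `P B - P A` -/
noncomputable def Red_X (i : ι) : ℝ[X] := C (1 / 2) * (d A i ^ 2 + d A B ^ 2 - d B i ^ 2)

/-- product of two areas -/
noncomputable def Red_P (i j : ι) : ℝ[X] :=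
  C (1 / 2) * (d A B ^ 2 * (d A i ^ 2 + d A j ^ 2 - d i j ^ 2)) - Red_X d A B i * Red_X d A B j

variable {d A B c} {t : ℝ} {a b : ι → ℝ}

theorem Red_X_eval (h : ∀ i j, (d i j).eval t ^ 2 = (a i - a j) ^ 2 + (b i - b j) ^ 2) (i : ι) :
    (Red_X d A B i).eval t = (a i - a A) * (a B - a A) + (b i - b A) * (b B - b A) := by
  simp only [Red_X, eval_mul, eval_C, eval_sub, eval_add, eval_pow, h]
  ring

theorem Red_P_eval (h : ∀ i j, (d i j).eval t ^ 2 = (a i - a j) ^ 2 + (b i - b j) ^ 2) (i j : ι) :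
    (Red_P d A B i j).eval t = ((a B - a A) * (b i - b A) - (b B - b A) * (a i - a A)) *
      ((a B - a A) * (b j - b A) - (b B - b A) * (a j - a A)) := by
  simp only [Red_P, eval_mul, eval_C, eval_sub, eval_add, eval_pow, h, Red_X_eval h]
  ring

theorem Red_ident (h : ∀ i j, (d i j).eval t ^ 2 = (a i - a j) ^ 2 + (b i - b j) ^ 2) (i j : ι) :
    ((Red_P d A B c c * Red_X d A B i - Red_P d A B c c * Red_X d A B j) ^ 2 -
      (Red_P d A B i c - Red_P d A B j c) ^ 2 * (-Red_P d A B c c) -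
        (Red_P d A B c c * d A B * d i j) ^ 2).eval t = 0 := by
  have aux : ∀ xi xj yi yj yc v w : ℝ, (xi - xj) ^ 2 + (yi - yj) ^ 2 = v * w →
      (yc * yc * xi - yc * yc * xj) ^ 2 - (yi * yc - yj * yc) ^ 2 * -(yc * yc) -
        yc ^ 2 * yc ^ 2 * v * w = 0 := fun xi xj yi yj yc v w e => by
    linear_combination yc ^ 4 * e
  simp only [eval_mul, eval_sub, eval_neg, eval_pow, mul_pow, Red_P_eval h]
  refine aux _ _ _ _ _ _ _ ?_
  rw [Red_X_eval h, Red_X_eval h, h, h]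
  ring

end

theorem Red_dist {n : ℕ} {p : Fin n → Pt} {D : Fin n → Fin n → ℝ} {H : ℝ} (hH : H ≠ 0)
    (h : ∀ i j, dist (p i) (p j) = |D i j / H|) (i j : Fin n) :
    D i j ^ 2 = (H * p i 0 - H * p j 0) ^ 2 + (H * p i 1 - H * p j 1) ^ 2 := by
  have h1 : dist (p i) (p j) ^ 2 = (p i 0 - p j 0) ^ 2 + (p i 1 - p j 1) ^ 2 := by
    rw [EuclideanSpace.dist_eq, Real.sq_sqrt (Finset.sum_nonneg fun _ _ => sq_nonneg _)]
    simp [Fin.sum_univ_two, Real.dist_eq]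
  rw [h i j, sq_abs, div_pow, div_eq_iff (pow_ne_zero 2 hH)] at h1
  rw [h1]; ring

theorem Red_ev (Q : ℝ[X]) (u : ℝ) :
    (Q.map Complex.ofRealHom).eval (u : ℂ) = ((Q.eval u : ℝ) : ℂ) := by
  simpa using Polynomial.eval_map_apply (p := Q) Complex.ofRealHom u

theorem Red_key {n : ℕ} {ρ : ℕ} (hρ : 2 ^ 22 ≤ ρ) (d : Fin n → Fin n → ℝ[X]) (A B c : Fin n)
    {T : Set ℝ} (hT : T.Infinite) (a b : ℝ → Fin n → ℝ)
    (hsq : ∀ u ∈ T, ∀ i j, (d i j).eval u ^ 2 = (a u i - a u j) ^ 2 + (b u i - b u j) ^ 2)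
    {t₀ : ℝ} (ht₀ : t₀ ∈ T) {H : ℝ} (hH : H ≠ 0) (p : Fin n → Pt) (ha : ∀ i, a t₀ i = H * p i 0)
    (hb : ∀ i, b t₀ i = H * p i 1) (hor : det3 (p A) (p B) (p c) ≠ 0)
    (hd0 : ∀ i j, i ≠ j → (d i j).eval t₀ ≠ 0)
    (hgeo : ∀ G : MvPolynomial (Fin 2) ℝ, G.totalDegree ≤ 2 * eP ρ → (∀ i, evp G (p i) = 0) → G = 0)
    (i j : Fin n) :
    d i j ^ 2 * C ((d A B).eval t₀ ^ 2) = d A B ^ 2 * C ((d i j).eval t₀ ^ 2) := by
  have hAB : A ≠ B := fun e => hor (by rw [e]; simp [det3])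
  obtain ⟨Y, hY⟩ : ∃ Y : ℝ, Y = H ^ 2 * det3 (p A) (p B) (p c) := ⟨_, rfl⟩
  have hY0 : Y ≠ 0 := hY ▸ mul_ne_zero (pow_ne_zero 2 hH) hor
  have hcc : (Red_P d A B c c).eval t₀ = Y ^ 2 := by
    rw [Red_P_eval (hsq t₀ ht₀), hY, det3]
    simp only [ha, hb]
    ring
  obtain ⟨F, hx, hη, hD, hdd⟩ : ∃ F : Fam (Fin n),
      (∀ i, F.x i = (Red_P d A B c c * Red_X d A B i).map Complex.ofRealHom) ∧
      (∀ i, F.η i = (Red_P d A B i c).map Complex.ofRealHom) ∧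
      F.D = (-Red_P d A B c c).map Complex.ofRealHom ∧
      ∀ i j, F.dd i j = (Red_P d A B c c * d A B * d i j).map Complex.ofRealHom := by
    refine ⟨⟨fun i => (Red_P d A B c c * Red_X d A B i).map Complex.ofRealHom,
      fun i => (Red_P d A B i c).map Complex.ofRealHom, (-Red_P d A B c c).map Complex.ofRealHom,
      fun i j => (Red_P d A B c c * d A B * d i j).map Complex.ofRealHom, fun i j => ?_⟩,
      fun _ => rfl, fun _ => rfl, rfl, fun _ _ => rfl⟩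
    have := Polynomial.eq_zero_of_infinite_isRoot _
      (hT.mono fun u hu => Red_ident (A := A) (B := B) (c := c) (hsq u hu) i j)
    rw [← Polynomial.map_sub, ← Polynomial.map_sub, ← Polynomial.map_pow, ← Polynomial.map_pow,
      ← Polynomial.map_mul, ← Polynomial.map_sub, ← Polynomial.map_pow, sub_eq_zero.1 this]
  obtain ⟨A₁, hA₁⟩ : ∃ A₁ : ℂ, A₁ = (Y : ℂ) ^ 2 * (H : ℂ) ^ 2 * (((p B 0 - p A 0 : ℝ) : ℂ) -
    Complex.I * ((p B 1 - p A 1 : ℝ) : ℂ)) := ⟨_, rfl⟩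
  obtain ⟨A₀, hA₀⟩ : ∃ A₀ : ℂ, A₀ = -(A₁ * (p A 0 : ℝ) + Complex.I * A₁ * (p A 1 : ℝ)) := ⟨_, rfl⟩
  have hη' : ∀ i, (Red_P d A B i c).eval t₀ =
      H ^ 2 * ((p B 0 - p A 0) * (p i 1 - p A 1) - (p B 1 - p A 1) * (p i 0 - p A 0)) * Y := by
    intro i
    rw [Red_P_eval (hsq t₀ ht₀), hY, det3]
    simp only [ha, hb]
    ring
  have hz : ∀ i, F.z t₀ (Complex.I * Y) i =
      A₀ + A₁ * (p i 0 : ℝ) + Complex.I * A₁ * (p i 1 : ℝ) := fun i => by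
    rw [Fam.z, hx, hη, Red_ev, Red_ev, eval_mul, hcc, Red_X_eval (hsq t₀ ht₀), hη', hA₀, hA₁]
    simp only [ha, hb]
    push_cast
    linear_combination (Y : ℂ) ^ 2 * (H : ℂ) ^ 2 * ((p B 1 : ℝ) - (p A 1 : ℝ) : ℂ) *
      ((p i 1 : ℝ) - (p A 1 : ℝ) : ℂ) * Complex.I_sq
  have hw : ∀ i, F.z t₀ (-(Complex.I * Y)) i =
      conj (A₀ + A₁ * (p i 0 : ℝ) + Complex.I * A₁ * (p i 1 : ℝ)) := fun i => by
    rw [← hz, Fam.z, Fam.z, hx, hη, Red_ev, Red_ev]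
    simp only [map_add, map_mul, Complex.conj_ofReal, Complex.conj_I]
    ring
  have h0 : (Complex.I * Y) ^ 2 = F.D.eval (t₀ : ℂ) := by
    rw [hD, Red_ev, eval_neg, hcc, mul_pow, Complex.I_sq]; push_cast; ring
  have hdd0 : ∀ i j, i ≠ j → (F.dd i j).eval (t₀ : ℂ) ≠ 0 := fun i j hij => by
    rw [hdd, Red_ev, eval_mul, eval_mul, hcc]
    exact Complex.ofReal_ne_zero.2
      (mul_ne_zero (mul_ne_zero (pow_ne_zero 2 hY0) (hd0 A B hAB)) (hd0 i j hij))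
  have hA1 : A₁ ≠ 0 := by
    intro e
    have := F.prod_eq h0 A B
    rw [hz A, hz B, e] at this
    simp only [zero_mul, mul_zero, add_zero, sub_self] at this
    exact hdd0 A B hAB (pow_eq_zero_iff two_ne_zero |>.1 this.symm)
  have h1 := Red_core hρ F (t₀ := t₀) (δ₀ := Complex.I * Y) h0
    (mul_ne_zero Complex.I_ne_zero (Complex.ofReal_ne_zero.2 hY0)) hdd0
    (fun c hc => la_real p A₀ A₁ (Complex.I * A₁)
      (by
        have : (conj A₁ * (Complex.I * A₁)).im = Complex.normSq A₁ := by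
          simp [Complex.normSq_apply]
        rw [this]
        exact (Complex.normSq_pos.2 hA1).ne') hgeo c
      fun i => by rw [← hw, ← hz]; exact hc i) i j A B hAB
  obtain ⟨Q, hQ⟩ : ∃ Q : ℝ[X], Q = Red_P d A B c c * d A B := ⟨_, rfl⟩
  have hQ0 : Q.eval t₀ ≠ 0 := by
    rw [hQ, eval_mul, hcc]
    exact mul_ne_zero (pow_ne_zero 2 hY0) (hd0 A B hAB)
  rw [hdd, hdd, ← hQ, eval_pow, eval_pow, Red_ev, Red_ev] at h1
  have h2 : (Q * d i j) ^ 2 * C (((Q * d A B).eval t₀) ^ 2) =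
      (Q * d A B) ^ 2 * C (((Q * d i j).eval t₀) ^ 2) := by
    apply Polynomial.map_injective Complex.ofRealHom Complex.ofReal_injective
    have hm : ∀ (R : ℝ[X]) (x : ℝ), (R ^ 2 * C (x ^ 2)).map Complex.ofRealHom =
        R.map Complex.ofRealHom ^ 2 * C ((x : ℂ) ^ 2) := fun R x => by
      rw [Polynomial.map_mul, Polynomial.map_pow, map_C, map_pow]
      rfl
    rw [hm, hm]
    exact h1
  have h3 : Q ^ 2 * C (Q.eval t₀ ^ 2) * (d i j ^ 2 * C ((d A B).eval t₀ ^ 2)) =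
      Q ^ 2 * C (Q.eval t₀ ^ 2) * (d A B ^ 2 * C ((d i j).eval t₀ ^ 2)) := by
    simp only [eval_mul, mul_pow, map_mul] at h2
    linear_combination h2
  exact mul_left_cancel₀
    (mul_ne_zero (pow_ne_zero 2 fun e => hQ0 (by simp [e])) (C_ne_zero.2 (pow_ne_zero 2 hQ0))) h3

theorem final : ∃ S : Finset Pt, Stretched S ∧
    ∀ (n : ℕ) (d : Fin n → Fin n → ℝ[X]) (h : ℝ[X]) (T : Set ℝ) (P : ℝ → Fin n → Pt),
      T.Infinite → (∀ t ∈ T, h.eval t ≠ 0) →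
      (∀ t ∈ T, ∀ i j, dist (P t i) (P t j) = |(d i j).eval t / h.eval t|) →
      ∀ t₀ ∈ T, Function.Injective (P t₀) → ∀ f : Pt → Fin n,
        (∀ a ∈ S, ∀ b ∈ S, ∀ c ∈ S,
          orient (P t₀ (f a)) (P t₀ (f b)) (P t₀ (f c)) = orient a b c) →
        ∀ t ∈ T, ∃ r : ℝ, ∀ i j, dist (P t i) (P t j) = r * dist (P t₀ i) (P t₀ j) := by
  obtain ⟨ρ, hρ⟩ : ∃ ρ : ℕ, 2 ^ 22 ≤ ρ := ⟨_, le_rfl⟩
  obtain ⟨S, hS, h3, hgeo⟩ := geo (2 * eP ρ)
  refine ⟨S, hS, fun n d h T P hT hh hd t₀ ht₀ hinj f hf t ht => ?_⟩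
  obtain ⟨a, ha, b, hb, c, hc, hab, hac, hbc⟩ := Finset.two_lt_card.1 h3
  have hor : det3 (P t₀ (f a)) (P t₀ (f b)) (P t₀ (f c)) ≠ 0 := by
    have := hS.1 a ha b hb c hc hab hac hbc
    rw [← hf a ha b hb c hc, orient_eq] at this
    exact fun e => this (by simp [e])
  have hAB : f a ≠ f b := fun e => hor (by rw [e]; simp [det3])
  have hd0 : ∀ i j, i ≠ j → (d i j).eval t₀ ≠ 0 := fun i j hij e => by
    have := hd t₀ ht₀ i j
    rw [e, zero_div, abs_zero, dist_eq_zero] at this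
    exact hij (hinj this)
  have key := Red_key hρ d (f a) (f b) (f c) hT (fun u i => h.eval u * P u i 0)
    (fun u i => h.eval u * P u i 1) (fun u hu => Red_dist (hh u hu) (hd u hu)) ht₀ (hh t₀ ht₀)
    (P t₀) (fun _ => rfl) (fun _ => rfl) hor hd0
    (fun G hG hG0 => hgeo (fun x => P t₀ (f x)) hf G hG fun x _ => hG0 _)
  refine ⟨dist (P t (f a)) (P t (f b)) / dist (P t₀ (f a)) (P t₀ (f b)), fun i j => ?_⟩
  have k1 : |(d i j).eval t| * |(d (f a) (f b)).eval t₀| =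
      |(d (f a) (f b)).eval t| * |(d i j).eval t₀| := by
    rw [← abs_mul, ← abs_mul, ← sq_eq_sq₀ (abs_nonneg _) (abs_nonneg _), sq_abs, sq_abs, mul_pow,
      mul_pow]
    simpa using congrArg (eval t) (key i j)
  have p1 := abs_pos.2 (hh t ht)
  have p2 := abs_pos.2 (hh t₀ ht₀)
  have p3 := abs_pos.2 (hd0 _ _ hAB)
  rw [hd t ht, hd t ht, hd t₀ ht₀, hd t₀ ht₀, abs_div, abs_div, abs_div, abs_div]
  field_simp
  linear_combination k1

end Pool.Agent.P.MP_a62d3c_co.FF
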