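import Pool.Agent.P.MP_a62d3c_co.FF.Defs

namespace Pool.Agent.P.MP_a62d3c_co.FF

open Filter Topology Polynomial MeasureTheory Asymptotics
open scoped ComplexConjugate Matrix ComplexOrder

variable {D M : ℂ[X]} {f h : ℂ → ℂ → ℂ}

theorem reg_poly (P : ℂ[X]) : Reg D M fun t _ => P.eval t :=
  ⟨P, 0, 0, fun t δ _ _ => by simp⟩

theorem reg_const (c : ℂ) : Reg D M fun _ _ => c :=
  ⟨C c, 0, 0, fun t δ _ _ => by simp⟩

theorem reg_delta : Reg D M fun _ δ => δ :=
  ⟨0, 1, 0, fun t δ _ _ => by simp⟩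

theorem Reg.congr (hf : Reg D M f)
    (he : ∀ t δ, δ ^ 2 = D.eval t → M.eval t ≠ 0 → f t δ = h t δ) : Reg D M h := by
  obtain ⟨P, Q, k, H⟩ := hf
  exact ⟨P, Q, k, fun t δ h1 h2 => by rw [← he t δ h1 h2, H t δ h1 h2]⟩

theorem Reg.add (hf : Reg D M f) (hh : Reg D M h) : Reg D M fun t δ => f t δ + h t δ := by
  obtain ⟨P, Q, k, H⟩ := hf
  obtain ⟨P', Q', k', H'⟩ := hh
  refine ⟨P * M ^ k' + P' * M ^ k, Q * M ^ k' + Q' * M ^ k, k + k', fun t δ h1 h2 => ?_⟩
  simp only [eval_add, eval_mul, eval_pow, pow_add]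
  linear_combination M.eval t ^ k' * H t δ h1 h2 + M.eval t ^ k * H' t δ h1 h2

theorem Reg.mul (hf : Reg D M f) (hh : Reg D M h) : Reg D M fun t δ => f t δ * h t δ := by
  obtain ⟨P, Q, k, H⟩ := hf
  obtain ⟨P', Q', k', H'⟩ := hh
  refine ⟨P * P' + Q * Q' * D, P * Q' + Q * P', k + k', fun t δ h1 h2 => ?_⟩
  simp only [eval_add, eval_mul, pow_add]
  linear_combination h t δ * M.eval t ^ k' * H t δ h1 h2 +
    (P.eval t + Q.eval t * δ) * H' t δ h1 h2 + Q.eval t * Q'.eval t * h1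

theorem Reg.neg (hf : Reg D M f) : Reg D M fun t δ => -f t δ := by
  obtain ⟨P, Q, k, H⟩ := hf
  refine ⟨-P, -Q, k, fun t δ h1 h2 => ?_⟩
  simp only [eval_neg]
  linear_combination -H t δ h1 h2

theorem Reg.pow (hf : Reg D M f) (n : ℕ) : Reg D M fun t δ => f t δ ^ n := by
  induction n with
  | zero => exact (reg_const 1).congr fun t δ _ _ => (pow_zero _).symm
  | succ n ih => exact (ih.mul hf).congr fun t δ _ _ => (pow_succ _ _).symm

theorem Reg.flip (hf : Reg D M f) : Reg D M fun t δ => f t (-δ) := by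
  obtain ⟨P, Q, k, H⟩ := hf
  refine ⟨P, -Q, k, fun t δ h1 h2 => ?_⟩
  simp only [eval_neg]
  linear_combination H t (-δ) (by rw [neg_sq, h1]) h2

theorem Reg.sum {ι : Type*} {A : Finset ι} {F : ι → ℂ → ℂ → ℂ} (hF : ∀ i ∈ A, Reg D M (F i)) :
    Reg D M fun t δ => ∑ i ∈ A, F i t δ := by
  classical
  induction A using Finset.induction_on with
  | empty => exact (reg_const 0).congr fun t δ _ _ => by simp
  | insert a A ha ih =>
    exact ((hF a (Finset.mem_insert_self a A)).add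
      (ih fun i hi => hF i (Finset.mem_insert_of_mem hi))).congr fun t δ _ _ => by
        rw [Finset.sum_insert ha]

theorem Reg.prod {ι : Type*} {A : Finset ι} {F : ι → ℂ → ℂ → ℂ} (hF : ∀ i ∈ A, Reg D M (F i)) :
    Reg D M fun t δ => ∏ i ∈ A, F i t δ := by
  classical
  induction A using Finset.induction_on with
  | empty => exact (reg_const 1).congr fun t δ _ _ => by simp
  | insert a A ha ih =>
    exact ((hF a (Finset.mem_insert_self a A)).mul
      (ih fun i hi => hF i (Finset.mem_insert_of_mem hi))).congr fun t δ _ _ => by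
        rw [Finset.prod_insert ha]

theorem Reg.det {n : Type*} [Fintype n] [DecidableEq n] {A : ℂ → ℂ → Matrix n n ℂ}
    (hA : ∀ i j, Reg D M fun t δ => A t δ i j) : Reg D M fun t δ => (A t δ).det :=
  (Reg.sum (A := Finset.univ)
    (F := fun (σ : Equiv.Perm n) t δ => ((Equiv.Perm.sign σ : ℤ) : ℂ) * ∏ i, A t δ (σ i) i)
    fun σ _ => (reg_const _).mul (Reg.prod fun i _ => hA (σ i) i)).congr fun t δ _ _ =>
      (Matrix.det_apply' _).symm

theorem reg_inv {P : ℂ[X]} (hP : P ∣ M) : Reg D M fun t _ => (P.eval t)⁻¹ := by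
  obtain ⟨Q, rfl⟩ := hP
  refine ⟨Q, 0, 1, fun t δ _ h2 => ?_⟩
  rw [eval_mul] at h2
  have h3 := left_ne_zero_of_mul h2
  simp only [eval_mul, pow_one, eval_zero, zero_mul, add_zero]
  rw [inv_mul_cancel_left₀ h3]

/-- (ID). If `D = 1`: `P + Q` is a nonzero polynomial. Otherwise the norm `P² - Q² D` is nonzero: if it
were zero and `Q ≠ 0`, then `Q² ∣ P²`, `Q ∣ P` (`UniqueFactorizationMonoid.pow_dvd_pow_iff_dvd` or
`IsIntegrallyClosed.pow_dvd_pow_iff`) and `D` is a square. -/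
theorem Reg.finite (hf : Reg D M f) (hD : D = 1 ∨ ¬IsSquare D) {t₀ δ₀ : ℂ} (h0 : Rt D t₀ δ₀)
    (hM : M.eval t₀ ≠ 0) (hf0 : f t₀ δ₀ ≠ 0) :
    {t | M.eval t ≠ 0 ∧ ∃ δ, Rt D t δ ∧ f t δ = 0}.Finite := by
  obtain ⟨P, Q, k, H⟩ := hf
  have h1 : P.eval t₀ + Q.eval t₀ * δ₀ ≠ 0 := by
    rw [← H t₀ δ₀ h0.1 hM]
    exact mul_ne_zero hf0 (pow_ne_zero _ hM)
  rcases hD with hD | hD
  · have h2 : P + Q ≠ 0 := fun e => h1 (by
      rw [h0.2 hD, mul_one, ← eval_add, e, eval_zero])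
    refine (Polynomial.finite_setOf_isRoot h2).subset ?_
    rintro t ⟨ht, δ, hδ, h3⟩
    have h4 := H t δ hδ.1 ht
    rw [h3, zero_mul, hδ.2 hD, mul_one, ← eval_add] at h4
    exact h4.symm
  · have h2 : P ^ 2 - Q ^ 2 * D ≠ 0 := by
      intro e
      rw [sub_eq_zero] at e
      by_cases hQ : Q = 0
      · rw [hQ] at e h1
        have : P = 0 := by simpa using e
        rw [this] at h1
        simp at h1
      · obtain ⟨R, rfl⟩ : Q ∣ P :=
          (IsIntegrallyClosed.pow_dvd_pow_iff two_ne_zero).1 ⟨D, e⟩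
        refine hD ⟨R, mul_left_cancel₀ (pow_ne_zero 2 hQ) ?_⟩
        rw [← e]
        ring
    refine (Polynomial.finite_setOf_isRoot h2).subset ?_
    rintro t ⟨ht, δ, hδ, h3⟩
    have h4 := H t δ hδ.1 ht
    rw [h3, zero_mul] at h4
    change eval t (P ^ 2 - Q ^ 2 * D) = 0
    simp only [eval_sub, eval_mul, eval_pow]
    linear_combination (Q.eval t * δ - P.eval t) * h4 + Q.eval t ^ 2 * hδ.1

end Pool.Agent.P.MP_a62d3c_co.FF
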