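import Pool.Agent.P.MP_a62d3c_co.FF.Bd0

namespace Pool.Agent.P.MP_a62d3c_co.FF

open Filter Topology Polynomial MeasureTheory Asymptotics
open scoped ComplexConjugate Matrix ComplexOrder

variable {J : Type} [Fintype J] [DecidableEq J]

/-- Divided differences as a contour integral: `1 / ∏ (x - z i) = ∑ i, 1 / (∏_{k ≠ i} (z i - z k)
(x - z i))` (`Lagrange.sum_nodalWeight_mul_inv_sub_ne_zero`, `Lagrange.eval_nodal`, or induction),
Cauchy integral formula `DiffContOnCl.circleIntegral_sub_inv_smul`,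
`circleIntegral.norm_integral_le_of_norm_le_const`. -/
theorem res_le (z : J → ℂ) (S : Finset J) (hS : S.Nonempty) (hz : Set.InjOn z S) {c : ℂ}
    {R M : ℝ} (hR : 0 < R) (hin : ∀ i ∈ S, ‖z i - c‖ < R) {g : ℂ → ℂ}
    (hg : DiffContOnCl ℂ g (Metric.ball c R))
    (hM : ∀ x ∈ Metric.sphere c R, ‖g x / ∏ i ∈ S, (x - z i)‖ ≤ M) :
    ‖∑ i ∈ S, g (z i) / ∏ k ∈ S.erase i, (z i - z k)‖ ≤ R * M := by
  have hne : ∀ x ∈ Metric.sphere c R, ∀ i ∈ S, x ≠ z i := fun x hx i hi e => by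
    have h1 := hin i hi
    rw [← e, mem_sphere_iff_norm.1 hx] at h1
    exact lt_irrefl _ h1
  have h1 : Set.EqOn (fun x => g x / ∏ i ∈ S, (x - z i))
      (fun x => ∑ i ∈ S, Lagrange.nodalWeight S z i * ((x - z i)⁻¹ • g x))
      (Metric.sphere c R) := by
    intro x hx
    have h2 := congrArg (Polynomial.eval x) (Lagrange.sum_basis hz hS)
    rw [Polynomial.eval_finsetSum, Polynomial.eval_one,
      Finset.sum_congr rfl fun i hi => Lagrange.eval_basis_not_at_node hi (hne x hx i hi),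
      ← Finset.mul_sum, Lagrange.eval_nodal] at h2
    have h3 : ∏ i ∈ S, (x - z i) ≠ 0 :=
      Finset.prod_ne_zero_iff.2 fun i hi => sub_ne_zero.2 (hne x hx i hi)
    simp only [smul_eq_mul, ← mul_assoc, ← Finset.sum_mul]
    rw [div_eq_iff h3, mul_right_comm, mul_comm _ (∏ i ∈ S, (x - z i)), h2, one_mul]
  have hgc : ContinuousOn g (Metric.sphere c R) :=
    hg.continuousOn_ball.mono Metric.sphere_subset_closedBall
  have h2 : (∮ x in C(c, R), g x / ∏ i ∈ S, (x - z i)) =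
      (2 * Real.pi * Complex.I) * ∑ i ∈ S, g (z i) / ∏ k ∈ S.erase i, (z i - z k) := by
    rw [circleIntegral.integral_congr hR.le h1, circleIntegral.integral_fun_sum, Finset.mul_sum]
    · refine Finset.sum_congr rfl fun i hi => ?_
      rw [circleIntegral.integral_const_mul,
        hg.circleIntegral_sub_inv_smul (mem_ball_iff_norm.2 (hin i hi)), Lagrange.nodalWeight,
        Finset.prod_inv_distrib, smul_eq_mul]
      ring
    · intro i hi
      have h5 : ContinuousOn (fun x => (x - z i)⁻¹) (Metric.sphere c R) :=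
        (continuousOn_id.sub continuousOn_const).inv₀ fun x hx => sub_ne_zero.2 (hne x hx i hi)
      exact ContinuousOn.circleIntegrable hR.le (continuousOn_const.mul (h5.fun_smul hgc))
  have h3 := circleIntegral.norm_integral_le_of_norm_le_const hR.le hM
  rw [h2, norm_mul] at h3
  have h4 : ‖(2 * Real.pi * Complex.I : ℂ)‖ = 2 * Real.pi := by
    simp [abs_of_pos Real.pi_pos]
  rw [h4, mul_assoc (2 * Real.pi)] at h3
  exact le_of_mul_le_mul_left h3 Real.two_pi_pos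

theorem Res_sep {z : ℂ → J → ℂ} {d : J → J → ℤ} (hS : Sep z d) {c : J} {S : Finset J}
    (hc : c ∈ S) {l : ℤ}
    (h : ((∀ i ∈ S, i ≠ c → l + 1 ≤ d i c) ∧ ∀ i, i ∉ S → d i c ≤ l) ∨
      ((∀ i ∈ S, i ≠ c → l ≤ d i c) ∧ ∀ i, i ∉ S → d i c + 1 ≤ l)) :
    ∃ κ : ℝ, 0 < κ ∧ ∀ᶠ s in L0,
      (∀ i ∈ S, 2 * ‖z s i - z s c‖ ≤ κ * ‖s‖ ^ (l : ℝ)) ∧
      (∀ i, i ∉ S → 2 * (κ * ‖s‖ ^ (l : ℝ)) ≤ ‖z s i - z s c‖) := by
  obtain ⟨C, hC1, hC⟩ := hS.consts
  have hC0 : 0 < C := by linarith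
  have hmono : ∀ {s : ℂ}, 0 < ‖s‖ → ‖s‖ < 1 → ∀ {a b : ℝ}, a ≤ b → ‖s‖ ^ b ≤ ‖s‖ ^ a :=
    fun h2 h3 _ _ hab => Real.rpow_le_rpow_of_exponent_ge h2 h3.le hab
  have hsm : (0 : ℝ) < 1 / (4 * C ^ 2) := by positivity
  rcases h with ⟨ha, hb⟩ | ⟨ha, hb⟩
  · refine ⟨1 / (2 * C), by positivity, ?_⟩
    filter_upwards [hC, L0_pos, L0_lt one_pos, L0_lt hsm] with s hs h2 h3 h4
    have ht : 0 < ‖s‖ ^ (l : ℝ) := Real.rpow_pos_of_pos h2 _
    refine ⟨fun i hi => ?_, fun i hi => ?_⟩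
    · by_cases hic : i = c
      · rw [hic, sub_self, norm_zero, mul_zero]; positivity
      have e1 : ‖s‖ ^ (d i c : ℝ) ≤ ‖s‖ ^ ((l : ℝ) + 1) :=
        hmono h2 h3 (by exact_mod_cast ha i hi hic)
      rw [Real.rpow_add h2, Real.rpow_one] at e1
      have e2 := (hs i c hic).1
      rw [lt_div_iff₀ (by positivity)] at h4
      rw [div_mul_eq_mul_div, le_div_iff₀ (by positivity)]
      have e3 : ‖z s i - z s c‖ ≤ C * (‖s‖ ^ (l : ℝ) * ‖s‖) :=
        e2.trans (mul_le_mul_of_nonneg_left e1 hC0.le)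
      calc 2 * ‖z s i - z s c‖ * (2 * C) ≤ 2 * (C * (‖s‖ ^ (l : ℝ) * ‖s‖)) * (2 * C) := by
            gcongr
        _ = (‖s‖ * (4 * C ^ 2)) * ‖s‖ ^ (l : ℝ) := by ring
        _ ≤ 1 * ‖s‖ ^ (l : ℝ) := by gcongr
    · have hic : i ≠ c := fun e => hi (e ▸ hc)
      have e1 : ‖s‖ ^ (l : ℝ) ≤ ‖s‖ ^ (d i c : ℝ) := hmono h2 h3 (by exact_mod_cast hb i hi)
      have e2 := e1.trans (hs i c hic).2
      rw [show 2 * (1 / (2 * C) * ‖s‖ ^ (l : ℝ)) = ‖s‖ ^ (l : ℝ) / C by field_simp,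
        div_le_iff₀ hC0]
      linarith
  · refine ⟨2 * C, by positivity, ?_⟩
    filter_upwards [hC, L0_pos, L0_lt one_pos, L0_lt hsm] with s hs h2 h3 h4
    have ht : 0 < ‖s‖ ^ (l : ℝ) := Real.rpow_pos_of_pos h2 _
    refine ⟨fun i hi => ?_, fun i hi => ?_⟩
    · by_cases hic : i = c
      · rw [hic, sub_self, norm_zero, mul_zero]; positivity
      have e1 : ‖s‖ ^ (d i c : ℝ) ≤ ‖s‖ ^ (l : ℝ) := hmono h2 h3 (by exact_mod_cast ha i hi hic)
      have e3 := (hs i c hic).1.trans (mul_le_mul_of_nonneg_left e1 hC0.le)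
      linarith
    · have hic : i ≠ c := fun e => hi (e ▸ hc)
      have e1 : ‖s‖ ^ (l : ℝ) ≤ ‖s‖ ^ ((d i c : ℝ) + 1) :=
        hmono h2 h3 (by exact_mod_cast hb i hi)
      rw [Real.rpow_add h2, Real.rpow_one] at e1
      have e2 := (hs i c hic).2
      rw [lt_div_iff₀ (by positivity)] at h4
      have e3 : ‖s‖ ^ (l : ℝ) ≤ (C * ‖z s i - z s c‖) * ‖s‖ :=
        e1.trans (mul_le_mul_of_nonneg_right e2 h2.le)
      calc 2 * (2 * C * ‖s‖ ^ (l : ℝ)) ≤ 2 * (2 * C * ((C * ‖z s i - z s c‖) * ‖s‖)) := by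
            gcongr
        _ = (‖s‖ * (4 * C ^ 2)) * ‖z s i - z s c‖ := by ring
        _ ≤ 1 * ‖z s i - z s c‖ := by gcongr
        _ = _ := one_mul _

/-- the circle of radius `κ |s| ^ l` around `z c` separates `S` from the other points (`κ` small in
the first case, large in the second), and on it `|x - z i|` is comparable to `|s| ^ mn d i c l` -/
theorem circ {z : ℂ → J → ℂ} {d : J → J → ℤ} (hS : Sep z d) {c : J} {S : Finset J} (hc : c ∈ S)
    {l : ℤ}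
    (h : ((∀ i ∈ S, i ≠ c → l + 1 ≤ d i c) ∧ ∀ i, i ∉ S → d i c ≤ l) ∨
      ((∀ i ∈ S, i ≠ c → l ≤ d i c) ∧ ∀ i, i ∉ S → d i c + 1 ≤ l)) :
    ∃ κ K : ℝ, 0 < κ ∧ 0 < K ∧ ∀ᶠ s in L0,
      (∀ i ∈ S, ‖z s i - z s c‖ < κ * ‖s‖ ^ (l : ℝ)) ∧
      (∀ i, i ∉ S → κ * ‖s‖ ^ (l : ℝ) < ‖z s i - z s c‖) ∧
      ∀ x ∈ Metric.sphere (z s c) (κ * ‖s‖ ^ (l : ℝ)), ∀ i,
        ‖x - z s i‖ ≤ K * ‖s‖ ^ mn d i c l ∧ ‖s‖ ^ mn d i c l ≤ K * ‖x - z s i‖ := by
  obtain ⟨κ, hκ, h1⟩ := Res_sep hS hc h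
  obtain ⟨C, hC1, hC⟩ := hS.consts
  have ha : ∀ i ∈ S, mn d i c l = l := fun i hi => by
    unfold mn
    split_ifs with hic
    · rfl
    · refine min_eq_left ?_
      have : l ≤ d i c := by
        rcases h with h | h
        · linarith [h.1 i hi hic]
        · exact h.1 i hi hic
      exact_mod_cast this
  have hb : ∀ i, i ∉ S → mn d i c l = d i c := fun i hi => by
    unfold mn
    rw [if_neg fun e : i = c => hi (e ▸ hc)]
    refine min_eq_right ?_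
    have : d i c ≤ l := by
      rcases h with h | h
      · exact h.2 i hi
      · linarith [h.2 i hi]
    exact_mod_cast this
  have hκ' : 0 < 2 / κ := by positivity
  refine ⟨κ, 2 * κ + 2 / κ + 2 * C, hκ, by linarith, ?_⟩
  filter_upwards [h1, hC, L0_pos] with s h1 hs h2
  have ht : 0 < ‖s‖ ^ (l : ℝ) := Real.rpow_pos_of_pos h2 _
  have hr : 0 < κ * ‖s‖ ^ (l : ℝ) := mul_pos hκ ht
  refine ⟨fun i hi => by linarith [h1.1 i hi], fun i hi => by linarith [h1.2 i hi],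
    fun x hx i => ?_⟩
  have hx' := mem_sphere_iff_norm.1 hx
  have t1 : ‖x - z s i‖ ≤ ‖x - z s c‖ + ‖z s i - z s c‖ := by
    rw [show x - z s i = (x - z s c) - (z s i - z s c) by ring]; exact norm_sub_le _ _
  have t2 : ‖x - z s c‖ ≤ ‖x - z s i‖ + ‖z s i - z s c‖ := by
    rw [show x - z s c = (x - z s i) + (z s i - z s c) by ring]; exact norm_add_le _ _
  have t3 : ‖z s i - z s c‖ ≤ ‖x - z s i‖ + ‖x - z s c‖ := by
    rw [show z s i - z s c = (x - z s c) - (x - z s i) by ring, add_comm]; exact norm_sub_le _ _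
  have hn := norm_nonneg (x - z s i)
  by_cases hi : i ∈ S
  · rw [ha i hi]
    have e1 := h1.1 i hi
    constructor
    · calc ‖x - z s i‖ ≤ (2 * κ) * ‖s‖ ^ (l : ℝ) := by linarith
        _ ≤ _ := mul_le_mul_of_nonneg_right (by linarith) ht.le
    · calc ‖s‖ ^ (l : ℝ) = (2 / κ) * (κ * ‖s‖ ^ (l : ℝ) / 2) := by field_simp
        _ ≤ (2 / κ) * ‖x - z s i‖ := mul_le_mul_of_nonneg_left (by linarith) hκ'.le
        _ ≤ _ := mul_le_mul_of_nonneg_right (by linarith) hn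
  · rw [hb i hi]
    have hic : i ≠ c := fun e => hi (e ▸ hc)
    have e1 := h1.2 i hi
    obtain ⟨e2, e3⟩ := hs i c hic
    have hd : 0 < ‖s‖ ^ (d i c : ℝ) := Real.rpow_pos_of_pos h2 _
    constructor
    · calc ‖x - z s i‖ ≤ (2 * C) * ‖s‖ ^ (d i c : ℝ) := by linarith
        _ ≤ _ := mul_le_mul_of_nonneg_right (by linarith) hd.le
    · calc ‖s‖ ^ (d i c : ℝ) ≤ C * ‖z s i - z s c‖ := e3
        _ ≤ C * (2 * ‖x - z s i‖) := mul_le_mul_of_nonneg_left (by linarith) (by linarith)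
        _ = (2 * C) * ‖x - z s i‖ := by ring
        _ ≤ _ := mul_le_mul_of_nonneg_right (by linarith) hn

/-- `res_le` with `g = nP mu / ∏_{k ∉ S} (x - z k)` on the circle of `circ` -/
theorem rs_le {z : ℂ → J → ℂ} {d : J → J → ℤ} (hS : Sep z d) {c : J} {S : Finset J} (hc : c ∈ S)
    {l : ℤ}
    (h : ((∀ i ∈ S, i ≠ c → l + 1 ≤ d i c) ∧ ∀ i, i ∉ S → d i c ≤ l) ∨
      ((∀ i ∈ S, i ≠ c → l ≤ d i c) ∧ ∀ i, i ∉ S → d i c + 1 ≤ l)) (mu : J → ℕ) :
    Bd (fun s => ∑ i ∈ S, (nP (z s) mu).eval (z s i) / dpr (z s) i)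
      (l + ∑ i, ((mu i : ℝ) - 1) * mn d i c l) := by
  obtain ⟨κ, K, hκ, hK, h1⟩ := circ hS hc h
  refine Bd.of_bound (κ * ∏ i, K ^ (mu i + 1)) ?_
  filter_upwards [h1, L0_pos, hS.inj] with s ⟨a1, a2, a3⟩ h2 hinj
  have ht : 0 < ‖s‖ ^ (l : ℝ) := Real.rpow_pos_of_pos h2 _
  have hr : 0 < κ * ‖s‖ ^ (l : ℝ) := mul_pos hκ ht
  have hg : DiffContOnCl ℂ (fun x => (nP (z s) mu).eval x / ∏ k ∈ Sᶜ, (x - z s k))
      (Metric.ball (z s c) (κ * ‖s‖ ^ (l : ℝ))) := by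
    refine DifferentiableOn.diffContOnCl ?_
    rw [closure_ball _ hr.ne']
    refine DifferentiableOn.div (Polynomial.differentiableOn _) ?_ fun x hx => ?_
    · exact DifferentiableOn.fun_finsetProd fun k _ => differentiableOn_id.sub_const _
    · refine Finset.prod_ne_zero_iff.2 fun k hk => sub_ne_zero.2 fun e => ?_
      have := a2 k (Finset.mem_compl.1 hk)
      rw [← e] at this
      exact absurd (mem_closedBall_iff_norm.1 hx) (not_le.2 this)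
  have hM : ∀ x ∈ Metric.sphere (z s c) (κ * ‖s‖ ^ (l : ℝ)),
      ‖((nP (z s) mu).eval x / ∏ k ∈ Sᶜ, (x - z s k)) / ∏ i ∈ S, (x - z s i)‖ ≤
        ∏ i, (K ^ (mu i + 1) * ‖s‖ ^ (((mu i : ℝ) - 1) * mn d i c l)) := by
    intro x hx
    rw [div_div, Finset.prod_compl_mul_prod, nP, Polynomial.eval_prod, ← Finset.prod_div_distrib,
      norm_prod]
    refine Finset.prod_le_prod (fun i _ => norm_nonneg _) fun i _ => ?_
    obtain ⟨b1, b2⟩ := a3 x hx i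
    have hp : 0 < ‖s‖ ^ mn d i c l := Real.rpow_pos_of_pos h2 _
    have hx0 : 0 < ‖x - z s i‖ := pos_of_mul_pos_left (hp.trans_le (b2.trans_eq (mul_comm _ _))) hK.le
    rw [Polynomial.eval_pow, Polynomial.eval_sub, Polynomial.eval_X, Polynomial.eval_C, norm_div,
      norm_pow, div_le_iff₀ hx0, mul_comm ((mu i : ℝ) - 1), Real.rpow_mul h2.le,
      Real.rpow_sub hp, Real.rpow_natCast, Real.rpow_one]
    calc ‖x - z s i‖ ^ mu i ≤ (K * ‖s‖ ^ mn d i c l) ^ mu i := by gcongr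
      _ = K ^ mu i * ((‖s‖ ^ mn d i c l) ^ mu i / ‖s‖ ^ mn d i c l) * ‖s‖ ^ mn d i c l := by
          rw [mul_pow]; field_simp
      _ ≤ K ^ mu i * ((‖s‖ ^ mn d i c l) ^ mu i / ‖s‖ ^ mn d i c l) * (K * ‖x - z s i‖) := by
          gcongr
      _ = _ := by ring
  have h3 := res_le (z s) S ⟨c, hc⟩ hinj.injOn hr a1 hg hM
  have h4 : ∑ i ∈ S, ((nP (z s) mu).eval (z s i) / ∏ k ∈ Sᶜ, (z s i - z s k)) /
      ∏ k ∈ S.erase i, (z s i - z s k) = ∑ i ∈ S, (nP (z s) mu).eval (z s i) / dpr (z s) i := by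
    refine Finset.sum_congr rfl fun i hi => ?_
    have e : Finset.univ.erase i = Sᶜ ∪ S.erase i := by
      ext k
      by_cases hk : k = i
      · simp [hk, hi]
      · by_cases hk' : k ∈ S <;> simp [hk, hk']
    rw [div_div, dpr, e, Finset.prod_union]
    exact Finset.disjoint_left.2 fun k hk hk' =>
      Finset.mem_compl.1 hk (Finset.mem_of_mem_erase hk')
  rw [h4, Finset.prod_mul_distrib, ← Real.rpow_sum_of_pos h2] at h3
  rw [Real.rpow_add h2]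
  calc _ ≤ _ := h3
    _ = _ := by ring

end Pool.Agent.P.MP_a62d3c_co.FF
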