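import Pool.Agent.P.MP_a62d3c_co.FF.Res

namespace Pool.Agent.P.MP_a62d3c_co.FF

open Filter Topology Polynomial MeasureTheory Asymptotics
open scoped ComplexConjugate Matrix ComplexOrder

variable {J : Type} [Fintype J] [DecidableEq J]

/-- `F r - 1 = O(δ)` when the `r i`, `i ∈ T`, are within `δ` of `1` -/
def Rs1_Near (T : Finset J) (F : (J → ℂ) → ℂ) : Prop :=
  ∃ K : ℝ, 0 ≤ K ∧ ∀ δ : ℝ, 0 ≤ δ → δ ≤ 1 / 2 → ∀ r : J → ℂ, (∀ i ∈ T, ‖r i - 1‖ ≤ δ) →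
    ‖F r - 1‖ ≤ K * δ

omit [Fintype J] [DecidableEq J] in
theorem Rs1_near_one (T : Finset J) : Rs1_Near T (fun _ => 1) :=
  ⟨0, le_rfl, fun δ _ _ r _ => by simp⟩

omit [Fintype J] [DecidableEq J] in
theorem Rs1_near_mul {T : Finset J} {F G : (J → ℂ) → ℂ} (hF : Rs1_Near T F) (hG : Rs1_Near T G) :
    Rs1_Near T (fun r => F r * G r) := by
  obtain ⟨a, ha, h1⟩ := hF
  obtain ⟨b, hb, h2⟩ := hG
  refine ⟨a + b + a * b, by positivity, fun δ h0 hδ r hr => ?_⟩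
  have e1 := h1 δ h0 hδ r hr
  have e2 := h2 δ h0 hδ r hr
  have e3 : F r * G r - 1 = (F r - 1) + (G r - 1) + (F r - 1) * (G r - 1) := by ring
  have e4 : ‖(F r - 1) * (G r - 1)‖ ≤ (a * δ) * (b * δ) := by
    rw [norm_mul]; exact mul_le_mul e1 e2 (norm_nonneg _) (by positivity)
  have e5 : (a * δ) * (b * δ) ≤ a * b * δ := by
    have : 0 ≤ a * b * δ * (1 - δ) := mul_nonneg (by positivity) (by linarith)
    nlinarith
  rw [e3]
  refine (norm_add₃_le).trans ?_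
  linarith

omit [Fintype J] [DecidableEq J] in
theorem Rs1_near_prod {T : Finset J} {ι : Type} (A : Finset ι) {F : ι → (J → ℂ) → ℂ}
    (h : ∀ i ∈ A, Rs1_Near T (F i)) : Rs1_Near T (fun r => ∏ i ∈ A, F i r) := by
  classical
  induction A using Finset.induction_on with
  | empty => simpa using Rs1_near_one T
  | insert a A ha ih =>
    simp only [Finset.prod_insert ha]
    exact Rs1_near_mul (h a (Finset.mem_insert_self _ _))
      (ih fun i hi => h i (Finset.mem_insert_of_mem hi))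

omit [Fintype J] [DecidableEq J] in
theorem Rs1_near (T : Finset J) (mu : J → ℕ) :
    Rs1_Near T (fun r => (∏ i ∈ T, r i ^ mu i) * ∏ i ∈ T, (r i)⁻¹) := by
  refine Rs1_near_mul (Rs1_near_prod T fun i hi => ?_) (Rs1_near_prod T fun i hi => ?_)
  · have h : Rs1_Near T (fun r => r i) := ⟨1, zero_le_one, fun δ _ _ r hr => by simpa using hr i hi⟩
    simpa using Rs1_near_prod (Finset.range (mu i)) (F := fun _ r => r i) fun _ _ => h
  · refine ⟨2, zero_le_two, fun δ h0 hδ r hr => ?_⟩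
    have h1 := hr i hi
    have h2 : 1 / 2 ≤ ‖r i‖ := by
      have := norm_sub_norm_le (1 : ℂ) (r i)
      rw [norm_one, norm_sub_rev] at this
      linarith
    have h3 : r i ≠ 0 := norm_pos_iff.1 (by linarith)
    have h4 : (r i)⁻¹ - 1 = -(r i - 1) / r i := by field_simp; ring
    change ‖(r i)⁻¹ - 1‖ ≤ _
    rw [h4, norm_div, norm_neg, div_le_iff₀ (by linarith)]
    nlinarith

/-- the outer factor -/
noncomputable def Rs1_H (z : J → ℂ) (S : Finset J) (mu : J → ℕ) (x : ℂ) : ℂ :=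
  (∏ i ∈ Sᶜ, (x - z i) ^ mu i) / ∏ i ∈ Sᶜ, (x - z i)

theorem Rs1_H_le (S : Finset J) (mu : J → ℕ) : ∃ K : ℝ, 0 ≤ K ∧ ∀ (z : J → ℂ) (δ : ℝ) (x y : ℂ),
    0 ≤ δ → δ ≤ 1 / 2 → (∀ i, i ∉ S → y ≠ z i ∧ ‖x - y‖ ≤ δ * ‖y - z i‖) →
      ‖Rs1_H z S mu x - Rs1_H z S mu y‖ ≤ K * δ * ‖Rs1_H z S mu y‖ := by
  obtain ⟨K, hK, h⟩ := Rs1_near Sᶜ mu
  refine ⟨K, hK, fun z δ x y h0 hδ hr => ?_⟩
  have hy : ∀ i ∈ Sᶜ, y - z i ≠ 0 := fun i hi => sub_ne_zero.2 (hr i (Finset.mem_compl.1 hi)).1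
  have h1 := h δ h0 hδ (fun i => (x - z i) / (y - z i)) fun i hi => by
    rw [div_sub_one (hy i hi), norm_div, div_le_iff₀ (norm_pos_iff.2 (hy i hi)),
      sub_sub_sub_cancel_right]
    exact (hr i (Finset.mem_compl.1 hi)).2
  have p1 : ∏ i ∈ Sᶜ, (y - z i) ≠ 0 := Finset.prod_ne_zero_iff.2 hy
  have p2 : ∏ i ∈ Sᶜ, (y - z i) ^ mu i ≠ 0 :=
    Finset.prod_ne_zero_iff.2 fun i hi => pow_ne_zero _ (hy i hi)
  have h2 : Rs1_H z S mu x - Rs1_H z S mu y = ((∏ i ∈ Sᶜ, ((x - z i) / (y - z i)) ^ mu i) *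
      ∏ i ∈ Sᶜ, ((x - z i) / (y - z i))⁻¹ - 1) * Rs1_H z S mu y := by
    simp only [Rs1_H, div_pow, inv_div, Finset.prod_div_distrib]
    rw [sub_mul, one_mul, div_eq_mul_inv, div_eq_mul_inv (∏ i ∈ Sᶜ, (y - z i))]
    generalize (∏ i ∈ Sᶜ, (x - z i))⁻¹ = w
    field_simp
  rw [h2, norm_mul]
  exact mul_le_mul_of_nonneg_right h1 (norm_nonneg _)

theorem Rs1_sum (z : J → ℂ) (hz : Function.Injective z) (S : Finset J) (mu : J → ℕ)
    (hmu : ∑ i ∈ S, mu i + 1 = S.card) (w : ℂ) :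
    ∑ i ∈ S, (nP z mu).eval (z i) / dpr z i - w =
      ∑ i ∈ S, ((∏ k ∈ S, (z i - z k) ^ mu k) * (Rs1_H z S mu (z i) - w)) /
        ∏ k ∈ S.erase i, (z i - z k) := by
  have hm : (∏ k ∈ S, (X - C (z k)) ^ mu k : ℂ[X]).Monic :=
    monic_prod_of_monic _ _ fun k _ => (monic_X_sub_C _).pow _
  have hd : (∏ k ∈ S, (X - C (z k)) ^ mu k : ℂ[X]).natDegree = ∑ i ∈ S, mu i := by
    rw [natDegree_prod_of_monic _ _ fun k _ => (monic_X_sub_C _).pow _]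
    simp
  have h1 := Lagrange.leadingCoeff_eq_sum (s := S) (v := z) hz.injOn
    (P := ∏ k ∈ S, (X - C (z k)) ^ mu k) (by
      rw [degree_eq_natDegree hm.ne_zero, hd, ← hmu]; norm_cast)
  rw [hm.leadingCoeff] at h1
  simp only [eval_prod, eval_pow, eval_sub, eval_X, eval_C] at h1
  conv_lhs => rw [← mul_one w, h1, Finset.mul_sum, ← Finset.sum_sub_distrib]
  refine Finset.sum_congr rfl fun i hi => ?_
  have e1 : (nP z mu).eval (z i) =
      (∏ k ∈ S, (z i - z k) ^ mu k) * ∏ k ∈ Sᶜ, (z i - z k) ^ mu k := by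
    simp only [nP, eval_prod, eval_pow, eval_sub, eval_X, eval_C]
    exact (Finset.prod_mul_prod_compl S _).symm
  have e2 : dpr z i = (∏ k ∈ S.erase i, (z i - z k)) * ∏ k ∈ Sᶜ, (z i - z k) := by
    rw [dpr, ← Finset.prod_union (Finset.disjoint_left.2 fun k hk hk' =>
      Finset.mem_compl.1 hk' (Finset.mem_of_mem_erase hk))]
    refine Finset.prod_congr ?_ fun _ _ => rfl
    ext k
    by_cases hk : k = i
    · simp [hk, hi]
    · simp [hk, em]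
  rw [e1, e2, Rs1_H]
  simp only [div_eq_mul_inv, mul_inv]
  ring

theorem Rs1_pt (z : J → ℂ) (hz : Function.Injective z) {c : J} {S : Finset J} (hc : c ∈ S)
    (mu : J → ℕ) (hmu : ∑ i ∈ S, mu i + 1 = S.card) {κ ρ K ε : ℝ} (hκ : 0 < κ) (hρ : 0 < ρ)
    (hK : 0 < K) (h1 : ∀ i ∈ S, ‖z i - z c‖ < κ * ρ) (h2 : ∀ i, i ∉ S → κ * ρ < ‖z i - z c‖)
    (h3 : ∀ x ∈ Metric.sphere (z c) (κ * ρ), ∀ i ∈ S, ‖x - z i‖ ≤ K * ρ ∧ ρ ≤ K * ‖x - z i‖)
    (h4 : ∀ x ∈ Metric.sphere (z c) (κ * ρ), ‖Rs1_H z S mu x - Rs1_H z S mu (z c)‖ ≤ ε) :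
    ‖∑ i ∈ S, (nP z mu).eval (z i) / dpr z i - Rs1_H z S mu (z c)‖ ≤
      κ * K ^ (2 * ∑ i ∈ S, mu i + 1) * ε := by
  rw [Rs1_sum z hz S mu hmu]
  refine (res_le z S ⟨c, hc⟩ hz.injOn (M := K ^ (2 * ∑ i ∈ S, mu i + 1) / ρ * ε)
    (mul_pos hκ hρ) h1
    (g := fun x => (∏ k ∈ S, (x - z k) ^ mu k) * (Rs1_H z S mu x - Rs1_H z S mu (z c)))
    (DifferentiableOn.diffContOnCl fun x hx => ?_) fun x hx => ?_).trans (le_of_eq ?_)
  · have hx' := Metric.closure_ball_subset_closedBall hx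
    rw [Metric.mem_closedBall, dist_eq_norm] at hx'
    have hne : ∏ i ∈ Sᶜ, (x - z i) ≠ 0 := Finset.prod_ne_zero_iff.2 fun i hi h => by
      have := h2 i (Finset.mem_compl.1 hi)
      rw [← sub_eq_zero.1 h] at this
      linarith
    refine DifferentiableAt.differentiableWithinAt ?_
    unfold Rs1_H
    fun_prop (disch := exact hne)
  · have a1 : ‖∏ k ∈ S, (x - z k) ^ mu k‖ ≤ (K * ρ) ^ ∑ i ∈ S, mu i := by
      rw [norm_prod, ← Finset.prod_pow_eq_pow_sum]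
      refine Finset.prod_le_prod (fun _ _ => norm_nonneg _) fun i hi => ?_
      rw [norm_pow]
      exact pow_le_pow_left₀ (norm_nonneg _) (h3 x hx i hi).1 _
    have a2 : (ρ / K) ^ (∑ i ∈ S, mu i + 1) ≤ ‖∏ k ∈ S, (x - z k)‖ := by
      rw [norm_prod, hmu, ← Finset.prod_const]
      refine Finset.prod_le_prod (fun _ _ => by positivity) fun i hi => ?_
      rw [div_le_iff₀ hK, mul_comm]
      exact (h3 x hx i hi).2
    have a3 : ‖∏ k ∈ S, (x - z k) ^ mu k‖ / ‖∏ k ∈ S, (x - z k)‖ ≤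
        K ^ (2 * ∑ i ∈ S, mu i + 1) / ρ := by
      refine (div_le_div₀ (by positivity) a1 (by positivity) a2).trans (le_of_eq ?_)
      generalize ∑ i ∈ S, mu i = n
      rw [div_pow, mul_pow]
      field_simp
      ring
    rw [norm_div, norm_mul, mul_div_right_comm]
    exact mul_le_mul a3 (h4 x hx) (norm_nonneg _) (by positivity)
  · field_simp

/-- Paper section 5, case `j = 0`. Put `H x = ∏_{i ∉ S} (x - z i) ^ mu i / ∏_{i ∉ S} (x - z i)` and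
`A = ∏_{i ∈ S} (X - z i) ^ mu i`, monic of degree `|S| - 1`, so `∑_{i ∈ S} A (z i) / ∏_{k ∈ S \ i}
(z i - z k) = 1` (`Lagrange.coeff_eq_sum`). Apply `res_le` on the inner circle of `circ` to
`g = A (H - H (z c))`; there `|(x - z i) / (z c - z i) - 1| ≤ K |s|` for `i ∉ S`, hence
`|H x - H (z c)| ≤ K' |s| |H (z c)|`. -/
theorem rs_one {z : ℂ → J → ℂ} {d : J → J → ℤ} (hS : Sep z d) {c : J} {S : Finset J}
    (hc : c ∈ S) {l : ℤ} (hin : ∀ i ∈ S, i ≠ c → l ≤ d i c) (hout : ∀ i, i ∉ S → d i c + 1 ≤ l)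
    (mu : J → ℕ) (hmu : ∑ i ∈ S, mu i + 1 = S.card) :
    Bd (fun s => ∑ i ∈ S, (nP (z s) mu).eval (z s i) / dpr (z s) i -
        (∏ i ∈ Sᶜ, (z s c - z s i) ^ mu i) / ∏ i ∈ Sᶜ, (z s c - z s i))
      (1 + ∑ i ∈ Sᶜ, ((mu i : ℝ) - 1) * d i c) := by
  obtain ⟨κ, K, hκ, hK, h1⟩ := circ hS hc (l := l) (Or.inr ⟨hin, hout⟩)
  obtain ⟨C, hC, h2⟩ := hS.consts
  obtain ⟨K', hK', h3⟩ := Rs1_H_le S mu
  have hne : ∀ i ∈ Sᶜ, i ≠ c := fun i hi e => Finset.mem_compl.1 hi (e ▸ hc)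
  have b1 : Bd (fun s => Rs1_H (z s) S mu (z s c)) (∑ i ∈ Sᶜ, ((mu i : ℝ) - 1) * d i c) := by
    have u := Bd.prod (A := Sᶜ) fun i hi => (hS.up i c (hne i hi)).neg.pow (mu i)
    have v := Bd.prod (A := Sᶜ) fun i hi => (hS.low i c (hne i hi)).neg
    refine ((u.mul v).congr (Eventually.of_forall fun s => ?_)).of_eq ?_
    · simp only [Rs1_H, neg_sub, ← inv_neg, Finset.prod_inv_distrib, div_eq_mul_inv]
    · rw [← Finset.sum_add_distrib]
      exact Finset.sum_congr rfl fun i _ => by ring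
  have hκC : 0 < κ * C := mul_pos hκ (by linarith)
  refine ((bd_id.mul b1).const_mul
    ((κ * K ^ (2 * ∑ i ∈ S, mu i + 1) * (K' * (κ * C)) : ℝ) : ℂ)).of_le ?_
  filter_upwards [h1, h2, hS.inj, L0_pos, L0_lt one_pos,
    L0_lt (r := 1 / 2 / (κ * C)) (by positivity)] with s ⟨e1, e2, e3⟩ e4 e5 e6 e7 e8
  have hρ : 0 < ‖s‖ ^ (l : ℝ) := Real.rpow_pos_of_pos e6 _
  refine (Rs1_pt (z s) e5 hc mu hmu hκ hρ hK e1 e2 (fun x hx i hi => ?_)
    (ε := K' * (κ * C * ‖s‖) * ‖Rs1_H (z s) S mu (z s c)‖) fun x hx => ?_).trans (le_of_eq ?_)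
  · have : mn d i c l = l := by
      unfold mn
      split_ifs with h
      · rfl
      · exact min_eq_left (by exact_mod_cast hin i hi h)
    exact this ▸ e3 x hx i
  · refine h3 (z s) _ x _ (by positivity) ?_ fun i hi => ?_
    · rw [lt_div_iff₀ hκC] at e8
      linarith
    · have hic : i ≠ c := hne i (Finset.mem_compl.2 hi)
      refine ⟨fun e => hic (e5 e).symm, ?_⟩
      have f1 : ‖s‖ ^ (l : ℝ) ≤ ‖s‖ ^ ((d i c : ℝ) + 1) :=
        Real.rpow_le_rpow_of_exponent_ge e6 e7.le (by exact_mod_cast hout i hi)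
      rw [Real.rpow_add_one e6.ne'] at f1
      have f2 := mul_le_mul_of_nonneg_right (e4 i c hic).2 e6.le
      rw [mem_sphere_iff_norm.1 hx, norm_sub_rev]
      calc κ * ‖s‖ ^ (l : ℝ) ≤ κ * (C * ‖z s i - z s c‖ * ‖s‖) :=
            mul_le_mul_of_nonneg_left (f1.trans f2) hκ.le
        _ = _ := by ring
  · rw [norm_mul, norm_mul, Complex.norm_real, Real.norm_of_nonneg (by positivity)]
    ring

end Pool.Agent.P.MP_a62d3c_co.FF
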