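import Pool.Agent.P.MP_a62d3c_co.FF.Alp
import Pool.Agent.P.MP_a62d3c_co.FF.Gm
import Pool.Agent.P.MP_a62d3c_co.FF.Err

namespace Pool.Agent.P.MP_a62d3c_co.FF

open Filter Topology Polynomial MeasureTheory Asymptotics
open scoped ComplexConjugate Matrix ComplexOrder

variable {J : Type} [Fintype J] [DecidableEq J] {U : Set ℂ} {z : ℂ → J → ℂ}

theorem SHd_seg {F α β : ℂ → ℂ} {t₀ h a b : ℂ} {c : ℝ}
    (hd : ∀ σ ∈ Set.Icc (0 : ℝ) 1, HasDerivAt (fun s : ℝ => F (t₀ + σ * h + s * h))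
      (h * α (t₀ + σ * h) + conj h * β (t₀ + σ * h)) 0)
    (hα : ∀ σ ∈ Set.Icc (0 : ℝ) 1, ‖α (t₀ + σ * h) - a‖ ≤ c)
    (hβ : ∀ σ ∈ Set.Icc (0 : ℝ) 1, ‖β (t₀ + σ * h) - b‖ ≤ c) :
    ‖F (t₀ + h) - F t₀ - (h * a + conj h * b)‖ ≤ 2 * c * ‖h‖ := by
  have h1 : ∀ σ ∈ Set.Icc (0 : ℝ) 1, HasDerivWithinAt
      (fun s : ℝ => F (t₀ + s * h) - s * (h * a + conj h * b))
      (h * (α (t₀ + σ * h) - a) + conj h * (β (t₀ + σ * h) - b)) (Set.Icc 0 1) σ := by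
    intro σ hσ
    have e1 := hd σ hσ
    rw [← sub_self σ] at e1
    have e2 := e1.comp_sub_const σ σ
    have e3 : (fun s : ℝ => F (t₀ + σ * h + ((s - σ : ℝ) : ℂ) * h)) = fun s : ℝ => F (t₀ + s * h) := by
      funext s
      congr 1
      push_cast
      ring
    rw [e3] at e2
    have e4 : HasDerivAt (fun s : ℝ => (s : ℂ) * (h * a + conj h * b)) (h * a + conj h * b) σ := by
      simpa using (Complex.ofRealCLM.hasDerivAt (x := σ)).mul_const (h * a + conj h * b)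
    exact ((e2.sub e4).congr_deriv (by ring)).hasDerivWithinAt
  have h2 := norm_image_sub_le_of_norm_deriv_le_segment_01' (C := 2 * c * ‖h‖) h1 fun σ hσ => by
    have hσ' := Set.Ico_subset_Icc_self hσ
    refine (norm_add_le _ _).trans ?_
    rw [norm_mul, norm_mul, Complex.norm_conj]
    have e1 := mul_le_mul_of_nonneg_left (hα σ hσ') (norm_nonneg h)
    have e2 := mul_le_mul_of_nonneg_left (hβ σ hσ') (norm_nonneg h)
    linarith
  simp only [Complex.ofReal_one, Complex.ofReal_zero, one_mul, zero_mul, add_zero, sub_zero] at h2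
  rwa [sub_right_comm]

theorem SHd_abs {N α β : ℂ → ℂ} {Ne αe βe : ℝ → ℂ → ℂ} {t₀ : ℂ} {r M γ : ℝ} (hr : 0 < r)
    (hγ : 0 < γ)
    (hd : ∀ ε, 0 < ε → ∀ t ∈ Metric.closedBall t₀ r, ∀ τ : ℂ,
      HasDerivAt (fun s : ℝ => Ne ε (t + s * τ)) (τ * αe ε t + conj τ * βe ε t) 0)
    (hM : ∀ t ∈ Metric.closedBall t₀ r, ∀ ε, 0 < ε → ‖Ne ε t - N t‖ ≤ M * ε ^ γ ∧
      ‖αe ε t - α t‖ ≤ M * ε ^ γ ∧ ‖βe ε t - β t‖ ≤ M * ε ^ γ)
    (cα : ContinuousAt α t₀) (cβ : ContinuousAt β t₀) : DifferentiableAt ℝ N t₀ := by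
  let L : ℂ →L[ℝ] ℂ := (ContinuousLinearMap.mul ℝ ℂ).flip (α t₀) +
    ((ContinuousLinearMap.mul ℝ ℂ).flip (β t₀)).comp (Complex.conjCLE : ℂ →L[ℝ] ℂ)
  have hL : ∀ h, L h = h * α t₀ + conj h * β t₀ := fun _ => rfl
  refine HasFDerivAt.differentiableAt (f' := L) ?_
  rw [hasFDerivAt_iff_isLittleO_nhds_zero]
  refine IsLittleO.of_bound fun c hc => ?_
  have e1 : ∀ᶠ t in 𝓝 t₀, ‖α t - α t₀‖ ≤ c / 2 ∧ ‖β t - β t₀‖ ≤ c / 2 := by
    filter_upwards [cα.eventually (Metric.closedBall_mem_nhds _ (half_pos hc)),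
      cβ.eventually (Metric.closedBall_mem_nhds _ (half_pos hc))] with t h1 h2
    exact ⟨by rwa [← dist_eq_norm], by rwa [← dist_eq_norm]⟩
  obtain ⟨δ, hδ, e2⟩ := Metric.nhds_basis_closedBall.eventually_iff.1 e1
  filter_upwards [Metric.closedBall_mem_nhds (0 : ℂ) (lt_min hδ hr)] with h hh
  rw [mem_closedBall_zero_iff] at hh
  have hm : ∀ ρ, ‖h‖ ≤ ρ → ∀ σ ∈ Set.Icc (0 : ℝ) 1, t₀ + σ * h ∈ Metric.closedBall t₀ ρ := by
    intro ρ hρ σ hσ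
    rw [Metric.mem_closedBall, dist_eq_norm, add_sub_cancel_left, norm_mul, Complex.norm_real,
      Real.norm_of_nonneg hσ.1]
    exact (mul_le_of_le_one_left (norm_nonneg h) hσ.2).trans hρ
  have h1 := hm r (hh.trans (min_le_right _ _))
  have h2 := hm δ (hh.trans (min_le_left _ _))
  have key : ∀ ε, 0 < ε → ‖N (t₀ + h) - N t₀ - L h‖ ≤ c * ‖h‖ + (2 * M * ‖h‖ + 2 * M) * ε ^ γ := by
    intro ε hε
    have k1 := SHd_seg (F := Ne ε) (α := αe ε) (β := βe ε) (a := α t₀) (b := β t₀)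
      (c := M * ε ^ γ + c / 2) (fun σ hσ => hd ε hε _ (h1 σ hσ) h)
      (fun σ hσ => (norm_sub_le_norm_sub_add_norm_sub _ _ _).trans
        (add_le_add (hM _ (h1 σ hσ) ε hε).2.1 (e2 (h2 σ hσ)).1))
      (fun σ hσ => (norm_sub_le_norm_sub_add_norm_sub _ _ _).trans
        (add_le_add (hM _ (h1 σ hσ) ε hε).2.2 (e2 (h2 σ hσ)).2))
    have k2 := (hM _ (h1 1 ⟨zero_le_one, le_rfl⟩) ε hε).1
    rw [Complex.ofReal_one, one_mul] at k2
    have k3 := (hM _ (Metric.mem_closedBall_self hr.le) ε hε).1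
    have k4 : N (t₀ + h) - N t₀ - L h = (Ne ε (t₀ + h) - Ne ε t₀ - (h * α t₀ + conj h * β t₀)) -
        (Ne ε (t₀ + h) - N (t₀ + h)) + (Ne ε t₀ - N t₀) := by
      rw [hL]
      ring
    rw [k4]
    refine (norm_add_le _ _).trans ((add_le_add_left (norm_sub_le _ _) _).trans ?_)
    linarith
  have lim : Tendsto (fun ε : ℝ => c * ‖h‖ + (2 * M * ‖h‖ + 2 * M) * ε ^ γ) (𝓝[>] 0)
      (𝓝 (c * ‖h‖ + (2 * M * ‖h‖ + 2 * M) * (0 : ℝ) ^ γ)) :=
    (((Real.continuousAt_rpow_const 0 γ (Or.inr hγ.le)).tendsto.const_mul _).const_add _).mono_left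
      nhdsWithin_le_nhds
  rw [Real.zero_rpow hγ.ne', mul_zero, add_zero] at lim
  exact ge_of_tendsto lim (eventually_mem_nhdsWithin.mono key)

theorem SHd_err {μ ε M₁ M₂ e : ℝ} (h0 : 0 < μ) (h1 : μ < 1) {x y w : ℂ} (hx : ‖x - y‖ ≤ M₁ * e)
    (hw : ‖(ε : ℂ) ^ 1 * w‖ ≤ M₂ * e) : ‖x + μ * ε * w - y‖ ≤ (M₁ + M₂) * e := by
  rw [pow_one] at hw
  rw [add_sub_right_comm, mul_assoc, add_mul]
  refine (norm_add_le _ _).trans (add_le_add hx ?_)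
  rw [norm_mul, Complex.norm_real, Real.norm_of_nonneg h0.le]
  exact (mul_le_of_le_one_left (norm_nonneg _) h1.le).trans hw

/-- Paper section 3. On a closed disc in `U`, for `ε > 0`, the derivative of
`σ ↦ mom μ ε A A' (t₀ + σ h)` is `h α_ε + conj h β_ε` (`gd`, `alpha_eq`, `beta_eq`, data from `gm`),
and `α_ε → mom μ 0 B A'`, `β_ε → mom μ 0 A B'` uniformly (`err_pow`, `err_zero`); these limits are
continuous (`cont_zero`). The mean value inequality on the segment and `ε → 0` give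
`N t - N t₀ - h α - conj h β = o(h)`. -/
theorem sh_diff (hU : IsOpen U) (hz : ∀ j, AnalyticOnNhd ℂ (fun t => z t j) U)
    (hi : ∀ t ∈ U, Function.Injective (z t)) {μ : ℝ} {p q : ℕ}
    (hy : Hyp μ p q (Fintype.card J)) {A A' : ℂ → ℂ[X]} (hA : PF U p A) (hk : InKer U z q A)
    (hA' : PF U p A') (hk' : InKer U z q A') {t₀ : ℂ} (ht : t₀ ∈ U) :
    DifferentiableAt ℝ (fun t => mom (z t) μ 0 (A t) (A' t)) t₀ := by
  obtain ⟨d1, d2, d3, -, -⟩ := hy.degs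
  have h0 := hy.1
  have h1 := hy.2.1
  have hγ : 0 < (1 - μ) / 2 := by linarith
  have hγ1 : μ + (1 - μ) / 2 < 1 := by linarith
  have dp : (p : ℝ) + p < 2 * μ * Fintype.card J := by linarith
  have d4 : ((Fintype.card J - q - 1 : ℕ) : ℝ) + p < 2 * (μ + (1 - μ) / 2) * Fintype.card J := by
    have : (0 : ℝ) ≤ (1 - μ) * Fintype.card J := mul_nonneg (by linarith) (Nat.cast_nonneg _)
    linarith
  obtain ⟨R, E, hR, hE, hB, hid⟩ := gm hU hz hi hy hA hk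
  obtain ⟨R', E', hR', hE', hB', hid'⟩ := gm hU hz hi hy hA' hk'
  obtain ⟨r, hr, hK⟩ := Metric.nhds_basis_closedBall.mem_iff.1 (hU.mem_nhds ht)
  have cK := isCompact_closedBall t₀ r
  obtain ⟨M0, m0⟩ := err_zero hz hi hA hA' h0 hγ hγ1 dp cK hK
  obtain ⟨M1, m1⟩ := err_zero hz hi hB hA' h0 hγ hγ1 dp cK hK
  obtain ⟨M2, m2⟩ := err_zero hz hi hA hB' h0 hγ hγ1 dp cK hK
  obtain ⟨M3, m3⟩ := err_pow hz hi hE hA' h0 hγ hγ1 d4 cK hK le_rfl
  obtain ⟨M4, m4⟩ := err_pow hz hi hA hE' h0 hγ hγ1 (by linarith) cK hK le_rfl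
  rw [Nat.cast_one] at m3 m4
  refine SHd_abs (M := max M0 (max (M1 + M3) (M2 + M4)))
    (Ne := fun ε t => mom (z t) μ ε (A t) (A' t))
    (αe := fun ε t => mom (z t) μ ε (dT p A t) (A' t) -
      μ * mom (z t) (μ + 1) ε (A t * fT (z t) (dz z t)) (A' t * fP (z t)))
    (βe := fun ε t => mom (z t) μ ε (A t) (dT p A' t) -
      μ * mom (z t) (μ + 1) ε (A t * fP (z t)) (A' t * fT (z t) (dz z t))) hr hγ
    (fun ε hε t h τ => gd hU hz hA hA' h0 hε dp (hK h) τ) (fun t h ε hε => ?_)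
    ((cont_zero hU hz hi hB hA' h0 h1 dp).continuousAt (hU.mem_nhds ht))
    ((cont_zero hU hz hi hA hB' h0 h1 dp).continuousAt (hU.mem_nhds ht))
  have hp : 0 ≤ ε ^ ((1 - μ) / 2) := Real.rpow_nonneg hε.le _
  have h' := hK h
  refine ⟨(m0 t h ε hε).trans (mul_le_mul_of_nonneg_right (le_max_left _ _) hp), ?_, ?_⟩
  · rw [alpha_eq _ _ h0 hε (hA.1 t h') (hA.dT.1 t h') (hR.1 t h') (hE.1 t h') (hA'.1 t h') d2 d3
      (hid t h')]
    exact (SHd_err h0 h1 (m1 t h ε hε) (m3 t h ε hε)).trans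
      (mul_le_mul_of_nonneg_right ((le_max_left _ _).trans (le_max_right _ _)) hp)
  · rw [beta_eq _ _ h0 hε (hA'.1 t h') (hA'.dT.1 t h') (hR'.1 t h') (hE'.1 t h') (hA.1 t h') d2 d3
      (hid' t h')]
    exact (SHd_err h0 h1 (m2 t h ε hε) (m4 t h ε hε)).trans
      (mul_le_mul_of_nonneg_right ((le_max_right _ _).trans (le_max_right _ _)) hp)

end Pool.Agent.P.MP_a62d3c_co.FF
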