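import Pool.Agent.P.MP_a62d3c_co.FF.Alp
import Pool.Agent.P.MP_a62d3c_co.FF.Gm
import Pool.Agent.P.MP_a62d3c_co.FF.Err

namespace Pool.Agent.P.MP_a62d3c_co.FF

open Filter Topology Polynomial MeasureTheory Asymptotics
open scoped ComplexConjugate Matrix ComplexOrder

variable {J : Type} [Fintype J] [DecidableEq J] {U : Set ℂ} {z : ℂ → J → ℂ}

theorem SHl_re {f : ℝ → ℂ} {f' : ℂ} {s : ℝ} (h : HasDerivAt f f' s) :
    HasDerivAt (fun σ => (f σ).re) f'.re s :=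
  Complex.reCLM.hasFDerivAt.comp_hasDerivAt s h

theorem SHl_small (M : ℝ) {c γ : ℝ} (hc : 0 < c) (hγ : 0 < γ) :
    ∀ᶠ ε in 𝓝[>] (0 : ℝ), M * ε ^ γ ≤ c := by
  have h : Tendsto (fun ε : ℝ => M * ε ^ γ) (𝓝 0) (𝓝 (M * (0 : ℝ) ^ γ)) :=
    (Real.continuousAt_rpow_const 0 γ (Or.inr hγ.le)).tendsto.const_mul M
  rw [Real.zero_rpow hγ.ne', mul_zero] at h
  exact (h.eventually (eventually_le_nhds hc)).filter_mono nhdsWithin_le_nhds

/-- second derivatives along a line from first derivatives at all points -/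
theorem SHl_sec (hU : IsOpen U) {ψ : ℂ → ℝ} {g : ℂ → ℝ} {τ t : ℂ} {c : ℝ} (ht : t ∈ U)
    (h1 : ∀ u ∈ U, HasDerivAt (fun σ : ℝ => ψ (u + σ * τ)) (g u) 0)
    (h2 : HasDerivAt (fun σ : ℝ => g (t + σ * τ)) c 0) : Sec ψ t τ c := by
  refine ⟨fun s => g (t + s * τ), ?_, h2⟩
  have hc : ContinuousAt (fun s : ℝ => t + s * τ) 0 := by fun_prop
  have hm : U ∈ 𝓝 (t + ((0 : ℝ) : ℂ) * τ) := by
    rw [Complex.ofReal_zero, zero_mul, add_zero]
    exact hU.mem_nhds ht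
  filter_upwards [hc.eventually hm] with s hs
  have h3 := h1 _ hs
  rw [← sub_self s] at h3
  have h4 := h3.comp_sub_const s s
  refine h4.congr_of_eventuallyEq (Eventually.of_forall fun σ => ?_)
  refine congrArg ψ ?_
  push_cast
  ring

section

variable {μ ε : ℝ} {p a : ℕ} {A R E : ℂ → ℂ[X]}

/-- the first derivative -/
theorem SHl_first (hU : IsOpen U) (hz : ∀ j, AnalyticOnNhd ℂ (fun t => z t j) U) (hμ : 0 < μ)
    (hε : 0 < ε) (hA : PF U p A) (hR : PF U (a + 1) R) (hE : PF U a E) (hpa : p ≤ a)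
    (hd : (a : ℝ) + p < 2 * μ * Fintype.card J)
    (hid : ∀ t ∈ U, A t * fT (z t) (dz z t) + R t * derivative (fP (z t)) = fP (z t) * E t)
    {t : ℂ} (ht : t ∈ U) (τ : ℂ) :
    HasDerivAt (fun σ : ℝ => (mom (z (t + σ * τ)) μ ε (A (t + σ * τ)) (A (t + σ * τ))).re)
      (2 * (τ * (mom (z t) μ ε (dT p A t + derivative (R t) - C (μ : ℂ) * E t) (A t) +
        μ * ε * mom (z t) (μ + 1) ε (E t) (A t))).re) 0 := by
  have hpa' : (p : ℝ) ≤ a := Nat.cast_le.2 hpa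
  have h := gd hU hz hA hA hμ hε (by linarith) ht τ
  rw [alpha_eq (z t) (dz z t) hμ hε (hA.1 t ht) (hA.dT.1 t ht) (hR.1 t ht) (hE.1 t ht)
      (hA.1 t ht) hpa hd (hid t ht),
    beta_eq (z t) (dz z t) hμ hε (hA.1 t ht) (hA.dT.1 t ht) (hR.1 t ht) (hE.1 t ht)
      (hA.1 t ht) hpa hd (hid t ht),
    mom_conj (z t) μ ε (dT p A t + derivative (R t) - C (μ : ℂ) * E t) (A t),
    mom_conj (z t) (μ + 1) ε (E t) (A t)] at h
  refine (SHl_re h).congr_deriv ?_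
  simp only [Complex.add_re, Complex.mul_re, Complex.add_im, Complex.mul_im, Complex.conj_re,
    Complex.conj_im, Complex.ofReal_re, Complex.ofReal_im]
  ring

/-- the derivative of `α` -/
theorem SHl_second (hU : IsOpen U) (hz : ∀ j, AnalyticOnNhd ℂ (fun t => z t j) U) (hμ : 0 < μ)
    (hε : 0 < ε) (hA : PF U p A) (hR : PF U (a + 1) R) (hE : PF U a E)
    (hB : PF U p fun t => dT p A t + derivative (R t) - C (μ : ℂ) * E t) (hpa : p ≤ a)
    (hd : (a : ℝ) + p < 2 * μ * Fintype.card J)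
    (hd' : (a : ℝ) + a < 2 * (μ + 1) * Fintype.card J)
    (hid : ∀ t ∈ U, A t * fT (z t) (dz z t) + R t * derivative (fP (z t)) = fP (z t) * E t)
    {t : ℂ} (ht : t ∈ U) : ∃ X₀ : ℂ, ∀ τ : ℂ,
    HasDerivAt (fun σ : ℝ => mom (z (t + σ * τ)) μ ε (dT p A (t + σ * τ) +
        derivative (R (t + σ * τ)) - C (μ : ℂ) * E (t + σ * τ)) (A (t + σ * τ)) +
        μ * ε * mom (z (t + σ * τ)) (μ + 1) ε (E (t + σ * τ)) (A (t + σ * τ)))
      (τ * X₀ + conj τ * (mom (z t) μ ε (dT p A t + derivative (R t) - C (μ : ℂ) * E t)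
          (dT p A t + derivative (R t) - C (μ : ℂ) * E t) +
        μ * ε * mom (z t) (μ + 1) ε (dT p A t + derivative (R t) - C (μ : ℂ) * E t) (E t) +
        μ * ε * (mom (z t) (μ + 1) ε (E t)
            (dT p A t + derivative (R t) - C ((μ + 1 : ℝ) : ℂ) * E t) +
          (μ + 1 : ℝ) * ε * mom (z t) (μ + 1 + 1) ε (E t) (E t)))) 0 := by
  have hpa' : (p : ℝ) ≤ a := Nat.cast_le.2 hpa
  have hμ1 : 0 < μ + 1 := by linarith
  refine ⟨?X, fun τ => ?h⟩
  case h =>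
    have h1 := gd hU hz hB hA hμ hε (by linarith) ht τ
    have h2 := gd hU hz hE hA hμ1 hε (by linarith) ht τ
    rw [beta_eq (z t) (dz z t) hμ hε (hA.1 t ht) (hA.dT.1 t ht) (hR.1 t ht) (hE.1 t ht)
      (hB.1 t ht) hpa hd (hid t ht)] at h1
    rw [beta_eq (z t) (dz z t) hμ1 hε (hA.1 t ht) (hA.dT.1 t ht) (hR.1 t ht) (hE.1 t ht)
      (hE.1 t ht) hpa hd' (hid t ht)] at h2
    refine (h1.add (h2.const_mul ((μ : ℂ) * ε))).congr_deriv ?_
    exact (show ∀ x₁ y₁ x₂ y₂ c : ℂ, τ * x₁ + conj τ * y₁ + c * (τ * x₂ + conj τ * y₂) =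
      τ * (x₁ + c * x₂) + conj τ * (y₁ + c * y₂) from fun _ _ _ _ _ => by ring) _ _ _ _ _

end

/-- Paper section 3. Take `ψ = re (mom μ ε A A)` with `ε` small. Along `τ` the first derivative at
any point is `τ α + conj τ β`, `α = mom μ ε B A + μ ε mom (μ+1) ε E A`, `β = conj α`; apply `gd`
again to both terms of `α` and `beta_eq` (with `ν = μ` and `ν = μ + 1`). The sum of the second
derivatives along `1` and `I` is `4 re [mom μ B B + μ ε mom (μ+1) B E + μ ε mom (μ+1) E (B - E) +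
μ (μ+1) ε² mom (μ+2) E E]`, at least `- M ε ^ γ` on the disc (`mom_self_nonneg`, `err_pow` with
`γ = (1 - μ) / 2`, `Hyp.degs`). -/
theorem sh_lap (hU : IsOpen U) (hz : ∀ j, AnalyticOnNhd ℂ (fun t => z t j) U)
    (hi : ∀ t ∈ U, Function.Injective (z t)) {μ : ℝ} {p q : ℕ}
    (hy : Hyp μ p q (Fintype.card J)) {A : ℂ → ℂ[X]} (hA : PF U p A) (hk : InKer U z q A)
    {t₀ : ℂ} (ht : t₀ ∈ U) : LapGe (fun t => (mom (z t) μ 0 (A t) (A t)).re) t₀ := by
  obtain ⟨R, E, hR, hE, hB, hid⟩ := gm hU hz hi hy hA hk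
  obtain ⟨d1, d2, d3, d4, -⟩ := hy.degs
  obtain ⟨hμ, hμ1, -⟩ := hy
  generalize Fintype.card J - q - 1 = a at hR hE d2 d3 d4
  have hn : (0 : ℝ) ≤ Fintype.card J := Nat.cast_nonneg _
  have hpa : (p : ℝ) ≤ a := Nat.cast_le.2 d2
  have hγ : 0 < (1 - μ) / 2 := by linarith
  have hγ1 : μ + (1 - μ) / 2 < 1 := by linarith
  have d5 : (a : ℝ) + a < 2 * (μ + 1) * Fintype.card J := by nlinarith
  have hB' : PF U a fun t => dT p A t + derivative (R t) - C ((μ + 1 : ℝ) : ℂ) * E t :=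
    ((hA.dT.mono d2).add hR.deriv_x).sub (PF.C_mul analyticOnNhd_const hE)
  intro η hη
  obtain ⟨r₀, hr₀, hball⟩ := Metric.nhds_basis_closedBall.mem_iff.1 (hU.mem_nhds ht)
  filter_upwards [Ioo_mem_nhdsGT hr₀] with r hr θ hθ
  have hKU : Metric.closedBall t₀ r ⊆ U := (Metric.closedBall_subset_closedBall hr.2.le).trans hball
  have hK := isCompact_closedBall t₀ r
  obtain ⟨M₀, h₀⟩ := err_zero hz hi hA hA hμ hγ hγ1 (by linarith) hK hKU
  obtain ⟨M₁, h₁⟩ := err_pow hz hi hB hE hμ hγ hγ1 (by linarith) hK hKU (le_refl 1)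
  obtain ⟨M₂, h₂⟩ := err_pow hz hi hE hB' hμ hγ hγ1 d4 hK hKU (le_refl 1)
  simp only [pow_one, Nat.cast_one] at h₁ h₂
  obtain ⟨ε, ⟨e₀, e₁⟩, hε⟩ := (((SHl_small M₀ hθ hγ).and
    (SHl_small (4 * μ * (M₁ + M₂)) hη hγ)).and self_mem_nhdsWithin).exists
  have hε' : 0 < ε := hε
  have hclose : ∀ t ∈ Metric.closedBall t₀ r,
      |(mom (z t) μ ε (A t) (A t)).re - (mom (z t) μ 0 (A t) (A t)).re| ≤ θ := fun t htK => by
    rw [← Complex.sub_re]
    exact (Complex.abs_re_le_norm _).trans ((h₀ t htK ε hε').trans e₀)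
  refine ⟨fun t => (mom (z t) μ ε (A t) (A t)).re, ?_, fun t htb => ?_, ?_, fun t hts => ?_⟩
  · exact Complex.continuous_re.comp_continuousOn
      ((gd_cont hU hz hA hA hμ hε' (by linarith)).mono hKU)
  · have htK := Metric.ball_subset_closedBall htb
    have htU := hKU htK
    obtain ⟨X₀, hX⟩ := SHl_second hU hz hμ hε' hA hR hE hB d2 d3 d5 hid htU
    have hs := fun τ : ℂ => SHl_sec (ψ := fun t => (mom (z t) μ ε (A t) (A t)).re)
      (g := fun t => 2 * (τ * (mom (z t) μ ε (dT p A t + derivative (R t) - C (μ : ℂ) * E t) (A t) +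
        μ * ε * mom (z t) (μ + 1) ε (E t) (A t))).re) (τ := τ) hU htU
      (fun u hu => SHl_first hU hz hμ hε' hA hR hE d2 d3 hid hu τ)
      ((SHl_re ((hX τ).const_mul τ)).const_mul 2)
    refine ⟨_, _, hs 1, hs Complex.I, ?_⟩
    have k₁ := (abs_le.1 ((Complex.abs_re_le_norm _).trans (h₁ t htK ε hε'))).1
    have k₂ := (abs_le.1 ((Complex.abs_re_le_norm _).trans (h₂ t htK ε hε'))).1
    have k₃ := mom_self_nonneg (z t) μ hε'.le (dT p A t + derivative (R t) - C (μ : ℂ) * E t)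
    have k₄ := mom_self_nonneg (z t) (μ + 1 + 1) hε'.le (E t)
    generalize mom (z t) μ ε (dT p A t + derivative (R t) - C (μ : ℂ) * E t)
      (dT p A t + derivative (R t) - C (μ : ℂ) * E t) = y₁ at k₃ ⊢
    generalize mom (z t) (μ + 1) ε (dT p A t + derivative (R t) - C (μ : ℂ) * E t) (E t) = y₂
      at k₁ ⊢
    generalize mom (z t) (μ + 1) ε (E t)
      (dT p A t + derivative (R t) - C ((μ + 1 : ℝ) : ℂ) * E t) = y₃ at k₂ ⊢
    generalize mom (z t) (μ + 1 + 1) ε (E t) (E t) = y₄ at k₄ ⊢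
    simp only [Complex.add_re, Complex.mul_re, Complex.add_im, Complex.mul_im, Complex.conj_re,
      Complex.conj_im, Complex.ofReal_re, Complex.ofReal_im, Complex.one_re, Complex.one_im,
      Complex.I_re, Complex.I_im] at k₁ k₂ ⊢
    have k₅ : 0 ≤ μ * ε * ((μ + 1) * ε * y₄.re) := by positivity
    have k₆ := mul_le_mul_of_nonneg_left k₁ hμ.le
    have k₇ := mul_le_mul_of_nonneg_left k₂ hμ.le
    linarith
  · have := (abs_le.1 (hclose t₀ (Metric.mem_closedBall_self hr.1.le))).1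
    linarith
  · have := (abs_le.1 (hclose t (Metric.sphere_subset_closedBall hts))).2
    have h2 : 0 ≤ η * r ^ 2 := by positivity
    linarith

end Pool.Agent.P.MP_a62d3c_co.FF
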