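import Pool.Agent.P.MP_a62d3c_co.FF.Lap

namespace Pool.Agent.P.MP_a62d3c_co.FF

open Filter Topology Polynomial MeasureTheory Asymptotics
open scoped ComplexConjugate Matrix ComplexOrder

theorem SHm_one {f : ℂ → ℂ} {t₀ : ℂ} (h : f =o[𝓝 t₀] fun t => t - t₀) :
    f =o[𝓝 t₀] fun _ => (1 : ℂ) := by
  refine h.trans_isBigO ?_
  have : Tendsto (fun t : ℂ => t - t₀) (𝓝 t₀) (𝓝 (t₀ - t₀)) :=
    (continuous_id.sub continuous_const).tendsto t₀
  exact this.isBigO_one ℂ

theorem SHm_prod {K : Type} [DecidableEq K] {x : K → ℂ → ℂ} {t₀ : ℂ}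
    (hx : ∀ a, x a =o[𝓝 t₀] fun t => t - t₀) (s : Finset K) :
    (fun t => ∏ i ∈ s, (1 + x i t) - 1 - ∑ i ∈ s, x i t) =o[𝓝 t₀]
      fun t => (t - t₀) * (t - t₀) := by
  induction s using Finset.induction_on with
  | empty => simp
  | insert a s ha ih =>
    have h1 : (fun t => ∑ i ∈ s, x i t) =o[𝓝 t₀] fun t => t - t₀ :=
      IsLittleO.fun_sum fun i _ => hx i
    have h2 := (hx a).mul h1
    have h3 := (SHm_one (hx a)).mul ih
    simp only [one_mul] at h3
    refine ((ih.add h2).add h3).congr_left fun t => ?_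
    rw [Finset.prod_insert ha, Finset.sum_insert ha]
    ring

theorem SHm_prod_bd {K : Type} [DecidableEq K] {x : K → ℂ → ℂ} {l : Filter ℂ}
    (hx : ∀ a, x a =O[l] fun _ => (1 : ℂ)) (s : Finset K) :
    (fun t => ∏ i ∈ s, x i t) =O[l] fun _ => (1 : ℂ) := by
  induction s using Finset.induction_on with
  | empty => simpa using isBigO_refl (fun _ : ℂ => (1 : ℂ)) l
  | insert a s ha ih =>
    have h2 := (hx a).mul ih
    simp only [one_mul] at h2
    refine h2.congr_left fun t => ?_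
    rw [Finset.prod_insert ha]

theorem SHm_det {K : Type} [Fintype K] [DecidableEq K] {X : ℂ → Matrix K K ℂ} {t₀ : ℂ}
    (hX : ∀ a b, (fun t => X t a b) =o[𝓝 t₀] fun t => t - t₀) :
    (fun t => (1 + X t).det - 1 - (X t).trace) =o[𝓝 t₀] fun t => (t - t₀) * (t - t₀) := by
  have hb : ∀ a b, (fun t => (1 + X t) a b) =O[𝓝 t₀] fun _ => (1 : ℂ) := fun a b =>
    (isBigO_const_const ((1 : Matrix K K ℂ) a b) one_ne_zero _).add (SHm_one (hX a b)).isBigO
  have h1 := SHm_prod (x := fun i t => X t i i) (fun a => hX a a) Finset.univ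
  have h2 : ∀ σ ∈ (Finset.univ : Finset (Equiv.Perm K)).erase 1,
      (fun t => ((Equiv.Perm.sign σ : ℤ) : ℂ) * ∏ i, (1 + X t) (σ i) i) =o[𝓝 t₀]
        fun t => (t - t₀) * (t - t₀) := by
    intro σ hσ
    obtain ⟨i, hi, j, hj, hij⟩ :=
      Finset.one_lt_card.1 (Equiv.Perm.one_lt_card_support_of_ne_one (Finset.ne_of_mem_erase hσ))
    rw [Equiv.Perm.mem_support] at hi hj
    refine IsLittleO.const_mul_left ?_ _
    have h3 := ((hX (σ i) i).mul (hX (σ j) j)).mul_isBigO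
      (SHm_prod_bd (x := fun k t => (1 + X t) (σ k) k) (fun k => hb (σ k) k)
        ((Finset.univ.erase i).erase j))
    simp only [mul_one] at h3
    refine h3.congr_left fun t => ?_
    rw [← Finset.mul_prod_erase Finset.univ _ (Finset.mem_univ i),
      ← Finset.mul_prod_erase (Finset.univ.erase i) _
        (Finset.mem_erase.2 ⟨hij.symm, Finset.mem_univ j⟩)]
    simp only [Matrix.add_apply, Matrix.one_apply_ne hi, Matrix.one_apply_ne hj, zero_add]
    ring
  refine (h1.add (IsLittleO.fun_sum h2)).congr_left fun t => ?_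
  rw [Matrix.det_apply', ← Finset.add_sum_erase Finset.univ _ (Finset.mem_univ (1 : Equiv.Perm K))]
  simp only [Equiv.Perm.sign_one, Units.val_one, Int.cast_one, one_mul, Equiv.Perm.coe_one, id,
    Matrix.add_apply, Matrix.one_apply_eq, Matrix.trace, Matrix.diag]
  ring

theorem SHm_log {y : ℝ} (hy : |y| ≤ 1 / 2) : y - 2 * y ^ 2 ≤ Real.log (1 + y) := by
  have h1 := abs_le.1 hy
  have hp : 0 < 1 + y := by linarith
  refine le_trans ?_ (Real.one_sub_inv_le_log_of_pos hp)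
  have e : 1 - (1 + y)⁻¹ = y / (1 + y) := by field_simp; ring
  rw [e, le_div_iff₀ hp]
  nlinarith [sq_nonneg y, mul_nonneg (sq_nonneg y) (by linarith : 0 ≤ 1 + 2 * y)]

/-- `log det (1 + X) ≥ re tr X - o(|t - t₀|²)` when `X = o(|t - t₀|)`: `det (1 + X) = 1 + tr X +
O(|X|²)` (Leibniz formula or `Matrix.det_one_add_smul`), `log (1 + y) ≥ y - y²` -/
theorem logdet_ge {K : Type} [Fintype K] [DecidableEq K] {X : ℂ → Matrix K K ℂ} {t₀ : ℂ}
    (hX : ∀ a b, (fun t => X t a b) =o[𝓝 t₀] fun t => t - t₀) :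
    ∀ η > (0 : ℝ), ∀ᶠ t in 𝓝 t₀, 0 < (1 + X t).det.re ∧
      (X t).trace.re ≤ Real.log (1 + X t).det.re + η * ‖t - t₀‖ ^ 2 := by
  intro η hη
  have hE := SHm_det hX
  have htr : (fun t => (X t).trace) =o[𝓝 t₀] fun t => t - t₀ :=
    IsLittleO.fun_sum fun i _ => hX i i
  have hsq : (fun t : ℂ => (t - t₀) * (t - t₀)) =O[𝓝 t₀] fun t => t - t₀ := by
    have h0 : Tendsto (fun t : ℂ => t - t₀) (𝓝 t₀) (𝓝 (t₀ - t₀)) :=
      (continuous_id.sub continuous_const).tendsto t₀
    have := (h0.isBigO_one ℂ).mul (isBigO_refl (fun t : ℂ => t - t₀) (𝓝 t₀))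
    simpa only [one_mul] using this
  have hy : (fun t => (1 + X t).det - 1) =o[𝓝 t₀] fun t => t - t₀ :=
    ((hE.trans_isBigO hsq).add htr).congr_left fun t => by ring
  have b1 := hE.def (half_pos hη)
  have b2 := (hy.mul hy).def (by positivity : 0 < η / 4)
  have b3 := (SHm_one hy).def (by norm_num : (0 : ℝ) < 1 / 2)
  filter_upwards [b1, b2, b3] with t h1 h2 h3
  rw [norm_mul, ← sq] at h1
  rw [norm_mul, norm_mul, ← sq, ← sq] at h2
  rw [norm_one, mul_one] at h3
  have r1 := Complex.abs_re_le_norm ((1 + X t).det - 1)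
  have r2 := Complex.abs_re_le_norm ((1 + X t).det - 1 - (X t).trace)
  have r3 := SHm_log (r1.trans h3)
  have r4 : ((1 + X t).det - 1).re ^ 2 ≤ ‖(1 + X t).det - 1‖ ^ 2 := by
    rw [← sq_abs]
    exact pow_le_pow_left₀ (abs_nonneg _) r1 2
  have r5 := abs_le.1 (r1.trans h3)
  have r6 := abs_le.1 (r2.trans h1)
  simp only [Complex.sub_re, Complex.one_re] at r3 r4 r5 r6
  rw [add_sub_cancel] at r3
  exact ⟨by linarith [r5.1], by linarith [r6.1]⟩

theorem SHm_mul_r {K : Type} [Fintype K] {A B : ℂ → Matrix K K ℂ} {t₀ : ℂ} {g : ℂ → ℂ}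
    (hA : ∀ a b, (fun t => A t a b) =o[𝓝 t₀] g) (hB : Continuous B) (a b : K) :
    (fun t => (A t * B t) a b) =o[𝓝 t₀] g := by
  simp only [Matrix.mul_apply]
  refine IsLittleO.fun_sum fun c _ => ?_
  have := (hA a c).mul_isBigO (((hB.matrix_elem c b).tendsto t₀).isBigO_one ℂ)
  simpa only [mul_one] using this

theorem SHm_mul_l {K : Type} [Fintype K] {A B : ℂ → Matrix K K ℂ} {t₀ : ℂ} {g : ℂ → ℂ}
    (hB : Continuous B) (hA : ∀ a b, (fun t => A t a b) =o[𝓝 t₀] g) (a b : K) :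
    (fun t => (B t * A t) a b) =o[𝓝 t₀] g := by
  simp only [Matrix.mul_apply]
  refine IsLittleO.fun_sum fun c _ => ?_
  have := (((hB.matrix_elem a c).tendsto t₀).isBigO_one ℂ).mul_isLittleO (hA c b)
  simpa only [one_mul] using this

theorem SHm_smul {K : Type} {U : ℂ → Matrix K K ℂ} {t₀ : ℂ} {c g : ℂ → ℂ}
    (hc : c =O[𝓝 t₀] g) (hU : Continuous U) (h0 : U t₀ = 0) (a b : K) :
    (fun t => (c t • U t) a b) =o[𝓝 t₀] g := by
  have h1 : Tendsto (fun t => U t a b) (𝓝 t₀) (𝓝 0) := by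
    have := (hU.matrix_elem a b).tendsto t₀
    rwa [h0] at this
  have := hc.mul_isLittleO ((isLittleO_one_iff ℂ).2 h1)
  simpa only [mul_one, Matrix.smul_apply, smul_eq_mul] using this

theorem SHm_split (D : ℂ →L[ℝ] ℂ) (h : ℂ) :
    D h = h * ((D 1 - Complex.I * D Complex.I) / 2) +
      conj h * ((D 1 + Complex.I * D Complex.I) / 2) := by
  have e : h = h.re • (1 : ℂ) + h.im • Complex.I := by
    simp [Complex.re_add_im]
  have e1 : D h = h.re * D 1 + h.im * D Complex.I := by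
    conv_lhs => rw [e]
    rw [map_add, map_smul, map_smul]
    simp
  have e2 : conj h = h.re - h.im * Complex.I := by
    apply Complex.ext <;> simp
  rw [e1, e2]
  conv_rhs => rw [← Complex.re_add_im h]
  simp only [Complex.add_re, Complex.add_im, Complex.ofReal_re, Complex.ofReal_im,
    Complex.mul_re, Complex.mul_im, Complex.I_re, Complex.I_im, mul_zero, mul_one, zero_add,
    add_zero, sub_self]
  linear_combination (h.im * D Complex.I) * Complex.I_mul_I

theorem SHm_exp {K : Type} {N : ℂ → Matrix K K ℂ} {t₀ : ℂ}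
    (hH : ∀ᶠ t in 𝓝 t₀, (N t).IsHermitian)
    (hd : ∀ a b, DifferentiableAt ℝ (fun t => N t a b) t₀) :
    ∃ Γ : Matrix K K ℂ, ∀ a b,
      (fun t => (N t - (N t₀ + (t - t₀) • Γ + conj (t - t₀) • Γᴴ)) a b) =o[𝓝 t₀]
        fun t => t - t₀ := by
  set D : K → K → ℂ →L[ℝ] ℂ := fun a b => fderiv ℝ (fun t => N t a b) t₀ with hD
  have hc : ∀ a b h, D a b h = conj (D b a h) := by
    intro a b h
    have h1 : HasFDerivAt (fun t => conj (N t b a))
        ((Complex.conjCLE : ℂ →L[ℝ] ℂ).comp (D b a)) t₀ :=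
      (Complex.conjCLE : ℂ →L[ℝ] ℂ).hasFDerivAt.comp t₀ (hd b a).hasFDerivAt
    have h2 : (fun t => N t a b) =ᶠ[𝓝 t₀] fun t => conj (N t b a) := by
      filter_upwards [hH] with t ht
      exact (ht.apply a b).symm
    have h3 := (hd a b).hasFDerivAt.unique (h1.congr_of_eventuallyEq h2)
    have h4 : D a b = (Complex.conjCLE : ℂ →L[ℝ] ℂ).comp (D b a) := h3
    rw [h4]
    rfl
  refine ⟨Matrix.of fun a b => (D a b 1 - Complex.I * D a b Complex.I) / 2, fun a b => ?_⟩
  refine (hd a b).hasFDerivAt.isLittleO.congr_left fun t => ?_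
  have e := SHm_split (D a b) (t - t₀)
  have e2 : star ((D b a 1 - Complex.I * D b a Complex.I) / 2) =
      (D a b 1 + Complex.I * D a b Complex.I) / 2 := by
    rw [hc a b 1, hc a b Complex.I]
    simp
  simp only [Matrix.sub_apply, Matrix.add_apply, Matrix.smul_apply, Matrix.conjTranspose_apply,
    Matrix.of_apply, smul_eq_mul, e2]
  change N t a b - N t₀ a b - D a b (t - t₀) = _
  rw [e]
  ring

open scoped MatrixOrder in
theorem SHm_root {K : Type} [Fintype K] [DecidableEq K] {A : Matrix K K ℂ} (hp : A.PosDef) :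
    ∃ L : Matrix K K ℂ, L * A * Lᴴ = 1 := by
  obtain ⟨y, hy, rfl⟩ :=
    CStarAlgebra.isStrictlyPositive_iff_eq_star_mul_self.mp hp.isStrictlyPositive
  have h1 : IsUnit y.det := (Matrix.isUnit_iff_isUnit_det y).1 hy
  refine ⟨(y⁻¹)ᴴ, ?_⟩
  rw [Matrix.conjTranspose_conjTranspose, Matrix.star_eq_conjTranspose, ← Matrix.mul_assoc,
    ← Matrix.conjTranspose_mul, Matrix.mul_nonsing_inv _ h1, Matrix.conjTranspose_one,
    Matrix.one_mul, Matrix.mul_nonsing_inv _ h1]

theorem SHm_alg {K : Type} [Fintype K] [DecidableEq K] (N N₀ Γ Q : Matrix K K ℂ) (h : ℂ)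
    (h1 : Q * N₀ = Γ) (h2 : N₀ * Qᴴ = Γᴴ) :
    (1 - h • Q) * N * (1 - h • Q)ᴴ = N₀ +
      ((1 - h • Q) * (N - (N₀ + h • Γ + conj h • Γᴴ)) * (1 - h • Q)ᴴ +
        (h • (-(h • (Q * Γ) + conj h • (Q * Γᴴ)) +
            conj h • (Q * (N₀ + h • Γ + conj h • Γᴴ) * Qᴴ)) +
          conj h • (-(h • (Γ * Qᴴ) + conj h • (Γᴴ * Qᴴ))))) := by
  have e : (1 - h • Q)ᴴ = 1 - conj h • Qᴴ := by
    rw [Matrix.conjTranspose_sub, Matrix.conjTranspose_one, Matrix.conjTranspose_smul]
    rfl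
  rw [e]
  simp only [Matrix.mul_sub, Matrix.sub_mul, Matrix.mul_add, Matrix.add_mul, Matrix.one_mul,
    Matrix.mul_one, Matrix.smul_mul, Matrix.mul_smul, h1, h2]
  module

theorem SHm_trace {K : Type} [Fintype K] (M N : Matrix K K ℂ) :
    (M * N * Mᴴ).trace.re = ∑ i, ((fun a => M i a) ⬝ᵥ (N *ᵥ star (fun a => M i a))).re := by
  rw [Matrix.trace, Complex.re_sum]
  refine Finset.sum_congr rfl fun i _ => ?_
  rw [Matrix.mul_assoc]
  rfl

theorem SHm_detre {K : Type} [Fintype K] [DecidableEq K] (M N : Matrix K K ℂ) :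
    (M * N * Mᴴ).det.re = ‖M.det‖ ^ 2 * N.det.re := by
  rw [Matrix.det_mul, Matrix.det_mul, Matrix.det_conjTranspose, mul_right_comm,
    Complex.star_def, Complex.mul_conj, Complex.normSq_eq_norm_sq, Complex.re_ofReal_mul]

theorem SHm_logre {K : Type} [Fintype K] [DecidableEq K] {M N : Matrix K K ℂ}
    (h : 0 < (M * N * Mᴴ).det.re) :
    Real.log (M * N * Mᴴ).det.re = 2 * Real.log ‖M.det‖ + Real.log N.det.re := by
  rw [SHm_detre] at h ⊢
  have h1 := mul_ne_zero_iff.1 h.ne'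
  rw [Real.log_mul h1.1 h1.2, Real.log_pow]
  norm_num

/-- Paper section 3, end. `N t = N₀ + h Γ + conj h Γ' + o(h)` (`h = t - t₀`; split the real
derivative into its complex linear and antilinear parts), `Γ' = Γᴴ` since `N` is Hermitian. Choose `L`
with `L N₀ Lᴴ = 1` (inverse of the positive square root, or the spectral theorem) and
`M t = L (1 - h Γ N₀⁻¹)`. Then `M N Mᴴ = 1 + o(h)`, `det (M N Mᴴ) = |det M|² det N`, the trace of
`M N Mᴴ` is the sum over the rows `v` of `M`. Use `logdet_ge`, `LapGe.sum`, `lapGe_log`,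
`lapGe_const`, `LapGe.of_le`. -/
theorem logdet_lap {K : Type} [Fintype K] [DecidableEq K] {N : ℂ → Matrix K K ℂ} {t₀ : ℂ}
    (hH : ∀ᶠ t in 𝓝 t₀, (N t).IsHermitian) (hp : (N t₀).PosDef)
    (hd : ∀ a b, DifferentiableAt ℝ (fun t => N t a b) t₀)
    (hv : ∀ v : ℂ → K → ℂ, (∀ a, AnalyticAt ℂ (fun t => v t a) t₀) →
      LapGe (fun t => (v t ⬝ᵥ (N t *ᵥ star (v t))).re) t₀) :
    LapGe (fun t => Real.log (N t).det.re) t₀ := by
  obtain ⟨Γ, hΓ⟩ := SHm_exp hH hd
  obtain ⟨L, hL⟩ := SHm_root hp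
  have hu : IsUnit (N t₀).det := (Matrix.isUnit_iff_isUnit_det _).1 hp.isUnit
  set Q : Matrix K K ℂ := Γ * (N t₀)⁻¹ with hQ
  have q1 : Q * N t₀ = Γ := by
    rw [hQ, Matrix.mul_assoc, Matrix.nonsing_inv_mul _ hu, Matrix.mul_one]
  have q2 : N t₀ * Qᴴ = Γᴴ := by
    have := congrArg Matrix.conjTranspose q1
    rwa [Matrix.conjTranspose_mul, hp.isHermitian.eq] at this
  set M : ℂ → Matrix K K ℂ := fun t => L * (1 - (t - t₀) • Q) with hM
  set X : ℂ → Matrix K K ℂ := fun t => M t * N t * (M t)ᴴ - 1 with hX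
  have hX1 : ∀ t, 1 + X t = M t * N t * (M t)ᴴ := fun t => by rw [hX]; simp
  have ch : Continuous fun t : ℂ => t - t₀ := continuous_id.sub continuous_const
  have cc : Continuous fun t : ℂ => conj (t - t₀) := Complex.continuous_conj.comp ch
  have cP : Continuous fun t : ℂ => (1 : Matrix K K ℂ) - (t - t₀) • Q :=
    continuous_const.sub (ch.smul continuous_const)
  have oc : (fun t : ℂ => conj (t - t₀)) =O[𝓝 t₀] fun t => t - t₀ :=
    IsBigO.of_bound 1 (Eventually.of_forall fun t => by rw [Complex.norm_conj, one_mul])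
  have hXo : ∀ a b, (fun t => X t a b) =o[𝓝 t₀] fun t => t - t₀ := by
    have a1 := SHm_mul_r (SHm_mul_l cP hΓ) cP.matrix_conjTranspose
    have a2 := SHm_smul (U := fun t => -((t - t₀) • (Q * Γ) + conj (t - t₀) • (Q * Γᴴ)) +
      conj (t - t₀) • (Q * (N t₀ + (t - t₀) • Γ + conj (t - t₀) • Γᴴ) * Qᴴ))
      (isBigO_refl (fun t : ℂ => t - t₀) (𝓝 t₀))
      (((ch.smul continuous_const).add (cc.smul continuous_const)).neg.add
        (cc.smul ((continuous_const.matrix_mul ((continuous_const.add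
          (ch.smul continuous_const)).add (cc.smul continuous_const))).matrix_mul
            continuous_const))) (by simp)
    have a3 := SHm_smul (U := fun t => -((t - t₀) • (Γ * Qᴴ) + conj (t - t₀) • (Γᴴ * Qᴴ))) oc
      ((ch.smul continuous_const).add (cc.smul continuous_const)).neg (by simp)
    have a4 : ∀ a b, (fun t => ((1 - (t - t₀) • Q) * N t * (1 - (t - t₀) • Q)ᴴ - N t₀ :
        Matrix K K ℂ) a b) =o[𝓝 t₀] fun t => t - t₀ := fun a b =>
      ((a1 a b).add ((a2 a b).add (a3 a b))).congr_left fun t => by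
        rw [SHm_alg (N t) (N t₀) Γ Q (t - t₀) q1 q2, add_sub_cancel_left]
        rfl
    intro a b
    refine (SHm_mul_r (B := fun _ => Lᴴ) (SHm_mul_l (B := fun _ => L) continuous_const a4)
      continuous_const a b).congr_left fun t => ?_
    have e : L * ((1 - (t - t₀) • Q) * N t * (1 - (t - t₀) • Q)ᴴ - N t₀) * Lᴴ = X t := by
      rw [Matrix.mul_sub, Matrix.sub_mul, hL, hX, hM]
      simp only [Matrix.conjTranspose_mul, Matrix.mul_assoc]
    rw [e]
  have aM : ∀ a b, AnalyticAt ℂ (fun t => M t a b) t₀ := by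
    intro a b
    simp only [hM, Matrix.mul_apply, Matrix.sub_apply, Matrix.smul_apply, smul_eq_mul]
    fun_prop
  have aD : AnalyticAt ℂ (fun t => (M t).det) t₀ := by
    simp only [Matrix.det_apply']
    exact Finset.analyticAt_fun_sum _ fun σ _ =>
      analyticAt_const.mul (Finset.analyticAt_fun_prod _ fun i _ => aM _ _)
  have m0 : M t₀ * N t₀ * (M t₀)ᴴ = 1 := by
    rw [hM]
    simpa using hL
  have p0 : 0 < (M t₀ * N t₀ * (M t₀)ᴴ).det.re := by rw [m0]; simp
  have d0 : (M t₀).det ≠ 0 := by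
    intro h0
    rw [SHm_detre, h0] at p0
    simp at p0
  have l1 := ((LapGe.sum (A := Finset.univ) fun i _ => hv (fun t a => M t i a) (aM i)).add
    (lapGe_const (-(1 : Matrix K K ℂ).trace.re) t₀)).add (lapGe_log aD d0 (-2))
  refine l1.of_le ?_ fun η hη => ?_
  · have e1 := SHm_logre p0
    have e2 := SHm_trace (M t₀) (N t₀)
    rw [m0] at e1 e2
    rw [Matrix.det_one, Complex.one_re, Real.log_one] at e1
    linarith
  · filter_upwards [logdet_ge hXo η hη] with t ht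
    obtain ⟨h1, h2⟩ := ht
    rw [hX1] at h1 h2
    have e1 := SHm_logre h1
    have e2 := SHm_trace (M t) (N t)
    have e3 : (X t).trace.re = (M t * N t * (M t)ᴴ).trace.re - (1 : Matrix K K ℂ).trace.re := by
      rw [hX]
      simp only [Matrix.trace_sub, Complex.sub_re]
    linarith

end Pool.Agent.P.MP_a62d3c_co.FF
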