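import Pool.Agent.P.MP_a62d3c_co.FF.SHd
import Pool.Agent.P.MP_a62d3c_co.FF.SHl
import Pool.Agent.P.MP_a62d3c_co.FF.SHm
import Pool.Agent.P.MP_a62d3c_co.FF.Piv

namespace Pool.Agent.P.MP_a62d3c_co.FF

open Filter Topology Polynomial MeasureTheory Asymptotics
open scoped ComplexConjugate Matrix ComplexOrder

variable {J : Type} [Fintype J] [DecidableEq J]

theorem SHp_row {U : Set ℂ} {z : ℂ → J → ℂ} {p q : ℕ} {w : ℂ → Fin p → ℂ}
    (hw : ∀ c, AnalyticOnNhd ℂ (fun t => w t c) U)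
    (hk : ∀ t ∈ U, w t ᵥ* theta p q (z t) (dz z t) = 0) :
    PF U p (fun t => ∑ c, C (w t c) * X ^ (c : ℕ)) ∧
      InKer U z q (fun t => ∑ c, C (w t c) * X ^ (c : ℕ)) := by
  refine ⟨PF.sum fun c _ => PF.C_mul (hw c) (pf_const ?_), fun t ht b hb => ?_⟩
  · rw [degree_X_pow]
    exact_mod_cast c.2
  · have h := congrFun (hk t ht) ⟨b, hb⟩
    simp only [Matrix.vecMul, dotProduct, theta, Matrix.of_apply, Pi.zero_apply, hig] at h
    simp only [hig]
    rw [← h]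
    simp only [Finset.mul_sum, eval_mul, eval_finsetSum, Finset.sum_mul, Finset.sum_div, eval_C,
      eval_pow, eval_X]
    rw [Finset.sum_comm]
    refine Finset.sum_congr rfl fun c _ => Finset.sum_congr rfl fun j _ => ?_
    rw [pow_add]
    ring

theorem SHp_loc {z : ℂ → J → ℂ} {t₀ : ℂ} (hz : ∀ j, AnalyticAt ℂ (fun t => z t j) t₀)
    {μ : ℝ} {p q : ℕ} (hy : Hyp μ p q (Fintype.card J)) {w w' : ℂ → Fin p → ℂ}
    (hw : ∀ c, AnalyticAt ℂ (fun t => w t c) t₀) (hw' : ∀ c, AnalyticAt ℂ (fun t => w' t c) t₀)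
    (hk : ∀ᶠ t in 𝓝 t₀, Function.Injective (z t) ∧ w t ᵥ* theta p q (z t) (dz z t) = 0 ∧
      w' t ᵥ* theta p q (z t) (dz z t) = 0) :
    DifferentiableAt ℝ (fun t => w t ⬝ᵥ (gram μ p (z t) *ᵥ star (w' t))) t₀ ∧
      LapGe (fun t => (w t ⬝ᵥ (gram μ p (z t) *ᵥ star (w t))).re) t₀ := by
  have h1 := eventually_all.mpr fun j => (hz j).eventually_analyticAt
  have h2 := eventually_all.mpr fun j => (hw j).eventually_analyticAt
  have h3 := eventually_all.mpr fun j => (hw' j).eventually_analyticAt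
  obtain ⟨U, hU, hUo, ht⟩ := eventually_nhds_iff.mp (h1.and (h2.and (h3.and hk)))
  have hzU : ∀ j, AnalyticOnNhd ℂ (fun t => z t j) U := fun j t ht => (hU t ht).1 j
  have hi : ∀ t ∈ U, Function.Injective (z t) := fun t ht => (hU t ht).2.2.2.1
  obtain ⟨a1, a2⟩ := SHp_row (z := z) (q := q) (w := w) (U := U)
    (fun c t ht => (hU t ht).2.1 c) fun t ht => (hU t ht).2.2.2.2.1
  obtain ⟨b1, b2⟩ := SHp_row (z := z) (q := q) (w := w') (U := U)
    (fun c t ht => (hU t ht).2.2.1 c) fun t ht => (hU t ht).2.2.2.2.2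
  have hUn : ∀ᶠ t in 𝓝 t₀, t ∈ U := hUo.mem_nhds ht
  constructor
  · refine (sh_diff hUo hzU hi hy a1 a2 b1 b2 ht).congr_of_eventuallyEq ?_
    filter_upwards [hUn] with t htU
    exact gram_mul (hi t htU) hy.1 hy.2.1 hy.degs.1 _ _
  · refine (sh_lap hUo hzU hi hy a1 a2 ht).congr ?_
    filter_upwards [hUn] with t htU
    rw [gram_mul (hi t htU) hy.1 hy.2.1 hy.degs.1]

theorem SHp_entry {K : Type} [Fintype K] {p : ℕ} (A : Matrix K (Fin p) ℂ)
    (G : Matrix (Fin p) (Fin p) ℂ) (a b : K) :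
    (A * G * Aᴴ) a b = A a ⬝ᵥ (G *ᵥ star (A b)) := by
  rw [Matrix.mul_assoc]
  rfl

theorem SHp_quad {K : Type} [Fintype K] {p : ℕ} (A : Matrix K (Fin p) ℂ)
    (G : Matrix (Fin p) (Fin p) ℂ) (v : K → ℂ) :
    v ⬝ᵥ ((A * G * Aᴴ) *ᵥ star v) = (v ᵥ* A) ⬝ᵥ (G *ᵥ star (v ᵥ* A)) := by
  rw [Matrix.star_vecMul, ← Matrix.mulVec_mulVec, ← Matrix.mulVec_mulVec,
    Matrix.dotProduct_mulVec]

theorem SHp_mul {K L M : Type} [Fintype L] {A : ℂ → Matrix K L ℂ} {B : ℂ → Matrix L M ℂ} {t₀ : ℂ}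
    (hA : ∀ a b, AnalyticAt ℂ (fun t => A t a b) t₀)
    (hB : ∀ a b, AnalyticAt ℂ (fun t => B t a b) t₀) (a : K) (b : M) :
    AnalyticAt ℂ (fun t => (A t * B t) a b) t₀ := by
  simp only [Matrix.mul_apply]
  exact Finset.analyticAt_fun_sum _ fun c _ => (hA a c).mul (hB c b)

theorem SHp_det {K : Type} [Fintype K] [DecidableEq K] {A : ℂ → Matrix K K ℂ} {t₀ : ℂ}
    (hA : ∀ a b, AnalyticAt ℂ (fun t => A t a b) t₀) :
    AnalyticAt ℂ (fun t => (A t).det) t₀ := by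
  simp only [Matrix.det_apply']
  exact Finset.analyticAt_fun_sum _ fun σ _ =>
    analyticAt_const.mul (Finset.analyticAt_fun_prod _ fun c _ => hA _ _)

theorem SHp_inv {K : Type} [Fintype K] [DecidableEq K] {A : ℂ → Matrix K K ℂ} {t₀ : ℂ}
    (hA : ∀ a b, AnalyticAt ℂ (fun t => A t a b) t₀) (h0 : (A t₀).det ≠ 0) (a b : K) :
    AnalyticAt ℂ (fun t => (A t)⁻¹ a b) t₀ := by
  simp only [Matrix.inv_def, Ring.inverse_eq_inv', Matrix.smul_apply, smul_eq_mul,
    Matrix.adjugate_apply]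
  refine ((SHp_det hA).inv h0).mul (SHp_det fun c d => ?_)
  by_cases h : c = b
  · simp only [Matrix.updateRow_apply, if_pos h]
    exact analyticAt_const
  · simp only [Matrix.updateRow_apply, if_neg h]
    exact hA c d

theorem SHp_theta {z : ℂ → J → ℂ} {t₀ : ℂ} (hz : ∀ j, AnalyticAt ℂ (fun t => z t j) t₀)
    (hi : Function.Injective (z t₀)) (p q : ℕ) (a : Fin p) (b : Fin q) :
    AnalyticAt ℂ (fun t => theta p q (z t) (dz z t) a b) t₀ := by
  simp only [theta, Matrix.of_apply, hig, eval_pow, eval_X, dz, dpr]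
  refine Finset.analyticAt_fun_sum _ fun j _ => (((hz j).pow _).mul (hz j).deriv).div
    (Finset.analyticAt_fun_prod _ fun i _ => (hz j).sub (hz i)) ?_
  exact Finset.prod_ne_zero_iff.mpr fun i hi' =>
    sub_ne_zero.mpr fun h => (Finset.ne_of_mem_erase hi') (hi h).symm

theorem SHp_kerL {p q : ℕ} {Θ : ℂ → Matrix (Fin p) (Fin q) ℂ} {t₀ : ℂ}
    (hΘ : ∀ a b, AnalyticAt ℂ (fun t => Θ t a b) t₀) (π : Piv p q)
    (h0 : (blk (Θ t₀) π).det ≠ 0) (a : π.K) (c : Fin p) :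
    AnalyticAt ℂ (fun t => kerL (Θ t) π a c) t₀ := by
  simp only [kerL, Matrix.sub_apply]
  refine analyticAt_const.sub (SHp_mul (SHp_mul (fun a b => hΘ _ _) ?_) (fun a b => ?_) a c)
  · exact SHp_inv (A := fun t => blk (Θ t) π) (fun a b => hΘ _ _) h0
  · exact analyticAt_const

/-- Shrink to an open disc `U` on which everything holds. A row vector `v t` gives the kernel
family `∑ c, C ((v t ᵥ* A t) c) * X ^ c`; `gram_mul`, `sh_diff`, `sh_lap`, `logdet_lap`,
`posDef_of_right_inv`, `gram_posDef`. -/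
theorem sh_gdet {z : ℂ → J → ℂ} {t₀ : ℂ} (hz : ∀ j, AnalyticAt ℂ (fun t => z t j) t₀)
    {μ : ℝ} {p q : ℕ} (hy : Hyp μ p q (Fintype.card J)) {K : Type} [Fintype K] [DecidableEq K]
    {A : ℂ → Matrix K (Fin p) ℂ} (hA : ∀ a c, AnalyticAt ℂ (fun t => A t a c) t₀)
    (hk : ∀ᶠ t in 𝓝 t₀, Function.Injective (z t) ∧ A t * theta p q (z t) (dz z t) = 0)
    {R : Matrix (Fin p) K ℂ} (hR : A t₀ * R = 1) :
    LapGe (fun t => Real.log (gdet (A t) (gram μ p (z t)))) t₀ ∧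
      ContinuousAt (fun t => Real.log (gdet (A t) (gram μ p (z t)))) t₀ := by
  have hrow : ∀ a, ∀ᶠ t in 𝓝 t₀, A t a ᵥ* theta p q (z t) (dz z t) = 0 := fun a => by
    filter_upwards [hk] with t ht
    exact congrFun ht.2 a
  have hd : ∀ a b, DifferentiableAt ℝ (fun t => (A t * gram μ p (z t) * (A t)ᴴ) a b) t₀ := by
    intro a b
    simp only [SHp_entry]
    refine (SHp_loc hz hy (hA a) (hA b) ?_).1
    filter_upwards [hk, hrow a, hrow b] with t h1 h2 h3
    exact ⟨h1.1, h2, h3⟩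
  have hp : (A t₀ * gram μ p (z t₀) * (A t₀)ᴴ).PosDef :=
    posDef_of_right_inv hR (gram_posDef hk.self_of_nhds.1 hy.1 hy.2.1 hy.degs.1)
  constructor
  · refine logdet_lap (N := fun t => A t * gram μ p (z t) * (A t)ᴴ) ?_ hp hd fun v hv => ?_
    · filter_upwards [hk] with t ht
      exact Matrix.isHermitian_mul_mul_conjTranspose _
        (gram_posDef ht.1 hy.1 hy.2.1 hy.degs.1).isHermitian
    · simp only [SHp_quad]
      have hw : ∀ c, AnalyticAt ℂ (fun t => (v t ᵥ* A t) c) t₀ := fun c => by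
        simp only [Matrix.vecMul, dotProduct]
        exact Finset.analyticAt_fun_sum _ fun a _ => (hv a).mul (hA a c)
      refine (SHp_loc hz hy hw hw ?_).2
      filter_upwards [hk] with t ht
      have : (v t ᵥ* A t) ᵥ* theta p q (z t) (dz z t) = 0 := by
        rw [Matrix.vecMul_vecMul, ht.2, Matrix.vecMul_zero]
      exact ⟨ht.1, this, this⟩
  · have hc : ContinuousAt (fun t => A t * gram μ p (z t) * (A t)ᴴ) t₀ :=
      continuousAt_pi.mpr fun a => continuousAt_pi.mpr fun b => (hd a b).continuousAt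
    have hc2 : ContinuousAt (fun t => gdet (A t) (gram μ p (z t))) t₀ :=
      Complex.continuous_re.continuousAt.comp
        ((continuous_id.matrix_det).continuousAt.comp hc)
    exact hc2.log (Complex.pos_iff.mp hp.det_pos).1.ne'

/-- the entries of `theta`, `blk`, its inverse (`Matrix.inv_def`, adjugate) and `kerL` are
analytic at `t₀`; `log Phi` is the sum of three terms (all factors are positive near `t₀`) -/
theorem sh_Phi {z : ℂ → J → ℂ} {t₀ : ℂ} (hz : ∀ j, AnalyticAt ℂ (fun t => z t j) t₀)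
    {p q : ℕ} (hy : Hyp (1 / 4) p q (Fintype.card J)) (π : Piv p q)
    (hk : ∀ᶠ t in 𝓝 t₀, Function.Injective (z t) ∧ Valid (theta p q (z t) (dz z t)) π) :
    LapGe (fun t => Real.log (Phi p q (z t) (dz z t) π)) t₀ ∧
      ContinuousAt (fun t => Real.log (Phi p q (z t) (dz z t) π)) t₀ := by
  obtain ⟨hi, hv⟩ := hk.self_of_nhds
  have hΘ := SHp_theta hz hi p q
  have hy' : Hyp (3 / 4) q p (Fintype.card J) := by
    have := hy.swap
    rwa [show (1 - 1 / 4 : ℝ) = 3 / 4 by norm_num] at this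
  obtain ⟨a1, a2⟩ := sh_gdet hz hy (A := fun t => kerL (theta p q (z t) (dz z t)) π)
    (SHp_kerL hΘ π hv.1) (hk.mono fun t ht => ⟨ht.1, ht.2.kerL_mul⟩) (kerL_mul_sel _ π)
  obtain ⟨b1, b2⟩ := sh_gdet hz hy' (A := fun t => kerL (theta p q (z t) (dz z t))ᵀ π.swap)
    (SHp_kerL (Θ := fun t => (theta p q (z t) (dz z t))ᵀ) (fun a b => hΘ b a) π.swap
      hv.transpose.1)
    (hk.mono fun t ht => ⟨ht.1, by
      rw [← theta_transpose (p := p) (q := q)]
      exact ht.2.transpose.kerL_mul⟩) (kerL_mul_sel _ π.swap)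
  have hb : AnalyticAt ℂ (fun t => (blk (theta p q (z t) (dz z t)) π).det) t₀ :=
    SHp_det (A := fun t => blk (theta p q (z t) (dz z t)) π) fun a b => hΘ _ _
  have c1 := lapGe_log hb hv.1 2
  have c2 : ContinuousAt
      (fun t => 2 * Real.log ‖(blk (theta p q (z t) (dz z t)) π).det‖) t₀ :=
    continuousAt_const.mul (hb.continuousAt.norm.log (norm_ne_zero_iff.mpr hv.1))
  have he : ∀ᶠ t in 𝓝 t₀,
      Real.log (gdet (kerL (theta p q (z t) (dz z t)) π) (gram (1 / 4) p (z t))) +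
        Real.log (gdet (kerL (theta p q (z t) (dz z t))ᵀ π.swap) (gram (3 / 4) q (z t))) +
        2 * Real.log ‖(blk (theta p q (z t) (dz z t)) π).det‖ =
      Real.log (Phi p q (z t) (dz z t) π) := by
    filter_upwards [hk] with t ht
    have g1 := gdet_kerL_pos (Θ := theta p q (z t) (dz z t)) (π := π)
      (gram_posDef ht.1 hy.1 hy.2.1 hy.degs.1)
    have g2 := gdet_kerL_pos (Θ := (theta p q (z t) (dz z t))ᵀ) (π := π.swap)
      (gram_posDef ht.1 hy'.1 hy'.2.1 hy'.degs.1)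
    have g3 := norm_ne_zero_iff.mpr ht.2.1
    unfold Phi phi
    rw [Real.log_mul (mul_pos g1 g2).ne' (pow_ne_zero 2 g3), Real.log_mul g1.ne' g2.ne',
      Real.log_pow]
    norm_num
  exact ⟨((a1.add b1).add c1).congr he, ((a2.add b2).add c2).congr he⟩

theorem sh_Lsum {z : ℂ → J → ℂ} {t₀ : ℂ} (hz : ∀ j, AnalyticAt ℂ (fun t => z t j) t₀)
    (hi : Function.Injective (z t₀)) (c : ℝ) :
    LapGe (fun t => c * Lsum (z t)) t₀ ∧ ContinuousAt (fun t => Lsum (z t)) t₀ := by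
  have h0 : ∀ i, ∀ j ∈ Finset.univ.erase i, z t₀ i - z t₀ j ≠ 0 := fun i j hj =>
    sub_ne_zero.mpr fun h => (Finset.ne_of_mem_erase hj) (hi h).symm
  constructor
  · simp only [Lsum, Finset.mul_sum]
    exact LapGe.sum fun i _ => LapGe.sum fun j hj =>
      lapGe_log (h := fun t => z t i - z t j) ((hz i).sub (hz j)) (h0 i j hj) c
  · unfold Lsum
    refine tendsto_finsetSum _ fun i _ => tendsto_finsetSum _ fun j hj => ?_
    exact (((hz i).sub (hz j)).continuousAt.norm.log (norm_ne_zero_iff.mpr (h0 i j hj)))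

end Pool.Agent.P.MP_a62d3c_co.FF
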