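import Pool.Agent.P.MP_a62d3c_co.Defs

namespace Pool.Agent.P.MP_a62d3c_co.FF

/-- `q` lists the points of `S` as a stretched path: `q 0` is a vertex of the convex hull of `S`
and no line through two later points `q j`, `q k` has two consecutive points `q i`, `q i'`
strictly on opposite sides -/
def StretchedPath (S : Finset Pt) (n : ℕ) (q : Fin n → Pt) : Prop :=
  Function.Injective q ∧ Set.range q = (S : Set Pt) ∧
    (∀ i : Fin n, (i : ℕ) = 0 → q i ∈ Set.extremePoints ℝ (convexHull ℝ (S : Set Pt))) ∧
    ∀ i i' j k : Fin n, (i' : ℕ) = i + 1 → i' < j → i' < k →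
      orient (q j) (q k) (q i) * orient (q j) (q k) (q i') ≠ -1

/-- `S` is in general position and has a stretched path -/
def Stretched (S : Finset Pt) : Prop :=
  GeneralPosition S ∧ ∃ (n : ℕ) (q : Fin n → Pt), StretchedPath S n q

end Pool.Agent.P.MP_a62d3c_co.FF
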