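import Pool.Agent.P.MP_a62d3c_co.FF.Edge
import Pool.Agent.P.MP_a62d3c_co.FF.Lip
import Pool.Agent.P.MP_a62d3c_co.FF.Tree

namespace Pool.Agent.P.MP_a62d3c_co.FF

open Filter Topology Polynomial MeasureTheory Asymptotics
open scoped ComplexConjugate Matrix ComplexOrder

variable {J : Type} [Fintype J] [DecidableEq J]

/-- the remainder `L` of the derivative -/
noncomputable def Th_L {U : Type} [Fintype U] (z τ : ℂ → J → ℂ) (n0 : ℤ) (S : U → Finset J)
    (len : U → ℕ) (j0 : J) (rep : U → J) (s : ℂ) (i : J) : ℂ :=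
  τ s i - s⁻¹ * ((n0 : ℂ) * (z s i - z s j0) +
    ∑ u, if i ∈ S u then (len u : ℂ) * (z s i - z s (rep u)) else 0)

omit [Fintype J] in
theorem Th_edge_small {U : Type} {z : ℂ → J → ℂ} {d : J → J → ℤ} {n0 : ℤ} {S : U → Finset J}
    {lo : U → ℤ} {len : U → ℕ} (hS : Sep z d) (T : IsTree d n0 S lo len) {u : U} {i j c : J}
    (hi : i ∈ S u) (hj : j ∉ S u) (hc : c ∈ S u) :
    Bd (fun s => (len u : ℂ) * (z s i - z s c)) ((d i j : ℝ) + 1) := by
  by_cases hl : len u = 0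
  · simp only [hl, Nat.cast_zero, zero_mul]
    exact bd_zero _
  by_cases hic : i = c
  · simp only [hic, sub_self, mul_zero]
    exact bd_zero _
  refine ((hS.up i c hic).mono ?_).const_mul _
  have h1 := T.inn u hl i hi c hc hic
  have h2 := T.out u hl i hi j hj
  have h3 : d i j + 1 ≤ d i c := by omega
  exact_mod_cast h3

theorem Th_L_bd {U : Type} [Fintype U] {z τ : ℂ → J → ℂ} {d : J → J → ℤ} {n0 : ℤ}
    {S : U → Finset J} {lo : U → ℤ} {len : U → ℕ} (hS : Sep z d) (hD : Der z τ d)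
    (T : IsTree d n0 S lo len) (j0 : J) {rep : U → J} (hrep : ∀ u, ∀ i ∈ S u, rep u ∈ S u)
    (i j : J) (hij : i ≠ j) :
    Bd (fun s => Th_L z τ n0 S len j0 rep s i - Th_L z τ n0 S len j0 rep s j) (d i j) := by
  have hE : ∀ u, Bd (fun s => (if i ∈ S u then (len u : ℂ) * (z s i - z s (rep u)) else 0) -
      (if j ∈ S u then (len u : ℂ) * (z s j - z s (rep u)) else 0) -
      (if i ∈ S u ∧ j ∈ S u then (len u : ℂ) else 0) * (z s i - z s j)) ((d i j : ℝ) + 1) := by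
    intro u
    by_cases h1 : i ∈ S u
    · by_cases h2 : j ∈ S u
      · refine (bd_zero _).congr (Eventually.of_forall fun s => ?_)
        rw [if_pos h1, if_pos h2, if_pos ⟨h1, h2⟩]
        ring
      · refine (Th_edge_small hS T h1 h2 (hrep u i h1)).congr (Eventually.of_forall fun s => ?_)
        rw [if_pos h1, if_neg h2, if_neg fun h => h2 h.2]
        ring
    · by_cases h2 : j ∈ S u
      · have := (Th_edge_small hS T h2 h1 (hrep u j h2)).neg
        rw [T.ult.symm j i] at this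
        refine this.congr (Eventually.of_forall fun s => ?_)
        rw [if_neg h1, if_pos h2, if_neg fun h => h1 h.1]
        ring
      · refine (bd_zero _).congr (Eventually.of_forall fun s => ?_)
        rw [if_neg h1, if_neg h2, if_neg fun h => h1 h.1]
        ring
  have h1 := (hD i j hij).sub (Bd.sum (A := Finset.univ) fun u _ => hE u)
  refine ((bd_inv.mul h1).of_eq (by ring)).congr (L0_ne.mono fun s hs => ?_)
  have e : (d i j : ℂ) = n0 + ∑ u, if i ∈ S u ∧ j ∈ S u then (len u : ℂ) else 0 := by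
    rw [T.d_eq hij]
    push_cast
    rfl
  simp only [Th_L, Finset.sum_sub_distrib, ← Finset.sum_mul]
  rw [e]
  field_simp
  ring

omit [DecidableEq J] in
theorem Th_natDegree (z : J → ℂ) (mu : J → ℕ) : (nP z mu).natDegree ≤ ∑ i, mu i := by
  unfold nP
  refine (natDegree_prod_le _ _).trans (Finset.sum_le_sum fun i _ => ?_)
  refine natDegree_pow_le.trans ?_
  rw [natDegree_X_sub_C, mul_one]

theorem Th_split {U : Type} [Fintype U] (z τ : ℂ → J → ℂ) (n0 : ℤ) (S : U → Finset J)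
    (len : U → ℕ) (j0 : J) (rep : U → J) (s : ℂ) (P : ℂ[X]) :
    hig (z s) (τ s) P = hig (z s) (Th_L z τ n0 S len j0 rep s) P +
      s⁻¹ * n0 * hig (z s) (fun _ => 1) (P * (X - C (z s j0))) +
      ∑ u, (len u : ℂ) * (s⁻¹ * ∑ i ∈ S u,
        (z s i - z s (rep u)) * P.eval (z s i) / dpr (z s) i) := by
  have e : ∀ u, (len u : ℂ) * (s⁻¹ * ∑ i ∈ S u,
      (z s i - z s (rep u)) * P.eval (z s i) / dpr (z s) i) =
      ∑ i, s⁻¹ * (P.eval (z s i) / dpr (z s) i) *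
        (if i ∈ S u then (len u : ℂ) * (z s i - z s (rep u)) else 0) := by
    intro u
    simp only [mul_ite, mul_zero]
    rw [Finset.sum_ite_mem, Finset.univ_inter, Finset.mul_sum, Finset.mul_sum]
    exact Finset.sum_congr rfl fun i _ => by ring
  simp only [e]
  rw [Finset.sum_comm]
  unfold hig
  rw [Finset.mul_sum, ← Finset.sum_add_distrib, ← Finset.sum_add_distrib]
  refine Finset.sum_congr rfl fun i _ => ?_
  rw [← Finset.mul_sum]
  simp only [Th_L, eval_mul, eval_sub, eval_X, eval_C]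
  ring

theorem Th_En (d : J → J → ℤ) (mu mu' : J → ℕ) (μ : ℝ) (j : J) (ρ : ℝ) :
    En d mu μ j ρ + En d mu' (1 - μ) j ρ =
      2 * ρ + ∑ i, ((((mu + mu') i : ℕ) : ℝ) - 1) * mn d i j ρ := by
  unfold En
  have : ∑ i, ((((mu + mu') i : ℕ) : ℝ) - 1) * mn d i j ρ =
      ∑ i, ((mu i : ℝ) - μ) * mn d i j ρ + ∑ i, ((mu' i : ℝ) - (1 - μ)) * mn d i j ρ := by
    rw [← Finset.sum_add_distrib]
    refine Finset.sum_congr rfl fun i _ => ?_
    rw [Pi.add_apply]
    push_cast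
    ring
  rw [this]
  ring

/-- Paper section 5, Theta. Choose `j₀`, and `rep u ∈ S u` when `S u` is nonempty. Put
`L s i = τ s i - s⁻¹ (n0 (z i - z j₀) + ∑_{u ∋ i} len u (z i - z (rep u)))`; `Der` and `IsTree.d_eq`
give `Bd (L i - L j) (d i j)`, so `lip` applies (`En mu μ + En mu' (1 - μ)` is its exponent). The `n0`
term vanishes (`hig_one`, degree `a + b + 1 ≤ n - 2`). For `v = (u, k)` with `len u ≠ 0`, `S u`
nonempty, `k + 2 ≤ |S u| < k + 2 + q` let `a v s x = if mu x (S u) = k then ∏ … else 0` and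
`b v s y = if k + mu' y (S u) + 2 = |S u| then len u * … else 0` (`edge_fac`); otherwise `a = b = 0`,
`α = β = 0`. `Θ₀` is the difference; `edge_reg`, `edge_rem`. -/
theorem th {U : Type} [Fintype U] {z τ : ℂ → J → ℂ} {d : J → J → ℤ} {n0 : ℤ} {S : U → Finset J}
    {lo : U → ℤ} {len : U → ℕ} (hS : Sep z d) (hD : Der z τ d) (T : IsTree d n0 S lo len)
    {p q : ℕ} (hn : p + q + 1 ≤ Fintype.card J) {μ : ℝ} {mu : Fin p → J → ℕ}
    {mu' : Fin q → J → ℕ} {ν : Fin p → ℝ} {ν' : Fin q → ℝ} (hmu : ∀ x, ∑ i, mu x i = x)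
    (hmu' : ∀ y, ∑ i, mu' y i = y)
    (hν : ∀ x j (ρ : ℝ), (n0 : ℝ) ≤ ρ → ν x ≤ En d (mu x) μ j ρ)
    (hν' : ∀ y j (ρ : ℝ), (n0 : ℝ) ≤ ρ → ν' y ≤ En d (mu' y) (1 - μ) j ρ) :
    ∃ (a : U × Fin p → ℂ → Fin p → ℂ) (b : U × Fin p → ℂ → Fin q → ℂ) (α β : U × Fin p → ℝ),
      (∀ x y, Bd (fun s => hig (z s) (τ s) (nP (z s) (mu x + mu' y)) - ∑ v, a v s x * b v s y)
        (ν x + ν' y)) ∧
      (∀ v x, Bd (fun s => a v s x) (ν x + α v)) ∧ (∀ v y, Bd (fun s => b v s y) (ν' y + β v)) ∧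
      ∑ v, max 0 (-α v - β v) ≤ ∑ u, cost p q μ (S u).card (len u) := by
  obtain ⟨j0⟩ : Nonempty J := Fintype.card_pos_iff.1 (by omega)
  obtain ⟨rep, hrep⟩ : ∃ rep : U → J, ∀ u, ∀ i ∈ S u, rep u ∈ S u := by
    have : ∀ u, ∃ c : J, ∀ i ∈ S u, c ∈ S u := fun u => by
      by_cases h : (S u).Nonempty
      · obtain ⟨c, hc⟩ := h
        exact ⟨c, fun _ _ => hc⟩
      · exact ⟨j0, fun i hi => absurd ⟨i, hi⟩ h⟩
    choose rep h using this
    exact ⟨rep, h⟩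
  have hin : ∀ u, len u ≠ 0 → rep u ∈ S u → ∀ i ∈ S u, i ≠ rep u →
      lo u + len u ≤ d i (rep u) := fun u hl hc i hi hic => T.inn u hl i hi _ hc hic
  have hout : ∀ u, len u ≠ 0 → rep u ∈ S u → ∀ i, i ∉ S u → d i (rep u) ≤ lo u :=
    fun u hl hc i hi => by rw [T.ult.symm]; exact T.out u hl _ hc i hi
  have hlo : ∀ u, len u ≠ 0 → (n0 : ℝ) ≤ (lo u : ℝ) ∧ (n0 : ℝ) ≤ (lo u : ℝ) + (len u : ℝ) :=
    fun u hl => by
      have h1 : (n0 : ℝ) ≤ (lo u : ℝ) := by exact_mod_cast T.lo_ge u hl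
      have h2 : (0 : ℝ) ≤ (len u : ℝ) := Nat.cast_nonneg _
      exact ⟨h1, by linarith⟩
  have hne : ∀ (u : U) (k : ℕ), k + 2 ≤ (S u).card → rep u ∈ S u := fun u k h => by
    obtain ⟨i, hi⟩ : (S u).Nonempty := Finset.card_pos.1 (by omega)
    exact hrep u i hi
  have hfac : ∀ v : U × Fin p, ∃ α β : ℝ,
      ((len v.1 ≠ 0 ∧ (v.2 : ℕ) + 2 ≤ (S v.1).card ∧ (S v.1).card < (v.2 : ℕ) + 2 + q) →
        α + β = len v.1 * |((v.2 : ℕ) : ℝ) + 1 - μ * (S v.1).card| - 1 ∧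
        (∀ x, ∑ i ∈ S v.1, mu x i = v.2 →
          Bd (fun s => ∏ i ∈ (S v.1)ᶜ, (z s (rep v.1) - z s i) ^ mu x i) (ν x + α)) ∧
        ∀ y, (v.2 : ℕ) + ∑ i ∈ S v.1, mu' y i + 2 = (S v.1).card →
          Bd (fun s => s⁻¹ * (∏ i ∈ (S v.1)ᶜ, (z s (rep v.1) - z s i) ^ mu' y i) /
            ∏ i ∈ (S v.1)ᶜ, (z s (rep v.1) - z s i)) (ν' y + β)) ∧
      (¬ (len v.1 ≠ 0 ∧ (v.2 : ℕ) + 2 ≤ (S v.1).card ∧ (S v.1).card < (v.2 : ℕ) + 2 + q) →
        α = 0 ∧ β = 0) := by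
    intro v
    by_cases hc : len v.1 ≠ 0 ∧ (v.2 : ℕ) + 2 ≤ (S v.1).card ∧ (S v.1).card < (v.2 : ℕ) + 2 + q
    · have hr := hne v.1 v.2 hc.2.1
      obtain ⟨α, β, k1, k2, k3⟩ := edge_fac hS hr (hin v.1 hc.1 hr) (hout v.1 hc.1 hr) μ v.2
      exact ⟨α, β, fun _ => ⟨k1,
        fun x hx => k2 _ _ hx ⟨hν x _ _ (hlo _ hc.1).1, hν x _ _ (hlo _ hc.1).2⟩,
        fun y hy => k3 _ _ hy ⟨hν' y _ _ (hlo _ hc.1).1, hν' y _ _ (hlo _ hc.1).2⟩⟩,
        fun h => absurd hc h⟩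
    · exact ⟨0, 0, fun h => absurd h hc, fun _ => ⟨rfl, rfl⟩⟩
  choose α β hαβ hz using hfac
  refine ⟨fun v s x => if (len v.1 ≠ 0 ∧ (v.2 : ℕ) + 2 ≤ (S v.1).card ∧
      (S v.1).card < (v.2 : ℕ) + 2 + q) ∧ ∑ i ∈ S v.1, mu x i = v.2 then
        ∏ i ∈ (S v.1)ᶜ, (z s (rep v.1) - z s i) ^ mu x i else 0,
    fun v s y => if (len v.1 ≠ 0 ∧ (v.2 : ℕ) + 2 ≤ (S v.1).card ∧
      (S v.1).card < (v.2 : ℕ) + 2 + q) ∧ (v.2 : ℕ) + ∑ i ∈ S v.1, mu' y i + 2 = (S v.1).card then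
        (len v.1 : ℂ) * (s⁻¹ * (∏ i ∈ (S v.1)ᶜ, (z s (rep v.1) - z s i) ^ mu' y i) /
          ∏ i ∈ (S v.1)ᶜ, (z s (rep v.1) - z s i)) else 0,
    α, β, fun x y => ?_, fun v x => ?_, fun v y => ?_, ?_⟩
  · have hx := x.isLt
    have hy := y.isLt
    have hsum : ∑ i, (mu x + mu' y) i = x + y := by
      simp only [Pi.add_apply, Finset.sum_add_distrib, hmu, hmu']
    have h1 : Bd (fun s => hig (z s) (Th_L z τ n0 S len j0 rep s) (nP (z s) (mu x + mu' y)))
        (ν x + ν' y) := by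
      refine lip hS T.ult T.base (Th_L_bd hS hD T j0 hrep) _ (by omega) fun j l hl => ?_
      have hl' : (n0 : ℝ) ≤ (l : ℝ) := by exact_mod_cast hl
      rw [← Th_En d (mu x) (mu' y) μ]
      exact add_le_add (hν x j l hl') (hν' y j l hl')
    have h2 : ∀ u, Bd (fun s => (len u : ℂ) * (s⁻¹ * ∑ i ∈ S u,
        (z s i - z s (rep u)) * (nP (z s) (mu x + mu' y)).eval (z s i) / dpr (z s) i) -
        ∑ k : Fin p, (if (len u ≠ 0 ∧ (k : ℕ) + 2 ≤ (S u).card ∧
          (S u).card < (k : ℕ) + 2 + q) ∧ ∑ i ∈ S u, mu x i = k then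
            ∏ i ∈ (S u)ᶜ, (z s (rep u) - z s i) ^ mu x i else 0) *
          (if (len u ≠ 0 ∧ (k : ℕ) + 2 ≤ (S u).card ∧ (S u).card < (k : ℕ) + 2 + q) ∧
            (k : ℕ) + ∑ i ∈ S u, mu' y i + 2 = (S u).card then
            (len u : ℂ) * (s⁻¹ * (∏ i ∈ (S u)ᶜ, (z s (rep u) - z s i) ^ mu' y i) /
              ∏ i ∈ (S u)ᶜ, (z s (rep u) - z s i)) else 0)) (ν x + ν' y) := by
      intro u
      have k1 : ∑ i ∈ S u, mu x i ≤ x := by
        rw [← hmu x]
        exact Finset.sum_le_sum_of_subset (Finset.subset_univ _)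
      have k2 : ∑ i ∈ S u, mu' y i ≤ y := by
        rw [← hmu' y]
        exact Finset.sum_le_sum_of_subset (Finset.subset_univ _)
      by_cases hl : len u = 0
      · refine (bd_zero _).congr (Eventually.of_forall fun s => ?_)
        rw [Finset.sum_eq_zero (s := Finset.univ)
          (fun k _ => by rw [if_neg fun h => h.1.1 hl, zero_mul]), hl]
        simp
      by_cases hk : ∑ i ∈ S u, mu x i + ∑ i ∈ S u, mu' y i + 2 = (S u).card
      · have hr := hne u (∑ i ∈ S u, mu x i) (by omega)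
        have := (edge_rem hS hr hl (hin u hl hr) (hout u hl hr)
          ⟨hν x _ _ (hlo u hl).1, hν x _ _ (hlo u hl).2⟩
          ⟨hν' y _ _ (hlo u hl).1, hν' y _ _ (hlo u hl).2⟩ hk).const_mul (len u : ℂ)
        refine this.congr (Eventually.of_forall fun s => ?_)
        have hc : len u ≠ 0 ∧ ∑ i ∈ S u, mu x i + 2 ≤ (S u).card ∧
            (S u).card < ∑ i ∈ S u, mu x i + 2 + q := ⟨hl, by omega, by omega⟩
        rw [Finset.sum_eq_single (⟨∑ i ∈ S u, mu x i, by omega⟩ : Fin p)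
          (fun k _ hk' => by rw [if_neg fun h => hk' (Fin.ext h.2.symm), zero_mul])
          (fun h => absurd (Finset.mem_univ _) h), if_pos ⟨hc, rfl⟩, if_pos ⟨hc, hk⟩]
        ring
      · have hz0 : ∀ s : ℂ, ∑ k : Fin p, (if (len u ≠ 0 ∧ (k : ℕ) + 2 ≤ (S u).card ∧
            (S u).card < (k : ℕ) + 2 + q) ∧ ∑ i ∈ S u, mu x i = k then
              ∏ i ∈ (S u)ᶜ, (z s (rep u) - z s i) ^ mu x i else 0) *
            (if (len u ≠ 0 ∧ (k : ℕ) + 2 ≤ (S u).card ∧ (S u).card < (k : ℕ) + 2 + q) ∧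
              (k : ℕ) + ∑ i ∈ S u, mu' y i + 2 = (S u).card then
              (len u : ℂ) * (s⁻¹ * (∏ i ∈ (S u)ᶜ, (z s (rep u) - z s i) ^ mu' y i) /
                ∏ i ∈ (S u)ᶜ, (z s (rep u) - z s i)) else 0) = 0 := fun s =>
          Finset.sum_eq_zero fun k _ => by
            by_cases e : ∑ i ∈ S u, mu x i = k
            · rw [if_neg (c := _ ∧ (k : ℕ) + ∑ i ∈ S u, mu' y i + 2 = (S u).card)
                fun h => hk (by rw [e]; exact h.2), mul_zero]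
            · rw [if_neg fun h => e h.2, zero_mul]
        simp only [hz0, sub_zero]
        by_cases hS0 : (S u).Nonempty
        · obtain ⟨i0, hi0⟩ := hS0
          have hr := hrep u i0 hi0
          exact (edge_reg hS hr hl (hin u hl hr) (hout u hl hr)
            ⟨hν x _ _ (hlo u hl).1, hν x _ _ (hlo u hl).2⟩
            ⟨hν' y _ _ (hlo u hl).1, hν' y _ _ (hlo u hl).2⟩ hk).const_mul (len u : ℂ)
        · rw [Finset.not_nonempty_iff_eq_empty.1 hS0]
          simp only [Finset.sum_empty, mul_zero]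
          exact bd_zero _
    refine (h1.add (Bd.sum (A := Finset.univ) fun u _ => h2 u)).congr (hS.inj.mono fun s hs => ?_)
    have h3 : hig (z s) (fun _ => 1) (nP (z s) (mu x + mu' y) * (X - C (z s j0))) = 0 := by
      refine hig_one hs ?_
      have m1 := natDegree_mul_le (p := nP (z s) (mu x + mu' y)) (q := X - C (z s j0))
      have m2 := Th_natDegree (z s) (mu x + mu' y)
      rw [natDegree_X_sub_C] at m1
      omega
    rw [Th_split z τ n0 S len j0 rep s, h3, Fintype.sum_prod_type, Finset.sum_sub_distrib]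
    ring
  · by_cases hc : (len v.1 ≠ 0 ∧ (v.2 : ℕ) + 2 ≤ (S v.1).card ∧
        (S v.1).card < (v.2 : ℕ) + 2 + q) ∧ ∑ i ∈ S v.1, mu x i = v.2
    · simp only [if_pos hc]
      exact (hαβ v hc.1).2.1 x hc.2
    · simp only [if_neg hc]
      exact bd_zero _
  · by_cases hc : (len v.1 ≠ 0 ∧ (v.2 : ℕ) + 2 ≤ (S v.1).card ∧
        (S v.1).card < (v.2 : ℕ) + 2 + q) ∧
        (v.2 : ℕ) + ∑ i ∈ S v.1, mu' y i + 2 = (S v.1).card
    · simp only [if_pos hc]
      exact ((hαβ v hc.1).2.2 y hc.2).const_mul _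
    · simp only [if_neg hc]
      exact bd_zero _
  · rw [Fintype.sum_prod_type]
    refine Finset.sum_le_sum fun u _ => le_of_eq ?_
    unfold cost
    rw [← Fin.sum_univ_eq_sum_range (fun k : ℕ =>
      if len u ≠ 0 ∧ k + 2 ≤ (S u).card ∧ (S u).card < k + 2 + q then
        max (1 - len u * |(k : ℝ) + 1 - μ * (S u).card|) 0 else 0) p]
    refine Finset.sum_congr rfl fun k _ => ?_
    by_cases hc : len u ≠ 0 ∧ (k : ℕ) + 2 ≤ (S u).card ∧ (S u).card < (k : ℕ) + 2 + q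
    · have e := (hαβ (u, k) hc).1
      rw [if_pos hc, max_comm]
      refine congrArg (fun t : ℝ => max t 0) ?_
      simp only at e
      linarith
    · obtain ⟨e1, e2⟩ := hz (u, k) hc
      rw [if_neg hc, e1, e2]
      simp

end Pool.Agent.P.MP_a62d3c_co.FF
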